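import Mathlib

set_option autoImplicit false

namespace Pool.Agent.Lib.MP_68a45e_nt

open Finset

/-- Divisor bound with natural exponents. -/
lemma succ_pow_le (a e : ℕ) (ha : 0 < a) : (e + 1) ^ a ≤ a ^ a * 2 ^ e := by
  have h1 : e + 1 ≤ a * (e / a + 1) := by
    have := Nat.div_add_mod e a
    have := Nat.mod_lt e ha
    nlinarith
  have h2 : e / a + 1 ≤ 2 ^ (e / a) := Nat.lt_two_pow_self
  have h3 : (e / a) * a ≤ e := Nat.div_mul_le_self e a
  calc (e + 1) ^ a ≤ (a * 2 ^ (e / a)) ^ a := by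
        apply Nat.pow_le_pow_left
        exact h1.trans (Nat.mul_le_mul_left _ h2)
    _ = a ^ a * 2 ^ ((e / a) * a) := by rw [mul_pow, ← pow_mul]
    _ ≤ a ^ a * 2 ^ e := Nat.mul_le_mul_left _ (Nat.pow_le_pow_right (by norm_num) h3)

lemma divisor_bound (a : ℕ) (ha : 0 < a) :
    ∃ C : ℕ, 1 ≤ C ∧ ∀ n : ℕ, n ≠ 0 → n.divisors.card ^ a ≤ C * n := by
  refine ⟨(a ^ a) ^ (2 ^ a), Nat.one_le_pow _ _ (Nat.pow_pos ha), fun n hn => ?_⟩
  rw [Nat.card_divisors hn, ← Finset.prod_pow]
  have hn' : n = ∏ p ∈ n.primeFactors, p ^ n.factorization p := by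
    conv_lhs => rw [← Nat.prod_factorization_pow_eq_self hn]
    rfl
  have key : ∀ p ∈ n.primeFactors, (n.factorization p + 1) ^ a ≤
      (if p < 2 ^ a then a ^ a else 1) * p ^ n.factorization p := by
    intro p hp
    have hp2 : 2 ≤ p := (Nat.prime_of_mem_primeFactors hp).two_le
    split_ifs with h
    · exact (succ_pow_le a _ ha).trans (Nat.mul_le_mul_left _ (Nat.pow_le_pow_left hp2 _))
    · rw [one_mul]
      have h2 : n.factorization p + 1 ≤ 2 ^ (n.factorization p) := Nat.lt_two_pow_self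
      calc (n.factorization p + 1) ^ a ≤ (2 ^ (n.factorization p)) ^ a := Nat.pow_le_pow_left h2 _
        _ = (2 ^ a) ^ (n.factorization p) := by rw [← pow_mul, ← pow_mul, mul_comm]
        _ ≤ p ^ n.factorization p := Nat.pow_le_pow_left (not_lt.mp h) _
  calc ∏ p ∈ n.primeFactors, (n.factorization p + 1) ^ a
      ≤ ∏ p ∈ n.primeFactors, ((if p < 2 ^ a then a ^ a else 1) * p ^ n.factorization p) :=
        Finset.prod_le_prod' key
    _ = (∏ p ∈ n.primeFactors, (if p < 2 ^ a then a ^ a else 1)) * n := by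
        rw [Finset.prod_mul_distrib, ← hn']
    _ ≤ (a ^ a) ^ (2 ^ a) * n := by
        apply Nat.mul_le_mul_right
        rw [Finset.prod_ite, Finset.prod_const_one, mul_one, Finset.prod_const]
        apply Nat.pow_le_pow_right (Nat.pow_pos ha)
        calc (n.primeFactors.filter (fun p => p < 2 ^ a)).card ≤ (range (2 ^ a)).card := by
              apply card_le_card
              intro p hp
              simp only [mem_filter] at hp
              simpa using hp.2
          _ = 2 ^ a := card_range _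

lemma harm_le (Z : ℕ) : ∑ n ∈ Icc 1 Z, (1 : ℝ) / n ≤ 1 + Real.log Z := by
  have := harmonic_le_one_add_log Z
  rw [harmonic_eq_sum_Icc] at this
  push_cast at this
  simpa [one_div] using this

/-- The quantity playing the role of x to the power o(1). -/
lemma exists_Lam (A a : ℕ) : ∃ C : ℝ, 0 < C ∧ ∀ y : ℕ, 1 ≤ y → ∃ L : ℝ, 1 ≤ L ∧
    (∀ n : ℕ, n ≠ 0 → n ≤ y ^ A → (n.divisors.card : ℝ) ≤ L) ∧
    (∑ n ∈ Icc 1 (y ^ A), (1 : ℝ) / n ≤ L) ∧ L ^ a ≤ C * y := by
  obtain ⟨C, hC1, hC⟩ := divisor_bound ((a + 1) * (A + 1)) (by positivity)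
  refine ⟨2 ^ a * C, by positivity, fun y hy => ?_⟩
  have hZ : 1 ≤ y ^ A := Nat.one_le_pow _ _ hy
  obtain ⟨n0, hn0, hmax⟩ := Finset.exists_max_image (Icc 1 (y ^ A)) (fun n => n.divisors.card)
    ⟨1, by simp [hZ]⟩
  simp only [mem_Icc] at hn0 hmax
  have h1 : 1 ≤ n0.divisors.card := by simpa using hmax 1 ⟨le_rfl, hZ⟩
  have h1' : (1 : ℝ) ≤ n0.divisors.card := by exact_mod_cast h1
  refine ⟨2 * n0.divisors.card, by linarith, fun n hn hn' => ?_, ?_, ?_⟩
  · have : (n.divisors.card : ℝ) ≤ n0.divisors.card := by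
      exact_mod_cast hmax n ⟨Nat.one_le_iff_ne_zero.mpr hn, hn'⟩
    linarith
  · set j := Nat.log 2 (y ^ A) with hj
    have h2 : 2 ^ j ≤ y ^ A := Nat.pow_log_le_self 2 (by omega)
    have h3 : y ^ A < 2 ^ (j + 1) := Nat.lt_pow_succ_log_self (by norm_num) _
    have h4 : j + 1 ≤ n0.divisors.card := by
      have := hmax (2 ^ j) ⟨Nat.one_le_two_pow, h2⟩
      rwa [Nat.divisors_prime_pow Nat.prime_two, card_map, card_range] at this
    have h5 : Real.log ((y ^ A : ℕ) : ℝ) ≤ (j + 1 : ℕ) * Real.log 2 := by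
      rw [← Real.log_pow]
      apply Real.log_le_log (by exact_mod_cast hZ)
      exact_mod_cast h3.le
    have h6 : Real.log 2 ≤ 1 := by
      have := Real.log_two_lt_d9; linarith
    have h7 : ((j + 1 : ℕ) : ℝ) ≤ n0.divisors.card := by exact_mod_cast h4
    have h8 := harm_le (y ^ A)
    have h9 : ((j + 1 : ℕ) : ℝ) * Real.log 2 ≤ (j + 1 : ℕ) := by
      have : (0 : ℝ) ≤ (j + 1 : ℕ) := by positivity
      nlinarith
    linarith
  · have h2 := hC n0 (by omega)
    have h3 : (n0.divisors.card ^ (a + 1)) ^ (A + 1) ≤ (C * y) ^ (A + 1) := by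
      rw [← pow_mul]
      calc _ ≤ C * n0 := h2
        _ ≤ C ^ (A + 1) * y ^ (A + 1) := by
            apply Nat.mul_le_mul
            · exact Nat.le_self_pow (by omega) C
            · exact hn0.2.trans (Nat.pow_le_pow_right hy (by omega))
        _ = _ := by rw [mul_pow]
    have h4 : n0.divisors.card ^ (a + 1) ≤ C * y := (Nat.pow_le_pow_iff_left (by omega)).mp h3
    have h5 : n0.divisors.card ^ a ≤ C * y :=
      (Nat.pow_le_pow_right h1 (by omega)).trans h4
    have h6 : (n0.divisors.card : ℝ) ^ a ≤ C * y := by exact_mod_cast h5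
    rw [mul_pow, mul_assoc]
    exact mul_le_mul_of_nonneg_left h6 (by positivity)

/-- A form of the inequality of Hoelder. -/
lemma holder2 {ι : Type*} (s : Finset ι) (B w z : ι → ℝ) (n : ℕ) (hn : 0 < n)
    (hB : ∀ j ∈ s, 0 ≤ B j) (hw : ∀ j ∈ s, 0 ≤ w j) (hz : ∀ j ∈ s, 0 ≤ z j)
    (h : ∀ j ∈ s, B j ^ (n + 1) ≤ w j ^ n * z j) :
    (∑ j ∈ s, B j) ^ (n + 1) ≤ (∑ j ∈ s, w j) ^ n * ∑ j ∈ s, z j := by
  have hB0 : ∀ j ∈ s, w j = 0 → B j = 0 := by
    intro j hj h0
    have := h j hj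
    rw [h0, zero_pow hn.ne', zero_mul] at this
    exact pow_eq_zero_iff (n := n + 1) (by omega) |>.mp (le_antisymm this (pow_nonneg (hB j hj) _))
  rcases (sum_nonneg hw).eq_or_lt with h0 | hpos
  · have : ∑ j ∈ s, B j = 0 := by
      apply sum_eq_zero
      intro j hj
      exact hB0 j hj ((sum_eq_zero_iff_of_nonneg hw).mp h0.symm j hj)
    rw [this, ← h0, zero_pow (by omega), zero_pow hn.ne', zero_mul]
  · set Wt := ∑ j ∈ s, w j with hWt
    have h1 := Real.pow_arith_mean_le_arith_mean_pow s (fun j => w j / Wt) (fun j => B j / w j)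
      (fun j hj => div_nonneg (hw j hj) hpos.le) (by rw [← sum_div]; exact div_self hpos.ne')
      (fun j hj => div_nonneg (hB j hj) (hw j hj)) (n + 1)
    have h2 : ∑ j ∈ s, w j / Wt * (B j / w j) = (∑ j ∈ s, B j) / Wt := by
      rw [sum_div]
      apply sum_congr rfl
      intro j hj
      rcases (hw j hj).eq_or_lt with h0 | h0
      · rw [hB0 j hj h0.symm]; simp
      · field_simp
    have h3 : ∑ j ∈ s, w j / Wt * (B j / w j) ^ (n + 1) ≤ (∑ j ∈ s, z j) / Wt := by
      rw [sum_div]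
      apply sum_le_sum
      intro j hj
      rcases (hw j hj).eq_or_lt with h0 | h0
      · rw [← h0]; simp only [zero_div, zero_mul]; exact div_nonneg (hz j hj) hpos.le
      · have : w j / Wt * (B j / w j) ^ (n + 1) = (B j ^ (n + 1) / w j ^ n) / Wt := by
          rw [div_pow, pow_succ (w j)]; field_simp
        rw [this]
        apply div_le_div_of_nonneg_right _ hpos.le
        rw [div_le_iff₀ (pow_pos h0 _), mul_comm]
        exact h j hj
    rw [h2, div_pow] at h1
    have h4 := h1.trans h3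
    rw [div_le_div_iff₀ (pow_pos hpos _) hpos, pow_succ Wt] at h4
    have : (∑ j ∈ s, B j) ^ (n + 1) * Wt ≤ (Wt ^ n * ∑ j ∈ s, z j) * Wt := by linarith
    exact le_of_mul_le_mul_right this hpos

/-- Counting a residue class in an initial interval. -/
lemma count_class (t r a : ℕ) (hr : 0 < r) :
    |(((Icc 1 t).filter (fun n => n ≡ a [MOD r])).card : ℝ) - (t : ℝ) / r| ≤ 1 := by
  have h := Nat.Ioc_filter_modEq_card 0 t hr a
  have hI : Icc 1 t = Ioc 0 t := by ext n; simp [Nat.succ_le_iff]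
  rw [hI]
  have hr' : (0 : ℚ) < r := by exact_mod_cast hr
  have hmono : ⌊((0 : ℕ) - a : ℚ) / r⌋ ≤ ⌊((t : ℚ) - a) / r⌋ := by
    apply Int.floor_mono
    apply div_le_div_of_nonneg_right _ hr'.le
    have : (0 : ℚ) ≤ t := by positivity
    push_cast; linarith
  rw [max_eq_left (by linarith)] at h
  have e : (((Ioc 0 t).filter (fun n => n ≡ a [MOD r])).card : ℚ) =
      (⌊((t : ℚ) - a) / r⌋ : ℚ) - (⌊((0 : ℕ) - a : ℚ) / r⌋ : ℚ) := by exact_mod_cast h
  have h1 := Int.floor_le (((t : ℚ) - a) / r)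
  have h2 := Int.lt_floor_add_one (((t : ℚ) - a) / r)
  have h3 := Int.floor_le (((0 : ℕ) - a : ℚ) / r)
  have h4 := Int.lt_floor_add_one (((0 : ℕ) - a : ℚ) / r)
  have h5 : ((t : ℚ) - a) / r - ((0 : ℕ) - a : ℚ) / r = t / r := by push_cast; ring
  have hq : |(((Ioc 0 t).filter (fun n => n ≡ a [MOD r])).card : ℚ) - (t : ℚ) / r| ≤ 1 := by
    rw [e, abs_le]; constructor <;> linarith
  have : ((|(((Ioc 0 t).filter (fun n => n ≡ a [MOD r])).card : ℚ) - (t : ℚ) / r| : ℚ) : ℝ)
      ≤ ((1 : ℚ) : ℝ) := by exact_mod_cast hq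
  push_cast at this
  exact this

lemma count_class_range (N r a : ℕ) (hr : 0 < r) (hd : r ∣ N) :
    ((range N).filter (fun n => n ≡ a [MOD r])).card = N / r := by
  have := Nat.count_modEq_card N hr a
  rw [Nat.count_eq_card_filter_range] at this
  rw [this, Nat.eq_zero_of_dvd_of_lt (Nat.dvd_mod_iff dvd_rfl |>.mpr hd) (Nat.mod_lt _ hr)]
  simp

/-- Independence of two periodic functions with coprime periods. -/
lemma sum_range_mul_coprime (a b : ℕ) (hab : a.Coprime b) (ha : 0 < a) (hb : 0 < b)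
    (F G : ℕ → ℝ) (hF : ∀ m n, m ≡ n [MOD a] → F m = F n) (hG : ∀ m n, m ≡ n [MOD b] → G m = G n) :
    ∑ n ∈ range (a * b), F n * G n = (∑ n ∈ range a, F n) * ∑ n ∈ range b, G n := by
  rw [sum_mul_sum, ← sum_product']
  apply Finset.sum_nbij' (fun n => (n % a, n % b))
    (fun u => (Nat.chineseRemainder hab u.1 u.2 : ℕ))
  · intro n _
    simp [Nat.mod_lt _ ha, Nat.mod_lt _ hb]
  · intro u _
    simpa using Nat.chineseRemainder_lt_mul hab u.1 u.2 ha.ne' hb.ne'
  · intro n hn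
    have h1 := (Nat.chineseRemainder hab (n % a) (n % b)).2
    have h2 : (Nat.chineseRemainder hab (n % a) (n % b) : ℕ) ≡ n [MOD a * b] :=
      (Nat.modEq_and_modEq_iff_modEq_mul hab).mp
        ⟨h1.1.trans (Nat.mod_modEq n a), h1.2.trans (Nat.mod_modEq n b)⟩
    exact Nat.ModEq.eq_of_lt_of_lt h2 (Nat.chineseRemainder_lt_mul hab _ _ ha.ne' hb.ne')
      (by simpa using hn)
  · intro u hu
    simp only [mem_product, mem_range] at hu
    have h1 := (Nat.chineseRemainder hab u.1 u.2).2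
    ext
    · exact Eq.trans h1.1 (Nat.mod_eq_of_lt hu.1)
    · exact Eq.trans h1.2 (Nat.mod_eq_of_lt hu.2)
  · intro n _
    rw [hF n (n % a) (Nat.mod_modEq n a).symm, hG n (n % b) (Nat.mod_modEq n b).symm]

lemma sum_range_prod_primes (U : Finset ℕ) (hU : ∀ p ∈ U, p.Prime) (F : ℕ → ℕ → ℝ)
    (hF : ∀ p ∈ U, ∀ m n, m ≡ n [MOD p] → F p m = F p n) :
    ∑ n ∈ range (∏ p ∈ U, p), ∏ p ∈ U, F p n = ∏ p ∈ U, ∑ n ∈ range p, F p n := by
  induction U using Finset.induction_on with
  | empty => simp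
  | insert q U hq ih =>
    have hq' := hU q (mem_insert_self _ _)
    have hU' : ∀ p ∈ U, p.Prime := fun p hp => hU p (mem_insert_of_mem hp)
    simp only [prod_insert hq]
    rw [← ih hU' (fun p hp => hF p (mem_insert_of_mem hp))]
    apply sum_range_mul_coprime
    · apply Nat.Coprime.prod_right
      intro p hp
      exact (Nat.coprime_primes hq' (hU' p hp)).mpr (fun e => hq (e ▸ hp))
    · exact hq'.pos
    · exact prod_pos (fun p hp => (hU' p hp).pos)
    · exact hF q (mem_insert_self _ _)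
    · intro m n hmn
      apply prod_congr rfl
      intro p hp
      exact hF p (mem_insert_of_mem hp) m n (hmn.of_dvd (dvd_prod_of_mem _ hp))

end Pool.Agent.Lib.MP_68a45e_nt
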