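import Mathlib

/-! Minor arcs, part 1: windows, geometric sums, Parseval and the bridge to the Gauss window. -/

namespace Pool.Agent.Lib.MP_68a45e_nt.CMin

open Finset Complex MeasureTheory

/-- The additive character of the real line. -/
noncomputable def ee (t : ℝ) : ℂ := Complex.exp (2 * Real.pi * Complex.I * t)

/-- The twisted sum of `f` over the window of length `L` starting at `x`. -/
noncomputable def W (f : ℕ → ℂ) (al : ℝ) (L x : ℕ) : ℂ :=
  ∑ n ∈ Ioc x (x + L), f n * ee (al * n)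

/-- `al` is at distance more than `del` from every fraction of denominator at most `Q`. -/
def Far (al Q del : ℝ) : Prop :=
  ∀ q : ℕ, 1 ≤ q → (q : ℝ) ≤ Q → ∀ c : ℤ, del < |al - c / q|

lemma ee_add (s t : ℝ) : ee (s + t) = ee s * ee t := by
  unfold ee; rw [← Complex.exp_add]; congr 1; push_cast; ring

lemma ee_zero : ee 0 = 1 := by simp [ee]

lemma ee_eq (t : ℝ) : ee t = Complex.exp (((2 * Real.pi * t : ℝ) : ℂ) * I) := by
  unfold ee; congr 1; push_cast; ring

lemma norm_ee (t : ℝ) : ‖ee t‖ = 1 := by rw [ee_eq, Complex.norm_exp_ofReal_mul_I]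

lemma ee_int (k : ℤ) : ee k = 1 := by
  unfold ee
  have := Complex.exp_int_mul_two_pi_mul_I k
  rw [← this]; congr 1; push_cast; ring

lemma ee_add_int (t : ℝ) (k : ℤ) : ee (t + k) = ee t := by rw [ee_add, ee_int, mul_one]

lemma conj_ee (t : ℝ) : (starRingEnd ℂ) (ee t) = ee (-t) := by
  rw [ee_eq, ee_eq, ← Complex.exp_conj, map_mul, conj_ofReal, conj_I]; congr 1; push_cast; ring

lemma cont_ee : Continuous ee := by unfold ee; fun_prop

lemma one_sub_ee {t : ℝ} (ht : |t| ≤ 1 / 2) : 4 * |t| ≤ ‖ee t - 1‖ := by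
  have h1 : ‖ee t - 1‖ = 2 * |Real.sin (Real.pi * t)| := by
    rw [ee_eq, mul_comm _ I, Complex.norm_exp_I_mul_ofReal_sub_one]
    rw [show 2 * Real.pi * t / 2 = Real.pi * t by ring, norm_mul]
    simp
  have h2 : |Real.sin (Real.pi * t)| = Real.sin (Real.pi * |t|) := by
    have hp := Real.pi_pos
    have h0 : 0 ≤ Real.sin (Real.pi * |t|) :=
      Real.sin_nonneg_of_nonneg_of_le_pi (by positivity) (by nlinarith [abs_nonneg t])
    rcases abs_cases t with h | h
    · rw [h.1] at h0 ⊢; exact abs_of_nonneg h0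
    · rw [h.1] at h0 ⊢
      rw [mul_neg, Real.sin_neg] at h0 ⊢
      exact abs_of_nonpos (by linarith)
  have h3 := Real.mul_le_sin (x := Real.pi * |t|) (by positivity)
    (by nlinarith [Real.pi_pos, abs_nonneg t])
  have h4 : 2 / Real.pi * (Real.pi * |t|) = 2 * |t| := by field_simp
  rw [h1, h2]; linarith

lemma tele (b : ℝ) (u w : ℕ) :
    (ee b - 1) * ∑ m ∈ Ioc u (u + w), ee (b * m) = ee (b * (u + w + 1 : ℕ)) - ee (b * (u + 1 : ℕ)) := by
  induction w with
  | zero => simp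
  | succ w ih =>
    rw [← add_assoc, sum_Ioc_succ_top (by omega), mul_add, ih]
    have : ee (b * ((u + w + 1 + 1 : ℕ) : ℝ)) = ee b * ee (b * ((u + w + 1 : ℕ) : ℝ)) := by
      rw [← ee_add]; congr 1; push_cast; ring
    rw [this]; ring

/-- Geometric sums. -/
lemma geo {b del : ℝ} (hd : 0 < del) (h : ∀ c : ℤ, del ≤ |b - c|) (u v : ℕ) :
    ‖∑ m ∈ Ioc u v, ee (b * m)‖ ≤ 1 / (2 * del) := by
  rcases le_or_gt v u with hv | hv
  · rw [Ioc_eq_empty (by omega)]; simp; positivity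
  obtain ⟨w, rfl⟩ := Nat.exists_eq_add_of_le hv.le
  have h1 := tele b u w
  have h2 : ‖ee b - 1‖ * ‖∑ m ∈ Ioc u (u + w), ee (b * m)‖ ≤ 2 := by
    rw [← norm_mul, h1]
    refine (norm_sub_le _ _).trans ?_
    rw [norm_ee, norm_ee]; norm_num
  have h3 : ee b = ee (b - round b) := by
    rw [← ee_add_int (b - round b) (round b)]; congr 1; ring
  have h4 := one_sub_ee (abs_sub_round b)
  rw [← h3] at h4
  have h5 := h (round b)
  rw [le_div_iff₀ (by positivity)]
  nlinarith [norm_nonneg (∑ m ∈ Ioc u (u + w), ee (b * m))]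

/-- Geometric sums with a logarithmic weight. -/
lemma geo_log {b del : ℝ} (hd : 0 < del) (h : ∀ c : ℤ, del ≤ |b - c|) (u v : ℕ) :
    ‖∑ m ∈ Ioc u v, (Real.log m : ℂ) * ee (b * m)‖ ≤ Real.log v * (1 / (2 * del)) := by
  have hl : ∀ m : ℕ, Real.log m = ∑ j ∈ range m, (Real.log (j + 1 : ℕ) - Real.log j) := by
    intro m
    rw [sum_range_sub (fun j : ℕ => Real.log j)]; simp
  have h1 : ∑ m ∈ Ioc u v, (Real.log m : ℂ) * ee (b * m) =
      ∑ j ∈ range v, ((Real.log (j + 1 : ℕ) - Real.log j : ℝ) : ℂ) *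
        ∑ m ∈ Ioc (max u j) v, ee (b * m) := by
    simp_rw [mul_sum]
    rw [sum_comm' (t' := Ioc u v) (s' := fun m => range m)]
    · refine sum_congr rfl fun m _ => ?_
      rw [hl m, ← sum_mul]; push_cast; rfl
    · intro j m
      simp only [mem_range, mem_Ioc, max_lt_iff]; omega
  rw [h1, hl v, sum_mul]
  refine (norm_sum_le _ _).trans (sum_le_sum fun j _ => ?_)
  have h0 : 0 ≤ Real.log (j + 1 : ℕ) - Real.log j := by
    rcases Nat.eq_zero_or_pos j with rfl | hj
    · simp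
    · have : Real.log j ≤ Real.log (j + 1 : ℕ) :=
        Real.log_le_log (by exact_mod_cast hj) (by exact_mod_cast Nat.le_succ j)
      linarith
  rw [norm_mul, Complex.norm_real, Real.norm_of_nonneg h0]
  exact mul_le_mul_of_nonneg_left (geo hd h _ _) h0

lemma orth (k : ℤ) : ∫ t in (-(1 / 2) : ℝ)..(1 / 2), ee (t * k) = if k = 0 then 1 else 0 := by
  split_ifs with hk
  · subst hk; simp [ee_zero]; norm_num
  · have hc : (2 * Real.pi * I * k : ℂ) ≠ 0 := by
      have : (k : ℂ) ≠ 0 := by exact_mod_cast hk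
      have hp : (Real.pi : ℂ) ≠ 0 := by exact_mod_cast Real.pi_ne_zero
      simp [this, hp]
    have h1 : ∀ t : ℝ, ee (t * k) = Complex.exp ((2 * Real.pi * I * k) * t) := by
      intro t; unfold ee; congr 1; push_cast; ring
    have h2 := integral_exp_mul_complex (a := -(1 / 2)) (b := 1 / 2) hc
    simp_rw [h1]
    rw [h2, ← h1, ← h1]
    have : ee (1 / 2 * (k : ℝ)) = ee (-(1 / 2) * (k : ℝ)) := by
      rw [← ee_add_int (-(1 / 2) * (k : ℝ)) k]; congr 1; ring
    rw [this]; simp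

/-- Parseval for trigonometric polynomials with distinct frequencies. -/
lemma pars0 (s : Finset ℤ) (c : ℤ → ℂ) :
    ∫ t in (-(1 / 2) : ℝ)..(1 / 2), ‖∑ x ∈ s, c x * ee (t * x)‖ ^ 2 = ∑ x ∈ s, ‖c x‖ ^ 2 := by
  have h1 : ∀ t : ℝ, ((‖∑ x ∈ s, c x * ee (t * x)‖ ^ 2 : ℝ) : ℂ) =
      ∑ x ∈ s, ∑ y ∈ s, c x * (starRingEnd ℂ) (c y) * ee (t * (x - y : ℤ)) := by
    intro t
    push_cast
    rw [← Complex.mul_conj', map_sum, sum_mul_sum]
    refine sum_congr rfl fun x _ => sum_congr rfl fun y _ => ?_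
    rw [map_mul, conj_ee, show t * ((x : ℝ) - y) = t * x + -(t * y) by ring, ee_add]; ring
  have hi : ∀ x y : ℤ, IntervalIntegrable
      (fun t : ℝ => c x * (starRingEnd ℂ) (c y) * ee (t * (x - y : ℤ))) volume (-(1 / 2)) (1 / 2) :=
    fun x y => (continuous_const.mul (cont_ee.comp (by fun_prop))).intervalIntegrable _ _
  apply Complex.ofReal_injective
  rw [← intervalIntegral.integral_ofReal]
  simp_rw [h1]
  have hj : ∀ x ∈ s, IntervalIntegrable (fun t : ℝ => ∑ y ∈ s,
      c x * (starRingEnd ℂ) (c y) * ee (t * (x - y : ℤ))) volume (-(1 / 2)) (1 / 2) := fun x _ =>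
    (continuous_finsetSum s fun y _ =>
      continuous_const.mul (cont_ee.comp (by fun_prop))).intervalIntegrable _ _
  rw [intervalIntegral.integral_finsetSum hj]
  push_cast
  refine sum_congr rfl fun x hx => ?_
  have h2 : ∀ y ∈ s, ∫ t in (-(1 / 2) : ℝ)..(1 / 2),
      c x * (starRingEnd ℂ) (c y) * ee (t * (x - y : ℤ)) =
      if x = y then c x * (starRingEnd ℂ) (c y) else 0 := by
    intro y _
    rw [intervalIntegral.integral_const_mul, orth]
    simp [sub_eq_zero]
  have h3 := intervalIntegral.integral_finsetSum (s := s) fun y _ => hi x y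
  push_cast at h3 h2
  rw [h3, sum_congr rfl h2, sum_ite_eq, if_pos hx, Complex.mul_conj']

/-- Parseval with repeated frequencies. -/
lemma pars {ι : Type} (s : Finset ι) (g : ι → ℤ) (c : ι → ℂ) (r : Finset ℤ) (hr : ∀ i ∈ s, g i ∈ r) :
    ∫ t in (-(1 / 2) : ℝ)..(1 / 2), ‖∑ i ∈ s, c i * ee (t * g i)‖ ^ 2 =
      ∑ x ∈ r, ‖∑ i ∈ s with g i = x, c i‖ ^ 2 := by
  rw [← pars0]
  congr 1; ext t; congr 2
  rw [← sum_fiberwise_of_maps_to hr]
  refine sum_congr rfl fun x _ => ?_
  rw [sum_mul]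
  exact sum_congr rfl fun i hi => by rw [(mem_filter.1 hi).2]

end Pool.Agent.Lib.MP_68a45e_nt.CMin
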