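import Pool.Agent.Lib.MP_b09185_nt.ShDef
import Pool.Agent.Lib.MP_68a45e_nt.CMin1
import Pool.Prelude.Def_F_c8bfdf43

/-! Prime tuples for almost all shifts in a short range: definitions. -/

namespace Pool.Agent.Lib.MP_68a45e_nt.Av

open Finset Complex Filter Topology Pool.Agent.Lib.MP_b09185_nt.Sh N9a2a6718
open Pool.Agent.Lib.MP_68a45e_nt.CMin (W Far)

/-- von Mangoldt function with complex values -/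
noncomputable def vM (n : ℕ) : ℂ := (ArithmeticFunction.vonMangoldt n : ℝ)

/-- mean square over the windows -/
noncomputable def WE (f : ℕ → ℂ) (α : ℝ) (L X : ℕ) : ℝ := ∑ x ∈ range (X + 1), ‖W f α L x‖ ^ 2

/-- the sieve model -/
noncomputable def LW (w n : ℕ) : ℂ :=
  if n.Coprime (primorial w) then (primorial w : ℂ) / ((primorial w).totient : ℂ) else 0

/-- coefficients with a wide logarithmic Gaussian weight -/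
noncomputable def PGa (a : ℕ → ℂ) (v t : ℝ) : ℂ := ∑' n : ℕ, a n *
  (n : ℂ) ^ (-(1 + (t : ℂ) * I)) * (Real.exp (-(Real.log n - v) ^ 2 / 2) : ℝ)

/-- the singular series -/
noncomputable def CS {k : ℕ} (m : Fin k.succ → ℕ) : ℝ :=
  limUnder atTop (HardyLittlewoodPartialProduct m)

/-- a box of shifts -/
def box {k : ℕ} (b : Fin k → ℕ) (H : ℕ) : Finset (Fin k → ℕ) :=
  Fintype.piFinset fun i => Ioc (b i) (b i + H)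

/-! ### characters -/

def DensX : Prop := ∀ A : ℝ, 9 / 4 < A → ∃ B C : ℝ, ∀ T σ : ℝ, 3 ≤ T → 5 / 9 ≤ σ → σ ≤ 1 →
  ∀ (q : ℕ) [NeZero q] (χ : DirichletCharacter ℂ q), (q : ℝ) ^ 1000 ≤ T →
  ∀ S : Finset ℝ, Sep S → (∀ γ ∈ S, |γ| ≤ T ∧ ∃ β : ℝ, σ ≤ β ∧ χ.LFunction (β + γ * I) = 0) →
    (S.card : ℝ) ≤ C * T ^ (A * (1 - σ)) * Real.log T ^ B

def PtX : Prop := ∃ C v0 : ℝ, ∀ v t σ : ℝ, v0 ≤ v → |t| ≤ Real.exp v → 1 / 2 ≤ σ → σ ≤ 1 →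
  ∀ (q : ℕ) [NeZero q] (χ : DirichletCharacter ℂ q), χ ≠ 1 → (q : ℝ) ≤ Real.exp v →
  (∀ s : ℂ, χ.LFunction s = 0 → |s.im - t| ≤ v + 2 → s.re ≤ σ) →
    ‖PGa (fun n => χ n * vM n) v t‖ ≤ C * v ^ 3 * Real.exp (v * (σ - 1))

def ZFX : Prop := ∃ θ : ℝ, 0 < θ ∧ θ < 1 ∧ ∀ B : ℕ, ∃ L0 : ℝ, ∀ L : ℝ, L0 ≤ L →
  ∀ (q : ℕ) [NeZero q] (χ : DirichletCharacter ℂ q), χ ≠ 1 → (q : ℝ) ≤ L ^ B →
  ∀ s : ℂ, χ.LFunction s = 0 → |s.im| ≤ Real.exp L → s.re ≤ 1 - L ^ (-θ)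

def L2T (a : ℝ) : Prop := ∀ A B : ℕ, ∀ᶠ v : ℝ in atTop,
  (∫ t in (-Real.exp (a * v))..(Real.exp (a * v)), ‖PG v t - PM v t‖ ^ 2) ≤ 1 / v ^ A ∧
  ∀ (q : ℕ) [NeZero q] (χ : DirichletCharacter ℂ q), χ ≠ 1 → (q : ℝ) ≤ v ^ B →
    (∫ t in (-Real.exp (a * v))..(Real.exp (a * v)), ‖PGa (fun n => χ n * vM n) v t‖ ^ 2) ≤
      1 / v ^ A

/-- primes in progressions in almost all short intervals -/
def APA (θ : ℝ) : Prop := ∀ A B : ℕ, ∀ᶠ X : ℕ in atTop, ∀ H q c : ℕ, (X : ℝ) ^ θ ≤ H → H ≤ X →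
  1 ≤ q → (q : ℝ) ≤ Real.log X ^ B →
    ∑ x ∈ range (X + 1), |∑ n ∈ (Ioc x (x + H)).filter (fun n => n ≡ c [MOD q]),
      ArithmeticFunction.vonMangoldt n - (if c.Coprime q then (H : ℝ) / q.totient else 0)| ^ 2 ≤
        (H : ℝ) ^ 2 * X / Real.log X ^ A

/-! ### arcs -/

/-- minor arcs for primes -/
def MinL : Prop := ∀ ε : ℝ, 0 < ε → ∀ A : ℕ, ∃ B : ℕ, ∀ᶠ X : ℕ in atTop, ∀ (L : ℕ) (α : ℝ),
  L ^ 2 ≤ X → Far α (Real.log X ^ B) ((X : ℝ) ^ ε / L) →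
    WE vM α L X ≤ (L : ℝ) ^ 2 * X / Real.log X ^ A

/-- minor arcs for sieve weights -/
def MinS : Prop := ∀ ε : ℝ, 0 < ε → ∀ A : ℕ, ∃ B : ℕ, ∀ᶠ X : ℕ in atTop, ∀ (L : ℕ) (α : ℝ),
  L ^ 2 ≤ X → Far α (Real.log X ^ B) ((X : ℝ) ^ ε / L) → ∀ lam : ℕ → ℂ, (∀ d, ‖lam d‖ ≤ 1) →
  (∀ d : ℕ, (X : ℝ) ^ (ε / 4) < d → lam d = 0) →
    WE (fun n => ∑ d ∈ n.divisors, lam d) α L X ≤ (L : ℝ) ^ 2 * X / Real.log X ^ A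

/-- minor arcs for the model -/
def MinW : Prop := ∀ ε : ℝ, 0 < ε → ∀ A : ℕ, ∃ B0 : ℕ, ∀ B : ℕ, ∀ᶠ X : ℕ in atTop,
  ∀ (w L : ℕ) (α : ℝ), (w : ℝ) ≤ Real.log X ^ B → L ^ 2 ≤ X →
  Far α (Real.log X ^ B0) ((X : ℝ) ^ ε / L) →
    WE (LW w) α L X ≤ (L : ℝ) ^ 2 * X / Real.log X ^ A

/-- size of the model -/
def SizeW : Prop := ∀ B : ℕ, ∀ᶠ X : ℕ in atTop, ∀ w n : ℕ, (w : ℝ) ≤ Real.log X ^ B →
  ‖LW w n‖ ≤ Real.log X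

/-- the model in progressions in short intervals -/
def APW : Prop := ∀ θ : ℝ, 0 < θ → ∀ A B : ℕ, ∀ᶠ X : ℕ in atTop, ∀ w H q c x : ℕ,
  (w : ℝ) ≤ Real.log X ^ B → (X : ℝ) ^ θ ≤ H → 1 ≤ q → q ≤ w →
    ‖∑ n ∈ (Ioc x (x + H)).filter (fun n => n ≡ c [MOD q]), LW w n -
      (if c.Coprime q then (H : ℂ) / q.totient else 0)‖ ≤ H / Real.log X ^ A

/-- local Fourier uniformity -/
def Unif (θ : ℝ) : Prop := ∀ A : ℕ, ∃ B0 : ℕ, ∀ B : ℕ, ∀ᶠ X : ℕ in atTop,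
  ∀ (w L : ℕ) (α : ℝ), Real.log X ^ B0 ≤ w → (w : ℝ) ≤ Real.log X ^ B → (X : ℝ) ^ θ ≤ L →
  L ^ 2 ≤ X → WE (fun n => vM n - LW w n) α L X ≤ (L : ℝ) ^ 2 * X / Real.log X ^ A

/-! ### correlations -/

/-- replacement of a function by a model in almost all correlations -/
def Tel : Prop := ∀ k : ℕ, ∃ C : ℝ, ∀ (X L H x : ℕ) (f g : ℕ → ℂ) (B δ : ℝ) (b : Fin k → ℕ),
  1 ≤ k → 1 ≤ L → L ≤ H → x ≤ X → (∀ i, b i + H ≤ X) → 1 ≤ B →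
  (∀ n, n ≤ 2 * X → ‖f n‖ ≤ B ∧ ‖g n‖ ≤ B) →
  (∀ α : ℝ, WE (fun n => f n - g n) α L (2 * X) ≤ δ * L ^ 2 * X) →
    ∑ h ∈ box b H, ‖∑ n ∈ Ioc 0 x, (f n * ∏ i, f (n + h i) - g n * ∏ i, g (n + h i))‖ ^ 2 ≤
      C * B ^ (2 * k) * (δ + B ^ 2 * L / X) * X ^ 2 * H ^ k

/-- convergence of the singular series -/
def Conv : Prop := ∀ (k : ℕ) (m : Fin k.succ → ℕ), Function.Injective m →
  0 ≤ CS m ∧ Tendsto (HardyLittlewoodPartialProduct m) atTop (𝓝 (CS m))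

/-- tail of the singular series -/
def Tail : Prop := ∀ k A : ℕ, ∃ B0 : ℕ, ∀ B : ℕ, ∀ᶠ X : ℕ in atTop, ∀ (w : ℕ)
  (m : Fin k.succ → ℕ), Real.log X ^ B0 ≤ w → (w : ℝ) ≤ Real.log X ^ B → Function.Injective m →
  (∀ i, m i ≤ 3 * X) → |HardyLittlewoodPartialProduct m (w + 1) - CS m| ≤ 1 / Real.log X ^ A

/-- correlations of the model -/
def Corr : Prop := ∀ k A B : ℕ, ∀ᶠ X : ℕ in atTop, ∀ (w x : ℕ) (m : Fin k.succ → ℕ), 2 ≤ w →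
  (w : ℝ) ≤ Real.log X ^ B → x ≤ X →
    ‖∑ n ∈ Ioc 0 x, ∏ i, LW w (n + 2 * m i) -
      ((HardyLittlewoodPartialProduct m (w + 1) * x : ℝ) : ℂ)‖ ≤ X / Real.log X ^ A

open Classical in
/-- correlations of the von Mangoldt function on average -/
def LamAvg (θ : ℝ) : Prop := ∀ k A : ℕ, 1 ≤ k → ∀ᶠ X : ℕ in atTop,
  ∀ (H x : ℕ) (b : Fin k → ℕ), (X : ℝ) ^ θ ≤ H → H ≤ X → x ≤ X → (∀ i, b i ≤ X) →
    ∑ m ∈ (box b H).filter (fun m => Function.Injective (Fin.cons 0 m : Fin k.succ → ℕ)),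
      |∑ n ∈ Ioc 0 x, ∏ i, ArithmeticFunction.vonMangoldt
        (n + 2 * (Fin.cons 0 m : Fin k.succ → ℕ) i) - CS (Fin.cons 0 m : Fin k.succ → ℕ) * x| ^ 2 ≤
          (H : ℝ) ^ k * X ^ 2 / Real.log X ^ A

/-- the asymptotic formula at the point `X` -/
def Good {k : ℕ} (A X : ℕ) (m : Fin k.succ → ℕ) : Prop :=
  Function.Injective m ∧ ∃ C : ℝ, Tendsto (HardyLittlewoodPartialProduct m) atTop (𝓝 C) ∧
    |(N9a2a6718.Nat.primeTupleCounting m X : ℝ) - C * ∫ t in (2 : ℝ)..X, 1 / t.log ^ (k + 1)| ≤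
      X / Real.log X ^ A

open Classical in
/-- the final statement -/
def Main (θ : ℝ) : Prop := ∀ k A : ℕ, 1 ≤ k → ∀ᶠ X : ℕ in atTop,
  ∀ (H : ℕ) (b : Fin k → ℕ), (X : ℝ) ^ θ ≤ H → H ≤ X → (∀ i, b i ≤ X) →
    (((box b H).filter (fun m => ¬ Good A X (Fin.cons 0 m : Fin k.succ → ℕ))).card : ℝ) ≤
      (H : ℝ) ^ k / Real.log X ^ A

end Pool.Agent.Lib.MP_68a45e_nt.Av
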