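import Pool.Agent.Lib.MP_68a45e_nt.AvDef
import Pool.Agent.Lib.MP_b09185_nt.ShDens

/-! Zero density for the series of a character. -/

namespace Pool.Agent.Lib.MP_68a45e_nt.Av

open Finset Complex Filter Pool.Agent.Lib.MP_b09185_nt.Sh

/-- zero detection for the series of a character -/
def DetA : Prop := ∃ η : ℝ, 0 < η ∧ ∃ Z0 : ℕ, ∀ Z : ℕ, Z0 ≤ Z →
  ∀ (q : ℕ) [NeZero q] (χ : DirichletCharacter ℂ q), q ≤ Z → ∀ σ : ℝ, 5 / 9 ≤ σ → σ ≤ 1 →
  ∃ b1 b2 b3 : ℕ → ℂ, Dv b1 ∧ Dv b2 ∧ Dv b3 ∧ ∀ β γ : ℝ, σ ≤ β → β ≤ 1 → 1 ≤ |γ| →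
    |γ| ≤ (Z : ℝ) ^ 1000 → DirichletCharacter.LFunction χ (β + γ * I) = 0 →
      η ≤ ‖DP Z b1 (β + γ * I)‖ ∨ η ≤ ‖DP Z b2 (β + γ * I)‖ ∨
        ∃ u : ℝ, |u| ≤ Real.log Z ∧ η ≤ ‖DP Z b3 (σ + (-(γ + u) : ℝ) * I)‖

theorem densX (hD : DetA) (hC : Cls) : DensX := by
  classical
  intro A hA
  obtain ⟨η, hη, Z0, hD⟩ := hD
  obtain ⟨B, C, Z1, hC⟩ := hC A η hA hη
  set Z2 : ℕ := max (max Z0 Z1) 3 with hZ2
  obtain ⟨K, hK1, hK⟩ : ∃ K : ℝ, 1 ≤ K ∧ ∀ T : ℝ, 3 ≤ T → ∃ Z : ℕ, Z2 ≤ Z ∧ T ≤ (Z : ℝ) ^ 1000 ∧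
      (Z : ℝ) ^ 1000 ≤ K * T := by
    refine ⟨(Z2 : ℝ) ^ 1000 + 2 ^ 1000, ?_, fun T hT => dens_scale 1000 (by norm_num) Z2 hT⟩
    have p2 : (0 : ℝ) ≤ (Z2 : ℝ) ^ 1000 := by positivity
    have p3 : (1 : ℝ) ≤ (2 : ℝ) ^ 1000 := one_le_pow₀ (by norm_num)
    generalize (2 : ℝ) ^ 1000 = w at *
    linarith
  have lK : 0 ≤ Real.log K := Real.log_nonneg hK1
  set B' : ℝ := max B 0 with hB'
  set C' : ℝ := max C 0 with hC'
  have B0 : 0 ≤ B' := le_max_right _ _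
  have C0 : 0 ≤ C' := le_max_right _ _
  set E : ℝ := C' * K ^ A * (Real.log K + 1) ^ B' with hE
  have E0 : 0 ≤ E := by positivity
  refine ⟨B' + 1, 6 + (2 * Real.log K + 8) * E, fun T σ hT h1 h2 q _ χ hq S hS h => ?_⟩
  obtain ⟨Z, hZ, hTZ, hZT⟩ := hK T hT
  have z0 : Z0 ≤ Z := ((le_max_left _ _).trans (le_max_left _ _)).trans hZ
  have z1 : Z1 ≤ Z := ((le_max_right _ _).trans (le_max_left _ _)).trans hZ
  have z3 : (3 : ℝ) ≤ Z := by exact_mod_cast (le_max_right _ _).trans hZ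
  have l3 : ∀ x : ℝ, 3 ≤ x → 1 ≤ Real.log x := fun x hx => by
    rw [Real.le_log_iff_exp_le (by linarith)]
    linarith [Real.exp_one_lt_d9]
  have lT := l3 T hT
  have lZ := l3 Z z3
  have zp : (Z : ℝ) ≤ (Z : ℝ) ^ 1000 := le_self_pow₀ (by linarith) (by norm_num)
  have lZT : Real.log Z ≤ (Real.log K + 1) * Real.log T := by
    have a1 : Real.log Z ≤ Real.log (K * T) := Real.log_le_log (by linarith) (zp.trans hZT)
    rw [Real.log_mul (by linarith) (by linarith)] at a1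
    nlinarith
  have lZZ : Real.log Z ≤ (Z : ℝ) ^ 1000 :=
    ((Real.log_le_sub_one_of_pos (by linarith)).trans (by linarith)).trans zp
  have e0 : 0 ≤ A * (1 - σ) := mul_nonneg (by linarith) (by linarith)
  have e1 : A * (1 - σ) ≤ A := by nlinarith
  set W : ℝ := T ^ (A * (1 - σ)) * Real.log T ^ B' with hW
  have W1 : 1 ≤ W := one_le_mul_of_one_le_of_one_le (Real.one_le_rpow (by linarith) e0)
    (Real.one_le_rpow lT B0)
  have hR : C * ((Z : ℝ) ^ 1000) ^ (A * (1 - σ)) * Real.log Z ^ B ≤ E * W := by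
    have a1 : ((Z : ℝ) ^ 1000) ^ (A * (1 - σ)) ≤ K ^ A * T ^ (A * (1 - σ)) := by
      calc ((Z : ℝ) ^ 1000) ^ (A * (1 - σ)) ≤ (K * T) ^ (A * (1 - σ)) :=
            Real.rpow_le_rpow (by positivity) hZT e0
        _ = K ^ (A * (1 - σ)) * T ^ (A * (1 - σ)) := Real.mul_rpow (by linarith) (by linarith)
        _ ≤ _ := mul_le_mul_of_nonneg_right (Real.rpow_le_rpow_of_exponent_le hK1 e1)
            (by positivity)
    have a2 : Real.log Z ^ B ≤ (Real.log K + 1) ^ B' * Real.log T ^ B' := by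
      calc Real.log Z ^ B ≤ Real.log Z ^ B' :=
            Real.rpow_le_rpow_of_exponent_le lZ (le_max_left _ _)
        _ ≤ ((Real.log K + 1) * Real.log T) ^ B' := Real.rpow_le_rpow (by linarith) lZT B0
        _ = _ := Real.mul_rpow (by linarith) (by linarith)
    calc C * ((Z : ℝ) ^ 1000) ^ (A * (1 - σ)) * Real.log Z ^ B
        ≤ C' * ((Z : ℝ) ^ 1000) ^ (A * (1 - σ)) * Real.log Z ^ B := by
          have : C ≤ C' := le_max_left _ _
          gcongr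
      _ ≤ C' * (K ^ A * T ^ (A * (1 - σ))) * ((Real.log K + 1) ^ B' * Real.log T ^ B') := by
          gcongr
      _ = E * W := by rw [hE, hW]; ring
  have hqZ : q ≤ Z := by
    have := (pow_le_pow_iff_left₀ (Nat.cast_nonneg (α := ℝ) q) (Nat.cast_nonneg Z)
      (by norm_num : 1000 ≠ 0)).1 (hq.trans hTZ)
    exact_mod_cast this
  obtain ⟨b1, b2, b3, d1, d2, d3, hD⟩ := hD Z z0 q χ hqZ σ h1 h2
  let P : (ℕ → ℂ) → ℝ → Prop := fun b t =>
    |t| ≤ 2 * (Z : ℝ) ^ 1000 ∧ ∃ β : ℝ, σ ≤ β ∧ β ≤ 1 ∧ η ≤ ‖DP Z b (β + t * I)‖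
  have hP : ∀ b, Dv b → ∀ S' : Finset ℝ, Sep S' → (∀ t ∈ S', P b t) → (#S' : ℝ) ≤ E * W :=
    fun b hb S' hS' h' => (hC Z z1 b hb σ (by linarith) h2 S' hS' h').trans hR
  let Q : ℝ → Prop := fun t => ∃ t', |t' - t| ≤ Real.log Z ∧ P b3 (-t')
  have cov : S ⊆ S.filter (fun t => |t| < 1) ∪ (S.filter (P b1) ∪ (S.filter (P b2) ∪
      S.filter Q)) := by
    intro γ hγ
    obtain ⟨g1, β, g2, g3⟩ := h γ hγ
    simp only [mem_union, mem_filter, hγ, true_and]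
    by_cases g4 : |γ| < 1
    · exact Or.inl g4
    right
    have g5 : β ≤ 1 := by
      by_contra g5
      refine DirichletCharacter.LFunction_ne_zero_of_one_le_re χ (Or.inr fun e => ?_)
        (by simpa using (not_le.1 g5).le) g3
      have := congrArg re e
      simp only [add_re, ofReal_re, mul_re, I_re, mul_zero, ofReal_im, I_im, mul_one, sub_self,
        add_zero, one_re] at this
      exact g5 this.le
    have g6 : |γ| ≤ (Z : ℝ) ^ 1000 := g1.trans hTZ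
    have g7 : |γ| ≤ 2 * (Z : ℝ) ^ 1000 := by linarith [abs_nonneg γ]
    rcases hD β γ g2 g5 (not_lt.1 g4) g6 g3 with g | g | ⟨u, hu, g⟩
    · exact Or.inl ⟨g7, β, g2, g5, g⟩
    · exact Or.inr (Or.inl ⟨g7, β, g2, g5, g⟩)
    · refine Or.inr (Or.inr ⟨γ + u, by simpa using hu, ?_, σ, le_rfl, h2, g⟩)
      rw [abs_neg]
      linarith [abs_add_le γ u]
  have k0 := dens_small (dens_sub hS fun t => |t| < 1) fun t ht => (mem_filter.1 ht).2
  have k1 := hP b1 d1 _ (dens_sub hS (P b1)) fun t ht => (mem_filter.1 ht).2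
  have k2 := hP b2 d2 _ (dens_sub hS (P b2)) fun t ht => (mem_filter.1 ht).2
  have k3 := thin (P := fun t => P b3 (-t)) (U := Real.log Z) (by linarith)
    (dens_neg (hP b3 d3)) (dens_sub hS Q) fun t ht => (mem_filter.1 ht).2
  have k4 : (#S : ℝ) ≤ #(S.filter (fun t => |t| < 1)) + (#(S.filter (P b1)) +
      (#(S.filter (P b2)) + #(S.filter Q))) := by
    have := (card_le_card cov).trans ((card_union_le _ _).trans (Nat.add_le_add_left
      ((card_union_le _ _).trans (Nat.add_le_add_left (card_union_le _ _) _)) _))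
    exact_mod_cast this
  have EW : 0 ≤ E * W := by positivity
  have fin : (6 + (2 * Real.log K + 8) * E) * T ^ (A * (1 - σ)) * Real.log T ^ (B' + 1) =
      (6 + (2 * Real.log K + 8) * E) * W * Real.log T := by
    rw [Real.rpow_add_one (by linarith), hW]; ring
  rw [fin]
  have m1 : (2 * Real.log Z + 6) * (E * W) ≤ ((2 * Real.log K + 8) * Real.log T) * (E * W) :=
    mul_le_mul_of_nonneg_right (by nlinarith) EW
  have m2 : 1 ≤ W * Real.log T := one_le_mul_of_one_le_of_one_le W1 lT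
  nlinarith

end Pool.Agent.Lib.MP_68a45e_nt.Av
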