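import Pool.Agent.Lib.MP_b09185_nt.ShLoc
import Pool.Agent.Lib.MP_b09185_nt.MaiZero
import Pool.Agent.Lib.MP_b09185_nt.ShFour

/-! A smoothed prime sum twisted by a character is small when the L-function has no zero in a box. -/

namespace Pool.Agent.Lib.MP_68a45e_nt.Tw

open Complex Set Filter Topology MeasureTheory Metric ArithmeticFunction
open Pool.Agent.Lib.MP_b09185_nt.Mai Pool.Agent.Lib.MP_b09185_nt.Sh

variable {q : ℕ} [NeZero q]

/-- minus the logarithmic derivative of the L-function -/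
noncomputable def HL (χ : DirichletCharacter ℂ q) (s : ℂ) : ℂ :=
  -(deriv χ.LFunction s / χ.LFunction s)

lemma HL_diff {χ : DirichletCharacter ℂ q} (hχ : χ ≠ 1) {s : ℂ} (h : χ.LFunction s ≠ 0) :
    DifferentiableAt ℂ (HL χ) s :=
  (((χ.differentiable_LFunction hχ).deriv s).div (χ.differentiable_LFunction hχ s) h).neg

lemma HL_line : ∃ K : ℝ, 0 ≤ K ∧ ∀ (q : ℕ) [NeZero q] (χ : DirichletCharacter ℂ q) (s : ℂ),
    s.re = 2 → ‖HL χ s‖ ≤ K := by
  have hs2 : LSeriesSummable vm (2 : ℝ) := LSeriesSummable_vonMangoldt (by simp)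
  refine ⟨∑' n, ‖LSeries.term vm (2 : ℝ) n‖, by positivity, fun q _ χ s hs => ?_⟩
  rw [HL, ← twist_eq χ (by linarith)]
  refine tsum_of_norm_bounded (summable_norm_iff.2 hs2).hasSum fun n => ?_
  rw [LSeries.norm_term_eq, LSeries.norm_term_eq, hs, ofReal_re]
  split_ifs
  · exact le_rfl
  · rw [Pi.mul_apply, norm_mul]
    gcongr
    exact mul_le_of_le_one_left (norm_nonneg _) (χ.norm_le_one _)

lemma HL_box {χ : DirichletCharacter ℂ q} (hχ : χ ≠ 1) {v t σ : ℝ} (hv : 1 ≤ v)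
    (hq : (q : ℝ) ≤ Real.exp v) (ht : |t| ≤ Real.exp v) (h1 : 1 / 2 ≤ σ)
    (hz : ∀ r : ℂ, χ.LFunction r = 0 → |r.im - t| ≤ v + 2 → r.re ≤ σ)
    {s : ℂ} (a1 : σ + 1 / v ≤ s.re) (a2 : s.re ≤ 2) (a3 : |s.im - t| ≤ v) :
    ‖HL χ s‖ ≤ 864 * v ^ 3 := by
  have hv0 : 0 < v := by linarith
  set c : ℂ := 2 + s.im * I with hc
  have cre : c.re = 2 := by simp [hc]
  have cim : c.im = s.im := by simp [hc]
  have hball : ∀ z ∈ ball c (2 - σ), σ < z.re ∧ |z.im - t| ≤ v + 2 ∧ ‖z‖ ≤ 7 * Real.exp v := by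
    intro z hzz
    rw [mem_ball, dist_eq_norm] at hzz
    have b1 := abs_re_le_norm (z - c)
    have b2 := abs_im_le_norm (z - c)
    rw [sub_re, cre] at b1
    rw [sub_im, cim] at b2
    have b3 := norm_le_abs_re_add_abs_im z
    have b4 := Real.add_one_le_exp v
    rw [abs_le] at b1 b2 a3 ht
    refine ⟨by linarith [b1.1], abs_le.2 ⟨by linarith [b2.1, a3.1], by linarith [b2.2, a3.2]⟩, ?_⟩
    have b5 : |z.re| ≤ 7 / 2 := abs_le.2 ⟨by linarith [b1.1], by linarith [b1.2]⟩
    have b6 : |z.im| ≤ Real.exp v + v + 3 / 2 :=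
      abs_le.2 ⟨by linarith [b2.1, a3.1, ht.1], by linarith [b2.2, a3.2, ht.2]⟩
    linarith
  have key := logderiv_far (f := χ.LFunction) (c := c) (z := s) (R := 2 - σ)
    (B := 5 * Real.exp v * (7 * Real.exp v)) (M := 72 * v) (δ := 1 / (2 * v)) (by positivity)
    (by positivity) (χ.differentiable_LFunction hχ).differentiableOn
    (fun z hzz h => by
      have := hz z h (hball z hzz).2.1
      linarith [(hball z hzz).1])
    (fun z hzz => (L_crude hχ (s := z) (by linarith [(hball z hzz).1])).trans (by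
      have := (hball z hzz).2.2
      gcongr))
    (by
      have b1 := inv_L_le χ (s := c) (by linarith)
      rw [cre] at b1
      have b2 : 70 ≤ Real.exp (70 * v) := by
        have := Real.add_one_le_exp (70 * v)
        linarith
      have b3 : Real.exp (72 * v) = Real.exp (70 * v) * Real.exp v ^ 2 := by
        rw [← Real.exp_nat_mul, ← Real.exp_add]; congr 1; push_cast; ring
      rw [b3]
      calc 5 * Real.exp v * (7 * Real.exp v) = 70 * Real.exp v ^ 2 * (1 / 2) := by ring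
        _ ≤ _ := by gcongr; linarith)
    (by
      have : s - c = ((s.re - 2 : ℝ) : ℂ) := by
        apply Complex.ext <;> simp [hc]
      rw [this, norm_real, Real.norm_eq_abs, abs_of_nonpos (by linarith)]
      have : 2 * (1 / (2 * v)) = 1 / v := by field_simp
      linarith)
  rw [HL, norm_neg]
  refine key.trans ?_
  calc 2 * (72 * v) * (2 - σ) / (1 / (2 * v)) ^ 2
      = 576 * v ^ 3 * (2 - σ) := by field_simp; ring
    _ ≤ 576 * v ^ 3 * (3 / 2) := by gcongr; linarith
    _ = _ := by ring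

theorem locL : ∃ C : ℝ, 0 ≤ C ∧ ∀ (q : ℕ) [NeZero q] (χ : DirichletCharacter ℂ q), χ ≠ 1 →
    ∀ v t σ : ℝ, 1 ≤ v → (q : ℝ) ≤ Real.exp v → |t| ≤ Real.exp v → 1 / 2 ≤ σ → σ ≤ 1 →
    (∀ r : ℂ, χ.LFunction r = 0 → |r.im - t| ≤ v + 2 → r.re ≤ σ) →
    ‖∑' n : ℕ, LSeries.term (ch χ * vm) (1 + t * I) n * (gw v n : ℂ)‖ ≤
      C * v ^ 3 * Real.exp (v * (σ - 1)) := by
  obtain ⟨K', hK', hline⟩ := HL_line
  refine ⟨64 * (864 * 3 + (864 + K') * Real.exp (9 / 4)), by positivity,
    fun q _ χ hχ v t σ hv hq ht h1 h2 hz => ?_⟩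
  have hv0 : 0 < v := by linarith
  have hv1 : 1 / v ≤ 1 := by rw [div_le_one hv0]; exact hv
  have hv2 : 0 < 1 / v := by positivity
  set a : ℕ → ℂ := LSeries.term (ch χ * vm) (1 + t * I) with ha
  have hre : ∀ y : ℝ, ((1 : ℂ) + t * I + ((1 : ℝ) + y * I)).re = 2 := by
    intro y; simp; norm_num
  have hsum : LSeriesSummable a (1 : ℝ) := by
    have : LSeriesSummable (ch χ * vm) (1 + t * I + (1 : ℝ)) :=
      χ.LSeriesSummable_twist_vonMangoldt (by simp)
    exact this.congr fun n => (term_term _ _ _ n).symm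
  have hL : ∀ y : ℝ, LSeries a ((1 : ℝ) + y * I) = HL χ (1 + t * I + ((1 : ℝ) + y * I)) := by
    intro y
    have : LSeries a ((1 : ℝ) + y * I) = LSeries (ch χ * vm) (1 + t * I + ((1 : ℝ) + y * I)) :=
      tsum_congr fun n => term_term _ _ _ n
    rw [this, twist_eq χ (by rw [hre]; norm_num), HL]
  have hG := (gauss_LSeries (a := a) (by simp [ha]) hsum v).tsum_eq
  have hcH : Continuous fun y : ℝ => HL χ (1 + t * I + ((1 : ℝ) + y * I)) := by
    refine continuous_iff_continuousAt.2 fun y => ?_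
    exact ContinuousAt.comp (f := fun y : ℝ => (1 + t * I + ((1 : ℝ) + y * I) : ℂ))
      (HL_diff hχ (χ.LFunction_ne_zero_of_one_le_re (Or.inl hχ)
        (by rw [hre]; norm_num))).continuousAt (by fun_prop)
  simp_rw [hL] at hG
  have hS := shift_bound (F := fun w => HL χ (1 + t * I + w)) (σ₁ := σ - 1 + 1 / v) (σ₂ := 1)
    (T := v) (v := v) (K := 864 * v ^ 3) (K' := K') (by linarith) (by linarith) (by norm_num)
    hv0.le hv0.le
    (fun w hw => by
      refine (DifferentiableAt.comp w (HL_diff hχ fun h => ?_)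
        (by fun_prop)).differentiableWithinAt
      have b1 := hw.1.1
      have b2 := hw.2
      have := hz _ h (by
        simp only [add_im, one_im, mul_im, ofReal_re, I_im, ofReal_im, I_re]
        rw [abs_le]
        constructor <;> linarith [b2.1, b2.2])
      simp at this b1
      simp only [one_div] at hv2
      linarith)
    (fun x hx y hy => HL_box hχ hv hq ht h1 hz (by simp; have := hx.1; simp at this; linarith)
      (by simp; linarith [hx.2]) (by simp; exact abs_le.2 hy))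
    hcH (fun y => hline q χ _ (hre y))
  have hq1 := one_le_sqrt_two_pi
  have e1 : (∑' n : ℕ, a n * ((√(2 * Real.pi) * gw v n : ℝ) : ℂ)) =
      √(2 * Real.pi) * ∑' n : ℕ, a n * (gw v n : ℂ) := by
    rw [← tsum_mul_left]
    refine tsum_congr fun n => ?_
    push_cast
    ring
  rw [e1] at hG
  set E := Real.exp (v * (σ - 1)) with hE
  have hE0 : 0 < E := Real.exp_pos _
  have b1 : Real.exp (v * (σ - 1 + 1 / v)) ≤ 3 * E := by
    rw [show v * (σ - 1 + 1 / v) = 1 + v * (σ - 1) by field_simp; ring, Real.exp_add]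
    gcongr
    linarith [Real.exp_one_lt_d9]
  have b3 : Real.exp (v * 1) * Real.exp (-v ^ 2 / 4) ≤ Real.exp (9 / 4) * E := by
    rw [hE, ← Real.exp_add, ← Real.exp_add]
    refine Real.exp_le_exp.2 ?_
    nlinarith [sq_nonneg (v - 3)]
  have b4 : 1 ≤ v ^ 3 := one_le_pow₀ hv
  have b5 : 864 * v ^ 3 + K' ≤ (864 + K') * v ^ 3 := by nlinarith
  set D := ∑' n : ℕ, a n * (gw v n : ℂ) with hD
  have b6 : ‖D‖ ≤ ‖(√(2 * Real.pi) : ℂ) * D‖ := by
    rw [norm_mul, norm_real, Real.norm_of_nonneg (Real.sqrt_nonneg _)]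
    nlinarith [norm_nonneg D]
  refine b6.trans ?_
  rw [hG]
  refine hS.trans ?_
  calc 64 * (864 * v ^ 3 * Real.exp (v * (σ - 1 + 1 / v)) +
        (864 * v ^ 3 + K') * Real.exp (v * 1) * Real.exp (-v ^ 2 / 4))
      ≤ 64 * (864 * v ^ 3 * (3 * E) + (864 + K') * v ^ 3 * (Real.exp (9 / 4) * E)) := by
        rw [mul_assoc (864 * v ^ 3 + K')]
        gcongr
    _ = _ := by ring

/-- primes twisted by a character with a wide logarithmic Gaussian weight -/
noncomputable def PL (χ : DirichletCharacter ℂ q) (v t : ℝ) : ℂ := ∑' n : ℕ, χ n * (Λ n : ℂ) *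
  (n : ℂ) ^ (-(1 + (t : ℂ) * I)) * (Real.exp (-(Real.log n - v) ^ 2 / 2) : ℝ)

omit [NeZero q] in
lemma PL_eq (χ : DirichletCharacter ℂ q) (v t : ℝ) :
    PL χ v t = ∑' n : ℕ, LSeries.term (ch χ * vm) (1 + t * I) n * (gw v n : ℂ) := by
  refine tsum_congr fun n => ?_
  rcases eq_or_ne n 0 with rfl | hn
  · simp
  · rw [LSeries.term_of_ne_zero hn, cpow_neg, gw]
    rfl

lemma pp_sum (F : Finset ℕ) :
    ∑ n ∈ F with ¬ n.Coprime q, Λ n * Real.exp (-Real.log n / 2) ≤ 4 * Real.log q := by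
  have hq := NeZero.ne q
  set f : ℕ → ℝ := fun n => Λ n * Real.exp (-Real.log n / 2) with hf
  have f0 : ∀ n, 0 ≤ f n := fun n => mul_nonneg vonMangoldt_nonneg (Real.exp_pos _).le
  set K := F.sup id + 1
  have h1 : ∑ n ∈ F with ¬ n.Coprime q, f n ≤
      ∑ n ∈ (q.primeFactors ×ˢ Finset.range K).image (fun x => x.1 ^ x.2), f n := by
    rw [← Finset.sum_filter_ne_zero]
    refine Finset.sum_le_sum_of_subset_of_nonneg (fun n hn => ?_) fun n _ _ => f0 n
    obtain ⟨hn, h⟩ := Finset.mem_filter.1 hn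
    obtain ⟨hn1, hn2⟩ := Finset.mem_filter.1 hn
    obtain ⟨p, k, hp, hk, rfl⟩ := (isPrimePow_nat_iff n).1
      (vonMangoldt_ne_zero_iff.1 (left_ne_zero_of_mul h))
    refine Finset.mem_image.2 ⟨(p, k), Finset.mem_product.2 ⟨Nat.mem_primeFactors.2 ⟨hp, ?_, hq⟩,
      Finset.mem_range.2 ?_⟩, rfl⟩
    · by_contra h3
      exact hn2 (Nat.Coprime.pow_left k ((Nat.Prime.coprime_iff_not_dvd hp).2 h3))
    · have h4 : p ^ k ≤ F.sup id := Finset.le_sup (f := id) hn1
      have h5 := Nat.lt_pow_self (n := k) hp.one_lt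
      show k < F.sup id + 1
      omega
  refine h1.trans ((Finset.sum_image_le_of_nonneg fun n _ => f0 n).trans ?_)
  rw [Finset.sum_product, ← vonMangoldt_sum, Finset.mul_sum]
  refine le_trans (Finset.sum_le_sum fun p hp => ?_) (Finset.sum_le_sum_of_subset_of_nonneg
    (fun p hp => Nat.mem_divisors.2 ⟨Nat.dvd_of_mem_primeFactors hp, hq⟩)
    fun d _ _ => mul_nonneg (by norm_num) vonMangoldt_nonneg)
  have hpp := Nat.prime_of_mem_primeFactors hp
  have h2 : (2 / 3 : ℝ) ≤ Real.log p := by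
    have : Real.log 2 ≤ Real.log p := Real.log_le_log (by norm_num) (by exact_mod_cast hpp.two_le)
    linarith [Real.log_two_gt_d9]
  have h3 : Real.exp (-Real.log p / 2) ≤ 3 / 4 := by
    have := Real.add_one_le_exp (Real.log p / 2)
    rw [neg_div, Real.exp_neg, inv_le_comm₀ (Real.exp_pos _) (by norm_num)]
    linarith
  have h4 : ∀ k : ℕ, f (p ^ k) ≤ Λ p * (3 / 4) ^ k := by
    intro k
    rcases Nat.eq_zero_or_pos k with rfl | hk
    · simp [hf]
    · simp only [hf]
      rw [vonMangoldt_apply_pow hk.ne', Nat.cast_pow, Real.log_pow,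
        show -(k * Real.log p) / 2 = k * (-Real.log p / 2) by ring, Real.exp_nat_mul]
      gcongr
  refine (Finset.sum_le_sum fun k _ => h4 k).trans ?_
  rw [← Finset.mul_sum, mul_comm]
  gcongr
  have := (summable_geometric_of_lt_one (r := 3 / 4) (by norm_num) (by norm_num)).sum_le_tsum
    (Finset.range K) fun _ _ => by positivity
  rw [tsum_geometric_of_lt_one (by norm_num) (by norm_num)] at this
  linarith

lemma PL_one (v t : ℝ) :
    ‖PG v t - PL (1 : DirichletCharacter ℂ q) v t‖ ≤ 8 * Real.log q * Real.exp (-v / 2) := by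
  have hn : ∀ n : ℕ, ‖(Λ n : ℂ) * (n : ℂ) ^ (-(1 + (t : ℂ) * I)) *
      (Real.exp (-(Real.log n - v) ^ 2 / 2) : ℝ)‖ = cg v n := by
    intro n
    rcases Nat.eq_zero_or_pos n with rfl | hn
    · simp [cg]
    · rw [norm_mul, norm_mul, norm_natCast_cpow_of_pos hn, norm_real, norm_real,
        Real.norm_of_nonneg vonMangoldt_nonneg, Real.norm_of_nonneg (Real.exp_pos _).le, cg, gw]
      simp [Real.rpow_neg_one, div_eq_mul_inv]
  have s1 : Summable fun n : ℕ => (Λ n : ℂ) * (n : ℂ) ^ (-(1 + (t : ℂ) * I)) *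
      (Real.exp (-(Real.log n - v) ^ 2 / 2) : ℝ) :=
    Summable.of_norm ((cg_summable v).congr fun n => (hn n).symm)
  have s2 : Summable fun n : ℕ => (1 : DirichletCharacter ℂ q) n * (Λ n : ℂ) *
      (n : ℂ) ^ (-(1 + (t : ℂ) * I)) * (Real.exp (-(Real.log n - v) ^ 2 / 2) : ℝ) := by
    refine Summable.of_norm_bounded (cg_summable v) fun n => ?_
    rw [mul_assoc, mul_assoc, norm_mul, ← mul_assoc, hn]
    exact mul_le_of_le_one_left (cg_nonneg v n) (DirichletCharacter.norm_le_one _ _)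
  rw [PG, PL, ← s1.tsum_sub s2]
  set g : ℕ → ℝ := fun n => if ¬ n.Coprime q then
    2 * Real.exp (-v / 2) * (Λ n * Real.exp (-Real.log n / 2)) else 0 with hg
  have g0 : ∀ n, 0 ≤ g n := fun n => by
    have := vonMangoldt_nonneg (n := n)
    simp only [hg]; split_ifs <;> positivity
  have gs : ∀ F : Finset ℕ, ∑ n ∈ F, g n ≤ 8 * Real.log q * Real.exp (-v / 2) := fun F => by
    rw [← Finset.sum_filter, ← Finset.mul_sum]
    have := mul_le_mul_of_nonneg_left (pp_sum (q := q) F)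
      (show 0 ≤ 2 * Real.exp (-v / 2) by positivity)
    linarith
  have sg := summable_of_sum_le g0 gs
  refine (tsum_of_norm_bounded sg.hasSum fun n => ?_).trans (sg.tsum_le_of_sum_le gs)
  simp only [hg]
  split_ifs with h
  · rw [MulChar.one_apply ((ZMod.isUnit_iff_coprime n q).2 h)]
    simp
  · rw [MulChar.map_nonunit _ (fun e => h ((ZMod.isUnit_iff_coprime n q).1 e)), zero_mul, zero_mul,
      zero_mul, sub_zero, hn, cg, gw]
    rcases Nat.eq_zero_or_pos n with rfl | hn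
    · simp
    have h0 : (0 : ℝ) < n := by exact_mod_cast hn
    have h1 : Real.exp (1 / 8) ≤ 2 :=
      (Real.exp_bound_div_one_sub_of_interval (by norm_num) (by norm_num)).trans (by norm_num)
    have h2 : (n : ℝ)⁻¹ * Real.exp (-(Real.log n - v) ^ 2 / 2) ≤
        Real.exp (1 / 8) * Real.exp (-v / 2) * Real.exp (-Real.log n / 2) := by
      rw [show (n : ℝ)⁻¹ = Real.exp (-Real.log n) by rw [Real.exp_neg, Real.exp_log h0],
        ← Real.exp_add, ← Real.exp_add, ← Real.exp_add]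
      exact Real.exp_le_exp.2 (by nlinarith [sq_nonneg (Real.log n - v + 1 / 2)])
    have h3 := vonMangoldt_nonneg (n := n)
    calc Λ n / n * Real.exp (-(Real.log n - v) ^ 2 / 2)
        = Λ n * ((n : ℝ)⁻¹ * Real.exp (-(Real.log n - v) ^ 2 / 2)) := by ring
      _ ≤ Λ n * (2 * Real.exp (-v / 2) * Real.exp (-Real.log n / 2)) :=
        mul_le_mul_of_nonneg_left (h2.trans (by gcongr)) h3
      _ = _ := by ring

open Classical in
/-- pointwise bound from a zero free strip, all characters -/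
theorem ptL : ∃ C : ℝ, 0 ≤ C ∧ ∀ (q : ℕ) [NeZero q] (χ : DirichletCharacter ℂ q) (v t σ : ℝ),
    1 ≤ v → (q : ℝ) ≤ Real.exp v → |t| ≤ Real.exp v → 1 / 2 ≤ σ → σ ≤ 1 →
    (∀ s : ℂ, s ≠ 1 → χ.LFunction s = 0 → |s.im - t| ≤ v + 2 → s.re ≤ σ) →
    ‖PL χ v t - (if χ = 1 then PM v t else 0)‖ ≤ C * v ^ 3 * Real.exp (v * (σ - 1)) := by
  obtain ⟨C, hC, h⟩ := locL
  obtain ⟨C', hC', h'⟩ := loc0
  refine ⟨C + C' + 8, by positivity, fun q _ χ v t σ hv hq ht h1 h2 hz => ?_⟩
  have hE := Real.exp_pos (v * (σ - 1))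
  have hv3 : 0 ≤ v ^ 3 * Real.exp (v * (σ - 1)) := by positivity
  split_ifs with hχ
  · subst hχ
    have a1 := h' v t σ hv ht h1 h2 fun r hr h3 => by
      have h4 : r ≠ 1 := by rintro rfl; exact riemannZeta_one_ne_zero hr
      refine hz r h4 ?_ h3
      have := DirichletCharacter.LFunctionTrivChar_eq_mul_riemannZeta (N := q) h4
      rw [hr, mul_zero] at this
      exact this
    have a2 : (∑' n : ℕ, LSeries.term (fun n => (Λ n : ℂ)) (1 + t * I) n * (gw v n : ℂ)) =
        PG v t := by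
      refine tsum_congr fun n => ?_
      rcases eq_or_ne n 0 with rfl | hn
      · simp
      · rw [LSeries.term_of_ne_zero hn, cpow_neg, gw]
        rfl
    rw [a2, show -(1 - σ) * v = v * (σ - 1) by ring] at a1
    have a3 := PL_one (q := q) v t
    have a4 : Real.log q ≤ v ^ 3 := by
      have : Real.log q ≤ v := (Real.log_le_iff_le_exp (by exact_mod_cast NeZero.pos q)).2 hq
      exact this.trans (le_self_pow₀ hv (by norm_num))
    have a5 : Real.exp (-v / 2) ≤ Real.exp (v * (σ - 1)) := Real.exp_le_exp.2 (by nlinarith)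
    have a6 : 8 * Real.log q * Real.exp (-v / 2) ≤ 8 * v ^ 3 * Real.exp (v * (σ - 1)) := by
      gcongr
    have a7 := norm_sub_le (PG v t - PM v t) (PG v t - PL (1 : DirichletCharacter ℂ q) v t)
    rw [sub_sub_sub_cancel_left] at a7
    have a8 : ‖PG v t - PM v t‖ ≤ C' * v ^ 3 * Real.exp (v * (σ - 1)) := a1
    nlinarith
  · have a1 := h q χ hχ v t σ hv hq ht h1 h2 fun r hr h3 => by
      refine hz r ?_ hr h3
      rintro rfl
      exact χ.LFunction_apply_one_ne_zero hχ hr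
    rw [sub_zero, PL_eq]
    nlinarith

end Pool.Agent.Lib.MP_68a45e_nt.Tw
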