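import Pool.Agent.Lib.MP_b09185_nt.ShL1
import Pool.Agent.Lib.MP_68a45e_nt.AvDef
import Pool.Agent.Lib.MP_68a45e_nt.TwLoc

/-! The mean square bound for primes twisted by characters. -/

namespace Pool.Agent.Lib.MP_68a45e_nt.Av

open Finset Complex Filter MeasureTheory Topology Pool.Agent.Lib.MP_b09185_nt.Sh

theorem ptX : PtX := by
  obtain ⟨C, -, h⟩ := Tw.locL
  refine ⟨C, 1, fun v t σ a1 a2 a3 a4 q _ χ hχ hq hz => ?_⟩
  have := h q χ hχ v t σ a1 hq a2 a3 a4 hz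
  rw [← Tw.PL_eq] at this
  exact this

/-- the estimate for a fixed value of the parameter -/
lemma l1_fixP {Zr : ℂ → Prop} {f : ℝ → ℝ} {C Q v η T T' : ℝ} (hv : 1 ≤ v) (hC : 0 ≤ C) (hQ : 0 ≤ Q) (hT : 0 ≤ T)
    (hf : ∀ t, 0 ≤ f t) (hη : 1 / v ≤ η) (hT' : T + v + 2 ≤ T')
    (hZ : ∀ s : ℂ, Zr s → |s.im| ≤ T' → s.re ≤ 1 - η)
    (hP : ∀ t σ : ℝ, |t| ≤ T → 1 / 2 ≤ σ → σ ≤ 1 →
      (∀ s : ℂ, Zr s → |s.im - t| ≤ v + 2 → s.re ≤ σ) →
        f t ≤ C * Real.exp (v * (σ - 1)))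
    (hD : ∀ σ : ℝ, 5 / 9 ≤ σ → σ ≤ 1 - η → ∀ S : Finset ℝ, Sep S →
      (∀ γ ∈ S, |γ| ≤ T' ∧ ∃ β : ℝ, σ ≤ β ∧ Zr (β + γ * I)) →
        (#S : ℝ) ≤ Q * Real.exp (v * (1 - σ))) :
    ∫ t in (-T)..T, f t ≤
      2 * T * (C * Real.exp (-(4 / 9) * v)) + (v + 1) * (2 * (v + 3) * (C * 3 * Q)) := by
  classical
  have hv0 : 0 < v := by linarith
  have hη0 : 0 < η := lt_of_lt_of_le (by positivity) hη
  set σ : ℕ → ℝ := fun j => 5 / 9 + j / v with hσ
  have hσ0 : ∀ j, 5 / 9 ≤ σ j := fun j => by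
    have : 0 ≤ (j : ℝ) / v := by positivity
    simp only [hσ]; linarith
  have cov : ∀ j : ℕ, ∃ S : Finset ℝ, (#S : ℝ) ≤ Q * Real.exp (v * (1 - σ j)) ∧
      ∀ γ, (σ j ≤ 1 - η ∧ |γ| ≤ T' ∧ ∃ β : ℝ, σ j ≤ β ∧ Zr (β + γ * I)) →
        ∃ s ∈ S, |γ - s| ≤ 1 := by
    intro j
    apply l1_cover
    intro S h1 h2
    rcases S.eq_empty_or_nonempty with rfl | ⟨t, ht⟩
    · simp only [card_empty, Nat.cast_zero]; positivity
    · exact hD _ (hσ0 j) (h2 t ht).1 S h1 (fun γ hγ => (h2 γ hγ).2)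
  choose S hS1 hS2 using cov
  have main := l1_int (f := f) (T := T) (c0 := C * Real.exp (-(4 / 9) * v)) (w := v + 3)
    ((range ⌈v⌉₊).sigma S) (fun p => p.2) (fun p => C * Real.exp (v * (σ (p.1 + 1) - 1)))
    hT (by linarith) hf (by positivity) (fun _ _ => by positivity) ?_
  · refine main.trans ?_
    gcongr
    rw [sum_sigma]
    have hb : ∀ j ∈ range ⌈v⌉₊, ∑ s ∈ S j, 2 * (v + 3) * (C * Real.exp (v * (σ (j + 1) - 1))) ≤
        2 * (v + 3) * (C * 3 * Q) := by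
      intro j _
      rw [sum_const, nsmul_eq_mul]
      have e1 : Real.exp (v * (1 - σ j)) * Real.exp (v * (σ (j + 1) - 1)) = Real.exp 1 := by
        rw [← Real.exp_add]
        congr 1
        simp only [hσ]
        push_cast
        field_simp
        ring
      have e2 : Real.exp 1 ≤ 3 := by linarith [Real.exp_one_lt_d9]
      calc (#(S j) : ℝ) * (2 * (v + 3) * (C * Real.exp (v * (σ (j + 1) - 1))))
          ≤ Q * Real.exp (v * (1 - σ j)) *
            (2 * (v + 3) * (C * Real.exp (v * (σ (j + 1) - 1)))) := by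
            gcongr
            exact hS1 j
        _ = 2 * (v + 3) * (C * (Real.exp (v * (1 - σ j)) *
            Real.exp (v * (σ (j + 1) - 1))) * Q) := by ring
        _ ≤ _ := by rw [e1]; gcongr
    refine (sum_le_card_nsmul _ _ _ hb).trans ?_
    rw [card_range, nsmul_eq_mul]
    gcongr
    exact (Nat.ceil_lt_add_one hv0.le).le
  · intro t ht
    have him : ∀ s : ℂ, |s.im - t| ≤ v + 2 → |s.im| ≤ T' := fun s hs => by
      have := abs_add_le (s.im - t) t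
      rw [sub_add_cancel] at this
      linarith
    have hex : ∃ j : ℕ, ∀ s : ℂ, Zr s → |s.im - t| ≤ v + 2 → s.re ≤ σ j := by
      refine ⟨⌈v⌉₊, fun s h1 h2 => ?_⟩
      have h3 := hZ s h1 (him s h2)
      have h4 : 1 ≤ (⌈v⌉₊ : ℝ) / v := (one_le_div hv0).2 (Nat.le_ceil v)
      simp only [hσ]
      linarith
    have hj := Nat.find_spec hex
    have hm := fun m => Nat.find_min hex (m := m)
    generalize Nat.find hex = j at hj hm
    rcases j with _ | j
    · left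
      have := hP t (σ 0) ht (by linarith [hσ0 0]) (by simp only [hσ]; norm_num) hj
      have e : v * (σ 0 - 1) = -(4 / 9) * v := by simp only [hσ]; push_cast; ring
      rwa [e] at this
    · right
      have h1 := hm j (Nat.lt_succ_self j)
      push Not at h1
      obtain ⟨s, hs0, hs1, hs2⟩ := h1
      have h3 := hZ s hs0 (him s hs1)
      obtain ⟨y, hy, hy1⟩ := hS2 j s.im ⟨by linarith, him s hs1, s.re, hs2.le, by
        rw [re_add_im]; exact hs0⟩
      have hjv : (j : ℝ) < v := by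
        have : (j : ℝ) / v < 1 := by
          have : σ j < 1 := by linarith
          simp only [hσ] at this
          linarith
        exact (div_lt_one hv0).1 this
      refine ⟨⟨j, y⟩, mem_sigma.2 ⟨mem_range.2 (Nat.lt_ceil.2 hjv), hy⟩, ?_, ?_⟩
      · have := abs_add_le (s.im - y) (t - s.im)
        rw [abs_sub_comm t s.im] at this
        have e : s.im - y + (t - s.im) = t - y := by ring
        rw [e] at this
        show |t - y| ≤ v + 3
        linarith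
      · refine hP t _ ht (by linarith [hσ0 (j + 1)]) ?_ hj
        have e : σ (j + 1) = σ j + 1 / v := by simp only [hσ]; push_cast; ring
        rw [e]
        linarith

lemma l2_abs {a θ : ℝ} (C : ℝ) (h0 : 0 < a) (h1 : a < 8 / 9) (hθ0 : 0 < θ) (hθ1 : θ < 1) :
    ∃ A b : ℝ, 9 / 4 < A ∧ 0 < b ∧ b < 1 ∧ ∀ (B C' : ℝ) (A0 : ℕ), ∀ᶠ v : ℝ in atTop,
    3 ≤ Real.exp (b * v) ∧ ∀ (Zr : ℂ → Prop) (F : ℝ → ℂ),
    (∀ s, Zr s → |s.im| ≤ Real.exp v → s.re ≤ 1 - v ^ (-θ)) →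
    (∀ t σ : ℝ, |t| ≤ Real.exp v → 1 / 2 ≤ σ → σ ≤ 1 →
      (∀ s : ℂ, Zr s → |s.im - t| ≤ v + 2 → s.re ≤ σ) →
        ‖F t‖ ≤ C * v ^ 3 * Real.exp (v * (σ - 1))) →
    (∀ σ : ℝ, 5 / 9 ≤ σ → σ ≤ 1 → ∀ S : Finset ℝ, Sep S →
      (∀ γ ∈ S, |γ| ≤ Real.exp (b * v) ∧ ∃ β : ℝ, σ ≤ β ∧ Zr (β + γ * I)) →
        (#S : ℝ) ≤ C' * Real.exp (b * v) ^ (A * (1 - σ)) * Real.log (Real.exp (b * v)) ^ B) →
    ∫ t in (-Real.exp (a * v))..(Real.exp (a * v)), ‖F t‖ ^ 2 ≤ 1 / v ^ A0 := by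
  obtain ⟨b, hab, hb⟩ := exists_between h1
  have hb0 : 0 < b := by linarith
  obtain ⟨A, hA1, hA2⟩ := exists_between (show (9 / 4 : ℝ) < 2 / b by
    rw [lt_div_iff₀ hb0]; linarith)
  have hκ : 0 < 2 - A * b := by
    rw [lt_div_iff₀ hb0] at hA2; linarith
  refine ⟨A, b, hA1, hb0, by linarith, fun B C' A0 => ?_⟩
  set κ := 2 - A * b with hκd
  set n := ⌈B⌉₊ with hn
  have t1 : Tendsto (fun v : ℝ => 2 * C ^ 2 * (v ^ (6 + A0) * Real.exp (-(8 / 9 - a) * v ^ (1 : ℝ))) +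
      90 * C ^ 2 * |C'| * (v ^ (n + 8 + A0) * Real.exp (-κ * v ^ (1 - θ)))) atTop (𝓝 0) := by
    have := ((l1_lim (6 + A0) (κ := 8 / 9 - a) (by linarith) one_pos).const_mul (2 * C ^ 2)).add
      ((l1_lim (n + 8 + A0) hκ (φ := 1 - θ) (by linarith)).const_mul (90 * C ^ 2 * |C'|))
    simpa using this
  have t2 : Tendsto (fun v : ℝ => v ^ 0 * Real.exp (-(b - a) * v ^ (1 : ℝ)) +
      4 * (v ^ 1 * Real.exp (-b * v ^ (1 : ℝ)))) atTop (𝓝 0) := by
    have := (l1_lim 0 (κ := b - a) (by linarith) one_pos).add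
      ((l1_lim 1 hb0 one_pos).const_mul 4)
    simpa using this
  filter_upwards [t1.eventually (eventually_le_nhds one_pos),
    t2.eventually (eventually_le_nhds one_pos),
    eventually_ge_atTop 1, eventually_ge_atTop (1 / b)] with v e1 e2 hv hvb
  have hv' : 0 < v := by linarith
  simp only [Real.rpow_one, pow_zero, pow_one, one_mul] at e1 e2
  have hbv : 1 ≤ b * v := by rw [div_le_iff₀ hb0] at hvb; linarith
  have hT' : Real.exp (a * v) + 2 * v + 2 ≤ Real.exp (b * v) := by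
    have h2 := mul_le_mul_of_nonneg_right e2 (Real.exp_pos (b * v)).le
    have h3 : Real.exp (-(b - a) * v) * Real.exp (b * v) = Real.exp (a * v) := by
      rw [← Real.exp_add]; congr 1; ring
    have h4 : Real.exp (-b * v) * Real.exp (b * v) = 1 := by
      rw [← Real.exp_add]; simp
    have h5 : (Real.exp (-(b - a) * v) + 4 * (v * Real.exp (-b * v))) * Real.exp (b * v) =
        Real.exp (-(b - a) * v) * Real.exp (b * v) +
          4 * v * (Real.exp (-b * v) * Real.exp (b * v)) := by ring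
    rw [h5, h3, h4] at h2
    linarith
  have hbe : Real.exp (b * v) ≤ Real.exp v := Real.exp_le_exp.2 (by nlinarith)
  have hpos := Real.exp_pos (a * v)
  refine ⟨by linarith, fun Zr F hZ hP hD => ?_⟩
  have main := l1_fixP (Zr := Zr) (f := fun t => ‖F t‖ ^ 2) (C := C ^ 2 * v ^ 6)
    (Q := |C'| * v ^ n * Real.exp (-κ * v ^ (1 - θ))) (v := 2 * v) (η := v ^ (-θ))
    (T := Real.exp (a * v)) (T' := Real.exp (b * v)) (by linarith) (by positivity) (by positivity)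
    hpos.le (fun _ => by positivity) ?_ hT' (fun s h2 h3 => hZ s h2 (h3.trans hbe)) ?_ ?_
  · refine main.trans ?_
    rw [le_div_iff₀ (by positivity), add_mul]
    refine le_trans ?_ e1
    apply add_le_add
    · apply le_of_eq
      have : Real.exp (-(8 / 9 - a) * v) = Real.exp (a * v) * Real.exp (-(4 / 9) * (2 * v)) := by
        rw [← Real.exp_add]; congr 1; ring
      rw [this]
      ring
    · calc (2 * v + 1) * (2 * (2 * v + 3) * (C ^ 2 * v ^ 6 * 3 *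
            (|C'| * v ^ n * Real.exp (-κ * v ^ (1 - θ))))) * v ^ A0
          ≤ (3 * v) * (2 * (5 * v) * (C ^ 2 * v ^ 6 * 3 *
            (|C'| * v ^ n * Real.exp (-κ * v ^ (1 - θ))))) * v ^ A0 := by
            gcongr <;> linarith
        _ = _ := by ring
  · refine le_trans (one_div_le_one_div_of_le hv' (by linarith)) ?_
    rw [one_div, ← Real.rpow_neg_one]
    exact Real.rpow_le_rpow_of_exponent_le hv (by linarith)
  · intro t σ ht h2 h3 h4
    have h5 := hP t σ (by linarith) h2 h3 fun s a1 a2 => h4 s a1 (by linarith)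
    refine (pow_le_pow_left₀ (norm_nonneg _) h5 2).trans (le_of_eq ?_)
    rw [show 2 * v * (σ - 1) = v * (σ - 1) + v * (σ - 1) by ring, Real.exp_add]
    ring
  · intro σ h2 h3 S h4 h5
    have hη : 0 < v ^ (-θ) := Real.rpow_pos_of_pos hv' _
    refine (hD σ h2 (by linarith) S h4 h5).trans ?_
    rw [Real.log_exp, ← Real.exp_mul]
    have h6 : (b * v) ^ B ≤ v ^ n := by
      calc (b * v) ^ B ≤ (b * v) ^ (n : ℝ) :=
            Real.rpow_le_rpow_of_exponent_le hbv (Nat.le_ceil B)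
        _ = (b * v) ^ n := Real.rpow_natCast _ _
        _ ≤ v ^ n := by gcongr; nlinarith
    have h7 : Real.exp (b * v * (A * (1 - σ))) ≤
        Real.exp (-κ * v ^ (1 - θ)) * Real.exp (2 * v * (1 - σ)) := by
      rw [← Real.exp_add]
      apply Real.exp_le_exp.2
      have h8 : v ^ (1 - θ) = v * v ^ (-θ) := by
        rw [sub_eq_add_neg, Real.rpow_add hv', Real.rpow_one]
      have h9 : κ * (v * v ^ (-θ)) ≤ κ * (v * (1 - σ)) := by
        gcongr; linarith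
      rw [h8]
      have : b * v * (A * (1 - σ)) = 2 * v * (1 - σ) - κ * (v * (1 - σ)) := by rw [hκd]; ring
      linarith
    calc C' * Real.exp (b * v * (A * (1 - σ))) * (b * v) ^ B
        ≤ |C'| * Real.exp (b * v * (A * (1 - σ))) * (b * v) ^ B := by
          gcongr; exact le_abs_self _
      _ ≤ |C'| * (Real.exp (-κ * v ^ (1 - θ)) * Real.exp (2 * v * (1 - σ))) * v ^ n := by gcongr
      _ = _ := by ring

theorem l2T (hD : Dens) (hZ : ZF) (hP : Pt) (hDX : DensX) (hZX : ZFX) (hPX : PtX) {a : ℝ}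
    (h0 : 0 < a) (h1 : a < 8 / 9) : L2T a := by
  intro A0 B0
  obtain ⟨θ, L0, t0, t1, hZ⟩ := hZ
  obtain ⟨C, v0, hP⟩ := hP
  obtain ⟨A, b, hA, -, -, h⟩ := l2_abs C h0 h1 t0 t1
  obtain ⟨B, C', hD⟩ := hD A hA
  obtain ⟨θ2, s0, s1, hZX⟩ := hZX
  obtain ⟨L2, hZX⟩ := hZX B0
  obtain ⟨C2, v2, hPX⟩ := hPX
  obtain ⟨A2, b2, hA2, hb0, hb1, h2⟩ := l2_abs C2 h0 h1 s0 s1
  obtain ⟨B2, C2', hDX⟩ := hDX A2 hA2
  filter_upwards [h B C' A0, h2 B2 C2' A0,
    (l1_lim (B0 * 1000) hb0 one_pos).eventually (eventually_le_nhds one_pos),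
    eventually_ge_atTop 0, eventually_ge_atTop L0, eventually_ge_atTop v0, eventually_ge_atTop L2,
    eventually_ge_atTop v2] with v e1 e2 e3 hv a1 a2 a3 a4
  refine ⟨e1.2 (fun s => riemannZeta s = 0) (fun t => PG v t - PM v t) (hZ v a1)
    (fun t σ => hP v t σ a2) (fun σ c1 c2 => hD _ σ e1.1 c1 c2), fun q _ χ hχ hq => ?_⟩
  have hq1 : (q : ℝ) ^ 1000 ≤ Real.exp (b2 * v) := by
    have h2 := mul_le_mul_of_nonneg_right e3 (Real.exp_pos (b2 * v)).le
    rw [Real.rpow_one, mul_assoc, ← Real.exp_add, neg_mul, neg_add_cancel, Real.exp_zero, mul_one,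
      one_mul, pow_mul] at h2
    exact (pow_le_pow_left₀ (by positivity) hq _).trans h2
  have hq2 : (q : ℝ) ≤ Real.exp v :=
    (le_self_pow₀ (by exact_mod_cast NeZero.pos q) (by norm_num)).trans
      (hq1.trans (Real.exp_le_exp.2 (by nlinarith)))
  exact e2.2 (fun s => χ.LFunction s = 0) (fun t => PGa (fun n => χ n * vM n) v t)
    (hZX v a3 q χ hχ hq) (fun t σ c1 c2 c3 => hPX v t σ a4 c1 c2 c3 q χ hχ hq2)
    (fun σ c1 c2 => hDX _ σ e2.1 c1 c2 q χ hq1)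

end Pool.Agent.Lib.MP_68a45e_nt.Av
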