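import Pool.Agent.Lib.MP_68a45e_nt.AvDef

/-! Correlations of the von Mangoldt function on average over the shifts. -/

namespace Pool.Agent.Lib.MP_68a45e_nt.Av

open Finset Complex Filter Topology N9a2a6718

lemma lam_log : Tendsto (fun X : ℕ => Real.log X) atTop atTop :=
  Real.tendsto_log_atTop.comp tendsto_natCast_atTop_atTop

lemma lam_ev8 {P : ℕ → Prop} (h : ∀ᶠ X in atTop, P X) : ∀ᶠ X in atTop, P (8 * X) :=
  (tendsto_id.const_mul_atTop' (by norm_num : 0 < 8)).eventually h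

lemma lam_pow (A : ℕ) {c : ℝ} (hc : 0 < c) :
    ∀ᶠ X : ℕ in atTop, Real.log X ^ A ≤ (X : ℝ) ^ c := by
  have h := (isLittleO_log_rpow_rpow_atTop (A : ℝ) hc).bound one_pos
  filter_upwards [tendsto_natCast_atTop_atTop.eventually h, eventually_ge_atTop 1] with X h1 h2
  have h3 : (1 : ℝ) ≤ X := by exact_mod_cast h2
  rw [Real.rpow_natCast, one_mul, Real.norm_of_nonneg (pow_nonneg (Real.log_nonneg h3) _),
    Real.norm_of_nonneg (by positivity)] at h1
  exact h1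

lemma lam_card {k : ℕ} (b : Fin k → ℕ) (H : ℕ) : (box b H).card = H ^ k := by
  simp [box, Fintype.card_piFinset]

lemma sum_double {k : ℕ} (b : Fin k → ℕ) (H : ℕ) (F : (Fin k → ℕ) → ℝ) (hF : ∀ d, 0 ≤ F d) :
    ∑ m ∈ box b H, F (fun i => 2 * m i) ≤ ∑ d ∈ box (fun i => 2 * b i) (2 * H), F d := by
  classical
  rw [← sum_image (s := box b H) (g := fun m i => 2 * m i) (f := F)
    (fun m _ m' _ h => funext fun i => by have := congrFun h i; simp only at this; omega)]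
  refine sum_le_sum_of_subset_of_nonneg (fun d hd => ?_) fun d _ _ => hF d
  obtain ⟨m, hm, rfl⟩ := mem_image.1 hd
  simp only [box, Fintype.mem_piFinset, mem_Ioc] at hm ⊢
  intro i
  have := hm i
  omega

theorem lamAvg (hU : ∀ θ : ℝ, 1 / 9 < θ → Unif θ) (hT : Tel) (hC : Corr) (hTa : Tail)
    (hS : SizeW) {θ : ℝ} (h : 1 / 9 < θ) : LamAvg θ := by
  classical
  intro k A hk
  set θ1 := min θ (1 / 4) with hθ1
  have h1 : 1 / 9 < θ1 := lt_min h (by norm_num)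
  obtain ⟨θ2, h2, h3⟩ := exists_between h1
  obtain ⟨C, hT⟩ := hT k
  obtain ⟨B0, hU⟩ := hU θ2 h2 (A + 2 * k + 1)
  obtain ⟨B1, hTa⟩ := hTa k (A + 1)
  set B := B0 + B1 + 1 with hB
  filter_upwards [lam_ev8 (hU (B + 1)), hTa (B + 1), hC k (A + 1) (B + 1), hS (B + 1),
    lam_log.eventually_ge_atTop (2 ^ B + 1), lam_log.eventually_ge_atTop 4,
    lam_log.eventually_ge_atTop (192 * |C| * 8 ^ k), lam_pow (A + 2 * k + 4) (c := 3 / 4)
      (by norm_num),
    ((tendsto_rpow_atTop (show 0 < θ1 - θ2 by linarith)).comp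
      tendsto_natCast_atTop_atTop).eventually_ge_atTop 8, eventually_ge_atTop 8]
    with X hU hTa hC hS l1 l2 l3 l4 l5 hX H x b hH hHX hx hb
  have X1 : (8 : ℝ) ≤ X := by exact_mod_cast hX
  have X0 : (0 : ℝ) < X := by linarith
  set l := Real.log X with hl
  have l0 : 0 < l := by linarith
  have e8 : Real.log ((8 * X : ℕ) : ℝ) ≤ 2 * l := by
    push_cast
    rw [Real.log_mul (by norm_num) X0.ne', two_mul]
    gcongr
    exact Real.log_le_log (by norm_num) X1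
  have e8' : l ≤ Real.log ((8 * X : ℕ) : ℝ) := Real.log_le_log X0 (by push_cast; linarith)
  set l8 := Real.log ((8 * X : ℕ) : ℝ) with hl8
  set w := ⌈l8 ^ B⌉₊ with hw
  have w1 : l8 ^ B ≤ w := Nat.le_ceil _
  have w2 : (w : ℝ) ≤ l ^ (B + 1) := by
    have a1 : (w : ℝ) ≤ l8 ^ B + 1 := (Nat.ceil_lt_add_one (by positivity)).le
    have a2 : l8 ^ B ≤ (2 * l) ^ B := by gcongr
    have a3 : 1 ≤ l ^ B := one_le_pow₀ (by linarith)
    rw [mul_pow] at a2
    rw [pow_succ]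
    nlinarith
  have w3 : (w : ℝ) ≤ l8 ^ (B + 1) := w2.trans (by gcongr)
  have w4 : l8 ^ B0 ≤ w := le_trans (pow_le_pow_right₀ (by linarith) (by omega)) w1
  have w5 : l ^ B1 ≤ w := le_trans (le_trans (by gcongr)
    (pow_le_pow_right₀ (by linarith : 1 ≤ l8) (show B1 ≤ B by omega))) w1
  have w6 : 2 ≤ w := by
    have : l8 ^ 1 ≤ w := le_trans (pow_le_pow_right₀ (by linarith) (by omega)) w1
    have : (2 : ℝ) ≤ w := by linarith [pow_one l8]
    exact_mod_cast this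
  set L := ⌈(X : ℝ) ^ θ1⌉₊ with hL
  have p1 : (1 : ℝ) ≤ (X : ℝ) ^ θ1 := Real.one_le_rpow (by linarith) (by linarith)
  have L1 : (X : ℝ) ^ θ1 ≤ L := Nat.le_ceil _
  have L2 : (L : ℝ) ≤ 2 * (X : ℝ) ^ θ1 := by
    linarith [(Nat.ceil_lt_add_one (show 0 ≤ (X : ℝ) ^ θ1 by positivity)).le]
  have L3 : (X : ℝ) ^ θ1 ≤ (X : ℝ) ^ θ :=
    Real.rpow_le_rpow_of_exponent_le (by linarith) (min_le_left _ _)
  have L4 : (X : ℝ) ^ θ1 ≤ (X : ℝ) ^ (1 / 4 : ℝ) :=
    Real.rpow_le_rpow_of_exponent_le (by linarith) (min_le_right _ _)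
  have L5 : 1 ≤ L := by
    have : (1 : ℝ) ≤ L := by linarith
    exact_mod_cast this
  have L6 : L ≤ 2 * H := by
    have : (L : ℝ) ≤ 2 * H := by linarith
    exact_mod_cast this
  have q4 : (X : ℝ) ^ (1 / 4 : ℝ) * (X : ℝ) ^ (3 / 4 : ℝ) = X := by
    rw [← Real.rpow_add X0]; norm_num
  have q5 : (X : ℝ) ^ (1 / 4 : ℝ) ≤ (X : ℝ) ^ (3 / 4 : ℝ) :=
    Real.rpow_le_rpow_of_exponent_le (by linarith) (by norm_num)
  have L7 : L ^ 2 ≤ 8 * X := by
    have : (L : ℝ) ^ 2 ≤ 8 * X := by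
      calc (L : ℝ) ^ 2 ≤ (2 * (X : ℝ) ^ (1 / 4 : ℝ)) * (2 * (X : ℝ) ^ (3 / 4 : ℝ)) := by
            rw [sq]; gcongr <;> linarith
        _ = 4 * ((X : ℝ) ^ (1 / 4 : ℝ) * (X : ℝ) ^ (3 / 4 : ℝ)) := by ring
        _ ≤ 8 * X := by rw [q4]; linarith
    exact_mod_cast this
  have L8 : (((8 * X : ℕ) : ℝ)) ^ θ2 ≤ L := by
    push_cast
    rw [Real.mul_rpow (by norm_num) X0.le]
    have a1 : (8 : ℝ) ^ θ2 ≤ 8 ^ (1 : ℝ) := Real.rpow_le_rpow_of_exponent_le (by norm_num)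
      (by linarith [min_le_right θ (1 / 4)])
    rw [Real.rpow_one] at a1
    have a2 : (X : ℝ) ^ θ1 = (X : ℝ) ^ (θ1 - θ2) * (X : ℝ) ^ θ2 := by
      rw [← Real.rpow_add X0]; ring_nf
    calc (8 : ℝ) ^ θ2 * (X : ℝ) ^ θ2 ≤ (X : ℝ) ^ (θ1 - θ2) * (X : ℝ) ^ θ2 := by
          gcongr; exact a1.trans l5
      _ ≤ L := a2 ▸ L1
  have main := hT (4 * X) L (2 * H) x vM (LW w) (2 * l) (2 / l ^ (A + 2 * k + 1))
    (fun i => 2 * b i) hk L5 L6 (by omega) (fun i => by have := hb i; omega) (by linarith)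
    (fun n hn => ⟨?_, (hS w n w2).trans (by linarith)⟩) (fun α => ?_)
  · set F : (Fin k → ℕ) → ℝ := fun h => ‖∑ n ∈ Ioc 0 x, (vM n * ∏ i, vM (n + h i) -
      LW w n * ∏ i, LW w (n + h i))‖ ^ 2 with hF
    have hd := (sum_double b H F fun d => by positivity).trans main
    have pt : ∀ m ∈ (box b H).filter
        (fun m => Function.Injective (Fin.cons 0 m : Fin k.succ → ℕ)),
        |∑ n ∈ Ioc 0 x, ∏ i, ArithmeticFunction.vonMangoldt
          (n + 2 * (Fin.cons 0 m : Fin k.succ → ℕ) i) -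
            CS (Fin.cons 0 m : Fin k.succ → ℕ) * x| ^ 2 ≤
          2 * F (fun i => 2 * m i) + 8 * (X / l ^ (A + 1)) ^ 2 := by
      intro m hm
      obtain ⟨hm1, hm2⟩ := mem_filter.1 hm
      simp only [box, Fintype.mem_piFinset, mem_Ioc] at hm1
      set M : Fin k.succ → ℕ := Fin.cons 0 m with hM
      have a1 := hC w x M w6 w2 hx
      have a2 := hTa w M w5 w2 hm2 (fun i => by
        refine Fin.cases ?_ (fun j => ?_) i
        · simp [hM]
        · have := hm1 j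
          have := hb j
          simp only [hM, Fin.cons_succ]
          omega)
      have a3 : ‖((HardyLittlewoodPartialProduct M (w + 1) * x : ℝ) : ℂ) -
          ((CS M * x : ℝ) : ℂ)‖ ≤ X / l ^ (A + 1) := by
        rw [← ofReal_sub, norm_real, Real.norm_eq_abs, ← sub_mul, abs_mul, Nat.abs_cast]
        calc _ ≤ 1 / l ^ (A + 1) * X := by gcongr
          _ = _ := by ring
      have a4 : ((∑ n ∈ Ioc 0 x, ∏ i, ArithmeticFunction.vonMangoldt (n + 2 * M i) -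
          CS M * x : ℝ) : ℂ) = (∑ n ∈ Ioc 0 x, (vM n * ∏ i, vM (n + 2 * m i) -
            LW w n * ∏ i, LW w (n + 2 * m i))) + ((∑ n ∈ Ioc 0 x, ∏ i, LW w (n + 2 * M i) -
              ((HardyLittlewoodPartialProduct M (w + 1) * x : ℝ) : ℂ)) +
              (((HardyLittlewoodPartialProduct M (w + 1) * x : ℝ) : ℂ) - ((CS M * x : ℝ) : ℂ))) := by
        rw [sum_sub_distrib, ofReal_sub, ofReal_sum]
        simp only [hM, Fin.prod_univ_succ, Fin.cons_zero, Fin.cons_succ, mul_zero, add_zero,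
          ofReal_mul, ofReal_prod, vM]
        ring
      rw [← Real.norm_eq_abs, ← norm_real, a4]
      have a5 := (norm_add_le _ _).trans (add_le_add le_rfl ((norm_add_le _ _).trans
        (add_le_add a1 a3))) (a := ‖(∑ n ∈ Ioc 0 x, (vM n * ∏ i, vM (n + 2 * m i) -
            LW w n * ∏ i, LW w (n + 2 * m i))) + ((∑ n ∈ Ioc 0 x, ∏ i, LW w (n + 2 * M i) -
              ((HardyLittlewoodPartialProduct M (w + 1) * x : ℝ) : ℂ)) +
              (((HardyLittlewoodPartialProduct M (w + 1) * x : ℝ) : ℂ) - ((CS M * x : ℝ) : ℂ)))‖)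
      refine (pow_le_pow_left₀ (norm_nonneg _) a5 2).trans ?_
      simp only [hF]
      nlinarith [sq_nonneg (‖∑ n ∈ Ioc 0 x, (vM n * ∏ i, vM (n + 2 * m i) -
            LW w n * ∏ i, LW w (n + 2 * m i))‖ - 2 * (X / l ^ (A + 1)))]
    refine (sum_le_sum pt).trans ((sum_le_sum_of_subset_of_nonneg (filter_subset _ _)
      fun m _ _ => by positivity).trans ?_)
    rw [sum_add_distrib, ← mul_sum, sum_const, lam_card, nsmul_eq_mul]
    have b1 : (2 * l) ^ 2 * L / ((4 * X : ℕ) : ℝ) ≤ 1 / l ^ (A + 2 * k + 1) := by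
      push_cast
      rw [div_le_div_iff₀ (by positivity) (by positivity)]
      calc (2 * l) ^ 2 * L * l ^ (A + 2 * k + 1) = 4 * L * l ^ (A + 2 * k + 3) := by ring
        _ ≤ 4 * (2 * (X : ℝ) ^ (1 / 4 : ℝ)) * l ^ (A + 2 * k + 3) := by gcongr; linarith
        _ ≤ 4 * (l * (X : ℝ) ^ (1 / 4 : ℝ)) * l ^ (A + 2 * k + 3) := by gcongr; linarith
        _ = 4 * ((X : ℝ) ^ (1 / 4 : ℝ) * l ^ (A + 2 * k + 4)) := by ring
        _ ≤ 4 * ((X : ℝ) ^ (1 / 4 : ℝ) * (X : ℝ) ^ (3 / 4 : ℝ)) := by gcongr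
        _ = _ := by rw [q4]; ring
    have b2 : ∑ m ∈ box b H, F (fun i => 2 * m i) ≤ (H : ℝ) ^ k * X ^ 2 / l ^ A / 4 := by
      refine hd.trans ?_
      calc C * (2 * l) ^ (2 * k) * (2 / l ^ (A + 2 * k + 1) + (2 * l) ^ 2 * L / ((4 * X : ℕ) : ℝ)) *
            ((4 * X : ℕ) : ℝ) ^ 2 * ((2 * H : ℕ) : ℝ) ^ k
          ≤ |C| * (2 * l) ^ (2 * k) * (2 / l ^ (A + 2 * k + 1) + 1 / l ^ (A + 2 * k + 1)) *
            ((4 * X : ℕ) : ℝ) ^ 2 * ((2 * H : ℕ) : ℝ) ^ k := by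
            gcongr; exact le_abs_self C
        _ = (192 * |C| * 8 ^ k) / l * ((H : ℝ) ^ k * X ^ 2 / l ^ A / 4) := by
            push_cast
            rw [show (8 : ℝ) ^ k = 2 ^ (2 * k) * 2 ^ k by
              rw [← pow_add, show 2 * k + k = 3 * k by ring, pow_mul]; norm_num]
            field_simp
            ring
        _ ≤ 1 * ((H : ℝ) ^ k * X ^ 2 / l ^ A / 4) := by
            gcongr; exact (div_le_one l0).2 l3
        _ = _ := one_mul _
    have b3 : 8 * ((X : ℝ) / l ^ (A + 1)) ^ 2 ≤ X ^ 2 / l ^ A / 2 := by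
      have c1 : 1 ≤ l ^ A := one_le_pow₀ (by linarith)
      rw [div_pow, div_div, ← mul_div_assoc, div_le_div_iff₀ (by positivity) (by positivity)]
      calc 8 * (X : ℝ) ^ 2 * (l ^ A * 2) = X ^ 2 * (l ^ A * 1 * (4 * 4)) := by ring
        _ ≤ X ^ 2 * (l ^ A * l ^ A * (l * l)) := by gcongr
        _ = _ := by ring
    calc 2 * ∑ m ∈ box b H, F (fun i => 2 * m i) +
          ((H ^ k : ℕ) : ℝ) * (8 * ((X : ℝ) / l ^ (A + 1)) ^ 2)
        ≤ 2 * ((H : ℝ) ^ k * X ^ 2 / l ^ A / 4) + ((H ^ k : ℕ) : ℝ) * (X ^ 2 / l ^ A / 2) := by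
          gcongr
      _ = _ := by push_cast; ring
  · rw [vM, norm_real, Real.norm_of_nonneg ArithmeticFunction.vonMangoldt_nonneg]
    refine ArithmeticFunction.vonMangoldt_le_log.trans (le_trans ?_ e8)
    rcases n.eq_zero_or_pos with rfl | hn0
    · simp only [Nat.cast_zero, Real.log_zero]; linarith
    · exact Real.log_le_log (by exact_mod_cast hn0) (by exact_mod_cast (by omega))
  · rw [show 2 * (4 * X) = 8 * X by ring]
    refine (hU w L α w4 w3 L8 L7).trans ?_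
    calc (L : ℝ) ^ 2 * ((8 * X : ℕ) : ℝ) / l8 ^ (A + 2 * k + 1)
        ≤ (L : ℝ) ^ 2 * ((8 * X : ℕ) : ℝ) / l ^ (A + 2 * k + 1) := by gcongr
      _ = _ := by push_cast; ring

end Pool.Agent.Lib.MP_68a45e_nt.Av
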