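import Pool.Agent.Lib.MP_68a45e_nt.TwZero
import Pool.Agent.Lib.MP_68a45e_nt.AvDef

/-! The zero free region in the form used by the averaged theorem. -/

namespace Pool.Agent.Lib.MP_68a45e_nt.Av

theorem zfX : ZFX := by
  obtain ⟨θ, h0, h1, h⟩ := Tw.zfL
  refine ⟨θ, h0, h1, fun B => ?_⟩
  obtain ⟨L0, hL0⟩ := h B
  refine ⟨max L0 1, fun L hL q _ χ hχ hq s hs ht => ?_⟩
  rcases le_or_gt s.re 0 with h2 | h2
  · have := Real.rpow_le_one_of_one_le_of_nonpos ((le_max_right _ _).trans hL)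
      (by linarith : -θ ≤ 0)
    linarith
  · refine hL0 L ((le_max_left _ _).trans hL) q χ (by rwa [Real.rpow_natCast]) s ?_ h2 hs ht
    rintro rfl
    exact χ.LFunction_ne_zero_of_one_le_re (Or.inl hχ) (by simp) hs

end Pool.Agent.Lib.MP_68a45e_nt.Av
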