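import Pool.Agent.Lib.MP_68a45e_nt.CAp2
import Pool.Agent.Lib.MP_68a45e_nt.AvDef

/-! Primes in progressions in almost all short intervals. -/

namespace Pool.Agent.Lib.MP_68a45e_nt.CAp

open Filter hiding ker
open Topology MeasureTheory ArithmeticFunction Finset
open Pool.Agent.Lib.MP_b09185_nt.Sh Pool.Agent.Lib.MP_b09185_nt.Sh.All

noncomputable section

/-- the error in a window -/
def SS (a : ℕ → ℂ) (δ : ℂ) (x H : ℕ) : ℂ := ∑ n ∈ Ioc x (x + H), a n - δ * H

lemma tL : Tendsto (fun X : ℕ => Real.log X) atTop atTop :=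
  Real.tendsto_log_atTop.comp tendsto_natCast_atTop_atTop

lemma ev_pow (k : ℕ) (C : ℝ) {κ : ℝ} (hκ : 0 < κ) :
    ∀ᶠ v : ℝ in atTop, C * v ^ k ≤ Real.exp (κ * v) := by
  have h := (l1_lim k hκ one_pos).const_mul C
  rw [mul_zero] at h
  filter_upwards [h.eventually (eventually_le_nhds one_pos)] with v hv
  rw [Real.rpow_one] at hv
  have := mul_le_mul_of_nonneg_right hv (Real.exp_pos (κ * v)).le
  rwa [one_mul, mul_assoc, mul_assoc, ← Real.exp_add, neg_mul, neg_add_cancel, Real.exp_zero,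
    mul_one] at this

lemma block {θ a0 : ℝ} (h1 : 1 - a0 < θ) (h2 : a0 ≤ 1) (h3 : 0 < θ) (A : ℕ) :
    ∀ᶠ Y : ℕ in atTop, ∀ (a : ℕ → ℂ) (δ : ℂ) (H : ℕ), (∀ n, ‖a n‖ ≤ Λ n) → ‖δ‖ ≤ 1 →
      Real.exp (θ * Real.log Y) ≤ H → H ≤ Y →
      (∫ t in (-Real.exp (a0 * Real.log Y))..(Real.exp (a0 * Real.log Y)),
        ‖DD a δ (Real.log Y) t‖ ^ 2) ≤ 1 / Real.log Y ^ A →
      ∑ x ∈ Ioc Y (2 * Y), ‖SS a δ x H‖ ^ 2 ≤
        (32 * Real.exp 17 + 2 * 434 ^ 2) * H ^ 2 * Y / Real.log Y ^ A := by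
  obtain ⟨k, k1, k2⟩ := exists_between (show 1 - θ < a0 by linarith)
  have t1 : ∀ᶠ v : ℝ in atTop, 108 * Real.exp (4 + 5 * v - ((a0 - k) * v) ^ 2 / 2) ≤ 1 / v ^ A := by
    have hd : 0 < (a0 - k) ^ 2 := pow_pos (by linarith) 2
    filter_upwards [ev_pow A 108 one_pos, eventually_ge_atTop 4,
      eventually_ge_atTop (14 / (a0 - k) ^ 2)] with v e1 e2 e3
    rw [div_le_iff₀ hd] at e3
    rw [le_div_iff₀ (by positivity), mul_right_comm]
    refine (mul_le_mul_of_nonneg_right e1 (Real.exp_pos _).le).trans ?_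
    rw [← Real.exp_add, Real.exp_le_one_iff]
    nlinarith
  filter_upwards [tL.eventually t1, tL.eventually_ge_atTop 20,
    tL.eventually (ev_pow (A + 2) 1 (show 0 < k - (1 - θ) by linarith)),
    tL.eventually (ev_pow (A + 1) 24 h3), eventually_gt_atTop 0]
    with Y e1 e2 e3 e4 e5 a δ H ha hδ hH1 hH2 hI
  have Y0 : (0 : ℝ) < Y := by exact_mod_cast e5
  have eY : Real.exp (Real.log Y) = Y := Real.exp_log Y0
  set v := Real.log Y with hv
  have H0 : (0 : ℝ) < H := (Real.exp_pos _).trans_le hH1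
  have HY : (H : ℝ) ≤ Y := by exact_mod_cast hH2
  have vA : 1 ≤ v ^ A := one_le_pow₀ (by linarith)
  have v0 : 0 < v := by linarith
  set ρ := Y / H * v ^ (A + 2) with hρ
  have ρ1 : v ^ A * v ^ 2 ≤ ρ := by
    rw [hρ, ← pow_add]
    exact le_mul_of_one_le_left (by positivity) ((one_le_div H0).2 HY)
  have ρ2 : v ^ 2 ≤ ρ := (le_mul_of_one_le_left (by positivity) vA).trans ρ1
  have ρ3 : 2 * (v + 2) ≤ ρ := by nlinarith
  have ρ4 : ρ ≤ Real.exp (k * v) := by
    have f1 : (Y : ℝ) / H ≤ Real.exp ((1 - θ) * v) := by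
      rw [div_le_iff₀ H0]
      refine le_trans (le_of_eq ?_) (mul_le_mul_of_nonneg_left hH1 (Real.exp_pos _).le)
      rw [← Real.exp_add, show (1 - θ) * v + θ * v = v by ring, eY]
    rw [one_mul] at e3
    refine (mul_le_mul f1 e3 (by positivity) (Real.exp_pos _).le).trans (le_of_eq ?_)
    rw [← Real.exp_add]; congr 1; ring
  have hJ := (Fa_small ha hδ k2 (by linarith) v0.le (by linarith) ρ4).trans (add_le_add hI e1)
  refine (core ha hδ e2 hH2 ρ3 hJ).trans ?_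
  rw [← hv]
  set w := (H : ℝ) / v ^ A with hw
  have w0 : 0 < w := by positivity
  have r1 : (v + 3) * (18 * Y * (v + 2) / ρ) ≤ 36 * w := by
    have : (v + 3) * (18 * Y * (v + 2) / ρ) = 18 * w * ((v + 3) * (v + 2) / v ^ 2) := by
      rw [hρ, hw]; field_simp; ring
    rw [this]
    have : (v + 3) * (v + 2) / v ^ 2 ≤ 2 := by rw [div_le_iff₀ (by positivity)]; nlinarith
    nlinarith
  have r2 : 12 * (v + 4) ≤ w := by
    rw [hw, le_div_iff₀ (by positivity)]
    refine le_trans ?_ (e4.trans hH1)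
    rw [pow_succ]
    nlinarith
  have r3 : 3 * H / ρ ^ 2 ≤ w := by
    rw [hw, div_le_div_iff₀ (by positivity) (by positivity), mul_comm 3, mul_assoc]
    refine mul_le_mul_of_nonneg_left ?_ H0.le
    have f0 : 3 ≤ v ^ 2 := by nlinarith
    have f1 : 3 * v ^ A ≤ ρ := le_trans (by nlinarith) ρ1
    nlinarith
  have r4 : 12 * ((v + 3) * (18 * Y * (v + 2) / ρ + 1) + 1) + 3 * H / ρ ^ 2 ≤ 434 * w := by
    rw [mul_add (v + 3)]; linarith
  have r5 := pow_le_pow_left₀ (by positivity) r4 2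
  have r6 : w ^ 2 ≤ H ^ 2 / v ^ A := by
    rw [hw, div_pow]
    exact div_le_div_of_nonneg_left (by positivity) (by positivity) (by nlinarith)
  have r8 : (434 * w) ^ 2 ≤ 434 ^ 2 * (H ^ 2 / v ^ A) := by
    rw [mul_pow]; exact mul_le_mul_of_nonneg_left r6 (by positivity)
  have r7 := mul_le_mul_of_nonneg_left (r5.trans r8) (by positivity : 0 ≤ 2 * (Y : ℝ))
  refine (add_le_add le_rfl r7).trans (le_of_eq ?_)
  ring

lemma dyad {F : ℕ → ℝ} (F0 : ∀ x, 0 ≤ F x) {c : ℝ} (hc : 0 ≤ c) {Y0 : ℕ} (h0 : 1 ≤ Y0) (Z : ℕ)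
    (h : ∀ Y, Y0 ≤ Y → Y ≤ Z → ∑ x ∈ Ioc Y (2 * Y), F x ≤ c * Y) :
    ∑ x ∈ range (Z + 1), F x ≤ ∑ x ∈ range (2 * Y0 + 1), F x + 2 * c * Z := by
  induction Z using Nat.strong_induction_on with
  | _ Z ih =>
    rcases le_or_gt Z (2 * Y0) with c1 | c1
    · exact (sum_le_sum_of_subset_of_nonneg (range_subset_range.2 (by omega))
        fun x _ _ => F0 x).trans (le_add_of_nonneg_right (by positivity))
    · obtain ⟨Y, hY⟩ : ∃ Y, Y = (Z + 1) / 2 := ⟨_, rfl⟩
      have i1 := ih Y (by omega) fun Y' a b => h Y' a (by omega)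
      have i2 := h Y (by omega) (by omega)
      have i3 : ∑ x ∈ range (Z + 1), F x ≤ ∑ x ∈ range (Y + 1), F x + ∑ x ∈ Ioc Y (2 * Y), F x := by
        rw [← sum_union (by
          rw [disjoint_left]; intro x a b
          rw [mem_range] at a; rw [mem_Ioc] at b; omega)]
        refine sum_le_sum_of_subset_of_nonneg (fun x hx => ?_) fun x _ _ => F0 x
        rw [mem_range] at hx
        rw [mem_union, mem_range, mem_Ioc]; omega
      have i4 : 3 * (Y : ℝ) ≤ 2 * Z := by exact_mod_cast (by omega : 3 * Y ≤ 2 * Z)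
      nlinarith [mul_le_mul_of_nonneg_left i4 hc]

variable {a : ℕ → ℂ} {δ : ℂ}

lemma SS_add (x H K : ℕ) : SS a δ x (H + K) = SS a δ x H + SS a δ (x + H) K := by
  unfold SS
  rw [← add_assoc, ← sum_Ioc_consecutive a (Nat.le_add_right x H) (Nat.le_add_right (x + H) K)]
  push_cast; ring

lemma SS_mul (x H m : ℕ) : SS a δ x (m * H) = ∑ j ∈ range m, SS a δ (x + j * H) H := by
  induction m with
  | zero => simp [SS]
  | succ m ih => rw [add_mul, one_mul, SS_add, ih, sum_range_succ]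

lemma SS_triv (ha : ∀ n, ‖a n‖ ≤ Λ n) (hδ : ‖δ‖ ≤ 1) {x H : ℕ} {L : ℝ}
    (h : ((x + H : ℕ) : ℝ) ≤ Real.exp L) : ‖SS a δ x H‖ ≤ H * (L + 1) := by
  have h1 : ‖∑ n ∈ Ioc x (x + H), a n‖ ≤ H * L := by
    refine (norm_sum_le _ _).trans ((sum_le_card_nsmul _ _ L fun n hn => ?_).trans (by simp))
    rw [mem_Ioc] at hn
    have n0 : (0 : ℝ) < n := by exact_mod_cast (by omega : 0 < n)
    refine (ha n).trans (vonMangoldt_le_log.trans ((Real.log_le_iff_le_exp n0).2 (le_trans ?_ h)))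
    exact_mod_cast hn.2
  have h2 : ‖δ * H‖ ≤ H := by
    rw [norm_mul, Complex.norm_natCast]
    exact mul_le_of_le_one_left H.cast_nonneg hδ
  exact (norm_sub_le _ _).trans (by linarith)

lemma split_sum (X H m r : ℕ) (h : m * H ≤ X) :
    ∑ x ∈ range (X + 1), ‖SS a δ x (m * H + r)‖ ^ 2 ≤
      2 * m ^ 2 * ∑ x ∈ range (2 * X + 1), ‖SS a δ x H‖ ^ 2 +
        2 * ∑ x ∈ range (X + 1), ‖SS a δ (x + m * H) r‖ ^ 2 := by
  have pt : ∀ x, ‖SS a δ x (m * H + r)‖ ^ 2 ≤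
      2 * m * ∑ j ∈ range m, ‖SS a δ (x + j * H) H‖ ^ 2 + 2 * ‖SS a δ (x + m * H) r‖ ^ 2 := by
    intro x
    rw [SS_add, SS_mul]
    have h1 := (norm_add_le _ (SS a δ (x + m * H) r)).trans (add_le_add
      (norm_sum_le (range m) fun j => SS a δ (x + j * H) H) le_rfl)
    have h2 := sq_sum_le_card_mul_sum_sq (s := range m) (f := fun j => ‖SS a δ (x + j * H) H‖)
    rw [card_range] at h2
    refine (pow_le_pow_left₀ (norm_nonneg _) h1 2).trans ?_
    nlinarith [sq_nonneg (∑ j ∈ range m, ‖SS a δ (x + j * H) H‖ - ‖SS a δ (x + m * H) r‖)]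
  refine (sum_le_sum fun x _ => pt x).trans ?_
  rw [sum_add_distrib, ← mul_sum, ← mul_sum, sum_comm]
  refine add_le_add ?_ le_rfl
  have h3 : ∀ j ∈ range m, ∑ x ∈ range (X + 1), ‖SS a δ (x + j * H) H‖ ^ 2 ≤
      ∑ x ∈ range (2 * X + 1), ‖SS a δ x H‖ ^ 2 := by
    intro j hj
    have := Nat.mul_le_mul_right H (mem_range.1 hj).le
    rw [← sum_image (s := range (X + 1)) (g := fun x => x + j * H)
      (f := fun x => ‖SS a δ x H‖ ^ 2) fun x _ y _ e => Nat.add_right_cancel e]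
    refine sum_le_sum_of_subset_of_nonneg (fun x hx => ?_) fun x _ _ => sq_nonneg _
    obtain ⟨y, hy, rfl⟩ := mem_image.1 hx
    rw [mem_range] at hy ⊢; omega
  have h4 := sum_le_card_nsmul _ _ _ h3
  rw [card_range, nsmul_eq_mul] at h4
  refine (mul_le_mul_of_nonneg_left h4 (by positivity)).trans (le_of_eq (by ring))

lemma seq {θ a0 : ℝ} (h1 : 1 - a0 < θ) (h2 : a0 < 1) (A : ℕ) :
    ∀ᶠ X : ℕ in atTop, ∀ (a : ℕ → ℂ) (δ : ℂ) (H : ℕ), (∀ n, ‖a n‖ ≤ Λ n) → ‖δ‖ ≤ 1 →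
      (X : ℝ) ^ θ ≤ H → H ≤ X → (∀ v, Real.log X / 2 ≤ v →
      (∫ t in (-Real.exp (a0 * v))..(Real.exp (a0 * v)), ‖DD a δ v t‖ ^ 2) ≤ 1 / v ^ (A + 1)) →
      ∑ x ∈ range (X + 1), ‖SS a δ x H‖ ^ 2 ≤ H ^ 2 * X / Real.log X ^ A := by
  obtain ⟨θ1, k1, k2⟩ := exists_between h1
  obtain ⟨θ2, k3, k4⟩ := exists_between k2
  have θ0 : 0 < θ1 := by linarith
  obtain ⟨Y1, hY1⟩ := eventually_atTop.1 (block k1 h2.le θ0 (A + 1))
  set C := 32 * Real.exp 17 + 2 * 434 ^ 2 with hC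
  have C0 : 0 < C := by positivity
  filter_upwards [tL.eventually_ge_atTop 3, eventually_gt_atTop 0,
    tL.eventually (ev_pow (A + 3) 4 (show 0 < θ - θ2 by linarith)),
    tL.eventually (ev_pow (A + 3) 1 (show 0 < (1 / 2 : ℝ) by norm_num)),
    tL.eventually_ge_atTop (2 * Y1), tL.eventually_ge_atTop (θ1 / (θ2 - θ1)),
    tL.eventually (ev_pow (3 * A + 8) 128 (show 0 < θ by linarith)),
    tL.eventually_ge_atTop (4 * (20 + 4 * C * 2 ^ (A + 1)))]
    with X e1 e2 e3 e4 e5 e6 e7 e8 a δ H ha hδ hH1 hH2 hI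
  have X0 : (0 : ℝ) < X := by exact_mod_cast e2
  have X1 : (1 : ℝ) ≤ X := by exact_mod_cast e2
  rw [Real.rpow_def_of_pos X0, mul_comm] at hH1
  have eX : Real.exp (Real.log X) = X := Real.exp_log X0
  set L := Real.log X with hL
  have L0 : 0 < L := by linarith
  have HX : (H : ℝ) ≤ X := by exact_mod_cast hH2
  have H1 : (1 : ℝ) ≤ H := (Real.one_le_exp (mul_nonneg (by linarith) L0.le)).trans hH1
  set D := L ^ (A + 3) with hD
  have D1 : 1 ≤ D := one_le_pow₀ (by linarith)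
  obtain ⟨m, hm⟩ : ∃ m : ℕ, m = ⌈D⌉₊ := ⟨_, rfl⟩
  have m1 : D ≤ m := hm ▸ Nat.le_ceil D
  have m2 : (m : ℝ) ≤ 2 * D := by
    have := Nat.ceil_lt_add_one (show 0 ≤ D by linarith)
    rw [← hm] at this; linarith
  have m0 : 0 < m := by exact_mod_cast (by linarith : (0 : ℝ) < m)
  obtain ⟨K, hK⟩ : ∃ K, K = H / m := ⟨_, rfl⟩
  obtain ⟨r, hr⟩ : ∃ r, r = H % m := ⟨_, rfl⟩
  have eH : m * K + r = H := by rw [hK, hr]; exact Nat.div_add_mod H m
  have r1 : (r : ℝ) ≤ m := by exact_mod_cast (hr ▸ (Nat.mod_lt H m0).le)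
  have eH' : (m : ℝ) * K + r = H := by exact_mod_cast eH
  have r0 : (0 : ℝ) ≤ r := r.cast_nonneg
  have K0 : (0 : ℝ) ≤ K := K.cast_nonneg
  have K1 : Real.exp (θ2 * L) ≤ K := by
    have f1 : 4 * D * Real.exp (θ2 * L) ≤ H := by
      refine (mul_le_mul_of_nonneg_right e3 (Real.exp_pos _).le).trans (le_trans (le_of_eq ?_) hH1)
      rw [← Real.exp_add]; congr 1; ring
    have f2 : 1 ≤ Real.exp (θ2 * L) := Real.one_le_exp (mul_nonneg (by linarith) L0.le)
    have f3 : (H : ℝ) ≤ 2 * D * (K + 1) := by nlinarith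
    have f4 : 2 * D * (2 * Real.exp (θ2 * L)) ≤ 2 * D * (K + 1) := by linarith
    have := le_of_mul_le_mul_left f4 (by linarith)
    linarith
  have K2 : (K : ℝ) ≤ X / D := by rw [le_div_iff₀ (by linarith)]; nlinarith
  have XD : Real.exp (L / 2) ≤ X / D := by
    rw [le_div_iff₀ (by linarith), ← eX]
    rw [one_mul] at e4
    refine (mul_le_mul_of_nonneg_left e4 (Real.exp_pos _).le).trans (le_of_eq ?_)
    rw [← Real.exp_add]; congr 1; ring
  have XD1 : 1 ≤ X / D := (Real.one_le_exp (by linarith)).trans XD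
  have XD2 : X / D ≤ X := div_le_self X0.le D1
  obtain ⟨Y0, hY0⟩ : ∃ Y0 : ℕ, Y0 = ⌈X / D⌉₊ := ⟨_, rfl⟩
  have y1 : X / D ≤ Y0 := hY0 ▸ Nat.le_ceil _
  have y2 : (Y0 : ℝ) ≤ 2 * (X / D) := by
    have := Nat.ceil_lt_add_one (show 0 ≤ X / D by linarith)
    rw [← hY0] at this; linarith
  have y3 : Y0 ≤ X := by rw [hY0, Nat.ceil_le]; exact XD2
  have e3X : ∀ z : ℕ, z ≤ 3 * X → (z : ℝ) ≤ Real.exp (L + 2) := fun z hz => by
    have f1 : (z : ℝ) ≤ 3 * X := by exact_mod_cast hz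
    rw [Real.exp_add, eX]
    nlinarith [Real.add_one_le_exp (2 : ℝ)]
  have KX : K ≤ X := by exact_mod_cast K2.trans XD2
  set c := C * K ^ 2 * 2 ^ (A + 1) / L ^ (A + 1) with hc
  have d1 := dyad (F := fun x => ‖SS a δ x K‖ ^ 2) (fun x => sq_nonneg _) (c := c)
    (by positivity) (Y0 := Y0) (by exact_mod_cast XD1.trans y1) (2 * X) fun Y b1 b2 => by
      have f1 : (Y0 : ℝ) ≤ Y := by exact_mod_cast b1
      have f0 : (0 : ℝ) < Y := by linarith
      have f2 : L / 2 ≤ Real.log Y := by rw [Real.le_log_iff_exp_le f0]; linarith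
      have f3 : Real.log Y ≤ L + 1 := by
        have g1 : (Y : ℝ) ≤ 2 * X := by exact_mod_cast b2
        rw [Real.log_le_iff_le_exp f0, Real.exp_add, eX]
        nlinarith [Real.add_one_le_exp (1 : ℝ)]
      have f4 : Y1 ≤ Y := by
        have := Real.log_le_sub_one_of_pos f0
        exact_mod_cast (by linarith : (Y1 : ℝ) ≤ Y)
      have f5 : θ1 * Real.log Y ≤ θ2 * L := by
        rw [div_le_iff₀ (by linarith)] at e6
        nlinarith
      refine (hY1 Y f4 a δ K ha hδ ((Real.exp_le_exp.2 f5).trans K1)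
        (by exact_mod_cast (by linarith : (K : ℝ) ≤ Y)) (hI _ f2)).trans ?_
      rw [show c * Y = C * K ^ 2 * Y / (L / 2) ^ (A + 1) by rw [hc, div_pow]; field_simp]
      exact div_le_div_of_nonneg_left (by positivity) (by positivity)
        (pow_le_pow_left₀ (by linarith) f2 _)
  have d2 : ∑ x ∈ range (2 * Y0 + 1), ‖SS a δ x K‖ ^ 2 ≤ 5 * (X / D) * (K * (2 * L)) ^ 2 := by
    refine (sum_le_card_nsmul _ _ ((K * (2 * L)) ^ 2) fun x hx => ?_).trans ?_
    · rw [mem_range] at hx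
      refine pow_le_pow_left₀ (norm_nonneg _) ((SS_triv ha hδ (e3X _ (by omega))).trans ?_) 2
      exact mul_le_mul_of_nonneg_left (by linarith) K0
    · rw [card_range, nsmul_eq_mul]
      refine mul_le_mul_of_nonneg_right ?_ (sq_nonneg _)
      push_cast; linarith
  have d3 : ∑ x ∈ range (X + 1), ‖SS a δ (x + m * K) r‖ ^ 2 ≤ 2 * X * (2 * D * (2 * L)) ^ 2 := by
    refine (sum_le_card_nsmul _ _ ((2 * D * (2 * L)) ^ 2) fun x hx => ?_).trans ?_
    · rw [mem_range] at hx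
      refine pow_le_pow_left₀ (norm_nonneg _) ((SS_triv ha hδ (e3X _ (by omega))).trans ?_) 2
      exact mul_le_mul (by linarith) (by linarith) (by linarith) (by linarith)
    · rw [card_range, nsmul_eq_mul]
      refine mul_le_mul_of_nonneg_right ?_ (sq_nonneg _)
      push_cast; linarith
  have d4 := split_sum (a := a) (δ := δ) X K m r (by omega)
  rw [eH] at d4
  have d5 : ∑ x ∈ range (2 * X + 1), ‖SS a δ x K‖ ^ 2 ≤ K ^ 2 * (X / (4 * L ^ A)) := by
    refine (d1.trans (add_le_add d2 le_rfl)).trans ?_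
    rw [show 5 * (X / D) * (K * (2 * L)) ^ 2 + 2 * c * (2 * X : ℕ) =
      K ^ 2 * (X / (4 * L ^ A)) * (4 * (20 + 4 * C * 2 ^ (A + 1)) / L) by
        rw [hc, hD]; push_cast; field_simp; ring]
    exact mul_le_of_le_one_right (by positivity) ((div_le_one L0).2 e8)
  have d6 : 2 * (2 * X * (2 * D * (2 * L)) ^ 2) ≤ H ^ 2 * X / (2 * L ^ A) := by
    rw [le_div_iff₀ (by positivity), show 2 * (2 * X * (2 * D * (2 * L)) ^ 2) * (2 * L ^ A) =
      128 * L ^ (3 * A + 8) * X by rw [hD]; ring]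
    refine mul_le_mul_of_nonneg_right ?_ X0.le
    nlinarith
  have d7 : ((m : ℝ) * K) ^ 2 ≤ H ^ 2 := pow_le_pow_left₀ (by positivity) (by linarith) 2
  have d8 := mul_le_mul_of_nonneg_left d5 (by positivity : 0 ≤ 2 * (m : ℝ) ^ 2)
  have d9 := mul_le_mul_of_nonneg_right d7 (by positivity : 0 ≤ X / (2 * L ^ A))
  have e9 : 2 * (m : ℝ) ^ 2 * (K ^ 2 * (X / (4 * L ^ A))) = (m * K) ^ 2 * (X / (2 * L ^ A)) := by
    field_simp; ring
  have e10 : (H : ℝ) ^ 2 * X / L ^ A = H ^ 2 * (X / (2 * L ^ A)) + H ^ 2 * X / (2 * L ^ A) := by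
    field_simp; ring
  linarith

lemma npp {q Z : ℕ} (hq : 1 ≤ q) {s : Finset ℕ} (hs : ∀ n ∈ s, n ≤ Z ∧ ¬ n.Coprime q) :
    ∑ n ∈ s, Λ n ≤ Nat.log 2 Z * Real.log q := by
  rw [← Real.log_pow, ← Nat.cast_pow, ← vonMangoldt_sum, ← sum_filter_ne_zero]
  refine sum_le_sum_of_subset_of_nonneg (fun n hn => ?_) fun _ _ _ => vonMangoldt_nonneg
  obtain ⟨h1, h2⟩ := mem_filter.1 hn
  obtain ⟨p, j, hp, hj, rfl⟩ := (isPrimePow_nat_iff n).1 (vonMangoldt_ne_zero_iff.1 h2)
  obtain ⟨h3, h4⟩ := hs _ h1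
  have h5 : p ∣ q := by
    by_contra c
    exact h4 (Nat.Coprime.pow_left j ((Nat.Prime.coprime_iff_not_dvd hp).2 c))
  have h6 : j ≤ Nat.log 2 Z :=
    Nat.le_log_of_pow_le one_lt_two ((Nat.pow_le_pow_left hp.two_le j).trans h3)
  exact Nat.mem_divisors.2 ⟨(pow_dvd_pow_of_dvd h5 j).trans (pow_dvd_pow q h6), by positivity⟩

lemma ap_eq {q c : ℕ} [NeZero q] (hc : c.Coprime q) (x H : ℕ) :
    ((∑ n ∈ (Ioc x (x + H)).filter (fun n => n ≡ c [MOD q]), Λ n - (H : ℝ) / q.totient : ℝ) : ℂ) =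
      (q.totient : ℂ)⁻¹ * ∑ χ : DirichletCharacter ℂ q, χ (c : ZMod q)⁻¹ *
        SS (fun n => χ n * Av.vM n) (if χ = 1 then 1 else 0) x H := by
  have hu : IsUnit (c : ZMod q) := (ZMod.isUnit_iff_coprime c q).2 hc
  have φ0 : (q.totient : ℂ) ≠ 0 := by exact_mod_cast (Nat.totient_pos.2 (NeZero.pos q)).ne'
  have h1 : (1 : DirichletCharacter ℂ q) (c : ZMod q)⁻¹ = 1 :=
    MulChar.one_apply (IsUnit.of_mul_eq_one _ (ZMod.inv_mul_of_unit _ hu))
  have h2 : ∑ χ : DirichletCharacter ℂ q, χ (c : ZMod q)⁻¹ * ((if χ = 1 then 1 else 0) * (H : ℂ)) =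
      H := by
    rw [sum_eq_single 1 (fun χ _ h => by simp [h]) (by simp)]
    simp [h1]
  have h3 : ∑ χ : DirichletCharacter ℂ q, χ (c : ZMod q)⁻¹ * ∑ n ∈ Ioc x (x + H), χ n * Av.vM n =
      q.totient * ∑ n ∈ (Ioc x (x + H)).filter (fun n => n ≡ c [MOD q]), Av.vM n := by
    simp_rw [mul_sum]
    rw [sum_comm, sum_filter]
    refine sum_congr rfl fun n _ => ?_
    simp_rw [← mul_assoc]
    rw [← sum_mul, DirichletCharacter.sum_char_inv_mul_char_eq ℂ hu]
    simp only [ZMod.natCast_eq_natCast_iff, Nat.ModEq.comm (a := c)]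
    split_ifs <;> simp
  simp only [SS, mul_sub]
  rw [sum_sub_distrib, h2, h3]
  simp only [Av.vM]
  push_cast
  field_simp

lemma norm_chi {q : ℕ} (χ : DirichletCharacter ℂ q) (n : ℕ) : ‖χ n * Av.vM n‖ ≤ Λ n := by
  rw [norm_mul, Av.vM, Complex.norm_real, Real.norm_of_nonneg vonMangoldt_nonneg]
  exact mul_le_of_le_one_left vonMangoldt_nonneg (χ.norm_le_one _)

lemma one_diff {q : ℕ} (hq : 1 ≤ q) (x H : ℕ) :
    ‖SS (fun n => (1 : DirichletCharacter ℂ q) n * Av.vM n) 1 x H - SS Av.vM 1 x H‖ ≤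
      Nat.log 2 (x + H) * Real.log q := by
  rw [SS, SS, sub_sub_sub_cancel_right, ← sum_sub_distrib]
  refine (norm_sum_le _ _).trans (le_trans ?_ (npp hq (s := (Ioc x (x + H)).filter
    fun n => ¬ n.Coprime q) fun n hn => ⟨(mem_Ioc.1 (mem_filter.1 hn).1).2, (mem_filter.1 hn).2⟩))
  rw [sum_filter]
  refine sum_le_sum fun n _ => ?_
  split_ifs with c
  · rw [MulChar.one_apply ((ZMod.isUnit_iff_coprime n q).2 c)]; simp
  · rw [MulChar.map_nonunit _ fun h => c ((ZMod.isUnit_iff_coprime n q).1 h), zero_mul, zero_sub,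
      norm_neg, Av.vM, Complex.norm_real, Real.norm_of_nonneg vonMangoldt_nonneg]

/-- Primes in progressions in almost all short intervals. -/
theorem apa (h : ∀ a : ℝ, 0 < a → a < 8 / 9 → Av.L2T a) {θ : ℝ} (hθ : 1 / 9 < θ) :
    Av.APA θ := by
  intro A B
  obtain ⟨a0, a1, a2⟩ := exists_between (show max (1 - θ) 0 < 8 / 9 from
    max_lt (by linarith) (by norm_num))
  have a3 := (le_max_left _ _).trans_lt a1
  obtain ⟨v0, hv0⟩ := eventually_atTop.1 (h a0 ((le_max_right _ _).trans_lt a1) a2 (A + 2) (2 * B))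
  filter_upwards [seq (θ := θ) (a0 := a0) (by linarith) (by linarith) (A + 1),
    tL.eventually_ge_atTop 4, eventually_gt_atTop 0, tL.eventually_ge_atTop (2 * v0),
    tL.eventually (ev_pow (A + 2 * B + 2) 128 (show 0 < θ by linarith))]
    with X hs e1 e2 e3 e4 H q c hH1 hH2 hq1 hq2
  haveI : NeZero q := ⟨by omega⟩
  have X0 : (0 : ℝ) < X := by exact_mod_cast e2
  have X1 : (1 : ℝ) ≤ X := by exact_mod_cast e2
  have eX : Real.exp (Real.log X) = X := Real.exp_log X0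
  have hH3 := hH1
  rw [Real.rpow_def_of_pos X0, mul_comm] at hH3
  set L := Real.log X with hL
  have L0 : 0 < L := by linarith
  have H1 : (1 : ℝ) ≤ H := (Real.one_le_exp (mul_nonneg (by linarith) L0.le)).trans hH3
  set M := (H : ℝ) ^ 2 * X / L ^ A with hM
  have M0 : 0 ≤ M := by positivity
  have hM4 : (H : ℝ) ^ 2 * X / L ^ (A + 1) ≤ M / 4 := by
    rw [hM, div_div, pow_succ L]
    exact div_le_div_of_nonneg_left (by positivity) (by positivity) (by gcongr)
  have q0 : (1 : ℝ) ≤ q := by exact_mod_cast hq1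
  have np : ∀ x ∈ range (X + 1), Nat.log 2 (x + H) * Real.log q ≤ 4 * L ^ (B + 1) := by
    intro x hx
    rw [mem_range] at hx
    have f1 : Real.log q ≤ L ^ B := by linarith [Real.log_le_sub_one_of_pos (by linarith : (0 : ℝ) < q)]
    have f2 : (Nat.log 2 (x + H) : ℝ) ≤ 4 * L := by
      have g0 : x + H ≠ 0 := by
        have : 1 ≤ H := by exact_mod_cast H1
        omega
      have g1 : ((2 ^ Nat.log 2 (x + H) : ℕ) : ℝ) ≤ 2 * X := by
        exact_mod_cast (Nat.pow_log_le_self 2 g0).trans (by omega)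
      have g2 := Real.log_le_log (by positivity) g1
      rw [Nat.cast_pow, Real.log_pow, Real.log_mul two_ne_zero X0.ne', ← hL] at g2
      have g3 := Real.log_two_gt_d9
      have g4 := Real.log_two_lt_d9
      push_cast at g2
      nlinarith [(Nat.log 2 (x + H)).cast_nonneg (α := ℝ)]
    refine (mul_le_mul f2 f1 (Real.log_nonneg q0) (by linarith)).trans (le_of_eq (by ring))
  have np2 : ∑ _x ∈ range (X + 1), (4 * L ^ (B + 1)) ^ 2 ≤ M / 4 := by
    rw [sum_const, card_range, nsmul_eq_mul, hM, div_div, le_div_iff₀ (by positivity)]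
    have f1 : ((X + 1 : ℕ) : ℝ) ≤ 2 * X := by push_cast; linarith
    calc _ ≤ 2 * X * (4 * L ^ (B + 1)) ^ 2 * (L ^ A * 4) := by gcongr
      _ = 128 * L ^ (A + 2 * B + 2) * X := by ring
      _ ≤ _ := mul_le_mul_of_nonneg_right (by nlinarith) X0.le
  by_cases hc : c.Coprime q
  · simp only [if_pos hc]
    have each : ∀ χ : DirichletCharacter ℂ q, ∑ x ∈ range (X + 1),
        ‖SS (fun n => χ n * Av.vM n) (if χ = 1 then 1 else 0) x H‖ ^ 2 ≤ M := by
      intro χ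
      by_cases h1 : χ = 1
      · subst h1
        have s1 := hs Av.vM 1 H (fun n => by
          rw [Av.vM, Complex.norm_real, Real.norm_of_nonneg vonMangoldt_nonneg]) (by simp) hH1 hH2
          fun v hv => by
            refine le_trans (le_of_eq ?_) (hv0 v (by linarith)).1
            simp only [DD, one_mul]; rfl
        have s2 : ∀ x ∈ range (X + 1),
            ‖SS (fun n => (1 : DirichletCharacter ℂ q) n * Av.vM n) 1 x H‖ ^ 2 ≤
              2 * ‖SS Av.vM 1 x H‖ ^ 2 + 2 * (4 * L ^ (B + 1)) ^ 2 := fun x hx => by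
          have f1 := (norm_le_norm_add_norm_sub' _ (SS Av.vM 1 x H)).trans
            (add_le_add le_rfl ((one_diff hq1 x H).trans (np x hx)))
          refine (pow_le_pow_left₀ (norm_nonneg _) f1 2).trans ?_
          nlinarith [sq_nonneg (‖SS Av.vM 1 x H‖ - 4 * L ^ (B + 1))]
        rw [if_pos rfl]
        refine (sum_le_sum s2).trans ?_
        rw [sum_add_distrib, ← mul_sum, ← mul_sum]
        linarith
      · rw [if_neg h1]
        have s1 := hs (fun n => χ n * Av.vM n) 0 H (norm_chi χ) (by simp) hH1 hH2 fun v hv => by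
          refine le_trans (le_of_eq ?_) ((hv0 v (by linarith)).2 q χ h1 (hq2.trans ?_))
          · simp only [DD, zero_mul, sub_zero]; rfl
          · rw [pow_mul]
            exact pow_le_pow_left₀ L0.le (by nlinarith) B
        linarith
    have φ0 : (0 : ℝ) < q.totient := by exact_mod_cast Nat.totient_pos.2 hq1
    have cd : (#(univ : Finset (DirichletCharacter ℂ q)) : ℝ) = q.totient := by
      rw [card_univ, ← Nat.card_eq_fintype_card,
        DirichletCharacter.card_eq_totient_of_hasEnoughRootsOfUnity ℂ q]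
    have pt : ∀ x, |∑ n ∈ (Ioc x (x + H)).filter (fun n => n ≡ c [MOD q]), Λ n -
        (H : ℝ) / q.totient| ^ 2 ≤ (q.totient : ℝ)⁻¹ * ∑ χ : DirichletCharacter ℂ q,
          ‖SS (fun n => χ n * Av.vM n) (if χ = 1 then 1 else 0) x H‖ ^ 2 := by
      intro x
      rw [← Real.norm_eq_abs, ← Complex.norm_real, ap_eq hc, norm_mul, norm_inv,
        Complex.norm_natCast, mul_pow]
      have f1 : ‖∑ χ : DirichletCharacter ℂ q, χ (c : ZMod q)⁻¹ *
          SS (fun n => χ n * Av.vM n) (if χ = 1 then 1 else 0) x H‖ ≤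
          ∑ χ : DirichletCharacter ℂ q,
            ‖SS (fun n => χ n * Av.vM n) (if χ = 1 then 1 else 0) x H‖ :=
        (norm_sum_le _ _).trans (sum_le_sum fun χ _ => by
          rw [norm_mul]; exact mul_le_of_le_one_left (norm_nonneg _) (χ.norm_le_one _))
      have f2 := (pow_le_pow_left₀ (norm_nonneg _) f1 2).trans sq_sum_le_card_mul_sum_sq
      rw [cd] at f2
      refine (mul_le_mul_of_nonneg_left f2 (by positivity)).trans (le_of_eq ?_)
      field_simp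
    refine (sum_le_sum fun x _ => pt x).trans ?_
    rw [← mul_sum, sum_comm]
    have f3 := sum_le_card_nsmul univ _ _ fun χ _ => each χ
    rw [nsmul_eq_mul, cd] at f3
    refine (mul_le_mul_of_nonneg_left f3 (by positivity)).trans (le_of_eq ?_)
    field_simp
  · simp only [if_neg hc, sub_zero]
    refine le_trans (sum_le_sum fun x hx => ?_) (np2.trans (by linarith))
    rw [abs_of_nonneg (sum_nonneg fun _ _ => vonMangoldt_nonneg)]
    refine pow_le_pow_left₀ (sum_nonneg fun _ _ => vonMangoldt_nonneg)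
      ((npp hq1 fun n hn => ?_).trans (np x hx)) 2
    obtain ⟨f1, f2⟩ := mem_filter.1 hn
    exact ⟨(mem_Ioc.1 f1).2, fun f3 => hc (by rwa [Nat.Coprime, ← f2.gcd_eq])⟩

end

end Pool.Agent.Lib.MP_68a45e_nt.CAp
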