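import Pool.Agent.Lib.MP_68a45e_nt.CT2c
import Pool.Agent.Lib.MP_68a45e_nt.CMin1

/-! The Type II bound in all ranges. -/

namespace Pool.Agent.Lib.MP_68a45e_nt.CT2

open Complex Filter Topology MeasureTheory Finset
open Pool.Agent.Lib.MP_68a45e_nt.CMin
open scoped Real ComplexConjugate Nat

lemma series {S : ℕ → ℝ → ℂ} {T : ℝ → ℂ} {κ w : ℝ → ℝ} {K C : ℝ} (hS : ∀ j, Continuous (S j))
    (hκ : Continuous κ) (hw : Continuous w) (w0 : ∀ ω, 0 ≤ w ω)
    (h1 : ∀ ω ∈ Set.Icc (-1 : ℝ) 1, 0 ≤ κ ω ∧ κ ω ≤ 3)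
    (h2 : ∀ j, ∀ ω ∈ Set.Icc (-1 : ℝ) 1, w ω * ‖S j ω‖ ^ 2 ≤ C)
    (h3 : ∀ ω ∈ Set.Icc (-1 : ℝ) 1, HasSum (fun j => ((κ ω ^ j / j ! : ℝ) : ℂ) * S j ω) (T ω))
    (h4 : ∀ j, ∫ ω in Set.Icc (-1 : ℝ) 1, w ω * ‖S j ω‖ ^ 2 ≤ K) :
    ∫ ω in Set.Icc (-1 : ℝ) 1, w ω * ‖T ω‖ ^ 2 ≤ Real.exp 3 * (Real.exp 3 * K) := by
  have p1 : ∀ J, ∑ j ∈ range J, (3 : ℝ) ^ j / j ! ≤ Real.exp 3 :=
    Real.sum_le_exp_of_nonneg (by norm_num)
  have p2 : ∀ J (x : ℝ), 0 ≤ x → ∑ j ∈ range J, (3 : ℝ) ^ j / j ! * x ≤ Real.exp 3 * x :=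
    fun J x hx => by rw [← sum_mul]; exact mul_le_mul_of_nonneg_right (p1 J) hx
  have h5 : ∀ J, ∀ ω ∈ Set.Icc (-1 : ℝ) 1,
      w ω * ‖∑ j ∈ range J, ((κ ω ^ j / j ! : ℝ) : ℂ) * S j ω‖ ^ 2 ≤
        Real.exp 3 * ∑ j ∈ range J, (3 : ℝ) ^ j / j ! * (w ω * ‖S j ω‖ ^ 2) := by
    intro J ω hω
    have a1 : ‖∑ j ∈ range J, ((κ ω ^ j / j ! : ℝ) : ℂ) * S j ω‖ ≤
        ∑ j ∈ range J, (3 : ℝ) ^ j / j ! * ‖S j ω‖ := by
      refine (norm_sum_le _ _).trans (sum_le_sum fun j _ => ?_)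
      have := (h1 ω hω).1
      have := (h1 ω hω).2
      rw [norm_mul, norm_real, Real.norm_of_nonneg (by positivity)]
      gcongr
    have a2 := sum_sq_le_sum_mul_sum_of_sq_eq_mul (range J)
      (r := fun j => (3 : ℝ) ^ j / j ! * ‖S j ω‖) (f := fun j => (3 : ℝ) ^ j / j !)
      (g := fun j => (3 : ℝ) ^ j / j ! * ‖S j ω‖ ^ 2) (fun _ _ => by positivity)
      (fun _ _ => by positivity) (fun _ _ => by ring)
    refine (mul_le_mul_of_nonneg_left ((pow_le_pow_left₀ (norm_nonneg _) a1 2).trans (a2.trans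
      (mul_le_mul_of_nonneg_right (p1 J) (sum_nonneg fun _ _ => by positivity)))) (w0 ω)).trans_eq ?_
    rw [mul_left_comm, mul_sum]
    congr 1
    exact sum_congr rfl fun _ _ => by ring
  have C0 : 0 ≤ C := le_trans (mul_nonneg (w0 0) (sq_nonneg _)) (h2 0 0 ⟨by norm_num, by norm_num⟩)
  have K0 : 0 ≤ K := le_trans (integral_nonneg fun ω => mul_nonneg (w0 ω) (sq_nonneg _)) (h4 0)
  have ht := tendsto_integral_filter_of_norm_le_const (μ := volume.restrict (Set.Icc (-1 : ℝ) 1))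
    (l := atTop) (F := fun J ω => w ω * ‖∑ j ∈ range J, ((κ ω ^ j / j ! : ℝ) : ℂ) * S j ω‖ ^ 2)
    (f := fun ω => w ω * ‖T ω‖ ^ 2)
    (.of_forall fun J => Continuous.aestronglyMeasurable (by fun_prop))
    ⟨Real.exp 3 * (Real.exp 3 * C), .of_forall fun J => (ae_restrict_iff' measurableSet_Icc).2
      (.of_forall fun ω hω => by
        rw [Real.norm_of_nonneg (mul_nonneg (w0 ω) (sq_nonneg _))]
        refine (h5 J ω hω).trans (mul_le_mul_of_nonneg_left (le_trans (sum_le_sum fun j _ => ?_)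
          (p2 J C C0)) (Real.exp_pos _).le)
        exact mul_le_mul_of_nonneg_left (h2 j ω hω) (by positivity))⟩
    ((ae_restrict_iff' measurableSet_Icc).2 (.of_forall fun ω hω =>
      (((h3 ω hω).tendsto_sum_nat.norm).pow 2).const_mul _))
  refine le_of_tendsto' ht fun J => ?_
  have i1 : ∀ j ∈ range J, IntegrableOn (fun ω => (3 : ℝ) ^ j / j ! * (w ω * ‖S j ω‖ ^ 2))
      (Set.Icc (-1 : ℝ) 1) := fun j _ => Continuous.integrableOn_Icc (by fun_prop)
  refine (setIntegral_mono_on (Continuous.integrableOn_Icc (by fun_prop))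
    ((integrable_finsetSum _ i1).const_mul _) measurableSet_Icc (h5 J)).trans ?_
  rw [integral_const_mul, integral_finsetSum _ i1]
  refine mul_le_mul_of_nonneg_left (le_trans (sum_le_sum fun j _ => ?_) (p2 J K K0))
    (Real.exp_pos _).le
  rw [integral_const_mul]
  exact mul_le_mul_of_nonneg_left (h4 j) (by positivity)

lemma triv {N M : ℕ} {f : ℕ → ℕ → ℂ} {c : ℝ}
    (h : ∀ n ∈ Ioc N (2 * N), ∀ m ∈ Ioc M (2 * M), ‖f n m‖ ≤ c) :
    ‖∑ n ∈ Ioc N (2 * N), ∑ m ∈ Ioc M (2 * M), f n m‖ ≤ c * N * M := by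
  refine (norm_sum_le _ _).trans ((sum_le_card_nsmul _ _ _ fun n hn => (norm_sum_le _ _).trans
    (sum_le_card_nsmul _ _ c (h n hn))).trans_eq ?_)
  rw [Nat.card_Ioc, Nat.card_Ioc, show 2 * N - N = N by omega, show 2 * M - M = M by omega,
    nsmul_eq_mul, nsmul_eq_mul]
  ring

lemma ray {lam δ : ℝ} (hl : 0 < lam) (hc : 0 < Real.cos δ) (ω : ℝ) {n m : ℝ} (hn : 0 < n)
    (hm : 0 < m) : exp (-exp ((Real.log (2 * π * lam / Real.cos δ) + ω + Real.log n + Real.log m : ℝ)
      - (π / 2 - δ : ℝ) * I)) = ee (lam * Real.exp ω * (n * m)) *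
        (Real.exp (-(2 * π * lam * Real.exp ω * Real.tan δ * (n * m))) : ℝ) := by
  have hπ := Real.pi_pos
  rw [ee, ofReal_exp, ← exp_add, sub_eq_add_neg, exp_add, ← ofReal_exp, Real.exp_add, Real.exp_add,
    Real.exp_add, Real.exp_log hn, Real.exp_log hm, Real.exp_log (by positivity), ← neg_mul _ I,
    ← ofReal_neg (π / 2 - δ), exp_ofReal_mul_I, Real.cos_neg, Real.sin_neg, Real.cos_pi_div_two_sub,
    Real.sin_pi_div_two_sub, Real.tan_eq_sin_div_cos]
  congr 1
  have : ((Real.cos δ : ℝ) : ℂ) ≠ 0 := ofReal_ne_zero.2 hc.ne'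
  simp only [ofReal_mul, ofReal_neg, ofReal_div, ofReal_ofNat]
  field_simp
  ring

lemma pos_case {N M q : ℕ} (c : ℤ) {lam H A2 B2 B D : ℝ} {a b : ℕ → ℂ} (hN : 1 ≤ N) (hM : 1 ≤ M)
    (hq : 1 ≤ q) (hl : lam ≤ 1) (hH : 1 ≤ H) (hH2 : H ≤ N * M) (hU : 1 ≤ lam * H)
    (hA : ∑ n ∈ Ioc N (2 * N), ‖a n‖ ^ 2 ≤ A2 * N) (hB : ∑ m ∈ Ioc M (2 * M), ‖b m‖ ^ 2 ≤ B2 * M)
    (ha : ∀ n ∈ Ioc N (2 * N), ‖a n‖ ≤ B) (hb : ∀ m ∈ Ioc M (2 * M), ‖b m‖ ≤ B)
    (hD : ∀ k : ℕ, k ≤ 16 * N * M → (k.divisors.card : ℝ) ≤ D) :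
    ∫ θ : ℝ, Real.exp (-π * H ^ 2 * θ ^ 2) * ‖∑ n ∈ Ioc N (2 * N), ∑ m ∈ Ioc M (2 * M),
      a n * b m * ee ((c / q + lam + θ) * (n * m))‖ ^ 2 ≤
      Real.exp 3 * (Real.exp 3 * (3840 * q * (A2 * B2 * (lam * N * M + N + M) +
        B ^ 4 * D * (N * M) / (lam * H)))) +
      2 * (B ^ 2 * N * M) ^ 2 * Real.exp (-(lam * H) ^ 2 / 4) / H := by
  have hπ := Real.pi_gt_three
  have hπ4 := Real.pi_le_four
  have hN0 : (0 : ℝ) < N := by positivity
  have hM0 : (0 : ℝ) < M := by positivity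
  have hq0 : (0 : ℝ) < q := by positivity
  have H0 : 0 < H := by linarith
  have l0 : 0 < lam := by nlinarith
  have hY : 1 ≤ lam * (N * M) := hU.trans (mul_le_mul_of_nonneg_left hH2 l0.le)
  have B0 : 0 ≤ B := (norm_nonneg _).trans (ha (2 * N) (mem_Ioc.2 ⟨by omega, le_rfl⟩))
  have D0 : 0 ≤ D := (Nat.cast_nonneg _).trans (hD 0 (Nat.zero_le _))
  set δ : ℝ := 1 / (16 * π * (lam * (N * M))) with hδ
  have δ0 : 0 < δ := by positivity
  have δe : δ * (16 * π * (lam * (N * M))) = 1 := by rw [hδ]; field_simp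
  have δ1 : δ ≤ 1 := by rw [hδ, div_le_one (by positivity)]; nlinarith
  have c1 : 1 / 2 ≤ Real.cos δ := by nlinarith [Real.one_sub_sq_div_two_le_cos (x := δ)]
  have c0 : 0 < Real.cos δ := by linarith
  have t0 : 0 ≤ Real.tan δ := Real.tan_nonneg_of_nonneg_of_le_pi_div_two δ0.le (by linarith)
  have t1 : Real.tan δ ≤ 2 * δ := by
    rw [Real.tan_eq_sin_div_cos, div_le_iff₀ c0]
    nlinarith [Real.sin_le δ0.le]
  set S : ℝ → ℂ := fun θ => ∑ n ∈ Ioc N (2 * N), ∑ m ∈ Ioc M (2 * M),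
    a n * b m * ee ((c / q + lam + θ) * (n * m)) with hS
  have Sc : Continuous S := by simp only [hS, ee]; fun_prop
  have Sb : ∀ θ, ‖S θ‖ ^ 2 ≤ (B ^ 2 * N * M) ^ 2 := fun θ =>
    pow_le_pow_left₀ (norm_nonneg _) (triv fun n hn m hm => by
      rw [norm_mul, norm_mul, norm_ee, mul_one, sq]
      exact mul_le_mul (ha n hn) (hb m hm) (norm_nonneg _) B0) 2
  have gi : Integrable fun θ : ℝ => Real.exp (-π * H ^ 2 * θ ^ 2) * ‖S θ‖ ^ 2 := by
    refine ((integrable_exp_neg_mul_sq (by positivity : 0 < π * H ^ 2)).mul_bdd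
      (c := (B ^ 2 * N * M) ^ 2) (g := fun θ => ‖S θ‖ ^ 2)
      (Continuous.aestronglyMeasurable (by fun_prop))
      (.of_forall fun θ => by rw [Real.norm_of_nonneg (sq_nonneg _)]; exact Sb θ)).congr
      (.of_forall fun θ => ?_)
    simp only [neg_mul]
  have fc : Continuous fun ω : ℝ => lam * (Real.exp ω - 1) := by fun_prop
  have Am : MeasurableSet ((fun ω : ℝ => lam * (Real.exp ω - 1)) '' Set.Icc (-1) 1) :=
    (isCompact_Icc.image fc).measurableSet
  rw [← integral_add_compl Am gi]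
  refine add_le_add ?_ ?_
  · rw [integral_image_eq_integral_abs_deriv_smul measurableSet_Icc
      (f' := fun ω => lam * Real.exp ω)
      (fun x _ => (((Real.hasDerivAt_exp x).sub_const 1).const_mul lam).hasDerivWithinAt)
      (fun x _ y _ h => Real.exp_injective (by simpa [l0.ne'] using h))]
    set κ : ℝ → ℝ := fun ω => 2 * π * lam * Real.exp ω * Real.tan δ * (2 * N * (2 * M)) with hκ
    have ku : ∀ (ω : ℝ) (n m : ℕ), 2 * π * lam * Real.exp ω * Real.tan δ * (n * m) =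
        κ ω * (n / (2 * N) * (m / (2 * M))) := fun ω n m => by simp only [hκ]; field_simp
    have e3 : ∀ ω ∈ Set.Icc (-1 : ℝ) 1, Real.exp ω ≤ 3 := fun ω hω =>
      (Real.exp_le_exp.2 hω.2).trans (Real.exp_one_lt_d9.le.trans (by norm_num))
    have un : ∀ {L n : ℕ} (z : ℂ) (j : ℕ), n ∈ Ioc L (2 * L) →
        ‖z * ((((n : ℝ) / (2 * L)) ^ j : ℝ) : ℂ)‖ ≤ ‖z‖ := by
      intro L n z j hn
      obtain ⟨u1, u2, -⟩ := mem_box hn
      rw [norm_mul, norm_real, Real.norm_of_nonneg (by positivity)]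
      exact mul_le_of_le_one_right (norm_nonneg _) (pow_le_one₀ (by positivity)
        ((div_le_one (u1.trans_le u2)).2 u2))
    have sr := series (T := fun ω => S (lam * (Real.exp ω - 1))) (κ := κ)
      (S := fun j ω => ∑ n ∈ Ioc N (2 * N), ∑ m ∈ Ioc M (2 * M),
        a n * ((((n : ℝ) / (2 * N)) ^ j : ℝ) : ℂ) * (b m * ((((m : ℝ) / (2 * M)) ^ j : ℝ) : ℂ)) *
          ee (c / q * (n * m)) * (ee (lam * Real.exp ω * (n * m)) *
          (Real.exp (-(2 * π * lam * Real.exp ω * Real.tan δ * (n * m))) : ℝ)))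
      (w := fun ω => Real.exp (-((lam * H) ^ 2 / 2) * ω ^ 2) * Real.exp ω)
      (C := 3 * (B ^ 2 * N * M) ^ 2) (K := _) (fun j => by simp only [ee]; fun_prop)
      (by simp only [hκ]; fun_prop) (by fun_prop) (fun ω => by positivity)
      (fun ω hω => ⟨by simp only [hκ]; positivity, by
        have : κ ω ≤ 2 * π * lam * 3 * (2 * δ) * (2 * N * (2 * M)) := by
          simp only [hκ]
          have := e3 ω hω
          gcongr
        linarith⟩)
      (fun j ω hω => by
        refine mul_le_mul ((mul_le_of_le_one_left (Real.exp_pos _).le (Real.exp_le_one_iff.2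
          (by nlinarith [mul_nonneg (sq_nonneg (lam * H)) (sq_nonneg ω)]))).trans (e3 ω hω))
          (pow_le_pow_left₀ (norm_nonneg _) (triv fun n hn m hm => ?_) 2) (sq_nonneg _)
          (by norm_num)
        rw [norm_mul, norm_mul, norm_mul, norm_ee, mul_one, norm_mul (ee _), norm_ee, one_mul,
          norm_real, Real.norm_of_nonneg (Real.exp_pos _).le, sq]
        exact (mul_le_of_le_one_right (by positivity) (Real.exp_le_one_iff.2 (neg_nonpos.2
          (by positivity)))).trans (mul_le_mul ((un _ j hn).trans (ha n hn))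
            ((un _ j hm).trans (hb m hm)) (norm_nonneg _) B0))
      (fun ω _ => by
        simp only [mul_sum, hS]
        refine hasSum_sum fun n _ => hasSum_sum fun m _ => ?_
        have s1 := (hasSum_ofReal.2 (NormedSpace.expSeries_div_hasSum_exp
          (κ ω * (n / (2 * N) * (m / (2 * M)))))).mul_left (a n * b m * ee (c / q * (n * m)) *
          (ee (lam * Real.exp ω * (n * m)) * (Real.exp (-(κ ω * (n / (2 * N) * (m / (2 * M))))) : ℝ)))
        rw [← Real.exp_eq_exp_ℝ, mul_assoc (a n * b m * _) _ (Real.exp _ : ℝ),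
          mul_assoc (ee _) _ (Real.exp _ : ℝ), ← ofReal_mul, ← Real.exp_add,
          neg_add_cancel, Real.exp_zero, ofReal_one, mul_one, mul_assoc _ (ee _) (ee _),
          ← ee_add] at s1
        rw [show (c / q + lam + lam * (Real.exp ω - 1)) * (n * m) =
          c / q * (n * m) + lam * Real.exp ω * (n * m) by ring, ku]
        refine (congrArg (HasSum · _) (funext fun j => ?_)).mp s1
        rw [mul_pow (κ ω), mul_pow ((n : ℝ) / _)]
        simp only [ofReal_mul, ofReal_div]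
        ring)
      (fun j => by
        obtain ⟨k1, k2⟩ := core (range q)
          (fun r n => if r = n % q then a n * ((((n : ℝ) / (2 * N)) ^ j : ℝ) : ℂ) else 0)
          (fun r m => b m * ((((m : ℝ) / (2 * M)) ^ j : ℝ) : ℂ) * ee (c / q * (r * m)))
          (Real.log (2 * π * lam / Real.cos δ)) δ0 δ1 (by positivity : 0 < lam * H) hq0.le hN hM hD
          (a := fun n => ‖a n‖) (b := fun m => ‖b m‖) (fun n hn => ⟨norm_nonneg _, ha n hn⟩)
          (fun m hm => ⟨norm_nonneg _, hb m hm⟩) (fun x hx => by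
            rw [mem_product] at hx
            rw [sum_eq_single (x.1 % q) (fun r _ hr => by rw [if_neg hr, map_zero, zero_mul])
              (fun h => (h (mem_range.2 (Nat.mod_lt _ hq))).elim), if_pos rfl, norm_mul,
              RCLike.norm_conj]
            refine mul_le_mul (un _ j hx.1) ?_ (norm_nonneg _) (norm_nonneg _)
            split_ifs
            · exact un _ j hx.2
            · simp) (fun y hy => by
            rw [mem_product] at hy
            refine (norm_sum_le _ _).trans ((sum_le_card_nsmul _ _ (‖b y.1‖ * ‖b y.2‖)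
              fun r _ => ?_).trans_eq (by rw [card_range, nsmul_eq_mul]))
            rw [norm_mul, RCLike.norm_conj, norm_mul, norm_mul _ (ee _), norm_ee, norm_ee, mul_one,
              mul_one]
            exact mul_le_mul (un _ j hy.1) (un _ j hy.2) (norm_nonneg _) (norm_nonneg _))
          (fun _ => rfl)
        refine le_trans (le_of_eq ?_) ((setIntegral_le_integral (s := Set.Icc (-1 : ℝ) 1) k1
          (.of_forall fun ω => by positivity)).trans k2)
        refine integral_congr_ae (.of_forall fun ω => ?_)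
        simp only
        rw [mul_assoc]
        congr 4
        refine sum_congr rfl fun n hn => sum_congr rfl fun m hm => ?_
        rw [ray l0 c0 ω (mem_box hn).1 (mem_box hm).1, sum_eq_single (n % q)
          (fun r _ hr => by rw [if_neg hr, zero_mul])
          (fun h => (h (mem_range.2 (Nat.mod_lt _ hq))).elim), if_pos rfl,
          ← ee_add_int (c / q * ((n % q : ℕ) * m)) (c * (n / q : ℕ) * m), ← mul_assoc _ _ (ee _)]
        congr 3
        have : (n : ℝ) = (n % q : ℕ) + q * (n / q : ℕ) := by exact_mod_cast (Nat.mod_add_div n q).symm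
        rw [Int.cast_mul, Int.cast_mul, Int.cast_natCast, Int.cast_natCast]
        conv_lhs => rw [this]
        field_simp)
    have sl := mul_le_mul_of_nonneg_left sr l0.le
    rw [← integral_const_mul] at sl
    refine (setIntegral_mono_on (Continuous.integrableOn_Icc (by fun_prop))
      (Continuous.integrableOn_Icc (by fun_prop)) measurableSet_Icc fun ω hω => ?_).trans
      (sl.trans ?_)
    · rw [abs_of_pos (by positivity), smul_eq_mul]
      have g1 : ω ^ 2 ≤ 4 * (Real.exp ω - 1) ^ 2 := by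
        have g2 := Real.add_one_le_exp ω
        rcases le_total 0 ω with h | h
        · nlinarith
        · have g3 := Real.add_one_le_exp (-ω)
          have g4 : Real.exp ω * Real.exp (-ω) = 1 := by rw [← Real.exp_add]; simp
          have g5 := mul_le_mul_of_nonneg_left g3 (Real.exp_pos ω).le
          have g6 : -ω ≤ 2 * (1 - Real.exp ω) := by nlinarith [hω.1, Real.exp_pos ω]
          nlinarith
      have g7 : Real.exp (-π * H ^ 2 * (lam * (Real.exp ω - 1)) ^ 2) ≤
          Real.exp (-((lam * H) ^ 2 / 2) * ω ^ 2) := by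
        refine Real.exp_le_exp.2 ?_
        nlinarith [mul_le_mul_of_nonneg_left g1 (sq_nonneg (lam * H)),
          mul_le_mul_of_nonneg_right hπ.le (sq_nonneg (lam * H * (Real.exp ω - 1))),
          sq_nonneg (lam * H * (Real.exp ω - 1))]
      calc _ ≤ lam * Real.exp ω * (Real.exp (-((lam * H) ^ 2 / 2) * ω ^ 2) *
            ‖S (lam * (Real.exp ω - 1))‖ ^ 2) := by gcongr
        _ = _ := by ring
    · rw [mul_left_comm lam, mul_left_comm lam]
      refine mul_le_mul_of_nonneg_left (mul_le_mul_of_nonneg_left ?_ (Real.exp_pos _).le)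
        (Real.exp_pos _).le
      have A0 : 0 ≤ A2 * N := le_trans (sum_nonneg fun _ _ => sq_nonneg _) hA
      have A1 : 0 ≤ B2 * M := le_trans (sum_nonneg fun _ _ => sq_nonneg _) hB
      have A3 : 0 ≤ A2 * B2 := mul_nonneg (nonneg_of_mul_nonneg_left A0 hN0)
        (nonneg_of_mul_nonneg_left A1 hM0)
      have x1 : lam * Real.exp (-Real.log (2 * π * lam / Real.cos δ)) ≤ 1 := by
        rw [Real.exp_neg, Real.exp_log (by positivity), inv_div, ← mul_div_assoc,
          div_le_one (by positivity)]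
        nlinarith [Real.cos_le_one δ]
      have x2 : 1 / δ ≤ 64 * (lam * (N * M)) := by
        rw [hδ, one_div_one_div]
        nlinarith
      have x3 : 4 / δ + 16 * N + 16 * M ≤ 256 * (lam * N * M + N + M) := by
        have : 4 / δ = 4 * (1 / δ) := by ring
        linarith
      have x4 : 2 / δ + 32 * N * M ≤ 160 * (N * M) := by
        have : 2 / δ = 2 * (1 / δ) := by ring
        nlinarith [mul_pos hN0 hM0]
      calc _ = lam * Real.exp (-Real.log (2 * π * lam / Real.cos δ)) * (q / (N * M) *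
            (2 * ((4 / δ + 16 * N + 16 * M) * ((∑ n ∈ Ioc N (2 * N), ‖a n‖ ^ 2) *
              ∑ m ∈ Ioc M (2 * M), ‖b m‖ ^ 2) + B ^ 4 * D * (12 * N * M / (lam * H)) *
                (2 / δ + 32 * N * M)))) := by ring
        _ ≤ 1 * (q / (N * M) * (2 * (256 * (lam * N * M + N + M) * (A2 * N * (B2 * M)) +
            B ^ 4 * D * (12 * N * M / (lam * H)) * (160 * (N * M))))) := by gcongr
        _ = q * (512 * (A2 * B2 * (lam * N * M + N + M)) +
            3840 * (B ^ 4 * D * (N * M) / (lam * H))) := by field_simp; ring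
        _ ≤ q * (3840 * (A2 * B2 * (lam * N * M + N + M)) +
            3840 * (B ^ 4 * D * (N * M) / (lam * H))) := by gcongr; norm_num
        _ = _ := by ring
  · have hb2 : 0 < π * H ^ 2 / 2 := by positivity
    have j1 := (integrable_exp_neg_mul_sq hb2).const_mul
      ((B ^ 2 * N * M) ^ 2 * Real.exp (-(lam * H) ^ 2 / 4))
    refine (setIntegral_mono_on gi.integrableOn j1.integrableOn Am.compl fun θ hθ => ?_).trans
      ((setIntegral_le_integral j1 (.of_forall fun θ => by positivity)).trans ?_)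
    · have g1 : lam / 2 ≤ |θ| := by
        by_contra h
        obtain ⟨h1, h2⟩ := abs_lt.1 (not_le.1 h)
        have g2 : 1 / 2 ≤ 1 + θ / lam := by
          have : -(1 / 2) ≤ θ / lam := by rw [le_div_iff₀ l0]; linarith
          linarith
        have g3 : θ / lam ≤ 1 := by rw [div_le_one l0]; linarith
        have g4 := Real.log_le_sub_one_of_pos (by linarith : 0 < 1 + θ / lam)
        have g5 := Real.one_sub_inv_le_log_of_pos (by linarith : 0 < 1 + θ / lam)
        have g6 : (1 + θ / lam)⁻¹ ≤ 2 := by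
          rw [inv_le_comm₀ (by linarith) (by norm_num)]
          linarith
        refine hθ ⟨Real.log (1 + θ / lam), ⟨by linarith, by linarith⟩, ?_⟩
        simp only
        rw [Real.exp_log (by linarith)]
        field_simp
        ring
      have g2 : (lam / 2) ^ 2 ≤ θ ^ 2 := by
        rw [← sq_abs θ]
        exact pow_le_pow_left₀ (by positivity) g1 2
      rw [mul_assoc (_ ^ 2), ← Real.exp_add, mul_comm]
      refine mul_le_mul (Sb θ) (Real.exp_le_exp.2 ?_) (Real.exp_pos _).le (sq_nonneg _)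
      nlinarith [mul_le_mul_of_nonneg_left g2 (sq_nonneg H),
        mul_le_mul_of_nonneg_right hπ.le (sq_nonneg (H * θ)), sq_nonneg (H * θ)]
    · rw [integral_const_mul, integral_gaussian]
      have : √(π / (π * H ^ 2 / 2)) ≤ 2 / H := by
        rw [Real.sqrt_le_iff]
        refine ⟨by positivity, ?_⟩
        rw [div_pow, div_le_div_iff₀ hb2 (by positivity)]
        nlinarith
      refine (mul_le_mul_of_nonneg_left this (by positivity)).trans_eq ?_
      ring

/-- The Type II bound. -/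
theorem typeII : ∃ C : ℝ, 0 < C ∧ ∀ (N M q : ℕ) (c : ℤ) (lam H A2 B2 B D : ℝ) (a b : ℕ → ℂ),
    1 ≤ N → 1 ≤ M → 1 ≤ q → |lam| ≤ 1 → 1 ≤ H → H ≤ N * M → 1 ≤ |lam| * H →
    ∑ n ∈ Ioc N (2 * N), ‖a n‖ ^ 2 ≤ A2 * N → ∑ m ∈ Ioc M (2 * M), ‖b m‖ ^ 2 ≤ B2 * M →
    (∀ n ∈ Ioc N (2 * N), ‖a n‖ ≤ B) → (∀ m ∈ Ioc M (2 * M), ‖b m‖ ≤ B) →
    (∀ k : ℕ, k ≤ 16 * N * M → (k.divisors.card : ℝ) ≤ D) →
    ∫ θ : ℝ, Real.exp (-π * H ^ 2 * θ ^ 2) * ‖∑ n ∈ Ioc N (2 * N), ∑ m ∈ Ioc M (2 * M),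
      a n * b m * ee ((c / q + lam + θ) * (n * m))‖ ^ 2 ≤
      C * q * (A2 * B2 * (|lam| * N * M + N + M) + B ^ 4 * D * (N * M) / (|lam| * H)) +
      C * (B ^ 2 * N * M) ^ 2 * Real.exp (-(|lam| * H) ^ 2 / 4) / H := by
  refine ⟨Real.exp 3 * Real.exp 3 * 3840, by positivity, ?_⟩
  intro N M q c lam H A2 B2 B D a b hN hM hq hl hH hH2 hU hA hB ha hb hD
  have e1 : (2 : ℝ) ≤ Real.exp 3 * Real.exp 3 * 3840 := by
    nlinarith [Real.add_one_le_exp 3]
  refine le_trans (b := Real.exp 3 * (Real.exp 3 * (3840 * q * (A2 * B2 * (|lam| * N * M + N + M) +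
    B ^ 4 * D * (N * M) / (|lam| * H)))) +
      2 * (B ^ 2 * N * M) ^ 2 * Real.exp (-(|lam| * H) ^ 2 / 4) / H) ?_
    (add_le_add (le_of_eq (by ring)) (by gcongr))
  rcases le_total 0 lam with h | h
  · rw [abs_of_nonneg h] at *
    exact pos_case c hN hM hq hl hH hH2 hU hA hB ha hb hD
  · rw [abs_of_nonpos h] at *
    refine le_trans (le_of_eq ?_) (pos_case (a := fun n => conj (a n)) (b := fun m => conj (b m))
      (-c) hN hM hq hl hH hH2 hU (by simpa using hA) (by simpa using hB) (by simpa using ha)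
      (by simpa using hb) hD)
    rw [← integral_neg_eq_self]
    refine integral_congr_ae (.of_forall fun θ => ?_)
    simp only
    rw [neg_sq, ← RCLike.norm_conj, map_sum]
    congr 3
    refine sum_congr rfl fun n _ => ?_
    rw [map_sum]
    refine sum_congr rfl fun m _ => ?_
    rw [map_mul, map_mul, conj_ee]
    congr 2
    push_cast
    ring

end Pool.Agent.Lib.MP_68a45e_nt.CT2
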