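import Pool.Agent.Lib.MP_68a45e_nt.CMin4
import Pool.Agent.Lib.MP_68a45e_nt.CT2d

/-! Minor arcs for the von Mangoldt function. -/

namespace Pool.Agent.Lib.MP_68a45e_nt.CMin

theorem minL : Av.MinL := minL_ofX CT2.typeII

end Pool.Agent.Lib.MP_68a45e_nt.CMin
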