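import Pool.Agent.Lib.MP_68a45e_nt.CMod2

/-! The sieve model for the primes: minor arcs. -/

namespace Pool.Agent.Lib.MP_68a45e_nt.CMod

open Finset Filter Nat
open Pool.Agent.Lib.MP_b09185_nt Pool.Agent.Lib.SW Pool.Agent.Lib.MP_68a45e_nt.Av
open Pool.Agent.Lib.MP_68a45e_nt.CMin

lemma bad_mul {α Q δ η : ℝ} {M : ℕ} (h : Far α Q δ) (h1 : η ≤ δ) (h2 : 2 * η * M ≤ 1) :
    ∃ q : ℕ, Q < q ∧ ∀ d ∈ Icc 1 M, (∃ c : ℤ, |α * d - c| < η) → q ∣ d := by
  by_cases hb : ∃ d ∈ Icc 1 M, ∃ c : ℤ, |α * d - c| < η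
  swap
  · obtain ⟨q, hq⟩ := exists_nat_gt Q
    exact ⟨q, hq, fun d hd hc => absurd ⟨d, hd, hc⟩ hb⟩
  obtain ⟨e, he, b, hb⟩ := hb
  have hη : 0 < η := (abs_nonneg _).trans_lt hb
  obtain ⟨e1, e2⟩ := mem_Icc.1 he
  have e1' : (1 : ℝ) ≤ e := by exact_mod_cast e1
  have e2' : (e : ℝ) ≤ M := by exact_mod_cast e2
  refine ⟨((b : ℚ) / e).den, ?_, fun d hd ⟨c, hc⟩ => ?_⟩
  · by_contra hq
    have h3 := h _ (Rat.den_pos _) (not_lt.1 hq) ((b : ℚ) / e).num
    have h4 : ((((b : ℚ) / e).num : ℝ) / ((b : ℚ) / e).den) = b / e := by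
      rw [← Rat.cast_def]; push_cast; rfl
    rw [h4, show α - b / e = (α * e - b) / e by field_simp, abs_div, abs_of_pos (by linarith : (0 : ℝ) < e),
      lt_div_iff₀ (by linarith)] at h3
    nlinarith
  · obtain ⟨d1, d2⟩ := mem_Icc.1 hd
    have d1' : (1 : ℝ) ≤ d := by exact_mod_cast d1
    have d2' : (d : ℝ) ≤ M := by exact_mod_cast d2
    have h3 : |((b * d - c * e : ℤ) : ℝ)| < 1 := by
      push_cast
      rw [abs_lt] at hb hc ⊢
      constructor <;> nlinarith [hb.1, hb.2, hc.1, hc.2]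
    have h4 : b * d - c * e = 0 := Int.abs_lt_one_iff.1 (by exact_mod_cast h3)
    have h5 : (b : ℚ) / e = c / d := by
      have a1 : (e : ℚ) ≠ 0 := by exact_mod_cast (by omega : e ≠ 0)
      have a2 : (d : ℚ) ≠ 0 := by exact_mod_cast (by omega : d ≠ 0)
      rw [div_eq_div_iff a1 a2]
      exact_mod_cast sub_eq_zero.1 h4
    have h6 := Rat.den_dvd c d
    rw [Rat.divInt_eq_div, Int.cast_natCast, ← h5] at h6
    exact_mod_cast h6

lemma sum_sets {z : ℕ} (k : ℕ) (f : ℕ → ℝ) (hf : ∀ d, 0 ≤ f d) (hz : 1 ≤ z) :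
    ∑ D ∈ (primesLE z).powerset with #D ≤ k, f (∏ p ∈ D, p) ≤ ∑ d ∈ Icc 1 (z ^ k), f d := by
  rw [← sum_image (g := fun D : Finset ℕ => ∏ p ∈ D, p) (f := f)]
  · refine sum_le_sum_of_subset_of_nonneg (fun d hd => ?_) fun d _ _ => hf d
    obtain ⟨D, hD, rfl⟩ := mem_image.1 hd
    obtain ⟨h1, h2⟩ := mem_filter.1 hD
    rw [mem_powerset] at h1
    exact mem_Icc.2 ⟨prod_pos fun q hq => (prime_of_mem_primesLE (h1 hq)).pos,
      (prod_le_pow_card D _ z fun q hq => le_of_mem_primesLE (h1 hq)).trans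
        (Nat.pow_le_pow_right hz h2)⟩
  · intro D hD E hE h
    simp only [coe_filter, mem_powerset, Set.mem_ofPred_eq] at hD hE
    have h1 := Nat.primeFactors_prod (s := D) fun q hq => prime_of_mem_primesLE (hD.1 hq)
    have h2 := Nat.primeFactors_prod (s := E) fun q hq => prime_of_mem_primesLE (hE.1 hq)
    rw [← h1, ← h2]
    exact congrArg _ h

lemma sum_mult {M : Type*} [AddCommMonoid M] {d : ℕ} (hd : 0 < d) (f : ℕ → M) (x y : ℕ) :
    ∑ n ∈ Ioc x y with d ∣ n, f n = ∑ u ∈ Ioc (x / d) (y / d), f (d * u) := by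
  have key : ∀ u, u ∈ Ioc (x / d) (y / d) ↔ d * u ∈ Ioc x y := by
    intro u
    rw [mem_Ioc, mem_Ioc, Nat.div_lt_iff_lt_mul hd, Nat.le_div_iff_mul_le hd, mul_comm u d]
  refine sum_nbij' (fun n => n / d) (fun u => d * u) (fun n hn => ?_) (fun u hu => ?_)
    (fun n hn => Nat.mul_div_cancel' (mem_filter.1 hn).2) (fun u _ => Nat.mul_div_cancel_left u hd)
    fun n hn => by rw [Nat.mul_div_cancel' (mem_filter.1 hn).2]
  · rw [key, Nat.mul_div_cancel' (mem_filter.1 hn).2]; exact (mem_filter.1 hn).1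
  · exact mem_filter.2 ⟨(key u).1 hu, dvd_mul_right _ _⟩

lemma card_mult {d : ℕ} (hd : 0 < d) (x L : ℕ) :
    (#{n ∈ Ioc x (x + L) | d ∣ n} : ℝ) ≤ L / d + 1 := by
  have h := class_count x L d 0 hd
  simp only [Nat.modEq_zero_iff_dvd] at h
  linarith [(abs_le.1 h).2]

lemma typeI {α Q δ η : ℝ} {M : ℕ} (h : Far α Q δ) (hQ : 0 < Q) (hη : 0 < η) (h1 : η ≤ δ)
    (h2 : 2 * η * M ≤ 1) (x L : ℕ) :
    ∑ d ∈ Icc 1 M, ‖∑ n ∈ Ioc x (x + L) with d ∣ n, ee (α * n)‖ ≤
      M / (2 * η) + M + L * (1 + Real.log M) / Q := by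
  obtain ⟨q, hq, hb⟩ := bad_mul h h1 h2
  have hq0 : 0 < q := by exact_mod_cast hQ.trans hq
  have a1 : ∀ d ∈ Icc 1 M, ‖∑ n ∈ Ioc x (x + L) with d ∣ n, ee (α * n)‖ ≤
      1 / (2 * η) + 1 + if q ∣ d then (L : ℝ) / d else 0 := by
    intro d hd
    have hd0 : 0 < d := (mem_Icc.1 hd).1
    have h0 : 0 < 1 / (2 * η) := by positivity
    by_cases hc : ∃ c : ℤ, |α * d - c| < η
    · rw [if_pos (hb d hd hc)]
      refine (norm_sum_le _ _).trans ?_
      simp only [norm_ee, sum_const, nsmul_eq_mul, mul_one]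
      linarith [card_mult hd0 x L]
    · push Not at hc
      have := geo hη hc (x / d) ((x + L) / d)
      rw [sum_mult hd0]
      simp only [Nat.cast_mul, ← mul_assoc]
      split_ifs
      · have : (0 : ℝ) ≤ L / d := by positivity
        linarith
      · linarith
  refine (sum_le_sum a1).trans ?_
  rw [sum_add_distrib, sum_const, Nat.card_Icc, add_tsub_cancel_right, nsmul_eq_mul, mul_add,
    mul_one, mul_one_div, ← sum_filter, show Icc 1 M = Ioc 0 M from rfl, sum_mult hq0]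
  gcongr
  have a2 := harm_le M
  have a3 : 0 ≤ 1 + Real.log M := by linarith [Real.log_natCast_nonneg M]
  calc _ ≤ ∑ u ∈ Icc 1 M, (L : ℝ) / (q * u : ℕ) :=
        sum_le_sum_of_subset_of_nonneg (fun u hu => by
          rw [mem_Ioc] at hu
          exact mem_Icc.2 ⟨Nat.zero_lt_of_lt hu.1, hu.2.trans (Nat.div_le_self _ _)⟩) fun _ _ _ => by positivity
    _ = L * (∑ u ∈ Icc 1 M, (1 : ℝ) / u) / q := by
        rw [mul_sum, sum_div]; exact sum_congr rfl fun u _ => by push_cast; ring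
    _ ≤ _ := by gcongr

lemma min_core {z : ℕ} (hz : 1 ≤ z) (α : ℝ) (x L k : ℕ) :
    ‖W (LW z) α L x‖ ≤ (th z)⁻¹ *
      (L * (Real.exp (2 * ∑ p ∈ primesLE z, 1 / (p : ℝ)) / 2 ^ k) + (z : ℝ) ^ (k + 1) +
        ∑ d ∈ Icc 1 (z ^ (k + 1)), ‖∑ n ∈ Ioc x (x + L) with d ∣ n, ee (α * n)‖) := by
  set Q := primesLE z with hQ
  have hp : ∀ D ∈ Q.powerset, ∀ p ∈ D, p.Prime := fun D hD p hp =>
    prime_of_mem_primesLE (mem_powerset.1 hD hp)
  set s : Finset ℕ → ℝ := fun D => if #D ≤ k then (-1 : ℝ) ^ #D else 0 with hs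
  set u : ℕ → ℝ := fun n => if ∀ p ∈ Q, ¬ p ∣ n then 1 else 0 with hu
  set v : ℕ → ℝ := fun n => ∑ D ∈ Q.powerset, if (∀ p ∈ D, p ∣ n) then s D else 0 with hv
  have h0 := (inv_pos.2 (th_pos z)).le
  have e1 : W (LW z) α L x = ((th z)⁻¹ : ℝ) * (∑ n ∈ Ioc x (x + L), ((u n - v n : ℝ) : ℂ) * ee (α * n) +
      ∑ n ∈ Ioc x (x + L), (v n : ℂ) * ee (α * n)) := by
    rw [W, ← sum_add_distrib, mul_sum]
    refine sum_congr rfl fun n _ => ?_
    rw [LW_eq, lsh, hu]
    dsimp only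
    split_ifs <;> push_cast <;> ring
  rw [e1, norm_mul, Complex.norm_real, Real.norm_of_nonneg h0]
  refine mul_le_mul_of_nonneg_left ((norm_add_le _ _).trans (add_le_add ?_ ?_)) h0
  · refine (norm_sum_le _ _).trans ?_
    simp only [norm_mul, norm_ee, mul_one, Complex.norm_real, Real.norm_eq_abs]
    refine (sum_le_sum fun n _ => bonf_dvd Q k n).trans ?_
    rw [sum_comm]
    have h1 := model_le Q (fun p => 1 / (p : ℝ)) (fun p _ => by positivity) k
    have h2 := (le_add_of_nonneg_left (abs_nonneg _)).trans h1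
    have h4 : (#{D ∈ Q.powerset | #D ≤ k + 1} : ℝ) ≤ (z : ℝ) ^ (k + 1) := by
      exact_mod_cast card_small hz Subset.rfl (k + 1)
    refine le_trans ?_ (add_le_add (mul_le_mul_of_nonneg_left h2 (Nat.cast_nonneg L)) h4)
    rw [card_filter, mul_sum]
    push_cast
    rw [← sum_add_distrib]
    refine sum_le_sum fun D hD => ?_
    by_cases b : #D = k + 1
    · have h5 := card_mult (d := ∏ p ∈ D, p) (prod_pos fun p h => (hp D hD p h).pos) x L
      simp only [if_pos b, if_pos b.le, forall_dvd_iff (hp D hD)]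
      rw [← sum_filter]
      simpa [div_eq_mul_inv] using h5
    · simp only [if_neg b, ite_self, sum_const_zero, zero_mul, mul_zero, zero_add]
      positivity
  · refine le_trans ?_ (sum_sets (k + 1)
      (fun d => ‖∑ n ∈ Ioc x (x + L) with d ∣ n, ee (α * n)‖) (fun _ => norm_nonneg _) hz)
    simp only [hv]
    push_cast
    simp only [sum_mul]
    rw [sum_comm, sum_filter]
    refine (norm_sum_le _ _).trans (sum_le_sum fun D hD => ?_)
    have e2 : ∑ n ∈ Ioc x (x + L), (((if (∀ p ∈ D, p ∣ n) then s D else 0 : ℝ)) : ℂ) * ee (α * n) =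
        s D * ∑ n ∈ Ioc x (x + L) with (∏ p ∈ D, p) ∣ n, ee (α * n) := by
      rw [sum_filter, mul_sum]
      refine sum_congr rfl fun n _ => ?_
      simp only [forall_dvd_iff (hp D hD)]
      split_ifs <;> simp
    rw [e2, norm_mul, hs]
    dsimp only
    by_cases a : #D ≤ k
    · rw [if_pos a, if_pos (by omega)]; simp
    · rw [if_neg a]; simp only [Complex.ofReal_zero, norm_zero, zero_mul]; positivity

/-- pointwise minor arc bound for the model -/
theorem min_pt {ε : ℝ} (hε : 0 < ε) (A B : ℕ) : ∀ᶠ X : ℕ in atTop, ∀ (w L : ℕ) (α : ℝ),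
    (w : ℝ) ≤ Real.log X ^ B → Far α (Real.log X ^ (A + 3)) ((X : ℝ) ^ ε / L) →
      ∀ x, ‖W (LW w) α L x‖ ≤ L / Real.log X ^ A := by
  filter_upwards [tendsto_L.eventually (ev_params (A + 3) B), exp_sqrt_ev hε 2 (A + 2),
    tendsto_L.eventually_ge_atTop 7, eventually_gt_atTop 0] with X ⟨k, h1⟩ h2 h3 hX w L α hw hF x
  rcases Nat.eq_zero_or_pos L with rfl | hL
  · simp [W]
  wlog hz : 1 ≤ w generalizing w with hh
  · have : LW w = LW 1 := by
      obtain rfl : w = 0 := by omega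
      funext n; simp [LW]
    rw [this]
    exact hh 1 (by simpa using one_le_pow₀ (by linarith)) le_rfl
  obtain ⟨a1, a2, a3⟩ := h1 w hw
  set l := Real.log X
  set E := Real.exp √l with hE
  set Y := (X : ℝ) ^ ε
  have hY : 0 < Y := by positivity
  have hL' : (0 : ℝ) < L := by exact_mod_cast hL
  have a0 : Real.exp (2 * ∑ p ∈ primesLE w, 1 / (p : ℝ)) ≤ l := by
    refine le_trans ?_ a1
    have : 0 ≤ ∑ p ∈ primesLE w, 1 / (p : ℝ) := by positivity
    gcongr; norm_num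
  have a4 := (th_inv_le w).trans a0
  have b0 : Y ≤ L := by
    have := hF 1 le_rfl (by simpa using one_le_pow₀ (by linarith)) (round α)
    rw [Nat.cast_one, div_one, div_lt_iff₀ hL'] at this
    nlinarith [abs_sub_round α]
  have b1 : (1 : ℝ) ≤ (w ^ (k + 1) : ℕ) := by exact_mod_cast Nat.one_le_pow _ _ hz
  have b2 : ((w ^ (k + 1) : ℕ) : ℝ) ≤ E := by exact_mod_cast a3
  set M := w ^ (k + 1)
  have b3 := typeI (η := min (Y / L) (1 / (2 * M))) (M := M) hF (by positivity) (by positivity)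
    (min_le_left _ _) (by
      have := min_le_right (Y / L) (1 / (2 * M))
      rw [le_div_iff₀ (by positivity)] at this
      linarith) x L
  have b4 : l ^ (A + 2) * E ^ 2 ≤ Y := by rw [hE, ← Real.exp_nat_mul]; exact_mod_cast h2
  have b5 : 1 ≤ E := b1.trans b2
  set t := L / l ^ (A + 2) with ht
  have c1 : E ^ 2 ≤ t := by rw [le_div_iff₀ (by positivity)]; linarith
  have c2 : E ≤ t := le_trans (by nlinarith) c1
  have c3 : M / (2 * min (Y / L) (1 / (2 * M))) ≤ t := by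
    rcases min_cases (Y / L) (1 / (2 * M)) with h | h <;> rw [h.1]
    · rw [div_le_div_iff₀ (by positivity) (by positivity), mul_div_assoc', mul_div_assoc',
        le_div_iff₀ hL']
      have : M * l ^ (A + 2) ≤ l ^ (A + 2) * E ^ 2 := by
        rw [mul_comm]; gcongr; nlinarith
      nlinarith
    · calc _ = (M : ℝ) ^ 2 := by field_simp
        _ ≤ E ^ 2 := by gcongr
        _ ≤ t := c1
  have c4 : L * (1 + Real.log M) / l ^ (A + 3) ≤ 2 * t := by
    have d1 : Real.log M ≤ √l := by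
      rw [Real.log_le_iff_le_exp (by linarith)]; exact b2
    have d2 : √l ≤ l := by rw [Real.sqrt_le_iff]; constructor <;> nlinarith
    calc _ ≤ L * (2 * l) / l ^ (A + 3) := by gcongr; linarith
      _ = _ := by rw [ht]; field_simp; ring
  have c5 : L * (Real.exp (2 * ∑ p ∈ primesLE w, 1 / (p : ℝ)) / 2 ^ k) ≤ t :=
    calc _ ≤ L * (l / l ^ (A + 3)) := by gcongr
      _ = _ := by rw [ht]; field_simp; ring
  refine (min_core hz α x L k).trans ?_
  calc _ ≤ l * (l * t) := by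
        refine mul_le_mul a4 ?_ (by positivity) (by linarith)
        nlinarith
    _ = _ := by rw [ht]; field_simp; ring

theorem minW : MinW := by
  intro ε hε A
  refine ⟨A + 1 + 3, fun B => ?_⟩
  filter_upwards [min_pt hε (A + 1) B, tendsto_L.eventually_ge_atTop 2, eventually_ge_atTop 1]
    with X h h2 hX w L α hw _ hF
  have hX' : (1 : ℝ) ≤ X := by exact_mod_cast hX
  calc _ ≤ ∑ _x ∈ range (X + 1), ((L : ℝ) / Real.log X ^ (A + 1)) ^ 2 :=
        sum_le_sum fun x _ => pow_le_pow_left₀ (norm_nonneg _) (h w L α hw hF x) 2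
    _ = (L : ℝ) ^ 2 * (X + 1) / (Real.log X ^ A * Real.log X ^ (A + 2)) := by
        rw [sum_const, card_range, nsmul_eq_mul]; push_cast; field_simp; ring
    _ ≤ (L : ℝ) ^ 2 * (X * 2) / (Real.log X ^ A * 2) := by
        gcongr
        · linarith
        · exact h2.trans (le_self_pow₀ (by linarith) (by omega))
    _ = _ := by field_simp

end Pool.Agent.Lib.MP_68a45e_nt.CMod
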