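import Pool.Agent.Lib.MP_68a45e_nt.CSize

/-! The tail of the singular series, uniformly in the shifts. -/

namespace Pool.Agent.Lib.MP_68a45e_nt.Av

open Finset Filter Topology N9a2a6718

/-- local factor -/
noncomputable def gf (K ν q : ℕ) : ℝ := (1 - (ν : ℝ) / q) / (1 - 1 / q) ^ K

lemma gf_bounds {K ν q : ℕ} (hν : ν ≤ K) (hK : 1 ≤ K) (h2 : 2 * K ≤ q) :
    1 - (K : ℝ) ^ 2 * ((q : ℝ) ^ 2)⁻¹ ≤ gf K ν q ∧ gf K ν q ≤ 1 + 2 * K / q ∧
      (ν = K → gf K ν q ≤ 1) := by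
  have hK' : (1 : ℝ) ≤ K := by exact_mod_cast hK
  have hν' : (ν : ℝ) ≤ K := by exact_mod_cast hν
  have h2' : 2 * (K : ℝ) ≤ q := by exact_mod_cast h2
  have hq : (0 : ℝ) < q := by linarith
  set x : ℝ := 1 / q with hx
  have hx0 : 0 ≤ x := by positivity
  have hx1 : (K : ℝ) * x ≤ 1 / 2 := by
    rw [hx, mul_one_div, div_le_div_iff₀ hq (by norm_num)]; linarith
  have hx2 : x ≤ 1 := by nlinarith
  have b1 := one_add_mul_le_pow (show -2 ≤ -x by linarith) K
  have b2 := one_sub_pow_le x hx0 hx2 K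
  rw [← sub_eq_add_neg] at b1
  have b3 : 0 < (1 - x) ^ K := by linarith
  have e2 : ((q : ℝ) ^ 2)⁻¹ = x ^ 2 := by rw [hx]; field_simp
  have a1 := mul_le_mul_of_nonneg_right hν' hx0
  have a2 : 0 ≤ (ν : ℝ) * x := by positivity
  have a3 : 0 ≤ (K : ℝ) * x := by positivity
  rw [gf, e2, div_eq_mul_one_div (ν : ℝ), div_eq_mul_one_div (2 * K : ℝ), ← hx, le_div_iff₀ b3,
    div_le_one b3, div_le_iff₀ b3]
  refine ⟨?_, ?_, ?_⟩
  · have : 0 ≤ (K : ℝ) ^ 2 * x ^ 2 := by positivity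
    nlinarith
  · nlinarith [mul_le_mul_of_nonneg_left b1 (show 0 ≤ 1 + 2 * K * x by linarith)]
  · rintro rfl; linarith

lemma card_pf_le {D : ℕ} (hD : D ≠ 0) : (D.primeFactors.card : ℝ) ≤ 2 * Real.log D := by
  have h1 : 2 ^ D.primeFactors.card ≤ D :=
    (pow_card_le_prod _ _ _ fun p hp => (Nat.prime_of_mem_primeFactors hp).two_le).trans
      (Nat.le_of_dvd (Nat.pos_of_ne_zero hD) (Nat.prod_primeFactors_dvd D))
  have h2 := Real.log_le_log (by positivity) (show ((2 : ℝ) ^ D.primeFactors.card) ≤ D by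
    exact_mod_cast h1)
  rw [Real.log_pow] at h2
  have : (0 : ℝ) ≤ D.primeFactors.card := by positivity
  nlinarith [Real.log_two_gt_d9]

lemma tail_sum {K w D : ℕ} (ν : ℕ → ℕ) (hK : 1 ≤ K) (hw : 2 * K ≤ w) (hD : D ≠ 0) (S : Finset ℕ)
    (hS : ∀ q ∈ S, q.Prime ∧ w < q) (h1 : ∀ q ∈ S, ν q ≤ K) (h2 : ∀ q ∈ S, ¬ q ∣ D → ν q = K) :
    ∑ q ∈ S, |gf K (ν q) q - 1| ≤ ((K : ℝ) ^ 2 + 4 * K * Real.log D) / w := by
  have hw0 : (0 : ℝ) < w := by exact_mod_cast (by omega : 0 < w)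
  have a1 : ∑ q ∈ S, ((q : ℝ) ^ 2)⁻¹ ≤ (w : ℝ)⁻¹ := by
    have h5 := sum_Ioc_inv_sq_le_sub (α := ℝ) (k := w) (n := w + S.sup id) (by omega) (by omega)
    have h6 : (0 : ℝ) ≤ ((w + S.sup id : ℕ) : ℝ)⁻¹ := by positivity
    refine le_trans (sum_le_sum_of_subset_of_nonneg (fun q hq => mem_Ioc.2 ⟨(hS q hq).2, ?_⟩)
      fun _ _ _ => by positivity) (h5.trans (by linarith))
    exact (le_sup (f := id) hq).trans (Nat.le_add_left _ _)
  have a2 : ((S.filter (· ∣ D)).card : ℝ) ≤ 2 * Real.log D := by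
    refine le_trans ?_ (card_pf_le hD)
    exact_mod_cast card_le_card fun q hq =>
      Nat.mem_primeFactors.2 ⟨(hS q (mem_filter.1 hq).1).1, (mem_filter.1 hq).2, hD⟩
  calc _ ≤ ∑ q ∈ S, ((K : ℝ) ^ 2 * ((q : ℝ) ^ 2)⁻¹ + if q ∣ D then 2 * (K : ℝ) / w else 0) := by
        refine sum_le_sum fun q hq => ?_
        have hq' := (hS q hq).2
        obtain ⟨b1, b2, b3⟩ := gf_bounds (q := q) (h1 q hq) hK (by omega)
        have c1 : 0 ≤ (K : ℝ) ^ 2 * ((q : ℝ) ^ 2)⁻¹ := by positivity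
        have c2 : 2 * (K : ℝ) / q ≤ 2 * K / w := by gcongr
        have c3 : 0 ≤ 2 * (K : ℝ) / w := by positivity
        rw [abs_le]
        split_ifs with h
        · constructor <;> linarith
        · constructor <;> linarith [b3 (h2 q hq h)]
    _ = (K : ℝ) ^ 2 * ∑ q ∈ S, ((q : ℝ) ^ 2)⁻¹ + (S.filter (· ∣ D)).card * (2 * (K : ℝ) / w) := by
        rw [sum_add_distrib, ← mul_sum, ← sum_filter, sum_const, nsmul_eq_mul]
    _ ≤ (K : ℝ) ^ 2 * (w : ℝ)⁻¹ + 2 * Real.log D * (2 * (K : ℝ) / w) := by gcongr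
    _ = _ := by field_simp; ring

lemma prod_near_one {S : Finset ℕ} {f : ℕ → ℝ} {η : ℝ} (h : ∑ q ∈ S, |f q - 1| ≤ η) (h1 : η ≤ 1) :
    |∏ q ∈ S, f q - 1| ≤ 2 * η := by
  have h0 : 0 ≤ η := (sum_nonneg fun _ _ => abs_nonneg _).trans h
  have a := norm_prod_one_add_sub_one_le S (fun q => f q - 1)
  simp only [add_sub_cancel, Real.norm_eq_abs] at a
  have b := Real.abs_exp_sub_one_le (x := η) (by rwa [abs_of_nonneg h0])
  rw [abs_of_nonneg h0] at b
  have c := Real.exp_le_exp.2 h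
  linarith [le_abs_self (Real.exp η - 1)]

variable {k : ℕ}

lemma PP_split (m : Fin k.succ → ℕ) {w N : ℕ} (hw : 2 ≤ w) (hN : w + 1 ≤ N) :
    HardyLittlewoodPartialProduct m N = HardyLittlewoodPartialProduct m (w + 1) *
      ∏ q ∈ (Nat.primesBelow N).filter (w < ·), fac m q := by
  rw [PP_eq, PP_eq, mul_assoc, ← prod_filter_mul_prod_filter_not _ (· ≤ w)]
  congr 3 <;> ext q <;> simp only [mem_filter, Nat.mem_primesBelow] <;> grind

lemma PP_le (m : Fin k.succ → ℕ) {w : ℕ} (hw : 2 ≤ w) : HardyLittlewoodPartialProduct m (w + 1) ≤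
    ((primorial w : ℝ) / (primorial w).totient) ^ k.succ := by
  set U := Nat.primesBelow (w + 1) with hU
  have hUp : ∀ p ∈ U, p.Prime := fun p hp => Nat.prime_of_mem_primesBelow hp
  have eW : primorial w = ∏ p ∈ U, p := rfl
  have ePF : (primorial w).primeFactors = U := by rw [eW]; exact Nat.primeFactors_prod hUp
  have hW0 : (0 : ℝ) < primorial w := by exact_mod_cast primorial_pos w
  have e2 : (primorial w : ℝ) / (primorial w).totient = ∏ p ∈ U, (1 - 1 / (p : ℝ))⁻¹ := by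
    have := Nat.totient_eq_mul_prod_factors (primorial w)
    rw [ePF] at this
    have h2 := congrArg (fun z : ℚ => (z : ℝ)) this
    push_cast at h2
    rw [h2, div_mul_cancel_left₀ hW0.ne']
    simp
  have e3 : U = insert 2 (U.filter (fun q => 3 ≤ q)) := by
    ext p
    simp only [mem_insert, mem_filter]
    constructor
    · intro hp
      have := (hUp p hp).two_le
      by_cases e : p = 2
      · exact Or.inl e
      · exact Or.inr ⟨hp, by omega⟩
    · rintro (rfl | h)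
      · exact Nat.mem_primesBelow.mpr ⟨by omega, Nat.prime_two⟩
      · exact h.1
  rw [e2, PP_eq, ← hU]
  conv_rhs => rw [e3]
  rw [prod_insert (by simp), mul_pow, ← prod_pow]
  refine mul_le_mul ?_ (prod_le_prod (fun q hq => fac_nonneg m ?_) fun q hq => ?_)
    (prod_nonneg fun q hq => fac_nonneg m ?_) (by norm_num)
  · norm_num; exact pow_le_pow_right₀ one_le_two (Nat.le_succ k)
  · have := (mem_filter.1 hq).2; omega
  · have h3 : (3 : ℝ) ≤ q := by exact_mod_cast (mem_filter.1 hq).2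
    have h1 : (0 : ℝ) < 1 - 1 / q := by rw [sub_pos, div_lt_one (by linarith)]; linarith
    rw [fac, inv_pow, ← one_div (_ ^ _)]
    gcongr
    exact sub_le_self _ (by positivity)
  · have := (mem_filter.1 hq).2; omega

/-- product of the differences of the shifts -/
def disc (m : Fin k.succ → ℕ) : ℕ := ∏ p ∈ univ.offDiag, ((m p.2 : ℤ) - m p.1).natAbs

lemma disc_ne (m : Fin k.succ → ℕ) (hm : Function.Injective m) : disc m ≠ 0 :=
  prod_ne_zero_iff.2 fun p hp h => (mem_offDiag.1 hp).2.2 (hm (by omega))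

lemma disc_le (m : Fin k.succ → ℕ) {Y : ℕ} (hY : 1 ≤ Y) (h : ∀ i, m i ≤ Y) :
    disc m ≤ Y ^ (k.succ ^ 2) := by
  refine (prod_le_pow_card _ _ Y fun p _ => ?_).trans (pow_le_pow_right₀ hY ?_)
  · have := h p.1; have := h p.2; omega
  · simp [offDiag_card, sq]

lemma numRes_le' (m : Fin k.succ → ℕ) (q : ℕ) : N9a2a6718.Nat.numResidues q m ≤ k.succ := by
  rw [numRes_eq]; exact card_image_le.trans (by simp)

lemma numRes_of_not_dvd (m : Fin k.succ → ℕ) {q : ℕ} (h : ¬ q ∣ disc m) :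
    N9a2a6718.Nat.numResidues q m = k.succ := by
  rw [numRes_eq, card_image_of_injective]
  · simp
  · intro i j hij
    by_contra hne
    refine h (dvd_trans ?_ (dvd_prod_of_mem _ (mem_offDiag.2 ⟨mem_univ i, mem_univ j, hne⟩ :
      (i, j) ∈ univ.offDiag)))
    exact Int.natCast_dvd.1 (Nat.modEq_iff_dvd.1 ((ZMod.natCast_eq_natCast_iff _ _ _).1 hij))

lemma tail_fin (m : Fin k.succ → ℕ) (hm : Function.Injective m) {w : ℕ} (hw : 2 * k.succ ≤ w)
    {η : ℝ} (h : ((k.succ : ℝ) ^ 2 + 4 * k.succ * Real.log (disc m)) / w ≤ η) (h1 : η ≤ 1) :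
    |HardyLittlewoodPartialProduct m (w + 1) - CS m| ≤
      HardyLittlewoodPartialProduct m (w + 1) * (2 * η) := by
  refine le_of_tendsto (((conv k m hm).2.const_sub _).abs) ?_
  filter_upwards [eventually_ge_atTop (w + 1)] with N hN
  have a := prod_near_one ((tail_sum (fun q => N9a2a6718.Nat.numResidues q m) (Nat.succ_pos k) hw
    (disc_ne m hm) ((Nat.primesBelow N).filter (w < ·)) (fun q hq =>
      ⟨Nat.prime_of_mem_primesBelow (mem_filter.1 hq).1, (mem_filter.1 hq).2⟩)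
    (fun q _ => numRes_le' m q) fun q _ => numRes_of_not_dvd m).trans h) h1
  rw [PP_split m (w := w) (N := N) (by omega) hN, ← mul_one_sub, abs_mul,
    abs_of_nonneg (PP_nonneg m _), abs_sub_comm]
  exact mul_le_mul_of_nonneg_left a (PP_nonneg m _)

theorem tail : Tail := fun k A => ⟨A + k.succ + 2, fun B => by
  filter_upwards [ratio_ev B, tendsto_logX.eventually_ge_atTop (18 * (k.succ : ℝ) ^ 3),
    eventually_ge_atTop 3] with X h1 h2 h3 w m w1 w2 hm hX
  set L := Real.log X with hL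
  have hK : (1 : ℝ) ≤ k.succ := by exact_mod_cast Nat.succ_pos k
  set K : ℝ := ((k.succ : ℕ) : ℝ) with hKd
  have k2 : K ≤ K ^ 3 := le_self_pow₀ hK (by norm_num)
  have k3 : K ^ 2 ≤ K ^ 3 := pow_le_pow_right₀ hK (by norm_num)
  have L1 : 1 ≤ L := by linarith
  have X3 : (3 : ℝ) ≤ X := by exact_mod_cast h3
  have w3 : L ^ 2 ≤ w := (pow_le_pow_right₀ L1 (by omega)).trans w1
  have w4 : 2 * k.succ ≤ w := by
    have : 2 * K ≤ w := by nlinarith
    rw [hKd] at this; exact_mod_cast this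
  have d1 : Real.log (disc m) ≤ K ^ 2 * (2 * L) := by
    have a : (disc m : ℝ) ≤ (3 * X) ^ (k.succ ^ 2) := by
      exact_mod_cast disc_le m (by omega) hX
    have b := Real.log_le_log (by exact_mod_cast Nat.pos_of_ne_zero (disc_ne m hm)) a
    rw [Real.log_pow, Real.log_mul (by norm_num) (by linarith), Nat.cast_pow] at b
    refine b.trans ?_
    gcongr
    linarith [Real.log_le_log (by norm_num) X3]
  have w0 : (0 : ℝ) < w := by nlinarith
  have d2 : (K ^ 2 + 4 * K * Real.log (disc m)) / w ≤ L ^ 2 / 2 / w := by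
    gcongr
    nlinarith [mul_le_mul_of_nonneg_left d1 (show 0 ≤ 4 * K by linarith)]
  refine (tail_fin m hm w4 d2 (by rw [div_le_one w0]; nlinarith)).trans ?_
  calc _ ≤ L ^ k.succ * (2 * (L ^ 2 / 2 / L ^ (A + k.succ + 2))) := by
        gcongr
        exact (PP_le m (by omega)).trans (by gcongr; exact h1 w w2)
    _ = _ := by field_simp; ring⟩

end Pool.Agent.Lib.MP_68a45e_nt.Av
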