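import Pool.Agent.Lib.MP_68a45e_nt.CUnif1

/-! Local Fourier uniformity of the von Mangoldt function minus the sieve model. -/

namespace Pool.Agent.Lib.MP_68a45e_nt.Av

open Finset Complex Filter
open Pool.Agent.Lib.MP_68a45e_nt.CMin

lemma un_ev (ε : ℝ) (hε : 0 < ε) (A : ℕ) (C : ℝ) :
    ∀ᶠ X : ℕ in atTop, C * Real.log X ^ A ≤ (X : ℝ) ^ ε := by
  have h1 := (isLittleO_log_rpow_rpow_atTop (A : ℝ) hε).const_mul_left C
  have h2 := h1.bound (c := 1) one_pos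
  filter_upwards [tendsto_natCast_atTop_atTop.eventually h2] with X hX
  rw [one_mul, Real.norm_of_nonneg (by positivity : (0 : ℝ) ≤ (X : ℝ) ^ ε), Real.rpow_natCast] at hX
  exact (le_abs_self _).trans hX

lemma un_log (C : ℝ) : ∀ᶠ X : ℕ in atTop, C ≤ Real.log X :=
  (Real.tendsto_log_atTop.comp tendsto_natCast_atTop_atTop).eventually_ge_atTop C

lemma Far_mono {α Q Q' d : ℝ} (h : Far α Q d) (hQ : Q' ≤ Q) : Far α Q' d :=
  fun q h1 h2 c => h q h1 (h2.trans hQ) c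

lemma class_split (w q s h y : ℕ) (δ : ℝ)
    (hW : ‖∑ n ∈ (Ioc y (y + h)).filter (fun n => n ≡ s [MOD q]), LW w n -
      (if s.Coprime q then (h : ℂ) / q.totient else 0)‖ ≤ δ) :
    ‖∑ n ∈ (Ioc y (y + h)).filter (fun n => n ≡ s [MOD q]), (vM n - LW w n)‖ ^ 2 ≤
      2 * |∑ n ∈ (Ioc y (y + h)).filter (fun n => n ≡ s [MOD q]),
        ArithmeticFunction.vonMangoldt n - (if s.Coprime q then (h : ℝ) / q.totient else 0)| ^ 2 +
      2 * δ ^ 2 := by
  set a : ℝ := ∑ n ∈ (Ioc y (y + h)).filter (fun n => n ≡ s [MOD q]),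
        ArithmeticFunction.vonMangoldt n - (if s.Coprime q then (h : ℝ) / q.totient else 0) with ha
  set b : ℂ := ∑ n ∈ (Ioc y (y + h)).filter (fun n => n ≡ s [MOD q]), LW w n -
      (if s.Coprime q then (h : ℂ) / q.totient else 0) with hb
  have h1 : ∑ n ∈ (Ioc y (y + h)).filter (fun n => n ≡ s [MOD q]), (vM n - LW w n) =
      (a : ℂ) - b := by
    rw [ha, hb, sum_sub_distrib]
    unfold vM
    split_ifs <;> push_cast <;> ring
  rw [h1]
  have h2 : ‖(a : ℂ) - b‖ ≤ |a| + δ := by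
    refine (norm_sub_le _ _).trans ?_
    rw [Complex.norm_real, Real.norm_eq_abs]; linarith
  have h3 := pow_le_pow_left₀ (norm_nonneg _) h2 2
  nlinarith [sq_nonneg (|a| - δ)]

theorem unif (hA : ∀ θ : ℝ, 1 / 9 < θ → APA θ) (hW : APW) (hS : SizeW) (hL : MinL) (hM : MinW)
    {θ : ℝ} (hθ : 1 / 9 < θ) : Unif θ := by
  intro A
  obtain ⟨ε, hε, hθ1⟩ : ∃ ε : ℝ, 0 < ε ∧ θ = 1 / 9 + 4 * ε := ⟨(θ - 1 / 9) / 4, by linarith, by ring⟩
  obtain ⟨B1, hB1⟩ := hL ε hε (A + 1)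
  obtain ⟨B2, hB2⟩ := hM ε hε (A + 1)
  refine ⟨B1 + B2, fun B => ?_⟩
  have hA2 := (tendsto_id.const_mul_atTop' (by norm_num : 0 < (2 : ℕ))).eventually
    (hA (1 / 9 + ε) (by linarith) (A + 2 * (B1 + B2) + 1) (B1 + B2))
  filter_upwards [hB1, hB2 B, hA2, hW (1 / 9 + ε) (by linarith) (A + 2 * (B1 + B2) + 1) B, hS B,
    un_log 40, un_ev ε hε (A + 1) 100, un_ev ε hε 0 (2 * (2 ^ (1 / 9 + ε) + 1)),
    eventually_ge_atTop 2] with X h1 h2 h3 h4 h5 hl he1 he2 hX2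
  intro w L α hw1 hw2 hL1 hL2
  simp only [id] at h3
  have hX : (2 : ℝ) ≤ X := by exact_mod_cast hX2
  have hX0 : (0 : ℝ) < X := by linarith
  set l := Real.log X with hldef
  have hl1 : 1 ≤ l := by linarith
  have hlA : 0 < l ^ A := by positivity
  by_cases hF : Far α (l ^ (B1 + B2)) ((X : ℝ) ^ ε / L)
  · have a1 := h1 L α hL2 (Far_mono hF (pow_le_pow_right₀ hl1 (by omega)))
    have a2 := h2 w L α hw2 hL2 (Far_mono hF (pow_le_pow_right₀ hl1 (by omega)))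
    refine (WE_sub _ _ _ _ _).trans ?_
    have a3 : (L : ℝ) ^ 2 * X / l ^ (A + 1) ≤ (L : ℝ) ^ 2 * X / l ^ A / 4 := by
      rw [div_div, pow_succ l A]
      exact div_le_div_of_nonneg_left (by positivity) (by positivity)
        (mul_le_mul_of_nonneg_left (by linarith) hlA.le)
    linarith
  unfold Far at hF
  push Not at hF
  obtain ⟨q, hq1, hq2, c, hc⟩ := hF
  set u := (X : ℝ) ^ ε with hu
  have hu1 : 1 ≤ u := Real.one_le_rpow (by linarith) hε.le
  set v := (X : ℝ) ^ (1 / 9 + ε) with hv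
  have hv1 : 1 ≤ v := Real.one_le_rpow (by linarith) (by linarith)
  have hLv : v * u ^ 3 ≤ L := by
    refine le_trans (le_of_eq ?_) hL1
    rw [hu, hv, ← Real.rpow_natCast, ← Real.rpow_mul hX0.le, ← Real.rpow_add hX0, hθ1]
    congr 1; push_cast; ring
  obtain ⟨K, hK1, hK2⟩ : ∃ K : ℕ, u ^ 2 ≤ K ∧ (K : ℝ) ≤ 2 * u ^ 2 :=
    ⟨⌈u ^ 2⌉₊, Nat.le_ceil _, by
      have := Nat.ceil_lt_add_one (by positivity : 0 ≤ u ^ 2)
      have := one_le_pow₀ (n := 2) hu1
      linarith⟩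
  have hK0 : (0 : ℝ) < K := lt_of_lt_of_le (by positivity) hK1
  have hKp : 0 < K := by exact_mod_cast hK0
  obtain ⟨h, r, hr, hLe⟩ : ∃ h r : ℕ, r < K ∧ L = K * h + r :=
    ⟨L / K, L % K, Nat.mod_lt _ hKp, (Nat.div_add_mod L K).symm⟩
  have hLr : (L : ℝ) = K * h + r := by rw [hLe]; push_cast; ring
  have hrK : (r : ℝ) ≤ K := by exact_mod_cast hr.le
  have hr0 : (0 : ℝ) ≤ r := by positivity
  have hh0 : (0 : ℝ) ≤ h := by positivity
  have hL0 : (0 : ℝ) < L := lt_of_lt_of_le (by positivity) hLv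
  have hLX : L ≤ X := le_trans (Nat.le_self_pow two_ne_zero L) hL2
  have t1 : (1 : ℝ) ≤ 2 ^ (1 / 9 + ε) := Real.one_le_rpow (by norm_num) (by linarith)
  have hh1 : 2 ^ (1 / 9 + ε) * v ≤ h := by
    rw [pow_zero, mul_one] at he2
    have b0 : (K : ℝ) * (h + 1) ≤ 2 * u ^ 2 * (h + 1) :=
      mul_le_mul_of_nonneg_right hK2 (by positivity)
    have b1 : v * u ^ 3 ≤ 2 * u ^ 2 * (h + 1) := by linarith
    have b2 : v * u ≤ 2 * (h + 1) := by
      have : u ^ 2 * (v * u) ≤ u ^ 2 * (2 * (h + 1)) := by linarith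
      exact le_of_mul_le_mul_left this (by positivity)
    have b3 := mul_le_mul_of_nonneg_left he2 (by positivity : 0 ≤ v)
    linarith
  have hh2 : v ≤ h := (le_mul_of_one_le_left (by positivity) t1).trans hh1
  have hh3 : ((2 * X : ℕ) : ℝ) ^ (1 / 9 + ε) ≤ h := by
    push_cast
    rw [Real.mul_rpow (by norm_num) hX0.le]; exact hh1
  have hKh : (K : ℝ) * h ≤ L := by linarith
  have hhL : h ≤ 2 * X := by
    have : h ≤ K * h := Nat.le_mul_of_pos_left _ hKp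
    omega
  have hl2 : l ≤ Real.log (2 * X : ℕ) := by
    push_cast
    exact Real.log_le_log hX0 (by linarith)
  have hl3 : Real.log (2 * X : ℕ) ≤ 2 * l := by
    push_cast
    rw [Real.log_mul (by norm_num) hX0.ne']
    have := Real.log_le_log (by norm_num) hX
    linarith
  have hqw : q ≤ w := by exact_mod_cast hq2.trans hw1
  set A' := A + 2 * (B1 + B2) + 1 with hA'
  have hlA' : 1 ≤ l ^ A' := one_le_pow₀ hl1
  have hD : ∀ s ∈ range q, ∑ y ∈ range (2 * X + 1),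
      ‖∑ n ∈ (Ioc y (y + h)).filter (fun n => n ≡ s [MOD q]), (vM n - LW w n)‖ ^ 2 ≤
        10 * ((h : ℝ) ^ 2 * X / l ^ A') := by
    intro s _
    have c1 := h3 h q s hh3 hhL hq1 (hq2.trans (pow_le_pow_left₀ (by linarith) hl2 _))
    have c2 : (h : ℝ) ^ 2 * (2 * X : ℕ) / Real.log (2 * X : ℕ) ^ A' ≤
        2 * ((h : ℝ) ^ 2 * X / l ^ A') := by
      have : (h : ℝ) ^ 2 * (2 * X : ℕ) / Real.log (2 * X : ℕ) ^ A' ≤
          (h : ℝ) ^ 2 * (2 * X : ℕ) / l ^ A' :=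
        div_le_div_of_nonneg_left (by positivity) (by positivity)
          (pow_le_pow_left₀ (by linarith) hl2 _)
      refine this.trans (le_of_eq ?_)
      push_cast; ring
    refine (sum_le_sum fun y _ => class_split w q s h y _ (h4 w h q s y hw2 hh2 hq1 hqw)).trans ?_
    rw [sum_add_distrib, ← mul_sum]
    simp only [sum_const, card_range, nsmul_eq_mul]
    have c3 : ((h : ℝ) / l ^ A') ^ 2 ≤ (h : ℝ) ^ 2 / l ^ A' := by
      rw [div_pow]
      exact div_le_div_of_nonneg_left (by positivity) (by positivity)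
        (le_self_pow₀ hlA' two_ne_zero)
    have c4 : ((2 * X + 1 : ℕ) : ℝ) * (2 * ((h : ℝ) / l ^ A') ^ 2) ≤
        (3 * X) * (2 * ((h : ℝ) ^ 2 / l ^ A')) := by
      have : ((2 * X + 1 : ℕ) : ℝ) ≤ 3 * X := by push_cast; linarith
      gcongr
    have c5 : (3 * X) * (2 * ((h : ℝ) ^ 2 / l ^ A')) = 6 * ((h : ℝ) ^ 2 * X / l ^ A') := by ring
    linarith
  have hFn : ∀ n, n ≤ 2 * X → ‖vM n - LW w n‖ ≤ 3 * l := by
    intro n hn
    refine (norm_sub_le _ _).trans ?_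
    have d1 := h5 w n hw2
    have d2 : ‖vM n‖ ≤ 2 * l := by
      unfold vM
      rw [Complex.norm_real, Real.norm_of_nonneg ArithmeticFunction.vonMangoldt_nonneg]
      refine ArithmeticFunction.vonMangoldt_le_log.trans (le_trans ?_ hl3)
      rcases Nat.eq_zero_or_pos n with rfl | hn0
      · simpa using hl1.trans hl2 |>.trans' zero_le_one
      · exact Real.log_le_log (by exact_mod_cast hn0) (by exact_mod_cast hn)
    linarith
  have hm := major (fun n => vM n - LW w n) (α - c / q) (3 * l) _ c q h K r X hq1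
    (hLe ▸ hLX) hFn hD
  rw [add_sub_cancel, ← hLe] at hm
  refine hm.trans ?_
  have e1 : (K : ℝ) ^ 2 * q ^ 2 * (10 * ((h : ℝ) ^ 2 * X / l ^ A')) ≤
      (L : ℝ) ^ 2 * X / l ^ A / 4 := by
    have f1 : (K : ℝ) ^ 2 * q ^ 2 * (10 * ((h : ℝ) ^ 2 * X / l ^ A')) =
        10 * ((K * h) ^ 2 * q ^ 2 * X / l ^ A') := by ring
    have f2 : ((K : ℝ) * h) ^ 2 * q ^ 2 * X / l ^ A' ≤
        (L : ℝ) ^ 2 * (l ^ (B1 + B2)) ^ 2 * X / l ^ A' := by gcongr
    have f3 : (L : ℝ) ^ 2 * (l ^ (B1 + B2)) ^ 2 * X / l ^ A' = (L : ℝ) ^ 2 * X / l ^ A / l := by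
      rw [hA']; field_simp; ring
    have f4 : (L : ℝ) ^ 2 * X / l ^ A / l ≤ (L : ℝ) ^ 2 * X / l ^ A / 40 :=
      div_le_div_of_nonneg_left (by positivity) (by norm_num) hl
    rw [f1]; linarith
  have e2 : (K : ℝ) * (h * (3 * l * (7 * |α - c / q| * h))) + r * (3 * l) ≤ 27 * l * L / u := by
    have g1 : (h : ℝ) ≤ L / u ^ 2 := by
      rw [le_div_iff₀ (by positivity)]
      exact ((mul_le_mul_of_nonneg_left hK1 hh0).trans (le_of_eq (mul_comm _ _))).trans hKh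
    have g2 : (K : ℝ) * (h * (3 * l * (7 * |α - c / q| * h))) =
        (K * h) * (3 * l * (7 * |α - c / q| * h)) := by ring
    have g3 : ((K : ℝ) * h) * (3 * l * (7 * |α - c / q| * h)) ≤
        L * (3 * l * (7 * (u / L) * (L / u ^ 2))) := by gcongr
    have g4 : (L : ℝ) * (3 * l * (7 * (u / L) * (L / u ^ 2))) = 21 * l * L / u := by
      field_simp; ring
    have g5 : (r : ℝ) ≤ 2 * L / u := by
      rw [le_div_iff₀ (by positivity)]
      have k1 : u ^ 3 ≤ L := (le_mul_of_one_le_left (by positivity) hv1).trans hLv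
      have k2 : (r : ℝ) * u ≤ 2 * u ^ 2 * u :=
        mul_le_mul_of_nonneg_right (hrK.trans hK2) (by positivity)
      have k3 : 2 * u ^ 2 * u = 2 * u ^ 3 := by ring
      linarith
    have g6 : (r : ℝ) * (3 * l) ≤ 2 * L / u * (3 * l) := by gcongr
    have g7 : 2 * L / u * (3 * l) = 6 * l * L / u := by ring
    have g8 : 27 * l * L / u = 21 * l * L / u + 6 * l * L / u := by ring
    linarith
  have e3 : ((X : ℝ) + 1) * ((K : ℝ) * (h * (3 * l * (7 * |α - c / q| * h))) + r * (3 * l)) ^ 2 ≤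
      (L : ℝ) ^ 2 * X / l ^ A / 4 := by
    have g1 : ((X : ℝ) + 1) * ((K : ℝ) * (h * (3 * l * (7 * |α - c / q| * h))) + r * (3 * l)) ^ 2 ≤
        (2 * X) * (27 * l * L / u) ^ 2 := by
      gcongr; linarith
    refine g1.trans ?_
    have g2 : 27 * l * L / u ≤ 27 * l * L / (100 * l ^ (A + 1)) :=
      div_le_div_of_nonneg_left (by positivity) (by positivity) he1
    have g3 : 27 * l * L / (100 * l ^ (A + 1)) = 27 / 100 * (L / l ^ A) := by
      field_simp; ring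
    have g4 : (27 * l * L / u) ^ 2 ≤ (27 / 100 * (L / l ^ A)) ^ 2 := by
      rw [← g3]; gcongr
    have g5 : ((L : ℝ) / l ^ A) ^ 2 ≤ (L : ℝ) ^ 2 / l ^ A := by
      rw [div_pow]
      exact div_le_div_of_nonneg_left (by positivity) (by positivity)
        (le_self_pow₀ (one_le_pow₀ hl1) two_ne_zero)
    have g6 : (L : ℝ) ^ 2 * X / l ^ A / 4 = X * ((L : ℝ) ^ 2 / l ^ A / 4) := by ring
    rw [g6]
    have g7 : 2 * (27 * l * L / u) ^ 2 ≤ (L : ℝ) ^ 2 / l ^ A / 4 := by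
      have : (0 : ℝ) ≤ (L : ℝ) ^ 2 / l ^ A := by positivity
      rw [mul_pow] at g4
      linarith
    have g8 := mul_le_mul_of_nonneg_left g7 hX0.le
    linarith
  linarith

end Pool.Agent.Lib.MP_68a45e_nt.Av
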