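import Pool.Agent.Lib.MP_68a45e_nt.TwDet1

/-! Zero detection for Dirichlet L-functions. -/

namespace Pool.Agent.Lib.MP_68a45e_nt.Tw

open Complex Set Filter Topology MeasureTheory ArithmeticFunction
open Pool.Agent.Lib.MP_b09185_nt Pool.Agent.Lib.MP_b09185_nt.Sh Pool.Agent.Lib.MP_b09185_nt.Sh.Dt
open Pool.Agent.Lib.MP_b09185_nt.Mai
open scoped ArithmeticFunction.Moebius

/-- zero detection, uniform in the character -/
def TDet : Prop := ∃ η : ℝ, 0 < η ∧ ∃ Z0 : ℕ, ∀ Z : ℕ, Z0 ≤ Z →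
  ∀ (q : ℕ) [NeZero q] (χ : DirichletCharacter ℂ q), q ≤ Z → ∀ σ : ℝ, 5 / 9 ≤ σ → σ ≤ 1 →
  ∃ b1 b2 b3 : ℕ → ℂ, Dv b1 ∧ Dv b2 ∧ Dv b3 ∧ ∀ β γ : ℝ, σ ≤ β → β ≤ 1 → 1 ≤ |γ| →
    |γ| ≤ (Z : ℝ) ^ 1000 → χ.LFunction (β + γ * I) = 0 →
      η ≤ ‖DP Z b1 (β + γ * I)‖ ∨ η ≤ ‖DP Z b2 (β + γ * I)‖ ∨
        ∃ u : ℝ, |u| ≤ Real.log Z ∧ η ≤ ‖DP Z b3 (σ + (-(γ + u) : ℝ) * I)‖

namespace Dx

variable {q : ℕ} [NeZero q] (χ : DirichletCharacter ℂ q)

/-- the twisted mollifier -/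
noncomputable def MT (Z : ℕ) (w : ℂ) : ℂ :=
  ∑ d ∈ Finset.Icc 1 Z, χ d * ((μ d : ℂ) * (d : ℂ) ^ (-w))

/-- the twisted coefficients -/
noncomputable def ta (Z n : ℕ) : ℂ := χ n * aa Z n

omit [NeZero q] in
lemma tw_le (n : ℕ) (z : ℂ) : ‖χ n * z‖ ≤ ‖z‖ := by
  rw [norm_mul]
  exact mul_le_of_le_one_left (norm_nonneg _) (χ.norm_le_one _)

lemma ta_series (Z : ℕ) {w : ℂ} (hw : 1 < w.re) :
    LSeriesSummable (ta χ Z) w ∧ LSeries (ta χ Z) w = χ.LFunction w * MT χ Z w := by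
  set m : ℕ → ℂ := fun d => χ d * if d ≤ Z then (μ d : ℂ) else 0 with hm
  have e : ta χ Z = LSeries.convolution m fun n => χ n := by
    funext n
    rw [LSeries.convolution_def, ta, aa, Finset.mul_sum,
      ← Nat.sum_divisorsAntidiagonal fun d _ => χ n * if d ≤ Z then (μ d : ℂ) else 0]
    refine Finset.sum_congr rfl fun p hp => ?_
    rw [← (Nat.mem_divisorsAntidiagonal.1 hp).1, Nat.cast_mul, map_mul, hm]
    ring
  have h1 : LSeriesSummable m w := LSeriesSummable_of_bounded_of_one_lt_re (m := 1)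
    (fun n _ => (tw_le χ n _).trans (by
      split_ifs
      · exact norm_mu n
      · simp)) hw
  have h2 := χ.LSeriesSummable_of_one_lt_re hw
  rw [e]
  refine ⟨h1.convolution h2, ?_⟩
  rw [LSeries_convolution' h1 h2, ← χ.LFunction_eq_LSeries hw, mul_comm, LSeries,
    tsum_eq_sum (s := Finset.Icc 1 Z)]
  · congr 1
    refine Finset.sum_congr rfl fun d hd => ?_
    rw [Finset.mem_Icc] at hd
    rw [LSeries.term_of_ne_zero (by omega), hm, cpow_neg, div_eq_mul_inv]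
    simp [hd.2, mul_assoc]
  · intro d hd
    rcases eq_or_ne d 0 with rfl | h
    · simp
    · rw [Finset.mem_Icc] at hd
      rw [LSeries.term_of_ne_zero h, hm]
      simp [show ¬ d ≤ Z by omega]

omit [NeZero q] in
lemma MT_le (Z k : ℕ) {w : ℂ} (hw : -(k : ℝ) ≤ w.re) : ‖MT χ Z w‖ ≤ (Z : ℝ) ^ (k + 1) := by
  refine (norm_sum_le_of_le _ (n := fun _ => (Z : ℝ) ^ k) fun d hd =>
    (tw_le χ d _).trans ?_).trans (by simp [pow_succ'])
  rw [norm_mul]
  simpa using mul_le_mul (norm_mu d) (norm_pow_le hd hw) (norm_nonneg _) zero_le_one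

omit [NeZero q] in
lemma MT_diff (Z : ℕ) : Differentiable ℂ (MT χ Z) :=
  Differentiable.fun_sum fun _ hd => ((diff_pow hd).const_mul _).const_mul _

omit [NeZero q] in
lemma Dv_tw {b : ℕ → ℂ} (h : Dv b) : Dv fun n => χ n * b n := fun n => (tw_le χ n _).trans (h n)

lemma right : ∃ C : ℝ, 0 ≤ C ∧ ∀ Z : ℕ, 1 ≤ Z → 1 ≤ Real.log Z →
    ∀ (q : ℕ) [NeZero q] (χ : DirichletCharacter ℂ q) (ρ : ℂ), 0 ≤ ρ.re → 1 ≤ |ρ.im| →
    1 / 2 ≤ ‖∫ u : ℝ, χ.LFunction (ρ + ((2 : ℝ) + u * I)) * MT χ Z (ρ + ((2 : ℝ) + u * I)) *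
      kk ρ ((2 : ℝ) + u * I) * EE (yy Z) ((2 : ℝ) + u * I)‖ + C / Z +
        9 * ‖DP Z (fun n => χ n * b1 Z n) ρ‖ + 3 * ‖DP Z (fun n => χ n * b2 Z n) ρ‖ := by
  obtain ⟨E, hE0, hE⟩ : ∃ E : ℝ, 0 ≤ E ∧ ∀ x : ℝ, VV x ≤ E * Real.exp (200 * x) ∧
      Real.exp (-x ^ 2 / 2) ≤ E * Real.exp (200 * x) :=
    ⟨Real.exp (200 ^ 2 / 2), (Real.exp_pos _).le, fun x =>
      ⟨Real.exp_add _ _ ▸ VV_dec (by norm_num) x, Real.exp_add _ _ ▸ gauss_le 200 x⟩⟩
  refine ⟨12 * E + 3, by positivity, fun Z hZ hL q _ χ ρ h0 h1 => ?_⟩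
  have hZ' : (1 : ℝ) ≤ Z := by exact_mod_cast hZ
  have hre : ∀ u : ℝ, 1 < (ρ + ((2 : ℝ) + u * I)).re := fun u => by
    simp
    linarith
  have hs : LSeriesSummable (LSeries.term (ta χ Z) ρ) (2 : ℝ) := by
    have := (ta_series χ Z (hre 0)).1
    simp only [LSeriesSummable, ofReal_zero, zero_mul, add_zero] at this ⊢
    exact this.congr fun n => (term_term _ _ _ n).symm
  have hk : Continuous fun u : ℝ => kk ρ ((2 : ℝ) + u * I) :=
    (Continuous.inv₀ (by fun_prop) fun u h => by simpa using congrArg re h).add continuous_const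
  have hS := ker_LSeries (LSeries.term_zero _ _) hs (yy Z) hk (K := 19)
    (fun u => kk_le h1 (by norm_num))
  have e : ∀ u : ℝ, LSeries (LSeries.term (ta χ Z) ρ) ((2 : ℝ) + u * I) =
      χ.LFunction (ρ + ((2 : ℝ) + u * I)) * MT χ Z (ρ + ((2 : ℝ) + u * I)) := fun u => by
    rw [← (ta_series χ Z (hre u)).2]
    simp only [LSeries, term_term]
  simp only [e, kk_int, ← mul_assoc] at hS
  set S := ∫ u : ℝ, χ.LFunction (ρ + ((2 : ℝ) + u * I)) * MT χ Z (ρ + ((2 : ℝ) + u * I)) *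
      kk ρ ((2 : ℝ) + u * I) * EE (yy Z) ((2 : ℝ) + u * I)
  set r := √(2 * Real.pi) with hr
  have r1 : 1 ≤ r := one_le_sqrt_two_pi
  have r3 : r ≤ 3 := sqrt_two_pi_le
  have hi := inv_le_one h1
  have hN : Z ≤ Z ^ 560 := Nat.le_self_pow (by decide) Z
  have ht := tail_le (A := 6 * E * (Z : ℝ) ^ (550 * 200)) (N := Z ^ 560) (j := 197)
    (hZ.trans hN) hS fun n hn => by
      have hn0 : n ≠ 0 := by omega
      have hn1 : (1 : ℝ) ≤ n := by exact_mod_cast Nat.one_le_iff_ne_zero.2 hn0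
      have a1 : ‖LSeries.term (ta χ Z) ρ n‖ ≤ n := by
        rw [LSeries.norm_term_eq, if_neg hn0]
        refine (div_le_self (norm_nonneg _) (Real.one_le_rpow hn1 h0)).trans 
          (((tw_le χ n _).trans (aa_le Z n)).trans ?_)
        exact_mod_cast Nat.card_divisors_le_self n
      have a2 : Real.exp (200 * (yy Z - Real.log n)) = (Z : ℝ) ^ (550 * 200) / (n : ℝ) ^ 200 := by
        rw [mul_sub, Real.exp_sub, ← exp_yy hZ 200, ← Real.exp_log (show (0 : ℝ) < n by linarith),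
          ← Real.exp_nat_mul, Real.log_exp]
        norm_num
      obtain ⟨a3, a4⟩ := hE (yy Z - Real.log n)
      rw [a2] at a3 a4
      have a5 : ‖(VV (yy Z - Real.log n) : ℂ) +
          (ρ - 1)⁻¹ * (Real.exp (-(yy Z - Real.log n) ^ 2 / 2) : ℝ)‖ ≤
          2 * (E * ((Z : ℝ) ^ (550 * 200) / (n : ℝ) ^ 200)) := by
        refine (norm_add_le _ _).trans ?_
        rw [norm_mul, norm_real, norm_real, Real.norm_of_nonneg (VV_nonneg _),
          Real.norm_of_nonneg (Real.exp_pos _).le]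
        nlinarith [Real.exp_pos (-(yy Z - Real.log n) ^ 2 / 2), norm_nonneg (ρ - 1)⁻¹]
      rw [norm_mul, norm_mul, norm_real, Real.norm_of_nonneg (by linarith)]
      calc _ ≤ n * 3 * (2 * (E * ((Z : ℝ) ^ (550 * 200) / (n : ℝ) ^ 200))) := by gcongr
        _ = _ := by
          generalize (Z : ℝ) ^ (550 * 200) = W
          field_simp
          ring
  have ht2 : 2 * (6 * E * (Z : ℝ) ^ (550 * 200) / ((Z ^ 560 : ℕ) : ℝ) ^ 197) ≤ 12 * E / Z := by
    rw [Nat.cast_pow, ← pow_mul, ← mul_div_assoc, div_le_div_iff₀ (by positivity) (by positivity),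
      show 2 * (6 * E * (Z : ℝ) ^ (550 * 200)) * Z = 12 * E * (Z : ℝ) ^ (550 * 200 + 1) by
        rw [pow_succ]; ring]
    exact mul_le_mul_of_nonneg_left (pow_le_pow_right₀ hZ' (by norm_num)) (by positivity)
  rw [← Finset.sum_range_add_sum_Ico _ (Nat.add_le_add_right hN 1), Finset.sum_eq_single 1,
    Finset.Ico_add_one_add_one_eq_Ioc] at ht
  · have e2 : ∑ n ∈ Finset.Ioc Z (Z ^ 560), LSeries.term (ta χ Z) ρ n * (r : ℂ) *
        (VV (yy Z - Real.log n) + (ρ - 1)⁻¹ * (Real.exp (-(yy Z - Real.log n) ^ 2 / 2) : ℝ)) =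
        r * (3 * DP Z (fun n => χ n * b1 Z n) ρ + (ρ - 1)⁻¹ * DP Z (fun n => χ n * b2 Z n) ρ) := by
      simp only [DP, Finset.mul_sum, ← Finset.sum_add_distrib]
      refine Finset.sum_congr rfl fun n hn => ?_
      rw [LSeries.term_of_ne_zero (by have := (Finset.mem_Ioc.1 hn).1; omega), ta, b1, b2,
        cpow_neg,
        ofReal_div, ofReal_ofNat]
      ring
    have e3 : LSeries.term (ta χ Z) ρ 1 = 1 := by simp [ta, aa_small hZ]
    rw [e2, e3, one_mul, Nat.cast_one, Real.log_one, sub_zero] at ht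
    have hy : 1 ≤ yy Z := by unfold yy; linarith
    have g1 : Real.exp (-yy Z ^ 2 / 2) ≤ 1 / Z := by
      rw [one_div, ← Real.exp_log (show (0 : ℝ) < Z by linarith), ← Real.exp_neg]
      exact Real.exp_le_exp.2 (by unfold yy; nlinarith)
    have g2 := VV_ge hy
    have g3 : ‖(r : ℂ) * (VV (yy Z) : ℝ)‖ = r * VV (yy Z) := by
      rw [norm_mul, norm_real, norm_real, Real.norm_of_nonneg (by linarith),
        Real.norm_of_nonneg (by linarith)]
    have g4 : ‖(r : ℂ) * ((ρ - 1)⁻¹ * (Real.exp (-yy Z ^ 2 / 2) : ℝ) +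
        (3 * DP Z (fun n => χ n * b1 Z n) ρ + (ρ - 1)⁻¹ * DP Z (fun n => χ n * b2 Z n) ρ))‖ ≤
        3 * (1 * (1 / Z) + (3 * ‖DP Z (fun n => χ n * b1 Z n) ρ‖ + 1 * ‖DP Z (fun n => χ n * b2 Z n) ρ‖)) := by
      rw [norm_mul, norm_real, Real.norm_of_nonneg (by linarith)]
      refine mul_le_mul r3 (norm_add_le_of_le ?_ (norm_add_le_of_le ?_ ?_)) (norm_nonneg _)
        (by norm_num)
      · rw [norm_mul, norm_real, Real.norm_of_nonneg (Real.exp_pos _).le]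
        gcongr
      · simp
      · rw [norm_mul]
        gcongr
    set A := (r : ℂ) * ((ρ - 1)⁻¹ * (Real.exp (-yy Z ^ 2 / 2) : ℝ) +
        (3 * DP Z (fun n => χ n * b1 Z n) ρ + (ρ - 1)⁻¹ * DP Z (fun n => χ n * b2 Z n) ρ)) with hA
    have g5 : ‖(r : ℂ) * (VV (yy Z) : ℝ)‖ ≤ ‖S‖ + ‖S - ((r : ℂ) * (VV (yy Z) : ℝ) + A)‖ + ‖A‖ := by
      refine le_trans (le_of_eq ?_) ((norm_sub_le _ _).trans (add_le_add (norm_sub_le _ _) le_rfl))
      congr 1
      ring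
    rw [show (r : ℂ) * (VV (yy Z) + (ρ - 1)⁻¹ * (Real.exp (-yy Z ^ 2 / 2) : ℝ)) +
      r * (3 * DP Z (fun n => χ n * b1 Z n) ρ + (ρ - 1)⁻¹ * DP Z (fun n => χ n * b2 Z n) ρ) = (r : ℂ) * (VV (yy Z) : ℝ) + A by
        rw [hA]; ring] at ht
    have g6 : (12 * E + 3) / Z = 12 * E / Z + 3 * (1 / Z) := by ring
    nlinarith
  · intro n hn h
    rcases eq_or_ne n 0 with rfl | h'
    · simp
    · rw [LSeries.term_of_ne_zero h', ta, aa_small (by have := Finset.mem_range.1 hn; omega), if_neg h]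
      simp
  · intro h
    exact absurd (Finset.mem_range.2 (by omega)) h

/-- the head of the dual series -/
noncomputable def hdu (N : ℕ) (z : ℂ) : ℂ := ∑ m ∈ Finset.Icc 1 N, du χ m * (m : ℂ) ^ (-z)

lemma hdu_le (N : ℕ) {z : ℂ} (hz : 0 ≤ z.re) : ‖hdu χ N z‖ ≤ N := by
  refine (norm_sum_le_of_le _ (n := fun _ => (1 : ℝ)) fun d h => ?_).trans (by simp)
  rw [norm_mul]
  simpa using mul_le_mul (du_le χ d) (norm_pow_le (k := 0) h (by simpa using hz)) (norm_nonneg _)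
    zero_le_one

lemma hdu_diff (N : ℕ) : Differentiable ℂ (hdu χ N) :=
  Differentiable.fun_sum fun _ h => (diff_pow h).const_mul _

lemma du_tail {N : ℕ} (hN : 1 ≤ N) {z : ℂ} (hz : 30 ≤ z.re) :
    ‖ZMod.LFunction (du χ) z - hdu χ N z‖ ≤ 2 * (1 / (N : ℝ) ^ 28) := by
  have h := tail_le (A := 1) (j := 28) hN
    (ZMod.LSeriesSummable_of_one_lt_re (du χ) (s := z) (by linarith)).hasSum fun n hn => by
    have hn1 : (1 : ℝ) ≤ n := by exact_mod_cast (by omega)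
    rw [LSeries.norm_term_eq, if_neg (by omega), ← Real.rpow_natCast]
    exact div_le_div₀ zero_le_one (du_le χ n) (by positivity)
      (Real.rpow_le_rpow_of_exponent_le hn1 (by push_cast; linarith))
  rw [Finset.range_eq_Ico, Finset.sum_eq_sum_Ico_succ_bot (by omega), LSeries.term_zero, zero_add,
    Finset.Ico_add_one_right_eq_Icc] at h
  rw [ZMod.LFunction_eq_LSeries _ (by linarith)]
  refine le_trans (le_of_eq ?_) h
  congr 2
  refine Finset.sum_congr rfl fun m hm => ?_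
  rw [LSeries.term_of_ne_zero (by have := (Finset.mem_Icc.1 hm).1; omega), cpow_neg,
    div_eq_mul_inv]

/-- the entire function -/
noncomputable def FT (Z : ℕ) (ρ s : ℂ) : ℂ :=
  dslope (LL1 fun x => χ x) ρ (ρ + s) * MT χ Z (ρ + s) * (ρ - 1)⁻¹

/-- the reflected head -/
noncomputable def HT (Z : ℕ) (ρ s : ℂ) : ℂ :=
  ch q (χ (-1)) (ρ + s) * hdu χ (Z ^ 500) (1 - (ρ + s)) * MT χ Z (ρ + s) * kk ρ s

lemma FT_diff (Z : ℕ) (ρ : ℂ) : Differentiable ℂ (FT χ Z ρ) := by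
  have h1 : Differentiable ℂ (dslope (LL1 fun x => χ x) ρ) := differentiableOn_univ.1
    ((differentiableOn_dslope univ_mem).2 (LL1_diff _).differentiableOn)
  have h2 := MT_diff χ Z
  unfold FT
  fun_prop

lemma L1_eq {w : ℂ} (hw : w ≠ 1) : LL1 (fun x => χ x) w = (w - 1) * χ.LFunction w := LL1_eq _ hw

lemma dt_eq {ρ s : ℂ} (hρ : 1 ≤ |ρ.im|) (h0 : χ.LFunction ρ = 0) (hs : s ≠ 0) :
    dslope (LL1 fun x => χ x) ρ (ρ + s) = s⁻¹ * LL1 (fun x => χ x) (ρ + s) := by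
  rw [dslope_of_ne _ (by simpa using hs), slope_def_field, L1_eq χ (ne_one hρ), h0]
  simp [div_eq_inv_mul]

lemma FT_eq (Z : ℕ) {ρ s : ℂ} (hρ : 1 ≤ |ρ.im|) (h0 : χ.LFunction ρ = 0) (hs : s ≠ 0)
    (h1 : ρ + s ≠ 1) : FT χ Z ρ s = χ.LFunction (ρ + s) * MT χ Z (ρ + s) * kk ρ s := by
  have := sub_ne_zero.2 (ne_one hρ)
  rw [FT, dt_eq χ hρ h0 hs, L1_eq χ h1, kk]
  field_simp
  ring

lemma left : ∃ C : ℝ, 0 ≤ C ∧ ∀ Z : ℕ, 1 ≤ Z →
    ∀ (q : ℕ) [NeZero q] (χ : DirichletCharacter ℂ q), q ≤ Z →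
    ∀ β γ : ℝ, 5 / 9 ≤ β → β ≤ 1 → 1 ≤ |γ| →
    |γ| ≤ (Z : ℝ) ^ 1000 → χ.LFunction (β + γ * I) = 0 →
    ‖∫ u : ℝ, χ.LFunction (β + γ * I + ((2 : ℝ) + u * I)) * MT χ Z (β + γ * I + ((2 : ℝ) + u * I)) *
      kk (β + γ * I) ((2 : ℝ) + u * I) * EE (yy Z) ((2 : ℝ) + u * I)‖ ≤ C / Z +
      ‖∫ u : ℝ, HT χ Z (β + γ * I) ((1 / 2 - β : ℝ) + u * I) *
        EE (yy Z) ((1 / 2 - β : ℝ) + u * I)‖ := by
  obtain ⟨E, hE0, hE⟩ : ∃ E : ℝ, 0 ≤ E ∧ ∀ c v : ℝ, -31 ≤ c → c ≤ -30 → 0 ≤ v →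
      Real.exp (c ^ 2 / 2 + v * c) * Real.exp ((30 : ℕ) ^ 2) ≤ E / Real.exp ((30 : ℕ) * v) :=
    ⟨Real.exp (31 ^ 2 / 2 + 30 ^ 2), (Real.exp_pos _).le, fun c v h1 h2 h3 => by
      rw [← Real.exp_add, ← Real.exp_sub]
      exact Real.exp_le_exp.2 (by push_cast; nlinarith)⟩
  refine ⟨3 * 60 ^ 30 * 2 * 19 * E * 4, by positivity, fun Z hZ q _ χ hq β γ h1 h2 h3 h4 h0 => ?_⟩
  obtain ⟨D, hD1, hD⟩ := LL1_strip χ
  have hq' : (q : ℝ) ≤ Z := by exact_mod_cast hq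
  set ρ : ℂ := β + γ * I with hρ
  have hZ' : (1 : ℝ) ≤ Z := by exact_mod_cast hZ
  have hi : 1 ≤ |ρ.im| := by simpa [hρ] using h3
  have hre : ∀ x u : ℝ, (ρ + (x + u * I)).re = β + x := fun x u => by simp [hρ]
  have him : ∀ x u : ℝ, (ρ + (x + u * I)).im = γ + u := fun x u => by simp [hρ]
  have hM : ∀ x u : ℝ, 1 / 2 - 30 - β ≤ x → ‖MT χ Z (ρ + (x + u * I))‖ ≤ (Z : ℝ) ^ (30 + 1) :=
    fun x u hx => MT_le χ Z 30 (by rw [hre]; push_cast; linarith)
  obtain ⟨i1, e1⟩ := shift_poly (F := FT χ Z ρ) (σ₁ := 1 / 2 - 30 - β) (σ₂ := 2) (k := 63)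
    (A := D * (1 + |γ|) ^ 63 * (Z : ℝ) ^ (30 + 1)) (yy Z) (by linarith) (by positivity)
    (FT_diff χ Z ρ).differentiableOn fun x hx u hu => by
      have hs : ((x : ℂ) + u * I) ≠ 0 := fun h => by
        have : u = 0 := by simpa using congrArg im h
        rw [this] at hu
        norm_num at hu
      have a1 : ‖((x : ℂ) + u * I)⁻¹‖ ≤ 1 := by
        rw [norm_inv]
        exact inv_le_one_of_one_le₀ (hu.trans (by simpa using abs_im_le_norm ((x : ℂ) + u * I)))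
      have a2 := hD (ρ + (x + u * I)) (by rw [hre]; linarith [hx.1])
        (by rw [hre]; linarith [hx.2])
      rw [him] at a2
      rw [FT, dt_eq χ hi h0 hs, norm_mul, norm_mul, norm_mul]
      calc _ ≤ 1 * (D * ((1 + |γ|) * (1 + |u|)) ^ 63) * (Z : ℝ) ^ (30 + 1) * 1 :=
            mul_le_mul (mul_le_mul (mul_le_mul a1 (a2.trans (mul_le_mul_of_nonneg_left
              (pow_le_pow_left₀ (by positivity) (abs_add_le_mul γ u) 63) hD1)) (norm_nonneg _)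
              zero_le_one) (hM x u hx.1) (norm_nonneg _)
              (mul_nonneg zero_le_one (mul_nonneg hD1 (by positivity)))) (inv_le_one hi)
              (norm_nonneg _) (mul_nonneg (mul_nonneg zero_le_one (mul_nonneg hD1 (by positivity)))
                (by positivity))
        _ = _ := by
          rw [mul_pow]
          generalize (1 + |γ|) ^ 63 = a
          generalize (1 + |u|) ^ 63 = b
          ring
  have hk : ∀ x u : ℝ, x ≤ 1 / 2 - β → ‖kk ρ (x + u * I)‖ ≤ 19 := fun x u hx =>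
    kk_le hi (by
      simp only [add_re, ofReal_re, mul_re, I_re, mul_zero, ofReal_im, I_im, mul_one, sub_self,
        add_zero]
      rw [abs_of_nonpos (by linarith)]
      linarith)
  obtain ⟨i2, e2⟩ := shift_poly (F := HT χ Z ρ) (σ₁ := 1 / 2 - 30 - β) (σ₂ := 1 / 2 - β) (k := 30)
    (A := (Z : ℝ) ^ (30 + 1) * (3 * (30 * (1 + |γ|)) ^ 30) * ((Z ^ 500 : ℕ) : ℝ) *
      (Z : ℝ) ^ (30 + 1) * 19) (yy Z)
    (by linarith) (by positivity) (fun s hs => by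
      have a1 : s.re ≤ 1 / 2 - β := hs.1.2
      have a2 : DifferentiableAt ℂ (fun z => ch q (χ (-1)) (ρ + z)) s :=
        (ch_diffAt _ (s := ρ + s) (by simp [hρ]; linarith)).comp s (by fun_prop)
      have a3 : s ≠ 0 := fun h => by
        rw [h, zero_re] at a1
        linarith
      have a4 := hdu_diff χ (Z ^ 500)
      have a5 := MT_diff χ Z
      refine DifferentiableAt.differentiableWithinAt ?_
      unfold HT kk
      fun_prop (disch := assumption))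
    fun x hx u _ => by
      rw [HT, norm_mul, norm_mul, norm_mul]
      calc _ ≤ (Z : ℝ) ^ (30 + 1) * (3 * (30 * (1 + |γ|)) ^ 30) * (1 + |u|) ^ 30 *
            ((Z ^ 500 : ℕ) : ℝ) *
            (Z : ℝ) ^ (30 + 1) * 19 := by
            refine mul_le_mul (mul_le_mul (mul_le_mul ?_ ?_ (norm_nonneg _) (by positivity)) ?_
              (norm_nonneg _) (by positivity)) ?_ (norm_nonneg _) (by positivity)
            · exact ch_le (χ.norm_le_one (-1)) hq' (by rw [hre]; linarith [hx.1])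
                (by rw [hre]; linarith [hx.2]) (him x u)
            · exact hdu_le χ _ (by rw [sub_re, hre, one_re]; linarith [hx.2])
            · exact hM x u hx.1
            · exact hk x u hx.2
        _ = _ := by
          generalize (30 * (1 + |γ|)) ^ 30 = a
          generalize (1 + |u|) ^ 30 = b
          ring
  have e3 : ∀ u : ℝ, FT χ Z ρ ((2 : ℝ) + u * I) = χ.LFunction (ρ + ((2 : ℝ) + u * I)) *
      MT χ Z (ρ + ((2 : ℝ) + u * I)) * kk ρ ((2 : ℝ) + u * I) := fun u =>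
    FT_eq χ Z hi h0 (fun h => by simpa using congrArg re h) fun h => by
      have := hre 2 u
      rw [h, one_re] at this
      linarith
  simp only [e3] at e1
  rw [← e1, ← e2]
  have j1 := i1 _ ⟨le_rfl, by linarith⟩
  have j2 := i2 _ ⟨le_rfl, by linarith⟩
  refine (norm_le_norm_sub_add _ _).trans (add_le_add ?_ le_rfl)
  rw [← integral_sub j1 j2]
  simp only [← sub_mul]
  have hb := line_le (k := 30) (F := fun u : ℝ => FT χ Z ρ ((1 / 2 - 30 - β : ℝ) + u * I) -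
    HT χ Z ρ ((1 / 2 - 30 - β : ℝ) + u * I))
    (A := (Z : ℝ) ^ (30 + 1) * (3 * (60 * (Z : ℝ) ^ 1000) ^ 30) *
      (2 * (1 / ((Z ^ 500 : ℕ) : ℝ) ^ 28)) *
      (Z : ℝ) ^ (30 + 1) * 19) (by positivity) (fun u => by
      have a1 := hre (1 / 2 - 30 - β) u
      set s : ℂ := (1 / 2 - 30 - β : ℝ) + u * I with hs
      have a2 : s ≠ 0 := fun h => by
        have : s.re = 1 / 2 - 30 - β := by simp only [hs, add_re, ofReal_re]; simp
        rw [h, zero_re] at this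
        linarith
      have a3 : FT χ Z ρ s - HT χ Z ρ s = ch q (χ (-1)) (ρ + s) *
          (ZMod.LFunction (du χ) (1 - (ρ + s)) - hdu χ (Z ^ 500) (1 - (ρ + s)))
           * MT χ Z (ρ + s) * kk ρ s := by
        rw [FT_eq χ Z hi h0 a2 (fun h => by rw [h, one_re] at a1; linarith), HT,
          L_refl χ (by linarith) (fun h => by rw [h, zero_re] at a1; linarith)]
        ring
      rw [a3, norm_mul, norm_mul, norm_mul]
      calc _ ≤ (Z : ℝ) ^ (30 + 1) * (3 * (60 * (Z : ℝ) ^ 1000) ^ 30) * (1 + |u|) ^ 30 *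
            (2 * (1 / ((Z ^ 500 : ℕ) : ℝ) ^ 28)) * (Z : ℝ) ^ (30 + 1) * 19 := by
            refine mul_le_mul (mul_le_mul (mul_le_mul ?_ ?_ (norm_nonneg _) (by positivity)) ?_
              (norm_nonneg _) (by positivity)) ?_ (norm_nonneg _) (by positivity)
            · refine (ch_le (χ.norm_le_one (-1)) hq' (w := ρ + s) (by linarith) (by linarith)
                (him _ u)).trans ?_
              have : (1 : ℝ) ≤ (Z : ℝ) ^ 1000 := h3.trans h4
              generalize (Z : ℝ) ^ 1000 = W at *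
              gcongr _ * (3 * ?_ ^ 30) * _
              linarith
            · exact du_tail χ (Nat.one_le_pow _ _ hZ) (by rw [sub_re, a1, one_re]; linarith)
            · exact hM _ u le_rfl
            · exact hk _ u (by linarith)
        _ = _ := by
          generalize (60 * (Z : ℝ) ^ 1000) ^ 30 = a
          generalize (1 + |u|) ^ 30 = b
          generalize ((Z ^ 500 : ℕ) : ℝ) ^ 28 = c
          ring) (yy Z) (1 / 2 - 30 - β)
  refine hb.trans ?_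
  have hy : 0 ≤ yy Z := mul_nonneg (by norm_num) (Real.log_nonneg hZ')
  have a4 := hE (1 / 2 - 30 - β) (yy Z) (by linarith) (by linarith) hy
  rw [exp_yy hZ] at a4
  have a5 : (Z : ℝ) ^ (1000 * 30) * (Z : ℝ) ^ (30 + 1) * (Z : ℝ) ^ (30 + 1) * Z ≤
      (Z : ℝ) ^ (500 * 28) * (Z : ℝ) ^ (550 * 30) := by
    rw [← pow_add, ← pow_add, ← pow_succ, ← pow_add]
    exact pow_le_pow_right₀ hZ' (by norm_num)
  rw [mul_pow, Nat.cast_pow, ← pow_mul, ← pow_mul]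
  have p1 : 0 < (Z : ℝ) ^ (500 * 28) := by positivity
  have p2 : 0 < (Z : ℝ) ^ (550 * 30) := by positivity
  have p3 : 0 < (Z : ℝ) ^ (1000 * 30) := by positivity
  have p4 : 0 < (Z : ℝ) ^ (30 + 1) := by positivity
  generalize (Z : ℝ) ^ (500 * 28) = W1 at *
  generalize (Z : ℝ) ^ (550 * 30) = W2 at *
  generalize (Z : ℝ) ^ (1000 * 30) = W3 at *
  generalize (Z : ℝ) ^ (30 + 1) = W4 at *
  calc _ ≤ W4 * (3 * (60 ^ 30 * W3)) * (2 * (1 / W1)) * W4 * 19 * (E / W2) * 4 :=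
        mul_le_mul_of_nonneg_right (mul_le_mul_of_nonneg_left a4 (by positivity)) (by norm_num)
    _ = 3 * 60 ^ 30 * 2 * 19 * E * 4 / Z * (W3 * W4 * W4 * Z / (W1 * W2)) := by field_simp
    _ ≤ _ := mul_le_of_le_one_right (by positivity) ((div_le_one (by positivity)).2 a5)

/-- the scaling factor -/
noncomputable def sc (Z : ℕ) (σ : ℝ) : ℝ := Z * (Z * Real.exp (yy Z * (1 / 2 - σ)))

noncomputable def b4 (Z : ℕ) (σ : ℝ) (m : ℕ) : ℂ :=
  if Z < m ∧ m ≤ Z ^ 500 then du χ m * ((sc Z σ * (m : ℝ) ^ (σ - 1 / 2) : ℝ) : ℂ) else 0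

lemma sc_nonneg (Z : ℕ) (σ : ℝ) : 0 ≤ sc Z σ := by
  unfold sc
  positivity

lemma sc_small {Z : ℕ} (hZ : 1 ≤ Z) {σ : ℝ} (h : 5 / 9 ≤ σ) : sc Z σ ≤ 1 / (Z : ℝ) ^ 2 := by
  have hZ' : (1 : ℝ) ≤ Z := by exact_mod_cast hZ
  have hL := Real.log_nonneg hZ'
  have h1 : Real.exp (yy Z * (1 / 2 - σ)) ≤ 1 / (Z : ℝ) ^ 4 := by
    rw [one_div ((Z : ℝ) ^ 4), ← Real.exp_log (show (0 : ℝ) < (Z : ℝ) ^ 4 by positivity),
      ← Real.exp_neg, Real.log_pow, yy]
    exact Real.exp_le_exp.2 (by push_cast; nlinarith)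
  calc _ ≤ Z * (Z * (1 / (Z : ℝ) ^ 4)) := by unfold sc; gcongr
    _ = _ := by field_simp

lemma Dv_b4 {Z : ℕ} (hZ : 1 ≤ Z) {σ : ℝ} (h : 5 / 9 ≤ σ) : Dv (b4 χ Z σ) := fun m => by
  unfold b4
  split_ifs with hm
  · have hZ' : (1 : ℝ) ≤ Z := by exact_mod_cast hZ
    have hL := Real.log_nonneg hZ'
    have hm0 : (0 : ℝ) < m := by exact_mod_cast (by omega : 0 < m)
    have h1 : Real.log m ≤ 500 * Real.log Z := by
      have := Real.log_le_log hm0 (show (m : ℝ) ≤ (Z : ℝ) ^ 500 by exact_mod_cast hm.2)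
      rwa [Real.log_pow, Nat.cast_ofNat] at this
    have h2 : (1 : ℝ) ≤ m.divisors.card := by
      exact_mod_cast Finset.card_pos.2 ⟨1, Nat.one_mem_divisors.2 (by omega)⟩
    have h3 := sc_nonneg Z σ
    rw [norm_mul]
    refine (mul_le_of_le_one_left (norm_nonneg _) (du_le χ m)).trans ?_
    rw [norm_real, Real.norm_of_nonneg (by positivity), Real.rpow_def_of_pos hm0, sc]
    refine le_trans ?_ h2
    nth_rewrite 1 2 [← Real.exp_log (show (0 : ℝ) < Z by linarith)]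
    rw [← Real.exp_add, ← Real.exp_add, ← Real.exp_add, Real.exp_le_one_iff, yy]
    nlinarith [mul_le_mul_of_nonneg_right h1 (show 0 ≤ σ - 1 / 2 by linarith)]
  · simp

lemma hdu_split {Z : ℕ} (hZ : 1 ≤ Z) (σ t : ℝ) :
    (sc Z σ : ℂ) * hdu χ (Z ^ 500) ((1 / 2 : ℝ) + t * I) =
      (sc Z σ : ℂ) * hdu χ Z ((1 / 2 : ℝ) + t * I) + DP Z (b4 χ Z σ) (σ + t * I) := by
  have h1 : Z ≤ Z ^ 500 := Nat.le_self_pow (by decide) Z
  have h2 : Z ^ 500 ≤ Z ^ 560 := Nat.pow_le_pow_right hZ (by decide)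
  have e : ∀ N : ℕ, Finset.Icc 1 N = Finset.Ioc 0 N := fun N => by
    ext m
    simp [Nat.one_le_iff_ne_zero, Nat.pos_iff_ne_zero]
  unfold hdu DP
  rw [e, e, ← Finset.sum_Ioc_consecutive _ (Nat.zero_le Z) h1, mul_add,
    ← Finset.sum_Ioc_consecutive _ h1 h2, Finset.sum_eq_zero (s := Finset.Ioc (Z ^ 500) (Z ^ 560)),
    add_zero, Finset.mul_sum (s := Finset.Ioc Z (Z ^ 500))]
  · congr 1
    refine Finset.sum_congr rfl fun m hm => ?_
    rw [Finset.mem_Ioc] at hm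
    have hm0 : (m : ℂ) ≠ 0 := by exact_mod_cast (by omega : m ≠ 0)
    rw [b4, if_pos hm, ofReal_mul _ ((m : ℝ) ^ (σ - 1 / 2)), ofReal_cpow m.cast_nonneg,
      ofReal_natCast, mul_assoc, mul_assoc, ← cpow_add _ _ hm0, mul_left_comm]
    congr 3
    push_cast
    ring
  · intro m hm
    rw [b4, if_neg (fun h => absurd (Finset.mem_Ioc.1 hm).1 (not_lt.2 h.2)), zero_mul]

lemma mid {Z : ℕ} (hZ : 1 ≤ Z) (hq : q ≤ Z) (hL : 2008 ≤ Real.log Z) {σ β γ η : ℝ} (h1 : 5 / 9 ≤ σ)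
    (h2 : σ ≤ β) (h3 : β ≤ 1) (h4 : 1 ≤ |γ|) (hη : 0 ≤ η)
    (h : ∀ u : ℝ, |u| ≤ Real.log Z → ‖DP Z (b4 χ Z σ) (σ + (-(γ + u) : ℝ) * I)‖ ≤ η) :
    ‖∫ u : ℝ, HT χ Z (β + γ * I) ((1 / 2 - β : ℝ) + u * I) *
        EE (yy Z) ((1 / 2 - β : ℝ) + u * I)‖ ≤ 3 * 19 * 8 * (η + 1 / Z) * 4 := by
  have hZ' : (1 : ℝ) ≤ Z := by exact_mod_cast hZ
  refine line_le0 (by positivity) fun u => ?_
  have e1 : (β + γ * I + ((1 / 2 - β : ℝ) + u * I) : ℂ) = (1 / 2 : ℝ) + (γ + u : ℝ) * I := by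
    push_cast; ring
  have e2 : (1 - ((1 / 2 : ℝ) + (γ + u : ℝ) * I) : ℂ) = (1 / 2 : ℝ) + (-(γ + u) : ℝ) * I := by
    push_cast; ring
  have a1 : ‖MT χ Z ((1 / 2 : ℝ) + (γ + u : ℝ) * I)‖ ≤ Z := by
    simpa using MT_le χ Z 0 (w := (1 / 2 : ℝ) + (γ + u : ℝ) * I) (by simp)
  have a2 : ‖kk (β + γ * I) ((1 / 2 - β : ℝ) + u * I)‖ ≤ 19 := kk_le (by simpa using h4) (by
    simp only [add_re, ofReal_re, mul_re, I_re, mul_zero, ofReal_im, I_im, mul_one, sub_self,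
      add_zero]
    rw [abs_of_nonpos (by linarith)]
    linarith)
  have a3 : Real.exp ((1 / 2 - β) ^ 2 / 2 + yy Z * (1 / 2 - β)) ≤
      8 * Real.exp (yy Z * (1 / 2 - σ)) := by
    refine (exp_sq_le (by linarith) (by linarith) _).trans ?_
    have : 0 ≤ yy Z := by unfold yy; linarith
    gcongr
  have a4 := sc_small hZ h1
  have a0 := sc_nonneg Z σ
  have a8 : ‖ch q (χ (-1)) ((1 / 2 : ℝ) + (γ + u : ℝ) * I)‖ ≤ Z * 3 := by
    simpa using ch_strip (q := q) (χ.norm_le_one (-1)) (Z := Z) (by exact_mod_cast hq) 0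
      (s := (1 / 2 : ℝ) + (γ + u : ℝ) * I) (by simp) (by simp)
  have key : sc Z σ *
      ‖hdu χ (Z ^ 500) ((1 / 2 : ℝ) + (-(γ + u) : ℝ) * I)‖ * Real.exp (-(1 / 2) * u ^ 2) ≤
      (η + 1 / Z) * Real.exp (-(1 / 4) * u ^ 2) := by
    rcases le_total |u| (Real.log Z) with hu | hu
    · refine mul_le_mul ?_ (Real.exp_le_exp.2 (by nlinarith [sq_nonneg u])) (by positivity)
        (by positivity)
      have a5 := congrArg norm (hdu_split χ hZ σ (-(γ + u)))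
      rw [norm_mul, norm_real, Real.norm_of_nonneg (by positivity)] at a5
      rw [a5, add_comm η]
      refine norm_add_le_of_le ?_ (h u hu)
      rw [norm_mul, norm_real, Real.norm_of_nonneg (by positivity)]
      calc _ ≤ 1 / (Z : ℝ) ^ 2 * Z := by
            gcongr
            exact hdu_le χ Z (by simp)
        _ = _ := by field_simp
    · have a5 : ‖hdu χ (Z ^ 500) ((1 / 2 : ℝ) + (-(γ + u) : ℝ) * I)‖ ≤
          Real.exp (500 * Real.log Z) := by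
        refine (hdu_le χ _ (by simp)).trans (le_of_eq ?_)
        have := Real.exp_nat_mul (Real.log Z) 500
        rw [Real.exp_log (by linarith), Nat.cast_ofNat] at this
        rw [Nat.cast_pow, this]
      have a6 : sc Z σ ≤ 1 / Z :=
        a4.trans (one_div_le_one_div_of_le (by linarith) (by nlinarith))
      have a7 : Real.exp (500 * Real.log Z) * Real.exp (-(1 / 2) * u ^ 2) ≤
          Real.exp (-(1 / 4) * u ^ 2) := by
        rw [← Real.exp_add]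
        exact Real.exp_le_exp.2 (by nlinarith [sq_abs u, mul_self_le_mul_self (by linarith) hu])
      calc _ ≤ 1 / Z * Real.exp (500 * Real.log Z) * Real.exp (-(1 / 2) * u ^ 2) := by gcongr
        _ ≤ _ := by
          rw [mul_assoc]
          gcongr
          linarith
  rw [HT, e1, e2, norm_mul, norm_mul, norm_mul, norm_mul, norm_EE]
  calc _ ≤ Z * 3 * ‖hdu χ (Z ^ 500) ((1 / 2 : ℝ) + (-(γ + u) : ℝ) * I)‖ * Z * 19 *
        (8 * Real.exp (yy Z * (1 / 2 - σ)) * Real.exp (-(1 / 2) * u ^ 2)) := by gcongr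
    _ = 3 * 19 * 8 * (sc Z σ *
      ‖hdu χ (Z ^ 500) ((1 / 2 : ℝ) + (-(γ + u) : ℝ) * I)‖ * Real.exp (-(1 / 2) * u ^ 2)) := by
        unfold sc
        ring
    _ ≤ _ := by rw [mul_assoc (3 * 19 * 8 : ℝ)]; gcongr

end Dx

open Dx in
theorem detL : TDet := by
  obtain ⟨C1, h1, H1⟩ := Dx.right
  obtain ⟨C2, h2, H2⟩ := Dx.left
  obtain ⟨Z0, hZ0⟩ := eventually_atTop.1 (((Real.tendsto_log_atTop.comp
    tendsto_natCast_atTop_atTop).eventually_ge_atTop 2008).and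
    ((tendsto_natCast_atTop_atTop (R := ℝ)).eventually_ge_atTop (10 * (C1 + C2 + 1824))))
  refine ⟨1 / 10000, by norm_num, Z0, fun Z hZ q _ χ hq σ s1 s2 => ?_⟩
  obtain ⟨hL, hC⟩ := hZ0 Z hZ
  have hL' : 2008 ≤ Real.log Z := hL
  have hZ' : (0 : ℝ) < Z := by linarith
  have hZ1 : 1 ≤ Z := by exact_mod_cast hZ'
  refine ⟨fun n => χ n * b1 Z n, fun n => χ n * b2 Z n, b4 χ Z σ, Dv_tw χ (Dv_b1 Z),
    Dv_tw χ (Dv_b2 Z), Dv_b4 χ hZ1 s1, fun β γ a1 a2 a3 a4 a5 => ?_⟩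
  by_contra hc
  simp only [not_or, not_exists, not_and, not_le] at hc
  have c1 := H1 Z hZ1 (by linarith) q χ (β + γ * I) (by simp; linarith) (by simpa using a3)
  have c2 := H2 Z hZ1 q χ hq β γ (s1.trans a1) a2 a3 a4 a5
  have c3 := Dx.mid χ hZ1 hq hL' s1 a1 a2 a3 (by norm_num) fun u hu => (hc.2.2 u hu).le
  have c4 : (C1 + C2 + 1824) / Z ≤ 1 / 10 := by
    rw [div_le_iff₀ hZ']
    linarith
  have c5 : (C1 + C2 + 1824) / Z = C1 / Z + C2 / Z + 1824 * (1 / Z) := by ring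
  linarith [hc.1, hc.2.1]

end Pool.Agent.Lib.MP_68a45e_nt.Tw
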