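import Pool.Agent.Lib.MP_b09185_nt.ShVin
import Pool.Agent.Lib.MP_b09185_nt.VinZero
import Pool.Agent.Lib.MP_68a45e_nt.TwDet
import Pool.Agent.Lib.MP_68a45e_nt.AvDens
import Pool.Agent.Lib.MP_68a45e_nt.AvL2
import Pool.Agent.Lib.MP_68a45e_nt.AvZF
import Pool.Agent.Lib.MP_68a45e_nt.CAp3
import Pool.Agent.Lib.MP_68a45e_nt.CMin5
import Pool.Agent.Lib.MP_68a45e_nt.CMod3
import Pool.Agent.Lib.MP_68a45e_nt.CUnif
import Pool.Agent.Lib.MP_68a45e_nt.CTel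
import Pool.Agent.Lib.MP_68a45e_nt.CTail
import Pool.Agent.Lib.MP_68a45e_nt.AvLam

/-! Assembly. -/

namespace Pool.Agent.Lib.MP_68a45e_nt.Av

open Pool.Agent.Lib.MP_b09185_nt

theorem densX_final : DensX := densX Tw.detL (Sh.cls_of Sh.thmC (Sh.near_of Sh.expS))

theorem apa_final {θ : ℝ} (h : 1 / 9 < θ) : APA θ :=
  CAp.apa (fun _ h0 h1 => l2T Sh.dens Vin.zf Sh.pt densX_final zfX ptX h0 h1) h

theorem unif_final {θ : ℝ} (h : 1 / 9 < θ) : Unif θ :=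
  unif (fun _ h => apa_final h) CMod.apW sizeW CMin.minL CMod.minW h

theorem lamAvg_final {θ : ℝ} (h : 1 / 9 < θ) : LamAvg θ :=
  lamAvg (fun _ h => unif_final h) tel CMod.corrW tail sizeW h

end Pool.Agent.Lib.MP_68a45e_nt.Av
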