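import Pool.Agent.Lib.MP_68a45e_nt.AvDef

/-! Minor arcs for the sieve model from minor arcs for short sieve weights. -/

namespace Pool.Agent.Lib.MP_68a45e_nt.Av

open Finset Complex Filter ArithmeticFunction
open Pool.Agent.Lib.MP_68a45e_nt.CMin (W Far ee norm_ee)

lemma WE_triv (g : ℕ → ℂ) (α : ℝ) (L X : ℕ) :
    WE g α L X ≤ (L : ℝ) ^ 2 * ∑ n ∈ Ioc 0 (X + L), ‖g n‖ ^ 2 := by
  have h1 : ∀ x ∈ range (X + 1), ‖W g α L x‖ ^ 2 ≤
      L * ∑ n ∈ Ioc 0 (X + L), if n ∈ Ioc x (x + L) then ‖g n‖ ^ 2 else 0 := by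
    intro x hx
    have hx' := mem_range.mp hx
    have hsub : Ioc x (x + L) ⊆ Ioc 0 (X + L) := Ioc_subset_Ioc (by omega) (by omega)
    rw [← sum_filter, filter_mem_eq_inter, inter_eq_right.mpr hsub]
    calc ‖W g α L x‖ ^ 2 ≤ (∑ n ∈ Ioc x (x + L), ‖g n‖) ^ 2 := by
          refine pow_le_pow_left₀ (norm_nonneg _) ((norm_sum_le _ _).trans (le_of_eq ?_)) 2
          exact sum_congr rfl fun n _ => by rw [norm_mul, norm_ee, mul_one]
      _ ≤ _ := by
          have := sq_sum_le_card_mul_sum_sq (s := Ioc x (x + L)) (f := fun n => ‖g n‖)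
          simpa using this
  refine (sum_le_sum h1).trans ?_
  rw [← mul_sum, sum_comm, sq, mul_assoc]
  refine mul_le_mul_of_nonneg_left ?_ (Nat.cast_nonneg _)
  rw [mul_sum]
  refine sum_le_sum fun n _ => ?_
  rw [← sum_filter, sum_const, nsmul_eq_mul]
  refine mul_le_mul_of_nonneg_right ?_ (sq_nonneg _)
  have : ((range (X + 1)).filter fun x => n ∈ Ioc x (x + L)) ⊆ Ico (n - L) n := by
    intro x hx
    have := mem_Ioc.mp (mem_filter.mp hx).2
    exact mem_Ico.mpr ⟨by omega, this.1⟩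
  have h2 := card_le_card this
  rw [Nat.card_Ico] at h2
  exact_mod_cast h2.trans (by omega)

lemma WE_add (f g : ℕ → ℂ) (α : ℝ) (L X : ℕ) :
    WE (fun n => f n + g n) α L X ≤ 2 * WE f α L X + 2 * WE g α L X := by
  unfold WE
  rw [mul_sum, mul_sum, ← sum_add_distrib]
  refine sum_le_sum fun x _ => ?_
  have : W (fun n => f n + g n) α L x = W f α L x + W g α L x := by
    simp only [W, add_mul, sum_add_distrib]
  rw [this]
  have h := norm_add_le (W f α L x) (W g α L x)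
  nlinarith [norm_nonneg (W f α L x + W g α L x), norm_nonneg (W f α L x),
    norm_nonneg (W g α L x), sq_nonneg (‖W f α L x‖ - ‖W g α L x‖)]

lemma WE_smul (c : ℂ) (f : ℕ → ℂ) (α : ℝ) (L X : ℕ) :
    WE (fun n => c * f n) α L X = ‖c‖ ^ 2 * WE f α L X := by
  unfold WE
  rw [mul_sum]
  refine sum_congr rfl fun x _ => ?_
  have : W (fun n => c * f n) α L x = c * W f α L x := by simp only [W, mul_sum, mul_assoc]
  rw [this, norm_mul, mul_pow]

lemma WE_congr {f g : ℕ → ℂ} (h : ∀ n, 0 < n → f n = g n) (α : ℝ) (L X : ℕ) :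
    WE f α L X = WE g α L X := by
  unfold WE W
  refine sum_congr rfl fun x _ => ?_
  rw [sum_congr rfl fun n hn => by rw [h n (by have := (mem_Ioc.mp hn).1; omega)]]

/-- primes up to `w` -/
def PW (w : ℕ) : Finset ℕ := (range (w + 1)).filter Nat.Prime

/-- truncated Moebius weights -/
noncomputable def lamT (w r d : ℕ) : ℂ :=
  if d ∣ primorial w ∧ d.primeFactors.card ≤ r then (moebius d : ℂ) else 0

/-- the tail of the truncation -/
noncomputable def tailT (w r n : ℕ) : ℂ :=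
  ∑ d ∈ n.divisors with d ∣ primorial w ∧ r < d.primeFactors.card, (moebius d : ℂ)

lemma mw_norm_mu (d : ℕ) : ‖(moebius d : ℂ)‖ ≤ 1 := by
  have := abs_moebius_le_one (n := d)
  rw [Complex.norm_intCast]
  exact_mod_cast this

lemma mw_pf_sub {w d : ℕ} (h : d ∣ primorial w) : d.primeFactors ⊆ PW w := by
  intro p hp
  have hp1 := Nat.prime_of_mem_primeFactors hp
  have h2 : p ∣ primorial w := (Nat.dvd_of_mem_primeFactors hp).trans h
  obtain ⟨q, hq, hpq⟩ := (Prime.dvd_finset_prod_iff hp1.prime _).mp h2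
  have := (Nat.prime_dvd_prime_iff_eq hp1 (mem_filter.mp hq).2).mp hpq
  rw [this]; exact hq

lemma ind_split (w r : ℕ) {n : ℕ} (hn : 0 < n) :
    (if n.Coprime (primorial w) then (1 : ℂ) else 0) =
      ∑ d ∈ n.divisors, lamT w r d + tailT w r n := by
  have h1 : ∑ d ∈ (n.gcd (primorial w)).divisors, (moebius d : ℂ) =
      if n.Coprime (primorial w) then (1 : ℂ) else 0 := by
    have := congrArg (fun f : ArithmeticFunction ℂ => f (n.gcd (primorial w)))
      (coe_moebius_mul_coe_zeta (R := ℂ))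
    simp only [coe_mul_zeta_apply, intCoe_apply, one_apply] at this
    rw [this]
  have h2 : (n.gcd (primorial w)).divisors = n.divisors.filter fun d => d ∣ primorial w := by
    ext d
    simp only [Nat.mem_divisors, mem_filter, Nat.dvd_gcd_iff]
    have : n.gcd (primorial w) ≠ 0 := (Nat.gcd_pos_of_pos_left _ hn).ne'
    have := hn.ne'
    tauto
  rw [← h1, h2, tailT, sum_filter, sum_filter, ← sum_add_distrib]
  refine sum_congr rfl fun d _ => ?_
  unfold lamT
  by_cases ha : d ∣ primorial w <;> by_cases hb : d.primeFactors.card ≤ r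
  · simp [ha, hb, not_lt.mpr hb]
  · simp [ha, hb, not_le.mp hb]
  · simp [ha]
  · simp [ha]

lemma tail_sq (w r n : ℕ) :
    ‖tailT w r n‖ ^ 2 ≤ (∏ p ∈ PW w, (1 + if p ∣ n then (8 : ℝ) else 0)) / 2 ^ r := by
  set T := (PW w).filter fun p => p ∣ n with hT
  set D := n.divisors.filter fun d => d ∣ primorial w ∧ r < d.primeFactors.card with hD
  have hsub : ∀ d ∈ D, d.primeFactors ⊆ T := by
    intro d hd p hp
    have hd' := mem_filter.mp hd
    exact mem_filter.mpr ⟨mw_pf_sub hd'.2.1 hp,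
      (Nat.dvd_of_mem_primeFactors hp).trans (Nat.dvd_of_mem_divisors hd'.1)⟩
  have hcard : D.card ≤ 2 ^ T.card := by
    rw [← card_powerset]
    refine card_le_card_of_injOn (fun d => d.primeFactors)
      (fun d hd => mem_coe.mpr (mem_powerset.mpr (hsub d hd))) fun d hd d' hd' h => ?_
    have s1 := (squarefree_primorial w).squarefree_of_dvd (mem_filter.mp hd).2.1
    have s2 := (squarefree_primorial w).squarefree_of_dvd (mem_filter.mp hd').2.1
    rw [← Nat.prod_primeFactors_of_squarefree s1, ← Nat.prod_primeFactors_of_squarefree s2]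
    simp only at h
    rw [h]
  have hprod : (8 : ℝ) ^ T.card ≤ ∏ p ∈ PW w, (1 + if p ∣ n then (8 : ℝ) else 0) := by
    calc (8 : ℝ) ^ T.card = ∏ p ∈ PW w, if p ∣ n then (8 : ℝ) else 1 := by
          rw [prod_ite, prod_const, prod_const_one, mul_one]
      _ ≤ _ := prod_le_prod (fun p _ => by split_ifs <;> norm_num)
          fun p _ => by split_ifs <;> norm_num
  rcases D.eq_empty_or_nonempty with h0 | ⟨d, hd⟩
  · rw [tailT, ← hD, h0, sum_empty, norm_zero, zero_pow two_ne_zero]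
    exact div_nonneg (le_trans (by positivity) hprod) (by positivity)
  · have hr : r ≤ T.card := ((mem_filter.mp hd).2.2.trans_le (card_le_card (hsub d hd))).le
    have h1 : ‖tailT w r n‖ ≤ 2 ^ T.card := by
      rw [tailT, ← hD]
      refine (norm_sum_le _ _).trans ((sum_le_sum fun d _ => mw_norm_mu d).trans ?_)
      rw [sum_const, nsmul_eq_mul, mul_one]
      exact_mod_cast hcard
    rw [le_div_iff₀ (by positivity)]
    refine le_trans ?_ hprod
    calc ‖tailT w r n‖ ^ 2 * 2 ^ r ≤ (2 ^ T.card) ^ 2 * 2 ^ T.card :=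
          mul_le_mul (pow_le_pow_left₀ (norm_nonneg _) h1 2)
            (pow_le_pow_right₀ (by norm_num) hr) (by positivity) (by positivity)
      _ = 8 ^ T.card := by
          rw [← pow_succ, ← pow_mul, mul_comm, pow_mul]; norm_num

lemma mw_moment (w N : ℕ) :
    ∑ n ∈ Ioc 0 N, ∏ p ∈ PW w, (1 + if p ∣ n then (8 : ℝ) else 0) ≤ N * ((w : ℝ) + 1) ^ 8 := by
  simp only [prod_one_add]
  rw [sum_comm]
  have h1 : ∀ S ∈ (PW w).powerset, ∑ n ∈ Ioc 0 N, ∏ p ∈ S, (if p ∣ n then (8 : ℝ) else 0) ≤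
      N * ∏ p ∈ S, (8 / (p : ℝ)) := by
    intro S hS
    have hp : ∀ p ∈ S, p.Prime := fun p hp => (mem_filter.mp (mem_powerset.mp hS hp)).2
    have h2 : ∀ n ∈ Ioc 0 N, ∏ p ∈ S, (if p ∣ n then (8 : ℝ) else 0) ≤
        if (∏ p ∈ S, p) ∣ n then 8 ^ S.card else 0 := by
      intro n _
      rw [prod_ite_zero, prod_const]
      split_ifs with ha hb hb
      · exact le_rfl
      · exact absurd (Finset.prod_primes_dvd n (fun p h => (hp p h).prime) ha) hb
      · positivity
      · exact le_rfl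
    refine (sum_le_sum h2).trans ?_
    rw [← sum_filter, sum_const, nsmul_eq_mul, Nat.Ioc_filter_dvd_card_eq_div, prod_div_distrib,
      prod_const, ← Nat.cast_prod, mul_div_assoc', mul_div_right_comm]
    exact mul_le_mul_of_nonneg_right Nat.cast_div_le (by positivity)
  refine (sum_le_sum h1).trans ?_
  rw [← mul_sum, ← prod_one_add]
  refine mul_le_mul_of_nonneg_left ?_ (Nat.cast_nonneg _)
  have h3 : ∀ w : ℕ, ∏ n ∈ range w, (1 + 1 / ((n : ℝ) + 1)) = w + 1 := by
    intro w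
    induction w with
    | zero => simp
    | succ w ih => rw [prod_range_succ, ih]; push_cast; field_simp
  calc ∏ p ∈ PW w, (1 + 8 / (p : ℝ)) ≤ ∏ p ∈ range (w + 1), (1 + 8 / (p : ℝ)) :=
        prod_le_prod_of_subset_of_one_le (filter_subset _ _) (fun p _ => by positivity)
          fun p _ _ => le_add_of_nonneg_right (by positivity)
    _ = ∏ n ∈ range w, (1 + 8 / ((n : ℝ) + 1)) := by
        rw [prod_range_succ']; simp
    _ ≤ ∏ n ∈ range w, (1 + 1 / ((n : ℝ) + 1)) ^ 8 := by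
        refine prod_le_prod (fun n _ => by positivity) fun n _ => ?_
        have := one_add_mul_le_pow (a := 1 / ((n : ℝ) + 1))
          (le_trans (by norm_num) (by positivity : (0 : ℝ) ≤ 1 / ((n : ℝ) + 1))) 8
        refine le_trans (le_of_eq ?_) this
        push_cast; ring
    _ = _ := by rw [prod_pow, h3]

lemma lamT_supp {w r d : ℕ} {y : ℝ} (hw : (w : ℝ) ≤ y) (hy : 1 ≤ y) (h : lamT w r d ≠ 0) :
    (d : ℝ) ≤ y ^ r := by
  unfold lamT at h
  split_ifs at h with ha
  · have s1 := (squarefree_primorial w).squarefree_of_dvd ha.1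
    rw [← Nat.prod_primeFactors_of_squarefree s1, Nat.cast_prod]
    calc ∏ p ∈ d.primeFactors, (p : ℝ) ≤ ∏ _p ∈ d.primeFactors, y := by
          refine prod_le_prod (fun p _ => Nat.cast_nonneg _) fun p hp => le_trans ?_ hw
          have := mem_range.mp (mem_filter.mp (mw_pf_sub ha.1 hp)).1
          exact_mod_cast Nat.lt_succ_iff.mp this
      _ ≤ y ^ r := by rw [prod_const]; exact pow_le_pow_right₀ hy ha.2
  · exact absurd rfl h

theorem minW (hW : SizeW) (h : MinS) : MinW := by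
  intro ε hε A
  obtain ⟨B0, hB0⟩ := h ε hε (A + 3)
  refine ⟨B0, fun B => ?_⟩
  obtain ⟨D, hD⟩ : ∃ D : ℕ, D = 8 * B + A + 13 := ⟨_, rfl⟩
  have hlog : Tendsto (fun X : ℕ => Real.log X) atTop atTop :=
    Real.tendsto_log_atTop.comp tendsto_natCast_atTop_atTop
  have hsm : ∀ᶠ y : ℝ in atTop, 3 * B * D * Real.log y ^ 2 ≤ ε / 4 * y := by
    have := (Real.isLittleO_pow_log_id_atTop (n := 2)).def
      (c := ε / 4 / (3 * B * D + 1)) (by positivity)
    filter_upwards [this, eventually_ge_atTop 0] with y hy hy0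
    rw [Real.norm_eq_abs, Real.norm_eq_abs, abs_of_nonneg (sq_nonneg _), id, abs_of_nonneg hy0,
      div_mul_eq_mul_div, le_div_iff₀ (by positivity)] at hy
    nlinarith [sq_nonneg (Real.log y)]
  filter_upwards [hB0, hW B, hlog.eventually hsm, hlog.eventually_ge_atTop 4,
    eventually_ge_atTop 1] with X hS hW hsm h4 hX1
  intro w L α hw hL hF
  obtain ⟨Y, hY⟩ : ∃ Y : ℝ, Y = Real.log X := ⟨_, rfl⟩
  rw [← hY] at hS hW hsm h4 hw hF ⊢
  have hX0 : (0 : ℝ) < X := by exact_mod_cast hX1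
  obtain ⟨l, hl⟩ : ∃ l : ℕ, l = Nat.log 2 ⌊Y⌋₊ + 1 := ⟨_, rfl⟩
  have hl1 : Y ≤ 2 ^ l := by
    have h1 : ⌊Y⌋₊ < 2 ^ l := hl ▸ Nat.lt_pow_succ_log_self (by norm_num) _
    have h2 : ((⌊Y⌋₊ + 1 : ℕ) : ℝ) ≤ ((2 ^ l : ℕ) : ℝ) := by exact_mod_cast h1
    push_cast at h2
    linarith [Nat.lt_floor_add_one Y]
  have hlY : 1 ≤ Real.log Y := by
    rw [Real.le_log_iff_exp_le (by linarith)]
    linarith [Real.exp_one_lt_three]
  have hl2 : (l : ℝ) ≤ 3 * Real.log Y := by
    have h0 : ⌊Y⌋₊ ≠ 0 := (Nat.floor_pos.mpr (by linarith)).ne'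
    have h1 : ((2 ^ Nat.log 2 ⌊Y⌋₊ : ℕ) : ℝ) ≤ ⌊Y⌋₊ := by exact_mod_cast Nat.pow_log_le_self 2 h0
    push_cast at h1
    have h3 := Real.log_le_log (by positivity) (h1.trans (Nat.floor_le (by linarith)))
    rw [Real.log_pow] at h3
    have h5 : (1 / 2 : ℝ) ≤ Real.log 2 := by linarith [Real.log_two_gt_d9]
    have h6 : (0 : ℝ) ≤ (Nat.log 2 ⌊Y⌋₊ : ℝ) := by positivity
    rw [hl]; push_cast
    nlinarith
  obtain ⟨r, hr⟩ : ∃ r : ℕ, r = l * D := ⟨_, rfl⟩
  have hB1 : 1 ≤ Y ^ B := one_le_pow₀ (by linarith)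
  have hf := hS L α hL hF (lamT w r)
    (fun d => by unfold lamT; split_ifs; exacts [mw_norm_mu d, by simp])
    (fun d hd => by
      by_contra hne
      refine absurd ((lamT_supp hw hB1 hne).trans ?_) (not_le.mpr hd)
      rw [← pow_mul, Real.rpow_def_of_pos hX0, ← hY, ← Real.exp_log (by linarith : 0 < Y),
        ← Real.exp_nat_mul, Real.exp_log (by linarith : 0 < Y), Real.exp_le_exp, hr]
      push_cast
      have : (0 : ℝ) ≤ B * D * Real.log Y := by positivity
      nlinarith [mul_le_mul_of_nonneg_left hl2 this])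
  have hLX : L ≤ X := le_trans (Nat.le_self_pow two_ne_zero L) hL
  have hg : WE (tailT w r) α L X ≤ (L : ℝ) ^ 2 * X / Y ^ (A + 3) := by
    refine (WE_triv _ _ _ _).trans ?_
    rw [mul_div_assoc]
    refine mul_le_mul_of_nonneg_left ((sum_le_sum fun n _ => tail_sq w r n).trans ?_) (sq_nonneg _)
    rw [← sum_div, div_le_div_iff₀ (by positivity) (by positivity)]
    have h1 : Y ^ D ≤ 2 ^ r := by rw [hr, pow_mul]; exact pow_le_pow_left₀ (by linarith) hl1 D
    have h2 : ((w : ℝ) + 1) ^ 8 ≤ (2 * Y ^ B) ^ 8 := pow_le_pow_left₀ (by positivity) (by linarith) 8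
    have h3 : ((X + L : ℕ) : ℝ) ≤ 2 * X := by
      have : (L : ℝ) ≤ X := by exact_mod_cast hLX
      push_cast; linarith
    have h5 : (512 : ℝ) ≤ Y ^ 10 :=
      le_trans (by norm_num) (pow_le_pow_left₀ (by norm_num : (0 : ℝ) ≤ 4) h4 10)
    calc (∑ n ∈ Ioc 0 (X + L), ∏ p ∈ PW w, (1 + if p ∣ n then (8 : ℝ) else 0)) * Y ^ (A + 3)
        ≤ 2 * X * (2 * Y ^ B) ^ 8 * Y ^ (A + 3) :=
          mul_le_mul_of_nonneg_right ((mw_moment w _).trans
            (mul_le_mul h3 h2 (by positivity) (by positivity))) (by positivity)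
      _ = X * (512 * Y ^ (8 * B + A + 3)) := by ring
      _ ≤ X * (Y ^ 10 * Y ^ (8 * B + A + 3)) := by gcongr
      _ = X * Y ^ D := by rw [hD]; ring
      _ ≤ X * 2 ^ r := by gcongr
  have hc : ‖LW w 1‖ ≤ Y := hW w 1 hw
  have hid : WE (LW w) α L X = WE (fun n => LW w 1 *
      ((fun n => ∑ d ∈ n.divisors, lamT w r d) n + tailT w r n)) α L X := by
    refine WE_congr (fun n hn => ?_) _ _ _
    rw [← ind_split w r hn]
    unfold LW
    rw [if_pos (Nat.coprime_one_left _)]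
    split_ifs <;> simp
  rw [hid, WE_smul]
  have h0 : 0 ≤ (L : ℝ) ^ 2 * X / Y ^ (A + 3) := by positivity
  calc _ ≤ Y ^ 2 * (4 * ((L : ℝ) ^ 2 * X / Y ^ (A + 3))) := by
        refine mul_le_mul (pow_le_pow_left₀ (norm_nonneg _) hc 2)
          ((WE_add _ _ _ _ _).trans (by linarith)) ?_ (by positivity)
        exact sum_nonneg fun x _ => sq_nonneg _
    _ ≤ Y ^ 2 * (Y * ((L : ℝ) ^ 2 * X / Y ^ (A + 3))) := by gcongr
    _ = _ := by rw [pow_add]; field_simp

end Pool.Agent.Lib.MP_68a45e_nt.Av
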