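import Pool.Agent.Lib.MP_6a20cc_nt.SiftDual

/-! A nonnegative weight of mean one on all classes to the given moduli that is large on the
sifted set (Schwarz lemma and duality). -/

namespace Pool.Agent.Lib.MP_68a45e_nt

open Finset hiding dens
open Complex Pool.Agent.Lib.MP_6a20cc_nt

/-- disc automorphism -/
noncomputable def mob (c : ℝ) (x : ℂ) : ℂ := (x + c) / (1 + c * x)

lemma mob_den_ne (c : ℝ) (x : ℂ) (hc : |c| < 1) (hx : ‖x‖ ≤ 1) : 1 + (c : ℂ) * x ≠ 0 := by
  intro h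
  have h1 : (c : ℂ) * x = -1 := by linear_combination h
  have h2 : ‖(c : ℂ) * x‖ = 1 := by rw [h1]; simp
  rw [norm_mul, Complex.norm_real, Real.norm_eq_abs] at h2
  nlinarith [norm_nonneg x, abs_nonneg c]

lemma norm_mob_le (c : ℝ) (x : ℂ) (hc : |c| < 1) (hx : ‖x‖ ≤ 1) : ‖mob c x‖ ≤ 1 := by
  have hne := mob_den_ne c x hc hx
  unfold mob
  rw [norm_div, div_le_one (norm_pos_iff.2 hne), ← sq_le_sq₀ (norm_nonneg _) (norm_nonneg _),
    ← normSq_eq_norm_sq, ← normSq_eq_norm_sq]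
  have h1 : normSq x ≤ 1 := by rw [normSq_eq_norm_sq]; nlinarith [norm_nonneg x]
  have h2 : c ^ 2 ≤ 1 := by rw [← sq_abs]; nlinarith [abs_nonneg c]
  simp only [normSq_apply, add_re, add_im, mul_re, mul_im, ofReal_re, ofReal_im, one_re,
    one_im] at *
  nlinarith [mul_nonneg (sub_nonneg.2 h1) (sub_nonneg.2 h2)]

open Classical in
lemma sum_ite_dens2 (B : ℕ → ℤ → Prop) (p : ℕ) (hp : 0 < p) (u v : ℂ) :
    ∑ m ∈ range p, (if B p m then u else v) = p * (dens B p * u + (1 - dens B p) * v) := by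
  have hp' : (p : ℂ) ≠ 0 := by exact_mod_cast hp.ne'
  have h1 := card_filter_add_card_filter_not (s := range p) (fun m : ℕ => B p m)
  rw [card_range] at h1
  have h2 : (((range p).filter (fun m : ℕ => ¬ B p m)).card : ℂ)
      = p - ((range p).filter (fun m : ℕ => B p m)).card := by
    rw [eq_sub_iff_add_eq, add_comm]
    exact_mod_cast h1
  rw [sum_ite, sum_const, sum_const, nsmul_eq_mul, nsmul_eq_mul, h2]
  unfold dens
  push_cast
  field_simp

/-- the odds of the local density -/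
noncomputable def odds (B : ℕ → ℤ → Prop) (p : ℕ) : ℝ := dens B p / (1 - dens B p)

open Classical in
/-- local test function -/
noncomputable def tst (B : ℕ → ℤ → Prop) (a : ℕ → ℕ) (ρ : ℝ) (p : ℕ) (n : ℤ) (ω : ℂ) : ℂ :=
  if a p = 0 then (if B p n then 0 else 1)
  else (if B p n then mob (-ρ ^ a p) (ω ^ a p) else mob (odds B p * ρ ^ a p) (ω ^ a p))

/-- its mean divided by the power of the variable -/
noncomputable def tmean (B : ℕ → ℤ → Prop) (a : ℕ → ℕ) (ρ : ℝ) (p : ℕ) (ω : ℂ) : ℂ :=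
  if a p = 0 then 1 - dens B p
  else (1 - (odds B p : ℂ) * (ρ ^ a p) ^ 2 - ρ ^ a p * ω ^ a p * (1 - odds B p)) /
    ((1 + ((odds B p * ρ ^ a p : ℝ) : ℂ) * ω ^ a p) * (1 + ((-ρ ^ a p : ℝ) : ℂ) * ω ^ a p))

section loc

variable (B : ℕ → ℤ → Prop) (a : ℕ → ℕ) (ρ : ℝ) (p : ℕ)

lemma odds_nonneg (hg : dens B p < 1) : 0 ≤ odds B p :=
  div_nonneg (dens_nonneg B p) (by linarith)

lemma odds_le_one (hg : dens B p ≤ 1 / 2) : odds B p ≤ 1 := by
  unfold odds
  rw [div_le_one (by linarith)]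
  linarith

lemma abs_c1 (h0 : 0 < ρ) (h1 : ρ < 1) (ha : a p ≠ 0) : |-ρ ^ a p| < 1 := by
  rw [abs_neg, abs_of_pos (pow_pos h0 _)]
  exact pow_lt_one₀ h0.le h1 ha

lemma abs_c0 (h0 : 0 < ρ) (h1 : ρ < 1) (ha : a p ≠ 0) (hg : dens B p ≤ 1 / 2) :
    |odds B p * ρ ^ a p| < 1 := by
  have h2 := odds_nonneg B p (by linarith)
  have h3 := odds_le_one B p hg
  have h4 := pow_lt_one₀ h0.le h1 ha
  rw [abs_of_nonneg (by positivity)]
  nlinarith [pow_pos h0 (a p)]

lemma norm_pow_le (ω : ℂ) (hω : ‖ω‖ ≤ 1) (e : ℕ) : ‖ω ^ e‖ ≤ 1 := by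
  rw [norm_pow]
  exact pow_le_one₀ (norm_nonneg _) hω

lemma norm_tst_le (h0 : 0 < ρ) (h1 : ρ < 1) (hg : a p ≠ 0 → dens B p ≤ 1 / 2) (n : ℤ) (ω : ℂ)
    (hω : ‖ω‖ ≤ 1) : ‖tst B a ρ p n ω‖ ≤ 1 := by
  unfold tst
  split_ifs with ha
  · simp
  · simp
  · exact norm_mob_le _ _ (abs_c1 a ρ p h0 h1 ha) (norm_pow_le ω hω _)
  · exact norm_mob_le _ _ (abs_c0 B a ρ p h0 h1 ha (hg ha)) (norm_pow_le ω hω _)

lemma diff_tst (h0 : 0 < ρ) (h1 : ρ < 1) (hg : a p ≠ 0 → dens B p ≤ 1 / 2) (n : ℤ) (ω : ℂ)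
    (hω : ‖ω‖ ≤ 1) : DifferentiableAt ℂ (tst B a ρ p n) ω := by
  unfold tst
  split_ifs with ha
  · fun_prop
  · fun_prop
  · unfold mob
    exact DifferentiableAt.div (by fun_prop) (by fun_prop)
      (mob_den_ne _ _ (abs_c1 a ρ p h0 h1 ha) (norm_pow_le ω hω _))
  · unfold mob
    exact DifferentiableAt.div (by fun_prop) (by fun_prop)
      (mob_den_ne _ _ (abs_c0 B a ρ p h0 h1 ha (hg ha)) (norm_pow_le ω hω _))

lemma diff_tmean (h0 : 0 < ρ) (h1 : ρ < 1) (hg : a p ≠ 0 → dens B p ≤ 1 / 2) (ω : ℂ)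
    (hω : ‖ω‖ ≤ 1) : DifferentiableAt ℂ (tmean B a ρ p) ω := by
  unfold tmean
  split_ifs with ha
  · fun_prop
  · exact DifferentiableAt.div (by fun_prop) (by fun_prop)
      (mul_ne_zero (mob_den_ne _ _ (abs_c0 B a ρ p h0 h1 ha (hg ha)) (norm_pow_le ω hω _))
        (mob_den_ne _ _ (abs_c1 a ρ p h0 h1 ha) (norm_pow_le ω hω _)))

lemma sum_tst (hp : 0 < p) (h0 : 0 < ρ) (h1 : ρ < 1) (hg : a p ≠ 0 → dens B p ≤ 1 / 2) (ω : ℂ)
    (hω : ‖ω‖ ≤ 1) : ∑ m ∈ range p, tst B a ρ p m ω = p * (ω ^ a p * tmean B a ρ p ω) := by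
  unfold tst tmean
  by_cases ha : a p = 0
  · simp only [if_pos ha]
    rw [sum_ite_dens2 B p hp, ha]
    simp
  · simp only [if_neg ha]
    rw [sum_ite_dens2 B p hp]
    congr 1
    have e0 := mob_den_ne _ _ (abs_c0 B a ρ p h0 h1 ha (hg ha)) (norm_pow_le ω hω (a p))
    have e1 := mob_den_ne _ _ (abs_c1 a ρ p h0 h1 ha) (norm_pow_le ω hω (a p))
    have e2 : (1 : ℝ) - dens B p ≠ 0 := by have := hg ha; linarith
    have e3 : (odds B p : ℂ) * (1 - dens B p) = dens B p := by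
      have : odds B p * (1 - dens B p) = dens B p := by unfold odds; field_simp
      exact_mod_cast this
    unfold mob
    rw [mul_div_assoc', mul_div_assoc', mul_div_assoc', div_add_div _ _ e1 e0,
      div_eq_div_iff (mul_ne_zero e1 e0) (mul_ne_zero e0 e1)]
    push_cast
    generalize (ω ^ a p) = x
    generalize ((ρ : ℂ) ^ a p) = b
    generalize (odds B p : ℂ) = h at *
    generalize (dens B p : ℂ) = g at *
    linear_combination ((1 + h * b * x) * (1 - b * x) * (b - b ^ 2 * x + x * b ^ 2 - b * x ^ 2)) * e3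

open Classical in
lemma tst_at (hg : dens B p < 1) (n : ℤ) :
    tst B a ρ p n (ρ : ℂ) = if B p n then 0 else
      ((ρ ^ a p * ((1 + odds B p) / (1 + odds B p * (ρ ^ a p) ^ 2)) : ℝ) : ℂ) := by
  have h2 := odds_nonneg B p hg
  unfold tst mob
  split_ifs with ha hb hb
  · rfl
  · rw [ha, pow_zero, one_pow, mul_one, div_self (by positivity)]
    simp
  · push_cast
    simp
  · push_cast
    ring

end loc

open Classical in
theorem exists_heavy_weight (S : Finset ℕ) (hS : ∀ p ∈ S, p.Prime) (B : ℕ → ℤ → Prop)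
    (hB : ∀ p ∈ S, ∀ m n : ℤ, m ≡ n [ZMOD p] → (B p m ↔ B p n)) (a : ℕ → ℕ)
    (hg1 : ∀ p ∈ S, dens B p < 1) (hg2 : ∀ p ∈ S, a p ≠ 0 → dens B p ≤ 1 / 2)
    (Q : Finset ℕ) (N : ℕ) (ρ : ℝ) (h0 : 0 < ρ) (h1 : ρ < 1)
    (hQ : ∀ q ∈ Q, (∑ p ∈ S, if p ∣ q then a p else 0) ≤ N) :
    ∃ w : ℤ → ℝ, (∀ n, 0 ≤ w n) ∧ Function.Periodic w ((∏ p ∈ S, p : ℕ) : ℤ) ∧
      (∀ n, (∀ p ∈ S, ¬ B p n) →
        ρ ^ N * ∏ p ∈ S, (1 + odds B p) / (1 + odds B p * (ρ ^ a p) ^ 2) ≤ w n) ∧
      ∀ q ∈ Q, ∀ r : ℤ, ∑ m ∈ range (∏ p ∈ S, p), w (r + q * m) = (∏ p ∈ S, p : ℕ) := by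
  set P := ∏ p ∈ S, p with hP
  have hPpos : 0 < P := prod_pos (fun p hp => (hS p hp).pos)
  have : NeZero P := ⟨hPpos.ne'⟩
  have hBval : ∀ p ∈ S, ∀ n : ℤ, B p ((n : ZMod P).val : ℕ) ↔ B p n := by
    intro p hp n
    apply hB p hp
    exact (val_modEq P n).of_dvd (by exact_mod_cast dvd_prod_of_mem _ hp)
  set κ : ℝ := ∏ p ∈ S, (1 + odds B p) / (1 + odds B p * (ρ ^ a p) ^ 2) with hκ
  have hκ0 : 0 ≤ κ := prod_nonneg fun p hp => by
    have := odds_nonneg B p (hg1 p hp)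
    positivity
  let T : (ZMod P → ℝ) →ₗ[ℝ] (Q × ZMod P → ℝ) :=
    { toFun := fun G i => ∑ m ∈ range P, G (i.2 + ((i.1 : ℕ) : ZMod P) * (m : ZMod P))
      map_add' := fun G G' => by ext i; simp [sum_add_distrib]
      map_smul' := fun c G => by ext i; simp [mul_sum] }
  have hT : ∀ G i, T G i = ∑ m ∈ range P, G (i.2 + ((i.1 : ℕ) : ZMod P) * (m : ZMod P)) :=
    fun _ _ => rfl
  let K : Set (ZMod P → ℝ) := Set.pi Set.univ (fun _ => Set.Icc (-1) 1)
  have hKc : IsCompact K := isCompact_univ_pi (fun x => isCompact_Icc)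
  have hKv : Convex ℝ K := convex_pi (fun x _ => convex_Icc _ _)
  set I : ZMod P → ℝ := fun x => if ∀ p ∈ S, ¬ B p (x.val : ℕ) then 1 else 0 with hI
  have hmem : T ((ρ ^ N * κ) • I) ∈ T '' K := by
    by_contra hno
    obtain ⟨f, u, hf0, hf⟩ := geometric_hahn_banach_point_closed (hKv.linear_image T)
      (hKc.image T.continuous_of_finiteDimensional).isClosed hno
    set c : Q × ZMod P → ℝ := fun i => f (fun j => if i = j then 1 else 0) with hc
    have hfc : ∀ y : Q × ZMod P → ℝ, f y = ∑ i, y i * c i := by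
      intro y
      have := LinearMap.pi_apply_eq_sum_univ (f : (Q × ZMod P → ℝ) →ₗ[ℝ] ℝ) y
      simpa using this
    set W : ℂ → ℤ → ℂ := fun ω n => ∏ p ∈ S, tst B a ρ p n ω with hW
    have hWv : ∀ (ω : ℂ) (n : ℤ), W ω ((n : ZMod P).val : ℕ) = W ω n := by
      intro ω n
      apply prod_congr rfl
      intro p hp
      simp only [tst, hBval p hp n]
    set H : ℂ → ℂ := fun ω => ∑ i : Q × ZMod P,
      (c i : ℂ) * ∑ m ∈ range P, W ω ((i.2.val : ℕ) + ((i.1 : ℕ) : ℤ) * m) with hH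
    have hfH : ∀ e ω : ℂ, f (T (fun x => (e * W ω (x.val : ℕ)).re)) = (e * H ω).re := by
      intro e ω
      rw [hfc, hH, mul_sum, re_sum]
      apply sum_congr rfl
      intro i _
      rw [mul_left_comm, re_ofReal_mul, mul_comm, hT]
      congr 1
      rw [mul_sum, re_sum]
      apply sum_congr rfl
      intro m _
      rw [← hWv ω ((i.2.val : ℕ) + ((i.1 : ℕ) : ℤ) * m)]
      push_cast
      simp
    have hHb : ∀ ω : ℂ, ‖ω‖ ≤ 1 → ‖H ω‖ ≤ -u := by
      intro ω hω
      obtain ⟨e, he, he'⟩ := Complex.exists_norm_eq_mul_self (H ω)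
      have hG : (fun x : ZMod P => (-e * W ω (x.val : ℕ)).re) ∈ K := by
        intro x _
        apply abs_le.1 ((abs_re_le_norm _).trans _)
        rw [norm_mul, norm_neg, he, one_mul, hW, norm_prod]
        exact prod_le_one (fun _ _ => norm_nonneg _)
          (fun p hp => norm_tst_le B a ρ p h0 h1 (hg2 p hp) _ ω hω)
      have h2 := hf _ (Set.mem_image_of_mem T hG)
      rw [hfH, neg_mul, neg_re, ← he', ofReal_re] at h2
      linarith
    set G : ℂ → ℂ := fun ω => ∑ i : Q × ZMod P, ((c i : ℂ) * P) *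
      (ω ^ (N - ∑ p ∈ S, if p ∣ (i.1 : ℕ) then a p else 0) *
        ∏ p ∈ S, if p ∣ (i.1 : ℕ) then tst B a ρ p (i.2.val : ℕ) ω else tmean B a ρ p ω) with hG
    have hGH : ∀ ω : ℂ, ‖ω‖ ≤ 1 → ω ^ N * H ω = ω ^ (∑ p ∈ S, a p) * G ω := by
      intro ω hω
      rw [hH, hG, mul_sum, mul_sum]
      apply sum_congr rfl
      intro i _
      have h2 : ∀ (q : ℕ) (r : ℤ), ∑ m ∈ range P, W ω (r + (q : ℤ) * m)
          = P * (ω ^ (∑ p ∈ S, if p ∣ q then 0 else a p) *
            ∏ p ∈ S, if p ∣ q then tst B a ρ p r ω else tmean B a ρ p ω) := by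
        intro q r
        simp only [hW]
        rw [hP, crt_prod S hS (fun p m => tst B a ρ p (r + (q : ℤ) * m) ω), Nat.cast_prod,
          ← prod_pow_eq_pow_sum, ← prod_mul_distrib, ← prod_mul_distrib]
        · apply prod_congr rfl
          intro p hp
          by_cases hq : p ∣ q
          · have h3 : ∀ m : ℕ, B p (r + q * m) ↔ B p r := by
              intro m
              apply hB p hp
              have : (p : ℤ) ∣ q := by exact_mod_cast hq
              simpa using (Int.ModEq.refl r).add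
                ((Int.modEq_zero_iff_dvd.2 (this.mul_right (m : ℤ))))
            simp only [tst, h3, if_pos hq, sum_const, card_range, nsmul_eq_mul, pow_zero, one_mul]
          · rw [sum_affine p (hS p hp) (fun n => tst B a ρ p n ω)
              (fun m n h => by simp only [tst, hB p hp m n h]) q r (by exact_mod_cast hq),
              sum_tst B a ρ p (hS p hp).pos h0 h1 (hg2 p hp) ω hω, if_neg hq, if_neg hq]
        · intro p hp m n hmn
          have : (r + (q : ℤ) * m) ≡ (r + (q : ℤ) * n) [ZMOD p] :=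
            (Int.ModEq.refl _).add ((Int.natCast_modEq_iff.2 hmn).mul_left _)
          simp only [tst, hB p hp _ _ this]
      have h3 : N + (∑ p ∈ S, if p ∣ (i.1 : ℕ) then 0 else a p)
          = ∑ p ∈ S, a p + (N - ∑ p ∈ S, if p ∣ (i.1 : ℕ) then a p else 0) := by
        have h4 := hQ i.1 i.1.2
        have h5 : ∑ p ∈ S, a p = (∑ p ∈ S, if p ∣ (i.1 : ℕ) then a p else 0)
            + ∑ p ∈ S, if p ∣ (i.1 : ℕ) then 0 else a p := by
          rw [← sum_add_distrib]
          apply sum_congr rfl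
          intro p _
          split_ifs <;> simp
        omega
      have h6 := congrArg (fun e => ω ^ e) h3
      simp only [pow_add] at h6
      rw [h2]
      linear_combination ((c i : ℂ) * P * ∏ p ∈ S, if p ∣ (i.1 : ℕ) then
        tst B a ρ p (i.2.val : ℕ) ω else tmean B a ρ p ω) * h6
    have hGd : DiffContOnCl ℂ G (Metric.ball 0 1) := by
      apply DifferentiableOn.diffContOnCl
      rw [closure_ball _ one_ne_zero]
      intro ω hω
      apply DifferentiableAt.differentiableWithinAt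
      have hω' : ‖ω‖ ≤ 1 := by simpa using hω
      apply DifferentiableAt.fun_sum
      intro i _
      apply DifferentiableAt.const_mul
      apply DifferentiableAt.mul (by fun_prop)
      apply DifferentiableAt.fun_finsetProd
      intro p hp
      split_ifs
      · exact diff_tst B a ρ p h0 h1 (hg2 p hp) _ ω hω'
      · exact diff_tmean B a ρ p h0 h1 (hg2 p hp) ω hω'
    have hρn : ‖(ρ : ℂ)‖ = ρ := by rw [Complex.norm_real, Real.norm_eq_abs, abs_of_pos h0]
    have hGρ : ‖G ρ‖ ≤ -u := by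
      apply norm_le_of_forall_mem_frontier_norm_le Metric.isBounded_ball hGd
      · intro ω hω
        rw [frontier_ball _ one_ne_zero] at hω
        have hω' : ‖ω‖ = 1 := by simpa using hω
        have h2 := congrArg norm (hGH ω hω'.le)
        rw [norm_mul, norm_mul, norm_pow, norm_pow, hω', one_pow, one_pow, one_mul, one_mul] at h2
        rw [← h2]
        exact hHb ω hω'.le
      · apply subset_closure
        simpa [abs_of_pos h0] using h1
    have h2 := congrArg norm (hGH ρ (by rw [hρn]; exact h1.le))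
    rw [norm_mul, norm_mul, norm_pow, norm_pow, hρn] at h2
    have h3 : (fun x : ZMod P => (1 * W ρ (x.val : ℕ)).re) = (ρ ^ (∑ p ∈ S, a p) * κ) • I := by
      ext x
      simp only [hW, hI, one_mul, Pi.smul_apply, smul_eq_mul]
      rw [prod_congr rfl (fun p hp => tst_at B a ρ p (hg1 p hp) (x.val : ℕ))]
      by_cases hx : ∀ p ∈ S, ¬ B p (x.val : ℕ)
      · rw [if_pos hx, prod_congr rfl (fun p hp => if_neg (hx p hp)), ← ofReal_prod, ofReal_re,
          prod_mul_distrib, prod_pow_eq_pow_sum, mul_one]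
      · rw [if_neg hx, mul_zero]
        push Not at hx
        obtain ⟨p, hp, hb⟩ := hx
        rw [prod_eq_zero hp (by exact if_pos hb), zero_re]
    have h4 := hfH 1 ρ
    rw [h3, map_smul, map_smul, one_mul, smul_eq_mul] at h4
    rw [map_smul, map_smul, smul_eq_mul] at hf0
    have h5 := abs_le.1 (abs_re_le_norm (H ρ))
    have h6 : 0 < ρ ^ (∑ p ∈ S, a p) := pow_pos h0 _
    have h7 : 0 < ρ ^ N := pow_pos h0 _
    have h8 : ρ ^ (∑ p ∈ S, a p) * (ρ ^ N * κ * f (T I)) < ρ ^ (∑ p ∈ S, a p) * u :=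
      mul_lt_mul_of_pos_left hf0 h6
    have h9 := mul_le_mul_of_nonneg_left hGρ h6.le
    have h10 := mul_le_mul_of_nonneg_left h5.1 h7.le
    rw [← h4] at h10
    nlinarith
  obtain ⟨G, hGK, hG0⟩ := hmem
  have hGb : ∀ x, G x ≤ 1 := fun x => (hGK x (Set.mem_univ _)).2
  have hτ : 0 ≤ ρ ^ N * κ := by positivity
  refine ⟨fun n => 1 + ρ ^ N * κ * I (n : ZMod P) - G (n : ZMod P), fun n => ?_, fun n => ?_,
    fun n hn => ?_, fun q hq r => ?_⟩
  · have h2 := hGb (n : ZMod P)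
    have h3 : 0 ≤ I (n : ZMod P) := by
      simp only [hI]
      split_ifs <;> norm_num
    have := mul_nonneg hτ h3
    simp only
    linarith
  · simp
  · have h2 := hGb (n : ZMod P)
    have h3 : I (n : ZMod P) = 1 := if_pos (fun p hp => (hBval p hp n).not.2 (hn p hp))
    simp only [h3]
    linarith
  · have := congrFun hG0 (⟨q, hq⟩, (r : ZMod P))
    rw [hT, hT] at this
    simp only [Pi.smul_apply, smul_eq_mul] at this
    rw [sum_sub_distrib, sum_add_distrib]
    push_cast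
    rw [this]
    simp

end Pool.Agent.Lib.MP_68a45e_nt
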