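import Pool.Agent.Lib.MP_68a45e_nt.BarrierMain

/-! The barrier for upper bound sieves of level `x`. -/

namespace Pool.Agent.Lib.MP_68a45e_nt

open Finset hiding dens
open Filter Topology N9a2a6718 Pool.Agent.Lib.MP_6a20cc_nt

variable {k : ℕ}

lemma prod_bound (m : Fin k.succ → ℕ) (hm : Function.Injective m) (w z : ℕ) (hw2 : 2 ≤ w)
    (hwm : ∀ i, m i ≤ w) (hwK : 2 * k.succ ≤ w) (hwz : w ≤ z)
    (hg : ∀ p ∈ Nat.primesLE w, dens (BadT m) p < 1) (l η : ℝ) (hl : 0 < l) (hη : 0 ≤ η)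
    (b : ℕ → ℝ) (hb1 : ∀ p, p ≤ w → b p = 1)
    (hb0 : ∀ p, 0 ≤ b p) (hb2 : ∀ p : ℕ, p.Prime → w < p → b p ≤ (p : ℝ) ^ (-l) * (1 + η / z)) :
    ∏ p ∈ Nat.primesLE z, (1 + odds (BadT m) p * b p)
      ≤ (HardyLittlewoodPartialProduct m (w + 1))⁻¹ *
        Real.exp (k.succ * l * w * (w + 1) + η + 2 * k.succ ^ 2 / w) * (1 + 1 / l) ^ k.succ := by
  have hz0 : (0 : ℝ) < z := by exact_mod_cast (by omega : 0 < z)
  have ht : ∀ p ∈ Nat.primesLE z, 0 < 1 - (p : ℝ) ^ (-(1 + l)) := fun p hp => by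
    have := Real.rpow_lt_one_of_one_lt_of_neg
      (show (1 : ℝ) < p by exact_mod_cast Nat.one_lt_of_mem_primesLE hp)
      (show -(1 + l) < 0 by linarith)
    linarith
  have hdl : ∀ p : ℕ, p.Prime → w < p → dens (BadT m) p = (k.succ : ℝ) / p := fun p hp h =>
    densT_large m hm p hp (by omega) (fun i => by have := hwm i; omega)
  have hodds : ∀ p ∈ Nat.primesLE z, 0 ≤ odds (BadT m) p := by
    intro p hp
    have hp' := Nat.prime_of_mem_primesLE hp
    apply odds_nonneg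
    by_cases h : p ≤ w
    · exact hg p (Nat.mem_primesLE.2 ⟨h, hp'⟩)
    · rw [hdl p hp' (not_le.1 h), div_lt_one (by exact_mod_cast hp'.pos)]
      exact_mod_cast (by omega : k.succ < p)
  have h1 : ∏ p ∈ Nat.primesLE z, (1 + odds (BadT m) p * b p)
      = (∏ p ∈ Nat.primesLE z, (1 + odds (BadT m) p * b p) * (1 - (p : ℝ) ^ (-(1 + l))) ^ k.succ)
        * (∏ p ∈ Nat.primesLE z, (1 - (p : ℝ) ^ (-(1 + l)))⁻¹) ^ k.succ := by
    rw [← prod_pow, ← prod_mul_distrib]
    apply prod_congr rfl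
    intro p hp
    rw [mul_assoc, ← mul_pow, mul_inv_cancel₀ (ht p hp).ne', one_pow, mul_one]
  have h2 : ∏ p ∈ Nat.primesLE z, (1 + odds (BadT m) p * b p) * (1 - (p : ℝ) ^ (-(1 + l))) ^ k.succ
      ≤ ∏ p ∈ Nat.primesLE z,
        (if p ≤ w then ((1 - dens (BadT m) p) / (1 - 1 / (p : ℝ)) ^ k.succ)⁻¹ else 1) *
        Real.exp (if p ≤ w then k.succ * l * w else η / z + 2 * k.succ ^ 2 * ((p : ℝ) ^ 2)⁻¹) := by
    apply Finset.prod_le_prod
    · intro p hp
      have := hodds p hp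
      have := hb0 p
      have := ht p hp
      positivity
    · intro p hp
      have hp' := Nat.prime_of_mem_primesLE hp
      have hp2 : (2 : ℝ) ≤ p := by exact_mod_cast hp'.two_le
      by_cases h : p ≤ w
      · rw [if_pos h, if_pos h, hb1 p h, mul_one]
        exact small_factor k.succ p _ l w hp2 (by exact_mod_cast h)
          (hg p (Nat.mem_primesLE.2 ⟨h, hp'⟩)) hl
      · rw [if_neg h, if_neg h, one_mul, odds, hdl p hp' (not_le.1 h)]
        exact large_factor k.succ p _ l _ hp2 (by exact_mod_cast (by omega : 2 * k.succ ≤ p)) hl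
          (by positivity) (hb2 p hp' (not_le.1 h))
  have hfil : (Nat.primesLE z).filter (· ≤ w) = Nat.primesLE w := by
    ext p
    simp only [mem_filter, Nat.mem_primesLE]
    constructor
    · rintro ⟨⟨_, h1⟩, h2⟩
      exact ⟨h2, h1⟩
    · rintro ⟨h1, h2⟩
      exact ⟨⟨by omega, h2⟩, h1⟩
  have hcard : ∀ n : ℕ, ((Nat.primesLE n).card : ℝ) ≤ n := by
    intro n
    have : (Nat.primesLE n).card ≤ (Ioc 0 n).card := by
      rw [Nat.primesLE_eq_filter_Ioc_zero]
      exact card_filter_le _ _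
    rw [Nat.card_Ioc] at this
    exact_mod_cast this
  have h3 : ∑ p ∈ Nat.primesLE z,
      (if p ≤ w then (k.succ : ℝ) * l * w else η / z + 2 * k.succ ^ 2 * ((p : ℝ) ^ 2)⁻¹)
      ≤ k.succ * l * w * (w + 1) + η + 2 * k.succ ^ 2 / w := by
    rw [sum_ite, hfil, sum_const, nsmul_eq_mul, sum_add_distrib, sum_const, nsmul_eq_mul,
      ← mul_sum]
    have a1 : ((Nat.primesLE w).card : ℝ) * (k.succ * l * w) ≤ k.succ * l * w * (w + 1) := by
      have := hcard w
      have : (0 : ℝ) ≤ k.succ * l * w := by positivity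
      nlinarith
    have a2 : (((Nat.primesLE z).filter (fun p => ¬ p ≤ w)).card : ℝ) * (η / z) ≤ η := by
      have b1 : (((Nat.primesLE z).filter (fun p => ¬ p ≤ w)).card : ℝ) ≤ z :=
        le_trans (by exact_mod_cast card_filter_le _ _) (hcard z)
      calc _ ≤ z * (η / z) := mul_le_mul_of_nonneg_right b1 (by positivity)
        _ = η := by field_simp
    have a3 : ∑ p ∈ (Nat.primesLE z).filter (fun p => ¬ p ≤ w), ((p : ℝ) ^ 2)⁻¹ ≤ (w : ℝ)⁻¹ := by
      have b1 := sum_Ioc_inv_sq_le_sub (α := ℝ) (k := w) (n := z) (by omega) hwz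
      have b2 : ∑ p ∈ (Nat.primesLE z).filter (fun p => ¬ p ≤ w), ((p : ℝ) ^ 2)⁻¹
          ≤ ∑ p ∈ Ioc w z, ((p : ℝ) ^ 2)⁻¹ := by
        apply sum_le_sum_of_subset_of_nonneg
        · intro p hp
          rw [mem_filter, Nat.mem_primesLE] at hp
          exact mem_Ioc.2 ⟨not_le.1 hp.2, hp.1.1⟩
        · intro p _ _
          positivity
      have b3 : (0 : ℝ) ≤ (z : ℝ)⁻¹ := by positivity
      linarith
    have a4 := mul_le_mul_of_nonneg_left a3 (show (0 : ℝ) ≤ 2 * k.succ ^ 2 by positivity)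
    rw [div_eq_mul_inv (2 * (k.succ : ℝ) ^ 2)]
    linarith
  have h4 : ∏ p ∈ Nat.primesLE z,
      (if p ≤ w then ((1 - dens (BadT m) p) / (1 - 1 / (p : ℝ)) ^ k.succ)⁻¹ else 1)
      = (HardyLittlewoodPartialProduct m (w + 1))⁻¹ := by
    rw [prod_ite, hfil, prod_const_one, mul_one, prod_inv_distrib, PP_eq_prod m w hw2]
  rw [prod_mul_distrib (f := fun p : ℕ => if p ≤ w then
    ((1 - dens (BadT m) p) / (1 - 1 / (p : ℝ)) ^ k.succ)⁻¹ else 1), h4, ← Real.exp_sum] at h2
  have h5 : 0 ≤ (HardyLittlewoodPartialProduct m (w + 1))⁻¹ := inv_nonneg.2 (PP_nonneg m _)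
  have h6 : 0 ≤ ∏ p ∈ Nat.primesLE z, (1 - (p : ℝ) ^ (-(1 + l)))⁻¹ :=
    prod_nonneg fun p hp => inv_nonneg.2 (ht p hp).le
  rw [h1]
  apply mul_le_mul _ (pow_le_pow_left₀ h6 (euler_le l hl z) k.succ) (pow_nonneg h6 _) (by positivity)
  exact h2.trans (mul_le_mul_of_nonneg_left (Real.exp_le_exp.2 h3) h5)

theorem sieve_barrier (m : Fin k.succ → ℕ) (hm : Function.Injective m) :
    ∃ C : ℝ, 0 ≤ C ∧ Tendsto (HardyLittlewoodPartialProduct m) atTop (𝓝 C) ∧
      ∀ ε : ℝ, 0 < ε → ∀ᶠ x : ℕ in atTop, ∀ (z : ℕ) (c : ℕ → ℤ → ℝ),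
        (∀ n : ℤ, 0 ≤ ∑ q ∈ Icc 1 x, c q (n % q)) →
        (∀ n : ℤ, (∀ p : ℕ, p.Prime → p ≤ z → ∀ i, ¬ (p : ℤ) ∣ n + 2 * m i) →
          1 ≤ ∑ q ∈ Icc 1 x, c q (n % q)) →
        (1 - ε) * (2 * (k + 1) / Real.exp 1) ^ (k + 1) * C / Real.log x ^ (k + 1)
          ≤ ∑ q ∈ Icc 1 x, (∑ r ∈ range q, c q r) / q := by
  obtain ⟨C, hC0, hC, -⟩ := exists_C m hm
  refine ⟨C, hC0, hC, fun ε hε => ?_⟩
  have hlog := Real.tendsto_log_atTop.comp tendsto_natCast_atTop_atTop
  by_cases htriv : C = 0 ∨ 1 ≤ ε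
  · filter_upwards with x z c h0 _
    refine le_trans ?_ (main_nonneg x c h0)
    have h1 := Real.log_natCast_nonneg x
    apply div_nonpos_of_nonpos_of_nonneg _ (by positivity)
    rcases htriv with h | h
    · simp [h]
    · rw [mul_assoc]
      exact mul_nonpos_of_nonpos_of_nonneg (by linarith) (by positivity)
  push Not at htriv
  have hCpos : 0 < C := lt_of_le_of_ne hC0 (Ne.symm htriv.1)
  have hKr : (k.succ : ℝ) = k + 1 := by push_cast; ring
  have hK1 : (1 : ℝ) ≤ k.succ := by rw [hKr]; have : (0 : ℝ) ≤ k := Nat.cast_nonneg _; linarith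
  set η := ε / 5 with hη
  have hη0 : 0 < η := by positivity
  have hη1 : η < 1 := by linarith [htriv.2]
  obtain ⟨w, hw1, hw2, hw3, hw4, hw5⟩ :=
    ((((tendsto_add_atTop_iff_nat 1).2 hC).eventually_const_le
      (show C * (1 - η) < C by nlinarith)).and
    ((eventually_ge_atTop 2).and ((eventually_all.2 fun i => eventually_ge_atTop (m i)).and
    ((eventually_ge_atTop (2 * k.succ)).and
    ((tendsto_natCast_atTop_atTop (R := ℝ)).eventually_ge_atTop (2 * k.succ ^ 2 / η)))))).exists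
  have hw0 : (0 : ℝ) < w := by exact_mod_cast (by omega : 0 < w)
  have hPP : 0 < HardyLittlewoodPartialProduct m (w + 1) :=
    lt_of_lt_of_le (mul_pos hCpos (by linarith)) hw1
  have hgw : ∀ p ∈ Nat.primesLE w, dens (BadT m) p < 1 := by
    intro p hp
    have h1 := hPP.ne'
    rw [PP_eq_prod m w hw2, prod_ne_zero_iff] at h1
    have h2 : 1 - dens (BadT m) p ≠ 0 := fun h => h1 p hp (by rw [h, zero_div])
    have h3 : dens (BadT m) p ≤ 1 := by
      unfold dens
      rw [div_le_one (by exact_mod_cast (Nat.prime_of_mem_primesLE hp).pos)]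
      classical
      exact_mod_cast (card_filter_le _ _).trans (card_range p).le
    exact lt_of_le_of_ne h3 (fun h => h2 (by rw [h, sub_self]))
  filter_upwards [hlog.eventually_ge_atTop (2 * k.succ ^ 2 * (w * (w + 1) + 1) / η),
    eventually_ge_atTop 1] with x hx hx1 z0 c hc0 hc1
  simp only [Function.comp] at hx
  set L := Real.log x with hL
  have hL0 : 0 < L := lt_of_lt_of_le (by positivity) hx
  set z := max z0 w with hz
  have hwz : w ≤ z := le_max_right _ _
  have hz0 : (0 : ℝ) < z := by exact_mod_cast (by omega : 0 < z)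
  set l : ℝ := 2 * k.succ / L with hl
  have hl0 : 0 < l := by positivity
  have hlL : l * L = 2 * k.succ := by rw [hl]; field_simp
  set δ : ℝ := Real.log (1 + η / z) / l with hδ
  have hηz : 0 < η / z := by positivity
  have hδ0 : 0 < δ := div_pos (Real.log_pos (by linarith)) hl0
  have hlδ : Real.exp (l * δ) = 1 + η / z := by
    rw [hδ, mul_div_cancel₀ _ hl0.ne', Real.exp_log (by linarith)]
  set ρ : ℝ := Real.exp (-(l * δ / 2)) with hρ
  have hρ0 : 0 < ρ := Real.exp_pos _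
  have hρ1 : ρ < 1 := by
    rw [hρ, ← Real.exp_zero, Real.exp_lt_exp]
    have := mul_pos hl0 hδ0
    linarith
  set a : ℕ → ℕ := fun p => if w < p then ⌊Real.log p / δ⌋₊ else 0 with ha
  have hS : ∀ p ∈ Nat.primesLE z, p.Prime := fun p hp => Nat.prime_of_mem_primesLE hp
  have hdl : ∀ p : ℕ, p.Prime → w < p → dens (BadT m) p ≤ 1 / 2 := fun p hp h => by
    rw [densT_large m hm p hp (by omega) (fun i => by have := hw3 i; omega),
      div_le_div_iff₀ (by exact_mod_cast hp.pos) two_pos]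
    exact_mod_cast (by omega : k.succ * 2 ≤ 1 * p)
  have key := main_lower (Nat.primesLE z) hS (BadT m) (fun p _ m' n h => bad_congr _ _ p m' n h) a
    (fun p hp => by
      by_cases h : p ≤ w
      · exact hgw p (Nat.mem_primesLE.2 ⟨h, hS p hp⟩)
      · linarith [hdl p (hS p hp) (not_le.1 h)])
    (fun p hp h => hdl p (hS p hp) (by
      by_contra h'
      exact h (if_neg h')))
    x ⌊L / δ⌋₊ ρ hρ0 hρ1
    (fun q hq => by
      rw [mem_Icc] at hq
      apply Nat.le_floor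
      rw [le_div_iff₀ hδ0]
      have h1 : ∏ p ∈ (Nat.primesLE z).filter (· ∣ q), p ∣ q :=
        Finset.prod_primes_dvd q (fun p hp => (hS p (mem_filter.1 hp).1).prime)
          (fun p hp => (mem_filter.1 hp).2)
      have h2 : 0 < ∏ p ∈ (Nat.primesLE z).filter (· ∣ q), p :=
        prod_pos fun p hp => (hS p (mem_filter.1 hp).1).pos
      rw [← sum_filter, Nat.cast_sum, sum_mul]
      calc ∑ p ∈ (Nat.primesLE z).filter (· ∣ q), (a p : ℝ) * δ
          ≤ ∑ p ∈ (Nat.primesLE z).filter (· ∣ q), Real.log p := by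
            apply sum_le_sum
            intro p _
            have h3 := Real.log_natCast_nonneg p
            simp only [ha]
            split_ifs
            · rw [← le_div_iff₀ hδ0]
              exact Nat.floor_le (by positivity)
            · simpa using h3
        _ = Real.log ((∏ p ∈ (Nat.primesLE z).filter (· ∣ q), p : ℕ) : ℝ) := by
            rw [Nat.cast_prod, Real.log_prod]
            intro p hp
            exact_mod_cast (hS p (mem_filter.1 hp).1).pos.ne'
        _ ≤ L := Real.log_le_log (by exact_mod_cast h2)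
            (by exact_mod_cast (Nat.le_of_dvd hq.1 h1).trans hq.2))
    c hc0
    (fun n hn => hc1 n fun p hp hpz i hi =>
      hn p (Nat.mem_primesLE.2 ⟨hpz.trans (le_max_left _ _), hp⟩) ⟨i, by simpa using hi⟩)
  have hprod := prod_bound m hm w z hw2 hw3 hw4 hwz hgw l η hl0 hη0.le (fun p => (ρ ^ a p) ^ 2)
    (fun p hp => by simp [ha, not_lt.2 hp]) (fun p => by positivity)
    (fun p hp hlt => by
      have h1 := Nat.lt_floor_add_one (Real.log p / δ)
      rw [div_lt_iff₀ hδ0] at h1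
      simp only [ha, if_pos hlt]
      rw [← pow_mul, hρ, ← Real.exp_nat_mul, ← hlδ,
        Real.rpow_def_of_pos (by exact_mod_cast hp.pos), ← Real.exp_add, Real.exp_le_exp]
      push_cast
      nlinarith)
  refine le_trans ?_ key
  have hpos : 0 < ∏ p ∈ Nat.primesLE z, (1 + odds (BadT m) p * (ρ ^ a p) ^ 2) := by
    apply prod_pos
    intro p hp
    have : 0 ≤ odds (BadT m) p := by
      apply odds_nonneg
      by_cases h : p ≤ w
      · exact hgw p (Nat.mem_primesLE.2 ⟨h, hS p hp⟩)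
      · linarith [hdl p (hS p hp) (not_le.1 h)]
    positivity
  have hρN : Real.exp (-(k.succ : ℝ)) ≤ ρ ^ ⌊L / δ⌋₊ := by
    rw [hρ, ← Real.exp_nat_mul, Real.exp_le_exp]
    have h1 : (⌊L / δ⌋₊ : ℝ) ≤ L / δ := Nat.floor_le (by positivity)
    rw [le_div_iff₀ hδ0] at h1
    nlinarith
  set s : ℝ := k.succ * l * w * (w + 1) + η + 2 * k.succ ^ 2 / w with hs
  have hs1 : s + k.succ * l ≤ 4 * η := by
    have h1 : 2 * (k.succ : ℝ) ^ 2 / w ≤ η := by
      rw [div_le_iff₀ hη0] at hw5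
      rw [div_le_iff₀ hw0]
      linarith
    have h2 : k.succ * l * (w * (w + 1) + 1) ≤ η := by
      rw [div_le_iff₀ hη0] at hx
      apply le_of_mul_le_mul_right _ hL0
      calc k.succ * l * (w * (w + 1) + 1) * L = k.succ * (l * L) * (w * (w + 1) + 1) := by ring
        _ = 2 * k.succ ^ 2 * (w * (w + 1) + 1) := by rw [hlL]; ring
        _ ≤ _ := by linarith
    nlinarith
  have hz1 : (1 + 1 / l) ^ k.succ ≤ Real.exp (k.succ * l) / l ^ k.succ := by
    rw [Real.exp_nat_mul, ← div_pow]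
    apply pow_le_pow_left₀ (by positivity)
    rw [le_div_iff₀ hl0]
    have := Real.add_one_le_exp l
    field_simp
    linarith
  have hprod2 : ∏ p ∈ Nat.primesLE z, (1 + odds (BadT m) p * (ρ ^ a p) ^ 2)
      ≤ (C * (1 - η))⁻¹ * Real.exp (4 * η) / l ^ k.succ := by
    refine hprod.trans ?_
    have h1 : (HardyLittlewoodPartialProduct m (w + 1))⁻¹ ≤ (C * (1 - η))⁻¹ :=
      inv_anti₀ (by nlinarith) hw1
    calc (HardyLittlewoodPartialProduct m (w + 1))⁻¹ * Real.exp s * (1 + 1 / l) ^ k.succ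
        ≤ (C * (1 - η))⁻¹ * Real.exp s * (Real.exp (k.succ * l) / l ^ k.succ) := by
          have : 0 < (C * (1 - η))⁻¹ := inv_pos.2 (by nlinarith)
          gcongr
      _ = (C * (1 - η))⁻¹ * Real.exp (s + k.succ * l) / l ^ k.succ := by
          rw [Real.exp_add s]; ring
      _ ≤ _ := by
          have : 0 < (C * (1 - η))⁻¹ := inv_pos.2 (by nlinarith)
          gcongr
  have hfin : (1 - ε) * (2 * (k + 1) / Real.exp 1) ^ (k + 1) * C / L ^ (k + 1)
      ≤ Real.exp (-(k.succ : ℝ)) / ((C * (1 - η))⁻¹ * Real.exp (4 * η) / l ^ k.succ) := by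
    have h1 : (2 * ((k : ℝ) + 1) / Real.exp 1) ^ (k + 1) / L ^ (k + 1)
        = Real.exp (-(k.succ : ℝ)) * l ^ k.succ := by
      rw [← div_pow, ← hKr, show Real.exp (-(k.succ : ℝ)) = (Real.exp 1)⁻¹ ^ k.succ by
        rw [← Real.exp_neg, ← Real.exp_nat_mul]; simp, ← mul_pow, hl]
      congr 1
      field_simp
    have h2 : Real.exp (-(k.succ : ℝ)) / ((C * (1 - η))⁻¹ * Real.exp (4 * η) / l ^ k.succ)
        = ((1 - η) * Real.exp (-(4 * η))) * C * (Real.exp (-(k.succ : ℝ)) * l ^ k.succ) := by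
      have : 1 - η ≠ 0 := by linarith
      rw [Real.exp_neg (4 * η)]
      field_simp
    have h3 : 1 - ε ≤ (1 - η) * Real.exp (-(4 * η)) := by
      have := Real.add_one_le_exp (-(4 * η))
      have h4 : (1 - η) * (-(4 * η) + 1) ≤ (1 - η) * Real.exp (-(4 * η)) :=
        mul_le_mul_of_nonneg_left this (by linarith)
      nlinarith
    rw [h2, ← h1]
    calc (1 - ε) * (2 * (k + 1) / Real.exp 1) ^ (k + 1) * C / L ^ (k + 1)
        = (1 - ε) * C * ((2 * (k + 1) / Real.exp 1) ^ (k + 1) / L ^ (k + 1)) := by ring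
      _ ≤ _ := by gcongr
  refine hfin.trans ?_
  exact div_le_div₀ (by positivity) hρN hpos hprod2

end Pool.Agent.Lib.MP_68a45e_nt
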