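import Pool.Agent.Lib.MP_68a45e_nt.Param
import Pool.Prelude.Def_F_c8bfdf43

set_option autoImplicit false

namespace Pool.Agent.Lib.MP_68a45e_nt

open Finset N9a2a6718

variable {k : ℕ}

noncomputable def fac (m : Fin k.succ → ℕ) (q : ℕ) : ℝ :=
  (1 - (N9a2a6718.Nat.numResidues q m : ℝ) / q) / (1 - 1 / q) ^ k.succ

lemma PP_eq (m : Fin k.succ → ℕ) (N : ℕ) : HardyLittlewoodPartialProduct m N =
    2 ^ k * ∏ q ∈ (Nat.primesBelow N).filter (fun q => 3 ≤ q), fac m q := rfl

lemma numRes_eq (m : Fin k.succ → ℕ) (q : ℕ) : N9a2a6718.Nat.numResidues q m =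
    (univ.image (fun i => (m i : ZMod q))).card := by
  rw [N9a2a6718.Nat.numResidues, ← Set.ncard_coe_finset, coe_image, coe_univ, Set.image_univ]

lemma numRes_le (m : Fin k.succ → ℕ) {q : ℕ} (hq : 0 < q) : N9a2a6718.Nat.numResidues q m ≤ q := by
  have : NeZero q := ⟨hq.ne'⟩
  rw [numRes_eq]
  exact (card_le_univ _).trans (by simp)

lemma fac_nonneg (m : Fin k.succ → ℕ) {q : ℕ} (hq : 0 < q) : 0 ≤ fac m q := by
  have h0 : (1 : ℝ) ≤ q := by exact_mod_cast hq
  have h1 : (N9a2a6718.Nat.numResidues q m : ℝ) ≤ q := by exact_mod_cast numRes_le m hq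
  apply div_nonneg
  · rw [sub_nonneg, div_le_one (by linarith)]; exact h1
  · apply pow_nonneg
    rw [sub_nonneg, div_le_one (by linarith)]; exact h0

lemma PP_nonneg (m : Fin k.succ → ℕ) (N : ℕ) : 0 ≤ HardyLittlewoodPartialProduct m N := by
  rw [PP_eq]
  apply mul_nonneg (by positivity)
  exact prod_nonneg (fun q hq => fac_nonneg m (by have := (mem_filter.mp hq).2; omega))

lemma one_sub_pow_le (x : ℝ) (h0 : 0 ≤ x) (h1 : x ≤ 1) (n : ℕ) :
    (1 - x) ^ n ≤ 1 - n * x + n ^ 2 * x ^ 2 / 2 := by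
  induction n with
  | zero => simp
  | succ n ih =>
    rw [pow_succ]
    have h2 := mul_le_mul_of_nonneg_right ih (show 0 ≤ 1 - x by linarith)
    have h3 : (0 : ℝ) ≤ n ^ 2 * x ^ 3 := by positivity
    push_cast
    nlinarith [sq_nonneg x]

lemma fac_bounds (m : Fin k.succ → ℕ) (hm : Function.Injective m) {q : ℕ} (h1 : ∀ i, m i < q)
    (h2 : 2 * k.succ ≤ q) : 1 - (k.succ : ℝ) ^ 2 * ((q : ℝ) ^ 2)⁻¹ ≤ fac m q ∧ fac m q ≤ 1 := by
  have e : N9a2a6718.Nat.numResidues q m = k.succ := by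
    rw [numRes_eq, card_image_of_injective]
    · simp
    · intro i j hij
      exact hm (((ZMod.natCast_eq_natCast_iff _ _ _).mp hij).eq_of_lt_of_lt (h1 i) (h1 j))
  have hK : (1 : ℝ) ≤ k.succ := by exact_mod_cast Nat.succ_pos k
  have h2' : 2 * (k.succ : ℝ) ≤ q := by exact_mod_cast h2
  have hq : (0 : ℝ) < q := by linarith
  set x : ℝ := 1 / q with hx
  have hx0 : 0 ≤ x := by positivity
  have hx1 : (k.succ : ℝ) * x ≤ 1 / 2 := by
    rw [hx, mul_one_div, div_le_div_iff₀ hq (by norm_num)]; linarith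
  have hx2 : x ≤ 1 := by nlinarith
  have b1 := one_add_mul_le_pow (show -2 ≤ -x by linarith) k.succ
  have b2 := one_sub_pow_le x hx0 hx2 k.succ
  rw [← sub_eq_add_neg] at b1
  have b3 : 0 < (1 - x) ^ k.succ := by linarith
  have e2 : ((q : ℝ) ^ 2)⁻¹ = x ^ 2 := by rw [hx]; field_simp
  rw [fac, e, e2, div_eq_mul_one_div (k.succ : ℝ), ← hx, le_div_iff₀ b3, div_le_one b3]
  constructor
  · have : 0 ≤ (k.succ : ℝ) ^ 2 * x ^ 2 := by positivity
    nlinarith
  · linarith

lemma PP_succ (m : Fin k.succ → ℕ) (N : ℕ) (hN : 3 ≤ N) : HardyLittlewoodPartialProduct m (N + 1) =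
    HardyLittlewoodPartialProduct m N * (if N.Prime then fac m N else 1) := by
  rw [PP_eq, PP_eq, Nat.primesBelow_succ]
  split_ifs with h
  · rw [filter_insert, if_pos hN, prod_insert (fun hc => by
      have := Nat.lt_of_mem_primesBelow (mem_filter.mp hc).1; omega)]
    ring
  · simp

lemma PP_tail (m : Fin k.succ → ℕ) (hm : Function.Injective m) (w : ℕ) (h1 : ∀ i, m i ≤ w)
    (h2 : 2 * k.succ ≤ w) (n : ℕ) :
    HardyLittlewoodPartialProduct m (w + 1) * (1 - (k.succ : ℝ) ^ 2 *
      ∑ q ∈ Ioc w (w + n), ((q : ℝ) ^ 2)⁻¹) ≤ HardyLittlewoodPartialProduct m (w + n + 1) ∧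
    HardyLittlewoodPartialProduct m (w + n + 1 + 1) ≤ HardyLittlewoodPartialProduct m (w + n + 1) := by
  have key : ∀ n, HardyLittlewoodPartialProduct m (w + n + 1) *
      (1 - (k.succ : ℝ) ^ 2 * (((w + n + 1 : ℕ) : ℝ) ^ 2)⁻¹) ≤
      HardyLittlewoodPartialProduct m (w + n + 1 + 1) ∧
      HardyLittlewoodPartialProduct m (w + n + 1 + 1) ≤
      HardyLittlewoodPartialProduct m (w + n + 1) := by
    intro n
    have hb := fac_bounds m hm (q := w + n + 1) (fun i => by have := h1 i; omega) (by omega)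
    have h0 := PP_nonneg m (w + n + 1)
    rw [PP_succ m (w + n + 1) (by omega)]
    have : 0 ≤ (k.succ : ℝ) ^ 2 * (((w + n + 1 : ℕ) : ℝ) ^ 2)⁻¹ := by positivity
    split_ifs
    · exact ⟨mul_le_mul_of_nonneg_left hb.1 h0, mul_le_of_le_one_right h0 hb.2⟩
    · exact ⟨mul_le_mul_of_nonneg_left (by linarith) h0, by simp⟩
  refine ⟨?_, (key n).2⟩
  have mono : ∀ n, HardyLittlewoodPartialProduct m (w + n + 1) ≤
      HardyLittlewoodPartialProduct m (w + 1) := by
    intro n
    induction n with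
    | zero => simp
    | succ n ih => exact (key n).2.trans ih
  induction n with
  | zero => simp
  | succ n ih =>
    rw [← add_assoc, sum_Ioc_succ_top (by omega)]
    have a1 := (key n).1
    have a2 := mul_le_mul_of_nonneg_right (mono n)
      (by positivity : 0 ≤ (k.succ : ℝ) ^ 2 * (((w + n + 1 : ℕ) : ℝ) ^ 2)⁻¹)
    nlinarith

lemma exists_C (m : Fin k.succ → ℕ) (hm : Function.Injective m) : ∃ C : ℝ, 0 ≤ C ∧
    Filter.Tendsto (HardyLittlewoodPartialProduct m) Filter.atTop (nhds C) ∧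
    ∀ w : ℕ, (∀ i, m i ≤ w) → 2 * k.succ ≤ w →
      HardyLittlewoodPartialProduct m (w + 1) * (1 - (k.succ : ℝ) ^ 2 / w) ≤ C := by
  obtain ⟨w0, h1, h2⟩ : ∃ w0, (∀ i, m i ≤ w0) ∧ 2 * k.succ ≤ w0 :=
    ⟨univ.sup m + 2 * k.succ, fun i => (le_sup (f := m) (mem_univ i)).trans (by omega), by omega⟩
  have hanti : Antitone (fun n => HardyLittlewoodPartialProduct m (n + (w0 + 1))) := by
    apply antitone_nat_of_succ_le
    intro n
    have := (PP_tail m hm w0 h1 h2 n).2
    rwa [show w0 + n + 1 + 1 = n + 1 + (w0 + 1) by omega, show w0 + n + 1 = n + (w0 + 1) by omega]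
      at this
  have ht := tendsto_atTop_ciInf hanti ⟨0, by rintro _ ⟨n, rfl⟩; exact PP_nonneg m _⟩
  rw [Filter.tendsto_add_atTop_iff_nat] at ht
  refine ⟨_, ge_of_tendsto' ht (PP_nonneg m), ht, fun w h3 h4 => ?_⟩
  apply ge_of_tendsto ht
  filter_upwards [Filter.eventually_ge_atTop (w + 1)] with N hN
  obtain ⟨n, rfl⟩ : ∃ n, N = w + n + 1 := ⟨N - (w + 1), by omega⟩
  refine le_trans (mul_le_mul_of_nonneg_left ?_ (PP_nonneg m _)) (PP_tail m hm w h3 h4 n).1
  have h5 := sum_Ioc_inv_sq_le_sub (α := ℝ) (k := w) (n := w + n) (by omega) (by omega)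
  have h6 : (0 : ℝ) ≤ ((w + n : ℕ) : ℝ)⁻¹ := by positivity
  rw [div_eq_mul_inv]
  have : ∑ q ∈ Ioc w (w + n), ((q : ℝ) ^ 2)⁻¹ ≤ (w : ℝ)⁻¹ := by linarith
  gcongr

lemma count_zero (m : Fin k.succ → ℕ) (N : ℕ) (h : HardyLittlewoodPartialProduct m N = 0) (n : ℕ) :
    N9a2a6718.Nat.primeTupleCounting m n = 0 := by
  classical
  rw [PP_eq, mul_eq_zero, prod_eq_zero_iff] at h
  obtain ⟨q, hq, h0⟩ := h.resolve_left (by positivity)
  obtain ⟨hq1, hq3⟩ := mem_filter.mp hq
  have hp := Nat.prime_of_mem_primesBelow hq1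
  have : Fact q.Prime := ⟨hp⟩
  have hq' : (3 : ℝ) ≤ q := by exact_mod_cast hq3
  have h1 : (0 : ℝ) < 1 - 1 / q := by
    rw [sub_pos, div_lt_one (by linarith)]; linarith
  rw [fac, div_eq_zero_iff, sub_eq_zero, eq_div_iff (by linarith), one_mul] at h0
  have h2 : q = N9a2a6718.Nat.numResidues q m := by
    exact_mod_cast h0.resolve_right (pow_pos h1 _).ne'
  have h3 : univ.image (fun i => (m i : ZMod q)) = univ := by
    apply eq_univ_of_card
    rw [← numRes_eq, ← h2, ZMod.card]
  have h4 : (2 : ZMod q) ≠ 0 := by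
    intro hc
    have := (ZMod.natCast_eq_zero_iff 2 q).mp (by exact_mod_cast hc)
    have := Nat.le_of_dvd (by norm_num) this
    omega
  unfold N9a2a6718.Nat.primeTupleCounting
  rw [Nat.count_iff_forall_not]
  intro p _ hp'
  apply hp'.2 q hp
  intro z
  obtain ⟨i, _, hi⟩ := mem_image.mp (h3 ▸ mem_univ ((z - p) / 2))
  refine ⟨i, ?_⟩
  simp only [hi]
  field_simp; ring

lemma Bs_card_le (m : Fin k.succ → ℕ) (w : ℕ) (hw : 2 ≤ w) :
    ((Bs (fun i => 2 * m i) (primorial w)).card : ℝ) / primorial w ≤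
      HardyLittlewoodPartialProduct m (w + 1) *
        (((primorial w).totient : ℝ) / primorial w) ^ k.succ := by
  classical
  set U := Nat.primesBelow (w + 1) with hU
  have hUp : ∀ p ∈ U, p.Prime := fun p hp => Nat.prime_of_mem_primesBelow hp
  have eW : primorial w = ∏ p ∈ U, p := rfl
  have ePF : (primorial w).primeFactors = U := by rw [eW]; exact Nat.primeFactors_prod hUp
  have hW0 : (0 : ℝ) < primorial w := by exact_mod_cast primorial_pos w
  set F : ℕ → ℕ → ℝ := fun p n => if ∀ l, ¬ p ∣ n + 2 * m l then 1 else 0 with hF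
  have e1 : ((Bs (fun i => 2 * m i) (primorial w)).card : ℝ) =
      ∏ p ∈ U, ∑ n ∈ range p, F p n := by
    rw [← sum_range_prod_primes U hUp F, ← eW, Bs, card_filter]
    · push_cast
      apply sum_congr rfl
      intro n _
      simp only [hF]
      rw [Finset.prod_ite_zero]
      simp only [prod_const_one]
      apply if_congr _ rfl rfl
      rw [eW]
      simp only [Nat.coprime_prod_right_iff]
      exact ⟨fun h p hp l => ((hUp p hp).coprime_iff_not_dvd).mp (h l p hp).symm,
        fun h l p hp => (((hUp p hp).coprime_iff_not_dvd).mpr (h p hp l)).symm⟩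
    · intro p _ a b hab
      simp only [hF, fun l => (hab.add_right (2 * m l)).dvd_iff dvd_rfl]
  have e2 : ((primorial w).totient : ℝ) / primorial w = ∏ p ∈ U, (1 - 1 / (p : ℝ)) := by
    have := Nat.totient_eq_mul_prod_factors (primorial w)
    rw [ePF] at this
    have h2 := congrArg (fun z : ℚ => (z : ℝ)) this
    push_cast at h2
    rw [h2, mul_div_cancel_left₀ _ hW0.ne']
    simp
  have e3 : U = insert 2 (U.filter (fun q => 3 ≤ q)) := by
    ext p
    simp only [mem_insert, mem_filter]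
    constructor
    · intro hp
      have := (hUp p hp).two_le
      by_cases e : p = 2
      · exact Or.inl e
      · exact Or.inr ⟨hp, by omega⟩
    · rintro (rfl | h)
      · exact Nat.mem_primesBelow.mpr ⟨by omega, Nat.prime_two⟩
      · exact h.1
  have e4 : HardyLittlewoodPartialProduct m (w + 1) =
      ∏ p ∈ U, (if p = 2 then (2 : ℝ) ^ k else fac m p) := by
    rw [PP_eq, ← hU]
    conv_rhs => rw [e3]
    rw [prod_insert (by simp), if_pos rfl]
    congr 1
    exact prod_congr rfl (fun p hp => (if_neg (by have := (mem_filter.mp hp).2; omega)).symm)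
  rw [e1, e2, e4, eW, Nat.cast_prod, ← prod_div_distrib, ← prod_pow, ← prod_mul_distrib]
  apply prod_le_prod
  · intro p _
    exact div_nonneg (sum_nonneg (fun n _ => by simp only [hF]; split_ifs <;> norm_num))
      (by positivity)
  · intro p hp
    have hp' := hUp p hp
    have hp0 : (2 : ℝ) ≤ p := by exact_mod_cast hp'.two_le
    split_ifs with h2
    · subst h2
      have : F 2 0 = 0 := if_neg (fun h => h 0 (by simp))
      have h1 : F 2 1 ≤ 1 := by simp only [hF]; split_ifs <;> norm_num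
      rw [sum_range_succ, sum_range_one, this, pow_succ, ← mul_assoc, ← mul_pow]
      norm_num; linarith
    · have : Fact p.Prime := ⟨hp'⟩
      have h1 : (0 : ℝ) < 1 - 1 / p := by
        rw [sub_pos, div_lt_one (by linarith)]; linarith
      rw [fac, div_mul_cancel₀ _ (pow_pos h1 _).ne', div_le_iff₀ (by linarith), sub_mul,
        div_mul_cancel₀ _ (by linarith), one_mul]
      simp only [hF]
      rw [sum_boole]
      have h3 := card_filter_add_card_filter_not (s := range p) (fun n => ∀ l, ¬ p ∣ n + 2 * m l)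
      have h4 : N9a2a6718.Nat.numResidues p m ≤
          ((range p).filter (fun n => ¬ ∀ l, ¬ p ∣ n + 2 * m l)).card := by
        rw [numRes_eq]
        apply card_le_card_of_injOn (fun z : ZMod p => (-(2 * z)).val)
        · intro z hz
          obtain ⟨i, _, rfl⟩ := mem_image.mp hz
          refine mem_filter.mpr ⟨mem_range.mpr (ZMod.val_lt _), fun h => h i ?_⟩
          rw [← ZMod.natCast_eq_zero_iff]
          push_cast
          simp
        · intro z _ z' _ e
          have h5 : (2 : ZMod p) ≠ 0 := by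
            intro hc
            have := (ZMod.natCast_eq_zero_iff 2 p).mp (by exact_mod_cast hc)
            exact h2 ((Nat.prime_dvd_prime_iff_eq hp' Nat.prime_two).mp this)
          exact mul_left_cancel₀ h5 (neg_injective (ZMod.val_injective p e))
      rw [card_range] at h3
      have h5 : ((range p).filter (fun n => ∀ l, ¬ p ∣ n + 2 * m l)).card +
        N9a2a6718.Nat.numResidues p m ≤ p := by omega
      have h6 : (((range p).filter (fun n => ∀ l, ¬ p ∣ n + 2 * m l)).card : ℝ) +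
        N9a2a6718.Nat.numResidues p m ≤ p := by exact_mod_cast h5
      linarith

lemma count_le (m : Fin k.succ → ℕ) (n : ℕ) :
    N9a2a6718.Nat.primeTupleCounting m n ≤ cntP (fun i => 2 * m i) n := by
  classical
  unfold N9a2a6718.Nat.primeTupleCounting
  rw [Nat.count_eq_card_filter_range, cntP]
  apply card_le_card
  intro p hp
  simp only [mem_filter] at hp ⊢
  exact ⟨hp.1, hp.2.1.2.2⟩

end Pool.Agent.Lib.MP_68a45e_nt
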