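import Pool.Agent.Lib.MP_68a45e_nt.BarrierDual
import Pool.Agent.Lib.MP_68a45e_nt.Series
import Pool.Agent.Lib.MP_6a20cc_nt.SiftPrimal
import Pool.Agent.Lib.MP_6a20cc_nt.SiftMain

/-! Lower bound for the main term of any upper bound sieve for prime tuples. -/

namespace Pool.Agent.Lib.MP_68a45e_nt

open Finset hiding dens
open Filter Topology N9a2a6718 Pool.Agent.Lib.MP_6a20cc_nt

lemma main_nonneg (x : ℕ) (c : ℕ → ℤ → ℝ) (h : ∀ n : ℤ, 0 ≤ ∑ q ∈ Icc 1 x, c q (n % q)) :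
    0 ≤ ∑ q ∈ Icc 1 x, (∑ r ∈ range q, c q r) / q := by
  have h1 := sum_weight x 1 c (fun _ => 1) (fun q _ r => by simp)
  have h2 : (0 : ℝ) < (1 * x.factorial : ℕ) := by
    have := x.factorial_pos
    positivity
  refine nonneg_of_mul_nonneg_right ?_ h2 |> id
  rw [← h1]
  exact sum_nonneg fun n _ => by simpa using h n

theorem main_lower (S : Finset ℕ) (hS : ∀ p ∈ S, p.Prime) (B : ℕ → ℤ → Prop)
    (hB : ∀ p ∈ S, ∀ m n : ℤ, m ≡ n [ZMOD p] → (B p m ↔ B p n)) (a : ℕ → ℕ)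
    (hg1 : ∀ p ∈ S, dens B p < 1) (hg2 : ∀ p ∈ S, a p ≠ 0 → dens B p ≤ 1 / 2)
    (x N : ℕ) (ρ : ℝ) (h0 : 0 < ρ) (h1 : ρ < 1)
    (hQ : ∀ q ∈ Icc 1 x, (∑ p ∈ S, if p ∣ q then a p else 0) ≤ N)
    (c : ℕ → ℤ → ℝ) (hc0 : ∀ n : ℤ, 0 ≤ ∑ q ∈ Icc 1 x, c q (n % q))
    (hc1 : ∀ n : ℤ, (∀ p ∈ S, ¬ B p n) → 1 ≤ ∑ q ∈ Icc 1 x, c q (n % q)) :
    ρ ^ N / ∏ p ∈ S, (1 + odds B p * (ρ ^ a p) ^ 2)
      ≤ ∑ q ∈ Icc 1 x, (∑ r ∈ range q, c q r) / q := by
  classical
  obtain ⟨w, hw0, -, hw1, hw2⟩ := exists_heavy_weight S hS B hB a hg1 hg2 (Icc 1 x) N ρ h0 h1 hQ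
  have e1 := sum_weight x (∏ p ∈ S, p) c w hw2
  have e2 := sum_sifted S hS B hB x.factorial
  set τ := ρ ^ N * ∏ p ∈ S, (1 + odds B p) / (1 + odds B p * (ρ ^ a p) ^ 2) with hτ
  have hpos : (0 : ℝ) < ((∏ p ∈ S, p) * x.factorial : ℕ) := by
    have := x.factorial_pos
    have : 0 < ∏ p ∈ S, p := prod_pos fun p hp => (hS p hp).pos
    positivity
  have e3 : τ * ∏ p ∈ S, (1 - dens B p) = ρ ^ N / ∏ p ∈ S, (1 + odds B p * (ρ ^ a p) ^ 2) := by
    rw [hτ, mul_assoc, ← prod_mul_distrib, div_eq_mul_inv, ← prod_inv_distrib]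
    congr 1
    apply prod_congr rfl
    intro p hp
    have h2 : 1 - dens B p ≠ 0 := by have := hg1 p hp; linarith
    have h3 : (1 + odds B p) * (1 - dens B p) = 1 := by unfold odds; field_simp; ring
    rw [div_mul_eq_mul_div, h3, one_div]
  apply le_of_mul_le_mul_left _ hpos
  rw [← e1, ← e3, mul_left_comm, ← e2, mul_sum]
  apply sum_le_sum
  intro n _
  split_ifs with h
  · have := mul_le_mul (hc1 n h) (hw1 n h) (by
      rw [hτ]
      apply mul_nonneg (by positivity)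
      exact prod_nonneg fun p hp => by
        have := odds_nonneg B p (hg1 p hp)
        positivity) (hc0 n)
    linarith
  · simpa using mul_nonneg (hc0 n) (hw0 n)

lemma zeta_partial (l : ℝ) (hl : 0 < l) (M : ℕ) :
    ∑ n ∈ range (M + 2), (n : ℝ) ^ (-(1 + l)) ≤ 1 + (1 - ((M + 1 : ℕ) : ℝ) ^ (-l)) / l := by
  induction M with
  | zero =>
    simp [sum_range_succ, Real.zero_rpow (show -l + -1 ≠ 0 by linarith)]
  | succ M ih =>
    rw [sum_range_succ]
    have hM : (0 : ℝ) < (M + 1 : ℕ) := by positivity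
    have hM' : (0 : ℝ) < (M + 2 : ℕ) := by positivity
    have h1 : ((M + 2 : ℕ) : ℝ) ^ (-(1 + l)) = ((M + 2 : ℕ) : ℝ) ^ (-l) / (M + 2 : ℕ) := by
      rw [show -(1 + l) = -l - 1 by ring, Real.rpow_sub_one hM'.ne']
    have h2 : ((M + 1 : ℕ) : ℝ) ^ (-l)
        = ((M + 2 : ℕ) : ℝ) ^ (-l) * Real.exp (l * Real.log (((M + 2 : ℕ) : ℝ) / (M + 1 : ℕ))) := by
      rw [Real.rpow_def_of_pos hM, Real.rpow_def_of_pos hM', ← Real.exp_add,
        Real.log_div hM'.ne' hM.ne']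
      congr 1
      ring
    have h3 := Real.one_sub_inv_le_log_of_pos (div_pos hM' hM)
    have h4 : 1 - (((M + 2 : ℕ) : ℝ) / (M + 1 : ℕ))⁻¹ = 1 / (M + 2 : ℕ) := by
      field_simp
      push_cast
      ring
    have h5 := Real.add_one_le_exp (l * Real.log (((M + 2 : ℕ) : ℝ) / (M + 1 : ℕ)))
    have h6 : 0 < ((M + 2 : ℕ) : ℝ) ^ (-l) := Real.rpow_pos_of_pos hM' _
    have h7 : ((M + 2 : ℕ) : ℝ) ^ (-l) / (M + 2 : ℕ)
        ≤ (((M + 1 : ℕ) : ℝ) ^ (-l) - ((M + 2 : ℕ) : ℝ) ^ (-l)) / l := by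
      rw [le_div_iff₀ hl, h2]
      rw [h4] at h3
      have h8 := mul_le_mul_of_nonneg_left h3 hl.le
      have h9 : l * (1 / ((M + 2 : ℕ) : ℝ)) + 1
          ≤ Real.exp (l * Real.log (((M + 2 : ℕ) : ℝ) / (M + 1 : ℕ))) := by linarith
      have h10 := mul_le_mul_of_nonneg_left h9 h6.le
      calc ((M + 2 : ℕ) : ℝ) ^ (-l) / (M + 2 : ℕ) * l
          = ((M + 2 : ℕ) : ℝ) ^ (-l) * (l * (1 / ((M + 2 : ℕ) : ℝ)) + 1)
            - ((M + 2 : ℕ) : ℝ) ^ (-l) := by ring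
        _ ≤ _ := by linarith
    rw [h1]
    have h11 : (1 - ((M + 1 + 1 : ℕ) : ℝ) ^ (-l)) / l = (1 - ((M + 1 : ℕ) : ℝ) ^ (-l)) / l
        + (((M + 1 : ℕ) : ℝ) ^ (-l) - ((M + 2 : ℕ) : ℝ) ^ (-l)) / l := by
      rw [← add_div]
      congr 1
      ring
    linarith

lemma euler_le (l : ℝ) (hl : 0 < l) (z : ℕ) :
    ∏ p ∈ Nat.primesLE z, (1 - (p : ℝ) ^ (-(1 + l)))⁻¹ ≤ 1 + 1 / l := by
  let f : ℕ →* ℝ :=
    { toFun := fun n => (n : ℝ) ^ (-(1 + l))
      map_one' := by simp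
      map_mul' := fun m n => by
        push_cast
        exact Real.mul_rpow (Nat.cast_nonneg _) (Nat.cast_nonneg _) }
  have h1 := (EulerProduct.summable_and_hasSum_smoothNumbers_prod_primesBelow_geometric (f := f)
    (fun {p} hp => by
      show ‖(p : ℝ) ^ (-(1 + l))‖ < 1
      rw [Real.norm_eq_abs, abs_of_nonneg (by positivity)]
      exact Real.rpow_lt_one_of_one_lt_of_neg (by exact_mod_cast hp.one_lt) (by linarith))
    (z + 1)).2
  apply hasSum_le_of_sum_le h1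
  intro s
  set M := s.sup (fun i => (i : ℕ)) with hM
  calc ∑ i ∈ s, f i = ∑ n ∈ s.map (Function.Embedding.subtype _), (n : ℝ) ^ (-(1 + l)) := by
        rw [sum_map]; rfl
    _ ≤ ∑ n ∈ range (M + 2), (n : ℝ) ^ (-(1 + l)) := by
        apply sum_le_sum_of_subset_of_nonneg
        · intro n hn
          obtain ⟨i, hi, rfl⟩ := mem_map.1 hn
          have : (i : ℕ) ≤ M := le_sup (f := fun i : (z + 1).smoothNumbers => (i : ℕ)) hi
          simp only [Function.Embedding.coe_subtype, mem_range]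
          omega
        · intro n _ _
          positivity
    _ ≤ 1 + 1 / l := by
        refine (zeta_partial l hl M).trans ?_
        have : 0 ≤ ((M + 1 : ℕ) : ℝ) ^ (-l) := by positivity
        gcongr
        linarith

variable {k : ℕ}

/-- the removed classes for the tuple -/
def BadT (m : Fin k.succ → ℕ) : ℕ → ℤ → Prop := Bad (fun _ => 1) (fun i => 2 * (m i : ℤ))

lemma densT_eq (m : Fin k.succ → ℕ) (p : ℕ) (hp : p.Prime) :
    dens (BadT m) p = ((univ.image fun i => -(2 * (m i : ZMod p))).card : ℝ) / p := by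
  classical
  have := Fact.mk hp
  have h5 : ∀ n : ℕ, BadT m p n ↔ (n : ZMod p) ∈ univ.image fun i => -(2 * (m i : ZMod p)) := by
    intro n
    simp only [BadT, Bad, mem_image, mem_univ, true_and]
    apply exists_congr
    intro i
    rw [← ZMod.intCast_zmod_eq_zero_iff_dvd]
    push_cast
    constructor <;> intro h <;> linear_combination -h
  unfold dens
  congr 2
  rw [card_filter]
  simp only [h5]
  rw [sum_range_zmod p (fun x => if x ∈ univ.image (fun i => -(2 * (m i : ZMod p))) then 1 else 0),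
    ← card_filter, filter_mem_eq_inter, univ_inter]

lemma densT_two (m : Fin k.succ → ℕ) : dens (BadT m) 2 = 1 / 2 := by
  rw [densT_eq m 2 Nat.prime_two]
  have : (fun i => -(2 * (m i : ZMod 2))) = fun _ => 0 := by
    funext i
    have : (2 : ZMod 2) = 0 := rfl
    rw [this]
    simp
  rw [this, image_const univ_nonempty]
  simp

lemma densT_odd (m : Fin k.succ → ℕ) (p : ℕ) (hp : p.Prime) (h3 : 3 ≤ p) :
    dens (BadT m) p = (N9a2a6718.Nat.numResidues p m : ℝ) / p := by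
  have := Fact.mk hp
  rw [densT_eq m p hp, numRes_eq]
  have h2 : (2 : ZMod p) ≠ 0 := by
    intro h
    have h4 : ((2 : ℕ) : ZMod p) = 0 := by exact_mod_cast h
    rw [ZMod.natCast_eq_zero_iff] at h4
    have := Nat.le_of_dvd two_pos h4
    omega
  have h4 : Function.Injective fun x : ZMod p => -(2 * x) := fun x y h =>
    mul_left_cancel₀ h2 (neg_injective h)
  rw [← card_image_of_injective (univ.image fun i => (m i : ZMod p)) h4, image_image]
  rfl

lemma densT_large (m : Fin k.succ → ℕ) (hm : Function.Injective m) (p : ℕ) (hp : p.Prime)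
    (h3 : 3 ≤ p) (h1 : ∀ i, m i < p) : dens (BadT m) p = (k.succ : ℝ) / p := by
  rw [densT_odd m p hp h3, numRes_eq, card_image_of_injective]
  · simp
  · intro i j hij
    exact hm (((ZMod.natCast_eq_natCast_iff _ _ _).mp hij).eq_of_lt_of_lt (h1 i) (h1 j))

lemma PP_eq_prod (m : Fin k.succ → ℕ) (w : ℕ) (hw : 2 ≤ w) :
    HardyLittlewoodPartialProduct m (w + 1)
      = ∏ p ∈ Nat.primesLE w, (1 - dens (BadT m) p) / (1 - 1 / (p : ℝ)) ^ k.succ := by
  have h1 : Nat.primesLE w = insert 2 ((Nat.primesBelow (w + 1)).filter (fun q => 3 ≤ q)) := by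
    ext p
    simp only [Nat.mem_primesLE, mem_insert, mem_filter, Nat.mem_primesBelow]
    constructor
    · rintro ⟨h1, h2⟩
      have := h2.two_le
      by_cases h : p = 2
      · exact Or.inl h
      · exact Or.inr ⟨⟨by omega, h2⟩, by omega⟩
    · rintro (rfl | ⟨⟨h1, h2⟩, _⟩)
      · exact ⟨hw, Nat.prime_two⟩
      · exact ⟨by omega, h2⟩
  rw [h1, prod_insert (by simp), densT_two, PP_eq]
  congr 1
  · rw [pow_succ]
    push_cast
    norm_num
    rw [one_div, inv_pow]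
    field_simp
  · apply prod_congr rfl
    intro p hp
    rw [mem_filter] at hp
    rw [fac, densT_odd m p (Nat.prime_of_mem_primesBelow hp.1) hp.2]

lemma small_factor (K : ℕ) (p g l w : ℝ) (hp : 2 ≤ p) (hpw : p ≤ w) (hg : g < 1) (hl : 0 < l) :
    (1 + g / (1 - g)) * (1 - p ^ (-(1 + l))) ^ K
      ≤ ((1 - g) / (1 - 1 / p) ^ K)⁻¹ * Real.exp (K * l * w) := by
  have hp0 : 0 < p := by linarith
  have h1 : p ^ (-(1 + l)) = Real.exp (-(l * Real.log p)) / p := by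
    rw [show -(1 + l) = -l - 1 by ring, Real.rpow_sub_one hp0.ne', Real.rpow_def_of_pos hp0]
    congr 2
    ring
  have h2 : Real.log p ≤ w := by linarith [Real.log_le_sub_one_of_pos hp0]
  have h3 := Real.add_one_le_exp (-(l * Real.log p))
  have h4 := Real.add_one_le_exp (l * w)
  have h5 : l * Real.log p ≤ l * w := mul_le_mul_of_nonneg_left h2 hl.le
  have h6 : 1 - p ^ (-(1 + l)) ≤ (1 - 1 / p) * Real.exp (l * w) := by
    rw [h1]
    have h7 : 0 ≤ l * w := by nlinarith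
    have h8 : (1 - 1 / p) * (l * w + 1) ≤ (1 - 1 / p) * Real.exp (l * w) :=
      mul_le_mul_of_nonneg_left h4 (by rw [sub_nonneg, div_le_one hp0]; linarith)
    have h9 : (1 - l * w) / p ≤ Real.exp (-(l * Real.log p)) / p :=
      div_le_div_of_nonneg_right (by linarith) hp0.le
    have h10 : 2 * (l * w / p) ≤ l * w := by
      rw [mul_div_assoc', div_le_iff₀ hp0]
      nlinarith
    have h11 : (1 - 1 / p) * (l * w + 1) = 1 - 1 / p + l * w - l * w / p := by ring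
    have h12 : (1 - l * w) / p = 1 / p - l * w / p := by ring
    linarith
  have h13 : 0 ≤ 1 - p ^ (-(1 + l)) := by
    have := Real.rpow_lt_one_of_one_lt_of_neg (show 1 < p by linarith) (show -(1 + l) < 0 by linarith)
    linarith
  have h14 := pow_le_pow_left₀ h13 h6 K
  have h15 : 0 < 1 - g := by linarith
  have h16 : 1 + g / (1 - g) = (1 - g)⁻¹ := by field_simp; ring
  rw [h16, inv_div, div_eq_inv_mul, mul_assoc, mul_assoc, Real.exp_nat_mul, ← mul_pow]
  exact mul_le_mul_of_nonneg_left h14 (by positivity)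

lemma large_factor (K : ℕ) (p b l e : ℝ) (hp : 2 ≤ p) (hK : 2 * (K : ℝ) ≤ p) (hl : 0 < l)
    (he : 0 ≤ e) (hb : b ≤ p ^ (-l) * (1 + e)) :
    (1 + (K / p) / (1 - K / p) * b) * (1 - p ^ (-(1 + l))) ^ K
      ≤ Real.exp (e + 2 * K ^ 2 * (p ^ 2)⁻¹) := by
  have hp0 : 0 < p := by linarith
  have hK0 : (0 : ℝ) ≤ K := Nat.cast_nonneg _
  have h1 : p ^ (-(1 + l)) = p ^ (-l) / p := by
    rw [show -(1 + l) = -l - 1 by ring, Real.rpow_sub_one hp0.ne']
  have hy0 : 0 < p ^ (-l) := Real.rpow_pos_of_pos hp0 _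
  have hy1 : p ^ (-l) ≤ 1 :=
    (Real.rpow_lt_one_of_one_lt_of_neg (show 1 < p by linarith) (show -l < 0 by linarith)).le
  rw [h1]
  generalize p ^ (-l) = y at *
  have hpK : 0 < p - K := by linarith
  have h2 : (K / p) / (1 - K / p) = K / (p - K) := by field_simp
  rw [h2]
  have h3 : K / (p - K) ≤ 1 := by rw [div_le_one hpK]; linarith
  have h4 : 0 ≤ K / (p - K) := by positivity
  have h5 : K / (p - K) ≤ K / p + 2 * K ^ 2 * (p ^ 2)⁻¹ := by
    rw [div_le_iff₀ hpK]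
    field_simp
    nlinarith [mul_nonneg (mul_nonneg hK0 hK0) (sub_nonneg.2 hK)]
  have h6 : K / (p - K) * b ≤ K * (y / p) + (e + 2 * K ^ 2 * (p ^ 2)⁻¹) := by
    have a1 := mul_le_mul_of_nonneg_left hb h4
    have a2 := mul_le_mul_of_nonneg_right h5 hy0.le
    have a3 : K / (p - K) * y * e ≤ e := by
      have : K / (p - K) * y ≤ 1 := mul_le_one₀ h3 hy0.le hy1
      nlinarith
    have a4 : 2 * K ^ 2 * (p ^ 2)⁻¹ * y ≤ 2 * K ^ 2 * (p ^ 2)⁻¹ :=
      mul_le_of_le_one_right (by positivity) hy1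
    have a5 : K / p * y = K * (y / p) := by ring
    nlinarith
  have h7 : 0 ≤ 1 - y / p := by rw [sub_nonneg, div_le_one hp0]; linarith
  have h8 : (1 - y / p) ^ K ≤ Real.exp (-(y / p)) ^ K :=
    pow_le_pow_left₀ h7 (by linarith [Real.add_one_le_exp (-(y / p))]) K
  rw [← Real.exp_nat_mul] at h8
  have h9 : 1 + K / (p - K) * b ≤ Real.exp (K * (y / p) + (e + 2 * K ^ 2 * (p ^ 2)⁻¹)) := by
    linarith [Real.add_one_le_exp (K * (y / p) + (e + 2 * K ^ 2 * (p ^ 2)⁻¹))]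
  refine (mul_le_mul h9 h8 (pow_nonneg h7 _) (Real.exp_pos _).le).trans (le_of_eq ?_)
  rw [← Real.exp_add]
  congr 1
  ring

end Pool.Agent.Lib.MP_68a45e_nt
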