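import Pool.Agent.Lib.MP_b09185_nt.ShAll

/-! Mean square transfer for coefficient sequences dominated by the von Mangoldt function. -/

namespace Pool.Agent.Lib.MP_68a45e_nt.CAp

open Filter hiding ker
open Topology MeasureTheory ArithmeticFunction Pool.Agent.Lib.MP_b09185_nt.Mai
open Pool.Agent.Lib.MP_b09185_nt.Sh Pool.Agent.Lib.MP_b09185_nt.Sh.End
open Pool.Agent.Lib.MP_b09185_nt.Sh.All
open Complex hiding log

noncomputable section

/-- coefficients with a wide logarithmic Gaussian weight -/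
def PGa (a : ℕ → ℂ) (v t : ℝ) : ℂ := ∑' n : ℕ, a n *
  (n : ℂ) ^ (-(1 + (t : ℂ) * I)) * (Real.exp (-(Real.log n - v) ^ 2 / 2) : ℝ)

def ca (a : ℕ → ℂ) (v : ℝ) (n : ℕ) : ℂ := a n / n * (gw v n : ℝ)

variable {a : ℕ → ℂ} {δ : ℂ}

lemma norm_ca (ha : ∀ n, ‖a n‖ ≤ Λ n) (v : ℝ) (n : ℕ) : ‖ca a v n‖ ≤ cg v n := by
  rw [ca, cg, norm_mul, norm_div, norm_real, Real.norm_of_nonneg (gw_pos v n).le, norm_natCast]
  exact mul_le_mul_of_nonneg_right (div_le_div_of_nonneg_right (ha n) n.cast_nonneg)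
    (gw_pos v n).le

lemma PGa_eq (ha : ∀ n, ‖a n‖ ≤ Λ n) (v t : ℝ) :
    PGa a v t = ∑' n : ℕ, ca a v n * exp (-(I * Real.log n * t)) := by
  refine tsum_congr fun n => ?_
  rcases eq_or_ne n 0 with rfl | h
  · have : a 0 = 0 := by simpa using ha 0
    simp [ca, this]
  have h0 : (n : ℂ) ≠ 0 := by exact_mod_cast h
  rw [neg_add, cpow_add _ _ h0, cpow_neg_one, cpow_def_of_ne_zero h0, ← natCast_log, ca, gw]
  push_cast
  rw [show (Complex.log n : ℂ) * -(t * I) = -(I * Complex.log n * t) by ring]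
  ring

lemma norm_pta (ha : ∀ n, ‖a n‖ ≤ Λ n) (v t : ℝ) (n : ℕ) :
    ‖ca a v n * exp (-(I * Real.log n * t))‖ ≤ cg v n := by
  rw [norm_mul, norm_exp]
  simpa [-natCast_log] using norm_ca ha v n

lemma norm_PGa (ha : ∀ n, ‖a n‖ ≤ Λ n) (v t : ℝ) : ‖PGa a v t‖ ≤ 3 * Real.exp (2 + 2 * v) := by
  rw [PGa_eq ha]
  exact (tsum_of_norm_bounded (cg_summable v).hasSum fun n => norm_pta ha v t n).trans (cg_tsum v)

lemma cont_PGa (ha : ∀ n, ‖a n‖ ≤ Λ n) (v : ℝ) : Continuous (PGa a v) := by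
  rw [funext (PGa_eq ha v)]
  exact continuous_tsum (fun n => by fun_prop) (cg_summable v) fun n t => norm_pta ha v t n

lemma four_PGa (ha : ∀ n, ‖a n‖ ≤ Λ n) {b : ℝ} (hb : 0 < b) (v y : ℝ) :
    ∫ t, ker b y t * PGa a v t = (√(Real.pi / b) : ℝ) *
      ∑' n, ca a v n * (Real.exp (-(y - Real.log n) ^ 2 / (4 * b)) : ℝ) := by
  have h := hasSum_integral_of_summable_integral_norm (μ := volume)
    (F := fun (n : ℕ) (t : ℝ) => ker b y t * (ca a v n * exp (-(I * Real.log n * t))))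
    (fun n => ker_mul hb y (by fun_prop) fun t => norm_pta ha v t n)
    (by
      refine Summable.of_nonneg_of_le (fun n => integral_nonneg fun t => norm_nonneg _)
        (fun n => ?_) ((cg_summable v).mul_left (∫ t : ℝ, Real.exp (-b * t ^ 2)))
      rw [← integral_mul_const]
      refine integral_mono_of_nonneg (ae_of_all _ fun t => norm_nonneg _)
        ((integrable_exp_neg_mul_sq hb).mul_const _) (ae_of_all _ fun t => ?_)
      beta_reduce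
      rw [norm_mul, norm_ker]
      exact mul_le_mul_of_nonneg_left (norm_pta ha v t n) (Real.exp_pos _).le)
  simp_rw [tsum_mul_left, ← PGa_eq ha] at h
  rw [← h.tsum_eq, ← tsum_mul_left]
  refine tsum_congr fun n => ?_
  have e : ∀ t : ℝ, ker b y t * (ca a v n * exp (-(I * Real.log n * t))) =
      ca a v n * ker b (y - Real.log n) t := fun t => by
    simp only [ker, sub_eq_add_neg, exp_add, mul_add, add_mul,
      ofReal_add, ofReal_neg, mul_neg, neg_mul]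
    ring
  simp_rw [e]
  rw [integral_const_mul, ker_int hb]
  push_cast
  ring

/-- the error in the frequency variable -/
def DD (a : ℕ → ℂ) (δ : ℂ) (v t : ℝ) : ℂ := PGa a v t - δ * PM v t

/-- the damped error -/
def Fa (a : ℕ → ℂ) (δ : ℂ) (b v t : ℝ) : ℂ := exp (-b * t ^ 2) * DD a δ v t

/-- its Fourier transform -/
def Ea (a : ℕ → ℂ) (δ : ℂ) (b v y : ℝ) : ℂ := ∫ t : ℝ, exp (I * y * t) * Fa a δ b v t

lemma norm_dPM (hδ : ‖δ‖ ≤ 1) (v t : ℝ) : ‖δ * PM v t‖ ≤ 3 := by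
  rw [norm_mul]
  exact (mul_le_of_le_one_left (norm_nonneg _) hδ).trans (norm_PM_le v t)

lemma norm_DD (ha : ∀ n, ‖a n‖ ≤ Λ n) (hδ : ‖δ‖ ≤ 1) {v : ℝ} (hv : 0 ≤ v) (t : ℝ) :
    ‖DD a δ v t‖ ≤ 6 * Real.exp (2 + 2 * v) :=
  (norm_sub_le _ _).trans (by
    linarith [norm_PGa ha v t, norm_dPM hδ v t, Real.add_one_le_exp (2 + 2 * v)])

lemma cont_DD (ha : ∀ n, ‖a n‖ ≤ Λ n) (δ : ℂ) (v : ℝ) : Continuous (DD a δ v) :=
  (cont_PGa ha v).sub (continuous_const.mul (cont_PM v))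

lemma Fa_eq (b v t : ℝ) : Fa a δ b v t = ker b 0 t * DD a δ v t := by simp [Fa, ker]

lemma Fa_cont (ha : ∀ n, ‖a n‖ ≤ Λ n) (b v : ℝ) : Continuous (Fa a δ b v) := by
  have := cont_DD ha δ v
  unfold Fa; fun_prop

lemma Fa_int (ha : ∀ n, ‖a n‖ ≤ Λ n) (hδ : ‖δ‖ ≤ 1) {b v : ℝ} (hb : 0 < b) (hv : 0 ≤ v) :
    Integrable (Fa a δ b v) := by
  rw [funext (Fa_eq b v)]
  exact ker_mul hb 0 (cont_DD ha δ v) (norm_DD ha hδ hv)

lemma Fa_sq (b v t : ℝ) : ‖Fa a δ b v t‖ ^ 2 =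
    ‖ker (2 * b) 0 t * ((‖DD a δ v t‖ ^ 2 : ℝ) : ℂ)‖ := by
  rw [Fa_eq, norm_mul, norm_mul, norm_ker, norm_ker, norm_real, Real.norm_eq_abs,
    abs_of_nonneg (sq_nonneg _), mul_pow, ← Real.exp_nat_mul]
  congr 2
  push_cast; ring

lemma sqa_cont (ha : ∀ n, ‖a n‖ ≤ Λ n) (v : ℝ) :
    Continuous fun t => ((‖DD a δ v t‖ ^ 2 : ℝ) : ℂ) := by
  have := cont_DD ha δ v
  fun_prop

lemma sqa_bd (ha : ∀ n, ‖a n‖ ≤ Λ n) (hδ : ‖δ‖ ≤ 1) {v : ℝ} (hv : 0 ≤ v) (t : ℝ) :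
    ‖((‖DD a δ v t‖ ^ 2 : ℝ) : ℂ)‖ ≤ (6 * Real.exp (2 + 2 * v)) ^ 2 := by
  rw [norm_real, Real.norm_eq_abs, abs_of_nonneg (sq_nonneg _)]
  exact pow_le_pow_left₀ (norm_nonneg _) (norm_DD ha hδ hv t) 2

lemma Fa_int2 (ha : ∀ n, ‖a n‖ ≤ Λ n) (hδ : ‖δ‖ ≤ 1) {b v : ℝ} (hb : 0 < b) (hv : 0 ≤ v) :
    Integrable fun t => ‖Fa a δ b v t‖ ^ 2 := by
  simp_rw [Fa_sq]
  exact (ker_mul (by positivity) 0 (sqa_cont ha v) (sqa_bd ha hδ hv)).norm

lemma Fa_le (ha : ∀ n, ‖a n‖ ≤ Λ n) (hδ : ‖δ‖ ≤ 1) {b v T : ℝ} (hb : 0 < b) (hv : 0 ≤ v)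
    (hT : 0 ≤ T) : ∫ t, ‖Fa a δ b v t‖ ^ 2 ≤ (∫ t in (-T)..T, ‖DD a δ v t‖ ^ 2) +
      (6 * Real.exp (2 + 2 * v)) ^ 2 * Real.exp (-b * T ^ 2) * √(Real.pi / b) := by
  have h := ker_tail (b := 2 * b) (by positivity) hT 0 (sqa_cont (δ := δ) ha v) (sqa_bd ha hδ hv)
  have e : ∀ t, ker (2 * b) 0 t * ((‖DD a δ v t‖ ^ 2 : ℝ) : ℂ) =
      ((‖Fa a δ b v t‖ ^ 2 : ℝ) : ℂ) := fun t => by
    rw [Fa_eq, norm_mul, norm_ker, mul_pow, ← Real.exp_nat_mul, ofReal_mul, ofReal_exp, ker]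
    congr 1
    simp only [ofReal_zero, mul_zero, zero_mul, exp_zero, one_mul]
    congr 1
    push_cast; ring
  simp_rw [e] at h
  rw [integral_complex_ofReal, show 2 * b / 2 = b by ring] at h
  simp_rw [norm_real, Real.norm_eq_abs, abs_pow, abs_norm] at h
  exact (le_abs_self _).trans h

lemma norm_Ea_pt (b v y t : ℝ) : ‖exp (I * y * t) * Fa a δ b v t‖ = ‖Fa a δ b v t‖ := by
  rw [norm_mul, norm_exp]; simp

lemma Ea_cont (ha : ∀ n, ‖a n‖ ≤ Λ n) (hδ : ‖δ‖ ≤ 1) {b v : ℝ} (hb : 0 < b) (hv : 0 ≤ v) :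
    Continuous (Ea a δ b v) := by
  have := Fa_cont (δ := δ) ha b v
  exact continuous_of_dominated (fun y => Continuous.aestronglyMeasurable (by fun_prop))
    (fun y => ae_of_all _ fun t => (norm_Ea_pt b v y t).le) (Fa_int ha hδ hb hv).norm
    (ae_of_all _ fun t => by fun_prop)

lemma Ea_int (ha : ∀ n, ‖a n‖ ≤ Λ n) (hδ : ‖δ‖ ≤ 1) {b v : ℝ} (hb : 0 < b) (hv : 0 ≤ v) :
    Integrable fun y => g (y - v) * ‖Ea a δ b v y‖ ^ 2 := by
  have h1 := Ea_cont ha hδ hb hv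
  have h2 := g_cont
  refine ((g_int.comp_sub_right v).mul_const ((∫ t, ‖Fa a δ b v t‖) ^ 2)).mono'
    (Continuous.aestronglyMeasurable (by fun_prop)) (ae_of_all _ fun y => ?_)
  rw [Real.norm_eq_abs, abs_of_nonneg (mul_nonneg (g_pos _).le (sq_nonneg _))]
  refine mul_le_mul_of_nonneg_left (pow_le_pow_left₀ (norm_nonneg _) ?_ 2) (g_pos _).le
  exact norm_integral_le_of_norm_le (Fa_int ha hδ hb hv).norm
    (ae_of_all _ fun t => (norm_Ea_pt b v y t).le)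

/-- the terms of the narrow average -/
def ta (a : ℕ → ℂ) (ρ u : ℝ) (n : ℕ) : ℂ := a n * (g (ρ * (Real.log n - u)) : ℝ)

lemma ta_eq (ha : ∀ n, ‖a n‖ ≤ Λ n) {ρ : ℝ} (hρ : 2 ≤ ρ) (v u : ℝ) (n : ℕ) :
    ca a v n * (Real.exp (-((ρ ^ 2 * u - v + 1) / (ρ ^ 2 - 1) - Real.log n) ^ 2 /
      (4 * (1 / (2 * (ρ ^ 2 - 1))))) : ℝ) =
    (Real.exp (-(u - v) ^ 2 / 2 - u - (u - v + 1) ^ 2 / (2 * (ρ ^ 2 - 1))) : ℝ) * ta a ρ u n := by
  have r1 : 0 < ρ ^ 2 - 1 := by nlinarith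
  rcases n.eq_zero_or_pos with rfl | h
  · have : a 0 = 0 := by simpa using ha 0
    simp [ca, ta, this]
  have h0 : (0 : ℝ) < n := by exact_mod_cast h
  have e : a n / n = a n * (Real.exp (-Real.log n) : ℝ) := by
    rw [Real.exp_neg, Real.exp_log h0, div_eq_mul_inv]; push_cast; rfl
  rw [ca, e, gw, ta, g, mul_assoc, mul_assoc, ← ofReal_mul, ← ofReal_mul, ← Real.exp_add,
    ← Real.exp_add, mul_left_comm, ← ofReal_mul, ← Real.exp_add]
  congr 3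
  field_simp
  ring

/-- the error of the narrow average -/
def Er (a : ℕ → ℂ) (δ : ℂ) (ρ u : ℝ) : ℂ :=
  ρ * ∑' n, ta a ρ u n - δ * (√(2 * Real.pi) * Real.exp (u + 1 / (2 * ρ ^ 2)) : ℝ)

lemma Er_le (ha : ∀ n, ‖a n‖ ≤ Λ n) (hδ : ‖δ‖ ≤ 1) {ρ v u : ℝ} (hρ : 2 ≤ ρ) (h1 : v - 1 ≤ u)
    (h2 : u ≤ v + 2) : ‖Er a δ ρ u‖ ≤ Real.exp (u + 4) *
      ‖Ea a δ (1 / (2 * (ρ ^ 2 - 1))) v ((ρ ^ 2 * u - v + 1) / (ρ ^ 2 - 1))‖ := by
  have r0 : 0 < ρ := by linarith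
  have r1 : 3 ≤ ρ ^ 2 - 1 := by nlinarith
  set b := 1 / (2 * (ρ ^ 2 - 1)) with hb
  set y := (ρ ^ 2 * u - v + 1) / (ρ ^ 2 - 1) with hy
  have b0 : 0 < b := by positivity
  have e0 : Ea a δ b v y = (∫ t, ker b y t * PGa a v t) - δ * ∫ t, ker b y t * PM v t := by
    rw [← integral_const_mul, ← integral_sub (ker_mul b0 y (cont_PGa ha v) (norm_PGa ha v))
      ((ker_mul b0 y (cont_PM v) (norm_PM_le v)).const_mul δ)]
    simp only [Ea, Fa, DD, ker]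
    congr 1; funext t; ring
  have e2 : √(Real.pi / b) = ρ * √(Real.pi / (b + 1 / 2)) := by
    rw [← Real.sqrt_sq r0.le, ← Real.sqrt_mul (sq_nonneg _), hb]
    congr 1
    field_simp
    ring
  have e3 : 1 ≤ √(Real.pi / (b + 1 / 2)) := by
    have : b ≤ 1 := (div_le_one (by positivity)).2 (by nlinarith)
    rw [Real.one_le_sqrt, le_div_iff₀ (by positivity)]
    linarith [Real.two_le_pi]
  set C := -(u - v) ^ 2 / 2 - u - (u - v + 1) ^ 2 / (2 * (ρ ^ 2 - 1)) with hC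
  have e4 : Real.exp (-(y - v) ^ 2 / (4 * (b + 1 / 2))) =
      Real.exp C * Real.exp (u + 1 / (2 * ρ ^ 2)) := by
    rw [← Real.exp_add, hC, hy, hb]
    congr 1
    have : ρ ^ 2 - 1 ≠ 0 := by linarith
    field_simp
    ring
  have e5 : ∀ n : ℕ, ca a v n * (Real.exp (-(y - Real.log n) ^ 2 / (4 * b)) : ℝ) =
      (Real.exp C : ℝ) * ta a ρ u n := ta_eq ha hρ v u
  rw [e0, four_PGa ha b0, four_PM' b0, e2, e4]
  simp_rw [e5]
  rw [tsum_mul_left]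
  set s := √(Real.pi / (b + 1 / 2))
  have e6 : ((ρ * s : ℝ) : ℂ) * ((Real.exp C : ℝ) * ∑' n, ta a ρ u n) - δ * (√(2 * Real.pi) *
      (s * (Real.exp C * Real.exp (u + 1 / (2 * ρ ^ 2)))) : ℝ) =
      (s * Real.exp C : ℝ) * Er a δ ρ u := by
    simp only [Er, ofReal_mul]; ring
  rw [e6, norm_mul, norm_real, Real.norm_of_nonneg (by positivity : 0 ≤ s * Real.exp C),
    ← mul_assoc]
  refine le_mul_of_one_le_left (norm_nonneg _) ?_
  rw [mul_left_comm, ← Real.exp_add]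
  refine one_le_mul_of_one_le_of_one_le e3 (Real.one_le_exp ?_)
  have : (u - v + 1) ^ 2 / (2 * (ρ ^ 2 - 1)) ≤ 2 := by
    rw [div_le_iff₀ (by positivity)]; nlinarith
  rw [hC]; nlinarith

lemma Fa_small (ha : ∀ n, ‖a n‖ ≤ Λ n) (hδ : ‖δ‖ ≤ 1) {a0 k v ρ : ℝ} (hka : k < a0) (hk1 : k ≤ 1)
    (hv : 0 ≤ v) (hρ : 2 ≤ ρ) (hk : ρ ≤ Real.exp (k * v)) :
    ∫ t, ‖Fa a δ (1 / (2 * (ρ ^ 2 - 1))) v t‖ ^ 2 ≤
      (∫ t in (-Real.exp (a0 * v))..(Real.exp (a0 * v)), ‖DD a δ v t‖ ^ 2) +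
        108 * Real.exp (4 + 5 * v - ((a0 - k) * v) ^ 2 / 2) := by
  have r0 : 0 < ρ := by linarith
  have r1 : 3 ≤ ρ ^ 2 - 1 := by nlinarith
  set b := 1 / (2 * (ρ ^ 2 - 1)) with hb
  have b0 : 0 < b := by positivity
  refine (Fa_le ha hδ b0 hv (Real.exp_pos _).le).trans (add_le_add le_rfl ?_)
  have e4 : √(Real.pi / b) ≤ 3 * Real.exp v := by
    have : ρ ≤ Real.exp v := hk.trans (Real.exp_le_exp.2 (by nlinarith))
    refine le_trans ?_ (by linarith : 3 * ρ ≤ 3 * Real.exp v)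
    rw [Real.sqrt_le_iff, show Real.pi / b = Real.pi * (2 * (ρ ^ 2 - 1)) by rw [hb]; field_simp]
    exact ⟨by positivity, by nlinarith [Real.pi_le_four]⟩
  have t1 : (a0 - k) * v ≤ Real.exp (a0 * v) / ρ := by
    rw [le_div_iff₀ r0, show a0 * v = (a0 - k) * v + k * v by ring, Real.exp_add]
    gcongr
    linarith [Real.add_one_le_exp ((a0 - k) * v)]
  have e5 : Real.exp (-b * Real.exp (a0 * v) ^ 2) ≤ Real.exp (-((a0 - k) * v) ^ 2 / 2) := by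
    have h1 : 1 / (2 * ρ ^ 2) ≤ b := one_div_le_one_div_of_le (by positivity) (by linarith)
    have h2 := pow_le_pow_left₀ (mul_nonneg (sub_pos.2 hka).le hv) t1 2
    have h3 := mul_le_mul_of_nonneg_right h1 (sq_nonneg (Real.exp (a0 * v)))
    rw [show 1 / (2 * ρ ^ 2) * Real.exp (a0 * v) ^ 2 = (Real.exp (a0 * v) / ρ) ^ 2 / 2 by
      field_simp] at h3
    exact Real.exp_le_exp.2 (by linarith)
  calc _ ≤ (6 * Real.exp (2 + 2 * v)) ^ 2 * Real.exp (-((a0 - k) * v) ^ 2 / 2) *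
        (3 * Real.exp v) := by gcongr
    _ = _ := by
      rw [show 4 + 5 * v - ((a0 - k) * v) ^ 2 / 2 =
        (2 + 2 * v) + (2 + 2 * v) + -((a0 - k) * v) ^ 2 / 2 + v by ring]
      simp only [Real.exp_add]
      ring

/-- a continuous majorant of the squared error with a small integral -/
lemma maj (ha : ∀ n, ‖a n‖ ≤ Λ n) (hδ : ‖δ‖ ≤ 1) {ρ v J : ℝ} (hρ : 2 ≤ ρ) (hv : 0 ≤ v)
    (hJ : ∫ t, ‖Fa a δ (1 / (2 * (ρ ^ 2 - 1))) v t‖ ^ 2 ≤ J) :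
    ∃ f : ℝ → ℝ, Continuous f ∧ (∀ u, 0 ≤ f u) ∧
      ∫ u in (v - 1)..(v + 2), f u ^ 2 ≤ 8 * Real.exp (2 * v + 17) * J ∧
      ∀ u, v - 1 ≤ u → u ≤ v + 2 → ‖Er a δ ρ u‖ ≤ f u := by
  have r1 : 3 ≤ ρ ^ 2 - 1 := by nlinarith
  set b := 1 / (2 * (ρ ^ 2 - 1)) with hb
  have b0 : 0 < b := by positivity
  set q : ℝ → ℝ := fun y => g (y - v) * ‖Ea a δ b v y‖ ^ 2 with hq
  have q0 : ∀ y, 0 ≤ q y := fun y => mul_nonneg (g_pos _).le (sq_nonneg _)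
  have h1 := Ea_cont ha hδ b0 hv
  have qc : Continuous q := by
    have h2 := g_cont
    fun_prop
  have J0 : 0 ≤ ∫ t, ‖Fa a δ b v t‖ ^ 2 := integral_nonneg fun t => sq_nonneg _
  have qi : ∫ y, q y ≤ 8 * J := by
    refine (wplanch (Fa_cont ha b v) (Fa_int ha hδ b0 hv) (Fa_int2 ha hδ b0 hv) v).trans ?_
    nlinarith [Real.pi_le_four]
  set α := ρ ^ 2 / (ρ ^ 2 - 1) with hα
  set β := (1 - v) / (ρ ^ 2 - 1) with hβ
  have α1 : 1 ≤ α := by rw [hα, le_div_iff₀ (by linarith)]; linarith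
  refine ⟨fun u => Real.exp (u + 4) * ‖Ea a δ b v (β + α * u)‖, by fun_prop,
    fun u => by positivity, ?_, fun u h1 h2 => ?_⟩
  · have i1 : ∫ u in (v - 1)..(v + 2), (Real.exp (u + 4) * ‖Ea a δ b v (β + α * u)‖) ^ 2 ≤
        ∫ u in (v - 1)..(v + 2), Real.exp (2 * v + 17) * q (β + α * u) := by
      refine intervalIntegral.integral_mono_on (by linarith)
        (Continuous.intervalIntegrable (by fun_prop) _ _)
        (Continuous.intervalIntegrable (by fun_prop) _ _) fun u hu => ?_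
      have e2 : β + α * u - v = (u - v) + (u - v + 1) / (ρ ^ 2 - 1) := by
        have : ρ ^ 2 - 1 ≠ 0 := by linarith
        rw [hα, hβ]; field_simp; ring
      have e3 : 0 ≤ (u - v + 1) / (ρ ^ 2 - 1) := div_nonneg (by linarith [hu.1]) (by linarith)
      have e4 : (u - v + 1) / (ρ ^ 2 - 1) ≤ 1 := (div_le_one (by linarith)).2 (by linarith [hu.2])
      have e5 : Real.exp (u + 4) ^ 2 ≤ Real.exp (2 * v + 17) * g (β + α * u - v) := by
        rw [g, ← Real.exp_add, e2, ← Real.exp_nat_mul]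
        refine Real.exp_le_exp.2 ?_
        have := hu.1
        have := hu.2
        push_cast
        nlinarith
      rw [mul_pow, hq, ← mul_assoc]
      exact mul_le_mul_of_nonneg_right e5 (sq_nonneg _)
    refine i1.trans ?_
    rw [intervalIntegral.integral_const_mul, intervalIntegral.integral_comp_add_mul _
      (by linarith), smul_eq_mul, intervalIntegral.integral_of_le (by nlinarith)]
    have h1 := (setIntegral_le_integral (s := Set.Ioc (β + α * (v - 1)) (β + α * (v + 2)))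
      (Ea_int ha hδ b0 hv) (ae_of_all _ q0)).trans qi
    have h2 : α⁻¹ ≤ 1 := inv_le_one_of_one_le₀ α1
    calc _ ≤ Real.exp (2 * v + 17) * (1 * (8 * J)) := by
          gcongr
          exact setIntegral_nonneg measurableSet_Ioc fun y _ => q0 y
      _ = _ := by ring
  · have h3 := Er_le ha hδ hρ h1 h2
    have e1 : (ρ ^ 2 * u - v + 1) / (ρ ^ 2 - 1) = β + α * u := by rw [hα, hβ]; ring
    rwa [← hb, e1] at h3

end

end Pool.Agent.Lib.MP_68a45e_nt.CAp
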