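import Pool.Agent.Lib.MP_68a45e_nt.CAp1

/-! From narrow Gaussian averages to sharp short sums, in the mean square. -/

namespace Pool.Agent.Lib.MP_68a45e_nt.CAp

open Filter hiding ker
open Topology MeasureTheory ArithmeticFunction Finset Pool.Agent.Lib.MP_b09185_nt.Mai
open Pool.Agent.Lib.MP_b09185_nt.Sh Pool.Agent.Lib.MP_b09185_nt.Sh.End
open Pool.Agent.Lib.MP_b09185_nt.Sh.All

noncomputable section

lemma g_le_one (s : ℝ) : g s ≤ 1 :=
  Real.exp_le_one_iff.2 (by nlinarith [sq_nonneg s])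

lemma g_half_int : Integrable fun s : ℝ => g (s / 2) := g_int.comp_div two_ne_zero

lemma int_g_half : ∫ s : ℝ, g (s / 2) = 2 * √(2 * Real.pi) := by
  rw [Measure.integral_comp_div g, int_g]; simp

lemma set_tail {S : Set ℝ} (hS : MeasurableSet S) {K : ℝ} (h : ∀ s ∈ S, |K| ≤ |s|) :
    ∫ s in S, g s ≤ 6 * g (K / 2) := by
  have h1 : ∫ s in S, g s ≤ ∫ s in S, g (K / 2) * g (s / 2) := by
    refine setIntegral_mono_on g_int.integrableOn (g_half_int.const_mul _).integrableOn hS
      fun s hs => (g_tail (abs_nonneg K) (h s hs)).trans ?_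
    refine mul_le_mul_of_nonneg_right (Real.exp_le_exp.2 ?_) (g_pos _).le
    rw [sq_abs]; nlinarith [sq_nonneg K]
  have h2 : ∫ s in S, g (K / 2) * g (s / 2) ≤ ∫ s, g (K / 2) * g (s / 2) :=
    setIntegral_le_integral (g_half_int.const_mul _)
      (ae_of_all _ fun s => (mul_pos (g_pos _) (g_pos _)).le)
  have h3 : ∫ s, g (K / 2) * g (s / 2) = g (K / 2) * (2 * √(2 * Real.pi)) := by
    rw [integral_const_mul, int_g_half]
  have := mul_le_mul_of_nonneg_left sqrt_two_pi_le (g_pos (K / 2)).le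
  linarith

/-- the smoothed window -/
def win (ρ α β l : ℝ) : ℝ := ∫ u in α..β, ρ * g (ρ * (l - u))

lemma win_err {ρ α β : ℝ} (hρ : 0 < ρ) (h : α ≤ β) (l : ℝ) :
    |(if α < l ∧ l ≤ β then √(2 * Real.pi) else 0) - win ρ α β l| ≤
      6 * (g (ρ / 2 * (l - α)) + g (ρ / 2 * (l - β))) := by
  have hab : ρ * l - ρ * β ≤ ρ * l - ρ * α := by nlinarith
  have e1 : ρ / 2 * (l - α) = (ρ * l - ρ * α) / 2 := by ring
  have e2 : ρ / 2 * (l - β) = (ρ * l - ρ * β) / 2 := by ring
  have p1 := g_pos ((ρ * l - ρ * α) / 2)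
  have p2 := g_pos ((ρ * l - ρ * β) / 2)
  rw [win, win_eq, intervalIntegral.integral_of_le hab, e1, e2]
  set A := ρ * l - ρ * α
  set B := ρ * l - ρ * β
  have w0 : 0 ≤ ∫ s in Set.Ioc B A, g s := setIntegral_nonneg measurableSet_Ioc fun s _ =>
    (g_pos s).le
  split_ifs with c
  · have hA : 0 ≤ A := by nlinarith [c.1]
    have hB : B ≤ 0 := by nlinarith [c.2]
    have s1 := integral_add_compl (μ := volume) (s := Set.Ioc B A) measurableSet_Ioc g_int
    have s2 : (Set.Ioc B A)ᶜ = Set.Iic B ∪ Set.Ioi A := by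
      ext s; simp only [Set.mem_compl_iff, Set.mem_Ioc, Set.mem_union, Set.mem_Iic, Set.mem_Ioi,
        not_and_or, not_lt, not_le]
    rw [s2, setIntegral_union (by
      rw [Set.disjoint_left]; intro s h1 h2
      simp only [Set.mem_Iic, Set.mem_Ioi] at h1 h2; linarith) measurableSet_Ioi
      g_int.integrableOn g_int.integrableOn, int_g] at s1
    have t1 := set_tail (S := Set.Iic B) (K := B) measurableSet_Iic fun s hs => by
      rw [abs_of_nonpos hB, abs_of_nonpos (le_trans hs hB)]; exact neg_le_neg hs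
    have t2 := set_tail (S := Set.Ioi A) (K := A) measurableSet_Ioi fun s hs => by
      rw [abs_of_nonneg hA, abs_of_nonneg (hA.trans (le_of_lt hs))]; exact le_of_lt hs
    have u1 : 0 ≤ ∫ s in Set.Iic B, g s := setIntegral_nonneg measurableSet_Iic fun s _ =>
      (g_pos s).le
    have u2 : 0 ≤ ∫ s in Set.Ioi A, g s := setIntegral_nonneg measurableSet_Ioi fun s _ =>
      (g_pos s).le
    rw [abs_le]; constructor <;> linarith
  · rw [zero_sub, abs_neg, abs_of_nonneg w0]
    rcases not_and_or.1 c with c | c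
    · have hA : A ≤ 0 := by nlinarith [not_lt.1 c]
      have := set_tail (S := Set.Ioc B A) (K := A) measurableSet_Ioc fun s hs => by
        rw [abs_of_nonpos hA, abs_of_nonpos (hs.2.trans hA)]; exact neg_le_neg hs.2
      linarith
    · have hB : 0 ≤ B := by nlinarith [not_le.1 c]
      have := set_tail (S := Set.Ioc B A) (K := B) measurableSet_Ioc fun s hs => by
        rw [abs_of_nonneg hB, abs_of_nonneg (hB.trans hs.1.le)]; exact hs.1.le
      linarith

lemma tm_wide (u : ℝ) (n : ℕ) : tm 1 u n ≤ Real.exp (3 * u + 5) * (1 / (n : ℝ) ^ 2) := by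
  rcases n.eq_zero_or_pos with rfl | h
  · simp [tm]
  have h0 : (0 : ℝ) < n := by exact_mod_cast h
  have a : Λ n ≤ Real.exp (Real.log n) := by
    rw [Real.exp_log h0]
    exact vonMangoldt_le_log.trans (by linarith [Real.log_le_sub_one_of_pos h0])
  have b : 1 / (n : ℝ) ^ 2 = Real.exp (-(2 * Real.log n)) := by
    rw [Real.exp_neg, two_mul, Real.exp_add, Real.exp_log h0, one_div, sq]
  refine (mul_le_mul_of_nonneg_right a (g_pos _).le).trans ?_
  rw [b, g, ← Real.exp_add, ← Real.exp_add]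
  exact Real.exp_le_exp.2 (by nlinarith [sq_nonneg (Real.log n - u - 3)])

/-- the trivial bound for a narrow average -/
lemma triv {ρ u : ℝ} (hu : 20 ≤ u) (hρ : u ≤ ρ) :
    ∑' n, tm ρ u n ≤ (u + 1) * (3 * Real.exp u * u / ρ + 1) + 1 := by
  have r0 : 0 < ρ := by linarith
  set r := u / ρ with hr
  have r1 : 0 ≤ r := by positivity
  have r2 : r ≤ 1 := (div_le_one r0).2 hρ
  set S := Icc ⌈Real.exp (u - r)⌉₊ ⌊Real.exp (u + r)⌋₊ with hS
  have pt : ∀ n : ℕ, tm ρ u n ≤ (if n ∈ S then u + 1 else 0) + 1 / 2 * (1 / (n : ℝ) ^ 2) := by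
    intro n
    rcases n.eq_zero_or_pos with rfl | h
    · simp only [tm, ArithmeticFunction.map_zero, zero_mul]
      split_ifs <;> positivity
    have h0 : (0 : ℝ) < n := by exact_mod_cast h
    split_ifs with c
    · rw [hS, mem_Icc, Nat.le_floor_iff (Real.exp_pos _).le] at c
      have h1 : Real.log n ≤ u + 1 := by
        rw [Real.log_le_iff_le_exp h0]
        exact c.2.trans (Real.exp_le_exp.2 (by linarith))
      have h2 : tm ρ u n ≤ Λ n := mul_le_of_le_one_right vonMangoldt_nonneg (g_le_one _)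
      have h3 : (0 : ℝ) ≤ 1 / 2 * (1 / (n : ℝ) ^ 2) := by positivity
      linarith [vonMangoldt_le_log (n := n)]
    · rw [hS, mem_Icc, Nat.le_floor_iff (Real.exp_pos _).le, Nat.ceil_le, not_and_or, not_le,
        not_le] at c
      have h1 : u ≤ |ρ * (Real.log n - u)| := by
        have e : u = ρ * r := by rw [hr]; field_simp
        rcases c with c | c
        · have := (Real.log_lt_iff_lt_exp h0).2 c
          rw [le_abs]; right; nlinarith
        · have := (Real.lt_log_iff_exp_lt h0).2 c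
          rw [le_abs]; left; nlinarith
      have h2 := g_tail (by linarith) h1
      have h3 : g (ρ * (Real.log n - u) / 2) ≤ g (1 * (Real.log n - u)) := by
        refine Real.exp_le_exp.2 ?_
        have : 1 ≤ (ρ / 2) ^ 2 := by nlinarith
        nlinarith [sq_nonneg (Real.log n - u), mul_le_mul_of_nonneg_right this
          (sq_nonneg (Real.log n - u))]
      have h4 : tm ρ u n ≤ Real.exp (-(3 / 8) * u ^ 2) * tm 1 u n := by
        rw [tm, tm, mul_left_comm]
        exact mul_le_mul_of_nonneg_left (h2.trans (mul_le_mul_of_nonneg_left h3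
          (Real.exp_pos _).le)) vonMangoldt_nonneg
      have h5 : Real.exp (-(3 / 8) * u ^ 2) * Real.exp (3 * u + 5) ≤ 1 / 2 := by
        rw [← Real.exp_add]
        refine (Real.exp_le_exp.2 (by nlinarith : -(3 / 8) * u ^ 2 + (3 * u + 5) ≤ -1)).trans ?_
        rw [Real.exp_neg, one_div]
        exact inv_anti₀ two_pos (by linarith [Real.add_one_le_exp (1 : ℝ)])
      rw [zero_add]
      refine h4.trans ((mul_le_mul_of_nonneg_left (tm_wide u n) (Real.exp_pos _).le).trans ?_)
      rw [← mul_assoc]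
      exact mul_le_mul_of_nonneg_right h5 (by positivity)
  have s1 : HasSum (fun n : ℕ => if n ∈ S then u + 1 else 0) (#S * (u + 1)) := by
    have := hasSum_sum_of_ne_finset_zero (L := SummationFilter.unconditional ℕ)
      (f := fun n : ℕ => if n ∈ S then u + 1 else 0) (s := S) fun n hn => if_neg hn
    rwa [sum_congr rfl fun n hn => if_pos hn, sum_const, nsmul_eq_mul] at this
  have s2 := s1.add (sum_sq.mul_left (1 / 2))
  refine ((tm_summable (by linarith) u).tsum_le_tsum pt s2.summable).trans ?_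
  rw [s2.tsum_eq]
  have c1 : (#S : ℝ) ≤ 3 * Real.exp u * r + 1 := by
    have e1 : Real.exp (u + r) - Real.exp (u - r) ≤ 3 * Real.exp u * r := by
      have f1 : 1 - r ≤ Real.exp (-r) := by linarith [Real.add_one_le_exp (-r)]
      have f2 := (abs_le.1 (Real.abs_exp_sub_one_le (x := r) (by rwa [abs_of_nonneg r1]))).2
      rw [abs_of_nonneg r1] at f2
      rw [sub_eq_add_neg u, Real.exp_add, Real.exp_add]
      nlinarith [Real.exp_pos u]
    have e2 : Real.exp (u - r) ≤ Real.exp (u + r) := Real.exp_le_exp.2 (by linarith)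
    rw [hS, Nat.card_Icc]
    have f1 := Nat.le_ceil (Real.exp (u - r))
    have f2 := Nat.floor_le (Real.exp_pos (u + r)).le
    rcases le_total ⌈Real.exp (u - r)⌉₊ (⌊Real.exp (u + r)⌋₊ + 1) with c | c
    · rw [Nat.cast_sub c]; push_cast; linarith
    · rw [Nat.sub_eq_zero_of_le c]; push_cast; positivity
  have c2 : 1 / 2 * (Real.pi ^ 2 / 6) ≤ 1 := by nlinarith [Real.pi_lt_d2, Real.pi_pos]
  have c3 := mul_le_mul_of_nonneg_right c1 (by linarith : 0 ≤ u + 1)
  rw [mul_div_assoc, ← hr]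
  linarith

variable {a : ℕ → ℂ} {δ : ℂ}

lemma norm_ta (ha : ∀ n, ‖a n‖ ≤ Λ n) (ρ u : ℝ) (n : ℕ) : ‖ta a ρ u n‖ ≤ tm ρ u n := by
  rw [ta, tm, norm_mul, Complex.norm_real, Real.norm_of_nonneg (g_pos _).le]
  exact mul_le_mul_of_nonneg_right (ha n) (g_pos _).le

lemma win_nonneg {ρ α β : ℝ} (hρ : 0 ≤ ρ) (h : α ≤ β) (l : ℝ) : 0 ≤ win ρ α β l :=
  intervalIntegral.integral_nonneg h fun _ _ => mul_nonneg hρ (g_pos _).le

/-- the estimate at one point -/
lemma point (ha : ∀ n, ‖a n‖ ≤ Λ n) (hδ : ‖δ‖ ≤ 1) {ρ : ℝ} (hρ : 4 ≤ ρ) {x H : ℕ} (hx : 0 < x)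
    {f : ℝ → ℝ} (hf : Continuous f)
    (hE : ∀ u, Real.log x ≤ u → u ≤ Real.log (x + H : ℕ) → ‖Er a δ ρ u‖ ≤ f u) :
    ‖∑ n ∈ Ioc x (x + H), a n - δ * H‖ ≤ (∫ u in Real.log x..Real.log (x + H : ℕ), f u) +
      6 * (∑' n, tm (ρ / 2) (Real.log x) n + ∑' n, tm (ρ / 2) (Real.log (x + H : ℕ)) n) +
        3 * H / ρ ^ 2 := by
  have r0 : 0 < ρ := by linarith
  have x0 : (0 : ℝ) < x := by exact_mod_cast hx
  have x1 : (0 : ℝ) < (x + H : ℕ) := by push_cast; positivity
  set α := Real.log x with hα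
  set β := Real.log (x + H : ℕ) with hβ
  have hab : α ≤ β := Real.log_le_log x0 (by push_cast; linarith [H.cast_nonneg (α := ℝ)])
  have sa := tm_summable (ρ := ρ / 2) (by linarith) α
  have sb := tm_summable (ρ := ρ / 2) (by linarith) β
  set s := √(2 * Real.pi) with hs
  have s1 : 1 ≤ s := one_le_sqrt_two_pi
  have s3 : s ≤ 3 := sqrt_two_pi_le
  have ind : ∀ n : ℕ, ‖(if n ∈ Ioc x (x + H) then s * a n else 0) - a n * (win ρ α β (Real.log n) : ℝ)‖
      ≤ 6 * (tm (ρ / 2) α n + tm (ρ / 2) β n) := by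
    intro n
    rcases n.eq_zero_or_pos with rfl | h
    · have : a 0 = 0 := by simpa using ha 0
      simp [this, tm]
    have h0 : (0 : ℝ) < n := by exact_mod_cast h
    have e : (α < Real.log n ∧ Real.log n ≤ β) ↔ n ∈ Ioc x (x + H) := by
      rw [hα, hβ, Real.log_lt_log_iff x0 h0, Real.log_le_log_iff h0 x1, mem_Ioc, Nat.cast_lt,
        Nat.cast_le]
    have w := win_err r0 hab (Real.log n)
    have e2 : (if n ∈ Ioc x (x + H) then s * a n else 0) - a n * (win ρ α β (Real.log n) : ℝ) =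
        a n * (((if α < Real.log n ∧ Real.log n ≤ β then s else 0) -
          win ρ α β (Real.log n) : ℝ) : ℂ) := by
      simp only [e]
      split_ifs <;> push_cast <;> ring
    rw [e2, norm_mul, Complex.norm_real, Real.norm_eq_abs, tm, tm, ← mul_add, mul_left_comm]
    exact mul_le_mul (ha n) w (abs_nonneg _) vonMangoldt_nonneg
  have h1 : HasSum (fun n : ℕ => if n ∈ Ioc x (x + H) then s * a n else 0)
      (s * ∑ n ∈ Ioc x (x + H), a n) := by
    have := hasSum_sum_of_ne_finset_zero (L := SummationFilter.unconditional ℕ)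
      (f := fun n : ℕ => if n ∈ Ioc x (x + H) then s * a n else 0) (s := Ioc x (x + H))
      fun n hn => if_neg hn
    rwa [sum_congr rfl fun n hn => if_pos hn, ← mul_sum] at this
  have sm := (sa.add sb).mul_left 6
  have h2 : Summable fun n : ℕ => a n * (win ρ α β (Real.log n) : ℝ) := by
    have := h1.summable.sub (Summable.of_norm_bounded sm ind)
    simpa using this
  have gc := g_cont
  have hn : ∀ (n : ℕ) (u : ℝ), ‖(ρ : ℂ) * ta a ρ u n‖ = ‖a n‖ * (ρ * g (ρ * (Real.log n - u))) := by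
    intro n u
    rw [ta, norm_mul, norm_mul, Complex.norm_real, Complex.norm_real, Real.norm_of_nonneg r0.le,
      Real.norm_of_nonneg (g_pos _).le]
    ring
  have h3 := hasSum_integral_of_summable_integral_norm (μ := volume.restrict (Set.Ioc α β))
    (F := fun (n : ℕ) (u : ℝ) => (ρ : ℂ) * ta a ρ u n)
    (fun n => (Continuous.integrableOn_Icc (by unfold ta; fun_prop)).mono_set
      Set.Ioc_subset_Icc_self)
    (by
      refine h2.norm.congr fun n => ?_
      simp_rw [hn]
      rw [integral_const_mul, norm_mul, Complex.norm_real,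
        Real.norm_of_nonneg (win_nonneg r0.le hab _), win, intervalIntegral.integral_of_le hab])
  have i3 : IntegrableOn (fun u : ℝ => ∑' n, (ρ : ℂ) * ta a ρ u n) (Set.Ioc α β) := by
    refine (ContinuousOn.integrableOn_Icc (continuousOn_tsum
      (fun n => Continuous.continuousOn (by unfold ta; fun_prop))
      (sum_sq.summable.mul_left (ρ * Real.exp (3 * β + 5))) fun n u hu => ?_)).mono_set
      Set.Ioc_subset_Icc_self
    rw [norm_mul, Complex.norm_real, Real.norm_of_nonneg r0.le, mul_assoc]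
    refine mul_le_mul_of_nonneg_left ((norm_ta ha ρ u n).trans (le_trans ?_ ((tm_wide u n).trans
      (mul_le_mul_of_nonneg_right (Real.exp_le_exp.2 (by linarith [hu.2])) (by positivity))))) r0.le
    refine mul_le_mul_of_nonneg_left (Real.exp_le_exp.2 ?_) vonMangoldt_nonneg
    have : 1 ≤ ρ ^ 2 := by nlinarith
    nlinarith [mul_le_mul_of_nonneg_right this (sq_nonneg (Real.log n - u))]
  have e3 : ∀ n : ℕ, ∫ u in Set.Ioc α β, (ρ : ℂ) * ta a ρ u n =
      a n * (win ρ α β (Real.log n) : ℝ) := fun n => by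
    rw [win, intervalIntegral.integral_of_le hab, ← integral_complex_ofReal, ← integral_const_mul]
    congr 1; funext u
    rw [ta]; push_cast; ring
  simp_rw [e3, tsum_mul_left] at h3
  simp_rw [tsum_mul_left] at i3
  have i4 : IntegrableOn (fun u : ℝ => δ * (s * Real.exp (u + 1 / (2 * ρ ^ 2)) : ℝ))
      (Set.Ioc α β) :=
    (Continuous.integrableOn_Icc (by fun_prop)).mono_set Set.Ioc_subset_Icc_self
  have e4 : ∫ u in Set.Ioc α β, δ * (s * Real.exp (u + 1 / (2 * ρ ^ 2)) : ℝ) =
      δ * (s * (H * Real.exp (1 / (2 * ρ ^ 2))) : ℝ) := by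
    rw [integral_const_mul, integral_complex_ofReal, integral_const_mul,
      ← intervalIntegral.integral_of_le hab]
    simp_rw [Real.exp_add]
    rw [intervalIntegral.integral_mul_const, integral_exp, hα, hβ, Real.exp_log x0,
      Real.exp_log x1]
    push_cast; ring
  have h5 : ‖∫ u in Set.Ioc α β, Er a δ ρ u‖ ≤ ∫ u in α..β, f u := by
    rw [intervalIntegral.integral_of_le hab]
    refine norm_integral_le_of_norm_le (hf.integrableOn_Icc.mono_set Set.Ioc_subset_Icc_self) ?_
    filter_upwards [ae_restrict_mem measurableSet_Ioc] with u hu using hE u hu.1.le hu.2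
  have e5 : ∫ u in Set.Ioc α β, Er a δ ρ u = (∫ u in Set.Ioc α β, (ρ : ℂ) * ∑' n, ta a ρ u n) -
      δ * (s * (H * Real.exp (1 / (2 * ρ ^ 2))) : ℝ) := by
    rw [← e4, ← integral_sub i3 i4]; rfl
  have h6 := (h1.sub h3).norm_le_of_bounded ((sa.hasSum.add sb.hasSum).mul_left 6) ind
  have h7 : ‖δ * (s * (H * Real.exp (1 / (2 * ρ ^ 2))) : ℝ) - s * (δ * H)‖ ≤ 3 * H / ρ ^ 2 := by
    have q1 : 0 < 1 / (2 * ρ ^ 2) := by positivity
    have q3 : 1 / (2 * ρ ^ 2) ≤ 1 := (div_le_one (by positivity)).2 (by nlinarith)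
    have x1 := Real.abs_exp_sub_one_le (x := 1 / (2 * ρ ^ 2)) (by rwa [abs_of_pos q1])
    rw [abs_of_pos q1] at x1
    have e : δ * (s * (H * Real.exp (1 / (2 * ρ ^ 2))) : ℝ) - s * (δ * H) =
        δ * (s * (H * (Real.exp (1 / (2 * ρ ^ 2)) - 1)) : ℝ) := by
      simp only [Complex.ofReal_mul, Complex.ofReal_sub, Complex.ofReal_natCast,
        Complex.ofReal_one]
      ring
    rw [e, norm_mul, Complex.norm_real, Real.norm_eq_abs, abs_mul, abs_mul,
      abs_of_nonneg (by linarith : 0 ≤ s), Nat.abs_cast]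
    calc _ ≤ 1 * (3 * (H * (2 * (1 / (2 * ρ ^ 2))))) := by gcongr
      _ = _ := by field_simp
  have h8 : ‖(s : ℂ) * (∑ n ∈ Ioc x (x + H), a n - δ * H)‖ ≤ (∫ u in α..β, f u) +
      6 * (∑' n, tm (ρ / 2) α n + ∑' n, tm (ρ / 2) β n) + 3 * H / ρ ^ 2 := by
    have e : (s : ℂ) * (∑ n ∈ Ioc x (x + H), a n - δ * H) =
        (∫ u in Set.Ioc α β, Er a δ ρ u) + (s * ∑ n ∈ Ioc x (x + H), a n -
          ∫ u in Set.Ioc α β, (ρ : ℂ) * ∑' n, ta a ρ u n) +
        (δ * (s * (H * Real.exp (1 / (2 * ρ ^ 2))) : ℝ) - s * (δ * H)) := by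
      rw [e5]; ring
    rw [e]
    exact (norm_add₃_le).trans (add_le_add (add_le_add h5 h6) h7)
  refine le_trans ?_ h8
  rw [norm_mul, Complex.norm_real, Real.norm_of_nonneg (by linarith)]
  exact le_mul_of_one_le_left (norm_nonneg _) s1

lemma tele {P : ℕ → ℝ} (hP : Monotone P) {b c : ℕ} (h : b ≤ c) (H : ℕ) :
    ∑ x ∈ Ioc b c, (P (x + H) - P x) ≤ H * (P (c + H) - P b) := by
  induction H with
  | zero => simp
  | succ H ih =>
    have e : ∑ x ∈ Ioc b c, (P (x + (H + 1)) - P (x + H)) = P (c + (H + 1)) - P (b + (H + 1)) := by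
      clear ih
      induction c, h using Nat.le_induction with
      | base => simp
      | succ c hc ic =>
        rw [sum_Ioc_succ_top hc, ic, show c + 1 + H = c + (H + 1) by ring]
        ring
    have e2 : ∑ x ∈ Ioc b c, (P (x + (H + 1)) - P x) =
        ∑ x ∈ Ioc b c, (P (x + (H + 1)) - P (x + H)) + ∑ x ∈ Ioc b c, (P (x + H) - P x) := by
      rw [← sum_add_distrib]; exact sum_congr rfl fun x _ => by ring
    have m1 := hP (show b ≤ b + (H + 1) by omega)
    have m2 := hP (show c + H ≤ c + (H + 1) by omega)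
    have m3 := mul_le_mul_of_nonneg_left m2 (H.cast_nonneg (α := ℝ))
    rw [e2, e]
    push_cast
    nlinarith

lemma cs_int {f : ℝ → ℝ} (hf : Continuous f) {α β : ℝ} (h : α ≤ β) :
    (∫ u in α..β, f u) ^ 2 ≤ (β - α) * ∫ u in α..β, f u ^ 2 := by
  rcases h.eq_or_lt with rfl | h'
  · simp
  set m := (∫ u in α..β, f u) / (β - α) with hm
  have d : 0 < β - α := by linarith
  have h1 : 0 ≤ ∫ u in α..β, (f u ^ 2 - 2 * m * f u + m ^ 2) :=
    intervalIntegral.integral_nonneg h fun u _ => by nlinarith [sq_nonneg (f u - m)]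
  rw [intervalIntegral.integral_add (Continuous.intervalIntegrable (by fun_prop) _ _)
    (Continuous.intervalIntegrable (by fun_prop) _ _), intervalIntegral.integral_sub
    (Continuous.intervalIntegrable (by fun_prop) _ _)
    (Continuous.intervalIntegrable (by fun_prop) _ _), intervalIntegral.integral_const_mul,
    intervalIntegral.integral_const, smul_eq_mul] at h1
  have e : ∫ u in α..β, f u = m * (β - α) := by rw [hm]; field_simp
  rw [e] at h1 ⊢
  nlinarith [mul_nonneg d.le h1]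

/-- the mean square over a dyadic range -/
lemma core (ha : ∀ n, ‖a n‖ ≤ Λ n) (hδ : ‖δ‖ ≤ 1) {X H : ℕ} {ρ J : ℝ}
    (hX : 20 ≤ Real.log X) (hH : H ≤ X) (hρ : 2 * (Real.log X + 2) ≤ ρ)
    (hJ : ∫ t, ‖Fa a δ (1 / (2 * (ρ ^ 2 - 1))) (Real.log X) t‖ ^ 2 ≤ J) :
    ∑ x ∈ Ioc X (2 * X), ‖∑ n ∈ Ioc x (x + H), a n - δ * H‖ ^ 2 ≤
      16 * Real.exp 17 * H ^ 2 * X * J + 2 * X * (12 * ((Real.log X + 3) *
        (18 * X * (Real.log X + 2) / ρ + 1) + 1) + 3 * H / ρ ^ 2) ^ 2 := by
  set v := Real.log X with hv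
  have X0 : (0 : ℝ) < X := by
    rcases X.eq_zero_or_pos with rfl | h
    · simp at hv; linarith
    · exact_mod_cast h
  have r0 : 0 < ρ := by linarith
  obtain ⟨f, fc, f0, fi, fp⟩ := maj ha hδ (by linarith) (by linarith) hJ
  have HX : (H : ℝ) ≤ X := by exact_mod_cast hH
  have H0 : (0 : ℝ) ≤ H := H.cast_nonneg
  have l3 : Real.log (3 * X) ≤ v + 2 := by
    rw [Real.log_mul (by norm_num) X0.ne']
    linarith [Real.log_le_sub_one_of_pos (show (0 : ℝ) < 3 by norm_num)]
  set P : ℕ → ℝ := fun z => ∫ u in v..Real.log (max z 1 : ℕ), f u ^ 2 with hP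
  have f2 : Continuous fun u => f u ^ 2 := by fun_prop
  have Pd : ∀ z z', P z' - P z = ∫ u in Real.log (max z 1 : ℕ)..Real.log (max z' 1 : ℕ), f u ^ 2 :=
    fun z z' => intervalIntegral.integral_interval_sub_left (f2.intervalIntegrable _ _)
      (f2.intervalIntegrable _ _)
  have lm : ∀ z z' : ℕ, z ≤ z' → Real.log (max z 1 : ℕ) ≤ Real.log (max z' 1 : ℕ) :=
    fun z z' hz => Real.log_le_log (by exact_mod_cast lt_max_of_lt_right one_pos)
      (by exact_mod_cast max_le_max_right _ hz)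
  have Pm : Monotone P := fun z z' hz => sub_nonneg.1 (by
    rw [Pd]; exact intervalIntegral.integral_nonneg (lm z z' hz) fun u _ => sq_nonneg _)
  set R := 12 * ((v + 3) * (18 * X * (v + 2) / ρ + 1) + 1) + 3 * H / ρ ^ 2 with hR
  have tr : ∀ z : ℕ, X ≤ z → z ≤ 3 * X → ∑' n, tm (ρ / 2) (Real.log z) n ≤
      (v + 3) * (18 * X * (v + 2) / ρ + 1) + 1 := by
    intro z z1 z2
    have y1 : (X : ℝ) ≤ z := by exact_mod_cast z1
    have y2 : (z : ℝ) ≤ 3 * X := by exact_mod_cast z2
    have u1 : v ≤ Real.log z := Real.log_le_log X0 y1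
    have u2 : Real.log z ≤ v + 2 := (Real.log_le_log (by linarith) y2).trans l3
    refine (triv (by linarith) (by linarith)).trans ?_
    rw [Real.exp_log (by linarith), show 18 * X * (v + 2) / ρ = 3 * (3 * X) * (v + 2) / (ρ / 2) by
      field_simp; ring]
    have : 0 ≤ Real.log z := by linarith
    have u3 : Real.log z + 1 ≤ v + 3 := by linarith
    refine add_le_add (mul_le_mul u3 ?_ (by positivity) (by linarith)) le_rfl
    gcongr
  have pt : ∀ x ∈ Ioc X (2 * X), ‖∑ n ∈ Ioc x (x + H), a n - δ * H‖ ^ 2 ≤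
      2 * (H / X) * (P (x + H) - P x) + 2 * R ^ 2 := by
    intro x hx
    rw [mem_Ioc] at hx
    have x0 : 0 < x := by omega
    have y1 : (X : ℝ) ≤ x := by exact_mod_cast hx.1.le
    have y0 : (0 : ℝ) < x := by linarith
    have y2 : ((x + H : ℕ) : ℝ) ≤ 3 * X := by exact_mod_cast (by omega : x + H ≤ 3 * X)
    have y3 : (x : ℝ) ≤ (x + H : ℕ) := by push_cast; linarith
    have u1 : v ≤ Real.log x := Real.log_le_log X0 y1
    have u2 : Real.log (x + H : ℕ) ≤ v + 2 := (Real.log_le_log (by linarith) y2).trans l3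
    have u3 : Real.log x ≤ Real.log (x + H : ℕ) := Real.log_le_log y0 y3
    have h1 := point ha hδ (by linarith) x0 fc (H := H) fun u a1 a2 =>
      fp u (by linarith) (by linarith)
    have h2 := cs_int fc u3
    have h3 : Real.log (x + H : ℕ) - Real.log x ≤ H / X := by
      rw [← Real.log_div (by linarith) y0.ne']
      refine (Real.log_le_sub_one_of_pos (div_pos (by linarith) y0)).trans ?_
      rw [show ((x + H : ℕ) : ℝ) / x - 1 = H / x by push_cast; field_simp; ring]
      exact div_le_div_of_nonneg_left H0 X0 y1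
    rw [Pd, max_eq_left x0, max_eq_left (by omega : 1 ≤ x + H)]
    have h4 : 0 ≤ ∫ u in Real.log x..Real.log (x + H : ℕ), f u ^ 2 :=
      intervalIntegral.integral_nonneg u3 fun u _ => sq_nonneg _
    have h5 := mul_le_mul_of_nonneg_right h3 h4
    have t1 := tr x hx.1.le (by omega)
    have t2 := tr (x + H) (by omega) (by omega)
    have h6 : ‖∑ n ∈ Ioc x (x + H), a n - δ * H‖ ≤
        (∫ u in Real.log x..Real.log (x + H : ℕ), f u) + R := by rw [hR]; linarith
    refine (pow_le_pow_left₀ (norm_nonneg _) h6 2).trans ?_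
    nlinarith [sq_nonneg ((∫ u in Real.log x..Real.log (x + H : ℕ), f u) - R)]
  refine (sum_le_sum pt).trans ?_
  rw [sum_add_distrib, ← mul_sum, sum_const, Nat.card_Ioc, nsmul_eq_mul,
    show 2 * X - X = X by omega]
  have h1 := tele Pm (show X ≤ 2 * X by omega) H
  have Xp : 1 ≤ X := by exact_mod_cast X0
  have h2 : P (2 * X + H) - P X ≤ 8 * Real.exp (2 * v + 17) * J := by
    rw [Pd, max_eq_left Xp, max_eq_left (by omega : 1 ≤ 2 * X + H)]
    have y2 : ((2 * X + H : ℕ) : ℝ) ≤ 3 * X := by exact_mod_cast (by omega : 2 * X + H ≤ 3 * X)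
    have y3 : (X : ℝ) ≤ (2 * X + H : ℕ) := by push_cast; linarith
    exact (intervalIntegral.integral_mono_interval (by linarith) (Real.log_le_log X0 y3)
      ((Real.log_le_log (by linarith) y2).trans l3) (ae_of_all _ fun u => sq_nonneg _)
      (f2.intervalIntegrable _ _)).trans fi
  have e : Real.exp (2 * v + 17) = X ^ 2 * Real.exp 17 := by
    rw [Real.exp_add, two_mul, Real.exp_add, hv, Real.exp_log X0, sq]
  rw [e] at h2
  have h3 := mul_le_mul_of_nonneg_left (h1.trans (mul_le_mul_of_nonneg_left h2 H0))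
    (by positivity : 0 ≤ 2 * ((H : ℝ) / X))
  refine add_le_add (h3.trans (le_of_eq ?_)) (le_of_eq (by ring))
  field_simp
  ring

end

end Pool.Agent.Lib.MP_68a45e_nt.CAp
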