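import Pool.Prelude.Def_F_c8bfdf43

/-! From von Mangoldt correlations to prime tuple counts: one tuple. -/

set_option autoImplicit false

namespace Pool.Agent.Lib.MP_68a45e_nt.CEnd

open Finset Filter Topology N9a2a6718 ArithmeticFunction

variable {k : ℕ}

/-- the von Mangoldt correlation -/
noncomputable def LS (m : Fin (k + 1) → ℕ) (x : ℕ) : ℝ :=
  ∑ n ∈ Ioc 0 x, ∏ i, vonMangoldt (n + 2 * m i)

noncomputable def ww (K : ℕ) (x : ℝ) : ℝ := 1 / Real.log x ^ K

noncomputable def aa (m : Fin (k + 1) → ℕ) (n : ℕ) : ℝ := ∏ i, vonMangoldt (n + 2 * m i)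

open Classical in
noncomputable def ind (m : Fin (k + 1) → ℕ) (p : ℕ) : ℝ :=
  if ∀ i, (p + 2 * m i).Prime then 1 else 0

noncomputable def np (y : ℕ) : ℝ := if y.Prime then 0 else vonMangoldt y

lemma one_le_log {x : ℝ} (h : 3 ≤ x) : 1 ≤ Real.log x := by
  rw [Real.le_log_iff_exp_le (by linarith)]
  linarith [Real.exp_one_lt_d9]

lemma ww_nonneg (K : ℕ) {x : ℝ} (h : 1 ≤ x) : 0 ≤ ww K x := by
  have := Real.log_nonneg h
  unfold ww; positivity

lemma ww_le_one (K : ℕ) {x : ℝ} (h : 3 ≤ x) : ww K x ≤ 1 := by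
  unfold ww
  rw [div_le_one (by have := one_le_log h; positivity)]
  exact one_le_pow₀ (one_le_log h)

lemma ww_le_two (K : ℕ) {x : ℝ} (h : 2 ≤ x) : ww K x ≤ 2 ^ K := by
  have h1 : 1 / 2 ≤ Real.log x := by
    have := Real.log_le_log (by norm_num) h
    linarith [Real.log_two_gt_d9]
  unfold ww
  rw [div_le_iff₀ (by positivity), ← mul_pow]
  exact one_le_pow₀ (by linarith)

lemma ww_anti (K : ℕ) {x y : ℝ} (h : 2 ≤ x) (hxy : x ≤ y) : ww K y ≤ ww K x := by
  have h1 : 0 < Real.log x := Real.log_pos (by linarith)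
  unfold ww
  gcongr

lemma count_near (m : Fin (k + 1) → ℕ) (h0 : m 0 = 0) (hp : ∀ i ≠ 0, 0 < m i) {Y n : ℕ}
    (hY : k + 1 ≤ Y) (hn : Y ≤ n) :
    |(N9a2a6718.Nat.primeTupleCounting m n : ℝ) - ∑ p ∈ Ioc Y n, ind m p| ≤ Y + 1 := by
  classical
  unfold N9a2a6718.Nat.primeTupleCounting
  rw [Nat.count_eq_card_filter_range, card_filter]
  push_cast
  have e1 : range n.succ = range (Y + 1) ∪ Ioc Y n := by
    ext p; simp only [mem_range, mem_union, mem_Ioc]; omega
  have e2 : Disjoint (range (Y + 1)) (Ioc Y n) := by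
    rw [disjoint_left]; intro p h1 h2; simp only [mem_range, mem_Ioc] at h1 h2; omega
  rw [e1, sum_union e2]
  have e3 : ∑ p ∈ Ioc Y n, (if IsAdmissiblePrimeConstellation m p then (1 : ℝ) else 0)
      = ∑ p ∈ Ioc Y n, ind m p := by
    refine sum_congr rfl fun p hp' => ?_
    have hY' := (mem_Ioc.1 hp').1
    unfold ind
    congr 1
    refine propext ⟨fun h => h.1.2.2, fun h => ⟨⟨h0, hp, h⟩, fun q hq hs => ?_⟩⟩
    have : NeZero q := ⟨hq.ne_zero⟩
    have h1 := Fintype.card_le_of_surjective _ hs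
    rw [ZMod.card, Fintype.card_fin] at h1
    obtain ⟨i, hi⟩ := hs 0
    have h2 : ((p + 2 * m i : ℕ) : ZMod q) = 0 := by push_cast; exact hi
    rw [ZMod.natCast_eq_zero_iff] at h2
    have h3 := (Nat.prime_dvd_prime_iff_eq hq (h i)).1 h2
    omega
  rw [e3, add_sub_cancel_right, abs_of_nonneg (sum_nonneg fun _ _ => by split_ifs <;> norm_num)]
  refine (sum_le_card_nsmul _ _ 1 fun _ _ => by split_ifs <;> norm_num).trans ?_
  simp

lemma np_nonneg (y : ℕ) : 0 ≤ np y := by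
  unfold np; split_ifs
  · exact le_rfl
  · exact vonMangoldt_nonneg

lemma lam_le {y N : ℕ} (h : y ≤ N) : vonMangoldt y ≤ Real.log N := by
  refine vonMangoldt_le_log.trans ?_
  rcases Nat.eq_zero_or_pos y with rfl | hy
  · simpa using Real.log_natCast_nonneg N
  · exact Real.log_le_log (by exact_mod_cast hy) (by exact_mod_cast h)

lemma aa_nonneg (m : Fin (k + 1) → ℕ) (n : ℕ) : 0 ≤ aa m n :=
  prod_nonneg fun _ _ => vonMangoldt_nonneg

lemma aa_le (m : Fin (k + 1) → ℕ) {n N : ℕ} (h : ∀ i, n + 2 * m i ≤ N) :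
    aa m n ≤ Real.log N ^ (k + 1) := by
  unfold aa
  refine (prod_le_prod (fun _ _ => vonMangoldt_nonneg) fun i _ => lam_le (h i)).trans ?_
  simp

lemma point (m : Fin (k + 1) → ℕ) {p N : ℕ} {u : ℝ} (hp : 3 ≤ p) (h : ∀ i, p + 2 * m i ≤ N)
    (hu : ∀ i, (2 * m i : ℝ) ≤ u * p) (hu0 : 0 ≤ u) (hu1 : (k + 1) * u ≤ 1) :
    |aa m p * ww (k + 1) p - ind m p| ≤
      2 * ((k + 1) * u) + Real.log N ^ k * ∑ i, np (p + 2 * m i) := by
  have hp' : (3 : ℝ) ≤ p := by exact_mod_cast hp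
  have hl := one_le_log hp'
  have hN : 0 ≤ Real.log N := Real.log_natCast_nonneg N
  have hs : 0 ≤ ∑ i, np (p + 2 * m i) := sum_nonneg fun _ _ => np_nonneg _
  unfold ind
  split_ifs with hc
  · have e : aa m p * ww (k + 1) p = ∏ i, Real.log (p + 2 * m i : ℕ) / Real.log p := by
      unfold aa ww
      rw [prod_div_distrib, prod_const, card_univ, Fintype.card_fin, mul_one_div]
      congr 1
      exact prod_congr rfl fun i _ => vonMangoldt_apply_prime (hc i)
    have b1 : ∀ i, 1 ≤ Real.log (p + 2 * m i : ℕ) / Real.log p := fun i => by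
      rw [one_le_div (by linarith)]
      exact Real.log_le_log (by linarith) (by exact_mod_cast Nat.le_add_right _ _)
    have b2 : ∀ i, Real.log (p + 2 * m i : ℕ) / Real.log p ≤ Real.exp u := fun i => by
      rw [div_le_iff₀ (by linarith)]
      have c1 : ((p + 2 * m i : ℕ) : ℝ) ≤ p * Real.exp u := by
        push_cast
        nlinarith [hu i, Real.add_one_le_exp u]
      have c2 := Real.log_le_log (by positivity) c1
      rw [Real.log_mul (by positivity) (by positivity), Real.log_exp] at c2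
      nlinarith [Real.add_one_le_exp u]
    have b3 : ∏ i, Real.log (p + 2 * m i : ℕ) / Real.log p ≤ Real.exp ((k + 1) * u) := by
      refine (prod_le_prod (fun i _ => zero_le_one.trans (b1 i)) fun i _ => b2 i).trans ?_
      rw [prod_const, card_univ, Fintype.card_fin, ← Real.exp_nat_mul]
      push_cast; exact le_rfl
    have b4 : 1 ≤ ∏ i, Real.log (p + 2 * m i : ℕ) / Real.log p := by
      have := prod_le_prod (s := univ) (f := fun _ : Fin (k + 1) => (1 : ℝ))
        (fun _ _ => zero_le_one) fun i _ => b1 i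
      simpa using this
    have b5 := Real.abs_exp_sub_one_le (x := (k + 1) * u)
      (by rw [abs_of_nonneg (by positivity)]; exact hu1)
    rw [abs_of_nonneg (by positivity : 0 ≤ (k + 1) * u)] at b5
    rw [e, abs_of_nonneg (by linarith)]
    have := le_abs_self (Real.exp ((k + 1) * u) - 1)
    have : 0 ≤ Real.log N ^ k * ∑ i, np (p + 2 * m i) := by positivity
    linarith
  · push Not at hc
    obtain ⟨j, hj⟩ := hc
    have w0 := ww_nonneg (k + 1) (x := p) (by linarith)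
    rw [sub_zero, abs_of_nonneg (mul_nonneg (aa_nonneg _ _) w0)]
    have b1 : aa m p ≤ Real.log N ^ k * np (p + 2 * m j) := by
      unfold aa np
      rw [if_neg hj, ← prod_erase_mul _ _ (mem_univ j)]
      refine mul_le_mul_of_nonneg_right ?_ vonMangoldt_nonneg
      refine (prod_le_prod (fun _ _ => vonMangoldt_nonneg) fun i _ => lam_le (h i)).trans ?_
      simp
    have b2 : np (p + 2 * m j) ≤ ∑ i, np (p + 2 * m i) :=
      single_le_sum (f := fun i => np (p + 2 * m i)) (fun _ _ => np_nonneg _) (mem_univ j)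
    have b3 : aa m p * ww (k + 1) p ≤ aa m p :=
      mul_le_of_le_one_right (aa_nonneg _ _) (ww_le_one _ hp')
    have b4 : Real.log N ^ k * np (p + 2 * m j) ≤ Real.log N ^ k * ∑ i, np (p + 2 * m i) := by
      gcongr
    have : 0 ≤ 2 * ((k + 1) * u) := by positivity
    linarith

lemma sum_np {Y n c N : ℕ} (h : n + c ≤ N) (hN : 1 ≤ N) :
    ∑ p ∈ Ioc Y n, np (p + c) ≤ 2 * √N * Real.log N := by
  have h1 := Chebyshev.psi_sub_theta_le (x := N) (by exact_mod_cast hN)
  rw [Chebyshev.psi_sub_theta_eq_sum_not_prime, Nat.floor_natCast, sum_filter] at h1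
  refine le_trans ?_ h1
  have e : ∑ y ∈ Ioc 0 N, (if ¬ y.Prime then vonMangoldt y else 0) = ∑ y ∈ Ioc 0 N, np y :=
    sum_congr rfl fun y _ => by unfold np; by_cases hy : y.Prime <;> simp [hy]
  rw [e, ← sum_image (s := Ioc Y n) (g := fun p => p + c) (f := np)
    (fun _ _ _ _ hh => by simpa using hh)]
  refine sum_le_sum_of_subset_of_nonneg (fun y hy => ?_) fun _ _ _ => np_nonneg _
  obtain ⟨p, hp, rfl⟩ := mem_image.1 hy
  simp only [mem_Ioc] at hp ⊢
  omega

lemma abel (a w : ℕ → ℝ) (F : ℕ → ℝ) (hF : ∀ x, F (x + 1) = F x + a (x + 1)) {Y n : ℕ}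
    (h : Y ≤ n) : ∑ p ∈ Ioc Y n, a p * w p
      = F n * w n - F Y * w Y + ∑ x ∈ Ico Y n, F x * (w x - w (x + 1)) := by
  induction n, h using Nat.le_induction with
  | base => simp
  | succ n h ih => rw [sum_Ioc_succ_top h, sum_Ico_succ_top h, ih, hF]; ring

lemma sum_int (K : ℕ) {Y n : ℕ} (hY : 3 ≤ Y) (h : Y ≤ n) :
    |∑ p ∈ Ioc Y n, ww K p - ∫ t in (2 : ℝ)..n, 1 / Real.log t ^ K| ≤ (2 ^ K + 1) * Y := by
  have hY' : (3 : ℝ) ≤ Y := by exact_mod_cast hY
  have hn' : (Y : ℝ) ≤ n := by exact_mod_cast h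
  have ha : ∀ a b : ℝ, 2 ≤ a → AntitoneOn (ww K) (Set.Icc a b) := fun a b hab x hx y _ hxy =>
    ww_anti K (hab.trans hx.1) hxy
  have i1 : IntervalIntegrable (ww K) MeasureTheory.volume 2 Y :=
    AntitoneOn.intervalIntegrable (by rw [Set.uIcc_of_le (by linarith)]; exact ha _ _ le_rfl)
  have i2 : IntervalIntegrable (ww K) MeasureTheory.volume Y n :=
    AntitoneOn.intervalIntegrable (by rw [Set.uIcc_of_le hn']; exact ha _ _ (by linarith))
  change |∑ p ∈ Ioc Y n, ww K p - ∫ t in (2 : ℝ)..n, ww K t| ≤ _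
  rw [← intervalIntegral.integral_add_adjacent_intervals i1 i2]
  have b1 := (ha Y n (by linarith)).integral_le_sum_Ico h
  have b2 := (ha Y n (by linarith)).sum_le_integral_Ico h
  have e1 : ∑ i ∈ Ico Y n, ww K ((i + 1 : ℕ) : ℝ) = ∑ p ∈ Ioc Y n, ww K p := by
    rw [sum_Ico_add' (fun p : ℕ => ww K p) Y n 1]
    congr 1
    ext p; simp only [mem_Ico, mem_Ioc]; omega
  have e2 : ∑ i ∈ Ico Y n, ww K i + ww K n = ww K Y + ∑ p ∈ Ioc Y n, ww K p := by
    rw [← sum_Ico_succ_top h (fun p : ℕ => ww K p), add_sum_Ioc_eq_sum_Icc (f := fun p : ℕ => ww K p) h]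
    congr 1
  have b3 : 0 ≤ ∫ t in (2 : ℝ)..Y, ww K t :=
    intervalIntegral.integral_nonneg (by linarith) fun t ht => ww_nonneg K (by linarith [ht.1])
  have b4 : ∫ t in (2 : ℝ)..Y, ww K t ≤ ∫ _ in (2 : ℝ)..Y, (2 : ℝ) ^ K :=
    intervalIntegral.integral_mono_on (by linarith) i1 (by simp) fun t ht => ww_le_two K ht.1
  rw [intervalIntegral.integral_const, smul_eq_mul] at b4
  have b5 := ww_le_one K hY'
  have b6 := ww_nonneg K (x := n) (by linarith)
  have b7 : (0 : ℝ) < 2 ^ K := by positivity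
  rw [abs_le]
  constructor <;> nlinarith

/-- the random part of the error -/
noncomputable def RR (m : Fin (k + 1) → ℕ) (C : ℝ) (Y n : ℕ) : ℝ :=
  |LS m n - C * n| + (2 ^ (k + 1) + 2) * |LS m Y - C * Y|
    + ∑ x ∈ Ico Y n, |LS m x - C * x| * (ww (k + 1) x - ww (k + 1) (x + 1 : ℕ))

theorem one_tuple (m : Fin (k + 1) → ℕ) (h0 : m 0 = 0) (hp : ∀ i ≠ 0, 0 < m i) (C : ℝ)
    {Y n N : ℕ} {u : ℝ} (hY : k + 3 ≤ Y) (hn : Y ≤ n) (h : ∀ i, n + 2 * m i ≤ N)
    (hu : ∀ i, (2 * m i : ℝ) ≤ u * Y) (hu0 : 0 ≤ u) (hu1 : (k + 1) * u ≤ 1) :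
    |(N9a2a6718.Nat.primeTupleCounting m n : ℝ) - C * ∫ t in (2 : ℝ)..n, 1 / Real.log t ^ (k + 1)|
      ≤ (Y + 1) + 2 * ((k + 1) * u) * n + Real.log N ^ k * ((k + 1) * (2 * √N * Real.log N))
        + (2 ^ (k + 1) + 1) * (Y * Real.log N ^ (k + 1)) + RR m C Y n := by
  have hY3 : (3 : ℝ) ≤ Y := by exact_mod_cast (by omega : 3 ≤ Y)
  have hn3 : (Y : ℝ) ≤ n := by exact_mod_cast hn
  have hN1 : 1 ≤ N := by have := h 0; omega
  have hN : 0 ≤ Real.log N := Real.log_natCast_nonneg N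
  have s1 := count_near m h0 hp (by omega : k + 1 ≤ Y) hn
  have s2 : |∑ p ∈ Ioc Y n, aa m p * ww (k + 1) p - ∑ p ∈ Ioc Y n, ind m p| ≤
      2 * ((k + 1) * u) * n + Real.log N ^ k * ((k + 1) * (2 * √N * Real.log N)) := by
    rw [← sum_sub_distrib]
    refine (abs_sum_le_sum_abs _ _).trans ((sum_le_sum fun p hp' =>
      point m (N := N) (u := u) (by have := (mem_Ioc.1 hp').1; omega)
        (fun i => by have := (mem_Ioc.1 hp').2; have := h i; omega)
        (fun i => (hu i).trans (by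
          have : (Y : ℝ) ≤ p := by exact_mod_cast (mem_Ioc.1 hp').1.le
          gcongr)) hu0 hu1).trans ?_)
    rw [sum_add_distrib, sum_const, Nat.card_Ioc, nsmul_eq_mul, mul_comm, ← mul_sum, sum_comm]
    gcongr
    · exact Nat.sub_le _ _
    · refine (sum_le_card_nsmul _ _ _ fun i _ => sum_np (h i) hN1).trans ?_
      simp
  have s3 := abel (fun p => aa m p - C) (fun p => ww (k + 1) p) (fun x => LS m x - C * x)
    (fun x => by
      unfold LS aa
      rw [sum_Ioc_succ_top (Nat.zero_le x)]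
      push_cast; ring) hn
  have s4 := sum_int (k + 1) (by omega : 3 ≤ Y) hn
  have s5 : |C| * Y ≤ Y * Real.log N ^ (k + 1) + |LS m Y - C * Y| := by
    have c1 : LS m Y ≤ Y * Real.log N ^ (k + 1) := by
      refine (sum_le_card_nsmul _ _ _ fun p hp' => aa_le m (N := N) fun i => ?_).trans (by simp)
      have := (mem_Ioc.1 hp').2; have := h i; omega
    have c2 : 0 ≤ LS m Y := sum_nonneg fun _ _ => aa_nonneg m _
    have c3 : |C| * Y = |C * Y| := by rw [abs_mul, abs_of_nonneg (by linarith : (0 : ℝ) ≤ Y)]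
    have c4 := abs_sub_abs_le_abs_sub (C * Y) (LS m Y)
    rw [abs_sub_comm, abs_of_nonneg c2] at c4
    linarith
  have s6 : |∑ p ∈ Ioc Y n, (aa m p - C) * ww (k + 1) p| ≤ |LS m n - C * n| + |LS m Y - C * Y|
      + ∑ x ∈ Ico Y n, |LS m x - C * x| * (ww (k + 1) x - ww (k + 1) (x + 1 : ℕ)) := by
    rw [s3]
    refine (abs_add_le _ _).trans (add_le_add ((abs_sub _ _).trans (add_le_add ?_ ?_)) ?_)
    · rw [abs_mul, abs_of_nonneg (ww_nonneg _ (by linarith))]
      exact mul_le_of_le_one_right (abs_nonneg _) (ww_le_one _ (by linarith))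
    · rw [abs_mul, abs_of_nonneg (ww_nonneg _ (by linarith))]
      exact mul_le_of_le_one_right (abs_nonneg _) (ww_le_one _ hY3)
    · refine (abs_sum_le_sum_abs _ _).trans (sum_le_sum fun x hx => ?_)
      have : (Y : ℝ) ≤ x := by exact_mod_cast (mem_Ico.1 hx).1
      rw [abs_mul, abs_of_nonneg (sub_nonneg.2 (ww_anti _ (by linarith) (by push_cast; linarith)))]
  set I := ∫ t in (2 : ℝ)..n, 1 / Real.log t ^ (k + 1)
  set W := ∑ p ∈ Ioc Y n, ww (k + 1) p
  have e : ∑ p ∈ Ioc Y n, (aa m p - C) * ww (k + 1) p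
      = ∑ p ∈ Ioc Y n, aa m p * ww (k + 1) p - C * W := by
    simp only [sub_mul, sum_sub_distrib, W, mul_sum]
  have s7 : |C * W - C * I| ≤ (2 ^ (k + 1) + 1) * (|C| * Y) := by
    rw [← mul_sub, abs_mul]
    calc _ ≤ |C| * ((2 ^ (k + 1) + 1) * Y) := by gcongr
      _ = _ := by ring
  have s8 : (2 ^ (k + 1) + 1) * (|C| * Y)
      ≤ (2 ^ (k + 1) + 1) * (Y * Real.log N ^ (k + 1) + |LS m Y - C * Y|) := by gcongr
  rw [e] at s6
  unfold RR
  rw [abs_le] at s1 s2 s6 s7 ⊢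
  constructor <;> linarith [s1.1, s1.2, s2.1, s2.2, s6.1, s6.2, s7.1, s7.2]

end Pool.Agent.Lib.MP_68a45e_nt.CEnd
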