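import Pool.Agent.Lib.MP_68a45e_nt.CEnd1
import Pool.Agent.Lib.MP_68a45e_nt.AvDef

/-! From von Mangoldt correlations on average to prime tuple counts for almost all tuples. -/

set_option autoImplicit false

namespace Pool.Agent.Lib.MP_68a45e_nt.Av

open Finset Filter Topology N9a2a6718 Pool.Agent.Lib.MP_68a45e_nt.CEnd

open Classical in
/-- the final statement -/
def Main2 (θ : ℝ) : Prop := ∀ k A : ℕ, 1 ≤ k → ∀ η : ℝ, 0 < η → ∀ᶠ X : ℕ in atTop,
  ∀ (H : ℕ) (b : Fin k → ℕ), (X : ℝ) ^ θ ≤ H → (∀ i, (b i + H : ℝ) ≤ (X : ℝ) ^ (1 - η)) →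
    (((box b H).filter (fun m => ¬ Good A X (Fin.cons 0 m : Fin k.succ → ℕ))).card : ℝ) ≤
      (H : ℝ) ^ k / Real.log X ^ A

lemma card_box {k : ℕ} (b : Fin k → ℕ) (H : ℕ) : (box b H).card = H ^ k := by
  simp [box]

lemma mem_box {k : ℕ} {b : Fin k → ℕ} {H : ℕ} {m : Fin k → ℕ} :
    m ∈ box b H ↔ ∀ i, b i < m i ∧ m i ≤ b i + H := by
  simp [box]

lemma card_diag {k : ℕ} (b : Fin k → ℕ) (H : ℕ) {i j : Fin k} (hij : i ≠ j) :
    ((box b H).filter fun m => m i = m j).card * H ≤ H ^ k := by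
  have e : H = (Ioc (b j) (b j + H)).card := by simp
  rw [← card_box b H]
  conv_lhs => enter [2]; rw [e]
  rw [← card_product]
  refine card_le_card_of_injOn (fun p => Function.update p.1 j p.2) (fun p hp => ?_) ?_
  · simp only [coe_product, Set.mem_prod, mem_coe, mem_filter, mem_box, mem_Ioc] at hp ⊢
    intro l
    by_cases h : l = j
    · subst h; simpa using hp.2
    · rw [Function.update_of_ne h]; exact hp.1.1 l
  · intro p hp q hq h
    simp only [coe_product, Set.mem_prod, mem_coe, mem_filter] at hp hq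
    have h1 : p.2 = q.2 := by simpa using congrFun h j
    have h2 : ∀ l, l ≠ j → p.1 l = q.1 l := fun l hl => by
      simpa [Function.update_of_ne hl] using congrFun h l
    refine Prod.ext (funext fun l => ?_) h1
    by_cases hl : l = j
    · rw [hl, ← hp.1.2, ← hq.1.2]; exact h2 i hij
    · exact h2 l hl

open Classical in
lemma card_noninj {k : ℕ} (b : Fin k → ℕ) (H : ℕ) :
    ((box b H).filter fun m => ¬ Function.Injective (Fin.cons 0 m : Fin k.succ → ℕ)).card * H
      ≤ k ^ 2 * H ^ k := by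
  have hs : ((box b H).filter fun m => ¬ Function.Injective (Fin.cons 0 m : Fin k.succ → ℕ))
      ⊆ (univ : Finset (Fin k × Fin k)).biUnion fun p =>
        (box b H).filter fun m => p.1 ≠ p.2 ∧ m p.1 = m p.2 := fun m hm => by
    obtain ⟨h1, h2⟩ := mem_filter.1 hm
    rw [Fin.cons_injective_iff] at h2
    by_contra hc
    refine h2 ⟨fun ⟨i, hi⟩ => ?_, fun i j hij => ?_⟩
    · have := (mem_box.1 h1 i).1; omega
    · by_contra hne
      exact hc (mem_biUnion.2 ⟨(i, j), mem_univ _, mem_filter.2 ⟨h1, hne, hij⟩⟩)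
  refine (Nat.mul_le_mul_right _ ((card_le_card hs).trans card_biUnion_le)).trans ?_
  rw [sum_mul]
  refine (sum_le_card_nsmul _ _ (H ^ k) fun p _ => ?_).trans (by simp [sq])
  by_cases h : p.1 = p.2
  · simp [h]
  · simpa [h] using card_diag b H h

lemma ev_log (c : ℝ) (j : ℕ) {δ : ℝ} (hδ : 0 < δ) :
    ∀ᶠ n : ℕ in atTop, c * Real.log n ^ j ≤ (n : ℝ) ^ δ := by
  have h := (isLittleO_log_rpow_rpow_atTop (j : ℝ) hδ).const_mul_left c
  filter_upwards [tendsto_natCast_atTop_atTop.eventually h.eventuallyLE] with n hn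
  rw [Real.norm_of_nonneg (by positivity : 0 ≤ (n : ℝ) ^ δ), Real.rpow_natCast] at hn
  exact (le_abs_self _).trans hn

lemma tele (K : ℕ) {Y n : ℕ} (hY : 3 ≤ Y) (h : Y ≤ n) :
    ∑ x ∈ Ico Y n, (ww K x - ww K (x + 1 : ℕ)) ≤ 1 := by
  have := sum_Ico_sub (fun x : ℕ => - ww K x) h
  have hY' : (3 : ℝ) ≤ Y := by exact_mod_cast hY
  have hn' : (Y : ℝ) ≤ n := by exact_mod_cast h
  have e : ∑ x ∈ Ico Y n, (ww K x - ww K (x + 1 : ℕ)) = - ww K n - - ww K Y := by
    rw [← this]
    exact sum_congr rfl fun _ _ => by ring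
  linarith [ww_le_one K hY', ww_nonneg K (x := n) (by linarith)]

lemma det_le (k A : ℕ) {η : ℝ} (hη : 0 < η) : ∀ᶠ n : ℕ in atTop, ∃ (Y : ℕ) (u : ℝ),
    k + 3 ≤ Y ∧ Y ≤ n ∧ 0 ≤ u ∧ (k + 1) * u ≤ 1 ∧ 2 * (n : ℝ) ^ (1 - η) ≤ u * Y ∧
    (Y + 1) + 2 * ((k + 1) * u) * n
      + Real.log (3 * n : ℕ) ^ k * ((k + 1) * (2 * √(3 * n : ℕ) * Real.log (3 * n : ℕ)))
      + (2 ^ (k + 1) + 1) * (Y * Real.log (3 * n : ℕ) ^ (k + 1)) ≤ n / Real.log n ^ A / 2 := by
  have hL := (Real.tendsto_log_atTop.comp tendsto_natCast_atTop_atTop)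
  filter_upwards [ev_log (k + 3) (A + k + 2) one_pos, ev_log (32 * (k + 1)) (2 * A + k + 2) hη,
    ev_log (32 * (k + 1) * 2 ^ (k + 1)) (A + k + 1) one_half_pos,
    hL.eventually_ge_atTop (16 * (2 ^ (k + 1) + 1) * 2 ^ (k + 1) + 32), eventually_ge_atTop 3]
    with n h1 h2 h3 h4 h5
  have hn : (3 : ℝ) ≤ n := by exact_mod_cast h5
  have hn0 : (0 : ℝ) < n := by linarith
  simp only [Function.comp] at h4
  have hN : Real.log (3 * n : ℕ) ≤ 2 * Real.log n := by
    rw [two_mul, ← Real.log_mul hn0.ne' hn0.ne']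
    push_cast
    exact Real.log_le_log (by linarith) (by nlinarith)
  have hN0 : 0 ≤ Real.log (3 * n : ℕ) := Real.log_natCast_nonneg _
  have hs : √(3 * n : ℕ) ≤ 2 * √n := by
    rw [Real.sqrt_le_left (by positivity), mul_pow, Real.sq_sqrt hn0.le]
    push_cast; linarith
  have hs0 := Real.sqrt_nonneg (3 * n : ℕ)
  rw [← Real.sqrt_eq_rpow] at h3
  rw [Real.rpow_one] at h1
  have hss := Real.mul_self_sqrt hn0.le
  have e1 : (n : ℝ) ^ (1 - η) = n / (n : ℝ) ^ η := by rw [Real.rpow_sub hn0, Real.rpow_one]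
  have hE : 0 < (n : ℝ) ^ η := by positivity
  rw [e1]
  generalize (n : ℝ) ^ η = E at *
  generalize Real.log (3 * n : ℕ) = l at *
  generalize √(3 * n : ℕ) = s at *
  set L := Real.log n
  have hc : (0 : ℝ) < 2 ^ (k + 1) := by positivity
  have hL1 : 32 ≤ L := by nlinarith
  have hL0 : 0 < L := by linarith
  have p1 : 1 ≤ L ^ A := one_le_pow₀ (by linarith)
  have p2 : 1 ≤ L ^ (k + 1) := one_le_pow₀ (by linarith)
  set y := n / L ^ (A + k + 2) with hy
  have y1 : (k : ℝ) + 3 ≤ y := by rw [hy, le_div_iff₀ (by positivity)]; exact h1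
  have y2 : y ≤ n := div_le_self hn0.le (one_le_pow₀ (by linarith))
  have y3 := Nat.floor_le (by positivity : 0 ≤ y)
  have y4 := Nat.lt_floor_add_one y
  have hk : (0 : ℝ) ≤ k := by positivity
  have yP : y * (L * L ^ (k + 1)) = n / L ^ A := by
    rw [hy]; field_simp; ring
  have u1 : 8 * (2 * ((k + 1) * (4 * L ^ (A + k + 2) / E))) ≤ 2 / L ^ A := by
    rw [le_div_iff₀ (by positivity), ← mul_div_assoc, ← mul_div_assoc, ← mul_div_assoc,
      div_mul_eq_mul_div, div_le_iff₀ hE]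
    calc _ = 2 * (32 * (k + 1) * L ^ (2 * A + k + 2)) := by ring
      _ ≤ _ := by linarith
  have u2 : 2 / L ^ A ≤ 2 := div_le_self (by norm_num) p1
  refine ⟨⌊y⌋₊, 4 * L ^ (A + k + 2) / E, Nat.le_floor (by push_cast; exact y1),
    by exact_mod_cast y3.trans y2, by positivity, by linarith, ?_, ?_⟩
  · calc 2 * (n / E) = 4 * L ^ (A + k + 2) / E * (y / 2) := by rw [hy]; field_simp; ring
      _ ≤ _ := by gcongr; linarith
  · have t1 : (⌊y⌋₊ : ℝ) + 1 ≤ n / L ^ A / 16 := by
      rw [← yP]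
      have : y * 32 ≤ y * (L * L ^ (k + 1)) := by gcongr; nlinarith
      linarith
    have t2 : 2 * ((k + 1) * (4 * L ^ (A + k + 2) / E)) * n ≤ n / L ^ A / 4 := by
      calc _ ≤ 2 / L ^ A / 8 * n := by gcongr; linarith
        _ = _ := by ring
    have t3 : l ^ k * ((k + 1) * (2 * s * l)) ≤ n / L ^ A / 8 := by
      rw [le_div_iff₀ (by norm_num), le_div_iff₀ (by positivity)]
      calc _ ≤ (2 * L) ^ k * ((k + 1) * (2 * (2 * √n) * (2 * L))) * 8 * L ^ A := by gcongr
        _ = 32 * (k + 1) * 2 ^ (k + 1) * L ^ (A + k + 1) * √n := by ring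
        _ ≤ √n * √n := by gcongr
        _ = n := hss
    have t4 : (2 ^ (k + 1) + 1) * (⌊y⌋₊ * l ^ (k + 1)) ≤ n / L ^ A / 16 := by
      rw [← yP, le_div_iff₀ (by norm_num)]
      calc _ ≤ (2 ^ (k + 1) + 1) * (y * (2 * L) ^ (k + 1)) * 16 := by gcongr
        _ = y * ((16 * (2 ^ (k + 1) + 1) * 2 ^ (k + 1)) * L ^ (k + 1)) := by ring
        _ ≤ _ := by gcongr; linarith
    linarith

theorem main_of (hC : Conv) {θ : ℝ} (hθ : 0 < θ) (h : LamAvg θ) : Main2 θ := by
  classical
  intro k A hk η hη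
  have hL := (Real.tendsto_log_atTop.comp tendsto_natCast_atTop_atTop)
  filter_upwards [h k (2 * (2 * A + 1)) hk, det_le k A hη, ev_log (2 * k ^ 2) A hθ,
    hL.eventually_ge_atTop (4 * (2 ^ (k + 1) + 4)), eventually_ge_atTop 3]
    with n h1 ⟨Y, u, y1, y2, u0, u1, u2, hd⟩ h3 h4 h5 H b hH hb
  simp only [Function.comp] at h4
  have hn : (3 : ℝ) ≤ n := by exact_mod_cast h5
  have hc : (0 : ℝ) < 2 ^ (k + 1) := by positivity
  have hL0 : 0 < Real.log n := by linarith
  have hle : (n : ℝ) ^ (1 - η) ≤ n :=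
    (Real.rpow_le_rpow_of_exponent_le (by linarith) (by linarith)).trans_eq (Real.rpow_one _)
  have hb' : ∀ i, b i + H ≤ n := fun i => by exact_mod_cast (hb i).trans hle
  have hH0 : (0 : ℝ) < H := lt_of_lt_of_le (by positivity) hH
  set S := (box b H).filter fun m => Function.Injective (Fin.cons 0 m : Fin k.succ → ℕ) with hS
  set L := Real.log n
  set lam := n / L ^ (2 * A + 1) with hlam
  have hl0 : 0 < lam := by positivity
  set c : (Fin k → ℕ) → Fin k.succ → ℕ := fun m => Fin.cons 0 m with hcd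
  have e1 : ∀ x ≤ n, ∑ m ∈ S, |LS (c m) x - CS (c m) * x| ≤ H ^ k * lam := fun x hx => by
    have a1 := h1 H x b hH (by have := hb' ⟨0, hk⟩; omega) hx fun i => by have := hb' i; omega
    have a2 : (S.card : ℝ) ≤ H ^ k := by
      exact_mod_cast (card_filter_le _ _).trans_eq (card_box b H)
    have a3 : ∀ m ∈ S, |LS (c m) x - CS (c m) * x|
        ≤ |LS (c m) x - CS (c m) * x| ^ 2 / (2 * lam) + lam / 2 := fun m _ => by
      rw [div_add_div _ _ (by positivity) (by norm_num), le_div_iff₀ (by positivity)]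
      nlinarith [sq_nonneg (|LS (c m) x - CS (c m) * x| - lam)]
    refine (sum_le_sum a3).trans ?_
    rw [sum_add_distrib, ← sum_div, sum_const, nsmul_eq_mul]
    calc _ ≤ H ^ k * n ^ 2 / L ^ (2 * (2 * A + 1)) / (2 * lam) + H ^ k * (lam / 2) := by
          gcongr; exact a1
      _ = _ := by rw [hlam]; field_simp; ring
  have e2 : ∑ m ∈ S, RR (c m) (CS (c m)) Y n ≤ (2 ^ (k + 1) + 4) * (H ^ k * lam) := by
    unfold RR
    rw [sum_add_distrib, sum_add_distrib, ← mul_sum, sum_comm]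
    have a1 : ∑ x ∈ Ico Y n, ∑ m ∈ S, |LS (c m) x - CS (c m) * x|
        * (ww (k + 1) x - ww (k + 1) (x + 1 : ℕ)) ≤ H ^ k * lam := by
      refine (sum_le_sum fun x hx => ?_).trans
        ((mul_sum _ _ _).symm.trans_le (mul_le_of_le_one_right (by positivity)
          (tele (k + 1) (by omega) y2)))
      have : (3 : ℝ) ≤ x := by exact_mod_cast (by have := (mem_Ico.1 hx).1; omega : 3 ≤ x)
      rw [← sum_mul]
      exact mul_le_mul_of_nonneg_right (e1 x (mem_Ico.1 hx).2.le)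
        (sub_nonneg.2 (ww_anti _ (by linarith) (by push_cast; linarith)))
    have a2 := mul_le_mul_of_nonneg_left (e1 Y y2) (by positivity : (0 : ℝ) ≤ 2 ^ (k + 1) + 2)
    linarith [e1 n le_rfl]
  have r0 : ∀ m, 0 ≤ RR (c m) (CS (c m)) Y n := fun m => by
    refine add_nonneg (by positivity) (sum_nonneg fun x hx => mul_nonneg (abs_nonneg _) ?_)
    have : (3 : ℝ) ≤ x := by exact_mod_cast (by have := (mem_Ico.1 hx).1; omega : 3 ≤ x)
    exact sub_nonneg.2 (ww_anti _ (by linarith) (by push_cast; linarith))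
  set B := S.filter fun m => n / L ^ A / 2 ≤ RR (c m) (CS (c m)) Y n with hB
  have e3 : (B.card : ℝ) ≤ H ^ k / L ^ A / 2 := by
    have a1 := card_nsmul_le_sum B _ _ fun m hm => (mem_filter.1 hm).2
    have a2 := (sum_le_sum_of_subset_of_nonneg (s := B) (filter_subset _ S)
      fun m _ _ => r0 m).trans e2
    rw [nsmul_eq_mul] at a1
    refine le_of_mul_le_mul_right ((a1.trans a2).trans ?_) (by positivity : 0 < n / L ^ A / 2)
    calc _ ≤ L / 4 * (H ^ k * lam) := by gcongr; linarith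
      _ = _ := by rw [hlam]; field_simp; ring
  have e4 : (((box b H).filter fun m => ¬ Function.Injective (c m)).card : ℝ)
      ≤ H ^ k / L ^ A / 2 := by
    have a1 : (((box b H).filter fun m => ¬ Function.Injective (c m)).card : ℝ) * H
        ≤ k ^ 2 * H ^ k := by exact_mod_cast card_noninj b H
    refine le_of_mul_le_mul_right (a1.trans ?_) hH0
    calc _ = H ^ k / L ^ A / 2 * (2 * k ^ 2 * L ^ A) := by field_simp
      _ ≤ _ := by gcongr; exact h3.trans hH
  have e5 : ((box b H).filter fun m => ¬ Good A n (c m))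
      ⊆ B ∪ (box b H).filter fun m => ¬ Function.Injective (c m) := fun m hm => by
    obtain ⟨m1, m2⟩ := mem_filter.1 hm
    by_cases hi : Function.Injective (c m)
    · refine mem_union_left _ (mem_filter.2 ⟨mem_filter.2 ⟨m1, hi⟩, ?_⟩)
      by_contra hr
      refine m2 ⟨hi, _, (hC k _ hi).2, ?_⟩
      have a0 : ∀ i, (c m i : ℝ) ≤ (n : ℝ) ^ (1 - η) := fun i => by
        refine Fin.cases (by simp [hcd]; positivity) (fun j => le_trans ?_ (hb j)) i
        exact_mod_cast (mem_box.1 m1 j).2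
      have a1 := one_tuple (c m) rfl (fun i => Fin.cases (fun h => (h rfl).elim)
          (fun j _ => lt_of_le_of_lt (Nat.zero_le _) (mem_box.1 m1 j).1) i) (CS (c m))
        (N := 3 * n) y1 y2 (fun i => by
          have : c m i ≤ n := by exact_mod_cast (a0 i).trans hle
          omega) (fun i => by linarith [a0 i]) u0 u1
      linarith [not_le.1 hr]
    · exact mem_union_right _ (mem_filter.2 ⟨m1, hi⟩)
  have e6 : (((box b H).filter fun m => ¬ Good A n (c m)).card : ℝ)
      ≤ B.card + ((box b H).filter fun m => ¬ Function.Injective (c m)).card := by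
    exact_mod_cast (card_le_card e5).trans (card_union_le _ _)
  linarith

end Pool.Agent.Lib.MP_68a45e_nt.Av
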