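import Pool.Agent.Lib.MP_68a45e_nt.CEnd2

/-! The final statement in set form. -/

set_option autoImplicit false

namespace Pool.Agent.Lib.MP_68a45e_nt.Av

open Filter Topology N9a2a6718

theorem final_of {θ : ℝ} (hM : Main2 θ) (k A : ℕ) (hk : 1 ≤ k) (η : ℝ) (hη : 0 < η) :
    ∀ᶠ X : ℕ in atTop, ∀ (H : ℕ) (b : Fin k → ℕ), (X : ℝ) ^ θ ≤ H →
      (∀ i, (b i + H : ℝ) ≤ (X : ℝ) ^ (1 - η)) →
      ({m : Fin k.succ → ℕ | m 0 = 0 ∧ (∀ i : Fin k, b i < m i.succ ∧ m i.succ ≤ b i + H) ∧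
        ¬ (Function.Injective m ∧ ∃ C : ℝ,
          Tendsto (HardyLittlewoodPartialProduct m) atTop (𝓝 C) ∧
          |(N9a2a6718.Nat.primeTupleCounting m X : ℝ)
              - C * ∫ t in (2 : ℝ)..X, 1 / t.log ^ k.succ| ≤ X / Real.log X ^ A)}.ncard : ℝ)
        ≤ (H : ℝ) ^ k / Real.log X ^ A := by
  classical
  filter_upwards [hM k A hk η hη] with X h H b h1 h2
  refine le_trans ?_ (h H b h1 h2)
  rw [Nat.cast_le, ← Set.ncard_coe_finset]
  refine Set.ncard_le_ncard_of_injOn (fun m => Fin.tail m) (fun m hm => ?_) (fun m hm m' hm' e => ?_)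
    (Finset.finite_toSet _)
  · obtain ⟨m0, m1, m2⟩ := hm
    have e : (Fin.cons 0 (Fin.tail m) : Fin k.succ → ℕ) = m := by
      rw [← m0]; exact Fin.cons_self_tail m
    simp only [Finset.coe_filter, Set.mem_ofPred_eq, mem_box, e]
    exact ⟨m1, m2⟩
  · rw [← Fin.cons_self_tail m, ← Fin.cons_self_tail m', hm.1, hm'.1]
    exact congrArg _ e

end Pool.Agent.Lib.MP_68a45e_nt.Av
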