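import Pool.Agent.Lib.MP_68a45e_nt.CMin1

/-! Minor arcs, part 2: one dyadic box, from the Gauss window to short windows. -/

namespace Pool.Agent.Lib.MP_68a45e_nt.CMin

open Finset Complex MeasureTheory

/-- The bilinear exponential sum over a dyadic box. -/
noncomputable def SB (a b : ℕ → ℂ) (N M : ℕ) (t : ℝ) : ℂ :=
  ∑ n ∈ Ioc N (2 * N), ∑ m ∈ Ioc M (2 * M), a n * b m * ee (t * (n * m : ℕ))

/-- The part of the box that falls into a window. -/
noncomputable def Wb (a b : ℕ → ℂ) (N M : ℕ) (al : ℝ) (L x : ℕ) : ℂ :=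
  ∑ n ∈ Ioc N (2 * N), ∑ m ∈ Ioc M (2 * M),
    if n * m ∈ Ioc x (x + L) then a n * b m * ee (al * (n * m : ℕ)) else 0

lemma cont_SB (a b : ℕ → ℂ) (N M : ℕ) : Continuous (SB a b N M) := by
  unfold SB
  exact continuous_finsetSum _ fun n _ => continuous_finsetSum _ fun m _ =>
    continuous_const.mul (cont_ee.comp (by fun_prop))

lemma SB_l2 {a b : ℕ → ℂ} {N M : ℕ} {B D : ℝ} (al : ℝ) (hB : 0 ≤ B)
    (ha : ∀ n ∈ Ioc N (2 * N), ‖a n‖ ≤ B) (hb : ∀ m ∈ Ioc M (2 * M), ‖b m‖ ≤ B)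
    (hD : ∀ k : ℕ, k ≤ 16 * N * M → (k.divisors.card : ℝ) ≤ D) :
    ∫ t in (-(1 / 2) : ℝ)..(1 / 2), ‖SB a b N M (al + t)‖ ^ 2 ≤ B ^ 4 * D * (N * M) := by
  set s := Ioc N (2 * N) ×ˢ Ioc M (2 * M) with hs
  set g : ℕ × ℕ → ℤ := fun p => ((p.1 * p.2 : ℕ) : ℤ) with hg
  have h := pars s g (fun p => a p.1 * b p.2 * ee (al * (p.1 * p.2 : ℕ))) (s.image g)
    fun i hi => mem_image_of_mem g hi
  have h1 : ∀ t : ℝ, SB a b N M (al + t) =
      ∑ i ∈ s, a i.1 * b i.2 * ee (al * (i.1 * i.2 : ℕ)) * ee (t * g i) := by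
    intro t
    rw [hs, sum_product, SB]
    refine sum_congr rfl fun n _ => sum_congr rfl fun m _ => ?_
    rw [add_mul, ee_add, hg]; simp only [Int.cast_natCast]; ring
  simp_rw [h1]
  rw [h]
  have hc : ((N * M : ℕ) : ℝ) = ∑ x ∈ s.image g, (#{i ∈ s | g i = x} : ℝ) := by
    rw [← Nat.cast_sum, ← card_eq_sum_card_image g s, hs, card_product]
    simp only [Nat.card_Ioc]; congr 2 <;> omega
  rw [← Nat.cast_mul, hc, mul_sum]
  refine sum_le_sum fun x hx => ?_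
  obtain ⟨p, hp, rfl⟩ := mem_image.1 hx
  have h2 : ‖∑ i ∈ s with g i = g p, a i.1 * b i.2 * ee (al * (i.1 * i.2 : ℕ))‖ ≤
      (#{i ∈ s | g i = g p} : ℝ) * B ^ 2 := by
    refine (norm_sum_le _ _).trans ?_
    rw [← nsmul_eq_mul]
    refine sum_le_card_nsmul _ _ _ fun i hi => ?_
    have hi' := mem_product.1 (mem_filter.1 hi).1
    rw [norm_mul, norm_mul, norm_ee, mul_one, sq]
    exact mul_le_mul (ha _ hi'.1) (hb _ hi'.2) (norm_nonneg _) hB
  have hp' := mem_product.1 hp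
  simp only [mem_Ioc] at hp'
  have h3 : (#{i ∈ s | g i = g p} : ℝ) ≤ D := by
    refine le_trans ?_ (hD (p.1 * p.2) ?_)
    · norm_cast
      refine card_le_card_of_injOn (fun i => i.1) ?_ ?_
      · intro i hi
        have hi2 : i.1 * i.2 = p.1 * p.2 := by
          have := (mem_filter.1 (mem_coe.1 hi)).2
          simp only [hg] at this; exact_mod_cast this
        exact mem_coe.2 (Nat.mem_divisors.2 ⟨hi2 ▸ dvd_mul_right _ _,
          Nat.mul_ne_zero (by omega) (by omega)⟩)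
      · intro i hi j hj hij
        have hi1 := mem_filter.1 (mem_coe.1 hi)
        have hj1 := mem_filter.1 (mem_coe.1 hj)
        have hi2 : i.1 * i.2 = j.1 * j.2 := by
          have := hi1.2.trans hj1.2.symm
          simp only [hg] at this; exact_mod_cast this
        have h0 : 0 < j.1 := by
          have := mem_Ioc.1 (mem_product.1 hj1.1).1; omega
        simp only at hij
        rw [hij] at hi2
        exact Prod.ext hij (Nat.eq_of_mul_eq_mul_left h0 hi2)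
    · calc p.1 * p.2 ≤ (2 * N) * (2 * M) := Nat.mul_le_mul hp'.1.2 hp'.2.2
        _ ≤ 16 * N * M := by nlinarith
  have h4 : (0 : ℝ) ≤ #{i ∈ s | g i = g p} := Nat.cast_nonneg _
  calc _ ≤ ((#{i ∈ s | g i = g p} : ℝ) * B ^ 2) ^ 2 := by gcongr
    _ = B ^ 4 * (#{i ∈ s | g i = g p} : ℝ) * #{i ∈ s | g i = g p} := by ring
    _ ≤ _ := by gcongr

lemma fej (L : ℕ) {H t : ℝ} (hH : 0 < H) (ht : |t| ≤ 1 / 2) :
    ‖∑ j ∈ Ioc 0 L, ee (-t * j)‖ ^ 2 ≤
      L ^ 2 * Real.exp Real.pi * Real.exp (-Real.pi * H ^ 2 * t ^ 2) + H ^ 2 / 4 := by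
  rcases le_or_gt (H * |t|) 1 with h | h
  · have h1 : ‖∑ j ∈ Ioc 0 L, ee (-t * j)‖ ≤ L := by
      refine (norm_sum_le _ _).trans ?_
      simp [norm_ee]
    have h2 : 1 ≤ Real.exp Real.pi * Real.exp (-Real.pi * H ^ 2 * t ^ 2) := by
      rw [← Real.exp_add]
      apply Real.one_le_exp
      have : H ^ 2 * t ^ 2 ≤ 1 := by
        rw [← sq_abs t, ← mul_pow]; exact pow_le_one₀ (by positivity) h
      nlinarith [Real.pi_pos]
    have h3 : ‖∑ j ∈ Ioc 0 L, ee (-t * j)‖ ^ 2 ≤ (L : ℝ) ^ 2 := by gcongr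
    nlinarith [sq_nonneg H, sq_nonneg (L : ℝ)]
  · have ht0 : 0 < |t| := by
      by_contra h0
      have : |t| = 0 := le_antisymm (not_lt.1 h0) (abs_nonneg t)
      rw [this] at h; linarith
    have h1 := geo (b := -t) ht0 (fun c => by
      rcases eq_or_ne c 0 with rfl | hc
      · simp
      · have h1 : (1 : ℝ) ≤ |(c : ℝ)| := by exact_mod_cast Int.one_le_abs hc
        have h2 := abs_add_le (-t - c) t
        rw [show -t - c + t = -(c : ℝ) by ring, abs_neg] at h2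
        linarith) 0 L
    have h2 : 1 / (2 * |t|) ≤ H / 2 := by
      rw [div_le_div_iff₀ (by positivity) (by positivity)]; nlinarith
    have h3 : ‖∑ j ∈ Ioc 0 L, ee (-t * j)‖ ^ 2 ≤ (H / 2) ^ 2 := by
      gcongr; exact h1.trans h2
    have h4 : 0 ≤ (L : ℝ) ^ 2 * Real.exp Real.pi * Real.exp (-Real.pi * H ^ 2 * t ^ 2) := by
      positivity
    nlinarith

lemma gauss_int (a b : ℕ → ℂ) (N M : ℕ) (al : ℝ) {H : ℝ} (hH : 0 < H) :
    Integrable fun t : ℝ => Real.exp (-Real.pi * H ^ 2 * t ^ 2) * ‖SB a b N M (al + t)‖ ^ 2 := by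
  have h1 : Integrable fun t : ℝ => Real.exp (-(Real.pi * H ^ 2) * t ^ 2) :=
    integrable_exp_neg_mul_sq (by positivity)
  have h2 := h1.mul_bdd (g := fun t : ℝ => ‖SB a b N M (al + t)‖ ^ 2)
    (c := (∑ n ∈ Ioc N (2 * N), ∑ m ∈ Ioc M (2 * M), ‖a n * b m‖) ^ 2)
    ((((cont_SB a b N M).comp (by fun_prop)).norm.pow 2).aestronglyMeasurable)
    (Filter.Eventually.of_forall fun t => by
      rw [Real.norm_of_nonneg (by positivity)]
      gcongr
      refine (norm_sum_le _ _).trans (sum_le_sum fun n _ => (norm_sum_le _ _).trans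
        (sum_le_sum fun m _ => ?_))
      rw [norm_mul, norm_ee, mul_one])
  simpa only [neg_mul] using h2

/-- The bridge. -/
lemma box {a b : ℕ → ℂ} {N M : ℕ} {B D H : ℝ} (al : ℝ) (L : ℕ) (S : Finset ℕ) (hB : 0 ≤ B)
    (hH : 0 < H)
    (ha : ∀ n ∈ Ioc N (2 * N), ‖a n‖ ≤ B) (hb : ∀ m ∈ Ioc M (2 * M), ‖b m‖ ≤ B)
    (hD : ∀ k : ℕ, k ≤ 16 * N * M → (k.divisors.card : ℝ) ≤ D) :
    ∑ x ∈ S, ‖Wb a b N M al L x‖ ^ 2 ≤
      L ^ 2 * Real.exp Real.pi *
        (∫ t : ℝ, Real.exp (-Real.pi * H ^ 2 * t ^ 2) * ‖SB a b N M (al + t)‖ ^ 2) +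
      H ^ 2 / 4 * (B ^ 4 * D * (N * M)) := by
  set s := (Ioc N (2 * N) ×ˢ Ioc M (2 * M)) ×ˢ Ioc 0 L with hs
  set g : (ℕ × ℕ) × ℕ → ℤ := fun p => ((p.1.1 * p.1.2 : ℕ) : ℤ) - p.2 with hg
  have h := pars s g (fun p => a p.1.1 * b p.1.2 * ee (al * (p.1.1 * p.1.2 : ℕ)))
    (s.image g ∪ S.image (fun x : ℕ => (x : ℤ)))
    fun i hi => mem_union_left _ (mem_image_of_mem g hi)
  have h1 : ∀ t : ℝ, ∑ i ∈ s, a i.1.1 * b i.1.2 * ee (al * (i.1.1 * i.1.2 : ℕ)) * ee (t * g i) =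
      SB a b N M (al + t) * ∑ j ∈ Ioc 0 L, ee (-t * j) := by
    intro t
    rw [hs, sum_product, sum_product, SB, sum_mul]
    refine sum_congr rfl fun n _ => ?_
    rw [sum_mul]
    refine sum_congr rfl fun m _ => ?_
    rw [mul_sum]
    refine sum_congr rfl fun j _ => ?_
    simp only [hg]
    rw [mul_assoc _ (ee _), mul_assoc _ (ee _), ← ee_add, ← ee_add]
    congr 2; push_cast; ring
  have h2 : ∀ x : ℕ, ∑ i ∈ s with g i = x, a i.1.1 * b i.1.2 * ee (al * (i.1.1 * i.1.2 : ℕ)) =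
      Wb a b N M al L x := by
    intro x
    rw [sum_filter, hs, sum_product, sum_product, Wb]
    refine sum_congr rfl fun n _ => sum_congr rfl fun m _ => ?_
    simp only [hg]
    split_ifs with hx
    · rw [mem_Ioc] at hx
      rw [sum_eq_single (n * m - x)]
      · rw [if_pos (by omega)]
      · intro j _ hj; rw [if_neg (by omega)]
      · intro hj; exact absurd (mem_Ioc.2 (by omega)) hj
    · refine sum_eq_zero fun j hj => if_neg ?_
      rw [mem_Ioc] at hx hj; omega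
  have h3 : ∑ x ∈ S, ‖Wb a b N M al L x‖ ^ 2 ≤ ∫ t in (-(1 / 2) : ℝ)..(1 / 2),
      ‖SB a b N M (al + t) * ∑ j ∈ Ioc 0 L, ee (-t * j)‖ ^ 2 := by
    simp_rw [← h1]
    rw [h]
    refine le_trans (le_of_eq ?_) (sum_le_sum_of_subset_of_nonneg subset_union_right
      fun _ _ _ => by positivity)
    rw [sum_image fun x _ y _ hxy => by exact_mod_cast hxy]
    exact sum_congr rfl fun x _ => by rw [h2]
  have hc : Continuous fun t : ℝ => ‖SB a b N M (al + t)‖ ^ 2 :=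
    ((cont_SB a b N M).comp (by fun_prop)).norm.pow 2
  have hi := gauss_int a b N M al hH
  have h4 : ∫ t in (-(1 / 2) : ℝ)..(1 / 2),
      ‖SB a b N M (al + t) * ∑ j ∈ Ioc 0 L, ee (-t * j)‖ ^ 2 ≤ ∫ t in (-(1 / 2) : ℝ)..(1 / 2),
      (L ^ 2 * Real.exp Real.pi *
        (Real.exp (-Real.pi * H ^ 2 * t ^ 2) * ‖SB a b N M (al + t)‖ ^ 2) +
        H ^ 2 / 4 * ‖SB a b N M (al + t)‖ ^ 2) := by
    refine intervalIntegral.integral_mono_on (by norm_num) ?_ ?_ fun t ht => ?_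
    · exact ((((cont_SB a b N M).comp (by fun_prop)).mul (continuous_finsetSum _ fun j _ =>
        cont_ee.comp (by fun_prop))).norm.pow 2).intervalIntegrable _ _
    · exact (hi.intervalIntegrable.const_mul _).add ((hc.intervalIntegrable _ _).const_mul _)
    · have := fej L hH (abs_le.2 ht)
      rw [norm_mul, mul_pow]
      nlinarith [sq_nonneg ‖SB a b N M (al + t)‖]
  rw [intervalIntegral.integral_add (hi.intervalIntegrable.const_mul _)
    ((hc.intervalIntegrable _ _).const_mul _), intervalIntegral.integral_const_mul,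
    intervalIntegral.integral_const_mul] at h4
  refine (h3.trans h4).trans (add_le_add ?_ ?_)
  · refine mul_le_mul_of_nonneg_left ?_ (by positivity)
    rw [intervalIntegral.integral_of_le (by norm_num)]
    exact setIntegral_le_integral hi (Filter.Eventually.of_forall fun t => by positivity)
  · exact mul_le_mul_of_nonneg_left (SB_l2 al hB ha hb hD) (by positivity)

end Pool.Agent.Lib.MP_68a45e_nt.CMin
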