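import Pool.Agent.Lib.MP_68a45e_nt.CMin2

/-! Minor arcs, part 3: type I and type II sums in short windows. -/

namespace Pool.Agent.Lib.MP_68a45e_nt.CMin

open Finset Complex MeasureTheory

/-- Dirichlet convolution. -/
noncomputable def conv (a b : ℕ → ℂ) (k : ℕ) : ℂ := ∑ p ∈ k.divisorsAntidiagonal, a p.1 * b p.2

lemma W_conv (a b : ℕ → ℂ) (al : ℝ) {L x Z : ℕ} (hZ : x + L ≤ Z) :
    W (conv a b) al L x = ∑ n ∈ Ioc 0 Z, ∑ m ∈ Ioc 0 Z,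
      if n * m ∈ Ioc x (x + L) then a n * b m * ee (al * (n * m : ℕ)) else 0 := by
  rw [← sum_product' (f := fun n m : ℕ =>
    if n * m ∈ Ioc x (x + L) then a n * b m * ee (al * (n * m : ℕ)) else 0), ← sum_filter,
    ← sum_fiberwise_of_maps_to (t := Ioc x (x + L)) (g := fun p : ℕ × ℕ => p.1 * p.2)
      fun p hp => (mem_filter.1 hp).2, W]
  refine sum_congr rfl fun k hk => ?_
  rw [conv, sum_mul]
  refine sum_congr ?_ fun p hp => by rw [(mem_filter.1 hp).2]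
  ext p
  simp only [Nat.mem_divisorsAntidiagonal, mem_filter, mem_product, mem_Ioc] at hk ⊢
  constructor
  · rintro ⟨h1, h2⟩
    have h3 : p.1 * p.2 ≠ 0 := h1 ▸ h2
    have h4 : 0 < p.1 := Nat.pos_of_ne_zero (left_ne_zero_of_mul h3)
    have h5 : 0 < p.2 := Nat.pos_of_ne_zero (right_ne_zero_of_mul h3)
    have h6 := Nat.le_mul_of_pos_right p.1 h5
    have h7 := Nat.le_mul_of_pos_left p.2 h4
    omega
  · rintro ⟨_, h⟩
    exact ⟨h, by omega⟩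

/-- Type I sums. -/
lemma typeI {c g : ℕ → ℂ} {al Bc G : ℝ} {R : ℕ} (L x : ℕ) (hB : 0 ≤ Bc) (hG : 0 ≤ G)
    (h0 : ∀ d, R < d → c d = 0) (h1 : ∀ d, d ≤ R → ‖c d‖ ≤ Bc)
    (h2 : ∀ d, 1 ≤ d → d ≤ R → ∀ u v, v ≤ x + L → ‖∑ m ∈ Ioc u v, g m * ee (al * d * m)‖ ≤ G) :
    ‖W (conv c g) al L x‖ ≤ R * (Bc * G) := by
  rw [W_conv c g al le_rfl]
  have h3 : ∀ n ∈ Ioc 0 (x + L), ‖∑ m ∈ Ioc 0 (x + L),
      if n * m ∈ Ioc x (x + L) then c n * g m * ee (al * (n * m : ℕ)) else 0‖ ≤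
      if n ∈ Ioc 0 R then Bc * G else 0 := by
    intro n hn
    have hn0 := (mem_Ioc.1 hn).1
    have h4 : ∑ m ∈ Ioc 0 (x + L),
        (if n * m ∈ Ioc x (x + L) then c n * g m * ee (al * (n * m : ℕ)) else 0) =
        c n * ∑ m ∈ Ioc (x / n) ((x + L) / n), g m * ee (al * n * m) := by
      rw [← sum_filter, mul_sum]
      refine sum_congr ?_ fun m _ => by push_cast; rw [mul_assoc, mul_assoc al]
      ext m
      simp only [mem_filter, mem_Ioc, Nat.div_lt_iff_lt_mul hn0, Nat.le_div_iff_mul_le hn0,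
        mul_comm m n]
      constructor
      · exact fun h => h.2
      · intro h
        have h5 := Nat.le_mul_of_pos_left m hn0
        refine ⟨⟨Nat.pos_of_ne_zero ?_, by omega⟩, h⟩
        rintro rfl; omega
    rw [h4]
    split_ifs with h
    · rw [norm_mul]
      exact mul_le_mul (h1 n (mem_Ioc.1 h).2)
        (h2 n hn0 (mem_Ioc.1 h).2 _ _ (Nat.div_le_self _ _)) (norm_nonneg _) hB
    · rw [h0 n (by rw [mem_Ioc] at h; omega)]; simp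
  refine (norm_sum_le _ _).trans ((sum_le_sum h3).trans ?_)
  rw [← sum_filter, sum_const, nsmul_eq_mul]
  refine mul_le_mul_of_nonneg_right ?_ (by positivity)
  have : #{n ∈ Ioc 0 (x + L) | n ∈ Ioc 0 R} ≤ #(Ioc 0 R) :=
    card_le_card fun n hn => (mem_filter.1 hn).2
  simpa using this

lemma dyad (F : ℕ → ℂ) (h : F 1 = 0) (K : ℕ) :
    ∑ n ∈ Ioc 0 (2 ^ K), F n = ∑ i ∈ range K, ∑ n ∈ Ioc (2 ^ i) (2 * 2 ^ i), F n := by
  induction K with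
  | zero => rw [pow_zero, show Ioc 0 1 = ({1} : Finset ℕ) by decide]; simpa using h
  | succ K ih =>
    rw [sum_range_succ, ← ih, sum_Ioc_consecutive _ (by positivity) (by omega), pow_succ']

lemma W_dyad {a b : ℕ → ℂ} (ha : a 1 = 0) (hb : b 1 = 0) (al : ℝ) {L x K : ℕ}
    (hZ : x + L ≤ 2 ^ K) :
    W (conv a b) al L x = ∑ p ∈ range K ×ˢ range K, Wb a b (2 ^ p.1) (2 ^ p.2) al L x := by
  rw [W_conv a b al hZ, dyad _ (by simp [ha]), sum_product]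
  refine sum_congr rfl fun i _ => ?_
  unfold Wb
  simp only []
  rw [sum_comm (s := range K)]
  exact sum_congr rfl fun n _ => dyad _ (by simp [hb]) K

/-- The type II estimate in the Gauss window, with constant `C`. -/
def T2 (C : ℝ) : Prop := ∀ (N M q c : ℕ) (lam H B D : ℝ) (a b : ℕ → ℂ), 1 ≤ N → 1 ≤ M → 1 ≤ q →
  Nat.Coprime c q → |lam| ≤ 1 → 1 ≤ H → H ≤ N * M → 1 ≤ |lam| * H → 0 ≤ B →
  (∀ n ∈ Ioc N (2 * N), ‖a n‖ ≤ B) → (∀ m ∈ Ioc M (2 * M), ‖b m‖ ≤ B) →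
  (∀ k : ℕ, k ≤ 16 * N * M → (k.divisors.card : ℝ) ≤ D) →
  ∫ t : ℝ, Real.exp (-Real.pi * H ^ 2 * t ^ 2) * ‖SB a b N M (c / q + lam + t)‖ ^ 2 ≤
    C * q * (B ^ 4 * (|lam| * N * M + N + M) + B ^ 4 * D * N * M / (|lam| * H)) +
      C * (B ^ 2 * N * M) ^ 2 * Real.exp (-(|lam| * H) ^ 2 / 4) / H

lemma SB_int (a b : ℕ → ℂ) (N M : ℕ) (t : ℝ) (k : ℤ) : SB a b N M (t + k) = SB a b N M t := by
  unfold SB
  refine sum_congr rfl fun n _ => sum_congr rfl fun m _ => ?_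
  rw [← ee_add_int (t * (n * m : ℕ)) (k * (n * m : ℕ))]
  congr 2; push_cast; ring

lemma dirich {al del : ℝ} {P : ℕ} (hP : 1 ≤ P) (h : Far al P del) :
    ∃ (q c : ℕ) (k : ℤ) (lam : ℝ), 1 ≤ q ∧ q ≤ P ∧ Nat.Coprime c q ∧ del < |lam| ∧
      q * |lam| ≤ 1 / P ∧ al = c / q + lam + k := by
  obtain ⟨r, h1, h2⟩ := Real.exists_rat_abs_sub_le_and_den_le al hP
  have hq : 0 < r.den := r.den_pos
  have hq' : (0 : ℝ) < r.den := by exact_mod_cast hq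
  have hP' : (0 : ℝ) < P := by exact_mod_cast hP
  have hr : (r : ℝ) = r.num / r.den := by exact_mod_cast (Rat.num_div_den r).symm
  have hm : 0 ≤ r.num % r.den := Int.emod_nonneg _ (by exact_mod_cast hq.ne')
  have hc : (((r.num % r.den).toNat : ℕ) : ℤ) = r.num % r.den := Int.toNat_of_nonneg hm
  refine ⟨r.den, (r.num % r.den).toNat, r.num / r.den, al - r, hq, h2, ?_, ?_, ?_, ?_⟩
  · rw [← Nat.isCoprime_iff_coprime, hc, Int.emod_def, sub_eq_add_neg, ← mul_neg]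
    exact IsCoprime.add_mul_left_left (Rat.isCoprime_num_den r) _
  · rw [hr]; exact h r.den hq (by exact_mod_cast h2) r.num
  · rw [le_div_iff₀ (by positivity)] at h1
    rw [le_div_iff₀ hP']
    nlinarith [abs_nonneg (al - r)]
  · have h3 : (((r.num % r.den).toNat : ℕ) : ℝ) = r.num - r.den * (r.num / r.den : ℤ) := by
      have := Int.emod_def r.num r.den
      rw [← hc] at this
      exact_mod_cast this
    rw [h3, hr]; field_simp; ring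

lemma box2 {C : ℝ} (hC : 0 ≤ C) (h : T2 C) {a b : ℕ → ℂ} {X L P N M : ℕ} {al Y B : ℝ}
    (S : Finset ℕ) (hY : 1 ≤ Y) (hL : Y ^ 4 ≤ L) (hLX : L ≤ X) (hP : 1 ≤ P) (hB : 0 ≤ B)
    (hF : Far al P (Y ^ 4 / L)) (hD : ∀ k : ℕ, k ≤ 32 * X → (k.divisors.card : ℝ) ≤ Y)
    (ha0 : ∀ n, n ≤ P ^ 2 → a n = 0) (hb0 : ∀ n, n ≤ P ^ 2 → b n = 0)
    (ha : ∀ n, n ≤ 4 * X → ‖a n‖ ≤ B) (hb : ∀ n, n ≤ 4 * X → ‖b n‖ ≤ B)
    (hS : ∀ x ∈ S, 4 * L ≤ x ∧ x ≤ X) (hN : 1 ≤ N) (hM : 1 ≤ M) :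
    ∑ x ∈ S, ‖Wb a b N M al L x‖ ^ 2 ≤ L ^ 2 * B ^ 4 * X *
      (Real.exp Real.pi * C * (10 / P + 2 * P / Y ^ 2 + 4 * X * Real.exp (-Y ^ 6 / 4)) +
        1 / (2 * Y)) := by
  have hY0 : 0 < Y := by linarith
  by_cases hz : 2 * N ≤ P ^ 2 ∨ 2 * M ≤ P ^ 2 ∨ 2 * X ≤ N * M ∨ N * M ≤ L
  · refine le_trans (le_of_eq (sum_eq_zero fun x hx => ?_)) (by positivity)
    have : Wb a b N M al L x = 0 := by
      refine sum_eq_zero fun n hn => sum_eq_zero fun m hm => ?_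
      rw [mem_Ioc] at hn hm
      have h1 := hS x hx
      have h2 : N * M ≤ n * m := Nat.mul_le_mul hn.1.le hm.1.le
      have h2' : N * M < n * m := Nat.mul_lt_mul'' hn.1 hm.1
      have h3 : n * m ≤ 4 * (N * M) := by
        calc n * m ≤ (2 * N) * (2 * M) := Nat.mul_le_mul hn.2 hm.2
          _ = _ := by ring
      rcases hz with hz | hz | hz | hz
      · simp [ha0 n (by omega)]
      · simp [hb0 m (by omega)]
      · exact if_neg (by rw [mem_Ioc]; omega)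
      · exact if_neg (by rw [mem_Ioc]; omega)
    simp [this]
  simp only [not_or, not_le] at hz
  obtain ⟨z1, z2, z3, z4⟩ := hz
  obtain ⟨q, c, k, lam, q1, q2, hc, l1, l2, rfl⟩ := dirich hP hF
  have hY4 : 1 ≤ Y ^ 4 := one_le_pow₀ hY
  have hY3 : 1 ≤ Y ^ 3 := one_le_pow₀ hY
  have hL0 : (0 : ℝ) < L := by linarith
  have hP0 : (1 : ℝ) ≤ P := by exact_mod_cast hP
  have hq0 : (1 : ℝ) ≤ q := by exact_mod_cast q1
  have hqP : (q : ℝ) ≤ P := by exact_mod_cast q2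
  have hN0 : (1 : ℝ) ≤ N := by exact_mod_cast hN
  have hM0 : (1 : ℝ) ≤ M := by exact_mod_cast hM
  have r1 : (P : ℝ) ^ 2 ≤ 2 * N := by exact_mod_cast z1.le
  have r2 : (P : ℝ) ^ 2 ≤ 2 * M := by exact_mod_cast z2.le
  have r3 : (N : ℝ) * M ≤ 2 * X := by exact_mod_cast z3.le
  have r4 : (L : ℝ) ≤ N * M := by exact_mod_cast z4.le
  have hH : 1 ≤ L / Y := by rw [le_div_iff₀ hY0]; nlinarith
  have hHL : L / Y ≤ L := div_le_self hL0.le hY
  have hU : Y ^ 3 ≤ |lam| * (L / Y) := by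
    rw [div_lt_iff₀ hL0] at l1
    rw [← mul_div_assoc, le_div_iff₀ hY0]; nlinarith
  have hl : |lam| ≤ 1 := by
    have : 1 / (P : ℝ) ≤ 1 := by rw [div_le_one (by linarith)]; exact hP0
    nlinarith [abs_nonneg lam]
  have ha' : ∀ n ∈ Ioc N (2 * N), ‖a n‖ ≤ B := fun n hn => ha n (by
    have := Nat.le_mul_of_pos_right N hM
    have := (mem_Ioc.1 hn).2; omega)
  have hb' : ∀ n ∈ Ioc M (2 * M), ‖b n‖ ≤ B := fun n hn => hb n (by
    have := Nat.le_mul_of_pos_left M hN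
    have := (mem_Ioc.1 hn).2; omega)
  have hD' : ∀ k : ℕ, k ≤ 16 * N * M → (k.divisors.card : ℝ) ≤ Y := fun k hk =>
    hD k (by rw [mul_assoc] at hk; omega)
  have h1 := h N M q c lam (L / Y) B Y a b hN hM q1 hc hl hH (hHL.trans r4) (hY3.trans hU) hB
    ha' hb' hD'
  have h2 := box (a := a) (b := b) (c / q + lam + k) L S hB (H := L / Y) (by linarith) ha' hb' hD'
  have h3 : ∀ t : ℝ, SB a b N M (c / q + lam + k + t) = SB a b N M (c / q + lam + t) := by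
    intro t; rw [add_right_comm, SB_int]
  simp_rw [h3] at h2
  have hX0 : (0 : ℝ) ≤ X := Nat.cast_nonneg X
  have s1 : (q : ℝ) * (|lam| * N * M + N + M) ≤ X * (10 / P) := by
    have t1 : q * |lam| * (N * M) ≤ 1 / P * (2 * X) := by gcongr
    have t2 : (q : ℝ) * N ≤ 4 * X / P := by
      rw [le_div_iff₀ (by linarith)]
      calc (q : ℝ) * N * P ≤ P * N * P := by gcongr
        _ = P ^ 2 * N := by ring
        _ ≤ 2 * M * N := by gcongr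
        _ ≤ _ := by linarith
    have t3 : (q : ℝ) * M ≤ 4 * X / P := by
      rw [le_div_iff₀ (by linarith)]
      calc (q : ℝ) * M * P ≤ P * M * P := by gcongr
        _ = P ^ 2 * M := by ring
        _ ≤ 2 * N * M := by gcongr
        _ ≤ _ := by linarith
    calc _ = q * |lam| * (N * M) + q * N + q * M := by ring
      _ ≤ 1 / P * (2 * X) + 4 * X / P + 4 * X / P := by gcongr
      _ = _ := by ring
  have s2 : (q : ℝ) * (Y * (N * M) / (|lam| * (L / Y))) ≤ X * (2 * P / Y ^ 2) := by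
    calc _ ≤ P * (Y * (2 * X) / Y ^ 3) := by gcongr
      _ = _ := by field_simp
  have s3 : ((N : ℝ) * M) ^ 2 * Real.exp (-(|lam| * (L / Y)) ^ 2 / 4) / (L / Y) ≤
      X * (4 * X * Real.exp (-Y ^ 6 / 4)) := by
    have t1 : Real.exp (-(|lam| * (L / Y)) ^ 2 / 4) ≤ Real.exp (-Y ^ 6 / 4) := by
      apply Real.exp_le_exp.2
      have : (Y ^ 3) ^ 2 ≤ (|lam| * (L / Y)) ^ 2 := by gcongr
      nlinarith
    calc _ ≤ (2 * X) ^ 2 * Real.exp (-Y ^ 6 / 4) / 1 := by gcongr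
      _ = _ := by ring
  have s4 : (L / Y) ^ 2 / 4 * (B ^ 4 * Y * (N * M)) ≤ L ^ 2 * B ^ 4 * X * (1 / (2 * Y)) := by
    calc _ ≤ (L / Y) ^ 2 / 4 * (B ^ 4 * Y * (2 * X)) := by gcongr
      _ = _ := by field_simp; ring
  have s5 : C * q * (B ^ 4 * (|lam| * N * M + N + M) + B ^ 4 * Y * N * M / (|lam| * (L / Y))) +
      C * (B ^ 2 * N * M) ^ 2 * Real.exp (-(|lam| * (L / Y)) ^ 2 / 4) / (L / Y) ≤
      C * B ^ 4 * (X * (10 / P) + X * (2 * P / Y ^ 2) + X * (4 * X * Real.exp (-Y ^ 6 / 4))) := by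
    calc _ = C * B ^ 4 * (q * (|lam| * N * M + N + M) + q * (Y * (N * M) / (|lam| * (L / Y))) +
        ((N : ℝ) * M) ^ 2 * Real.exp (-(|lam| * (L / Y)) ^ 2 / 4) / (L / Y)) := by ring
      _ ≤ _ := by gcongr
  calc _ ≤ _ := h2
    _ ≤ L ^ 2 * Real.exp Real.pi * (C * B ^ 4 * (X * (10 / P) + X * (2 * P / Y ^ 2) +
        X * (4 * X * Real.exp (-Y ^ 6 / 4)))) + L ^ 2 * B ^ 4 * X * (1 / (2 * Y)) :=
      add_le_add (mul_le_mul_of_nonneg_left (h1.trans s5) (by positivity)) s4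
    _ = _ := by ring

/-- Type II sums. -/
lemma typeII {C : ℝ} (hC : 0 ≤ C) (h : T2 C) {a b : ℕ → ℂ} {X L P K : ℕ} {al Y B : ℝ}
    (S : Finset ℕ) (hY : 1 ≤ Y) (hL : Y ^ 4 ≤ L) (hLX : L ≤ X) (hP : 1 ≤ P) (hB : 0 ≤ B)
    (hF : Far al P (Y ^ 4 / L)) (hD : ∀ k : ℕ, k ≤ 32 * X → (k.divisors.card : ℝ) ≤ Y)
    (ha0 : ∀ n, n ≤ P ^ 2 → a n = 0) (hb0 : ∀ n, n ≤ P ^ 2 → b n = 0)
    (ha : ∀ n, n ≤ 4 * X → ‖a n‖ ≤ B) (hb : ∀ n, n ≤ 4 * X → ‖b n‖ ≤ B)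
    (hS : ∀ x ∈ S, 4 * L ≤ x ∧ x ≤ X) (hK : 2 * X ≤ 2 ^ K) :
    ∑ x ∈ S, ‖W (conv a b) al L x‖ ^ 2 ≤ K ^ 4 * (L ^ 2 * B ^ 4 * X *
      (Real.exp Real.pi * C * (10 / P + 2 * P / Y ^ 2 + 4 * X * Real.exp (-Y ^ 6 / 4)) +
        1 / (2 * Y))) := by
  have h1 : 1 ≤ P ^ 2 := Nat.one_le_pow _ _ hP
  have hc : (#(range K ×ˢ range K) : ℝ) = K ^ 2 := by simp [sq]
  have h2 : ∀ x ∈ S, ‖W (conv a b) al L x‖ ^ 2 ≤
      K ^ 2 * ∑ p ∈ range K ×ˢ range K, ‖Wb a b (2 ^ p.1) (2 ^ p.2) al L x‖ ^ 2 := by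
    intro x hx
    rw [W_dyad (K := K) (ha0 1 h1) (hb0 1 h1) al (by have := hS x hx; omega), ← hc]
    refine le_trans ?_ sq_sum_le_card_mul_sum_sq
    gcongr
    exact norm_sum_le _ _
  refine (sum_le_sum h2).trans ?_
  rw [← mul_sum, sum_comm, show (K : ℝ) ^ 4 = K ^ 2 * K ^ 2 by ring, mul_assoc]
  refine mul_le_mul_of_nonneg_left ?_ (by positivity)
  rw [← hc, ← nsmul_eq_mul]
  exact sum_le_card_nsmul _ _ _ fun p _ => box2 hC h S hY hL hLX hP hB hF hD ha0 hb0 ha hb hS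
    Nat.one_le_two_pow Nat.one_le_two_pow

end Pool.Agent.Lib.MP_68a45e_nt.CMin
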