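import Pool.Agent.Lib.MP_68a45e_nt.CMin3
import Pool.Agent.Lib.MP_68a45e_nt.AvDef
import Pool.Agent.Lib.SW.Div

/-! Minor arcs, part 4: choice of the parameters, Vaughan identity, the two minor arc bounds. -/

namespace Pool.Agent.Lib.MP_68a45e_nt.CMin

open Finset Complex Filter Pool.Agent.Lib.MP_68a45e_nt.Av

/-- The facts about the parameters that hold for large `X`. -/
structure Par (C : ℝ) (A X P K : ℕ) (Y B : ℝ) : Prop where
  y1 : 1 ≤ Y
  p1 : 1 ≤ P
  b1 : 1 ≤ B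
  bY : B ≤ Y
  pY : (P : ℝ) ^ 4 ≤ Y
  hD : ∀ k : ℕ, k ≤ 32 * X → (k.divisors.card : ℝ) ≤ Y
  hK : 2 * X ≤ 2 ^ K
  fin : 8 / Y + 2 * K ^ 4 * B ^ 4 * (Real.exp Real.pi * C *
    (10 / P + 2 * P / Y ^ 2 + 4 * X * Real.exp (-Y ^ 6 / 4)) + 1 / (2 * Y)) ≤ 1 / Real.log X ^ A

lemma par {C ε : ℝ} (hC : 0 ≤ C) (hε : 0 < ε) (A : ℕ) : ∀ᶠ X : ℕ in atTop,
    Par C A X ⌊Real.log X ^ (A + 9)⌋₊ (Nat.log 2 X + 2) ((X : ℝ) ^ (ε / 4)) (Real.log (4 * X)) := by
  obtain ⟨D, hD1, hD⟩ := SW.divisor_bound (ε := ε / 8) (by linarith)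
  have t1 : Tendsto (fun X : ℕ => Real.log X) atTop atTop :=
    Real.tendsto_log_atTop.comp tendsto_natCast_atTop_atTop
  have t2 : Tendsto (fun X : ℕ => (X : ℝ) ^ (ε / 8)) atTop atTop :=
    (tendsto_rpow_atTop (by linarith)).comp tendsto_natCast_atTop_atTop
  have t3 : ∀ᶠ X : ℕ in atTop, Real.log X ^ (4 * (A + 9)) ≤ (X : ℝ) ^ (ε / 4) := by
    have h := (isLittleO_log_rpow_rpow_atTop ((4 * (A + 9) : ℕ) : ℝ) (s := ε / 4)
      (by linarith)).bound one_pos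
    filter_upwards [tendsto_natCast_atTop_atTop (R := ℝ).eventually h] with X hX
    rw [Real.rpow_natCast, one_mul, Real.norm_eq_abs, Real.norm_eq_abs,
      abs_of_nonneg (a := (X : ℝ) ^ (ε / 4)) (by positivity)] at hX
    exact (le_abs_self _).trans hX
  filter_upwards [t1.eventually_ge_atTop 2,
    t1.eventually_ge_atTop (8 + 2 * 81 * 16 * (Real.exp Real.pi * C * 26 + 1)),
    t2.eventually_ge_atTop (D * 32 ^ (ε / 8)), t3, eventually_ge_atTop 4] with X l2 lC hY8 hY hX4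
  set l := Real.log X with hl
  set Y := (X : ℝ) ^ (ε / 4) with hYd
  set u := l ^ (A + 9) with hu
  have hX : (4 : ℝ) ≤ X := by exact_mod_cast hX4
  have l1 : 1 ≤ l := by linarith
  have ul : l ^ 2 ≤ u := pow_le_pow_right₀ l1 (by omega)
  have u4 : 4 ≤ u := by nlinarith
  have hY' : u ^ 4 ≤ Y := by rw [hu, ← pow_mul, mul_comm]; exact hY
  have uY : u ≤ Y := le_trans (le_self_pow₀ (by linarith) (by norm_num)) hY'
  have Pu : (⌊u⌋₊ : ℝ) ≤ u := Nat.floor_le (by linarith)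
  have uP : u / 2 ≤ ⌊u⌋₊ := by linarith [Nat.lt_floor_add_one u]
  have hB : Real.log (4 * X) ≤ 2 * l := by
    rw [Real.log_mul (by norm_num) (by linarith)]
    linarith [Real.log_le_log (by norm_num) hX]
  have hB1 : l ≤ Real.log (4 * X) := Real.log_le_log (by linarith) (by linarith)
  have hK : ((Nat.log 2 X + 2 : ℕ) : ℝ) ≤ 3 * l := by
    have h1 : ((2 ^ Nat.log 2 X : ℕ) : ℝ) ≤ X := by
      exact_mod_cast Nat.pow_log_le_self 2 (by omega : X ≠ 0)
    have h2 := Real.log_le_log (by positivity) h1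
    rw [Nat.cast_pow, Real.log_pow] at h2
    have h3 := Real.log_two_gt_d9
    have h4 : (0 : ℝ) ≤ Nat.log 2 X := Nat.cast_nonneg _
    push_cast at h2 ⊢
    nlinarith
  have hE : X * Real.exp (-Y ^ 6 / 4) ≤ 1 / u := by
    have h1 : (X : ℝ) = Real.exp l := (Real.exp_log (by linarith)).symm
    have h2 : u ≤ Real.exp u := by linarith [Real.add_one_le_exp u]
    have h3 : 8 * Y ≤ Y ^ 6 := by
      have : (4 : ℝ) ^ 5 ≤ Y ^ 5 := by gcongr; linarith
      nlinarith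
    rw [le_div_iff₀ (by linarith), h1, ← Real.exp_add]
    calc _ ≤ Real.exp (l + -Y ^ 6 / 4) * Real.exp u := by gcongr
      _ ≤ Real.exp 0 := by rw [← Real.exp_add]; apply Real.exp_le_exp.2; nlinarith
      _ = 1 := Real.exp_zero
  refine ⟨by linarith, by exact_mod_cast (by linarith : (1 : ℝ) ≤ ⌊u⌋₊), by linarith,
    by nlinarith, le_trans (by gcongr) hY', fun k hk => ?_, ?_, ?_⟩
  · have hk' : (k : ℝ) ≤ 32 * X := by exact_mod_cast hk
    calc _ ≤ D * (k : ℝ) ^ (ε / 8) := hD k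
      _ ≤ D * (32 * X : ℝ) ^ (ε / 8) := by gcongr
      _ = D * 32 ^ (ε / 8) * (X : ℝ) ^ (ε / 8) := by
        rw [Real.mul_rpow (by norm_num) (by linarith)]; ring
      _ ≤ (X : ℝ) ^ (ε / 8) * (X : ℝ) ^ (ε / 8) := by gcongr
      _ = Y := by rw [← Real.rpow_add (by linarith), hYd]; congr 1; ring
  · have := Nat.lt_pow_succ_log_self (b := 2) (by norm_num) X
    rw [show Nat.log 2 X + 2 = (Nat.log 2 X).succ + 1 by omega, pow_succ]; omega
  · have u0 : 0 < u := by linarith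
    have a1 : 10 / (⌊u⌋₊ : ℝ) ≤ 20 * (1 / u) := by
      calc _ ≤ 10 / (u / 2) := by gcongr
        _ = _ := by field_simp; norm_num
    have a2 : 2 * (⌊u⌋₊ : ℝ) / Y ^ 2 ≤ 2 * (1 / u) := by
      calc _ ≤ 2 * u / u ^ 2 := by gcongr
        _ = _ := by field_simp
    have a3 : 1 / (2 * Y) ≤ 1 / u := by gcongr; linarith
    have a4 : 8 / Y ≤ 8 * l ^ 8 * (1 / u) := by
      have : 1 ≤ l ^ 8 := one_le_pow₀ l1
      calc _ ≤ 8 * l ^ 8 / u := by gcongr; linarith
        _ = _ := by ring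
    have a5 : 10 / (⌊u⌋₊ : ℝ) + 2 * (⌊u⌋₊ : ℝ) / Y ^ 2 + 4 * X * Real.exp (-Y ^ 6 / 4) ≤
        26 * (1 / u) := by linarith
    have l0 : 0 < l := by linarith
    have Y0 : 0 < Y := by linarith
    calc _ ≤ 8 * l ^ 8 * (1 / u) + 2 * (3 * l) ^ 4 * (2 * l) ^ 4 *
          (Real.exp Real.pi * C * (26 * (1 / u)) + 1 / u) := by gcongr; linarith
      _ = (8 + 2 * 81 * 16 * (Real.exp Real.pi * C * 26 + 1)) * (l ^ 8 * (1 / u)) := by ring
      _ ≤ l * (l ^ 8 * (1 / u)) := by gcongr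
      _ = 1 / l ^ A := by rw [hu]; field_simp; ring

lemma far_L {al Q E : ℝ} {L : ℕ} (hQ : 1 ≤ Q) (hL : 1 ≤ L) (h : Far al Q (E / L)) : E ≤ L := by
  have h1 := h 1 le_rfl (by simpa using hQ) (round al)
  have h2 := abs_sub_round al
  have hL' : (1 : ℝ) ≤ L := by exact_mod_cast hL
  rw [Nat.cast_one, div_one, div_lt_iff₀ (by linarith)] at h1
  nlinarith [abs_nonneg (al - round al)]

lemma far_mul {al Q del : ℝ} (hd : 0 ≤ del) (h : Far al Q del) {d : ℕ} (h1 : 1 ≤ d)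
    (h2 : (d : ℝ) ≤ Q) (c : ℤ) : del ≤ |al * d - c| := by
  have h3 := h d h1 h2 c
  have hd' : (1 : ℝ) ≤ d := by exact_mod_cast h1
  rw [show al * d - c = (al - c / d) * d by field_simp, abs_mul, abs_of_nonneg (a := (d : ℝ)) (by linarith)]
  nlinarith

/-- The finite form of the minor arc bound. -/
lemma fin {C : ℝ} (hC : 0 ≤ C) (h : T2 C) {A X P K L : ℕ} {Y B al : ℝ} (p : Par C A X P K Y B)
    {f a b : ℕ → ℂ} (hL : Y ^ 4 ≤ L) (hLX : L ^ 2 ≤ X) (hF : Far al P (Y ^ 4 / L))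
    (hf : ∀ k, k ≤ 5 * L → ‖f k‖ ≤ Y)
    (ha0 : ∀ n, n ≤ P ^ 2 → a n = 0) (hb0 : ∀ n, n ≤ P ^ 2 → b n = 0)
    (ha : ∀ n, n ≤ 4 * X → ‖a n‖ ≤ B) (hb : ∀ n, n ≤ 4 * X → ‖b n‖ ≤ B)
    (hW : ∀ x, 4 * L ≤ x → x ≤ X → ‖W f al L x - W (conv a b) al L x‖ ≤ L / Y ^ 2) :
    WE f al L X ≤ (L : ℝ) ^ 2 * X / Real.log X ^ A := by
  have y1 := p.y1
  have Y0 : 0 < Y := by linarith
  have hL1 : (1 : ℝ) ≤ L := (one_le_pow₀ y1).trans hL
  have hLX' : (L : ℝ) ^ 2 ≤ X := by exact_mod_cast hLX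
  have hX1 : (1 : ℝ) ≤ X := by nlinarith
  have h2 := typeII hC h (a := a) (b := b) (L := L) (al := al) ({x ∈ range (X + 1) | ¬ x < 4 * L})
    y1 hL (by nlinarith) p.p1 (by linarith [p.b1]) hF p.hD ha0 hb0 ha hb
    (fun x hx => by simp only [mem_filter, mem_range] at hx; omega) p.hK
  have h3 : ∑ x ∈ range (X + 1) with x < 4 * L, ‖W f al L x‖ ^ 2 ≤ L ^ 2 * X * (4 / Y) := by
    have c1 : (#{x ∈ range (X + 1) | x < 4 * L} : ℝ) ≤ 4 * L := by
      have : #{x ∈ range (X + 1) | x < 4 * L} ≤ #(range (4 * L)) :=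
        card_le_card fun x hx => mem_range.2 (mem_filter.1 hx).2
      rw [card_range] at this; exact_mod_cast this
    have c2 : ∀ x ∈ {x ∈ range (X + 1) | x < 4 * L}, ‖W f al L x‖ ^ 2 ≤ (L * Y) ^ 2 := by
      intro x hx
      have hx' := (mem_filter.1 hx).2
      gcongr
      refine (norm_sum_le _ _).trans ((sum_le_card_nsmul _ _ Y fun k hk => ?_).trans (by simp))
      rw [norm_mul, norm_ee, mul_one]
      exact hf k (by rw [mem_Ioc] at hk; omega)
    refine (sum_le_card_nsmul _ _ _ c2).trans ?_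
    rw [nsmul_eq_mul]
    have c3 : L * Y ^ 3 ≤ X := by
      have : Y ^ 3 ≤ Y ^ 4 := pow_le_pow_right₀ y1 (by norm_num)
      nlinarith
    calc _ ≤ 4 * L * (L * Y) ^ 2 := by gcongr
      _ = L ^ 2 * (L * Y ^ 3) * (4 / Y) := by field_simp
      _ ≤ _ := by gcongr
  have h4 : ∑ x ∈ range (X + 1) with ¬ x < 4 * L, ‖W f al L x‖ ^ 2 ≤
      ∑ x ∈ range (X + 1) with ¬ x < 4 * L,
        (2 * (L / Y ^ 2) ^ 2 + 2 * ‖W (conv a b) al L x‖ ^ 2) := by
    refine sum_le_sum fun x hx => ?_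
    simp only [mem_filter, mem_range] at hx
    have d1 := hW x (by omega) (by omega)
    have d2 : ‖W f al L x‖ ≤ L / Y ^ 2 + ‖W (conv a b) al L x‖ := by
      linarith [norm_le_norm_add_norm_sub' (W f al L x) (W (conv a b) al L x)]
    have d3 : ‖W f al L x‖ ^ 2 ≤ (L / Y ^ 2 + ‖W (conv a b) al L x‖) ^ 2 := by gcongr
    nlinarith [sq_nonneg (L / Y ^ 2 - ‖W (conv a b) al L x‖)]
  have h5 : ∑ x ∈ range (X + 1) with ¬ x < 4 * L, 2 * ((L : ℝ) / Y ^ 2) ^ 2 ≤
      L ^ 2 * X * (4 / Y) := by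
    have c1 : (#{x ∈ range (X + 1) | ¬ x < 4 * L} : ℝ) ≤ 2 * X := by
      have := card_filter_le (range (X + 1)) (fun x => ¬ x < 4 * L)
      rw [card_range] at this
      have : (#{x ∈ range (X + 1) | ¬ x < 4 * L} : ℝ) ≤ X + 1 := by exact_mod_cast this
      linarith
    rw [sum_const, nsmul_eq_mul]
    calc _ ≤ 2 * X * (2 * ((L : ℝ) / Y ^ 2) ^ 2) := by gcongr
      _ = L ^ 2 * X * (4 / Y ^ 4) := by field_simp; norm_num
      _ ≤ _ := by gcongr; exact le_self_pow₀ y1 (by norm_num)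
  rw [sum_add_distrib, ← mul_sum, ← mul_sum] at h4
  rw [← mul_sum] at h5
  have h6 := mul_le_mul_of_nonneg_left p.fin (by positivity : (0 : ℝ) ≤ L ^ 2 * X)
  rw [WE, ← sum_filter_add_sum_filter_not _ (fun x => x < 4 * L), div_eq_mul_one_div]
  refine le_trans ?_ h6
  have e8 : 8 / Y = 4 / Y + 4 / Y := by ring
  rw [e8]
  linarith

/-- Truncation from above. -/
noncomputable def lo (U : ℕ) (g : ArithmeticFunction ℝ) : ArithmeticFunction ℝ :=
  ⟨fun n => if n ≤ U then g n else 0, by simp⟩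

/-- Truncation from below. -/
noncomputable def hi (U : ℕ) (g : ArithmeticFunction ℝ) : ArithmeticFunction ℝ :=
  ⟨fun n => if n ≤ U then 0 else g n, by simp⟩

lemma lo_apply (U : ℕ) (g : ArithmeticFunction ℝ) (n : ℕ) :
    lo U g n = if n ≤ U then g n else 0 := rfl

lemma hi_apply (U : ℕ) (g : ArithmeticFunction ℝ) (n : ℕ) :
    hi U g n = if n ≤ U then 0 else g n := rfl

lemma lo_add_hi (U : ℕ) (g : ArithmeticFunction ℝ) : lo U g + hi U g = g := by
  ext n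
  simp only [ArithmeticFunction.add_apply, lo_apply, hi_apply]
  split_ifs <;> simp

/-- The Moebius function with real values. -/
noncomputable def mu : ArithmeticFunction ℝ := (ArithmeticFunction.moebius : ArithmeticFunction ℤ)

/-- The constant function with real values. -/
noncomputable def ze : ArithmeticFunction ℝ := (ArithmeticFunction.zeta : ArithmeticFunction ℕ)

open ArithmeticFunction in
lemma vaughan (U : ℕ) : vonMangoldt + (lo U mu * lo U vonMangoldt) * ze =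
    lo U vonMangoldt + lo U mu * ArithmeticFunction.log + hi U mu * (ze * hi U vonMangoldt) := by
  have h1 : mu * ze = 1 := coe_moebius_mul_coe_zeta
  have h2 : vonMangoldt * ze = ArithmeticFunction.log := vonMangoldt_mul_zeta
  rw [← h2]
  have h3 := lo_add_hi U mu
  have h4 := lo_add_hi U vonMangoldt
  linear_combination (-(1 : ArithmeticFunction ℝ) + lo U mu * ze) * h4
    - hi U vonMangoldt * ze * h3 - hi U vonMangoldt * h1

/-- Complex values. -/
noncomputable def cx (g : ArithmeticFunction ℝ) (n : ℕ) : ℂ := (g n : ℝ)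

lemma conv_cx (f g : ArithmeticFunction ℝ) (k : ℕ) : conv (cx f) (cx g) k = ((f * g) k : ℝ) := by
  rw [ArithmeticFunction.mul_apply, conv]; push_cast; rfl

lemma norm_cx (g : ArithmeticFunction ℝ) (n : ℕ) : ‖cx g n‖ = |g n| := by
  rw [cx, Complex.norm_real, Real.norm_eq_abs]

lemma mu_le (n : ℕ) : |mu n| ≤ 1 := by
  have := ArithmeticFunction.abs_moebius_le_one (n := n)
  rw [mu, ArithmeticFunction.intCoe_apply]; exact_mod_cast this

lemma ze_apply {n : ℕ} (hn : n ≠ 0) : ze n = 1 := by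
  simp [ze, ArithmeticFunction.natCoe_apply, ArithmeticFunction.zeta_apply, hn]

lemma ze_le (n : ℕ) : |ze n| ≤ 1 := by
  rcases eq_or_ne n 0 with rfl | hn
  · simp
  · simp [ze_apply hn]

open ArithmeticFunction in
lemma mul_le_log {f g : ArithmeticFunction ℝ} (hf : ∀ n, |f n| ≤ 1)
    (hg : ∀ n, |g n| ≤ vonMangoldt n) (n : ℕ) : |(f * g) n| ≤ Real.log n := by
  rw [mul_apply, ← vonMangoldt_sum, ← Nat.sum_divisorsAntidiagonal' (fun _ d => vonMangoldt d)]
  refine (abs_sum_le_sum_abs _ _).trans (sum_le_sum fun p _ => ?_)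
  rw [abs_mul]
  nlinarith [hf p.1, hg p.2, abs_nonneg (g p.2), abs_nonneg (f p.1)]

lemma log_mono {n : ℕ} {y : ℝ} (h : (n : ℝ) ≤ y) (hy : 1 ≤ y) : Real.log n ≤ Real.log y := by
  rcases Nat.eq_zero_or_pos n with rfl | hn
  · simpa using Real.log_nonneg hy
  · exact Real.log_le_log (by exact_mod_cast hn) h

open ArithmeticFunction in
/-- Minor arcs for the von Mangoldt function from the type II estimate. -/
theorem minL_of {C : ℝ} (hC : 0 ≤ C) (h : T2 C) : MinL := by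
  intro ε hε A
  refine ⟨4 * (A + 9), ?_⟩
  filter_upwards [par hC hε A, eventually_ge_atTop 3] with X p hX3 L al hLX hF
  rcases Nat.eq_zero_or_pos L with rfl | hL1
  · simp [WE, W]
  set P := ⌊Real.log X ^ (A + 9)⌋₊ with hP
  set Y := (X : ℝ) ^ (ε / 4) with hY
  set B := Real.log (4 * X) with hB
  have hX : (3 : ℝ) ≤ X := by exact_mod_cast hX3
  have hY4 : (X : ℝ) ^ ε = Y ^ 4 := by
    rw [hY, ← Real.rpow_natCast, ← Real.rpow_mul (by linarith)]; congr 1; push_cast; ring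
  have hP1 : (1 : ℝ) ≤ P := by exact_mod_cast p.p1
  have hP4 : (P : ℝ) ^ 4 ≤ Real.log X ^ (4 * (A + 9)) := by
    rw [mul_comm, pow_mul]
    gcongr
    exact Nat.floor_le (pow_nonneg (Real.log_nonneg (by linarith)) _)
  rw [hY4] at hF
  have hF4 : Far al ((P : ℝ) ^ 4) (Y ^ 4 / L) := fun q h1 h2 => hF q h1 (h2.trans hP4)
  have hP14 : (P : ℝ) ≤ P ^ 4 := le_self_pow₀ hP1 (by norm_num)
  have hP24 : (P : ℝ) ^ 2 ≤ P ^ 4 := pow_le_pow_right₀ hP1 (by norm_num)
  have hL : Y ^ 4 ≤ L := far_L (one_le_pow₀ hP1) hL1 hF4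
  have y1 := p.y1
  have b1 := p.b1
  have Y0 : 0 < Y := by linarith
  have hL0 : (0 : ℝ) < L := by exact_mod_cast hL1
  have hLX1 : L ≤ X := by nlinarith
  have hYL : Y ≤ L := (le_self_pow₀ y1 (by norm_num)).trans hL
  have lg : ∀ n : ℕ, n ≤ 4 * X → Real.log n ≤ B := fun n hn =>
    log_mono (by exact_mod_cast hn) (by linarith)
  have hlo : ∀ n, |lo (P ^ 2) mu n| ≤ 1 := fun n => by
    rw [lo_apply]; split_ifs
    · exact mu_le n
    · simp
  have hV : ∀ n, |vonMangoldt n| ≤ vonMangoldt n := fun n => (abs_of_nonneg vonMangoldt_nonneg).le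
  refine fin hC h p (a := cx (hi (P ^ 2) mu)) (b := cx (ze * hi (P ^ 2) vonMangoldt)) hL hLX
    (fun q h1 h2 => hF4 q h1 (h2.trans hP14)) (fun k hk => ?_) (fun n hn => ?_) (fun n hn => ?_)
    (fun n _ => ?_) (fun n hn => ?_) (fun x x1 x2 => ?_)
  · rw [vM, Complex.norm_real, Real.norm_of_nonneg vonMangoldt_nonneg]
    refine vonMangoldt_le_log.trans ((lg k ?_).trans p.bY)
    rcases Nat.lt_or_ge L 2 with h2 | h2
    · omega
    · nlinarith
  · simp [cx, hi_apply, hn]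
  · rw [cx, mul_apply, sum_eq_zero, ofReal_zero]
    intro q hq
    have := (Nat.le_of_dvd (Nat.pos_of_ne_zero (Nat.mem_divisorsAntidiagonal.1 hq).2)
      (Nat.dvd_of_mem_divisors (Nat.snd_mem_divisors_of_mem_antidiagonal hq))).trans hn
    simp [hi_apply, this]
  · rw [norm_cx, hi_apply]; split_ifs
    · simp; linarith
    · exact (mu_le n).trans b1
  · rw [norm_cx]
    refine (mul_le_log ze_le (fun m => ?_) n).trans (lg n hn)
    rw [hi_apply]; split_ifs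
    · simp
    · exact hV m
  have hd : 0 < Y ^ 4 / L := by positivity
  have hPL : P ^ 4 ≤ L := by exact_mod_cast p.pY.trans hYL
  have hP2 : P ^ 2 ≤ P ^ 4 := Nat.pow_le_pow_right p.p1 (by norm_num)
  have i1 := typeI (c := cx (lo (P ^ 2) mu)) (g := cx ArithmeticFunction.log) (al := al) (Bc := 1)
    (G := B * (1 / (2 * (Y ^ 4 / L)))) (R := P ^ 2) L x zero_le_one (by positivity)
    (fun d hd => by simp [cx, lo_apply, hd.not_ge]) (fun d _ => by rw [norm_cx]; exact hlo d)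
    (fun d d1 d2 u v hv => (geo_log hd (far_mul hd.le hF4 d1 (le_trans (by exact_mod_cast d2) hP24))
      u v).trans (mul_le_mul_of_nonneg_right (lg v (by omega)) (by positivity)))
  have i2 := typeI (c := cx (lo (P ^ 2) mu * lo (P ^ 2) vonMangoldt)) (g := cx ze) (al := al)
    (Bc := B) (G := 1 / (2 * (Y ^ 4 / L))) (R := P ^ 4) L x (by linarith) (by positivity)
    (fun d hd => by
      rw [cx, mul_apply, sum_eq_zero, ofReal_zero]
      intro q hq
      have h1 := (Nat.mem_divisorsAntidiagonal.1 hq).1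
      simp only [lo_apply]
      split_ifs with c1 c2
      · have := Nat.mul_le_mul c1 c2
        rw [h1, ← pow_add] at this
        exact absurd this hd.not_ge
      all_goals simp)
    (fun d hd => by
      rw [norm_cx]
      refine (mul_le_log hlo (fun m => ?_) d).trans (lg d (by omega))
      rw [lo_apply]; split_ifs
      · exact hV m
      · simp)
    (fun d d1 d2 u v _ => by
      refine le_trans (le_of_eq ?_) (geo hd (far_mul hd.le hF4 d1 (by exact_mod_cast d2)) u v)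
      congr 1
      exact sum_congr rfl fun m hm => by
        rw [cx, ze_apply (by have := (mem_Ioc.1 hm).1; omega)]; simp)
  have e1 : W vM al L x - W (conv (cx (hi (P ^ 2) mu)) (cx (ze * hi (P ^ 2) vonMangoldt))) al L x =
      W (conv (cx (lo (P ^ 2) mu)) (cx ArithmeticFunction.log)) al L x -
      W (conv (cx (lo (P ^ 2) mu * lo (P ^ 2) vonMangoldt)) (cx ze)) al L x := by
    unfold W
    rw [← sum_sub_distrib, ← sum_sub_distrib]
    refine sum_congr rfl fun k hk => ?_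
    have h1 := congrArg (fun g : ArithmeticFunction ℝ => ((g k : ℝ) : ℂ)) (vaughan (P ^ 2))
    have h2 : ¬ k ≤ P ^ 2 := by have := (mem_Ioc.1 hk).1; omega
    simp only [ArithmeticFunction.add_apply, lo_apply, if_neg h2, ofReal_add, ofReal_zero] at h1
    rw [conv_cx, conv_cx, conv_cx, vM]
    linear_combination ee (al * k) * h1
  rw [e1]
  refine (norm_sub_le _ _).trans ((add_le_add i1 i2).trans ?_)
  push_cast
  have hb := p.bY
  have hp := p.pY
  calc _ ≤ Y * (1 * (Y * (1 / (2 * (Y ^ 4 / L))))) + Y * (Y * (1 / (2 * (Y ^ 4 / L)))) := by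
        gcongr; linarith
    _ = _ := by field_simp; norm_num

/-- The type II estimate with mean square hypotheses. -/
def T2X : Prop := ∃ C : ℝ, 0 < C ∧ ∀ (N M q : ℕ) (c : ℤ) (lam H A2 B2 B D : ℝ) (a b : ℕ → ℂ),
  1 ≤ N → 1 ≤ M → 1 ≤ q → |lam| ≤ 1 → 1 ≤ H → H ≤ N * M → 1 ≤ |lam| * H →
  ∑ n ∈ Ioc N (2 * N), ‖a n‖ ^ 2 ≤ A2 * N → ∑ m ∈ Ioc M (2 * M), ‖b m‖ ^ 2 ≤ B2 * M →
  (∀ n ∈ Ioc N (2 * N), ‖a n‖ ≤ B) → (∀ m ∈ Ioc M (2 * M), ‖b m‖ ≤ B) →
  (∀ k : ℕ, k ≤ 16 * N * M → (k.divisors.card : ℝ) ≤ D) →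
  ∫ th : ℝ, Real.exp (-Real.pi * H ^ 2 * th ^ 2) * ‖∑ n ∈ Ioc N (2 * N), ∑ m ∈ Ioc M (2 * M),
      a n * b m * ee ((c / q + lam + th) * (n * m))‖ ^ 2 ≤
    C * q * (A2 * B2 * (|lam| * N * M + N + M) + B ^ 4 * D * (N * M) / (|lam| * H)) +
      C * (B ^ 2 * N * M) ^ 2 * Real.exp (-(|lam| * H) ^ 2 / 4) / H

theorem minL_ofX (h : T2X) : MinL := by
  obtain ⟨C, hC, h⟩ := h
  refine minL_of hC.le fun N M q c lam H B D a b h1 h2 h3 _ h5 h6 h7 h8 h9 ha hb hD => ?_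
  have s : ∀ (K : ℕ) (f : ℕ → ℂ), (∀ n ∈ Ioc K (2 * K), ‖f n‖ ≤ B) →
      ∑ n ∈ Ioc K (2 * K), ‖f n‖ ^ 2 ≤ B ^ 2 * K := by
    intro K f hf
    refine (sum_le_card_nsmul _ _ (B ^ 2) fun n hn => by gcongr; exact hf n hn).trans ?_
    rw [Nat.card_Ioc, show 2 * K - K = K by omega, nsmul_eq_mul, mul_comm]
  have := h N M q c lam H (B ^ 2) (B ^ 2) B D a b h1 h2 h3 h5 h6 h7 h8 (s N a ha) (s M b hb) ha hb hD
  simp only [SB, Nat.cast_mul, Int.cast_natCast] at this ⊢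
  refine this.trans (le_of_eq ?_)
  ring

end Pool.Agent.Lib.MP_68a45e_nt.CMin
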