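import Pool.Agent.Lib.MP_68a45e_nt.AvDef

/-! Minor arcs for short sieve weights. -/

namespace Pool.Agent.Lib.MP_68a45e_nt.CMinS

open Finset Filter Pool.Agent.Lib.MP_68a45e_nt.CMin Pool.Agent.Lib.MP_68a45e_nt.Av

/-- Expansion of a window sum of a divisor sum. -/
lemma expand (lam : ℕ → ℂ) (D : ℕ) (hD : ∀ d, D < d → lam d = 0) (α : ℝ) (L x : ℕ) :
    W (fun n => ∑ d ∈ n.divisors, lam d) α L x =
      ∑ d ∈ Icc 1 D, lam d * ∑ m ∈ Ioc (x / d) ((x + L) / d), ee (α * d * m) := by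
  unfold W
  have h1 : ∀ n ∈ Ioc x (x + L), (∑ d ∈ n.divisors, lam d) * ee (α * n) =
      ∑ d ∈ Icc 1 D, if d ∣ n then lam d * ee (α * n) else 0 := by
    intro n hn
    have hn0 : n ≠ 0 := by have := (mem_Ioc.1 hn).1; omega
    rw [← sum_filter, ← sum_mul]
    congr 1
    symm
    refine sum_subset ?_ ?_
    · intro d hd
      exact Nat.mem_divisors.2 ⟨(mem_filter.1 hd).2, hn0⟩
    · intro d hd hd'
      apply hD
      by_contra h
      exact hd' (mem_filter.2 ⟨mem_Icc.2 ⟨Nat.pos_of_mem_divisors hd, by omega⟩,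
        Nat.dvd_of_mem_divisors hd⟩)
  rw [sum_congr rfl h1, sum_comm]
  refine sum_congr rfl fun d hd => ?_
  have hd0 : 0 < d := (mem_Icc.1 hd).1
  rw [← sum_filter, mul_sum]
  symm
  refine sum_bij (fun m _ => d * m) ?_ ?_ ?_ ?_
  · intro m hm
    rw [mem_Ioc, Nat.div_lt_iff_lt_mul hd0, Nat.le_div_iff_mul_le hd0] at hm
    rw [mem_filter, mem_Ioc, mul_comm]
    exact ⟨hm, Dvd.intro_left _ rfl⟩
  · intro m _ m' _ h
    exact Nat.eq_of_mul_eq_mul_left hd0 h
  · intro n hn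
    obtain ⟨h2, m, rfl⟩ := mem_filter.1 hn
    refine ⟨m, ?_, rfl⟩
    rw [mem_Ioc, Nat.div_lt_iff_lt_mul hd0, Nat.le_div_iff_mul_le hd0, mul_comm]
    exact mem_Ioc.1 h2
  · intro m _
    congr 2; push_cast; ring

open Classical in
/-- The multiples of `α` that are close to an integer are sparse. -/
lemma sparse {α Q δ η : ℝ} (D : ℕ) (hQ : 0 < Q) (hδ : η ≤ δ) (hη : 0 < η) (h2 : 2 * η * D ≤ 1)
    (hF : Far α Q δ) :
    ∑ d ∈ (Icc 1 D).filter (fun d : ℕ => ∃ c : ℤ, |α * d - c| < η), (1 / d : ℝ) ≤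
      (1 + Real.log D) / Q := by
  set S := (Icc 1 D).filter (fun d : ℕ => ∃ c : ℤ, |α * d - c| < η) with hS
  have hl : 0 ≤ Real.log D := Real.log_natCast_nonneg D
  rcases S.eq_empty_or_nonempty with h | h
  · rw [h, sum_empty]; positivity
  set q := S.min' h with hq
  obtain ⟨hq1, c0, hc0⟩ := mem_filter.1 (S.min'_mem h)
  rw [← hq] at hq1 hc0
  obtain ⟨hq1, hqD⟩ := mem_Icc.1 hq1
  have hqR : (1 : ℝ) ≤ q := by exact_mod_cast hq1
  have hqQ : Q < q := by
    by_contra hc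
    have h3 := hF q hq1 (not_lt.1 hc) c0
    have h4 : |α - c0 / q| = |α * q - c0| / q := by
      rw [show α - c0 / q = (α * q - c0) / q by field_simp, abs_div, abs_of_pos (by linarith : (0 : ℝ) < q)]
    have h5 : |α * q - c0| / q ≤ |α * q - c0| := div_le_self (abs_nonneg _) hqR
    linarith
  have hdv : ∀ d ∈ S, q ∣ d := by
    intro d hd
    obtain ⟨hd1, c, hc⟩ := mem_filter.1 hd
    obtain ⟨hd1, hdD⟩ := mem_Icc.1 hd1
    have hdR : (1 : ℝ) ≤ d := by exact_mod_cast hd1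
    have hdD' : (d : ℝ) ≤ D := by exact_mod_cast hdD
    have hqD' : (q : ℝ) ≤ D := by exact_mod_cast hqD
    have h3 : c * q = c0 * d := by
      have h4 : |((c * q - c0 * d : ℤ) : ℝ)| < 1 := by
        have h5 : ((c * q - c0 * d : ℤ) : ℝ) = (α * q - c0) * d - (α * d - c) * q := by
          push_cast; ring
        rw [h5]
        refine (abs_sub _ _).trans_lt ?_
        rw [abs_mul, abs_mul, abs_of_pos (by linarith : (0 : ℝ) < q),
          abs_of_pos (by linarith : (0 : ℝ) < d)]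
        have h6 : |α * q - c0| * d < η * D :=
          (mul_lt_mul_of_pos_right hc0 (by linarith)).trans_le (by gcongr)
        have h7 : |α * d - c| * q < η * D :=
          (mul_lt_mul_of_pos_right hc (by linarith)).trans_le (by gcongr)
        linarith
      have h8 : |c * q - c0 * d| < 1 := by exact_mod_cast h4
      have := Int.abs_lt_one_iff.1 h8
      omega
    by_contra hn
    have hr0 : d % q ≠ 0 := fun h => hn (Nat.dvd_of_mod_eq_zero h)
    have hr1 : d % q < q := Nat.mod_lt _ hq1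
    have hm : d % q ∈ S := by
      refine mem_filter.2 ⟨mem_Icc.2 ⟨by omega, by omega⟩, c - c0 * (d / q : ℕ), ?_⟩
      have h9 : ((q : ℝ) * (d / q : ℕ) + (d % q : ℕ)) = d := by exact_mod_cast Nat.div_add_mod d q
      have h10 : (c : ℝ) * q = c0 * d := by exact_mod_cast h3
      have h11 : α * (d % q : ℕ) - ((c - c0 * (d / q : ℕ) : ℤ) : ℝ) =
          (α * q - c0) * (((d % q : ℕ) : ℝ) / q) := by
        have : ((c - c0 * (d / q : ℕ) : ℤ) : ℝ) = c - c0 * ((d / q : ℕ) : ℝ) := by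
          rw [Int.cast_sub, Int.cast_mul, Int.cast_natCast]
        rw [this]
        field_simp
        linear_combination (-1 : ℝ) * h10 + c0 * h9
      have h12 : ((d % q : ℕ) : ℝ) / q ≤ 1 := by
        rw [div_le_one (by linarith)]; exact_mod_cast hr1.le
      rw [h11, abs_mul, abs_of_nonneg (by positivity : (0 : ℝ) ≤ ((d % q : ℕ) : ℝ) / q)]
      exact (mul_le_of_le_one_right (abs_nonneg _) h12).trans_lt hc0
    have := S.min'_le _ hm
    omega
  have hsub : S ⊆ (Icc 1 D).image (fun s => q * s) := by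
    intro d hd
    obtain ⟨s, rfl⟩ := hdv d hd
    obtain ⟨hd1, hdD⟩ := mem_Icc.1 (mem_filter.1 hd).1
    refine mem_image.2 ⟨s, mem_Icc.2 ⟨?_, ?_⟩, rfl⟩
    · rcases Nat.eq_zero_or_pos s with rfl | h
      · simp at hd1
      · exact h
    · exact (Nat.le_mul_of_pos_left s hq1).trans hdD
  refine (sum_le_sum_of_subset_of_nonneg hsub fun _ _ _ => by positivity).trans ?_
  rw [sum_image fun a _ b _ h => Nat.eq_of_mul_eq_mul_left hq1 h]
  have hh := harmonic_le_one_add_log D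
  rw [harmonic_eq_sum_Icc] at hh
  push_cast at hh
  have h13 : ∑ s ∈ Icc 1 D, (1 / ((q * s : ℕ) : ℝ)) = (∑ s ∈ Icc 1 D, (s : ℝ)⁻¹) / q := by
    rw [sum_div]
    refine sum_congr rfl fun s _ => ?_
    push_cast
    rw [one_div, mul_inv, div_eq_mul_inv, mul_comm]
  rw [h13]
  gcongr

open Classical in
/-- The pointwise bound. -/
lemma point (lam : ℕ → ℂ) (hl : ∀ d, ‖lam d‖ ≤ 1) (D : ℕ) (hD : ∀ d, D < d → lam d = 0)
    {α Q δ η : ℝ} (hQ : 0 < Q) (hδ : η ≤ δ) (hη : 0 < η) (h2 : 2 * η * D ≤ 1) (hF : Far α Q δ)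
    (L x : ℕ) : ‖W (fun n => ∑ d ∈ n.divisors, lam d) α L x‖ ≤
      D * (1 / (2 * η)) + D + L * ((1 + Real.log D) / Q) := by
  rw [expand lam D hD]
  refine (norm_sum_le _ _).trans ?_
  have h1 : ∀ d ∈ Icc 1 D, ‖lam d * ∑ m ∈ Ioc (x / d) ((x + L) / d), ee (α * d * m)‖ ≤
      (1 / (2 * η) + 1) + if (∃ c : ℤ, |α * d - c| < η) then L * (1 / d : ℝ) else 0 := by
    intro d hd
    have hd0 : 0 < d := (mem_Icc.1 hd).1
    have hdR : (0 : ℝ) < d := by exact_mod_cast hd0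
    rw [norm_mul]
    refine (mul_le_of_le_one_left (norm_nonneg _) (hl d)).trans ?_
    split_ifs with h
    · refine (norm_sum_le _ _).trans ?_
      simp only [norm_ee, sum_const, Nat.card_Ioc, nsmul_eq_mul, mul_one]
      have h3 : (x + L) / d - x / d ≤ L / d + 1 := by
        have h4 : (x + L) / d ≤ x / d + L / d + 1 := by
          rw [Nat.add_div hd0]; split_ifs <;> omega
        exact Nat.sub_le_iff_le_add'.2 (by rwa [← add_assoc])
      have h5 : (((x + L) / d - x / d : ℕ) : ℝ) ≤ ((L / d : ℕ) : ℝ) + 1 := by exact_mod_cast h3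
      have h6 : ((L / d : ℕ) : ℝ) ≤ L / d := Nat.cast_div_le
      have h7 : (0 : ℝ) ≤ 1 / (2 * η) := by positivity
      have h8 : (L : ℝ) * (1 / d) = L / d := by ring
      linarith
    · push Not at h
      have := geo hη h (x / d) ((x + L) / d)
      linarith
  refine (sum_le_sum h1).trans ?_
  rw [sum_add_distrib, ← sum_filter, ← mul_sum, sum_const, Nat.card_Icc, nsmul_eq_mul]
  have h9 := sparse D hQ hδ hη h2 hF
  have h10 : (L : ℝ) * ∑ d ∈ (Icc 1 D).filter (fun d : ℕ => ∃ c : ℤ, |α * d - c| < η),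
      (1 / d : ℝ) ≤ L * ((1 + Real.log D) / Q) := by gcongr
  simp only [add_tsub_cancel_right]
  linarith

theorem minS : MinS := by
  intro ε hε A
  refine ⟨A + 2, ?_⟩
  have e1 : ∀ᶠ y : ℝ in atTop, Real.log y ^ (A + 1) ≤ y ^ (ε / 4) := by
    filter_upwards [(isLittleO_log_rpow_rpow_atTop ((A + 1 : ℕ) : ℝ)
      (by positivity : 0 < ε / 4)).bound one_pos, eventually_ge_atTop 1] with y hy hy1
    rw [one_mul, Real.rpow_natCast, Real.norm_of_nonneg (by have := Real.log_nonneg hy1; positivity),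
      Real.norm_of_nonneg (by positivity)] at hy
    exact hy
  have e2 : ∀ᶠ y : ℝ in atTop, 5 ≤ Real.log y := Real.tendsto_log_atTop.eventually_ge_atTop 5
  filter_upwards [tendsto_natCast_atTop_atTop.eventually e1,
    tendsto_natCast_atTop_atTop.eventually e2, eventually_ge_atTop 1] with X h1 h2 hX
  intro L α hL hF lam hl hD
  have hXR : (1 : ℝ) ≤ X := by exact_mod_cast hX
  rcases Nat.eq_zero_or_pos L with rfl | hL0
  · simp [WE, W]
  have hLR : (0 : ℝ) < L := by exact_mod_cast hL0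
  set l := Real.log X with hl'
  set Y := (X : ℝ) ^ (ε / 4) with hY
  have hY1 : 1 ≤ Y := Real.one_le_rpow hXR (by positivity)
  have hY4 : (X : ℝ) ^ ε = Y ^ 4 := by
    rw [hY, ← Real.rpow_natCast, ← Real.rpow_mul (by linarith)]; congr 1; push_cast; ring
  have hl1 : 1 ≤ l ^ (A + 2) := one_le_pow₀ (by linarith)
  rw [hY4] at hF
  have hbig : 2 * Y ^ 4 < L := by
    have h3 := hF 1 le_rfl (by simpa using hl1) (round α)
    have h4 := abs_sub_round α
    simp only [Nat.cast_one, div_one] at h3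
    have h5 : Y ^ 4 / L < 1 / 2 := h3.trans_le h4
    rw [div_lt_div_iff₀ hLR two_pos] at h5
    linarith
  have hDY : (⌊Y⌋₊ : ℝ) ≤ Y := Nat.floor_le (by linarith)
  have hD0 : (0 : ℝ) ≤ ⌊Y⌋₊ := Nat.cast_nonneg _
  have hY2 : Y ^ 2 ≤ Y ^ 4 := pow_le_pow_right₀ hY1 (by norm_num)
  have hY3 : Y ^ 3 ≤ Y ^ 4 := pow_le_pow_right₀ hY1 (by norm_num)
  have hlD : Real.log (⌊Y⌋₊ : ℕ) ≤ l := by
    have h6 : (L : ℝ) ≤ X := by
      have : L ≤ X := (Nat.le_self_pow two_ne_zero L).trans hL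
      exact_mod_cast this
    have h7 : (1 : ℝ) ≤ ⌊Y⌋₊ := by exact_mod_cast Nat.le_floor (by simpa using hY1)
    have h8 : Y ≤ Y ^ 4 := le_self_pow₀ hY1 (by norm_num)
    exact Real.log_le_log (by linarith) (by nlinarith)
  have hp : ∀ x, ‖W (fun n => ∑ d ∈ n.divisors, lam d) α L x‖ ≤ 3 * L / l ^ (A + 1) := by
    intro x
    refine (point lam hl ⌊Y⌋₊ (fun d hd => hD d ((Nat.floor_lt (by linarith)).1 hd))
      (Q := l ^ (A + 2)) (δ := Y ^ 4 / L) (η := Y ^ 2 / L) (by linarith) (by gcongr)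
      (by positivity) ?_ hF L x).trans ?_
    · have : 2 * (Y ^ 2 / L) * ⌊Y⌋₊ ≤ 2 * (Y ^ 2 / L) * Y := by gcongr
      refine this.trans ?_
      rw [show 2 * (Y ^ 2 / L) * Y = 2 * Y ^ 3 / L by ring, div_le_one hLR]
      linarith
    · have a1 : (⌊Y⌋₊ : ℝ) * (1 / (2 * (Y ^ 2 / L))) ≤ L / (2 * Y) := by
        have : (⌊Y⌋₊ : ℝ) * (1 / (2 * (Y ^ 2 / L))) ≤ Y * (1 / (2 * (Y ^ 2 / L))) := by gcongr
        refine this.trans (le_of_eq ?_)
        field_simp
      have a2 : Y ≤ L / (2 * Y) := by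
        rw [le_div_iff₀ (by linarith)]; nlinarith
      have a3 : (L : ℝ) / (2 * Y) ≤ L / (2 * l ^ (A + 1)) := by gcongr
      have a4 : (L : ℝ) * ((1 + Real.log (⌊Y⌋₊ : ℕ)) / l ^ (A + 2)) ≤ L * ((l + l) / l ^ (A + 2)) := by
        gcongr; linarith
      have a5 : (L : ℝ) * ((l + l) / l ^ (A + 2)) = 2 * L / l ^ (A + 1) := by
        field_simp; ring
      have a6 : 3 * (L : ℝ) / l ^ (A + 1) =
          L / (2 * l ^ (A + 1)) + L / (2 * l ^ (A + 1)) + 2 * L / l ^ (A + 1) := by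
        field_simp; ring
      linarith
  unfold WE
  have h9 : ∑ x ∈ range (X + 1), ‖W (fun n => ∑ d ∈ n.divisors, lam d) α L x‖ ^ 2 ≤
      ∑ x ∈ range (X + 1), (3 * L / l ^ (A + 1)) ^ 2 :=
    sum_le_sum fun x _ => pow_le_pow_left₀ (norm_nonneg _) (hp x) 2
  refine h9.trans ?_
  rw [sum_const, card_range, nsmul_eq_mul]
  have hlA : 1 ≤ l ^ A := one_le_pow₀ (by linarith)
  have b1 : ((X + 1 : ℕ) : ℝ) ≤ 2 * X := by push_cast; linarith
  have b2 : 2 * X * (3 * L / l ^ (A + 1)) ^ 2 = (L : ℝ) ^ 2 * X / l ^ A * (18 / (l ^ A * l ^ 2)) := by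
    field_simp; ring
  have b3 : 18 / (l ^ A * l ^ 2) ≤ 1 := by
    rw [div_le_one (by positivity)]; nlinarith
  calc ((X + 1 : ℕ) : ℝ) * (3 * L / l ^ (A + 1)) ^ 2 ≤ 2 * X * (3 * L / l ^ (A + 1)) ^ 2 := by
        gcongr
    _ ≤ (L : ℝ) ^ 2 * X / l ^ A := by
        rw [b2]; exact mul_le_of_le_one_right (by positivity) b3

end Pool.Agent.Lib.MP_68a45e_nt.CMinS
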