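import Pool.Agent.Lib.SW.Sieve
import Pool.Agent.Lib.MP_68a45e_nt.Basic

/-! The sieve model for the primes: correlations along linear forms. -/

namespace Pool.Agent.Lib.MP_68a45e_nt.CMod

open Finset Filter Nat
open Pool.Agent.Lib.MP_b09185_nt Pool.Agent.Lib.SW

variable {K : ℕ}

/-- number of roots modulo `p` of the product of the forms -/
def nu (a b : Fin K → ℕ) (p : ℕ) : ℕ := #{n ∈ range p | p ∣ ∏ i, (a i * n + b i)}

/-- truncated singular series -/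
noncomputable def Sz (z : ℕ) (a b : Fin K → ℕ) : ℝ :=
  ∏ p ∈ primesLE z, (1 - (nu a b p : ℝ) / p) / (1 - 1 / (p : ℝ)) ^ K

lemma per_count {d : ℕ} (hd : 0 < d) (P : ℕ → Prop) [DecidablePred P]
    (hP : ∀ m n, m ≡ n [MOD d] → (P m ↔ P n)) (x H : ℕ) :
    |(#{n ∈ Ioc x (x + H) | P n} : ℝ) - H / d * #{n ∈ range d | P n}| ≤ #{n ∈ range d | P n} := by
  have e : #{n ∈ Ioc x (x + H) | P n} =
      ∑ v ∈ range d with P v, #{n ∈ Ioc x (x + H) | n ≡ v [MOD d]} := by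
    rw [card_eq_sum_card_fiberwise (f := fun n => n % d) (t := {v ∈ range d | P v})]
    · refine sum_congr rfl fun v hv => ?_
      obtain ⟨h1, h2⟩ := mem_filter.1 hv
      rw [filter_filter]
      congr 1
      refine filter_congr fun n _ => ?_
      have h3 : n % d = v ↔ n ≡ v [MOD d] := by
        unfold Nat.ModEq; rw [Nat.mod_eq_of_lt (mem_range.1 h1)]
      rw [h3]
      exact ⟨fun h => h.2, fun h => ⟨(hP _ _ h).2 h2, h⟩⟩
    · intro n hn
      simp only [coe_filter, Set.mem_ofPred_eq, mem_range] at hn ⊢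
      exact ⟨Nat.mod_lt _ hd, (hP _ _ (Nat.mod_modEq n d)).2 hn.2⟩
  have e2 : (H : ℝ) / d * #{n ∈ range d | P n} = ∑ _v ∈ range d with P _v, (H : ℝ) / d := by
    rw [sum_const, nsmul_eq_mul, mul_comm]
  rw [e, e2]
  push_cast
  rw [← sum_sub_distrib]
  refine (abs_sum_le_sum_abs _ _).trans ((sum_le_sum fun v _ => class_count x H d v hd).trans ?_)
  simp

lemma res_count {D : Finset ℕ} (hD : ∀ p ∈ D, p.Prime) (F : ℕ → ℕ)
    (hF : ∀ p m n, m ≡ n [MOD p] → F m ≡ F n [MOD p]) :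
    (#{n ∈ range (∏ p ∈ D, p) | ∀ p ∈ D, p ∣ F n} : ℝ) =
      ∏ p ∈ D, (#{n ∈ range p | p ∣ F n} : ℝ) := by
  have h := sum_range_prod_primes D hD (fun p n => if p ∣ F n then 1 else 0)
    (fun p _ m n h => if_congr ((hF p m n h).dvd_iff dvd_rfl) rfl rfl)
  simp only [card_filter]
  push_cast
  rw [← h]
  refine sum_congr rfl fun n _ => ?_
  rw [prod_ite_zero]; simp

/-- counting of the integers of an interval with all primes of `D` dividing `F n` -/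
lemma count_gen {z : ℕ} {D : Finset ℕ} (hD : D ⊆ primesLE z) (F : ℕ → ℕ)
    (hF : ∀ p m n, m ≡ n [MOD p] → F m ≡ F n [MOD p]) (x H : ℕ) :
    |(∑ n ∈ Ioc x (x + H), if (∀ p ∈ D, p ∣ F n) then (1 : ℝ) else 0) -
      H * ∏ p ∈ D, ((#{n ∈ range p | p ∣ F n} : ℝ) / p)| ≤ (z : ℝ) ^ #D := by
  have hp : ∀ p ∈ D, p.Prime := fun p hp => prime_of_mem_primesLE (hD hp)
  have h := per_count (d := ∏ p ∈ D, p) (prod_pos fun p h => (hp p h).pos)
    (fun n => ∀ p ∈ D, p ∣ F n) (fun m n h => forall₂_congr fun p hp =>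
      (hF p m n (h.of_dvd (dvd_prod_of_mem _ hp))).dvd_iff dvd_rfl) x H
  rw [res_count hp F hF] at h
  have e : (∑ n ∈ Ioc x (x + H), if (∀ p ∈ D, p ∣ F n) then (1 : ℝ) else 0) =
      #{n ∈ Ioc x (x + H) | ∀ p ∈ D, p ∣ F n} := by rw [card_filter]; push_cast; rfl
  have e2 : (H : ℝ) * ∏ p ∈ D, ((#{n ∈ range p | p ∣ F n} : ℝ) / p) =
      H / (∏ p ∈ D, p : ℕ) * ∏ p ∈ D, (#{n ∈ range p | p ∣ F n} : ℝ) := by
    rw [prod_div_distrib]; push_cast; ring
  rw [e, e2]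
  refine h.trans ?_
  rw [← prod_const]
  refine prod_le_prod (fun _ _ => by positivity) fun p hp => ?_
  have h1 : #{n ∈ range p | p ∣ F n} ≤ p := (card_filter_le _ _).trans (by simp)
  exact_mod_cast h1.trans (le_of_mem_primesLE (hD hp))

/-- the pure sieve for a polynomial like sequence -/
lemma sieve_gen {z : ℕ} (hz : 1 ≤ z) {Q : Finset ℕ} (hQ : Q ⊆ primesLE z) (F : ℕ → ℕ)
    (hF : ∀ p m n, m ≡ n [MOD p] → F m ≡ F n [MOD p]) (x H k : ℕ) :
    |(∑ n ∈ Ioc x (x + H), if (∀ p ∈ Q, ¬ p ∣ F n) then (1 : ℝ) else 0) -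
      H * ∏ p ∈ Q, (1 - (#{n ∈ range p | p ∣ F n} : ℝ) / p)| ≤
      H * (Real.exp (2 * ∑ p ∈ Q, (#{n ∈ range p | p ∣ F n} : ℝ) / p) / 2 ^ k) +
        ((z : ℝ) ^ (k + 1)) ^ 2 := by
  set I := Ioc x (x + H) with hI
  set c : Finset ℕ → ℝ := fun D => ∑ n ∈ I, if (∀ p ∈ D, p ∣ F n) then (1 : ℝ) else 0 with hcd
  set s : Finset ℕ → ℝ := fun D => if #D ≤ k then (-1 : ℝ) ^ #D else 0 with hs
  set r : Finset ℕ → ℝ := fun D => if #D = k + 1 then (1 : ℝ) else 0 with hr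
  set g : Finset ℕ → ℝ := fun D => ∏ p ∈ D, ((#{n ∈ range p | p ∣ F n} : ℝ) / p) with hg
  have hz' : (1 : ℝ) ≤ z := by exact_mod_cast hz
  have hcD : ∀ D ∈ Q.powerset, |c D - H * g D| ≤ (z : ℝ) ^ #D := fun D hD =>
    count_gen ((mem_powerset.1 hD).trans hQ) F hF x H
  have e : ∀ w : Finset ℕ → ℝ, ∑ n ∈ I, ∑ D ∈ Q.powerset,
      (if (∀ p ∈ D, p ∣ F n) then w D else 0) = ∑ D ∈ Q.powerset, w D * c D := by
    intro w
    rw [sum_comm]
    simp only [hcd, mul_sum, mul_ite, mul_one, mul_zero]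
  have h1 : |(∑ n ∈ I, if (∀ p ∈ Q, ¬ p ∣ F n) then (1 : ℝ) else 0) -
      ∑ D ∈ Q.powerset, s D * c D| ≤ ∑ D ∈ Q.powerset, r D * c D := by
    rw [← e, ← e, ← sum_sub_distrib]
    exact (abs_sum_le_sum_abs _ _).trans (sum_le_sum fun n _ => bonf_dvd Q k (F n))
  have h2 := mul_le_mul_of_nonneg_left (model_le Q (fun p => (#{n ∈ range p | p ∣ F n} : ℝ) / p)
    (fun p _ => by positivity) k) (show (0 : ℝ) ≤ H by positivity)
  rw [mul_add, ← abs_of_nonneg (show (0 : ℝ) ≤ H by positivity), ← abs_mul,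
    abs_of_nonneg (show (0 : ℝ) ≤ H by positivity), mul_sub] at h2
  have h3 : |∑ D ∈ Q.powerset, s D * c D - H * ∑ D ∈ Q.powerset, s D * g D| +
      (∑ D ∈ Q.powerset, r D * c D - H * ∑ D ∈ Q.powerset, r D * g D) ≤
      ((z : ℝ) ^ (k + 1)) ^ 2 := by
    have h4 : (#{D ∈ Q.powerset | #D ≤ k + 1} : ℝ) ≤ (z : ℝ) ^ (k + 1) := by
      exact_mod_cast card_small hz hQ (k + 1)
    refine le_trans ?_ (mul_le_mul_of_nonneg_right h4 (show (0 : ℝ) ≤ (z : ℝ) ^ (k + 1) by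
      positivity) |>.trans (sq _).ge)
    rw [mul_sum, mul_sum, ← sum_sub_distrib, ← sum_sub_distrib, card_filter]
    push_cast
    rw [sum_mul]
    refine (add_le_add (abs_sum_le_sum_abs _ _) le_rfl).trans ?_
    rw [← sum_add_distrib]
    refine sum_le_sum fun D hD => ?_
    have := hcD D hD
    rw [mul_left_comm, mul_left_comm _ (r D), ← mul_sub, ← mul_sub, abs_mul]
    simp only [hs, hr]
    by_cases a : #D ≤ k
    · rw [if_pos a, if_neg (by omega), if_pos (by omega)]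
      simpa using this.trans (pow_le_pow_right₀ hz' (by omega))
    · by_cases b : #D = k + 1
      · rw [if_neg a, if_pos b, if_pos b.le]
        rw [b] at this
        simpa using (le_abs_self _).trans this
      · rw [if_neg a, if_neg b, if_neg (by omega)]; simp
  have t1 := abs_sub_le (∑ n ∈ I, if (∀ p ∈ Q, ¬ p ∣ F n) then (1 : ℝ) else 0)
    (∑ D ∈ Q.powerset, s D * c D) (H * ∏ p ∈ Q, (1 - (#{n ∈ range p | p ∣ F n} : ℝ) / p))
  have t2 := abs_sub_le (∑ D ∈ Q.powerset, s D * c D) (H * ∑ D ∈ Q.powerset, s D * g D)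
    (H * ∏ p ∈ Q, (1 - (#{n ∈ range p | p ∣ F n} : ℝ) / p))
  linarith

lemma forms_per (a b : Fin K → ℕ) (p m n : ℕ) (h : m ≡ n [MOD p]) :
    ∏ i, (a i * m + b i) ≡ ∏ i, (a i * n + b i) [MOD p] :=
  Nat.ModEq.prod fun i _ => (h.mul_left (a i)).add_right (b i)

lemma nu_le_self (a b : Fin K → ℕ) (p : ℕ) : nu a b p ≤ p := (card_filter_le _ _).trans (by simp)

lemma nu_cases (a b : Fin K → ℕ) {p : ℕ} (hp : p.Prime) :
    nu a b p ≤ K ∨ ∀ n, p ∣ ∏ i, (a i * n + b i) := by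
  by_cases h : ∃ i, p ∣ a i ∧ p ∣ b i
  · obtain ⟨i, h1, h2⟩ := h
    exact Or.inr fun n => (dvd_add (h1.mul_right n) h2).trans
      (dvd_prod_of_mem (fun i => a i * n + b i) (mem_univ i))
  left
  have h1 : {n ∈ range p | p ∣ ∏ i, (a i * n + b i)} ⊆
      univ.biUnion fun i => {n ∈ range p | p ∣ a i * n + b i} := by
    intro n hn
    obtain ⟨h1, h2⟩ := mem_filter.1 hn
    obtain ⟨i, _, h3⟩ := (hp.prime.dvd_finsetProd_iff _).1 h2
    exact mem_biUnion.2 ⟨i, mem_univ _, mem_filter.2 ⟨h1, h3⟩⟩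
  refine (card_le_card h1).trans (card_biUnion_le.trans ?_)
  refine (sum_le_card_nsmul _ _ 1 fun i _ => card_le_one.2 fun u hu v hv => ?_).trans (by simp)
  obtain ⟨u1, u2⟩ := mem_filter.1 hu
  obtain ⟨v1, v2⟩ := mem_filter.1 hv
  have ha : ¬ p ∣ a i := fun ha => h ⟨i, ha, (Nat.dvd_add_right (ha.mul_right u)).1 u2⟩
  have h2 : a i * u + b i ≡ a i * v + b i [MOD p] :=
    (Nat.modEq_zero_iff_dvd.2 u2).trans (Nat.modEq_zero_iff_dvd.2 v2).symm
  have h3 : u ≡ v [MOD p] := Nat.ModEq.cancel_left_of_coprime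
    ((hp.coprime_iff_not_dvd).2 ha) (Nat.ModEq.add_right_cancel' _ h2)
  exact h3.eq_of_lt_of_lt (mem_range.1 u1) (mem_range.1 v1)

lemma prod_lsh (z : ℕ) (a b : Fin K → ℕ) (n : ℕ) : ∏ i, lsh z (a i * n + b i) =
    (th z)⁻¹ ^ K * if (∀ p ∈ primesLE z, ¬ p ∣ ∏ i, (a i * n + b i)) then (1 : ℝ) else 0 := by
  split_ifs with h
  · have h1 : ∀ i, lsh z (a i * n + b i) = (th z)⁻¹ := fun i => if_pos fun p hp hd => h p hp
      (hd.trans (dvd_prod_of_mem (fun i => a i * n + b i) (mem_univ i)))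
    simp [h1]
  · push Not at h
    obtain ⟨p, hp, hd⟩ := h
    obtain ⟨i, _, h3⟩ := ((prime_of_mem_primesLE hp).prime.dvd_finsetProd_iff _).1 hd
    rw [mul_zero]
    exact prod_eq_zero (mem_univ i) (if_neg fun h => h p hp h3)

lemma Sz_eq (z : ℕ) (a b : Fin K → ℕ) :
    Sz z a b = (th z)⁻¹ ^ K * ∏ p ∈ primesLE z, (1 - (nu a b p : ℝ) / p) := by
  rw [Sz, prod_div_distrib, prod_pow, th, inv_pow, div_eq_inv_mul]

lemma Sz_nonneg (z : ℕ) (a b : Fin K → ℕ) : 0 ≤ Sz z a b := by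
  rw [Sz_eq]
  refine mul_nonneg (pow_nonneg (inv_pos.2 (th_pos z)).le _) (prod_nonneg fun p hp => ?_)
  have h0 : (0 : ℝ) < p := by exact_mod_cast (prime_of_mem_primesLE hp).pos
  rw [sub_nonneg, div_le_one h0]; exact_mod_cast nu_le_self a b p

lemma Sz_le (z : ℕ) (a b : Fin K → ℕ) : Sz z a b ≤ (th z)⁻¹ ^ K := by
  rw [Sz_eq]
  refine mul_le_of_le_one_right (pow_nonneg (inv_pos.2 (th_pos z)).le _)
    (prod_le_one (fun p hp => ?_) fun p _ => ?_)
  · have h0 : (0 : ℝ) < p := by exact_mod_cast (prime_of_mem_primesLE hp).pos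
    rw [sub_nonneg, div_le_one h0]; exact_mod_cast nu_le_self a b p
  · have : (0 : ℝ) ≤ (nu a b p : ℝ) / p := by positivity
    linarith

lemma corr_core {z : ℕ} (hz : 1 ≤ z) (a b : Fin K → ℕ) (x H k : ℕ) :
    |∑ n ∈ Ioc x (x + H), ∏ i, lsh z (a i * n + b i) - H * Sz z a b| ≤ (th z)⁻¹ ^ K *
      (H * (Real.exp (2 * ∑ p ∈ primesLE z, 1 / (p : ℝ)) ^ K / 2 ^ k) +
        ((z : ℝ) ^ (k + 1)) ^ 2) := by
  have h0 : 0 ≤ (th z)⁻¹ ^ K := pow_nonneg (inv_pos.2 (th_pos z)).le _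
  simp only [prod_lsh]
  rw [← mul_sum, Sz_eq, mul_left_comm, ← mul_sub, abs_mul, abs_of_nonneg h0]
  refine mul_le_mul_of_nonneg_left ?_ h0
  by_cases h : ∀ p ∈ primesLE z, nu a b p ≤ K
  · refine (sieve_gen hz Subset.rfl _ (forms_per a b) x H k).trans ?_
    rw [← Real.exp_nat_mul, mul_left_comm (K : ℝ), mul_sum _ _ (K : ℝ)]
    gcongr with p hp
    rw [mul_one_div]
    gcongr
    exact_mod_cast h p hp
  · push Not at h
    obtain ⟨p, hp, h1⟩ := h
    have hp' := prime_of_mem_primesLE hp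
    have h2 := (nu_cases a b hp').resolve_left (by omega)
    have h3 : nu a b p = p := by rw [nu, filter_true_of_mem fun n _ => h2 n, card_range]
    have h4 : (p : ℝ) ≠ 0 := by exact_mod_cast hp'.pos.ne'
    rw [sum_eq_zero fun n _ => if_neg fun h => h p hp (h2 n),
      prod_eq_zero hp (by rw [h3, div_self h4, sub_self])]
    simp only [mul_zero, sub_self, abs_zero]
    positivity

lemma th_ev (B : ℕ) : ∀ᶠ N : ℕ in atTop, ∀ z : ℕ, (z : ℝ) ≤ Real.log N ^ B →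
    (th z)⁻¹ ≤ Real.log N := by
  filter_upwards [tendsto_L.eventually (ev_params 0 B)] with N ⟨k, h1⟩ z hz
  refine (th_inv_le z).trans (le_trans ?_ (h1 z hz).1)
  have : 0 ≤ ∑ p ∈ primesLE z, 1 / (p : ℝ) := by positivity
  gcongr; norm_num

/-- correlations of the model along linear forms, with a small additive error -/
theorem corr' (K A B : ℕ) : ∀ᶠ N : ℕ in atTop, ∀ z : ℕ, 1 ≤ z → (z : ℝ) ≤ Real.log N ^ B →
    ∀ (a b : Fin K → ℕ) (x H : ℕ),
      |∑ n ∈ Ioc x (x + H), ∏ i, lsh z (a i * n + b i) - H * Sz z a b| ≤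
        H / Real.log N ^ A + Real.exp (3 * √(Real.log N)) := by
  filter_upwards [tendsto_L.eventually (ev_params (A + 2 * K) B),
    tendsto_L.eventually (ev_pow_le K), tendsto_L.eventually_ge_atTop 1] with N ⟨k, h1⟩ h2 h3 z hz
    hzB a b x H
  obtain ⟨a1, a2, a3⟩ := h1 z hzB
  have a0 : Real.exp (2 * ∑ p ∈ primesLE z, 1 / (p : ℝ)) ≤ Real.log N := by
    refine le_trans ?_ a1
    have : 0 ≤ ∑ p ∈ primesLE z, 1 / (p : ℝ) := by positivity
    gcongr; norm_num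
  have a4 := (th_inv_le z).trans a0
  have a5 := (inv_pos.2 (th_pos z)).le
  refine (corr_core hz a b x H k).trans ?_
  calc _ ≤ Real.log N ^ K * (H * (Real.log N ^ K / Real.log N ^ (A + 2 * K)) +
        Real.exp √(Real.log N) ^ 2) := by gcongr
    _ = H / Real.log N ^ A + Real.log N ^ K * Real.exp √(Real.log N) ^ 2 := by field_simp; ring
    _ ≤ H / Real.log N ^ A + Real.exp √(Real.log N) * Real.exp √(Real.log N) ^ 2 := by gcongr
    _ = _ := by rw [← _root_.pow_succ', ← Real.exp_nat_mul]; norm_num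

lemma exp_sqrt_ev {e : ℝ} (he : 0 < e) (c : ℝ) (k : ℕ) : ∀ᶠ N : ℕ in atTop,
    Real.log N ^ k * Real.exp (c * √(Real.log N)) ≤ (N : ℝ) ^ e := by
  filter_upwards [tendsto_L.eventually (ev_pow_le k),
    tendsto_L.eventually_ge_atTop (((|c| + 1) / e) ^ 2), eventually_gt_atTop 0] with N h1 h2 hN
  have hN' : (0 : ℝ) < N := by exact_mod_cast hN
  have h8 : (|c| + 1) / e ≤ √(Real.log N) := Real.le_sqrt_of_sq_le h2
  have hsq := Real.mul_self_sqrt (le_trans (sq_nonneg _) h2)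
  rw [div_le_iff₀ he] at h8
  have h0 := Real.sqrt_nonneg (Real.log N)
  calc _ ≤ Real.exp √(Real.log N) * Real.exp (c * √(Real.log N)) := by gcongr
    _ ≤ Real.exp (Real.log N * e) := by
        rw [← Real.exp_add]; gcongr
        nlinarith [mul_le_mul_of_nonneg_right h8 h0, mul_le_mul_of_nonneg_right (le_abs_self c) h0]
    _ = _ := (Real.rpow_def_of_pos hN' e).symm

theorem corr (K A B : ℕ) : ∀ᶠ N : ℕ in atTop, ∀ z : ℕ, 1 ≤ z → (z : ℝ) ≤ Real.log N ^ B →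
    ∀ (a b : Fin K → ℕ) (x H : ℕ),
      |∑ n ∈ Ioc x (x + H), ∏ i, lsh z (a i * n + b i) - H * Sz z a b| ≤
        H / Real.log N ^ A + √(N : ℝ) := by
  filter_upwards [corr' K A B, exp_sqrt_ev (e := 1 / 2) (by norm_num) 3 0] with N h1 h2 z hz hzB
    a b x H
  rw [pow_zero, one_mul, ← Real.sqrt_eq_rpow] at h2
  linarith [h1 z hz hzB a b x H]

end Pool.Agent.Lib.MP_68a45e_nt.CMod
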