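import Pool.Agent.Lib.MP_68a45e_nt.CMod1
import Pool.Agent.Lib.MP_68a45e_nt.AvDef

/-! The sieve model for the primes: size, correlations and progressions. -/

namespace Pool.Agent.Lib.MP_68a45e_nt.CMod

open Finset Filter Nat N9a2a6718
open Pool.Agent.Lib.MP_b09185_nt Pool.Agent.Lib.SW Pool.Agent.Lib.MP_68a45e_nt.Av

lemma tot_real (n : ℕ) : (n.totient : ℝ) = n * ∏ p ∈ n.primeFactors, (1 - 1 / (p : ℝ)) := by
  have := congrArg (fun q : ℚ => (q : ℝ)) (Nat.totient_eq_mul_prod_factors n)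
  simpa using this

lemma LW_eq (w n : ℕ) : LW w n = ((lsh w n : ℝ) : ℂ) := by
  have h1 : n.Coprime (primorial w) ↔ ∀ p ∈ primesLE w, ¬ p ∣ n := by
    rw [primorial_eq_prod_primesLE, Nat.coprime_prod_right_iff]
    exact forall₂_congr fun p hp => by
      rw [Nat.coprime_comm, (prime_of_mem_primesLE hp).coprime_iff_not_dvd]
  have h2 : (primorial w : ℝ) / (primorial w).totient = (th w)⁻¹ := by
    have : (primorial w : ℝ) ≠ 0 := by exact_mod_cast primorial_ne_zero w
    rw [tot_real, primeFactors_primorial, th]; field_simp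
  unfold LW lsh
  by_cases h : n.Coprime (primorial w)
  · rw [if_pos h, if_pos (h1.1 h), ← h2]; push_cast; rfl
  · rw [if_neg h, if_neg (mt h1.2 h)]; simp

theorem sizeW : SizeW := by
  intro B
  filter_upwards [th_ev B] with X h w n hw
  rw [LW_eq, Complex.norm_real, Real.norm_of_nonneg (lsh_nonneg w n)]
  exact (lsh_le w n).trans (h w hw)

lemma nu_odd {k : ℕ} (m : Fin k.succ → ℕ) {p : ℕ} (hp : p.Prime) (h2 : 3 ≤ p) :
    nu (fun _ => 1) (fun i => 2 * m i) p = N9a2a6718.Nat.numResidues p m := by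
  have := Fact.mk hp
  have h0 : (2 : ZMod p) ≠ 0 := by
    intro h
    have : p ∣ 2 := (ZMod.natCast_eq_zero_iff 2 p).1 (by exact_mod_cast h)
    have := Nat.le_of_dvd two_pos this
    omega
  rw [N9a2a6718.Nat.numResidues, ← Set.image_univ, ← coe_univ, ← coe_image, Set.ncard_coe_finset,
    nu, ← card_image_of_injective _ (f := fun x : ZMod p => (-(2 * x)).val)
      (fun x y h => mul_left_cancel₀ h0 (neg_injective (ZMod.val_injective p h)))]
  congr 1
  ext n
  simp only [mem_filter, mem_range, mem_image, mem_univ, true_and, exists_exists_eq_and,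
    hp.prime.dvd_finsetProd_iff, one_mul, ← ZMod.natCast_eq_zero_iff]
  push_cast
  constructor
  · rintro ⟨h1, i, h3⟩
    exact ⟨i, by rw [← eq_neg_of_add_eq_zero_left h3, ZMod.val_natCast, Nat.mod_eq_of_lt h1]⟩
  · rintro ⟨i, rfl⟩
    exact ⟨ZMod.val_lt _, i, by simp⟩

lemma nu_two {k : ℕ} (m : Fin k.succ → ℕ) : nu (fun _ => 1) (fun i => 2 * m i) 2 = 1 := by
  rw [nu, show {n ∈ range 2 | 2 ∣ ∏ i, (1 * n + 2 * m i)} = {0} from ?_, card_singleton]
  ext n
  simp only [mem_filter, mem_range, mem_singleton, Nat.prime_two.prime.dvd_finsetProd_iff]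
  constructor
  · rintro ⟨h1, i, _, h3⟩; omega
  · rintro rfl; exact ⟨two_pos, 0, mem_univ _, by simp⟩

lemma Sz_PP {k : ℕ} (m : Fin k.succ → ℕ) {w : ℕ} (hw : 2 ≤ w) :
    Sz w (fun _ => 1) (fun i => 2 * m i) = HardyLittlewoodPartialProduct m (w + 1) := by
  have e : primesLE w = insert 2 ((Nat.primesBelow (w + 1)).filter (fun q => 3 ≤ q)) := by
    ext p
    simp only [mem_insert, mem_filter, mem_primesLE, Nat.mem_primesBelow]
    constructor
    · rintro ⟨h1, h2⟩
      have := h2.two_le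
      by_cases h : p = 2
      exacts [Or.inl h, Or.inr ⟨⟨by omega, h2⟩, by omega⟩]
    · rintro (rfl | ⟨⟨h1, h2⟩, _⟩)
      exacts [⟨hw, Nat.prime_two⟩, ⟨by omega, h2⟩]
  rw [Sz, HardyLittlewoodPartialProduct, e, prod_insert (by simp), nu_two]
  congr 1
  · rw [Nat.succ_eq_add_one, _root_.pow_succ]; norm_num; field_simp
    rw [← mul_pow]; norm_num
  · refine prod_congr rfl fun p hp => ?_
    obtain ⟨h1, h2⟩ := mem_filter.1 hp
    rw [nu_odd m (Nat.prime_of_mem_primesBelow h1) h2]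

theorem corrW : Corr := by
  intro k A B
  filter_upwards [corr' k.succ (A + 1) B, exp_sqrt_ev one_pos 3 (A + 1),
    tendsto_L.eventually_ge_atTop 2] with X h1 h2 h3 w x m hw hwB hx
  have h := h1 w (by omega) hwB (fun _ => 1) (fun i => 2 * m i) 0 x
  rw [Sz_PP m hw, zero_add, mul_comm] at h
  simp only [one_mul] at h
  simp only [LW_eq]
  rw [Real.rpow_one, mul_comm, ← le_div_iff₀ (by positivity)] at h2
  have h4 : (x : ℝ) / Real.log X ^ (A + 1) ≤ X / Real.log X ^ (A + 1) := by gcongr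
  have h5 : (X : ℝ) / Real.log X ^ (A + 1) ≤ X / Real.log X ^ A / 2 := by
    rw [_root_.pow_succ, ← div_div]; gcongr
  norm_cast at h ⊢
  rw [Real.norm_eq_abs]
  linarith

lemma sum_class {q r : ℕ} (hr : r < q) (f : ℕ → ℝ) (x y : ℕ) :
    ∑ n ∈ Ioc x y with n ≡ r [MOD q], f n =
      ∑ u ∈ Ico ((x + q - r) / q) ((y + q - r) / q), f (q * u + r) := by
  have hq : 0 < q := by omega
  have key : ∀ u, u ∈ Ico ((x + q - r) / q) ((y + q - r) / q) ↔ q * u + r ∈ Ioc x y := by
    intro u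
    rw [mem_Ico, mem_Ioc, ← Nat.lt_succ_iff, Nat.div_lt_iff_lt_mul hq,
      ← Nat.succ_le_iff (m := u), Nat.le_div_iff_mul_le hq, Nat.succ_mul, mul_comm u q]
    omega
  have e : ∀ n, n ≡ r [MOD q] → q * (n / q) + r = n := fun n h => by
    have h1 : n % q = r := by rw [h, Nat.mod_eq_of_lt hr]
    rw [← h1, Nat.div_add_mod]
  refine sum_nbij' (fun n => n / q) (fun u => q * u + r) (fun n hn => ?_) (fun u hu => ?_)
    (fun n hn => e n (mem_filter.1 hn).2) (fun u _ => ?_) fun n hn => by rw [e n (mem_filter.1 hn).2]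
  · rw [key, e n (mem_filter.1 hn).2]; exact (mem_filter.1 hn).1
  · exact mem_filter.2 ⟨(key u).1 hu, by simp [Nat.ModEq]⟩
  · simp only [Nat.mul_add_div hq, Nat.div_eq_of_lt hr, add_zero]

lemma Sz_class {w q : ℕ} (hq : 1 ≤ q) (hw : q ≤ w) (r : ℕ) :
    Sz w (fun _ : Fin 1 => q) (fun _ => r) = if r.Coprime q then (q : ℝ) / q.totient else 0 := by
  have n1 : ∀ p, p.Prime → ¬ p ∣ q → nu (fun _ : Fin 1 => q) (fun _ => r) p = 1 := by
    intro p hp h
    have := Fact.mk hp
    refine le_antisymm ((nu_cases _ _ hp).resolve_right fun h1 => h ?_) (card_pos.2 ?_)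
    · have a := h1 0
      have b := h1 1
      simp only [Fin.prod_univ_one, mul_zero, zero_add, mul_one] at a b
      exact (Nat.dvd_add_left a).1 b
    · have h0 : (q : ZMod p) ≠ 0 := mt (ZMod.natCast_eq_zero_iff q p).1 h
      refine ⟨(-(r : ZMod p) / q).val, mem_filter.2 ⟨mem_range.2 (ZMod.val_lt _), ?_⟩⟩
      rw [Fin.prod_univ_one, ← ZMod.natCast_eq_zero_iff]
      push_cast
      rw [ZMod.natCast_zmod_val]; field_simp; ring
  split_ifs with h
  · have h0 : (q : ℝ) ≠ 0 := by positivity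
    rw [tot_real, div_mul_cancel_left₀ h0, ← prod_inv_distrib, Sz]
    symm
    refine prod_subset_one_on_sdiff (fun p hp => ?_) (fun p hp => ?_) fun p hp => ?_
    · exact mem_primesLE.2 ⟨(Nat.le_of_mem_primeFactors hp).trans hw, Nat.prime_of_mem_primeFactors hp⟩
    · obtain ⟨h1, h2⟩ := mem_sdiff.1 hp
      have hp' := prime_of_mem_primesLE h1
      rw [n1 p hp' fun h3 => h2 (Nat.mem_primeFactors.2 ⟨hp', h3, by omega⟩), pow_one, Nat.cast_one,
        div_self (factor_pos hp').ne']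
    · have hp' := Nat.prime_of_mem_primeFactors hp
      have h1 := Nat.dvd_of_mem_primeFactors hp
      have : nu (fun _ : Fin 1 => q) (fun _ => r) p = 0 := by
        rw [nu, Finset.card_eq_zero, filter_eq_empty_iff]
        intro n _ h2
        rw [Fin.prod_univ_one] at h2
        exact hp'.one_lt.ne' (Nat.eq_one_of_dvd_coprimes h
          ((Nat.dvd_add_right (h1.mul_right n)).1 h2) h1)
      rw [this]; simp
  · obtain ⟨p, hp, h1, h2⟩ := Nat.Prime.not_coprime_iff_dvd.1 h
    refine prod_eq_zero (mem_primesLE.2 ⟨(Nat.le_of_dvd hq h2).trans hw, hp⟩) ?_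
    have h3 : nu (fun _ : Fin 1 => q) (fun _ => r) p = p := by
      rw [nu, filter_true_of_mem fun n _ => by
        rw [Fin.prod_univ_one]; exact dvd_add (h2.mul_right n) h1, card_range]
    have h4 : (p : ℝ) ≠ 0 := by exact_mod_cast hp.pos.ne'
    rw [h3, div_self h4, sub_self, zero_div]

theorem apW : APW := by
  intro θ hθ A B
  filter_upwards [corr' 1 (A + 1) B, exp_sqrt_ev hθ 3 (A + 2), th_ev B,
    tendsto_L.eventually_ge_atTop 5] with X h1 h2 h0 h3 w H q c x hwB hH hq hw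
  have hr : c % q < q := Nat.mod_lt _ hq
  have e1 : {n ∈ Ioc x (x + H) | n ≡ c [MOD q]} = {n ∈ Ioc x (x + H) | n ≡ c % q [MOD q]} :=
    filter_congr fun n _ => ⟨fun h => h.trans (Nat.mod_modEq c q).symm,
      fun h => h.trans (Nat.mod_modEq c q)⟩
  have e2 : c.Coprime q ↔ (c % q).Coprime q := by
    rw [Nat.Coprime, Nat.Coprime, Nat.gcd_comm c q, Nat.gcd_rec q c]
  obtain ⟨U, hU⟩ : ∃ U, (x + H + q - c % q) / q = (x + q - c % q) / q + U :=
    Nat.exists_eq_add_of_le (Nat.div_le_div_right (by omega))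
  have a1 := sum_class hr (lsh w) x (x + H)
  have a2 := sum_class hr (fun _ => 1) x (x + H)
  have a3 := class_count x H q (c % q) hq
  rw [hU] at a1 a2
  generalize (x + q - c % q) / q = u at a1 a2
  simp only [sum_const, nsmul_eq_mul, mul_one, Nat.card_Ico, add_tsub_cancel_left] at a2
  have a2' : (U : ℝ) ≤ H := by
    rw [← a2]; exact_mod_cast (card_filter_le _ _).trans (by simp)
  rw [a2] at a3
  have a4 := h1 w (by omega) hwB (fun _ => q) (fun _ => c % q) u U
  simp only [Fin.prod_univ_one] at a4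
  have a5 := sum_Ioc_add_eq_sum_Icc (f := fun n => lsh w (q * n + c % q)) (Nat.le_add_right u U)
  have a6 := sum_Ico_add_eq_sum_Icc (f := fun n => lsh w (q * n + c % q)) (Nat.le_add_right u U)
  have b1 := fun n => (lsh_le w n).trans (h0 w hwB)
  have b2 := Sz_nonneg w (fun _ : Fin 1 => q) (fun _ => c % q)
  have b3 := (Sz_le w (fun _ : Fin 1 => q) (fun _ => c % q)).trans (pow_one _).le |>.trans (h0 w hwB)
  have e3 : (if c.Coprime q then (H : ℂ) / q.totient else 0) =
      ((H / q * Sz w (fun _ : Fin 1 => q) (fun _ => c % q) : ℝ) : ℂ) := by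
    have h0 : (q : ℂ) ≠ 0 := by exact_mod_cast (by omega : q ≠ 0)
    rw [Sz_class hq hw]
    by_cases h : c.Coprime q
    · rw [if_pos h, if_pos (e2.1 h)]; push_cast; field_simp
    · rw [if_neg h, if_neg (mt e2.2 h)]; simp
  simp only [LW_eq]
  rw [e3, e1, ← Complex.ofReal_sum, ← Complex.ofReal_sub, Complex.norm_real, Real.norm_eq_abs, a1]
  set S := Sz w (fun _ : Fin 1 => q) (fun _ => c % q)
  set L := Real.log X
  have c1 : |U * S - H / q * S| ≤ L := by
    rw [← sub_mul, abs_mul, abs_of_nonneg b2]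
    exact (mul_le_of_le_one_left b2 a3).trans b3
  have c2 : (U : ℝ) / L ^ (A + 1) ≤ H / L ^ A / 5 := by
    rw [_root_.pow_succ, ← div_div]; gcongr
  have c3 : L * Real.exp (3 * √L) ≤ H / L ^ A / 5 := by
    rw [le_div_iff₀ (by norm_num), le_div_iff₀ (by positivity)]
    refine le_trans ?_ (h2.trans hH)
    calc _ ≤ L * Real.exp (3 * √L) * L * L ^ A := by gcongr
      _ = _ := by ring
  have c4 : 1 ≤ Real.exp (3 * √L) := Real.one_le_exp (by positivity)
  have c5 : L ≤ L * Real.exp (3 * √L) := le_mul_of_one_le_right (by linarith) c4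
  have c6 : Real.exp (3 * √L) ≤ L * Real.exp (3 * √L) := le_mul_of_one_le_left (by linarith) (by linarith)
  rw [abs_le] at a4 c1 ⊢
  constructor <;> linarith [b1 (q * u + c % q), b1 (q * (u + U) + c % q), a4.1, a4.2, c1.1, c1.2,
    lsh_nonneg w (q * u + c % q), lsh_nonneg w (q * (u + U) + c % q)]

end Pool.Agent.Lib.MP_68a45e_nt.CMod
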