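import Pool.Agent.Lib.MP_68a45e_nt.AvDef
import Pool.Agent.Lib.MP_68a45e_nt.Series
import Pool.Agent.Lib.MP_be93de_nt.Rough

/-! Size of the sieve model and convergence of the singular series. -/

namespace Pool.Agent.Lib.MP_68a45e_nt.Av

open Finset Filter Topology N9a2a6718

lemma ratio_le (w : ℕ) :
    (primorial w : ℝ) / (primorial w).totient ≤ Real.exp 40 * (1 + Real.log w) := by
  have h := MP_be93de_nt.totient_primorial_ge w
  have hl : 0 < 1 + Real.log w := by have := Real.log_natCast_nonneg w; linarith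
  have h0 : (0 : ℝ) < (primorial w).totient := by
    exact_mod_cast Nat.totient_pos.2 (primorial_pos w)
  rw [Real.exp_neg, div_mul_eq_mul_div, div_le_iff₀ hl, inv_mul_le_iff₀ (Real.exp_pos _)] at h
  rw [div_le_iff₀ h0]; linarith

lemma tendsto_logX : Tendsto (fun X : ℕ => Real.log X) atTop atTop :=
  Real.tendsto_log_atTop.comp tendsto_natCast_atTop_atTop

lemma ev_loglog (c : ℝ) (B : ℕ) : ∀ᶠ L : ℝ in atTop, ∀ w : ℕ, (w : ℝ) ≤ L ^ B →
    c * (1 + Real.log w) ≤ L := by
  have h := Real.isLittleO_log_id_atTop.bound (show 0 < 1 / ((|c| + 1) * (1 + B)) by positivity)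
  filter_upwards [h, eventually_ge_atTop (Real.exp 1)] with L h1 h2 w hw
  have hL1 : 1 ≤ L := le_trans (Real.one_le_exp zero_le_one) h2
  have hl : 1 ≤ Real.log L := by rw [Real.le_log_iff_exp_le (by linarith)]; exact h2
  have h5 : Real.log w ≤ B * Real.log L := by
    rcases Nat.eq_zero_or_pos w with rfl | h0
    · simp; positivity
    · rw [← Real.log_pow]; exact Real.log_le_log (by exact_mod_cast h0) hw
  have h6 := Real.log_natCast_nonneg w
  rw [id, Real.norm_of_nonneg (by linarith), Real.norm_of_nonneg (by linarith), one_div,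
    inv_mul_eq_div, le_div_iff₀ (by positivity)] at h1
  calc _ ≤ (|c| + 1) * ((1 + B) * Real.log L) := by
        gcongr
        · linarith [le_abs_self c]
        · linarith
    _ ≤ L := by linarith

lemma ratio_ev (B : ℕ) : ∀ᶠ X : ℕ in atTop, ∀ w : ℕ, (w : ℝ) ≤ Real.log X ^ B →
    (primorial w : ℝ) / (primorial w).totient ≤ Real.log X := by
  filter_upwards [tendsto_logX.eventually (ev_loglog (Real.exp 40) B)] with X h w hw
  exact (ratio_le w).trans (h w hw)

lemma norm_LW_le (w n : ℕ) : ‖LW w n‖ ≤ (primorial w : ℝ) / (primorial w).totient := by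
  unfold LW
  split_ifs
  · simp
  · simp; positivity

theorem sizeW : SizeW := fun B => by
  filter_upwards [ratio_ev B] with X h w n hw
  exact (norm_LW_le w n).trans (h w hw)

theorem conv : Conv := fun k m hm => by
  obtain ⟨C, h0, h1, -⟩ := exists_C m hm
  have e : CS m = C := h1.limUnder_eq
  rw [e]; exact ⟨h0, h1⟩

end Pool.Agent.Lib.MP_68a45e_nt.Av
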