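import Mathlib

/-! The Cahen-Mellin integral on rays, and two Fourier computations. -/

namespace Pool.Agent.Lib.MP_68a45e_nt.CT2

open Complex Filter Topology MeasureTheory Set
open scoped Real ComplexConjugate

/-- the Gamma function on the critical line -/
noncomputable def gm (t : ℝ) : ℂ := Gamma ((1 / 2 : ℝ) + t * I)

lemma gm_sq (y : ℝ) : ‖gm y‖ ^ 2 = π / Real.cosh (π * y) := by
  have := congrArg norm (Gamma_mul_Gamma_one_sub ((1 / 2 : ℝ) + y * I))
  rw [show 1 - ((1 / 2 : ℝ) + y * I : ℂ) = conj ((1 / 2 : ℝ) + y * I) by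
      apply Complex.ext <;> norm_num, Gamma_conj, norm_mul, RCLike.norm_conj, ← sq,
    show π * ((1 / 2 : ℝ) + y * I : ℂ) = π / 2 - (-(π * y) : ℝ) * I by push_cast; ring,
    sin_pi_div_two_sub, cos_mul_I, ← ofReal_cosh, Real.cosh_neg, ← ofReal_div, norm_real,
    Real.norm_of_nonneg (by positivity)] at this
  exact this

lemma gm_le (y : ℝ) : ‖gm y‖ ≤ 3 * Real.exp (-(π / 2) * |y|) := by
  refine (pow_le_pow_iff_left₀ (norm_nonneg _) (by positivity) two_ne_zero).1 ?_
  rw [gm_sq, div_le_iff₀ (Real.cosh_pos _), ← Real.cosh_abs, abs_mul, abs_of_pos Real.pi_pos,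
    Real.cosh_eq, mul_pow, ← Real.exp_nat_mul]
  have h1 : Real.exp ((2 : ℕ) * (-(π / 2) * |y|)) * Real.exp (π * |y|) = 1 := by
    rw [← Real.exp_add, ← Real.exp_zero]
    congr 1
    push_cast
    ring
  have h2 := mul_pos (Real.exp_pos ((2 : ℕ) * (-(π / 2) * |y|))) (Real.exp_pos (-(π * |y|)))
  nlinarith [Real.pi_le_four]

lemma gm_cont : Continuous gm := by
  refine continuous_iff_continuousAt.2 fun t => ?_
  refine ContinuousAt.comp (g := Gamma) (differentiableAt_Gamma _ fun n h => ?_).continuousAt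
    (by fun_prop)
  have := congrArg re h
  simp at this
  have : (0 : ℝ) ≤ n := n.cast_nonneg
  linarith

lemma lap_int {δ : ℝ} (hδ : 0 < δ) : Integrable fun t : ℝ => Real.exp (-δ * |t|) := by
  rw [← integrableOn_univ, ← Iic_union_Ioi (a := (0 : ℝ)), integrableOn_union]
  constructor
  · refine (integrableOn_exp_mul_Iic hδ 0).congr_fun (fun t ht => ?_) measurableSet_Iic
    simp only
    rw [abs_of_nonpos ht]
    congr 1
    ring
  · refine (integrableOn_exp_mul_Ioi (neg_lt_zero.2 hδ) 0).congr_fun (fun t ht => ?_)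
      measurableSet_Ioi
    simp only
    rw [abs_of_pos ht]

lemma lap_mul {δ K : ℝ} (hδ : 0 < δ) {F : ℝ → ℂ} (hF : Continuous F)
    (h : ∀ t, ‖F t‖ ≤ K * Real.exp (-δ * |t|)) : Integrable F :=
  ((lap_int hδ).const_mul K).mono' hF.aestronglyMeasurable (.of_forall h)

lemma norm_ker (w : ℂ) (t : ℝ) : ‖exp (-w * ((1 / 2 : ℝ) + t * I))‖ =
    Real.exp (-w.re / 2 + t * w.im) := by
  rw [norm_exp]
  congr 1
  simp
  ring

lemma ker_le {w : ℂ} {δ : ℝ} (h : |w.im| ≤ π / 2 - δ) (t : ℝ) :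
    ‖gm t * exp (-w * ((1 / 2 : ℝ) + t * I))‖ ≤
      3 * Real.exp (-w.re / 2) * Real.exp (-δ * |t|) := by
  rw [norm_mul, norm_ker]
  refine (mul_le_mul_of_nonneg_right (gm_le t) (Real.exp_pos _).le).trans ?_
  rw [mul_assoc, mul_assoc, ← Real.exp_add, ← Real.exp_add]
  refine mul_le_mul_of_nonneg_left (Real.exp_le_exp.2 ?_) (by norm_num)
  have h1 : t * w.im ≤ |t| * (π / 2 - δ) :=
    (le_abs_self _).trans (by rw [abs_mul]; gcongr)
  linarith

lemma cahen_real (x : ℝ) : exp (-exp (x : ℂ)) =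
    (1 / (2 * π) : ℝ) * ∫ t : ℝ, gm t * exp (-(x : ℂ) * ((1 / 2 : ℝ) + t * I)) := by
  have hm : ∀ t : ℝ, mellin (fun u : ℝ => ((Real.exp (-u) : ℝ) : ℂ)) ((1 / 2 : ℝ) + t * I) =
      gm t := by
    intro t
    rw [gm, Gamma_eq_integral (by simp), GammaIntegral, mellin]
    simp_rw [smul_eq_mul, mul_comm]
  have h := mellinInv_mellin_eq (1 / 2) (fun u : ℝ => ((Real.exp (-u) : ℝ) : ℂ)) (Real.exp_pos x)
    (by
      have := Complex.GammaIntegral_convergent (s := ((1 / 2 : ℝ) : ℂ)) (by simp)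
      refine this.congr_fun (fun u _ => ?_) measurableSet_Ioi
      simp only [smul_eq_mul, mul_comm])
    (by
      unfold VerticalIntegrable
      simp_rw [hm]
      exact lap_mul (by positivity : 0 < π / 2) gm_cont gm_le)
    (by fun_prop)
  rw [mellinInv] at h
  simp_rw [hm] at h
  rw [← ofReal_exp, ← ofReal_neg, ← ofReal_exp, ← h, real_smul]
  congr 1
  refine integral_congr_ae (.of_forall fun t => ?_)
  simp only [smul_eq_mul]
  rw [mul_comm, cpow_def_of_ne_zero (by exact_mod_cast (Real.exp_pos x).ne'),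
    ← ofReal_log (Real.exp_pos x).le, Real.log_exp]
  congr 2
  ring

lemma cahen_diff {w : ℂ} (h : |w.im| < π / 2) : DifferentiableAt ℂ
    (fun w : ℂ => ∫ t : ℝ, gm t * exp (-w * ((1 / 2 : ℝ) + t * I))) w := by
  set δ : ℝ := (π / 2 - |w.im|) / 3 with hδ
  have hδ0 : 0 < δ := by rw [hδ]; linarith
  have hc : ∀ z : ℂ, Continuous fun t : ℝ => gm t * exp (-z * ((1 / 2 : ℝ) + t * I)) :=
    fun z => gm_cont.mul (by fun_prop)
  refine (hasDerivAt_integral_of_dominated_loc_of_deriv_le (μ := volume)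
    (F := fun (z : ℂ) (t : ℝ) => gm t * exp (-z * ((1 / 2 : ℝ) + t * I)))
    (F' := fun (z : ℂ) (t : ℝ) =>
      gm t * exp (-z * ((1 / 2 : ℝ) + t * I)) * (-((1 / 2 : ℝ) + t * I)))
    (bound := fun t => 3 * Real.exp ((-w.re + δ) / 2) * (1 + 1 / δ) * Real.exp (-δ * |t|))
    (Metric.ball_mem_nhds w hδ0) (.of_forall fun z => (hc z).aestronglyMeasurable)
    (lap_mul hδ0 (hc w) (ker_le (by rw [hδ]; linarith)))
    ((hc w).mul (by fun_prop)).aestronglyMeasurable (.of_forall fun t z hz => ?_)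
    ((lap_int hδ0).const_mul _) (.of_forall fun t z _ => ?_)).2.differentiableAt
  · rw [Metric.mem_ball, dist_eq_norm] at hz
    have h1 := (abs_re_le_norm (z - w)).trans hz.le
    have h2 := (abs_im_le_norm (z - w)).trans hz.le
    rw [sub_re] at h1
    rw [sub_im] at h2
    have h3 : |z.im| ≤ π / 2 - 2 * δ := by
      have := abs_add_le (z.im - w.im) w.im
      rw [sub_add_cancel] at this
      linarith
    have h4 : ‖(-((1 / 2 : ℝ) + t * I) : ℂ)‖ ≤ (1 + 1 / δ) * Real.exp (δ * |t|) := by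
      rw [norm_neg]
      refine (norm_add_le _ _).trans ?_
      rw [norm_mul, norm_I, mul_one, norm_real, norm_real, Real.norm_eq_abs, Real.norm_eq_abs,
        abs_of_pos (by norm_num : (0 : ℝ) < 1 / 2)]
      have a1 := Real.add_one_le_exp (δ * |t|)
      have a2 : 0 ≤ δ * |t| := by positivity
      have a3 : |t| = 1 / δ * (δ * |t|) := by field_simp
      have a4 : 1 / δ * (δ * |t|) ≤ 1 / δ * Real.exp (δ * |t|) := by gcongr; linarith
      nlinarith
    rw [norm_mul]
    refine (mul_le_mul (ker_le h3 t) h4 (norm_nonneg _) (by positivity)).trans ?_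
    have h5 : Real.exp (-(2 * δ) * |t|) * Real.exp (δ * |t|) = Real.exp (-δ * |t|) := by
      rw [← Real.exp_add]; congr 1; ring
    have h6 : Real.exp (-z.re / 2) ≤ Real.exp ((-w.re + δ) / 2) :=
      Real.exp_le_exp.2 (by linarith [(abs_le.1 h1).1])
    calc _ = 3 * Real.exp (-z.re / 2) * (1 + 1 / δ) *
          (Real.exp (-(2 * δ) * |t|) * Real.exp (δ * |t|)) := by ring
      _ ≤ _ := by rw [h5]; gcongr
  · have h1 := (((hasDerivAt_id z).neg.mul_const (((1 / 2 : ℝ) : ℂ) + t * I)).cexp).const_mul (gm t)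
    refine HasDerivAt.congr_deriv h1 ?_
    simp only [id, Pi.neg_apply]
    ring

/-- The Cahen-Mellin integral. -/
theorem cahen {w : ℂ} (h : |w.im| < π / 2) : exp (-exp w) =
    (1 / (2 * π) : ℝ) * ∫ t : ℝ, gm t * exp (-w * ((1 / 2 : ℝ) + t * I)) := by
  have ho : IsOpen {z : ℂ | |z.im| < π / 2} := isOpen_lt (by fun_prop) continuous_const
  have hc : IsPreconnected {z : ℂ | |z.im| < π / 2} := by
    have : {z : ℂ | |z.im| < π / 2} = {z : ℂ | -(π / 2) < z.im} ∩ {z : ℂ | z.im < π / 2} := by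
      ext z; simp [abs_lt]
    rw [this]
    exact ((convex_halfSpace_im_gt _).inter (convex_halfSpace_im_lt _)).isPreconnected
  have h1 : AnalyticOnNhd ℂ (fun w : ℂ => exp (-exp w)) {z : ℂ | |z.im| < π / 2} :=
    (Differentiable.differentiableOn (by fun_prop)).analyticOnNhd ho
  have h2 : AnalyticOnNhd ℂ (fun w : ℂ => ((1 / (2 * π) : ℝ) : ℂ) *
      ∫ t : ℝ, gm t * exp (-w * ((1 / 2 : ℝ) + t * I))) {z : ℂ | |z.im| < π / 2} :=
    DifferentiableOn.analyticOnNhd
      (fun z hz => ((cahen_diff hz).const_mul _).differentiableWithinAt) ho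
  refine h1.eqOn_of_preconnected_of_frequently_eq h2 hc (z₀ := 0) (by simp [Real.pi_pos]) ?_ h
  have ht : Tendsto (fun x : ℝ => (x : ℂ)) (𝓝[≠] 0) (𝓝[≠] 0) := by
    refine tendsto_nhdsWithin_iff.2 ⟨?_, ?_⟩
    · exact (continuous_ofReal.tendsto' 0 0 (by simp)).mono_left nhdsWithin_le_nhds
    · filter_upwards [self_mem_nhdsWithin] with x hx
      simpa using hx
  exact ht.frequently (Eventually.of_forall cahen_real).frequently

/-- Fourier transform of the two sided exponential -/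
lemma lap_ft {δ : ℝ} (hδ : 0 < δ) (ξ : ℝ) :
    ∫ t : ℝ, (Real.exp (-δ * |t|) : ℂ) * exp (I * ξ * t) = (2 * δ / (δ ^ 2 + ξ ^ 2) : ℝ) := by
  have hi : Integrable fun t : ℝ => (Real.exp (-δ * |t|) : ℂ) * exp (I * ξ * t) :=
    lap_mul (K := 1) hδ (by fun_prop) fun t => by
      rw [norm_mul, norm_real, norm_exp, Real.norm_of_nonneg (Real.exp_pos _).le]
      simp
  rw [← setIntegral_univ, ← Iic_union_Ioi (a := (0 : ℝ)),
    setIntegral_union (Iic_disjoint_Ioi le_rfl) measurableSet_Ioi hi.integrableOn hi.integrableOn,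
    setIntegral_congr_fun (g := fun t : ℝ => exp ((δ + I * ξ) * t)) measurableSet_Iic
      (fun t ht => by
        simp only
        rw [abs_of_nonpos ht, ofReal_exp, ← exp_add]
        congr 1
        push_cast
        ring),
    setIntegral_congr_fun (g := fun t : ℝ => exp ((-δ + I * ξ) * t)) measurableSet_Ioi
      (fun t ht => by
        simp only
        rw [abs_of_pos ht, ofReal_exp, ← exp_add]
        congr 1
        push_cast
        ring),
    integral_exp_mul_complex_Iic (by simpa using hδ),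
    integral_exp_mul_complex_Ioi (by simpa using hδ)]
  have h1 : (δ + I * ξ : ℂ) ≠ 0 := fun h => by
    have := congrArg re h
    simp at this
    linarith
  have h2 : (-δ + I * ξ : ℂ) ≠ 0 := fun h => by
    have := congrArg re h
    simp at this
    linarith
  have h3 : (δ ^ 2 + ξ ^ 2 : ℂ) = -((δ + I * ξ) * (-δ + I * ξ)) := by
    linear_combination (ξ ^ 2 : ℂ) * I_sq
  push_cast
  rw [h3]
  simp only [mul_zero, exp_zero]
  field_simp
  ring

lemma gauss_ft {b : ℝ} (hb : 0 < b) (y : ℝ) :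
    ∫ t : ℝ, (Real.exp (-b * t ^ 2) : ℂ) * exp (I * y * t) =
      (√(π / b) * Real.exp (-y ^ 2 / (4 * b)) : ℝ) := by
  rw [Real.sqrt_eq_rpow]
  push_cast
  rw [ofReal_cpow (by positivity)]
  push_cast
  simp_rw [mul_comm (exp (-(b : ℂ) * _))]
  exact fourierIntegral_gaussian (b := b) hb y

/-- Gaussian weighted mean square of a Fourier integral -/
theorem gauss_bessel {b : ℝ} (hb : 0 < b) {G : ℝ → ℂ} (hG : Integrable G) :
    Integrable (fun ω : ℝ => Real.exp (-b * ω ^ 2) * ‖∫ t : ℝ, G t * exp (-(I * ω * t))‖ ^ 2) ∧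
    ∫ ω : ℝ, Real.exp (-b * ω ^ 2) * ‖∫ t : ℝ, G t * exp (-(I * ω * t))‖ ^ 2 ≤
      √(π / b) * ∫ s : ℝ, ∫ t : ℝ, ‖G t‖ * ‖G s‖ * Real.exp (-(t - s) ^ 2 / (4 * b)) := by
  have hn : ∀ x : ℝ, ‖exp (I * x)‖ = 1 := norm_exp_I_mul_ofReal
  have hGc : Integrable fun t => conj (G t) := (conjCLE.toContinuousLinearMap.integrable_comp hG :)
  have hP : Integrable (fun p : ℝ × ℝ => conj (G p.1) * G p.2) (volume.prod volume) :=
    hGc.mul_prod hG
  have e1 : ∀ ω : ℝ, ((Real.exp (-b * ω ^ 2) * ‖∫ t : ℝ, G t * exp (-(I * ω * t))‖ ^ 2 : ℝ) : ℂ) =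
      ∫ p : ℝ × ℝ, (Real.exp (-b * ω ^ 2) : ℂ) * exp (I * (p.1 - p.2 : ℝ) * ω) *
        (conj (G p.1) * G p.2) ∂(volume.prod volume) := by
    intro ω
    rw [ofReal_mul, ofReal_pow, ← conj_mul', ← integral_conj, ← integral_prod_mul,
      ← integral_const_mul]
    refine integral_congr_ae (.of_forall fun p => ?_)
    simp only [map_mul, ← exp_conj, map_neg, conj_I, conj_ofReal]
    have : exp (I * (p.1 - p.2 : ℝ) * ω) = exp (-(-I * ω * p.1)) * exp (-(I * ω * p.2)) := by
      rw [← exp_add]; congr 1; push_cast; ring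
    rw [this]
    ring
  have hI : Integrable (Function.uncurry fun (ω : ℝ) (p : ℝ × ℝ) =>
      (Real.exp (-b * ω ^ 2) : ℂ) * exp (I * (p.1 - p.2 : ℝ) * ω) * (conj (G p.1) * G p.2))
      (volume.prod (volume.prod volume)) := by
    have h0 := (integrable_exp_neg_mul_sq hb).ofReal (𝕜 := ℂ).mul_prod hP
    refine (h0.bdd_mul (c := 1) (f := fun x : ℝ × ℝ × ℝ => exp (I * (x.2.1 - x.2.2 : ℝ) * x.1))
      (Continuous.aestronglyMeasurable (by fun_prop)) (.of_forall fun x => ?_)).congr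
        (.of_forall fun x => ?_)
    · rw [mul_assoc, ← ofReal_mul, hn]
    · simp only [Function.uncurry, RCLike.ofReal_eq_complex_ofReal]
      ring
  have e0 := hI.integral_prod_left
  simp only [Function.uncurry, ← e1] at e0
  refine ⟨by simpa only [RCLike.re_to_complex, ofReal_re] using e0.re, ?_⟩
  have e2 := integral_integral_swap hI
  simp_rw [← e1, integral_mul_const, gauss_ft hb, integral_complex_ofReal] at e2
  have e3 := congrArg norm e2
  rw [norm_real, Real.norm_of_nonneg (integral_nonneg fun _ => by positivity)] at e3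
  rw [e3]
  have hQ : Integrable (fun p : ℝ × ℝ => ‖G p.2‖ * ‖G p.1‖ * Real.exp (-(p.2 - p.1) ^ 2 / (4 * b)))
      (volume.prod volume) := by
    refine ((hG.norm.mul_prod hG.norm).bdd_mul (c := 1)
      (f := fun p : ℝ × ℝ => Real.exp (-(p.2 - p.1) ^ 2 / (4 * b)))
      (Continuous.aestronglyMeasurable (by fun_prop)) (.of_forall fun x => ?_)).congr
        (.of_forall fun x => by simp only; ring)
    rw [Real.norm_of_nonneg (Real.exp_pos _).le, Real.exp_le_one_iff]
    exact div_nonpos_of_nonpos_of_nonneg (neg_nonpos.2 (sq_nonneg _)) (by positivity)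
  rw [← integral_prod _ hQ, ← integral_const_mul]
  refine norm_integral_le_of_norm_le (hQ.const_mul _) (.of_forall fun p => le_of_eq ?_)
  rw [norm_mul, norm_mul, norm_real, RCLike.norm_conj, Real.norm_of_nonneg (by positivity),
    show (p.1 - p.2) ^ 2 = (p.2 - p.1) ^ 2 by ring]
  ring

end Pool.Agent.Lib.MP_68a45e_nt.CT2
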