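import Mathlib

/-! The joint count behind the Type II bound. -/

namespace Pool.Agent.Lib.MP_68a45e_nt.CT2

open Finset

/-- Gaussian kernel -/
noncomputable def gs (U x : ℝ) : ℝ := Real.exp (-(U ^ 2 * x ^ 2 / 2))

/-- Poisson kernel -/
noncomputable def lp (δ x : ℝ) : ℝ := 2 * δ / (δ ^ 2 + x ^ 2)

/-- the Poisson kernel on the nonzero integers -/
noncomputable def kz (s : ℝ) (j : ℤ) : ℝ := if j = 0 then 0 else s / (s ^ 2 + (j : ℝ) ^ 2)

lemma kz_nonneg {s : ℝ} (hs : 0 < s) (j : ℤ) : 0 ≤ kz s j := by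
  unfold kz
  split_ifs <;> positivity

lemma lp_nonneg {δ : ℝ} (hδ : 0 < δ) (x : ℝ) : 0 ≤ lp δ x := by
  unfold lp
  positivity

lemma sum_kz {s : ℝ} (hs : 0 < s) (T : Finset ℤ) : ∑ j ∈ T, kz s j ≤ 4 := by
  have h : ∀ K : ℕ, ∑ j ∈ Icc (-(K : ℤ)) K, kz s j ≤ 4 - 4 * s / (s + K) := by
    intro K
    induction K with
    | zero =>
      simp only [kz, Nat.cast_zero, neg_zero, Icc_self, sum_singleton, if_true, add_zero]
      rw [mul_div_assoc, div_self hs.ne']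
      norm_num
    | succ K ih =>
      have e : Icc (-((K + 1 : ℕ) : ℤ)) ((K + 1 : ℕ) : ℤ) =
          insert ((K : ℤ) + 1) (insert (-((K : ℤ) + 1)) (Icc (-(K : ℤ)) K)) := by
        ext j
        simp only [mem_Icc, mem_insert]
        omega
      rw [e, sum_insert (by simp only [mem_Icc, mem_insert]; omega),
        sum_insert (by simp only [mem_Icc]; omega), kz, kz, if_neg (by omega), if_neg (by omega)]
      push_cast
      have hK : (0 : ℝ) ≤ K := K.cast_nonneg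
      have h1 : s / (s ^ 2 + ((K : ℝ) + 1) ^ 2) ≤ 2 * s / (s + K) - 2 * s / (s + (K + 1)) := by
        rw [div_sub_div _ _ (by positivity) (by positivity), div_le_div_iff₀ (by positivity)
          (by positivity)]
        have : (s + K) * (s + (K + 1)) ≤ 2 * (s ^ 2 + ((K : ℝ) + 1) ^ 2) := by
          nlinarith [sq_nonneg (s - (K + 1))]
        nlinarith
      rw [neg_sq]
      have h2 : 4 * s / (s + K) = 2 * (2 * s / (s + K)) := by ring
      have h3 : 4 * s / (s + (K + 1)) = 2 * (2 * s / (s + (K + 1))) := by ring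
      linarith
  refine (sum_le_sum_of_subset_of_nonneg (t := Icc (-((T.sup Int.natAbs : ℕ) : ℤ))
    (T.sup Int.natAbs : ℕ)) (fun j hj => ?_) fun j _ _ => kz_nonneg hs j).trans ((h _).trans ?_)
  · have := le_sup (f := Int.natAbs) hj
    rw [mem_Icc]
    omega
  · have : 0 ≤ 4 * s / (s + (T.sup Int.natAbs : ℕ)) := by positivity
    linarith

lemma sum_lp {δ R : ℝ} (hδ : 0 < δ) (hR : 0 < R) (T : Finset ℤ) :
    ∑ j ∈ T, lp δ (j / R) ≤ 2 / δ + 8 * R := by
  have h : ∀ j ∈ T, lp δ (j / R) = (if j = 0 then 2 / δ else 0) + 2 * R * kz (δ * R) j := by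
    intro j _
    unfold lp kz
    split_ifs with h
    · subst h
      simp only [Int.cast_zero, zero_div]
      field_simp
      ring
    · field_simp
      ring
  rw [sum_congr rfl h, sum_add_distrib, ← mul_sum, sum_ite_eq']
  have h1 := sum_kz (mul_pos hδ hR) T
  have h2 : 0 ≤ 2 / δ := by positivity
  split_ifs <;> nlinarith

lemma log_gap {x y R : ℝ} (hx : 0 < x) (hy : 0 < y) (h1 : x ≤ R) (h2 : y ≤ R) :
    ((x - y) / R) ^ 2 ≤ (Real.log x - Real.log y) ^ 2 := by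
  wlog h : y ≤ x generalizing x y
  · have := this hy hx h2 h1 (not_le.1 h).le
    rw [← neg_sub y x, ← neg_sub (Real.log y), neg_div, neg_sq, neg_sq]
    exact this
  have hR : 0 < R := hx.trans_le h1
  have h3 := Real.one_sub_inv_le_log_of_pos (div_pos hx hy)
  rw [Real.log_div hx.ne' hy.ne', inv_div] at h3
  have h4 : (x - y) / R ≤ (x - y) / x := by gcongr
  rw [sub_div x y x, div_self hx.ne'] at h4
  exact pow_le_pow_left₀ (div_nonneg (by linarith) hR.le) (h4.trans h3) 2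

lemma lp_le {δ x y : ℝ} (hδ : 0 < δ) (h : x ^ 2 ≤ y ^ 2) : lp δ y ≤ lp δ x := by
  unfold lp
  gcongr

lemma mem_box {N n : ℕ} (h : n ∈ Ioc N (2 * N)) : (0 : ℝ) < n ∧ (n : ℝ) ≤ 2 * N ∧ (N : ℝ) ≤ n := by
  rw [mem_Ioc] at h
  exact ⟨by exact_mod_cast (Nat.zero_le N).trans_lt h.1, by exact_mod_cast h.2,
    by exact_mod_cast h.1.le⟩

lemma schur {δ : ℝ} (hδ : 0 < δ) {M : ℕ} (hM : 1 ≤ M) (b : ℕ → ℝ) :
    ∑ y ∈ Ioc M (2 * M) ×ˢ Ioc M (2 * M), b y.1 * b y.2 * lp δ (Real.log y.1 - Real.log y.2) ≤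
      (2 / δ + 16 * M) * ∑ m ∈ Ioc M (2 * M), b m ^ 2 := by
  have hR : (0 : ℝ) < 2 * M := by positivity
  have h1 : ∀ m ∈ Ioc M (2 * M), ∑ m' ∈ Ioc M (2 * M), lp δ (Real.log m - Real.log m') ≤
      2 / δ + 16 * M := by
    intro m hm
    have h2 := sum_lp hδ hR ((Ioc M (2 * M)).image fun m' : ℕ => (m : ℤ) - m')
    rw [sum_image (fun x _ y _ h => by simpa using h)] at h2
    refine (sum_le_sum fun m' hm' => ?_).trans (h2.trans (by linarith))
    push_cast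
    exact lp_le hδ (log_gap (mem_box hm).1 (mem_box hm').1 (mem_box hm).2.1 (mem_box hm').2.1)
  have h2 : ∑ y ∈ Ioc M (2 * M) ×ˢ Ioc M (2 * M), b y.1 ^ 2 * lp δ (Real.log y.1 - Real.log y.2) ≤
      (2 / δ + 16 * M) * ∑ m ∈ Ioc M (2 * M), b m ^ 2 := by
    rw [sum_product, mul_sum]
    refine sum_le_sum fun m hm => ?_
    simp only
    rw [← mul_sum, mul_comm]
    exact mul_le_mul_of_nonneg_right (h1 m hm) (sq_nonneg _)
  have h3 : ∑ y ∈ Ioc M (2 * M) ×ˢ Ioc M (2 * M), b y.2 ^ 2 * lp δ (Real.log y.1 - Real.log y.2) =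
      ∑ y ∈ Ioc M (2 * M) ×ˢ Ioc M (2 * M), b y.1 ^ 2 * lp δ (Real.log y.1 - Real.log y.2) := by
    rw [sum_product, sum_product, sum_comm]
    refine sum_congr rfl fun m _ => sum_congr rfl fun m' _ => ?_
    simp only [lp]
    ring
  have h4 : 2 * ∑ y ∈ Ioc M (2 * M) ×ˢ Ioc M (2 * M),
      b y.1 * b y.2 * lp δ (Real.log y.1 - Real.log y.2) ≤
      ∑ y ∈ Ioc M (2 * M) ×ˢ Ioc M (2 * M), b y.1 ^ 2 * lp δ (Real.log y.1 - Real.log y.2) +
      ∑ y ∈ Ioc M (2 * M) ×ˢ Ioc M (2 * M), b y.2 ^ 2 * lp δ (Real.log y.1 - Real.log y.2) := by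
    rw [mul_sum, ← sum_add_distrib]
    refine sum_le_sum fun y _ => ?_
    nlinarith [mul_nonneg (sq_nonneg (b y.1 - b y.2)) (lp_nonneg hδ (Real.log y.1 - Real.log y.2))]
  linarith

/-- the off-diagonal count, by the divisor bound -/
lemma offd {δ s D : ℝ} (hδ : 0 < δ) (hs : 0 < s) {N M : ℕ} (hN : 1 ≤ N) (hM : 1 ≤ M)
    (hD : ∀ k : ℕ, k ≤ 16 * N * M → (k.divisors.card : ℝ) ≤ D) {m' : ℕ} (hm' : m' ∈ Ioc M (2 * M)) :
    ∑ z ∈ ((Ioc N (2 * N) ×ˢ Ioc N (2 * N)) ×ˢ Ioc M (2 * M)).filter (fun z => z.2 ≠ m'),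
      kz s ((z.1.2 : ℤ) - z.1.1) * lp δ ((((z.1.1 : ℤ) * z.2 - z.1.2 * m' : ℤ) : ℝ) / (4 * N * M)) ≤
      D * (4 * (2 / δ + 32 * N * M)) := by
  set S := ((Ioc N (2 * N) ×ˢ Ioc N (2 * N)) ×ˢ Ioc M (2 * M)).filter (fun z => z.2 ≠ m') with hS
  set φ : (ℕ × ℕ) × ℕ → ℤ × ℤ := fun z => ((z.1.2 : ℤ) - z.1.1, (z.1.1 : ℤ) * z.2 - z.1.2 * m')
    with hφ
  have hR : (0 : ℝ) < 4 * N * M := by positivity
  have hD0 : 0 ≤ D := (Nat.cast_nonneg _).trans (hD 0 (Nat.zero_le _))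
  have e := sum_comp (s := S) (fun p : ℤ × ℤ => kz s p.1 * lp δ (p.2 / (4 * N * M))) φ
  refine e.le.trans ?_
  have h0 : ∀ p : ℤ × ℤ, 0 ≤ kz s p.1 * lp δ (p.2 / (4 * N * M)) := fun p =>
    mul_nonneg (kz_nonneg hs _) (lp_nonneg hδ _)
  have h1 : ∀ p ∈ S.image φ, ((S.filter fun z => φ z = p).card : ℝ) ≤ D := by
    intro p hp
    have key : ∀ z ∈ S.filter fun z => φ z = p,
        (p.2 + p.1 * m').natAbs = z.1.1 * ((z.2 : ℤ) - m').natAbs := by
      intro z hz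
      rw [← (mem_filter.1 hz).2, hφ]
      simp only
      rw [show (z.1.1 : ℤ) * z.2 - z.1.2 * m' + (z.1.2 - z.1.1) * m' = z.1.1 * (z.2 - m') by ring,
        Int.natAbs_mul, Int.natAbs_natCast]
    obtain ⟨z0, hz0, hz1⟩ := mem_image.1 hp
    have k0 := key z0 (mem_filter.2 ⟨hz0, hz1⟩)
    simp only [hS, mem_filter, mem_product, mem_Ioc] at hz0
    rw [mem_Ioc] at hm'
    have k1 : (p.2 + p.1 * m').natAbs ≠ 0 := by
      rw [k0]
      exact mul_ne_zero (by omega) (by omega)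
    have k2 : (p.2 + p.1 * m').natAbs ≤ 16 * N * M := by
      rw [k0]
      exact Nat.mul_le_mul (by omega) (by omega)
    refine le_trans ?_ (hD _ k2)
    refine Nat.cast_le.2 (card_le_card_of_injOn (fun z => z.1.1) (fun z hz => ?_)
      fun z hz w hw h => ?_)
    · exact mem_coe.2 (Nat.mem_divisors.2 ⟨⟨_, key z hz⟩, k1⟩)
    · have a1 := (mem_filter.1 hz).2.trans (mem_filter.1 hw).2.symm
      have a0 := (mem_filter.1 hz).1
      simp only [hS, mem_filter, mem_product, mem_Ioc] at a0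
      simp only [hφ, Prod.mk.injEq] at a1 h
      have a2 : z.1.2 = w.1.2 := by omega
      have a4 := a1.2
      rw [← h, ← a2, sub_left_inj] at a4
      have a3 := mul_left_cancel₀ (show (z.1.1 : ℤ) ≠ 0 by omega) a4
      exact Prod.ext (Prod.ext h a2) (by exact_mod_cast a3)
  calc _ ≤ ∑ p ∈ S.image φ, D * (kz s p.1 * lp δ (p.2 / (4 * N * M))) :=
        sum_le_sum fun p hp => by
          rw [nsmul_eq_mul]
          exact mul_le_mul_of_nonneg_right (h1 p hp) (h0 p)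
    _ ≤ D * ∑ p ∈ (S.image φ).image Prod.fst ×ˢ (S.image φ).image Prod.snd,
          kz s p.1 * lp δ (p.2 / (4 * N * M)) := by
        rw [← mul_sum]
        exact mul_le_mul_of_nonneg_left
          (sum_le_sum_of_subset_of_nonneg subset_product fun p _ _ => h0 p) hD0
    _ ≤ _ := by
        rw [sum_product' (f := fun (h j : ℤ) => kz s h * lp δ (j / (4 * N * M))), ← sum_mul_sum]
        refine mul_le_mul_of_nonneg_left (mul_le_mul (sum_kz hs _)
          ((sum_lp hδ hR _).trans (by linarith)) (sum_nonneg fun _ _ => lp_nonneg hδ _)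
          (by norm_num)) hD0

/-- The joint count. -/
theorem cnt {δ U B D : ℝ} (hδ : 0 < δ) (hU : 0 < U) {N M : ℕ} (hN : 1 ≤ N) (hM : 1 ≤ M)
    (hD : ∀ k : ℕ, k ≤ 16 * N * M → (k.divisors.card : ℝ) ≤ D) {a b : ℕ → ℝ}
    (ha : ∀ n ∈ Ioc N (2 * N), 0 ≤ a n ∧ a n ≤ B) (hb : ∀ m ∈ Ioc M (2 * M), 0 ≤ b m ∧ b m ≤ B) :
    ∑ x ∈ Ioc N (2 * N) ×ˢ Ioc N (2 * N), ∑ y ∈ Ioc M (2 * M) ×ˢ Ioc M (2 * M),
      a x.1 * a x.2 * (b y.1 * b y.2) * (gs U (Real.log x.1 - Real.log x.2) *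
        lp δ (Real.log x.1 - Real.log x.2 + (Real.log y.1 - Real.log y.2))) ≤
      (4 / δ + 16 * N + 16 * M) * ((∑ n ∈ Ioc N (2 * N), a n ^ 2) * ∑ m ∈ Ioc M (2 * M), b m ^ 2) +
        B ^ 4 * D * (12 * N * M / U) * (2 / δ + 32 * N * M) := by
  have hs : (0 : ℝ) < 3 * N / U := by positivity
  have hp : ∀ x ∈ Ioc N (2 * N) ×ˢ Ioc N (2 * N), ∀ y ∈ Ioc M (2 * M) ×ˢ Ioc M (2 * M),
      a x.1 * a x.2 * (b y.1 * b y.2) * (gs U (Real.log x.1 - Real.log x.2) *
        lp δ (Real.log x.1 - Real.log x.2 + (Real.log y.1 - Real.log y.2))) ≤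
      (if x.1 = x.2 then a x.1 ^ 2 else 0) * (b y.1 * b y.2 * lp δ (Real.log y.1 - Real.log y.2)) +
      a x.1 * a x.2 * lp δ (Real.log x.1 - Real.log x.2) * (if y.1 = y.2 then b y.1 ^ 2 else 0) +
      B ^ 4 * (3 * N / U) * (if y.1 ≠ y.2 then kz (3 * N / U) ((x.2 : ℤ) - x.1) *
        lp δ ((((x.1 : ℤ) * y.1 - x.2 * y.2 : ℤ) : ℝ) / (4 * N * M)) else 0) := by
    rintro ⟨n, n'⟩ hx ⟨m, m'⟩ hy
    rw [mem_product] at hx hy
    obtain ⟨a1, a2⟩ := ha n hx.1
    obtain ⟨a3, a4⟩ := ha n' hx.2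
    obtain ⟨b1, b2⟩ := hb m hy.1
    obtain ⟨b3, b4⟩ := hb m' hy.2
    obtain ⟨n1, n2, -⟩ := mem_box hx.1
    obtain ⟨n3, n4, -⟩ := mem_box hx.2
    obtain ⟨m1, m2, -⟩ := mem_box hy.1
    obtain ⟨m3, m4, -⟩ := mem_box hy.2
    have l0 := lp_nonneg hδ
    have k0 := kz_nonneg hs
    have hB : 0 ≤ B := a1.trans a2
    simp only at *
    have t1 : 0 ≤ (if n = n' then a n ^ 2 else 0) *
        (b m * b m' * lp δ (Real.log m - Real.log m')) :=
      mul_nonneg (by split_ifs <;> positivity) (mul_nonneg (by positivity) (l0 _))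
    have t2 : 0 ≤ a n * a n' * lp δ (Real.log n - Real.log n') * (if m = m' then b m ^ 2 else 0) :=
      mul_nonneg (mul_nonneg (by positivity) (l0 _)) (by split_ifs <;> positivity)
    have t3 : 0 ≤ B ^ 4 * (3 * N / U) * (if m ≠ m' then kz (3 * N / U) ((n' : ℤ) - n) *
        lp δ ((((n : ℤ) * m - n' * m' : ℤ) : ℝ) / (4 * N * M)) else 0) := by
      refine mul_nonneg (by positivity) ?_
      split_ifs
      · exact mul_nonneg (k0 _) (l0 _)
      · exact le_rfl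
    by_cases h1 : n = n'
    · refine le_trans (le_of_eq ?_) (le_add_of_le_of_nonneg (le_add_of_nonneg_right t2) t3)
      subst h1
      simp only [gs, if_true, sub_self, zero_add]
      norm_num
      ring
    by_cases h2 : m = m'
    · refine le_trans ?_ (le_add_of_le_of_nonneg (le_add_of_nonneg_left t1) t3)
      subst h2
      have g1 : gs U (Real.log n - Real.log n') ≤ 1 :=
        Real.exp_le_one_iff.2 (neg_nonpos.2 (by positivity))
      rw [if_pos rfl, sub_self, add_zero]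
      nlinarith [mul_le_mul_of_nonneg_right g1 (mul_nonneg (by positivity : 0 ≤ a n * a n' *
        b m ^ 2) (l0 (Real.log n - Real.log n')))]
    refine le_trans ?_ (le_add_of_nonneg_left (add_nonneg t1 t2))
    rw [if_pos h2, kz, if_neg (by omega), mul_assoc (B ^ 4), ← mul_assoc (3 * N / U : ℝ)]
    have g0 : 0 ≤ gs U (Real.log n - Real.log n') := (Real.exp_pos _).le
    refine mul_le_mul ?_ (mul_le_mul ?_ (lp_le hδ ?_) (l0 _) (by positivity))
      (mul_nonneg g0 (l0 _)) (by positivity)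
    · calc _ ≤ B * B * (B * B) := by gcongr
        _ = _ := by ring
    · have c1 := log_gap n1 n3 n2 n4
      have c2 := Real.add_one_le_exp (U ^ 2 * (Real.log n - Real.log n') ^ 2 / 2)
      have hN0 : (0 : ℝ) < N := by positivity
      rw [gs, Real.exp_neg, ← mul_div_assoc, ← sq, inv_eq_one_div,
        div_le_div_iff₀ (Real.exp_pos _) (by positivity)]
      push_cast
      have c3 : ((n' : ℝ) - n) ^ 2 ≤
          (3 * N / U) ^ 2 * (U ^ 2 * (Real.log n - Real.log n') ^ 2 / 2) := by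
        rw [div_pow, div_le_iff₀ (by positivity)] at c1
        have : (3 * N / U : ℝ) ^ 2 * (U ^ 2 * (Real.log n - Real.log n') ^ 2 / 2) =
            9 / 8 * ((Real.log n - Real.log n') ^ 2 * (2 * N) ^ 2) := by
          field_simp
          ring
        nlinarith [sq_nonneg ((n : ℝ) - n')]
      nlinarith [mul_le_mul_of_nonneg_left c2 (sq_nonneg (3 * N / U : ℝ))]
    · have c1 := log_gap (R := 4 * N * M) (mul_pos n1 m1) (mul_pos n3 m3)
        (by nlinarith [mul_le_mul n2 m2 m1.le (by positivity)])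
        (by nlinarith [mul_le_mul n4 m4 m3.le (by positivity)])
      rw [Real.log_mul n1.ne' m1.ne', Real.log_mul n3.ne' m3.ne'] at c1
      push_cast
      refine c1.trans_eq ?_
      ring
  refine (sum_le_sum fun x hx => sum_le_sum fun y hy => hp x hx y hy).trans ?_
  simp only [sum_add_distrib]
  rw [← sum_mul_sum, ← sum_mul_sum]
  have d1 : ∀ (I : Finset ℕ) (f : ℕ → ℝ),
      ∑ x ∈ I ×ˢ I, (if x.1 = x.2 then f x.1 ^ 2 else 0) = ∑ n ∈ I, f n ^ 2 := by
    intro I f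
    rw [sum_product]
    exact sum_congr rfl fun n hn => by simp [hn]
  rw [d1, d1]
  have s1 := mul_le_mul_of_nonneg_left (schur hδ hM b)
    (sum_nonneg fun n _ => sq_nonneg (a n) : 0 ≤ ∑ n ∈ Ioc N (2 * N), a n ^ 2)
  have s2 := mul_le_mul_of_nonneg_right (schur hδ hN a)
    (sum_nonneg fun n _ => sq_nonneg (b n) : 0 ≤ ∑ n ∈ Ioc M (2 * M), b n ^ 2)
  have s3 : ∑ x ∈ Ioc N (2 * N) ×ˢ Ioc N (2 * N), ∑ y ∈ Ioc M (2 * M) ×ˢ Ioc M (2 * M),
      (if y.1 ≠ y.2 then kz (3 * N / U) ((x.2 : ℤ) - x.1) *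
        lp δ ((((x.1 : ℤ) * y.1 - x.2 * y.2 : ℤ) : ℝ) / (4 * N * M)) else 0) ≤
      M * (D * (4 * (2 / δ + 32 * N * M))) := by
    rw [sum_comm, sum_product_right]
    refine (sum_le_card_nsmul _ _ (D * (4 * (2 / δ + 32 * N * M))) fun m' hm' => ?_).trans_eq ?_
    · refine le_trans (le_of_eq ?_) (offd hδ hs hN hM hD hm')
      rw [sum_filter, sum_product_right]
    · rw [Nat.card_Ioc, nsmul_eq_mul, show 2 * M - M = M by omega]
  simp only [← mul_sum]
  have s4 := mul_le_mul_of_nonneg_left s3 (by positivity : 0 ≤ B ^ 4 * (3 * N / U))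
  refine (add_le_add (add_le_add s1 s2) s4).trans_eq ?_
  ring

end Pool.Agent.Lib.MP_68a45e_nt.CT2
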