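import Pool.Agent.Lib.MP_68a45e_nt.CT2a
import Pool.Agent.Lib.MP_68a45e_nt.CT2b

/-! The mean square of a damped bilinear sum along a ray. -/

namespace Pool.Agent.Lib.MP_68a45e_nt.CT2

open Complex Filter Topology MeasureTheory Finset
open scoped Real ComplexConjugate

lemma dbl {κ : Type*} (S : Finset κ) (γ : κ → ℂ) (ξ η : κ → ℝ) {δ U : ℝ} (hδ : 0 < δ) (hU : 0 < U)
    {g : ℝ → ℝ → ℝ} (g0 : ∀ s t, 0 ≤ g s t)
    (hg : ∀ s t, g s t ≤ Real.exp (-δ * |s|) * Real.exp (-(t - s) ^ 2 / (4 * (U ^ 2 / 2))) *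
      (∑ k ∈ S, γ k * exp (I * ξ k * t) * exp (I * η k * s)).re) :
    ∫ s, ∫ t, g s t ≤ √(2 * π) * U * ∑ k ∈ S, ‖γ k‖ * (gs U (ξ k) * lp δ (ξ k + η k)) := by
  have hb : 0 < 1 / (2 * U ^ 2) := by positivity
  have hn : ∀ x y : ℝ, ‖exp (I * x * y)‖ = 1 := fun x y => by
    rw [mul_assoc, ← ofReal_mul, norm_exp_I_mul_ofReal]
  set f : κ → ℝ → ℂ := fun k u => (Real.exp (-(1 / (2 * U ^ 2)) * u ^ 2) : ℂ) * exp (I * ξ k * u)
    with hf
  set l : κ → ℝ → ℂ := fun k s => (Real.exp (-δ * |s|) : ℂ) * exp (I * (ξ k + η k : ℝ) * s)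
    with hl
  have fi : ∀ k, Integrable (f k) := fun k =>
    ((integrable_exp_neg_mul_sq hb).ofReal (𝕜 := ℂ)).mul_bdd (c := 1)
      (Continuous.aestronglyMeasurable (by fun_prop)) (.of_forall fun u => (hn _ _).le)
  have fe : ∀ k, ∫ u, f k u = (√(2 * π) * U * gs U (ξ k) : ℝ) := by
    intro k
    rw [hf, gauss_ft hb, gs, show π / (1 / (2 * U ^ 2)) = 2 * π * U ^ 2 by field_simp,
      Real.sqrt_mul (by positivity), Real.sqrt_sq hU.le]
    congr 3
    field_simp
    ring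
  have li : ∀ k, Integrable (l k) := fun k => lap_mul (K := 1) hδ (by fun_prop) fun t => by
    simp only [hl]
    rw [norm_mul, hn, norm_real, Real.norm_of_nonneg (Real.exp_pos _).le, mul_comm]
  have h1 : ∀ s, ∫ t, g s t ≤
      (∑ k ∈ S, γ k * (√(2 * π) * U * gs U (ξ k) : ℝ) * l k s).re := by
    intro s
    have i1 : ∀ k ∈ S, Integrable fun t => γ k * l k s * f k (t - s) := fun k _ =>
      ((fi k).comp_sub_right s).const_mul _
    have i2 := integrable_finsetSum S i1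
    refine (integral_mono_of_nonneg (.of_forall (g0 s)) i2.re (.of_forall fun t => ?_)).trans_eq ?_
    · refine (hg s t).trans_eq ?_
      simp only [RCLike.re_to_complex]
      rw [← re_ofReal_mul, mul_sum]
      congr 1
      refine sum_congr rfl fun k _ => ?_
      have e : exp (I * ξ k * t) * exp (I * η k * s) =
          exp (I * (ξ k + η k : ℝ) * s) * exp (I * ξ k * (t - s : ℝ)) := by
        rw [← exp_add, ← exp_add]
        congr 1
        push_cast
        ring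
      simp only [hf, hl]
      rw [mul_assoc (γ k), e, show -(t - s) ^ 2 / (4 * (U ^ 2 / 2)) =
        -(1 / (2 * U ^ 2)) * (t - s) ^ 2 by field_simp; ring, ofReal_mul]
      ring
    · rw [integral_re i2, integral_finsetSum S i1]
      simp only [RCLike.re_to_complex]
      congr 1
      refine sum_congr rfl fun k _ => ?_
      rw [integral_const_mul, integral_sub_right_eq_self (f k) s, fe]
      ring
  have i3 : ∀ k ∈ S, Integrable fun s => γ k * (√(2 * π) * U * gs U (ξ k) : ℝ) * l k s :=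
    fun k _ => (li k).const_mul _
  have i4 := integrable_finsetSum S i3
  refine (integral_mono_of_nonneg (.of_forall fun s => integral_nonneg (g0 s)) i4.re
    (.of_forall h1)).trans ?_
  rw [integral_re i4, integral_finsetSum S i3, mul_sum]
  refine (re_le_norm _).trans ((norm_sum_le _ _).trans (sum_le_sum fun k _ => le_of_eq ?_))
  have g1 : 0 ≤ gs U (ξ k) := (Real.exp_pos _).le
  rw [integral_const_mul, hl, lap_ft hδ, norm_mul, norm_mul, norm_real, norm_real,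
    Real.norm_of_nonneg (by positivity), Real.norm_of_nonneg (by positivity), lp]
  ring

/-- Dirichlet polynomial on the critical line -/
noncomputable def dp (S : Finset ℕ) (a : ℕ → ℂ) (t : ℝ) : ℂ :=
  ∑ n ∈ S, a n * exp (-(Real.log n : ℂ) * ((1 / 2 : ℝ) + t * I))

/-- Gram coefficients -/
noncomputable def gr {ι : Type*} (R : Finset ι) (α : ι → ℕ → ℂ) (x : ℕ × ℕ) : ℂ :=
  (∑ r ∈ R, conj (α r x.1) * α r x.2) * (Real.exp (-(Real.log x.1 + Real.log x.2) / 2) : ℝ)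

lemma sq_exp {ι : Type*} (R : Finset ι) (α : ι → ℕ → ℂ) (S : Finset ℕ) (t : ℝ) :
    ((∑ r ∈ R, ‖dp S (α r) t‖ ^ 2 : ℝ) : ℂ) =
      ∑ x ∈ S ×ˢ S, gr R α x * exp (I * (Real.log x.1 - Real.log x.2 : ℝ) * t) := by
  simp only [ofReal_sum, ofReal_pow, ← conj_mul', dp, map_sum, sum_mul_sum]
  simp only [gr, sum_mul]
  rw [sum_comm (s := S ×ˢ S)]
  refine sum_congr rfl fun r _ => ?_
  rw [sum_product]
  refine sum_congr rfl fun n _ => sum_congr rfl fun n' _ => ?_
  simp only [map_mul, ← exp_conj, map_neg, map_add, conj_I, conj_ofReal, ofReal_exp]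
  rw [mul_mul_mul_comm, mul_assoc (_ * _), ← exp_add, ← exp_add]
  congr 2
  push_cast
  ring

lemma gr_le {ι : Type*} {R : Finset ι} {α : ι → ℕ → ℂ} {N : ℕ} {x : ℕ × ℕ} {c : ℝ} (hN : 1 ≤ N)
    (hx : x ∈ Ioc N (2 * N) ×ˢ Ioc N (2 * N)) (h : ‖∑ r ∈ R, conj (α r x.1) * α r x.2‖ ≤ c) :
    ‖gr R α x‖ ≤ c / N := by
  rw [mem_product] at hx
  have hN0 : (0 : ℝ) < N := by positivity
  have h1 := Real.log_le_log hN0 (mem_box hx.1).2.2
  have h2 := Real.log_le_log hN0 (mem_box hx.2).2.2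
  rw [gr, norm_mul, norm_real, Real.norm_of_nonneg (Real.exp_pos _).le, div_eq_mul_inv c]
  refine mul_le_mul h ?_ (Real.exp_pos _).le ((norm_nonneg _).trans h)
  rw [← Real.exp_log hN0, ← Real.exp_neg]
  exact Real.exp_le_exp.2 (by linarith)

theorem core {ι : Type*} (R : Finset ι) (α β : ι → ℕ → ℂ) {δ U B D q : ℝ} (x0 : ℝ) (hδ : 0 < δ)
    (hδ1 : δ ≤ 1) (hU : 0 < U) (hq : 0 ≤ q) {N M : ℕ} (hN : 1 ≤ N) (hM : 1 ≤ M)
    (hD : ∀ k : ℕ, k ≤ 16 * N * M → (k.divisors.card : ℝ) ≤ D) {a b : ℕ → ℝ}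
    (ha : ∀ n ∈ Ioc N (2 * N), 0 ≤ a n ∧ a n ≤ B) (hb : ∀ m ∈ Ioc M (2 * M), 0 ≤ b m ∧ b m ≤ B)
    (hα : ∀ x ∈ Ioc N (2 * N) ×ˢ Ioc N (2 * N),
      ‖∑ r ∈ R, conj (α r x.1) * α r x.2‖ ≤ a x.1 * a x.2)
    (hβ : ∀ y ∈ Ioc M (2 * M) ×ˢ Ioc M (2 * M),
      ‖∑ r ∈ R, conj (β r y.1) * β r y.2‖ ≤ q * (b y.1 * b y.2)) {F : ℝ → ℝ}
    (hF : ∀ ω : ℝ, F ω = Real.exp (-(U ^ 2 / 2) * ω ^ 2) * (Real.exp ω *
      ‖∑ n ∈ Ioc N (2 * N), ∑ m ∈ Ioc M (2 * M), (∑ r ∈ R, α r n * β r m) *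
        exp (-exp ((x0 + ω + Real.log n + Real.log m : ℝ) - (π / 2 - δ : ℝ) * I))‖ ^ 2)) :
    Integrable F ∧ ∫ ω, F ω ≤ Real.exp (-x0) * q / (N * M) * (2 * ((4 / δ + 16 * N + 16 * M) *
      ((∑ n ∈ Ioc N (2 * N), a n ^ 2) * ∑ m ∈ Ioc M (2 * M), b m ^ 2) +
        B ^ 4 * D * (12 * N * M / U) * (2 / δ + 32 * N * M))) := by
  have hπ := Real.pi_gt_three
  set w : ℂ := (x0 : ℂ) - (π / 2 - δ : ℝ) * I with hw
  have w1 : |w.im| ≤ π / 2 - δ := by
    have : w.im = -(π / 2 - δ) := by simp [hw]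
    rw [this, abs_neg, abs_of_nonneg (by linarith)]
  have w2 : w.re = x0 := by simp [hw]
  set E : ℝ → ℂ := fun t => ∑ r ∈ R, dp (Ioc N (2 * N)) (α r) t * dp (Ioc M (2 * M)) (β r) t
    with hE
  set G : ℝ → ℂ := fun t => gm t * exp (-w * ((1 / 2 : ℝ) + t * I)) * E t with hG
  have ti : ∀ (z : ℂ) (x : ℝ), Integrable fun t : ℝ =>
      z * (gm t * exp (-(w + x) * ((1 / 2 : ℝ) + t * I))) := fun z x =>
    (lap_mul hδ (gm_cont.mul (by fun_prop)) (ker_le (w := w + x) (by simpa using w1))).const_mul z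
  have ge : ∀ ω t : ℝ, G t * exp (-(ω : ℂ) * ((1 / 2 : ℝ) + t * I)) =
      ∑ n ∈ Ioc N (2 * N), ∑ m ∈ Ioc M (2 * M), (∑ r ∈ R, α r n * β r m) *
        (gm t * exp (-(w + (ω + Real.log n + Real.log m : ℝ)) * ((1 / 2 : ℝ) + t * I))) := by
    intro ω t
    simp only [hG, hE, dp, sum_mul_sum]
    simp only [sum_mul, mul_sum]
    rw [sum_comm]
    refine sum_congr rfl fun n _ => ?_
    rw [sum_comm]
    refine sum_congr rfl fun m _ => sum_congr rfl fun r _ => ?_
    rw [show -(w + (ω + Real.log n + Real.log m : ℝ)) * ((1 / 2 : ℝ) + t * I : ℂ) =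
      -w * ((1 / 2 : ℝ) + t * I) + -(ω : ℂ) * ((1 / 2 : ℝ) + t * I) +
      -(Real.log n : ℂ) * ((1 / 2 : ℝ) + t * I) + -(Real.log m : ℂ) * ((1 / 2 : ℝ) + t * I) by
        push_cast; ring, exp_add, exp_add, exp_add]
    ring
  have gi : Integrable G := by
    refine (integrable_finsetSum (Ioc N (2 * N)) fun n _ => integrable_finsetSum (Ioc M (2 * M))
      fun m _ => ti (∑ r ∈ R, α r n * β r m) (0 + Real.log n + Real.log m)).congr
        (.of_forall fun t => ?_)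
    have := ge 0 t
    simp only [ofReal_zero, neg_zero, zero_mul, exp_zero, mul_one] at this
    exact this.symm
  have fe : F = fun ω => 1 / (2 * π) ^ 2 * (Real.exp (-(U ^ 2 / 2) * ω ^ 2) *
      ‖∫ t : ℝ, G t * exp (-(I * ω * t))‖ ^ 2) := by
    funext ω
    have e1 : ∑ n ∈ Ioc N (2 * N), ∑ m ∈ Ioc M (2 * M), (∑ r ∈ R, α r n * β r m) *
        exp (-exp ((x0 + ω + Real.log n + Real.log m : ℝ) - (π / 2 - δ : ℝ) * I)) =
        (1 / (2 * π) * Real.exp (-ω / 2) : ℝ) * ∫ t : ℝ, G t * exp (-(I * ω * t)) := by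
      have e2 : ∀ t : ℝ, (Real.exp (-ω / 2) : ℂ) * (G t * exp (-(I * ω * t))) =
          G t * exp (-(ω : ℂ) * ((1 / 2 : ℝ) + t * I)) := by
        intro t
        rw [mul_left_comm, ofReal_exp, ← exp_add]
        congr 2
        push_cast
        ring
      rw [ofReal_mul, mul_assoc, ← integral_const_mul]
      simp_rw [e2, ge]
      rw [integral_finsetSum _ fun n _ => integrable_finsetSum _ fun m _ => ti _ _, mul_sum]
      refine sum_congr rfl fun n _ => ?_
      rw [integral_finsetSum _ fun m _ => ti _ _, mul_sum]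
      refine sum_congr rfl fun m _ => ?_
      rw [integral_const_mul, mul_left_comm, ← cahen (w := w + (ω + Real.log n + Real.log m : ℝ))
        (by rw [add_im, ofReal_im, add_zero]; linarith), hw]
      congr 4
      push_cast
      ring
    have e3 : Real.exp ω * Real.exp (-ω / 2) ^ 2 = 1 := by
      rw [← Real.exp_nat_mul, ← Real.exp_add, ← Real.exp_zero]
      congr 1
      push_cast
      ring
    rw [hF, e1, norm_mul, norm_real, Real.norm_of_nonneg (by positivity)]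
    linear_combination (1 / (2 * π) ^ 2 * (Real.exp (-(U ^ 2 / 2) * ω ^ 2) *
      ‖∫ t : ℝ, G t * exp (-(I * ω * t))‖ ^ 2)) * e3
  obtain ⟨b1, b2⟩ := gauss_bessel (b := U ^ 2 / 2) (by positivity) gi
  refine ⟨fe ▸ b1.const_mul _, ?_⟩
  set P : ℝ → ℝ := fun t => ∑ r ∈ R, ‖dp (Ioc N (2 * N)) (α r) t‖ ^ 2 with hP
  set Q : ℝ → ℝ := fun t => ∑ r ∈ R, ‖dp (Ioc M (2 * M)) (β r) t‖ ^ 2 with hQ
  have P0 : ∀ t, 0 ≤ P t := fun t => sum_nonneg fun _ _ => sq_nonneg _
  have Q0 : ∀ t, 0 ≤ Q t := fun t => sum_nonneg fun _ _ => sq_nonneg _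
  have E1 : ∀ t, ‖E t‖ ^ 2 ≤ P t * Q t := fun t =>
    (pow_le_pow_left₀ (norm_nonneg _) ((norm_sum_le _ _).trans_eq
      (sum_congr rfl fun _ _ => norm_mul _ _)) 2).trans (sum_mul_sq_le_sq_mul_sq _ _ _)
  have E2 : ∀ s t, ‖E t‖ * ‖E s‖ ≤ (P t * Q s + P s * Q t) / 2 := by
    intro s t
    have := mul_nonneg (P0 t) (Q0 s)
    have := mul_nonneg (P0 s) (Q0 t)
    refine (pow_le_pow_iff_left₀ (by positivity) (by positivity) two_ne_zero).1 ?_
    nlinarith [mul_le_mul (E1 t) (E1 s) (sq_nonneg _) (mul_nonneg (P0 t) (Q0 t)),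
      sq_nonneg (P t * Q s - P s * Q t)]
  set Z := (Ioc N (2 * N) ×ˢ Ioc N (2 * N)) ×ˢ (Ioc M (2 * M) ×ˢ Ioc M (2 * M)) with hZ
  set γ : (ℕ × ℕ) × ℕ × ℕ → ℂ := fun z => (9 / 2 * Real.exp (-x0) : ℝ) * (gr R α z.1 * gr R β z.2)
    with hγ
  have b3 := dbl (Z.disjSum Z) (Sum.elim γ γ)
    (Sum.elim (fun z => Real.log z.1.1 - Real.log z.1.2) fun z => Real.log z.2.1 - Real.log z.2.2)
    (Sum.elim (fun z => Real.log z.2.1 - Real.log z.2.2) fun z => Real.log z.1.1 - Real.log z.1.2)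
    hδ hU (g := fun s t => ‖G t‖ * ‖G s‖ * Real.exp (-(t - s) ^ 2 / (4 * (U ^ 2 / 2))))
    (fun s t => by positivity) (fun s t => by
      have e1 : ∀ s t : ℝ, ∑ z ∈ Z, γ z * (exp (I * (Real.log z.1.1 - Real.log z.1.2 : ℝ) * t) *
          exp (I * (Real.log z.2.1 - Real.log z.2.2 : ℝ) * s)) =
          (9 / 2 * Real.exp (-x0) * (P t * Q s) : ℝ) := by
        intro s t
        rw [ofReal_mul (_ * _), ofReal_mul (P t), sq_exp, sq_exp, sum_mul_sum, hZ, sum_product,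
          mul_sum]
        refine sum_congr rfl fun x _ => ?_
        rw [mul_sum]
        refine sum_congr rfl fun y _ => ?_
        simp only [hγ]
        ring
      simp only [sum_disjSum, Sum.elim_inl, Sum.elim_inr, mul_assoc (γ _)]
      rw [e1, sum_congr rfl fun z _ => congrArg (γ z * ·) (mul_comm _ _), e1, ← ofReal_add,
        ofReal_re]
      have k1 := ker_le w1 t
      have k2 := ker_le w1 s
      have k3 : Real.exp (-δ * |t|) ≤ 1 :=
        Real.exp_le_one_iff.2 (by nlinarith [abs_nonneg t])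
      have k4 : Real.exp (-w.re / 2) * Real.exp (-w.re / 2) = Real.exp (-x0) := by
        rw [← Real.exp_add, w2]
        congr 1
        ring
      simp only [hG]
      rw [norm_mul _ (E t), norm_mul _ (E s), mul_mul_mul_comm, mul_right_comm (Real.exp _)]
      refine mul_le_mul_of_nonneg_right ?_ (Real.exp_pos _).le
      refine (mul_le_mul (mul_le_mul (k1.trans (mul_le_of_le_one_right (by positivity) k3)) k2
        (norm_nonneg _) (by positivity)) (E2 s t) (by positivity) (by positivity)).trans_eq ?_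
      rw [← k4]
      ring)
  have c1 := cnt hδ hU hN hM hD ha hb
  have c2 := cnt hδ hU hM hN (fun k hk => hD k (by rwa [mul_right_comm])) hb ha
  rw [sum_comm] at c2
  have hN0 : (0 : ℝ) < N := by positivity
  have hM0 : (0 : ℝ) < M := by positivity
  have γ1 : ∀ x ∈ Ioc N (2 * N) ×ˢ Ioc N (2 * N), ∀ y ∈ Ioc M (2 * M) ×ˢ Ioc M (2 * M),
      ‖γ (x, y)‖ ≤ 9 / 2 * (Real.exp (-x0) * q / (N * M)) * (a x.1 * a x.2 * (b y.1 * b y.2)) := by
    intro x hx y hy
    simp only [hγ]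
    rw [norm_mul, norm_mul, norm_real, Real.norm_of_nonneg (by positivity)]
    refine (mul_le_mul_of_nonneg_left (mul_le_mul (gr_le hN hx (hα x hx)) (gr_le hM hy (hβ y hy))
      (norm_nonneg _) (div_nonneg ((norm_nonneg _).trans (hα x hx)) hN0.le))
      (by positivity)).trans_eq ?_
    field_simp
  have gl : ∀ x y : ℝ, 0 ≤ gs U x * lp δ y := fun x y =>
    mul_nonneg (Real.exp_pos _).le (lp_nonneg hδ _)
  simp only [sum_disjSum, Sum.elim_inl, Sum.elim_inr] at b3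
  rw [hZ, sum_product (_ ×ˢ _), sum_product (_ ×ˢ _)] at b3
  set K := (4 / δ + 16 * N + 16 * M) *
      ((∑ n ∈ Ioc N (2 * N), a n ^ 2) * ∑ m ∈ Ioc M (2 * M), b m ^ 2) +
        B ^ 4 * D * (12 * N * M / U) * (2 / δ + 32 * N * M) with hK
  have c0 : 0 ≤ Real.exp (-x0) * q / (N * M) := by positivity
  have b4 := b3.trans (mul_le_mul_of_nonneg_left (add_le_add
    (b := 9 / 2 * (Real.exp (-x0) * q / (N * M)) * K)
    (d := 9 / 2 * (Real.exp (-x0) * q / (N * M)) * K) (by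
      refine le_trans ?_ (mul_le_mul_of_nonneg_left c1 (by positivity))
      simp only [mul_sum]
      exact sum_le_sum fun x hx => sum_le_sum fun y hy =>
        (mul_le_mul_of_nonneg_right (γ1 x hx y hy) (gl _ _)).trans_eq (by ring)) (by
      refine le_trans ?_ (mul_le_mul_of_nonneg_left (c2.trans_eq (by rw [hK]; ring))
        (by positivity))
      simp only [mul_sum]
      exact sum_le_sum fun x hx => sum_le_sum fun y hy =>
        (mul_le_mul_of_nonneg_right (γ1 x hx y hy) (gl _ _)).trans_eq (by ring))) (by positivity))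
  have K0 : 0 ≤ K := le_trans (sum_nonneg fun x hx => sum_nonneg fun y hy => mul_nonneg
    (mul_nonneg (mul_nonneg (ha _ (mem_product.1 hx).1).1 (ha _ (mem_product.1 hx).2).1)
      (mul_nonneg (hb _ (mem_product.1 hy).1).1 (hb _ (mem_product.1 hy).2).1)) (gl _ _)) c1
  have s1 : √(π / (U ^ 2 / 2)) * (√(2 * π) * U) = 2 * π := by
    rw [show π / (U ^ 2 / 2) = 2 * π / U ^ 2 by field_simp, Real.sqrt_div (by positivity),
      Real.sqrt_sq hU.le]
    have := Real.mul_self_sqrt (by positivity : 0 ≤ 2 * π)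
    field_simp
    linarith
  rw [fe, integral_const_mul]
  refine (mul_le_mul_of_nonneg_left (b2.trans (mul_le_mul_of_nonneg_left b4 (by positivity)))
    (by positivity)).trans ?_
  rw [← mul_assoc (√_), s1]
  calc _ = 9 / (2 * π) * (Real.exp (-x0) * q / (N * M) * K) := by field_simp; ring
    _ ≤ 2 * (Real.exp (-x0) * q / (N * M) * K) := by
        refine mul_le_mul_of_nonneg_right ?_ (mul_nonneg c0 K0)
        rw [div_le_iff₀ (by positivity)]
        linarith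
    _ = _ := by ring

end Pool.Agent.Lib.MP_68a45e_nt.CT2
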