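import Pool.Agent.Lib.MP_68a45e_nt.CTel2
import Pool.Agent.Lib.MP_68a45e_nt.AvDef

/-! Replacement of a function by a model in almost all correlations. -/

namespace Pool.Agent.Lib.MP_68a45e_nt.Av

open Finset

theorem tel : Tel := by
  intro k
  refine ⟨192 * 4 ^ k, fun X L H x f g B δ b hk hL hLH hx hb hB hf hW => ?_⟩
  have hHX : H ≤ X := le_trans (Nat.le_add_left _ _) (hb ⟨0, hk⟩)
  have h1 := CTel.telF (A := 1) (Y := 2 * X) (x := x) (a0 := 1) (b0 := 0) (fun _ => 1) b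
    (lt_of_lt_of_le one_pos hB) hL hLH le_rfl le_rfl (fun _ => ⟨le_rfl, le_rfl⟩) (by omega)
    (fun i => by have := hb i; omega) hf hW
  simp only [one_mul, add_zero, Nat.cast_one, mul_one] at h1
  have hL' : (1 : ℝ) ≤ L := by exact_mod_cast hL
  have hX' : (1 : ℝ) ≤ X := by exact_mod_cast hL.trans (hLH.trans hHX)
  have h2 : (x : ℝ) + L ≤ 2 * X := by exact_mod_cast (by omega : x + L ≤ 2 * X)
  have h3 : 0 ≤ δ * L ^ 2 * X := le_trans (sum_nonneg fun _ _ => by positivity) (hW 0)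
  have h4 : δ * L ^ 2 * X + 8 * B ^ 2 * L ^ 3 ≤ 8 * (L ^ 2 * X * (δ + B ^ 2 * L / X)) := by
    have : (L : ℝ) ^ 2 * X * (δ + B ^ 2 * L / X) = δ * L ^ 2 * X + B ^ 2 * L ^ 3 := by
      field_simp
    rw [this]; linarith
  refine le_of_mul_le_mul_left (a := (L : ℝ) ^ 2) (h1.trans ?_) (by positivity)
  calc _ ≤ 12 * 4 ^ k * B ^ (2 * k) * (2 * X) * (8 * (L ^ 2 * X * (δ + B ^ 2 * L / X))) *
        (H : ℝ) ^ k := by gcongr
    _ = _ := by ring

end Pool.Agent.Lib.MP_68a45e_nt.Av
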