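import Pool.Agent.Lib.MP_68a45e_nt.CMin1

/-! The circle lemma: correlations on average over a short range of shifts are controlled by
the mean square of twisted sums over short windows. -/

namespace Pool.Agent.Lib.MP_68a45e_nt.CTel

open Finset Complex CMin

lemma dorth {N : ℕ} (hN : 0 < N) {d : ℤ} (hd : 2 * |d| ≤ N) :
    ∑ j ∈ Ioc 0 N, ee ((j : ℝ) / N * d) = if d = 0 then (N : ℂ) else 0 := by
  split_ifs with h
  · subst h; simp [ee_zero]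
  · have hN' : (0 : ℝ) < N := by exact_mod_cast hN
    have h1 := tele ((d : ℝ) / N) 0 N
    have h2 : ee ((d : ℝ) / N * (0 + N + 1 : ℕ)) = ee ((d : ℝ) / N * (0 + 1 : ℕ)) := by
      rw [← ee_add_int ((d : ℝ) / N * (0 + 1 : ℕ)) d]; congr 1; push_cast; field_simp; ring
    rw [h2, sub_self, zero_add] at h1
    have h3 : |(d : ℝ) / N| ≤ 1 / 2 := by
      rw [abs_div, abs_of_pos hN', div_le_iff₀ hN']
      have : (2 : ℝ) * |(d : ℝ)| ≤ N := by exact_mod_cast hd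
      linarith
    have h4 := one_sub_ee h3
    have h5 : 0 < |(d : ℝ) / N| := abs_pos.2 (div_ne_zero (by exact_mod_cast h) hN'.ne')
    have h6 : ee ((d : ℝ) / N) - 1 ≠ 0 := by
      intro h0; rw [h0, norm_zero] at h4; linarith
    rw [← (mul_eq_zero.1 h1).resolve_left h6]
    exact sum_congr rfl fun j _ => by congr 1; ring

lemma nsq (z : ℂ) : ((‖z‖ ^ 2 : ℝ) : ℂ) = z * (starRingEnd ℂ) z := by
  push_cast; rw [Complex.mul_conj']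

/-- Discrete Parseval identity. -/
lemma dpars {ι : Type} {N : ℕ} (hN : 0 < N) (s : Finset ι) (φ : ι → ℤ) (c : ι → ℂ)
    (inj : ∀ x ∈ s, ∀ y ∈ s, φ x = φ y → x = y) (hs : ∀ x ∈ s, ∀ y ∈ s, 2 * |φ x - φ y| ≤ N) :
    ∑ j ∈ Ioc 0 N, ‖∑ x ∈ s, c x * ee ((j : ℝ) / N * φ x)‖ ^ 2 = N * ∑ x ∈ s, ‖c x‖ ^ 2 := by
  classical
  apply Complex.ofReal_injective
  have h1 : ∀ j : ℕ, ((‖∑ x ∈ s, c x * ee ((j : ℝ) / N * φ x)‖ ^ 2 : ℝ) : ℂ) =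
      ∑ x ∈ s, ∑ y ∈ s, c x * (starRingEnd ℂ) (c y) * ee ((j : ℝ) / N * (φ x - φ y : ℤ)) := by
    intro j
    rw [nsq, map_sum, sum_mul_sum]
    refine sum_congr rfl fun x _ => sum_congr rfl fun y _ => ?_
    rw [map_mul, conj_ee, show (j : ℝ) / N * (φ x - φ y : ℤ) =
      (j : ℝ) / N * φ x + -((j : ℝ) / N * φ y) by push_cast; ring, ee_add]; ring
  rw [Complex.ofReal_sum, Complex.ofReal_mul, Complex.ofReal_sum, mul_sum]
  simp_rw [h1]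
  rw [sum_comm]
  refine sum_congr rfl fun x hx => ?_
  rw [sum_comm, sum_eq_single_of_mem x hx]
  · rw [← mul_sum, dorth hN (hs x hx x hx), if_pos (sub_self _), nsq]; push_cast; ring
  · intro y hy hne
    rw [← mul_sum, dorth hN (hs x hx y hy), if_neg, mul_zero]
    intro h0; exact hne (inj y hy x hx (sub_eq_zero.1 h0).symm)

/-- The Dirichlet kernel. -/
noncomputable def Dk (L : ℕ) (t : ℝ) : ℂ := ∑ u ∈ Ioc 0 L, ee (t * u)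

lemma Dk_neg (L : ℕ) (t : ℝ) : Dk L (-t) = (starRingEnd ℂ) (Dk L t) := by
  unfold Dk; rw [map_sum]
  exact sum_congr rfl fun u _ => by rw [conj_ee]; congr 1; ring

lemma norm_Dk (L : ℕ) (s t : ℝ) : ‖Dk L (s - t)‖ = ‖Dk L (t - s)‖ := by
  rw [← neg_sub t s, Dk_neg, Complex.norm_conj]

lemma fejer (J : Finset ℕ) (A : ℕ → ℂ) (θ : ℕ → ℝ) (L : ℕ) (h : ℤ) :
    ∑ u ∈ Ioc 0 L, ∑ v ∈ Ioc 0 L, ‖∑ j ∈ J, A j * ee (θ j * (-(h + u - v) : ℤ))‖ ^ 2 ≤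
      ∑ j ∈ J, ∑ i ∈ J, ‖A j‖ * ‖A i‖ * ‖Dk L (θ j - θ i)‖ ^ 2 := by
  have h1 : ((∑ u ∈ Ioc 0 L, ∑ v ∈ Ioc 0 L,
      ‖∑ j ∈ J, A j * ee (θ j * (-(h + u - v) : ℤ))‖ ^ 2 : ℝ) : ℂ) =
      ∑ j ∈ J, ∑ i ∈ J, A j * (starRingEnd ℂ) (A i) * ee ((θ i - θ j) * h) *
        (Dk L (-(θ j - θ i)) * Dk L (θ j - θ i)) := by
    have h2 : ∀ u v : ℕ, ((‖∑ j ∈ J, A j * ee (θ j * (-(h + u - v) : ℤ))‖ ^ 2 : ℝ) : ℂ) =
        ∑ j ∈ J, ∑ i ∈ J, A j * (starRingEnd ℂ) (A i) * ee ((θ i - θ j) * h) *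
          (ee (-(θ j - θ i) * u) * ee ((θ j - θ i) * v)) := by
      intro u v
      rw [nsq, map_sum, sum_mul_sum]
      refine sum_congr rfl fun j _ => sum_congr rfl fun i _ => ?_
      have : ee (θ j * (-(h + u - v) : ℤ)) * ee (-(θ i * (-(h + u - v) : ℤ))) =
          ee ((θ i - θ j) * h) * (ee (-(θ j - θ i) * u) * ee ((θ j - θ i) * v)) := by
        rw [← ee_add, ← ee_add, ← ee_add]; congr 1; push_cast; ring
      rw [map_mul, conj_ee, mul_assoc (A j * _), ← this]; ring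
    simp_rw [Complex.ofReal_sum, h2, Dk, sum_mul_sum, mul_sum]
    rw [sum_congr rfl fun u _ => sum_comm, sum_comm]
    refine sum_congr rfl fun j _ => ?_
    rw [sum_congr rfl fun u _ => sum_comm, sum_comm]
  have h3 := Complex.re_le_norm ((∑ u ∈ Ioc 0 L, ∑ v ∈ Ioc 0 L,
      ‖∑ j ∈ J, A j * ee (θ j * (-(h + u - v) : ℤ))‖ ^ 2 : ℝ) : ℂ)
  rw [Complex.ofReal_re, h1] at h3
  refine h3.trans ((norm_sum_le _ _).trans (sum_le_sum fun j _ =>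
    (norm_sum_le _ _).trans (sum_le_sum fun i _ => le_of_eq ?_)))
  rw [norm_mul, norm_mul, norm_mul, norm_mul, norm_ee, Dk_neg, Complex.norm_conj,
    Complex.norm_conj]; ring

lemma swap (J : Finset ℕ) (a b : ℕ → ℝ) (K : ℕ → ℕ → ℝ) (hK : ∀ i j, K i j = K j i)
    (h0 : ∀ i j, 0 ≤ K i j) :
    ∑ j ∈ J, ∑ i ∈ J, (a j * b j) * (a i * b i) * K j i ≤
      ∑ j ∈ J, a j ^ 2 * ∑ i ∈ J, b i ^ 2 * K j i := by
  have h1 : ∑ j ∈ J, ∑ i ∈ J, a i ^ 2 * (b j ^ 2 * K j i) =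
      ∑ j ∈ J, ∑ i ∈ J, a j ^ 2 * (b i ^ 2 * K j i) := by
    rw [sum_comm]
    exact sum_congr rfl fun j _ => sum_congr rfl fun i _ => by rw [hK]
  have h2 : ∑ j ∈ J, ∑ i ∈ J, 2 * ((a j * b j) * (a i * b i) * K j i) ≤
      ∑ j ∈ J, ∑ i ∈ J, (a j ^ 2 * (b i ^ 2 * K j i) + a i ^ 2 * (b j ^ 2 * K j i)) :=
    sum_le_sum fun j _ => sum_le_sum fun i _ => by
      nlinarith [mul_nonneg (sq_nonneg (a j * b i - a i * b j)) (h0 j i)]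
  simp_rw [sum_add_distrib] at h2
  rw [h1] at h2
  simp_rw [← mul_sum] at h2
  linarith

/-- The circle lemma with the Fejer weight. -/
theorem circ0 {ι : Type} (s : Finset ι) (φ : ι → ℤ) (G : ι → ℂ) (F : ℤ → ℂ) (t r : Finset ℤ)
    (L : ℕ) (h : ℤ) (M : ℝ) (inj : ∀ x ∈ s, ∀ y ∈ s, φ x = φ y → x = y)
    (hF : ∀ m, m ∉ t → F m = 0) (hr : ∀ m ∈ t, ∀ u ∈ Ioc 0 L, m - u ∈ r)
    (hM : ∀ al : ℝ, ∑ y ∈ r, ‖∑ u ∈ Ioc 0 L, F (y + u) * ee (al * (y + u : ℤ))‖ ^ 2 ≤ M) :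
    ∑ u ∈ Ioc 0 L, ∑ v ∈ Ioc 0 L, ‖∑ n ∈ s, G n * F (φ n + (h + u - v))‖ ^ 2 ≤
      (∑ n ∈ s, ‖G n‖ ^ 2) * M := by
  classical
  obtain ⟨R, hR⟩ := Finset.exists_le (((s.image φ ∪ t ∪ r).image fun x => x.natAbs))
  have hb : ∀ x ∈ s.image φ ∪ t ∪ r, |x| ≤ R := fun x hx => by
    have := hR _ (mem_image_of_mem _ hx); rw [abs_eq_max_neg]; omega
  have b1 : ∀ n ∈ s, |φ n| ≤ R := fun n hn => hb _ (by simp [mem_image_of_mem φ hn])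
  have b2 : ∀ m ∈ t, |m| ≤ R := fun m hm => hb _ (by simp [hm])
  have b3 : ∀ m ∈ r, |m| ≤ R := fun m hm => hb _ (by simp [hm])
  set N : ℕ := 4 * R + 2 * h.natAbs + 2 * L + 1 with hNd
  have hN : 0 < N := by omega
  have hN' : (0 : ℝ) < N := by exact_mod_cast hN
  set Gh : ℕ → ℂ := fun j => ∑ n ∈ s, G n * ee ((j : ℝ) / N * (-φ n : ℤ)) with hGh
  set Fh : ℕ → ℂ := fun j => ∑ m ∈ t, F m * ee ((j : ℝ) / N * m) with hFh
  have e1 : ∀ u ∈ Ioc 0 L, ∀ v ∈ Ioc 0 L, (N : ℂ) * ∑ n ∈ s, G n * F (φ n + (h + u - v)) =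
      ∑ j ∈ Ioc 0 N, (Gh j * Fh j) * ee ((j : ℝ) / N * (-(h + u - v) : ℤ)) := by
    intro u hu v hv
    have : ∀ j : ℕ, (Gh j * Fh j) * ee ((j : ℝ) / N * (-(h + u - v) : ℤ)) =
        ∑ n ∈ s, ∑ m ∈ t, G n * F m * ee ((j : ℝ) / N * (m - (φ n + (h + u - v)) : ℤ)) := by
      intro j
      simp only [hGh, hFh]
      rw [sum_mul_sum, sum_mul]
      refine sum_congr rfl fun n _ => ?_
      rw [sum_mul]
      refine sum_congr rfl fun m _ => ?_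
      rw [show (j : ℝ) / N * (m - (φ n + (h + u - v)) : ℤ) = (j : ℝ) / N * (-φ n : ℤ) +
        (j : ℝ) / N * m + (j : ℝ) / N * (-(h + u - v) : ℤ) by push_cast; ring, ee_add, ee_add]
      ring
    simp_rw [this]
    rw [sum_comm, mul_sum]
    refine sum_congr rfl fun n hn => ?_
    rw [sum_comm]
    have h2 : ∀ m ∈ t, ∑ j ∈ Ioc 0 N, G n * F m * ee ((j : ℝ) / N * (m - (φ n + (h + u - v)) : ℤ)) =
        if φ n + (h + u - v) = m then G n * F m * N else 0 := by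
      intro m hm
      have c1 := b1 n hn
      have c2 := b2 m hm
      rw [mem_Ioc] at hu hv
      rw [← mul_sum, dorth hN (by
        rw [abs_le] at c1 c2; rw [abs_eq_max_neg]; omega)]
      by_cases hc : φ n + (h + u - v) = m
      · rw [if_pos hc, if_pos (by omega)]
      · rw [if_neg hc, if_neg (by omega), mul_zero]
    rw [sum_congr rfl h2, sum_ite_eq]
    split_ifs with hc
    · ring
    · rw [hF _ hc]; ring
  have e2 : ∀ j : ℕ, ∑ i ∈ Ioc 0 N, ‖Fh i‖ ^ 2 * ‖Dk L ((j : ℝ) / N - (i : ℝ) / N)‖ ^ 2 ≤ N * M := by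
    intro j
    have h1 : ∀ i : ℕ, Fh i * Dk L ((j : ℝ) / N - (i : ℝ) / N) =
        ∑ y ∈ r, ((∑ u ∈ Ioc 0 L, F (y + u) * ee ((j : ℝ) / N * (y + u : ℤ))) *
          ee (-((j : ℝ) / N * y))) * ee ((i : ℝ) / N * y) := by
      intro i
      simp only [hFh, Dk]
      simp_rw [sum_mul]
      rw [sum_comm (s := r)]
      simp_rw [mul_sum]
      rw [sum_comm]
      refine sum_congr rfl fun u hu => ?_
      have h3 : ∑ m ∈ t, F m * ee ((i : ℝ) / N * m) * ee (((j : ℝ) / N - (i : ℝ) / N) * u) =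
          ∑ y ∈ t.image (fun m : ℤ => m - u), F (y + u) * ee ((j : ℝ) / N * (y + u : ℤ)) *
            ee (-((j : ℝ) / N * y)) * ee ((i : ℝ) / N * y) := by
        rw [sum_image fun a _ b _ hab => by simpa using hab]
        refine sum_congr rfl fun m _ => ?_
        rw [sub_add_cancel, mul_assoc, mul_assoc, mul_assoc, ← ee_add, ← ee_add, ← ee_add]
        congr 2; push_cast; ring
      rw [h3]
      refine sum_subset (fun y hy => ?_) fun y _ hy => ?_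
      · obtain ⟨m, hm, rfl⟩ := mem_image.1 hy; exact hr m hm u hu
      · rw [hF (y + u) fun hc => hy (mem_image.2 ⟨_, hc, by ring⟩)]; ring
    simp_rw [← mul_pow, ← norm_mul, h1]
    rw [dpars hN r (fun y => y) _ (fun _ _ _ _ h => h) fun x hx y hy => by
      have c1 := b3 x hx
      have c2 := b3 y hy
      rw [abs_le] at c1 c2; rw [abs_eq_max_neg]; omega]
    simp_rw [norm_mul, norm_ee, mul_one]
    exact mul_le_mul_of_nonneg_left (hM _) hN'.le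
  have e3 : ∑ j ∈ Ioc 0 N, ‖Gh j‖ ^ 2 = N * ∑ n ∈ s, ‖G n‖ ^ 2 :=
    dpars hN s (fun n => -φ n) G (fun x hx y hy h => inj x hx y hy (neg_injective h))
      fun x hx y hy => by
      have c1 := b1 x hx
      have c2 := b1 y hy
      rw [abs_le] at c1 c2; rw [abs_eq_max_neg]; omega
  have e4 := fejer (Ioc 0 N) (fun j => Gh j * Fh j) (fun j => (j : ℝ) / N) L h
  have e5 := swap (Ioc 0 N) (fun j => ‖Gh j‖) (fun j => ‖Fh j‖)
    (fun j i => ‖Dk L ((j : ℝ) / N - (i : ℝ) / N)‖ ^ 2) (fun i j => by rw [norm_Dk])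
    fun i j => by positivity
  have e6 : ∑ j ∈ Ioc 0 N, ‖Gh j‖ ^ 2 * ∑ i ∈ Ioc 0 N, ‖Fh i‖ ^ 2 *
      ‖Dk L ((j : ℝ) / N - (i : ℝ) / N)‖ ^ 2 ≤ (∑ j ∈ Ioc 0 N, ‖Gh j‖ ^ 2) * (N * M) := by
    rw [sum_mul]
    exact sum_le_sum fun j _ => mul_le_mul_of_nonneg_left (e2 j) (by positivity)
  have e7 : ∑ u ∈ Ioc 0 L, ∑ v ∈ Ioc 0 L, ‖∑ j ∈ Ioc 0 N, (Gh j * Fh j) *
      ee ((j : ℝ) / N * (-(h + u - v) : ℤ))‖ ^ 2 = (N : ℝ) ^ 2 *
      ∑ u ∈ Ioc 0 L, ∑ v ∈ Ioc 0 L, ‖∑ n ∈ s, G n * F (φ n + (h + u - v))‖ ^ 2 := by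
    simp_rw [mul_sum]
    refine sum_congr rfl fun u hu => sum_congr rfl fun v hv => ?_
    rw [← e1 u hu v hv, norm_mul, mul_pow, Complex.norm_natCast]
  simp only [norm_mul] at e4
  rw [e7] at e4
  rw [e3] at e6
  refine le_of_mul_le_mul_left (a := (N : ℝ) ^ 2) ?_ (by positivity)
  nlinarith [e4.trans (e5.trans e6)]

/-- The circle lemma for an interval of shifts. -/
theorem circ {ι : Type} (s : Finset ι) (φ : ι → ℤ) (G : ι → ℂ) (F : ℤ → ℂ) (t r : Finset ℤ)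
    (L H : ℕ) (b : ℤ) (M : ℝ) (hLH : L ≤ H) (inj : ∀ x ∈ s, ∀ y ∈ s, φ x = φ y → x = y)
    (hF : ∀ m, m ∉ t → F m = 0) (hr : ∀ m ∈ t, ∀ u ∈ Ioc 0 L, m - u ∈ r)
    (hM : ∀ al : ℝ, ∑ y ∈ r, ‖∑ u ∈ Ioc 0 L, F (y + u) * ee (al * (y + u : ℤ))‖ ^ 2 ≤ M) :
    (L : ℝ) ^ 2 * ∑ h ∈ Ioc b (b + H), ‖∑ n ∈ s, G n * F (φ n + h)‖ ^ 2 ≤
      3 * H * ((∑ n ∈ s, ‖G n‖ ^ 2) * M) := by
  have hM0 : 0 ≤ M := le_trans (sum_nonneg fun _ _ => by positivity) (hM 0)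
  have h1 : ∀ u ∈ Ioc 0 L, ∀ v ∈ Ioc 0 L,
      ∑ h ∈ Ioc b (b + H), ‖∑ n ∈ s, G n * F (φ n + h)‖ ^ 2 ≤
      ∑ h ∈ Ioc (b - H) (b + 2 * H), ‖∑ n ∈ s, G n * F (φ n + (h + u - v))‖ ^ 2 := by
    intro u hu v hv
    rw [mem_Ioc] at hu hv
    have : ∑ h ∈ Ioc b (b + H), ‖∑ n ∈ s, G n * F (φ n + h)‖ ^ 2 =
        ∑ h ∈ (Ioc b (b + H)).image (fun h : ℤ => h - u + v),
          ‖∑ n ∈ s, G n * F (φ n + (h + u - v))‖ ^ 2 := by
      rw [sum_image fun a _ b _ hab => by simpa using hab]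
      exact sum_congr rfl fun h _ => by rw [show h - u + v + u - v = h by ring]
    rw [this]
    refine sum_le_sum_of_subset_of_nonneg (fun y hy => ?_) fun _ _ _ => by positivity
    obtain ⟨h, hh, rfl⟩ := mem_image.1 hy
    rw [mem_Ioc] at hh ⊢; omega
  calc (L : ℝ) ^ 2 * ∑ h ∈ Ioc b (b + H), ‖∑ n ∈ s, G n * F (φ n + h)‖ ^ 2
      = ∑ u ∈ Ioc 0 L, ∑ v ∈ Ioc 0 L, ∑ h ∈ Ioc b (b + H), ‖∑ n ∈ s, G n * F (φ n + h)‖ ^ 2 := by
        simp [sq, mul_assoc]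
    _ ≤ ∑ u ∈ Ioc 0 L, ∑ v ∈ Ioc 0 L, ∑ h ∈ Ioc (b - H) (b + 2 * H),
          ‖∑ n ∈ s, G n * F (φ n + (h + u - v))‖ ^ 2 :=
        sum_le_sum fun u hu => sum_le_sum fun v hv => h1 u hu v hv
    _ = ∑ h ∈ Ioc (b - H) (b + 2 * H), ∑ u ∈ Ioc 0 L, ∑ v ∈ Ioc 0 L,
          ‖∑ n ∈ s, G n * F (φ n + (h + u - v))‖ ^ 2 := by
        rw [sum_congr rfl fun u _ => sum_comm, sum_comm]
    _ ≤ ∑ h ∈ Ioc (b - H) (b + 2 * H), (∑ n ∈ s, ‖G n‖ ^ 2) * M :=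
        sum_le_sum fun h _ => circ0 s φ G F t r L h M inj hF hr hM
    _ = _ := by
        rw [sum_const, Int.card_Ioc, show b + 2 * H - (b - H) = ((3 * H : ℕ) : ℤ) by push_cast; ring,
          Int.toNat_natCast, nsmul_eq_mul]; push_cast; ring

end Pool.Agent.Lib.MP_68a45e_nt.CTel
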