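import Pool.Agent.Lib.MP_68a45e_nt.CTel1

/-! Replacement of a function by a model in almost all correlations along linear forms. -/

namespace Pool.Agent.Lib.MP_68a45e_nt.CTel

open Finset Complex CMin

/-- The function `F` cut to the interval from `p` (excluded) to `q`. -/
noncomputable def tr (F : ℕ → ℂ) (p q : ℕ) (y : ℤ) : ℂ :=
  if (p : ℤ) < y ∧ y ≤ q then F y.toNat else 0

lemma tr_nat (F : ℕ → ℂ) {p q n : ℕ} {y : ℤ} (hy : y = n) (h1 : p < n) (h2 : n ≤ q) :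
    tr F p q y = F n := by
  subst hy; unfold tr; rw [if_pos (by omega), Int.toNat_natCast]

lemma tr_le {F : ℕ → ℂ} {p q Y : ℕ} {B : ℝ} (hB : 0 ≤ B) (hq : q ≤ Y) (hF : ∀ n, n ≤ Y → ‖F n‖ ≤ B)
    (y : ℤ) : ‖tr F p q y‖ ≤ B := by
  unfold tr; split_ifs with h
  · exact hF _ (by omega)
  · simpa using hB

/-- The conclusion of the circle lemma. -/
def Circ (F : ℤ → ℂ) (L : ℕ) (M : ℝ) : Prop :=
  ∀ (s : Finset ℕ) (a : ℕ) (G : ℕ → ℂ) (H : ℕ) (b : ℤ), 1 ≤ a → L ≤ H →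
    (L : ℝ) ^ 2 * ∑ h ∈ Ioc b (b + H), ‖∑ n ∈ s, G n * F (a * n + h)‖ ^ 2 ≤
      3 * H * ((∑ n ∈ s, ‖G n‖ ^ 2) * M)

lemma sum_un {κ : Type} [DecidableEq κ] (s t : Finset κ) (f : κ → ℝ) (h : ∀ i, 0 ≤ f i) :
    ∑ i ∈ s ∪ t, f i ≤ ∑ i ∈ s, f i + ∑ i ∈ t, f i := by
  rw [← sum_union_inter]; linarith [sum_nonneg fun i (_ : i ∈ s ∩ t) => h i]

lemma sum_inj {κ μ : Type} [DecidableEq μ] (s : Finset κ) (t : Finset μ) (ψ : κ → μ) (f : μ → ℝ)
    (h : ∀ i, 0 ≤ f i) (inj : ∀ x ∈ s, ∀ y ∈ s, ψ x = ψ y → x = y) (hs : ∀ x ∈ s, ψ x ∈ t) :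
    ∑ i ∈ s, f (ψ i) ≤ ∑ i ∈ t, f i := by
  rw [← sum_image inj]
  refine sum_le_sum_of_subset_of_nonneg (fun y hy => ?_) fun _ _ _ => h _
  obtain ⟨x, hx, rfl⟩ := mem_image.1 hy; exact hs x hx

theorem circ_tr {F : ℕ → ℂ} {L Y : ℕ} {B M : ℝ} (p q : ℕ) (hB : 0 ≤ B) (hq : q ≤ Y)
    (hF : ∀ n, n ≤ Y → ‖F n‖ ≤ B)
    (hM : ∀ al : ℝ, ∑ y ∈ range (Y + 1), ‖W F al L y‖ ^ 2 ≤ M) :
    Circ (tr F p q) L (M + 2 * B ^ 2 * L ^ 3) := by
  intro s a G H b ha hLH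
  refine circ s (fun n => (a : ℤ) * n) G (tr F p q) (Ioc (p : ℤ) q)
    (((range (Y + 1)).filter (fun y => p ≤ y ∧ y + L ≤ q)).image (fun y : ℕ => (y : ℤ)) ∪
      (Ioc ((p : ℤ) - L) p ∪ Ioc ((q : ℤ) - L) q)) L H b _ hLH ?_ ?_ ?_ ?_
  · intro x _ y _ h
    have : (a : ℤ) ≠ 0 := by omega
    exact_mod_cast mul_left_cancel₀ this h
  · intro m hm; unfold tr; rw [if_neg (by simpa using hm)]
  · intro m hm u hu
    simp only [mem_union, mem_image, mem_filter, mem_range, mem_Ioc] at hm hu ⊢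
    by_cases h1 : m - u ≤ p
    · exact Or.inr (Or.inl (by omega))
    by_cases h2 : (q : ℤ) - L < m - u
    · exact Or.inr (Or.inr (by omega))
    exact Or.inl ⟨(m - u).toNat, by omega, by omega⟩
  · intro al
    have h1 : ∀ y : ℤ, ‖∑ u ∈ Ioc 0 L, tr F p q (y + u) * ee (al * (y + u : ℤ))‖ ^ 2 ≤ (L * B) ^ 2 := by
      intro y
      refine pow_le_pow_left₀ (norm_nonneg _) ((norm_sum_le _ _).trans ?_) 2
      refine (sum_le_card_nsmul _ _ B fun u _ => ?_).trans (by simp)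
      rw [norm_mul, norm_ee, mul_one]; exact tr_le hB hq hF _
    have h2 : ∀ c : ℤ, ∑ y ∈ Ioc (c - L) c,
        ‖∑ u ∈ Ioc 0 L, tr F p q (y + u) * ee (al * (y + u : ℤ))‖ ^ 2 ≤ L * (L * B) ^ 2 := by
      intro c
      refine (sum_le_card_nsmul _ _ _ fun y _ => h1 y).trans (by simp)
    refine (sum_un _ _ _ fun _ => by positivity).trans (add_le_add ?_
      ((sum_un _ _ _ fun _ => by positivity).trans ?_))
    · rw [sum_image fun x _ y _ h => by exact_mod_cast h]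
      refine le_trans (le_of_eq (sum_congr rfl fun y hy => ?_))
        ((sum_le_sum_of_subset_of_nonneg (filter_subset _ _) fun _ _ _ => by positivity).trans
          (hM al))
      rw [mem_filter] at hy
      congr 2
      unfold W
      refine sum_nbij' (fun u => y + u) (fun n => n - y) ?_ ?_ ?_ ?_ ?_
      · intro u hu; rw [mem_Ioc] at hu ⊢; omega
      · intro u hu; rw [mem_Ioc] at hu ⊢; omega
      · intro u _; omega
      · intro u hu; rw [mem_Ioc] at hu; omega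
      · intro u hu
        rw [mem_Ioc] at hu
        rw [tr_nat F (n := y + u) (by push_cast; ring) (by omega) (by omega)]
        push_cast; rfl
    · nlinarith [h2 p, h2 q]

lemma sum_succ {k : ℕ} (S : Fin (k + 1) → Finset ℕ) (Φ : (Fin (k + 1) → ℕ) → ℝ) :
    ∑ h ∈ Fintype.piFinset S, Φ h =
      ∑ c ∈ S 0, ∑ h ∈ Fintype.piFinset (fun i : Fin k => S i.succ), Φ (Fin.cons c h) := by
  rw [← sum_product']
  refine sum_nbij' (fun h => (h 0, Fin.tail h)) (fun p => Fin.cons p.1 p.2) ?_ ?_ ?_ ?_ ?_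
  · intro h hh
    exact mem_product.2 (Fin.mem_piFinset_iff_zero_tail.1 hh)
  · intro p hp
    exact Fin.mem_piFinset_iff_zero_tail.2 (by simpa [Fin.tail] using mem_product.1 hp)
  · intro h _; simp
  · intro p _; simp
  · intro h _; simp

lemma nadd (u v : ℂ) : ‖u + v‖ ^ 2 ≤ 2 * ‖u‖ ^ 2 + 2 * ‖v‖ ^ 2 := by
  have := pow_le_pow_left₀ (norm_nonneg _) (norm_add_le u v) 2
  nlinarith [sq_nonneg (‖u‖ - ‖v‖)]

lemma wt_le (s : Finset ℕ) (G P : ℕ → ℂ) {c : ℝ} (h : ∀ n ∈ s, ‖P n‖ ≤ c) :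
    ∑ n ∈ s, ‖G n * P n‖ ^ 2 ≤ (∑ n ∈ s, ‖G n‖ ^ 2) * c ^ 2 := by
  rw [sum_mul]
  refine sum_le_sum fun n hn => ?_
  rw [norm_mul, mul_pow]
  exact mul_le_mul_of_nonneg_left (pow_le_pow_left₀ (norm_nonneg _) (h n hn) 2) (by positivity)

lemma prod_le {k : ℕ} (P : Fin k → ℂ) {c : ℝ} (h : ∀ i, ‖P i‖ ≤ c) : ‖∏ i, P i‖ ≤ c ^ k := by
  rw [norm_prod]
  exact (prod_le_prod (fun _ _ => norm_nonneg _) fun i _ => h i).trans (by simp)

/-- Replacement in the factors that carry a free shift. -/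
theorem telA {f g : ℕ → ℂ} {L H Y x : ℕ} {B M : ℝ} (hM : 0 ≤ M) (hLH : L ≤ H)
    (hb : ∀ n, n ≤ Y → ‖f n‖ ≤ B ∧ ‖g n‖ ≤ B) (hC : Circ (tr (fun n => f n - g n) 0 Y) L M) (k : ℕ) :
    ∀ (a b : Fin k → ℕ) (G : ℕ → ℂ), (∀ i, 1 ≤ a i) → (∀ i, a i * x + b i + H ≤ Y) →
      (L : ℝ) ^ 2 * B ^ 2 * ∑ h ∈ Fintype.piFinset (fun i => Ioc (b i) (b i + H)),
        ‖∑ n ∈ Ioc 0 x, G n * (∏ i, f (a i * n + h i) - ∏ i, g (a i * n + h i))‖ ^ 2 ≤
      4 ^ k * B ^ (2 * k) * (∑ n ∈ Ioc 0 x, ‖G n‖ ^ 2) * (3 * M) * H ^ k := by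
  induction k with
  | zero => intro a b G _ _; simp; positivity
  | succ k ih =>
    intro a b G ha hY
    have hle : ∀ i, ∀ n ∈ Ioc 0 x, ∀ c ∈ Ioc (b i) (b i + H), 0 < a i * n + c ∧ a i * n + c ≤ Y := by
      intro i n hn c hc
      rw [mem_Ioc] at hn hc
      have := Nat.mul_le_mul_left (a i) hn.2
      have := hY i
      omega
    set E := ∑ n ∈ Ioc 0 x, ‖G n‖ ^ 2 with hE
    have hE0 : 0 ≤ E := sum_nonneg fun _ _ => by positivity
    set T := Fintype.piFinset (fun i : Fin k => Ioc (b i.succ) (b i.succ + H)) with hT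
    set U : ℕ → (Fin k → ℕ) → ℂ := fun c h => ∑ n ∈ Ioc 0 x, (G n * f (a 0 * n + c)) *
      (∏ i : Fin k, f (a i.succ * n + h i) - ∏ i : Fin k, g (a i.succ * n + h i)) with hU
    set V : ℕ → (Fin k → ℕ) → ℂ := fun c h => ∑ n ∈ Ioc 0 x,
      (G n * ∏ i : Fin k, g (a i.succ * n + h i)) *
        tr (fun n => f n - g n) 0 Y (a 0 * n + (c : ℤ)) with hV
    have h1 : ∑ h ∈ Fintype.piFinset (fun i => Ioc (b i) (b i + H)),
        ‖∑ n ∈ Ioc 0 x, G n * (∏ i, f (a i * n + h i) - ∏ i, g (a i * n + h i))‖ ^ 2 ≤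
        2 * ∑ c ∈ Ioc (b 0) (b 0 + H), ∑ h ∈ T, ‖U c h‖ ^ 2 +
        2 * ∑ h ∈ T, ∑ c ∈ Ioc (b 0) (b 0 + H), ‖V c h‖ ^ 2 := by
      rw [sum_succ, sum_comm (s := T)]
      simp_rw [mul_sum, ← sum_add_distrib]
      refine sum_le_sum fun c hc => sum_le_sum fun h _ => le_trans (le_of_eq ?_) (nadd _ _)
      congr 2
      simp only [hU, hV, ← sum_add_distrib]
      refine sum_congr rfl fun n hn => ?_
      rw [tr_nat _ (n := a 0 * n + c) (by push_cast; ring) (hle 0 n hn c hc).1 (hle 0 n hn c hc).2]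
      simp only [Fin.prod_univ_succ, Fin.cons_zero, Fin.cons_succ]; ring
    have h2 : ∀ c ∈ Ioc (b 0) (b 0 + H), (L : ℝ) ^ 2 * B ^ 2 * ∑ h ∈ T, ‖U c h‖ ^ 2 ≤
        4 ^ k * B ^ (2 * k) * (E * B ^ 2) * (3 * M) * H ^ k := by
      intro c hc
      refine (ih (fun i => a i.succ) (fun i => b i.succ) (fun n => G n * f (a 0 * n + c))
        (fun i => ha _) fun i => hY _).trans ?_
      have := wt_le (Ioc 0 x) G (fun n => f (a 0 * n + c)) fun n hn => (hb _ (hle 0 n hn c hc).2).1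
      have h0 : 0 ≤ B ^ (2 * k) := by rw [pow_mul]; positivity
      gcongr
    have h3 : ∀ h ∈ T, (L : ℝ) ^ 2 * ∑ c ∈ Ioc (b 0) (b 0 + H), ‖V c h‖ ^ 2 ≤
        3 * H * ((E * (B ^ k) ^ 2) * M) := by
      intro h hh
      have c1 := hC (Ioc 0 x) (a 0) (fun n => G n * ∏ i : Fin k, g (a i.succ * n + h i)) H (b 0)
        (ha 0) hLH
      have c2 := wt_le (Ioc 0 x) G (fun n => ∏ i : Fin k, g (a i.succ * n + h i))
        fun n hn => prod_le _ fun i => (hb _ (hle i.succ n hn _ (Fintype.mem_piFinset.1 hh i)).2).2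
      refine le_trans (mul_le_mul_of_nonneg_left ?_ (by positivity)) (c1.trans (by gcongr))
      exact sum_inj (Ioc (b 0) (b 0 + H)) _ (fun c : ℕ => (c : ℤ)) (fun c => ‖∑ n ∈ Ioc 0 x,
        (G n * ∏ i : Fin k, g (a i.succ * n + h i)) * tr (fun n => f n - g n) 0 Y (a 0 * n + c)‖ ^ 2)
        (fun _ => by positivity) (fun _ _ _ _ h => by exact_mod_cast h) fun c hc => by
          rw [mem_Ioc] at hc ⊢; omega
    have h4 := sum_le_card_nsmul _ _ _ h2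
    have h5 := sum_le_card_nsmul _ _ _ h3
    rw [← mul_sum] at h4 h5
    have hc : T.card = H ^ k := by simp [hT, Fintype.card_piFinset]
    rw [hc] at h5
    simp only [Nat.card_Ioc, add_tsub_cancel_left, nsmul_eq_mul, Nat.cast_pow] at h4 h5
    have h6 := mul_le_mul_of_nonneg_left h5 (sq_nonneg B)
    have h7 := mul_le_mul_of_nonneg_left h1 (show 0 ≤ (L : ℝ) ^ 2 * B ^ 2 by positivity)
    have h8 : 0 ≤ (B ^ k) ^ 2 * B ^ 2 * E * M * H * H ^ k := by positivity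
    have h9 : (1 : ℝ) ≤ 4 ^ k := one_le_pow₀ (by norm_num)
    have e1 : B ^ (2 * k) = (B ^ k) ^ 2 := by ring
    have e2 : B ^ (2 * (k + 1)) = (B ^ k) ^ 2 * B ^ 2 := by ring
    rw [e1] at h4
    rw [e2, pow_succ (4 : ℝ), pow_succ (H : ℝ)]
    nlinarith [mul_le_mul_of_nonneg_right h9 h8]

/-- Replacement in the factor without a free shift. -/
theorem telB {F g : ℕ → ℂ} {k A L H Y x a0 b0 : ℕ} {B M : ℝ} (hM : 0 ≤ M) (hB : 0 ≤ B)
    (hL : 1 ≤ L) (hLH : L ≤ H) (hb : ∀ n, n ≤ Y → ‖g n‖ ≤ B) (h0 : 1 ≤ a0) (h0A : a0 ≤ A)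
    (hC : Circ (tr F b0 (a0 * x + b0)) L M) (a b : Fin k → ℕ) (ha : ∀ i, a i ≤ A)
    (hY : ∀ i, a i * x + b i + H ≤ Y) :
    (L : ℝ) ^ 2 * ∑ h ∈ Fintype.piFinset (fun i => Ioc (b i) (b i + H)),
        ‖∑ n ∈ Ioc 0 x, F (a0 * n + b0) * ∏ i, g (a i * n + h i)‖ ^ 2 ≤
      3 * A * ((1 + A) * H) ^ k * ((x + L) * B ^ (2 * k) * M) := by
  set T := Fintype.piFinset (fun i : Fin k => Ioc ((b i : ℤ) - A * L) (b i + H)) with hT
  set Φ : ℤ → (Fin k → ℤ) → ℝ := fun c d => ‖∑ m ∈ Ioc 0 (x + L),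
    (∏ i, tr g 0 Y (a i * m + d i)) * tr F b0 (a0 * x + b0) (a0 * m + c)‖ ^ 2 with hΦ
  have h1 : ∀ t ∈ Ioc 0 L, ∑ h ∈ Fintype.piFinset (fun i => Ioc (b i) (b i + H)),
      ‖∑ n ∈ Ioc 0 x, F (a0 * n + b0) * ∏ i, g (a i * n + h i)‖ ^ 2 ≤
      ∑ d ∈ T, Φ (b0 - a0 * t) d := by
    intro t ht
    rw [mem_Ioc] at ht
    refine le_trans (le_of_eq (sum_congr rfl fun h hh => ?_)) (sum_inj _ T
      (fun (h : Fin k → ℕ) i => (h i : ℤ) - a i * t) (Φ (b0 - a0 * t)) (fun _ => by positivity)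
      (fun u _ v _ huv => funext fun i => by have := congrFun huv i; omega) fun h hh => ?_)
    · simp only [hΦ]
      congr 2
      refine Eq.trans ?_ (sum_subset (s₁ := (Ioc 0 x).image (fun n => n + t)) ?_ ?_)
      · rw [sum_image fun _ _ _ _ h => by simpa using h]
        refine sum_congr rfl fun n hn => ?_
        rw [mem_Ioc] at hn
        have c1 := Nat.mul_le_mul_left a0 hn.2
        have c2 : 0 < a0 * n := Nat.mul_pos h0 hn.1
        rw [tr_nat F (n := a0 * n + b0) (by push_cast; ring) (by omega) (by omega), mul_comm]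
        congr 1
        refine prod_congr rfl fun i _ => ?_
        have c3 := mem_Ioc.1 (Fintype.mem_piFinset.1 hh i)
        have c4 := Nat.mul_le_mul_left (a i) hn.2
        have c5 := hY i
        rw [tr_nat g (n := a i * n + h i) (by push_cast; ring) (by omega) (by omega)]
      · intro m hm
        obtain ⟨n, hn, rfl⟩ := mem_image.1 hm
        rw [mem_Ioc] at hn ⊢; omega
      · intro m _ hm
        have c0 : (1 : ℤ) ≤ a0 := by exact_mod_cast h0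
        have : ¬ (((b0 : ℕ) : ℤ) < a0 * m + (b0 - a0 * t) ∧
            a0 * m + (b0 - a0 * t) ≤ ((a0 * x + b0 : ℕ) : ℤ)) := by
          rintro ⟨c1, c2⟩
          push_cast at c2
          have c3 : (t : ℤ) < m := by nlinarith
          have c4 : (m : ℤ) ≤ x + t := by nlinarith
          exact hm (mem_image.2 ⟨m - t, by rw [mem_Ioc]; omega, by omega⟩)
        rw [show tr F b0 (a0 * x + b0) (a0 * m + (b0 - a0 * t)) = 0 from if_neg this, mul_zero]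
    · refine Fintype.mem_piFinset.2 fun i => ?_
      have c3 := mem_Ioc.1 (Fintype.mem_piFinset.1 hh i)
      have c4 : a i * t ≤ A * L := Nat.mul_le_mul (ha i) ht.2
      have c5 : (a i : ℤ) * t ≤ A * L := by exact_mod_cast c4
      have c6 : (0 : ℤ) ≤ a i * t := by positivity
      rw [mem_Ioc]; omega
  have h2 : ∀ d ∈ T, (L : ℝ) ^ 2 * ∑ t ∈ Ioc 0 L, Φ (b0 - a0 * t) d ≤
      3 * (A * L : ℕ) * ((x + L) * B ^ (2 * k) * M) := by
    intro d _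
    have c1 := hC (Ioc 0 (x + L)) a0 (fun m => ∏ i, tr g 0 Y (a i * m + d i)) (A * L)
      (b0 - A * L - 1) h0 (Nat.le_mul_of_pos_left _ (by omega))
    have c2 : ∑ m ∈ Ioc 0 (x + L), ‖∏ i, tr g 0 Y (a i * m + d i)‖ ^ 2 ≤ (x + L) * B ^ (2 * k) := by
      refine (sum_le_card_nsmul _ _ ((B ^ k) ^ 2) fun m _ => pow_le_pow_left₀ (norm_nonneg _)
        (prod_le _ fun i => tr_le hB le_rfl hb _) 2).trans (le_of_eq ?_)
      simp; left; ring
    refine le_trans (mul_le_mul_of_nonneg_left ?_ (by positivity)) (c1.trans (by gcongr))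
    refine sum_inj (Ioc 0 L) _ (fun t : ℕ => (b0 : ℤ) - a0 * t) (fun c => Φ c d)
      (fun _ => by positivity) (fun u _ v _ huv => ?_) fun t ht => ?_
    · have : (a0 : ℤ) ≠ 0 := by omega
      exact_mod_cast mul_left_cancel₀ this (sub_right_injective huv)
    · rw [mem_Ioc] at ht ⊢
      have c4 : a0 * t ≤ A * L := Nat.mul_le_mul h0A ht.2
      have c5 : 0 < a0 * t := Nat.mul_pos h0 ht.1
      have c6 : (a0 : ℤ) * t ≤ A * L := by exact_mod_cast c4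
      have c7 : (0 : ℤ) < a0 * t := by exact_mod_cast c5
      push_cast; omega
  have h3 := card_nsmul_le_sum _ _ _ h1
  have h4 := sum_le_card_nsmul _ _ _ h2
  rw [← mul_sum, sum_comm] at h4
  have hc : (T.card : ℝ) ≤ ((1 + A) * H) ^ k := by
    have : T.card = (H + A * L) ^ k := by
      rw [hT, Fintype.card_piFinset, ← Fin.prod_const]
      refine prod_congr rfl fun i _ => ?_
      rw [Int.card_Ioc, show (b i : ℤ) + H - (b i - A * L) = ((H + A * L : ℕ) : ℤ) by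
        push_cast; ring, Int.toNat_natCast]
    have h5 : H + A * L ≤ (1 + A) * H := by nlinarith [Nat.mul_le_mul_left A hLH]
    rw [this]; exact_mod_cast Nat.pow_le_pow_left h5 k
  simp only [Nat.card_Ioc, tsub_zero, nsmul_eq_mul, Nat.cast_mul] at h3 h4
  have hL' : (0 : ℝ) < L := by exact_mod_cast hL
  refine le_of_mul_le_mul_left ?_ hL'
  have h6 := mul_le_mul_of_nonneg_left h3 (sq_nonneg (L : ℝ))
  have h7 := mul_le_mul_of_nonneg_right hc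
    (show 0 ≤ 3 * ((A : ℝ) * L) * ((x + L) * B ^ (2 * k) * M) by positivity)
  nlinarith

/-- Replacement of `f` by `g` in almost all correlations along linear forms. -/
theorem telF {f g : ℕ → ℂ} {k A L H Y x a0 b0 : ℕ} {B M : ℝ} (a b : Fin k → ℕ) (hB : 0 < B)
    (hL : 1 ≤ L) (hLH : L ≤ H) (h0 : 1 ≤ a0) (h0A : a0 ≤ A) (ha : ∀ i, 1 ≤ a i ∧ a i ≤ A)
    (hY0 : a0 * x + b0 ≤ Y) (hY : ∀ i, a i * x + b i + H ≤ Y)
    (hb : ∀ n, n ≤ Y → ‖f n‖ ≤ B ∧ ‖g n‖ ≤ B)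
    (hM : ∀ al : ℝ, ∑ y ∈ range (Y + 1), ‖W (fun n => f n - g n) al L y‖ ^ 2 ≤ M) :
    (L : ℝ) ^ 2 * ∑ h ∈ Fintype.piFinset (fun i => Ioc (b i) (b i + H)),
        ‖∑ n ∈ Ioc 0 x, (f (a0 * n + b0) * ∏ i, f (a i * n + h i) -
          g (a0 * n + b0) * ∏ i, g (a i * n + h i))‖ ^ 2 ≤
      12 * A * (4 * A) ^ k * B ^ (2 * k) * (x + L) * (M + 8 * B ^ 2 * L ^ 3) * H ^ k := by
  have hM0 : 0 ≤ M := le_trans (sum_nonneg fun _ _ => by positivity) (hM 0)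
  have hF : ∀ n, n ≤ Y → ‖f n - g n‖ ≤ 2 * B := fun n hn =>
    (norm_sub_le _ _).trans (by linarith [(hb n hn).1, (hb n hn).2])
  set M0 := M + 8 * B ^ 2 * L ^ 3 with hM0d
  have hM1 : 0 ≤ M0 := by positivity
  have hC : ∀ p q, q ≤ Y → Circ (tr (fun n => f n - g n) p q) L M0 := fun p q hq => by
    have := circ_tr p q (by positivity) hq hF hM
    rwa [show M + 2 * (2 * B) ^ 2 * L ^ 3 = M0 by rw [hM0d]; ring] at this
  have c1 := telA hM1 hLH hb (hC 0 Y le_rfl) k a b (fun n => f (a0 * n + b0)) (fun i => (ha i).1) hY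
  have c2 := telB (F := fun n => f n - g n) hM1 hB.le hL hLH (fun n hn => (hb n hn).2) h0 h0A
    (hC _ _ hY0) a b (fun i => (ha i).2) hY
  have c3 : ∑ n ∈ Ioc 0 x, ‖f (a0 * n + b0)‖ ^ 2 ≤ (x + L) * B ^ 2 := by
    refine (sum_le_card_nsmul _ _ (B ^ 2) fun n hn => pow_le_pow_left₀ (norm_nonneg _)
      (hb _ (by have := Nat.mul_le_mul_left a0 (mem_Ioc.1 hn).2; omega)).1 2).trans ?_
    simp only [Nat.card_Ioc, tsub_zero, nsmul_eq_mul]
    have : (0 : ℝ) ≤ L * B ^ 2 := by positivity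
    nlinarith
  have hA : (1 : ℝ) ≤ A := by exact_mod_cast h0.trans h0A
  set S := Fintype.piFinset (fun i => Ioc (b i) (b i + H))
  set Z := (4 * A : ℝ) ^ k * B ^ (2 * k) * (x + L) * M0 * H ^ k with hZ
  have hZ0 : 0 ≤ Z := by positivity
  have c4 : (L : ℝ) ^ 2 * ∑ h ∈ S, ‖∑ n ∈ Ioc 0 x, f (a0 * n + b0) *
      (∏ i, f (a i * n + h i) - ∏ i, g (a i * n + h i))‖ ^ 2 ≤ 3 * Z := by
    refine le_of_mul_le_mul_left (a := B ^ 2) ?_ (by positivity)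
    have : (4 : ℝ) ^ k * B ^ (2 * k) * (∑ n ∈ Ioc 0 x, ‖f (a0 * n + b0)‖ ^ 2) * (3 * M0) * H ^ k ≤
        (4 * A) ^ k * B ^ (2 * k) * ((x + L) * B ^ 2) * (3 * M0) * H ^ k := by
      gcongr; linarith
    rw [hZ]; nlinarith
  have c5 : 3 * A * ((1 + A : ℝ) * H) ^ k * ((x + L) * B ^ (2 * k) * M0) ≤ 3 * A * Z := by
    have : ((1 + A : ℝ) * H) ^ k ≤ (4 * A * H) ^ k := by gcongr; linarith
    have := mul_le_mul_of_nonneg_right this
      (show 0 ≤ 3 * (A : ℝ) * ((x + L) * B ^ (2 * k) * M0) by positivity)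
    rw [mul_pow (4 * A : ℝ)] at this
    rw [hZ]; linarith
  have c6 : ∑ h ∈ S, ‖∑ n ∈ Ioc 0 x, (f (a0 * n + b0) * ∏ i, f (a i * n + h i) -
      g (a0 * n + b0) * ∏ i, g (a i * n + h i))‖ ^ 2 ≤
      2 * ∑ h ∈ S, ‖∑ n ∈ Ioc 0 x, f (a0 * n + b0) *
        (∏ i, f (a i * n + h i) - ∏ i, g (a i * n + h i))‖ ^ 2 +
      2 * ∑ h ∈ S, ‖∑ n ∈ Ioc 0 x, (f (a0 * n + b0) - g (a0 * n + b0)) *
        ∏ i, g (a i * n + h i)‖ ^ 2 := by
    simp_rw [mul_sum, ← sum_add_distrib]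
    refine sum_le_sum fun h _ => le_trans (le_of_eq ?_) (nadd _ _)
    rw [← sum_add_distrib]
    congr 2
    exact sum_congr rfl fun n _ => by ring
  have c7 := mul_le_mul_of_nonneg_left c6 (sq_nonneg (L : ℝ))
  have c8 := mul_le_mul_of_nonneg_right hA hZ0
  have c9 : 12 * A * (4 * A : ℝ) ^ k * B ^ (2 * k) * (x + L) * M0 * H ^ k = 12 * (A * Z) := by
    rw [hZ]; ring
  rw [c9]
  nlinarith [c2.trans c5]

end Pool.Agent.Lib.MP_68a45e_nt.CTel
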