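import Pool.Agent.Lib.MP_68a45e_nt.AvDef

/-! Local Fourier uniformity, part 1: finite lemmas for the major arcs. -/

namespace Pool.Agent.Lib.MP_68a45e_nt.Av

open Finset Complex
open Pool.Agent.Lib.MP_68a45e_nt.CMin

lemma W_add (F : ℕ → ℂ) (α : ℝ) (L1 L2 x : ℕ) :
    W F α (L1 + L2) x = W F α L1 x + W F α L2 (x + L1) := by
  unfold W
  rw [← add_assoc, ← sum_Ioc_consecutive _ (Nat.le_add_right x L1) (Nat.le_add_right _ L2)]

lemma norm_W_le (F : ℕ → ℂ) (α M : ℝ) (L x : ℕ) (hF : ∀ n ∈ Ioc x (x + L), ‖F n‖ ≤ M) :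
    ‖W F α L x‖ ≤ L * M := by
  unfold W
  refine (norm_sum_le _ _).trans ?_
  have : ∑ n ∈ Ioc x (x + L), ‖F n * ee (α * n)‖ ≤ ∑ _n ∈ Ioc x (x + L), M :=
    sum_le_sum fun n hn => by rw [norm_mul, norm_ee, mul_one]; exact hF n hn
  simpa using this

lemma norm_ee_sub (t : ℝ) : ‖ee t - 1‖ ≤ 7 * |t| := by
  rw [ee_eq, mul_comm _ I]
  refine (Real.norm_exp_I_mul_ofReal_sub_one_le).trans ?_
  rw [Real.norm_eq_abs, abs_mul, abs_of_pos (by positivity : 0 < 2 * Real.pi)]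
  have := Real.pi_le_four
  have h2 := Real.pi_lt_d2
  nlinarith [abs_nonneg t]

/-- one block -/
lemma block (F : ℕ → ℂ) (γ β M : ℝ) (h y : ℕ) (hF : ∀ n ∈ Ioc y (y + h), ‖F n‖ ≤ M) :
    ‖W F (γ + β) h y‖ ≤ ‖W F γ h y‖ + h * (M * (7 * |β| * h)) := by
  have h1 : W F (γ + β) h y = ee (β * y) * (W F γ h y +
      W (fun n => F n * (ee (β * ((n : ℝ) - y)) - 1)) γ h y) := by
    unfold W
    rw [← sum_add_distrib, mul_sum]
    refine sum_congr rfl fun n _ => ?_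
    have : ee ((γ + β) * n) = ee (β * y) * (ee (β * ((n : ℝ) - y)) * ee (γ * n)) := by
      rw [← ee_add, ← ee_add]; congr 1; ring
    rw [this]; ring
  rw [h1, norm_mul, norm_ee, one_mul]
  refine (norm_add_le _ _).trans (add_le_add le_rfl ?_)
  refine norm_W_le _ _ _ _ _ fun n hn => ?_
  rw [norm_mul]
  have hn' := mem_Ioc.1 hn
  have h2 : |(n : ℝ) - y| ≤ h := by
    have a1 : (y : ℝ) ≤ n := by exact_mod_cast hn'.1.le
    have a2 : (n : ℝ) ≤ y + h := by exact_mod_cast hn'.2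
    rw [abs_of_nonneg (by linarith)]; linarith
  have h3 : ‖ee (β * ((n : ℝ) - y)) - 1‖ ≤ 7 * |β| * h := by
    refine (norm_ee_sub _).trans ?_
    rw [abs_mul, mul_assoc]
    gcongr
  exact mul_le_mul (hF n hn) h3 (norm_nonneg _) ((norm_nonneg _).trans (hF n hn))

/-- many blocks -/
lemma blocks (F : ℕ → ℂ) (γ β M : ℝ) (h x K : ℕ) (hF : ∀ n ∈ Ioc x (x + K * h), ‖F n‖ ≤ M) :
    ‖W F (γ + β) (K * h) x‖ ≤
      ∑ j ∈ range K, ‖W F γ h (x + j * h)‖ + K * (h * (M * (7 * |β| * h))) := by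
  induction K with
  | zero => simp [W]
  | succ K ih =>
    rw [Nat.succ_mul, W_add, sum_range_succ]
    have h1 := ih fun n hn => hF n (by
      rw [mem_Ioc] at hn ⊢; rw [Nat.succ_mul]; omega)
    have h2 := block F γ β M h (x + K * h) fun n hn => hF n (by
      rw [mem_Ioc] at hn ⊢; rw [Nat.succ_mul]; omega)
    refine (norm_add_le _ _).trans ?_
    push_cast
    linarith

/-- residue classes -/
lemma classes (F : ℕ → ℂ) (c : ℤ) (q h y : ℕ) (hq : 1 ≤ q) :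
    ‖W F ((c : ℝ) / q) h y‖ ≤
      ∑ r ∈ range q, ‖∑ n ∈ (Ioc y (y + h)).filter (fun n => n ≡ r [MOD q]), F n‖ := by
  unfold W
  rw [← sum_fiberwise_of_maps_to (t := range q) (g := fun n => n % q)
    (fun n _ => mem_range.2 (Nat.mod_lt _ hq))]
  refine (norm_sum_le _ _).trans (sum_le_sum fun r hr => ?_)
  have hr' := mem_range.1 hr
  have h1 : (Ioc y (y + h)).filter (fun n => n % q = r) =
      (Ioc y (y + h)).filter (fun n => n ≡ r [MOD q]) := by
    refine filter_congr fun n _ => ?_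
    unfold Nat.ModEq; rw [Nat.mod_eq_of_lt hr']
  have h2 : ∑ n ∈ (Ioc y (y + h)).filter (fun n => n % q = r), F n * ee ((c : ℝ) / q * n) =
      (∑ n ∈ (Ioc y (y + h)).filter (fun n => n % q = r), F n) * ee ((c : ℝ) / q * r) := by
    rw [sum_mul]
    refine sum_congr rfl fun n hn => ?_
    have h3 := (mem_filter.1 hn).2
    have h4 : (n : ℝ) = q * (n / q : ℕ) + r := by
      have := Nat.div_add_mod n q
      rw [h3] at this
      exact_mod_cast this.symm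
    have hq0 : (q : ℝ) ≠ 0 := by positivity
    have h5 : (c : ℝ) / q * n = (c : ℝ) / q * r + ((c * (n / q : ℕ) : ℤ) : ℝ) := by
      rw [Int.cast_mul, Int.cast_natCast]
      nth_rewrite 1 [h4]
      field_simp
      ring
    rw [h5, ee_add_int]
  rw [h2, norm_mul, norm_ee, mul_one, h1]

/-- the finite major arc bound -/
lemma major (F : ℕ → ℂ) (β M D : ℝ) (c : ℤ) (q h K r X : ℕ) (hq : 1 ≤ q) (hX : K * h + r ≤ X)
    (hF : ∀ n, n ≤ 2 * X → ‖F n‖ ≤ M)
    (hD : ∀ s ∈ range q, ∑ y ∈ range (2 * X + 1),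
      ‖∑ n ∈ (Ioc y (y + h)).filter (fun n => n ≡ s [MOD q]), F n‖ ^ 2 ≤ D) :
    WE F ((c : ℝ) / q + β) (K * h + r) X ≤
      2 * (K ^ 2 * q ^ 2 * D) + 2 * ((X + 1) * (K * (h * (M * (7 * |β| * h))) + r * M) ^ 2) := by
  set E : ℝ := K * (h * (M * (7 * |β| * h))) + r * M with hE
  have hV : ∑ y ∈ range (2 * X + 1), ‖W F ((c : ℝ) / q) h y‖ ^ 2 ≤ q ^ 2 * D := by
    calc _ ≤ ∑ y ∈ range (2 * X + 1), (q : ℝ) * ∑ s ∈ range q,
          ‖∑ n ∈ (Ioc y (y + h)).filter (fun n => n ≡ s [MOD q]), F n‖ ^ 2 := by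
          refine sum_le_sum fun y _ => ?_
          refine (pow_le_pow_left₀ (norm_nonneg _) (classes F c q h y hq) 2).trans ?_
          simpa using sq_sum_le_card_mul_sum_sq (s := range q) (f := fun s =>
            ‖∑ n ∈ (Ioc y (y + h)).filter (fun n => n ≡ s [MOD q]), F n‖)
      _ = q * ∑ s ∈ range q, ∑ y ∈ range (2 * X + 1),
          ‖∑ n ∈ (Ioc y (y + h)).filter (fun n => n ≡ s [MOD q]), F n‖ ^ 2 := by
          rw [← mul_sum, sum_comm]
      _ ≤ q * ∑ _s ∈ range q, D := by gcongr with s hs; exact hD s hs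
      _ = q ^ 2 * D := by simp; ring
  have hp : ∀ x ∈ range (X + 1), ‖W F ((c : ℝ) / q + β) (K * h + r) x‖ ^ 2 ≤
      2 * (K * ∑ j ∈ range K, ‖W F ((c : ℝ) / q) h (x + j * h)‖ ^ 2) + 2 * E ^ 2 := by
    intro x hx
    have hx' := mem_range.1 hx
    have h1 := blocks F ((c : ℝ) / q) β M h x K fun n hn => hF n (by
      rw [mem_Ioc] at hn; omega)
    have h2 := norm_W_le F ((c : ℝ) / q + β) M r (x + K * h) fun n hn => hF n (by
      rw [mem_Ioc] at hn; omega)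
    have h3 : ‖W F ((c : ℝ) / q + β) (K * h + r) x‖ ≤
        ∑ j ∈ range K, ‖W F ((c : ℝ) / q) h (x + j * h)‖ + E := by
      rw [W_add]
      refine (norm_add_le _ _).trans ?_
      rw [hE]; linarith
    have h4 : (∑ j ∈ range K, ‖W F ((c : ℝ) / q) h (x + j * h)‖) ^ 2 ≤
        K * ∑ j ∈ range K, ‖W F ((c : ℝ) / q) h (x + j * h)‖ ^ 2 := by
      simpa using sq_sum_le_card_mul_sum_sq (s := range K) (f := fun j =>
        ‖W F ((c : ℝ) / q) h (x + j * h)‖)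
    have h5 := pow_le_pow_left₀ (norm_nonneg _) h3 2
    nlinarith [sq_nonneg (∑ j ∈ range K, ‖W F ((c : ℝ) / q) h (x + j * h)‖ - E)]
  have hs : ∀ j ∈ range K, ∑ x ∈ range (X + 1), ‖W F ((c : ℝ) / q) h (x + j * h)‖ ^ 2 ≤
      q ^ 2 * D := by
    intro j hj
    have hj' := mem_range.1 hj
    have hjh : j * h ≤ X := le_trans (Nat.mul_le_mul_right h hj'.le) (by omega)
    refine le_trans ?_ hV
    rw [← sum_image (s := range (X + 1)) (g := fun x => x + j * h)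
      (f := fun y => ‖W F ((c : ℝ) / q) h y‖ ^ 2) (fun a _ b _ hab => by simpa using hab)]
    refine sum_le_sum_of_subset_of_nonneg ?_ fun _ _ _ => by positivity
    intro y hy
    obtain ⟨x, hx, rfl⟩ := mem_image.1 hy
    rw [mem_range] at hx ⊢; omega
  unfold WE
  refine (sum_le_sum hp).trans ?_
  rw [sum_add_distrib, ← mul_sum, ← mul_sum, ← mul_sum, sum_comm]
  have h6 : ∑ j ∈ range K, ∑ x ∈ range (X + 1), ‖W F ((c : ℝ) / q) h (x + j * h)‖ ^ 2 ≤
      K * (q ^ 2 * D) := by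
    simpa using sum_le_sum hs
  have h7 : (K : ℝ) * ∑ j ∈ range K, ∑ x ∈ range (X + 1),
      ‖W F ((c : ℝ) / q) h (x + j * h)‖ ^ 2 ≤ K ^ 2 * q ^ 2 * D := by
    calc _ ≤ (K : ℝ) * (K * (q ^ 2 * D)) := by gcongr
      _ = _ := by ring
  simp only [sum_const, card_range, nsmul_eq_mul]
  push_cast
  linarith

lemma WE_sub (f g : ℕ → ℂ) (α : ℝ) (L X : ℕ) :
    WE (fun n => f n - g n) α L X ≤ 2 * WE f α L X + 2 * WE g α L X := by
  unfold WE
  rw [mul_sum, mul_sum, ← sum_add_distrib]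
  refine sum_le_sum fun x _ => ?_
  have h1 : W (fun n => f n - g n) α L x = W f α L x - W g α L x := by
    unfold W; rw [← sum_sub_distrib]; exact sum_congr rfl fun n _ => by ring
  rw [h1]
  have h2 := pow_le_pow_left₀ (norm_nonneg _) (norm_sub_le (W f α L x) (W g α L x)) 2
  nlinarith [sq_nonneg (‖W f α L x‖ - ‖W g α L x‖)]

end Pool.Agent.Lib.MP_68a45e_nt.Av
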