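import Pool.Agent.Lib.MP_68a45e_nt.Delta

set_option autoImplicit false

namespace Pool.Agent.Lib.MP_68a45e_nt

open Finset

variable {K : ℕ}

lemma prod_update_eq (q : Fin K → ℕ) (i : Fin K) (a : ℕ) :
    ∏ l, Function.update q i a l = a * ∏ l, Function.update q i 1 l := by
  rw [Finset.prod_update_of_mem (mem_univ i), Finset.prod_update_of_mem (mem_univ i), one_mul]

lemma prod_eq_mul_update (q : Fin K → ℕ) (i : Fin K) :
    ∏ l, q l = q i * ∏ l, Function.update q i 1 l := by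
  rw [← prod_update_eq, Function.update_eq_self]

lemma PC.update {q : Fin K → ℕ} (hq : PC q) (i : Fin K) {a : ℕ}
    (ha : ∀ l, l ≠ i → a.Coprime (q l)) : PC (Function.update q i a) := by
  intro l l' hne
  by_cases e : l = i
  · subst e
    rw [Function.update_self, Function.update_of_ne hne.symm]; exact ha _ hne.symm
  · by_cases e' : l' = i
    · subst e'
      rw [Function.update_self, Function.update_of_ne e]; exact (ha _ e).symm
    · rw [Function.update_of_ne e, Function.update_of_ne e']; exact hq _ _ hne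

lemma PC.update_one {q : Fin K → ℕ} (hq : PC q) (i : Fin K) : PC (Function.update q i 1) :=
  hq.update i (fun _ _ => Nat.coprime_one_left _)

namespace Setup
variable (S : Setup K)

lemma cop_mod {q : Fin K → ℕ} (hq : S.Adm q) (hc : PC q) (i : Fin K) :
    (q i).Coprime (S.W * ∏ l, Function.update q i 1 l) := by
  apply Nat.Coprime.mul_right (Nat.Coprime.coprime_dvd_left (hq i) S.cop)
  apply Nat.Coprime.prod_right
  intro l _
  by_cases e : l = i
  · rw [e, Function.update_self]; exact Nat.coprime_one_right _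
  · rw [Function.update_of_ne e]; exact hc _ _ (Ne.symm e)

lemma cop_mod_prime {q : Fin K → ℕ} (i : Fin K) {p : ℕ} (hp : p.Prime) (hpN : p ∣ S.N)
    (hpq : ¬ p ∣ ∏ l, q l) : p.Coprime (S.W * ∏ l, Function.update q i 1 l) := by
  apply Nat.Coprime.mul_right (Nat.Coprime.coprime_dvd_left hpN S.cop)
  rw [hp.coprime_iff_not_dvd]
  intro hd
  apply hpq
  rw [prod_eq_mul_update q i]
  exact hd.mul_left _

lemma unit_class {o : Fin K → ℕ} (ho : S.Adm o) (i : Fin K) (hi : o i = 1) {a : ℕ}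
    (ha : ∀ n : ℕ, (n ≡ S.b [MOD S.W] ∧ ∀ l, o l ∣ n + S.h l) ↔ n ≡ a [MOD S.W * ∏ l, o l]) :
    IsUnit ((a + S.h i : ℕ) : ZMod (S.W * ∏ l, o l)) := by
  rw [ZMod.isUnit_iff_coprime]
  obtain ⟨h1, h2⟩ := (ha a).mpr (Nat.ModEq.refl a)
  apply Nat.Coprime.mul_right
  · have := (h1.add_right (S.h i)).gcd_eq
    rw [Nat.Coprime, this]; exact S.hb i
  · apply Nat.Coprime.prod_right
    intro l _
    by_cases e : l = i
    · rw [e, hi]; exact Nat.coprime_one_right _
    · by_contra hn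
      obtain ⟨p, hp, d1, d2⟩ := Nat.Prime.not_coprime_iff_dvd.mp hn
      apply S.sep p hp (d2.trans (ho l)) l i e
      apply Nat.ModEq.add_left_cancel' a
      exact (Nat.modEq_zero_iff_dvd.mpr (d2.trans (h2 l))).trans
        (Nat.modEq_zero_iff_dvd.mpr d1).symm

lemma cnt_eq {q : Fin K → ℕ} (hq : S.Adm q) (hc : PC q) (i : Fin K) {p : ℕ} (hp : p.Prime)
    (hpN : p ∣ S.N) (hpq : ¬ p ∣ ∏ l, q l) (hi : S.h i < p) {a r : ℕ}
    (hr : r = S.W * ∏ l, Function.update q i 1 l)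
    (ha : ∀ n : ℕ, (n ≡ S.b [MOD S.W] ∧ ∀ l, Function.update q i 1 l ∣ n + S.h l) ↔
      n ≡ a [MOD r]) (t : ℕ) :
    S.cnt (Function.update q i (q i * p)) t =
      ((Icc 1 ((t + S.h i) / (p * q i))).filter (fun w : ℕ => (w : ZMod r) =
        ((a + S.h i : ℕ) : ZMod r) * (p : ZMod r)⁻¹ * (q i : ZMod r)⁻¹)).card := by
  have hm : (q i).Coprime r := hr ▸ S.cop_mod hq hc i
  have hpr : p.Coprime r := hr ▸ S.cop_mod_prime i hp hpN hpq
  have hm0 := hq.pos i
  have hpm : 0 < p * q i := Nat.mul_pos hp.pos hm0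
  have hpm' : p ≤ p * q i := Nat.le_mul_of_pos_right _ hm0
  have u1 := ZMod.coe_mul_inv_eq_one _ hm
  have u2 := ZMod.coe_mul_inv_eq_one _ hpr
  have hcond : ∀ n : ℕ, (n ≡ S.b [MOD S.W] ∧ ∀ l, Function.update q i (q i * p) l ∣ n + S.h l) ↔
      n ≡ a [MOD r] ∧ p * q i ∣ n + S.h i := by
    intro n
    rw [← ha, and_assoc]
    apply and_congr_right
    intro _
    constructor
    · intro H
      refine ⟨fun l => ?_, by simpa [mul_comm] using H i⟩
      by_cases e : l = i
      · rw [e, Function.update_self]; exact one_dvd _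
      · simpa [Function.update_of_ne e] using H l
    · rintro ⟨H1, H2⟩ l
      by_cases e : l = i
      · rw [e, Function.update_self, mul_comm]; exact H2
      · simpa [Function.update_of_ne e] using H1 l
  have hw : ∀ n w : ℕ, n + S.h i = p * q i * w → (n ≡ a [MOD r] ↔ (w : ZMod r) =
      ((a + S.h i : ℕ) : ZMod r) * (p : ZMod r)⁻¹ * (q i : ZMod r)⁻¹) := by
    intro n w e
    have e' : (n : ZMod r) + S.h i = p * q i * w := by exact_mod_cast congrArg (Nat.cast : ℕ → ZMod r) e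
    rw [← ZMod.natCast_eq_natCast_iff]
    push_cast
    constructor
    · intro h1
      rw [← h1, e']
      linear_combination (-(w : ZMod r)) * u1 - ((w : ZMod r) * (q i) * (q i : ZMod r)⁻¹) * u2
    · intro h1
      rw [h1] at e'
      linear_combination e' + ((a : ZMod r) + S.h i) * u1 +
        (((a : ZMod r) + S.h i) * (q i) * (q i : ZMod r)⁻¹) * u2
  unfold cnt
  simp only [hcond]
  apply Finset.card_nbij' (fun n => (n + S.h i) / (p * q i)) (fun w => p * q i * w - S.h i)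
  · intro n hn
    simp only [coe_filter, mem_Icc, Set.mem_ofPred_eq] at hn ⊢
    obtain ⟨⟨h1, h2⟩, h3, h4⟩ := hn
    refine ⟨⟨Nat.div_pos (Nat.le_of_dvd (by omega) h4) hpm, Nat.div_le_div_right (by omega)⟩, ?_⟩
    exact (hw n _ (Nat.mul_div_cancel' h4).symm).mp h3
  · intro w hw'
    simp only [coe_filter, mem_Icc, Set.mem_ofPred_eq] at hw' ⊢
    obtain ⟨⟨h1, h2⟩, h3⟩ := hw'
    have h4 : p * q i ≤ p * q i * w := Nat.le_mul_of_pos_right _ h1
    have h5 : p * q i * w ≤ t + S.h i := by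
      rw [mul_comm]; exact (Nat.le_div_iff_mul_le hpm).mp h2
    have h6 : p * q i * w - S.h i + S.h i = p * q i * w := by omega
    refine ⟨⟨by omega, by omega⟩, (hw _ w h6).mpr h3, ?_⟩
    rw [h6]; exact Dvd.intro _ rfl
  · intro n hn
    simp only [coe_filter, mem_Icc, Set.mem_ofPred_eq] at hn
    simp only [Nat.mul_div_cancel' hn.2.2]
    omega
  · intro w hw'
    simp only [coe_filter, mem_Icc, Set.mem_ofPred_eq] at hw'
    have h4 : p * q i ≤ p * q i * w := Nat.le_mul_of_pos_right _ hw'.1.1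
    have h6 : p * q i * w - S.h i + S.h i = p * q i * w := by omega
    simp only [h6]
    exact Nat.mul_div_cancel_left _ hpm

lemma cnt_sub_le (q : Fin K → ℕ) (t t' : ℕ) (h : t ≤ t') :
    (S.cnt q t' : ℝ) ≤ S.cnt q t + ∑ n ∈ Ioc t t', ind S.h q n := by
  have e : Icc 1 t' = Icc 1 t ∪ Ioc t t' := by ext n; simp; omega
  have h1 : S.cnt q t' ≤ S.cnt q t + ((Ioc t t').filter (fun n => ∀ l, q l ∣ n + S.h l)).card := by
    unfold cnt
    rw [e, filter_union]
    refine (card_union_le _ _).trans (Nat.add_le_add_left (card_le_card ?_) _)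
    intro n hn
    simp only [mem_filter] at hn ⊢
    exact ⟨hn.1, hn.2.2⟩
  have h2 : ∑ n ∈ Ioc t t', ind S.h q n =
      ((Ioc t t').filter (fun n => ∀ l, q l ∣ n + S.h l)).card := by
    simp only [ind]; rw [sum_boole]
  rw [h2]; exact_mod_cast h1

/-- comparison of the error term with a deviation whose range does not depend on `p` -/
lemma Del_sub_dev {q : Fin K → ℕ} (hq : S.Adm q) (hc : PC q) (i : Fin K) {p : ℕ} (hp : p.Prime)
    (hpN : p ∣ S.N) (hpq : ¬ p ∣ ∏ l, q l) (hi : S.h i < p) {a r : ℕ}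
    (hr : r = S.W * ∏ l, Function.update q i 1 l)
    (ha : ∀ n : ℕ, (n ≡ S.b [MOD S.W] ∧ ∀ l, Function.update q i 1 l ∣ n + S.h l) ↔
      n ≡ a [MOD r]) (y Z : ℕ) (hy : 0 < y) (hZ : 0 < Z) (hyZ : y * Z ≤ p) :
    |S.Del (ind S.h q * indp (S.h i) p) - dev r ((S.x + S.h i) / (p / Z * Z * q i))
        (((a + S.h i : ℕ) : ZMod r) * (p : ZMod r)⁻¹ * (q i : ZMod r)⁻¹)| ≤
      ∑ n ∈ Ioc S.x (S.x + (S.x + S.h i) / y), ind S.h q n * indp (S.h i) p n +
        1 / ((∏ l, Function.update q i 1 l : ℕ) : ℝ) +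
        (((S.x + S.h i) / y : ℕ) + S.h i : ℝ) * (1 / (p : ℝ) * (1 / ((∏ l, q l : ℕ) : ℝ))) := by
  have hm0 := hq.pos i
  have hcop : (q i).Coprime p := by
    rw [Nat.coprime_comm, hp.coprime_iff_not_dvd]
    exact fun hd => hpq (hd.trans (dvd_prod_of_mem _ (mem_univ i)))
  have hlcm : Nat.lcm (q i) p = q i * p := hcop.lcm_eq_mul
  have hq' : S.Adm (Function.update q i (q i * p)) :=
    hq.update i (hcop.mul_dvd_of_dvd_of_dvd (hq i) hpN)
  have hc' : PC (Function.update q i (q i * p)) := by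
    apply hc.update
    intro l hl
    apply Nat.Coprime.mul_left (hc _ _ (Ne.symm hl))
    rw [hp.coprime_iff_not_dvd]
    exact fun hd => hpq (hd.trans (dvd_prod_of_mem _ (mem_univ l)))
  have hsum : ∑ n ∈ Ioc S.x (S.x + (S.x + S.h i) / y), ind S.h q n * indp (S.h i) p n =
      ∑ n ∈ Ioc S.x (S.x + (S.x + S.h i) / y), ind S.h (Function.update q i (q i * p)) n := by
    rw [← hlcm, ← ind_mul_indp]; rfl
  rw [hsum, ind_mul_indp, hlcm, S.Del_ind hq' hc', prod_update_eq, prod_eq_mul_update q i]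
  have c1 := S.cnt_eq hq hc i hp hpN hpq hi hr ha S.x
  have c2 := S.cnt_eq hq hc i hp hpN hpq hi hr ha (S.x + (S.x + S.h i) / y)
  have c3 := S.cnt_sub_le (Function.update q i (q i * p)) S.x (S.x + (S.x + S.h i) / y)
    (Nat.le_add_right _ _)
  have ho : 0 < ∏ l, Function.update q i 1 l := (hq.update i (one_dvd _)).prod_pos
  set o := ∏ l, Function.update q i 1 l with hodef
  set X := S.x + S.h i with hX
  set m := q i with hmdef
  set P0 := p / Z * Z with hP0
  set t' := X / (P0 * m) with ht'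
  set t := X / (p * m) with ht
  have hP1 : P0 ≤ p := Nat.div_mul_le_self p Z
  have hP2 : p < P0 + Z := by
    have := Nat.lt_div_mul_add (a := p) hZ
    omega
  have hP3 : y * Z ≤ P0 := Nat.mul_le_mul_right _ ((Nat.le_div_iff_mul_le hZ).mpr hyZ)
  have hP4 : 0 < P0 := lt_of_lt_of_le (Nat.mul_pos hy hZ) hP3
  have htt : t ≤ t' := Nat.div_le_div_left (Nat.mul_le_mul_right _ hP1) (Nat.mul_pos hP4 hm0)
  have h1 : P0 * m * t' ≤ X := Nat.mul_div_le _ _
  have h2 : Z * m * t' ≤ X / y := by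
    rw [Nat.le_div_iff_mul_le hy]
    calc Z * m * t' * y = (y * Z) * m * t' := by ring
      _ ≤ P0 * m * t' := by gcongr
      _ ≤ X := h1
  have h3 : p * m * t' ≤ X + X / y := by
    calc p * m * t' ≤ (P0 + Z) * m * t' := by gcongr
      _ = P0 * m * t' + Z * m * t' := by ring
      _ ≤ _ := Nat.add_le_add h1 h2
  have hpm : 0 < p * m := Nat.mul_pos hp.pos hm0
  have h4 : t' ≤ (S.x + X / y + S.h i) / (p * m) := by
    rw [Nat.le_div_iff_mul_le hpm, mul_comm]; omega
  have h5 : X < p * m * (t + 1) := Nat.lt_mul_div_succ X hpm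
  set cw : ℕ → ℕ := fun s => ((Icc 1 s).filter (fun w : ℕ => (w : ZMod r) =
        ((a + S.h i : ℕ) : ZMod r) * (p : ZMod r)⁻¹ * (m : ZMod r)⁻¹)).card with hcw
  have hmono : ∀ s s', s ≤ s' → cw s ≤ cw s' := fun s s' hs =>
    card_le_card (filter_subset_filter _ (Icc_subset_Icc_right hs))
  have d1 : (cw t : ℝ) ≤ cw t' := by exact_mod_cast hmono _ _ htt
  have d2 : (cw t' : ℝ) ≤ cw ((S.x + X / y + S.h i) / (p * m)) := by exact_mod_cast hmono _ _ h4
  rw [c2, c1] at c3
  rw [c1]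
  change |(cw t : ℝ) - _ - ((cw t' : ℝ) - _)| ≤ _
  change (cw _ : ℝ) ≤ cw t + _ at c3
  set B := ∑ n ∈ Ioc S.x (S.x + X / y), ind S.h (Function.update q i (m * p)) n with hB
  have hW : (1 : ℝ) ≤ S.W := by exact_mod_cast S.hW
  have hp' : (0 : ℝ) < p := by exact_mod_cast hp.pos
  have hm' : (0 : ℝ) < m := by exact_mod_cast hm0
  have ho' : (0 : ℝ) < o := by exact_mod_cast ho
  have h3' : (p : ℝ) * m * t' ≤ S.x + S.h i + (X / y : ℕ) := by exact_mod_cast h3
  have h5' : (S.x : ℝ) + S.h i < p * m * (t + 1) := by exact_mod_cast h5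
  have htt' : (t : ℝ) ≤ t' := by exact_mod_cast htt
  have hh : (0 : ℝ) ≤ S.h i := by positivity
  have hXy : (0 : ℝ) ≤ (X / y : ℕ) := by positivity
  have key : |(t' : ℝ) - S.x / (p * m)| ≤ 1 + ((X / y : ℕ) + S.h i) / (p * m) := by
    have hpm' : (0 : ℝ) < p * m := by positivity
    have a1 : (t' : ℝ) ≤ S.x / (p * m) + ((X / y : ℕ) + S.h i) / (p * m) := by
      rw [← add_div, le_div_iff₀ hpm']; linarith
    have a2 : S.x / (p * m) ≤ (t' : ℝ) + 1 := by
      rw [div_le_iff₀ hpm']; nlinarith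
    have a3 : 0 ≤ (((X / y : ℕ) : ℝ) + S.h i) / (p * m) := by positivity
    rw [abs_le]; constructor <;> linarith
  have key2 : |(t' : ℝ) / r - S.x / (S.W * (m * p * o) : ℕ)| ≤
      1 / (o : ℝ) + (((X / y : ℕ) : ℝ) + S.h i) * (1 / (p : ℝ) * (1 / ((m * o : ℕ) : ℝ))) := by
    have e1 : (t' : ℝ) / r - S.x / (S.W * (m * p * o) : ℕ) =
        ((t' : ℝ) - S.x / (p * m)) / (S.W * o) := by
      rw [hr]; push_cast; field_simp
    have e2 : 1 / (o : ℝ) + (((X / y : ℕ) : ℝ) + S.h i) * (1 / (p : ℝ) * (1 / ((m * o : ℕ) : ℝ))) =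
        (1 + ((X / y : ℕ) + S.h i) / (p * m)) / o := by
      push_cast; field_simp
    rw [e1, e2, abs_div, abs_of_pos (by positivity : (0 : ℝ) < S.W * o)]
    apply div_le_div₀ (by positivity) key ho'
    nlinarith
  rw [abs_le] at key2 ⊢
  constructor <;> linarith [key2.1, key2.2]

end Setup

end Pool.Agent.Lib.MP_68a45e_nt
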