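import Pool.Agent.Lib.MP_68a45e_nt.Lower

set_option autoImplicit false

namespace Pool.Agent.Lib.MP_68a45e_nt

open Finset

variable {K : ℕ}

lemma card_pi (s : Finset (Fin K)) (m σ : ℕ) (hs : s.card = m + 1) :
    (piAntidiag s σ).card = (σ + m).choose m := by
  have h := Finset.card_finsuppAntidiag_nat_eq_choose (s := s) σ
  rw [finsuppAntidiag, card_map, card_attach, hs] at h
  rw [h, show m + 1 + σ - 1 = σ + m by omega, Nat.choose_symm_add]

lemma choose_prod (σ m : ℕ) :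
    (m.factorial : ℝ) * (σ + m).choose m = ∏ i ∈ range m, ((σ : ℝ) + 1 + i) := by
  have h := Nat.ascFactorial_eq_factorial_mul_choose σ m
  rw [Nat.ascFactorial_eq_prod_range] at h
  exact_mod_cast h.symm

lemma choose_lower (σ m : ℕ) : (σ : ℝ) ^ m / m.factorial ≤ (σ + m).choose m := by
  rw [div_le_iff₀' (by positivity), choose_prod]
  calc (σ : ℝ) ^ m = ∏ _i ∈ range m, (σ : ℝ) := by simp
    _ ≤ _ := prod_le_prod (fun _ _ => by positivity) (fun i _ => by
        have : (0 : ℝ) ≤ i := by positivity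
        linarith)

lemma choose_ratio (σ T J m : ℕ) (hT : T ≤ σ) (hJ : σ + m ≤ J) :
    ((σ - T + m).choose m : ℝ) ≤ (1 - T / J) ^ m * (σ + m).choose m := by
  have hf : (0 : ℝ) < m.factorial := by positivity
  apply le_of_mul_le_mul_left _ hf
  rw [choose_prod, mul_left_comm, choose_prod, Nat.cast_sub hT]
  have hT' : (T : ℝ) ≤ σ := by exact_mod_cast hT
  calc _ ≤ ∏ i ∈ range m, ((1 - (T : ℝ) / J) * ((σ : ℝ) + 1 + i)) := by
        apply prod_le_prod
        · intro i _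
          have : (0 : ℝ) ≤ i := by positivity
          linarith
        · intro i hi
          have h1 : (σ : ℝ) + 1 + i ≤ J := by
            have := mem_range.mp hi
            exact_mod_cast (by omega : σ + 1 + i ≤ J)
          have h2 : (0 : ℝ) < σ + 1 + i := by positivity
          have h3 : (T : ℝ) / J * (σ + 1 + i) ≤ T := by
            rw [div_mul_eq_mul_div, div_le_iff₀ (by linarith)]
            exact mul_le_mul_of_nonneg_left h1 (by positivity)
          linarith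
    _ = _ := by rw [prod_mul_distrib]; simp

/-- configurations of the other coordinates -/
def Cf (i : Fin K) (T σ : ℕ) : Finset (Fin K → ℕ) :=
  (piAntidiag (univ.erase i) σ).filter (fun j => ∀ l, l < i → j l < T)

lemma Cf_card (i : Fin K) (m T σ J : ℕ) (hK : K = m + 2) (hT : T ≤ σ) (hJ : σ + m ≤ J)
    (hi : (i.val : ℝ) * (1 - T / J) ^ m ≤ 1 / 2) :
    (σ : ℝ) ^ m / m.factorial / 2 ≤ (Cf i T σ).card := by
  classical
  have hs : (univ.erase i).card = m + 1 := by simp [card_erase_of_mem, hK]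
  have h1 : piAntidiag (univ.erase i) σ ⊆ Cf i T σ ∪ (Iio i).biUnion
      (fun l => (piAntidiag (univ.erase i) σ).filter (fun j => T ≤ j l)) := by
    intro j hj
    by_cases h : ∀ l, l < i → j l < T
    · exact mem_union_left _ (mem_filter.mpr ⟨hj, h⟩)
    · push Not at h
      obtain ⟨l, h1, h2⟩ := h
      exact mem_union_right _ (mem_biUnion.mpr ⟨l, mem_Iio.mpr h1, mem_filter.mpr ⟨hj, h2⟩⟩)
  have h2 : ∀ l ∈ Iio i, ((piAntidiag (univ.erase i) σ).filter (fun j => T ≤ j l)).card ≤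
      (σ - T + m).choose m := by
    intro l hl
    have hl' : l ∈ univ.erase i := by simpa using (mem_Iio.mp hl).ne
    rw [← card_pi _ m _ hs]
    apply card_le_card_of_injOn (fun j => Function.update j l (j l - T))
    · intro j hj
      obtain ⟨a1, a2⟩ := mem_filter.mp hj
      rw [mem_piAntidiag] at a1
      rw [mem_coe, mem_piAntidiag]
      beta_reduce
      constructor
      · have b1 := Finset.sum_update_of_mem hl' j (j l - T)
        have b2 := Finset.sum_update_of_mem hl' j (j l)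
        rw [Function.update_eq_self] at b2
        have b3 : ∑ x ∈ univ.erase i, j x = σ := a1.1
        change ∑ x ∈ univ.erase i, Function.update j l (j l - T) x = σ - T
        omega
      · intro l' h'
        by_cases e : l' = l
        · rw [e]; exact hl'
        · rw [Function.update_of_ne e] at h'; exact a1.2 _ h'
    · intro j hj j' hj' e
      funext l'
      have b := congrFun e l'
      by_cases e' : l' = l
      · subst e'
        simp only [Function.update_self] at b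
        have := (mem_filter.mp hj).2
        have := (mem_filter.mp hj').2
        omega
      · simpa [Function.update_of_ne e'] using b
  have h3 := (card_le_card h1).trans ((card_union_le _ _).trans (Nat.add_le_add_left
    (card_biUnion_le.trans (sum_le_sum h2)) _))
  rw [card_pi _ m _ hs, sum_const, Fin.card_Iio, smul_eq_mul] at h3
  have h4 : ((σ + m).choose m : ℝ) ≤ (Cf i T σ).card + i.val * (σ - T + m).choose m := by
    exact_mod_cast h3
  have h5 := mul_le_mul_of_nonneg_left (choose_ratio σ T J m hT hJ)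
    (by positivity : (0 : ℝ) ≤ i.val)
  have h6 := mul_le_mul_of_nonneg_right hi (by positivity : (0 : ℝ) ≤ (σ + m).choose m)
  have h7 := choose_lower σ m
  linarith

def J0 (K J : ℕ) : Finset (Fin K → ℕ) := (range (J - K + 1)).biUnion (fun σ => piAntidiag univ σ)

lemma J0_card (hK : 1 ≤ K) (J : ℕ) : ((J - K : ℕ) : ℝ) ^ K / K.factorial ≤ (J0 K J).card := by
  obtain ⟨m, rfl⟩ : ∃ m, K = m + 1 := ⟨K - 1, by omega⟩
  rw [J0, card_biUnion]
  · rw [sum_congr rfl (fun σ _ => card_pi univ m σ (by simp)), Nat.sum_range_add_choose]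
    exact choose_lower _ _
  · intro σ _ σ' _ hne
    rw [Function.onFun, disjoint_left]
    intro j h1 h2
    exact hne ((mem_piAntidiag.mp h1).1.symm.trans (mem_piAntidiag.mp h2).1)

namespace Par
variable (Q : Par)

def Jz (ω : ℕ) (i : Fin K) (v : ℕ) : Finset (Fin K → ℕ) :=
  ((((Ico Q.U Q.U').filter (fun u => Q.T ≤ u + v ∧ u + v < Q.T + ω)) ×ˢ range (Q.Δ - K)).sigma
    (fun z => Cf i Q.T (Q.J - (z.1 + v) + z.2))).image (fun z => Function.update z.2 i z.1.1)

lemma Jz_card (ω : ℕ) (i : Fin K) (v : ℕ) (c : ℝ)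
    (hc : ∀ s e, Q.T ≤ s → s < Q.T + ω → e < Q.Δ - K → c ≤ (Cf i Q.T (Q.J - s + e)).card) :
    ((Ico Q.U Q.U').filter (fun u => Q.T ≤ u + v ∧ u + v < Q.T + ω)).card * ((Q.Δ - K : ℕ) * c) ≤
      (Q.Jz ω i v).card := by
  rw [Jz, card_image_of_injOn, card_sigma]
  · push_cast
    refine le_trans (le_of_eq ?_) (sum_le_sum (f := fun _ => c) ?_)
    · simp [mul_assoc]
    intro z hz
    obtain ⟨h1, h2⟩ := mem_product.mp hz
    exact hc _ _ (mem_filter.mp h1).2.1 (mem_filter.mp h1).2.2 (by simpa using h2)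
  · rintro ⟨⟨u, e⟩, j⟩ hz ⟨⟨u', e'⟩, j'⟩ hz' h
    simp only [coe_sigma, Set.mem_sigma_iff, mem_coe, Cf, mem_filter, mem_piAntidiag] at hz hz'
    have h1 : u = u' := by simpa using congrFun h i
    have h2 : j = j' := by
      funext l
      by_cases hl : l = i
      · subst hl
        have a1 : j l = 0 := by by_contra hc; simpa using hz.2.1.2 l hc
        have a2 : j' l = 0 := by by_contra hc; simpa using hz'.2.1.2 l hc
        rw [a1, a2]
      · simpa [Function.update_of_ne hl] using congrFun h l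
    subst h1 h2
    have := hz.2.1.1.symm.trans hz'.2.1.1
    have h3 : e = e' := by omega
    subst h3; rfl

lemma Jz_prop (ω : ℕ) (hω : Q.T + ω ≤ Q.J) (i : Fin K) (v : ℕ) {j : Fin K → ℕ}
    (hj : j ∈ Q.Jz ω i v) : Q.U ≤ j i ∧ j i < Q.U' ∧ (∀ l, l < i → j l < Q.T) ∧ Q.T ≤ j i + v ∧
      Q.J ≤ ∑ l, j l + v ∧ ∑ l, j l + K + (v + 1) ≤ Q.J + Q.Δ := by
  obtain ⟨⟨⟨u, e⟩, j'⟩, hz, rfl⟩ := mem_image.mp hj
  simp only [mem_sigma, mem_product, mem_filter, mem_Ico, mem_range, Cf, mem_piAntidiag] at hz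
  simp only [Function.update_self]
  have h1 := Finset.sum_update_of_mem (mem_univ i) j' u
  rw [sdiff_singleton_eq_erase, hz.2.1.1] at h1
  refine ⟨hz.1.1.1.1, hz.1.1.1.2, fun l hl => ?_, hz.1.1.2.1, by omega, by omega⟩
  rw [Function.update_of_ne hl.ne]; exact hz.2.2 l hl

end Par

lemma box_prod {y : ℕ} (hK : 1 ≤ K) {j r : Fin K → ℕ}
    (h : ∀ l, y ^ j l ≤ r l ∧ r l < y ^ (j l + 1)) :
    y ^ (∑ l, j l) ≤ ∏ l, r l ∧ (0 < y → ∏ l, r l < y ^ (∑ l, j l + K)) := by
  constructor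
  · rw [← prod_pow_eq_pow_sum]; exact prod_le_prod' (fun l _ => (h l).1)
  · intro hy
    have e : y ^ (∑ l, j l + K) = ∏ l, y ^ (j l + 1) := by
      rw [prod_pow_eq_pow_sum, sum_add_distrib]; simp
    rw [e]
    exact prod_lt_prod_of_nonempty (fun l _ => (pow_pos hy _).trans_le (h l).1)
      (fun l _ => (h l).2) ⟨⟨0, hK⟩, mem_univ _⟩

lemma G_lower (hK : 1 ≤ K) (Q : Par) (ω : ℕ) (hω : Q.T + ω ≤ Q.J) (hKJ : K ≤ Q.J) (w : ℕ)
    (hw : 1 ≤ w) : ∃ y0 : ℕ, ∀ y : ℕ, y0 ≤ y → ∀ η : ℝ, 0 ≤ η →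
    η ≤ ((primorial w).totient : ℝ) / primorial w * Real.log y - 2 * (2 * primorial w + 1) →
    ((J0 K Q.J).card + 1 / (5 * (Q.V' : ℝ)) * ∑ z ∈ Q.Idx K, ((Q.Jz ω z.1 z.2).card : ℝ)) * η ^ K -
      (1 + K) * (3 * K ^ 2 / w * HW (primorial w) (y ^ (Q.J + Q.Δ)) ^ K) ≤
      ∑ r ∈ Q.S0 (NN w (y ^ (Q.J + Q.Δ))) y K, gw K (∏ l, r l) +
      ∑ z ∈ Q.Idx K, ∑ r ∈ Q.Rv (NN w (y ^ (Q.J + Q.Δ))) y z.1 z.2,
        th K (NN w (y ^ (Q.J + Q.Δ))) y z.2 r * gw K (∏ l, r l) := by
  obtain ⟨y0, hy0⟩ := th_lower hK w (Q.J + Q.Δ) Q.V'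
  refine ⟨y0 + 2, fun y hy η hη0 hη => ?_⟩
  have hy1 : 0 < y := by omega
  have pw : ∀ a b, a ≤ b → y ^ a ≤ y ^ b := fun a b h => Nat.pow_le_pow_right hy1 h
  set Er : ℝ := 3 * K ^ 2 / w * HW (primorial w) (y ^ (Q.J + Q.Δ)) ^ K with hEr
  have hEr0 : 0 ≤ Er := by have := HW_nonneg (primorial w) (y ^ (Q.J + Q.Δ)); positivity
  have hJ0 : ∀ j ∈ J0 K Q.J, ∑ l, j l + K ≤ Q.J := by
    intro j hj
    obtain ⟨σ, h1, h2⟩ := mem_biUnion.mp hj
    have : ∑ l, j l = σ := (mem_piAntidiag.mp h2).1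
    have := mem_range.mp h1
    omega
  have hs : ∀ (j : Fin K → ℕ) l, j l ≤ ∑ l, j l := fun j l =>
    single_le_sum (fun _ _ => Nat.zero_le _) (mem_univ l)
  have b0 := box_lower hK w y (Q.J + Q.Δ) hw (by omega) (J0 K Q.J)
    (fun j hj l => by have := hJ0 j hj; have := hs j l; omega) (fun r => ∏ l, r l < y ^ Q.J)
    (fun j hj r hr => ((box_prod hK hr).2 hy1).trans_le (pw _ _ (hJ0 j hj))) η hη0 hη
  have b1 : ∀ z ∈ Q.Idx K, 1 / (5 * (Q.V' : ℝ)) * ((Q.Jz ω z.1 z.2).card * η ^ K - Er) ≤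
      ∑ r ∈ Q.Rv (NN w (y ^ (Q.J + Q.Δ))) y z.1 z.2,
        th K (NN w (y ^ (Q.J + Q.Δ))) y z.2 r * gw K (∏ l, r l) := by
    intro z hz
    obtain ⟨hv, hv'⟩ := mem_Ico.mp (mem_product.mp hz).2
    have c := box_lower hK w y (Q.J + Q.Δ) hw (by omega) (Q.Jz ω z.1 z.2)
      (fun j hj l => by have := Q.Jz_prop ω hω _ _ hj; have := hs j l; omega)
      (fun r => y ^ Q.U ≤ r z.1 ∧ r z.1 < y ^ Q.U' ∧ (∀ l, l < z.1 → r l < y ^ Q.T) ∧
        y ^ Q.T ≤ r z.1 * y ^ z.2 ∧ y ^ Q.J ≤ (∏ l, r l) * y ^ z.2 ∧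
        (∏ l, r l) * y ^ (z.2 + 1) ≤ y ^ (Q.J + Q.Δ))
      (by
        intro j hj r hr
        obtain ⟨a1, a2, a3, a4, a5, a6⟩ := Q.Jz_prop ω hω _ _ hj
        obtain ⟨p1, p2⟩ := box_prod hK hr
        refine ⟨(pw _ _ a1).trans (hr _).1, (hr _).2.trans_le (pw _ _ a2),
          fun l hl => (hr l).2.trans_le (pw _ _ (a3 l hl)), ?_, ?_, ?_⟩
        · exact (pw _ _ a4).trans (by rw [pow_add]; exact Nat.mul_le_mul_right _ (hr _).1)
        · exact (pw _ _ a5).trans (by rw [pow_add]; exact Nat.mul_le_mul_right _ p1)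
        · exact le_trans (by rw [pow_add y _ (z.2 + 1)]; exact Nat.mul_le_mul_right _ (p2 hy1).le)
            (pw _ _ a6)) η hη0 hη
    refine (mul_le_mul_of_nonneg_left c (by positivity)).trans ?_
    rw [mul_sum]
    apply sum_le_sum
    intro r hr
    apply mul_le_mul_of_nonneg_right _ (gw_nonneg hK _)
    simp only [Gd, mem_filter, mem_divs (fun _ => (NN_sqf w _).ne_zero)] at hr
    have c3 := Q.c3
    have c4 := Q.c4
    exact hy0 y (by omega) z.2 (by omega) hv' (by omega) r (prod_pos (fun l _ =>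
      Nat.pos_of_dvd_of_pos (hr.1.1 l) (Nat.pos_of_ne_zero (NN_sqf w _).ne_zero)))
      ((Nat.le_mul_of_pos_right _ (by positivity)).trans hr.2.2.2.2.2.2)
  have b2 := sum_le_sum b1
  rw [← mul_sum, sum_sub_distrib, ← sum_mul, sum_const, nsmul_eq_mul] at b2
  have b3 : 1 / (5 * (Q.V' : ℝ)) * ((Q.Idx K).card * Er) ≤ K * Er := by
    rw [← mul_assoc]
    apply mul_le_mul_of_nonneg_right _ hEr0
    have h1 : (Q.Idx K).card ≤ K * Q.V' := by
      rw [Par.Idx, card_product]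
      exact Nat.mul_le_mul ((card_le_univ _).trans (by simp)) (by simp)
    have h2 : ((Q.Idx K).card : ℝ) ≤ K * Q.V' := by exact_mod_cast h1
    rcases Nat.eq_zero_or_pos Q.V' with h | h
    · simp [h]
    · have : (0 : ℝ) < Q.V' := by exact_mod_cast h
      rw [one_div, inv_mul_le_iff₀ (by positivity)]
      have : (0 : ℝ) ≤ K * Q.V' := by positivity
      nlinarith
  rw [mul_sub] at b2
  unfold Par.S0
  linarith

end Pool.Agent.Lib.MP_68a45e_nt
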