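import Pool.Agent.Lib.MP_68a45e_nt.Jsum

set_option autoImplicit false

namespace Pool.Agent.Lib.MP_68a45e_nt

open Finset

structure Setup (K : ℕ) where
  h : Fin K → ℕ
  W : ℕ
  b : ℕ
  x : ℕ
  N : ℕ
  hW : 0 < W
  hN : Squarefree N
  cop : N.Coprime W
  sep : ∀ p : ℕ, p.Prime → p ∣ N → ∀ l l', l ≠ l' → ¬ (h l ≡ h l' [MOD p])
  hb : ∀ l, (b + h l).Coprime W

lemma crt_finset {ι : Type*} [DecidableEq ι] (s : Finset ι) (q a : ι → ℕ)
    (hq : ∀ l ∈ s, ∀ l' ∈ s, l ≠ l' → (q l).Coprime (q l')) :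
    ∃ c : ℕ, ∀ n : ℕ, (∀ l ∈ s, n ≡ a l [MOD q l]) ↔ n ≡ c [MOD ∏ l ∈ s, q l] := by
  induction s using Finset.induction_on with
  | empty => exact ⟨0, fun n => by simp [Nat.modEq_one]⟩
  | insert j s hj ih =>
    obtain ⟨c, hc⟩ := ih (fun l hl l' hl' => hq l (mem_insert_of_mem hl) l' (mem_insert_of_mem hl'))
    have hco : (q j).Coprime (∏ l ∈ s, q l) := Nat.Coprime.prod_right (fun l hl =>
      hq j (mem_insert_self _ _) l (mem_insert_of_mem hl) (fun e => hj (e ▸ hl)))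
    obtain ⟨d, hd1, hd2⟩ := Nat.chineseRemainder hco (a j) c
    refine ⟨d, fun n => ?_⟩
    rw [prod_insert hj, ← Nat.modEq_and_modEq_iff_modEq_mul hco, forall_mem_insert, hc]
    exact ⟨fun h => ⟨h.1.trans hd1.symm, h.2.trans hd2.symm⟩,
      fun h => ⟨h.1.trans hd1, h.2.trans hd2⟩⟩

lemma dvd_add_iff_modEq (q n h : ℕ) (hq : 0 < q) : q ∣ n + h ↔ n ≡ (q - 1) * h [MOD q] := by
  have e : (q - 1) * h + h = q * h := by
    obtain ⟨k, rfl⟩ : ∃ k, q = k + 1 := ⟨q - 1, by omega⟩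
    simp; ring
  constructor
  · intro hd
    apply Nat.ModEq.add_right_cancel' h
    rw [e]
    exact (Nat.modEq_zero_iff_dvd.mpr hd).trans (Nat.modEq_zero_iff_dvd.mpr (Dvd.intro _ rfl)).symm
  · intro hm
    have := hm.add_right h
    rw [e] at this
    exact Nat.modEq_zero_iff_dvd.mp (this.trans (Nat.modEq_zero_iff_dvd.mpr (Dvd.intro _ rfl)))

variable {K : ℕ}

/-- pairwise coprime tuples -/
def PC (q : Fin K → ℕ) : Prop := ∀ l l', l ≠ l' → (q l).Coprime (q l')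

noncomputable def ind (h q : Fin K → ℕ) (n : ℕ) : ℝ := if ∀ l, q l ∣ n + h l then 1 else 0

noncomputable def indp (c p : ℕ) (n : ℕ) : ℝ := if p ∣ n + c then 1 else 0

lemma ind_nonneg (h q : Fin K → ℕ) (n : ℕ) : 0 ≤ ind h q n := by
  unfold ind; split_ifs <;> norm_num

lemma indp_nonneg (c p n : ℕ) : 0 ≤ indp c p n := by
  unfold indp; split_ifs <;> norm_num

lemma ind_mul (h q q' : Fin K → ℕ) :
    ind h q * ind h q' = ind h (fun l => Nat.lcm (q l) (q' l)) := by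
  funext n
  simp only [ind, Pi.mul_apply, Nat.lcm_dvd_iff, forall_and]
  by_cases h1 : ∀ l, q l ∣ n + h l <;> by_cases h2 : ∀ l, q' l ∣ n + h l <;> simp [h1, h2]

lemma ind_mul_indp (h q : Fin K → ℕ) (i : Fin K) (p : ℕ) :
    ind h q * indp (h i) p = ind h (Function.update q i (Nat.lcm (q i) p)) := by
  funext n
  have : (∀ l, Function.update q i (Nat.lcm (q i) p) l ∣ n + h l) ↔
      (∀ l, q l ∣ n + h l) ∧ p ∣ n + h i := by
    constructor
    · intro H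
      have hi := H i
      rw [Function.update_self, Nat.lcm_dvd_iff] at hi
      refine ⟨fun l => ?_, hi.2⟩
      by_cases e : l = i
      · rw [e]; exact hi.1
      · simpa [Function.update_of_ne e] using H l
    · rintro ⟨H1, H2⟩ l
      by_cases e : l = i
      · rw [e, Function.update_self, Nat.lcm_dvd_iff]; exact ⟨H1 i, H2⟩
      · simpa [Function.update_of_ne e] using H1 l
  simp only [ind, indp, Pi.mul_apply, this]
  by_cases h1 : ∀ l, q l ∣ n + h l <;> by_cases h2 : p ∣ n + h i <;> simp [h1, h2]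

lemma exists_class (h q : Fin K → ℕ) (hq : PC q) (h0 : ∀ l, 0 < q l) :
    ∃ c : ℕ, ∀ n : ℕ, (∀ l, q l ∣ n + h l) ↔ n ≡ c [MOD ∏ l, q l] := by
  obtain ⟨c, hc⟩ := crt_finset univ q (fun l => (q l - 1) * h l) (fun l _ l' _ => hq l l')
  refine ⟨c, fun n => ?_⟩
  rw [← hc]
  simp only [mem_univ, true_imp_iff]
  exact forall_congr' (fun l => dvd_add_iff_modEq _ _ _ (h0 l))

namespace Setup
variable (S : Setup K)

lemma Npos : 0 < S.N := Nat.pos_of_ne_zero S.hN.ne_zero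

/-- mean value over a period -/
noncomputable def mean : (ℕ → ℝ) →ₗ[ℝ] ℝ where
  toFun F := (∑ n ∈ range S.N, F n) / S.N
  map_add' F G := by simp [sum_add_distrib, add_div]
  map_smul' c F := by simp [← mul_sum, mul_div_assoc]

noncomputable def tot : (ℕ → ℝ) →ₗ[ℝ] ℝ where
  toFun F := ∑ n ∈ (Icc 1 S.x).filter (fun n => n ≡ S.b [MOD S.W]), F n
  map_add' F G := by simp [sum_add_distrib]
  map_smul' c F := by simp [← mul_sum]

/-- the error functional -/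
noncomputable def Del : (ℕ → ℝ) →ₗ[ℝ] ℝ := S.tot - ((S.x : ℝ) / S.W) • S.mean

lemma Del_apply (F : ℕ → ℝ) : S.Del F = S.tot F - (S.x : ℝ) / S.W * S.mean F := rfl

/-- admissible tuples of moduli -/
def Adm (q : Fin K → ℕ) : Prop := ∀ l, q l ∣ S.N

lemma Adm.pos {S : Setup K} {q : Fin K → ℕ} (hq : S.Adm q) (l : Fin K) : 0 < q l :=
  Nat.pos_of_dvd_of_pos (hq l) S.Npos

lemma Adm.prod_pos {S : Setup K} {q : Fin K → ℕ} (hq : S.Adm q) : 0 < ∏ l, q l :=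
  Finset.prod_pos (fun l _ => hq.pos l)

lemma Adm.prod_dvd {S : Setup K} {q : Fin K → ℕ} (hq : S.Adm q) (hc : PC q) : ∏ l, q l ∣ S.N :=
  Finset.prod_dvd_of_isRelPrime (fun l _ l' _ e => Nat.coprime_iff_isRelPrime.mp (hc l l' e))
    (fun l _ => hq l)

lemma Adm.cop {S : Setup K} {q : Fin K → ℕ} (hq : S.Adm q) : (∏ l, q l).Coprime S.W :=
  Nat.Coprime.prod_left (fun l _ => Nat.Coprime.coprime_dvd_left (hq l) S.cop)

lemma Adm.lcm {S : Setup K} {q q' : Fin K → ℕ} (hq : S.Adm q) (hq' : S.Adm q') :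
    S.Adm (fun l => Nat.lcm (q l) (q' l)) := fun l => Nat.lcm_dvd (hq l) (hq' l)

lemma Adm.update {S : Setup K} {q : Fin K → ℕ} (hq : S.Adm q) (i : Fin K) {a : ℕ} (ha : a ∣ S.N) :
    S.Adm (Function.update q i a) := by
  intro l
  by_cases e : l = i
  · rw [e, Function.update_self]; exact ha
  · rw [Function.update_of_ne e]; exact hq l

lemma ind_eq_zero {q : Fin K → ℕ} (hq : S.Adm q) (hc : ¬ PC q) : ind S.h q = 0 := by
  funext n
  simp only [ind, Pi.zero_apply, ite_eq_right_iff, one_ne_zero, imp_false]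
  intro H
  apply hc
  intro l l' hne
  by_contra hn
  obtain ⟨p, hp, h1, h2⟩ := Nat.Prime.not_coprime_iff_dvd.mp hn
  apply S.sep p hp (h1.trans (hq l)) l l' hne
  apply Nat.ModEq.add_left_cancel' n
  exact (Nat.modEq_zero_iff_dvd.mpr (h1.trans (H l))).trans
    (Nat.modEq_zero_iff_dvd.mpr (h2.trans (H l'))).symm

lemma exists_classW {q : Fin K → ℕ} (hq : S.Adm q) (hc : PC q) :
    ∃ c : ℕ, ∀ n : ℕ, (n ≡ S.b [MOD S.W] ∧ ∀ l, q l ∣ n + S.h l) ↔
      n ≡ c [MOD S.W * ∏ l, q l] := by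
  obtain ⟨c, hc⟩ := exists_class S.h q hc hq.pos
  obtain ⟨d, hd1, hd2⟩ := Nat.chineseRemainder hq.cop.symm S.b c
  refine ⟨d, fun n => ?_⟩
  rw [← Nat.modEq_and_modEq_iff_modEq_mul hq.cop.symm, hc]
  exact ⟨fun h => ⟨h.1.trans hd1.symm, h.2.trans hd2.symm⟩,
    fun h => ⟨h.1.trans hd1, h.2.trans hd2⟩⟩

/-- number of solutions up to `t` -/
noncomputable def cnt (q : Fin K → ℕ) (t : ℕ) : ℕ :=
  ((Icc 1 t).filter (fun n => n ≡ S.b [MOD S.W] ∧ ∀ l, q l ∣ n + S.h l)).card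

lemma Del_ind {q : Fin K → ℕ} (hq : S.Adm q) (hc : PC q) :
    S.Del (ind S.h q) = S.cnt q S.x - (S.x : ℝ) / (S.W * ∏ l, q l : ℕ) := by
  obtain ⟨c, hcc⟩ := exists_class S.h q hc hq.pos
  have h1 : S.tot (ind S.h q) = S.cnt q S.x := by
    simp only [tot, LinearMap.coe_mk, AddHom.coe_mk, ind, cnt]
    rw [sum_boole, filter_filter]
  have h2 : S.mean (ind S.h q) = 1 / ((∏ l, q l : ℕ) : ℝ) := by
    simp only [mean, LinearMap.coe_mk, AddHom.coe_mk, ind, hcc]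
    rw [sum_boole, count_class_range _ _ _ hq.prod_pos (hq.prod_dvd hc),
      Nat.cast_div (hq.prod_dvd hc) (by exact_mod_cast hq.prod_pos.ne')]
    have : (S.N : ℝ) ≠ 0 := by exact_mod_cast S.Npos.ne'
    field_simp
  rw [Del_apply, h1, h2, Nat.cast_mul]
  ring

lemma Del_ind_le {q : Fin K → ℕ} (hq : S.Adm q) : |S.Del (ind S.h q)| ≤ 1 := by
  by_cases hc : PC q
  · obtain ⟨c, hcc⟩ := S.exists_classW hq hc
    rw [S.Del_ind hq hc, cnt]
    simp only [hcc]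
    exact count_class _ _ _ (Nat.mul_pos S.hW hq.prod_pos)
  · rw [S.ind_eq_zero hq hc, map_zero]; simp

end Setup

lemma dev_le (r t : ℕ) (hr : 0 < r) (a : ZMod r) : |dev r t a| ≤ 1 := by
  have : NeZero r := ⟨hr.ne'⟩
  have := count_class t r a.val hr
  unfold dev
  have e : (Icc 1 t).filter (fun w : ℕ => (w : ZMod r) = a) =
      (Icc 1 t).filter (fun n => n ≡ a.val [MOD r]) := by
    apply filter_congr
    intro w _
    rw [← ZMod.natCast_eq_natCast_iff, ZMod.natCast_zmod_val]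
  rw [e]; exact this

lemma sum_inv_prod_le (T : Finset (Fin K → ℕ)) (D : ℕ) (hT : ∀ q ∈ T, ∀ l, q l ∈ Icc 1 D) :
    ∑ q ∈ T, (1 : ℝ) / ((∏ l, q l : ℕ) : ℝ) ≤ Hs D ^ K := by
  have e : Hs D ^ K = ∑ q ∈ Fintype.piFinset (fun _ : Fin K => Icc 1 D),
      (1 : ℝ) / ((∏ l, q l : ℕ) : ℝ) := by
    rw [Hs, Finset.sum_pow']
    apply sum_congr rfl
    intro q _
    simp
  rw [e]
  exact sum_le_sum_of_subset_of_nonneg (fun q hq => Fintype.mem_piFinset.mpr (hT q hq))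
    (fun _ _ _ => by positivity)

lemma mem_Icc_of_prod_le {q : Fin K → ℕ} (h0 : 0 < ∏ l, q l) {D : ℕ} (hD : ∏ l, q l ≤ D)
    (l : Fin K) : q l ∈ Icc 1 D := by
  have hd : q l ∣ ∏ l, q l := dvd_prod_of_mem _ (mem_univ l)
  exact mem_Icc.mpr ⟨Nat.pos_of_dvd_of_pos hd h0, (Nat.le_of_dvd h0 hd).trans hD⟩

lemma card_tuples_le (T : Finset (Fin K → ℕ)) (D : ℕ)
    (hT : ∀ q ∈ T, 0 < ∏ l, q l ∧ ∏ l, q l ≤ D) : (T.card : ℝ) ≤ D * Hs D ^ K := by
  have h1 := sum_inv_prod_le T D (fun q hq => mem_Icc_of_prod_le (hT q hq).1 (hT q hq).2)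
  calc (T.card : ℝ) = ∑ q ∈ T, (1 : ℝ) := by simp
    _ ≤ ∑ q ∈ T, (D : ℝ) * (1 / ((∏ l, q l : ℕ) : ℝ)) := by
        apply sum_le_sum
        intro q hq
        have h0 : (0 : ℝ) < ((∏ l, q l : ℕ) : ℝ) := by exact_mod_cast (hT q hq).1
        have h2 : ((∏ l, q l : ℕ) : ℝ) ≤ D := by exact_mod_cast (hT q hq).2
        rw [mul_one_div, le_div_iff₀ h0]; linarith
    _ ≤ _ := by rw [← mul_sum]; exact mul_le_mul_of_nonneg_left h1 (by positivity)

lemma card_dvd_tuples_le (T : Finset (Fin K → ℕ)) (u : Fin K → ℕ) (L : ℝ)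
    (hu : ∀ l, u l ≠ 0 ∧ ((u l).divisors.card : ℝ) ≤ L) (hT : ∀ q ∈ T, ∀ l, q l ∣ u l) :
    (T.card : ℝ) ≤ L ^ K := by
  have h1 : T.card ≤ (Fintype.piFinset (fun l => (u l).divisors)).card :=
    card_le_card (fun q hq => Fintype.mem_piFinset.mpr
      (fun l => Nat.mem_divisors.mpr ⟨hT q hq l, (hu l).1⟩))
  rw [Fintype.card_piFinset] at h1
  calc (T.card : ℝ) ≤ ∏ l, ((u l).divisors.card : ℝ) := by exact_mod_cast h1
    _ ≤ ∏ _l : Fin K, L := prod_le_prod (fun _ _ => by positivity) (fun l _ => (hu l).2)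
    _ = L ^ K := by simp

end Pool.Agent.Lib.MP_68a45e_nt
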