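import Pool.Agent.Lib.MP_68a45e_nt.Supp

set_option autoImplicit false

namespace Pool.Agent.Lib.MP_68a45e_nt

open Finset

variable {K : ℕ}

lemma th_nonneg (hK : 1 ≤ K) (N y v : ℕ) (r : Fin K → ℕ) : 0 ≤ th K N y v r := by
  apply sum_nonneg
  intro p hp
  obtain ⟨h1, h2⟩ := gfac_pos hK
    (Nat.prime_of_mem_primeFactors (mem_filter.mp (mem_filter.mp hp).1).1)
  exact div_nonneg zero_le_one (by linarith)

lemma Pv_subset (N y v : ℕ) : Pv N y v ⊆ Icc 1 (y ^ (v + 1)) := by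
  intro p hp
  obtain ⟨h1, h2⟩ := mem_filter.mp hp
  exact mem_Icc.mpr ⟨(Nat.prime_of_mem_primeFactors h1).pos, h2.2.le⟩

lemma th_le (hK : 1 ≤ K) (N y v : ℕ) (r : Fin K → ℕ) : th K N y v r ≤ Hs (y ^ (v + 1)) := by
  refine le_trans (sum_le_sum (g := fun p : ℕ => (1 : ℝ) / p) ?_)
    (sum_le_sum_of_subset_of_nonneg ((filter_subset _ _).trans (Pv_subset N y v))
      (fun _ _ _ => by positivity))
  intro p hp
  obtain ⟨h1, h2⟩ := gfac_pos hK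
    (Nat.prime_of_mem_primeFactors (mem_filter.mp (mem_filter.mp hp).1).1)
  exact one_div_le_one_div_of_le h2 h1

namespace Setup
variable (S : Setup K)

lemma plus_piece (hK : 1 ≤ K) (Q : Par) (y hm Zb : ℕ) (L : ℝ) (hL : Lam Zb L) (hy : 2 ≤ y)
    (hh : ∀ l, S.h l ≤ hm) (hmy : hm < y) (z1 : S.W * y ^ (2 * (Q.J + Q.Δ)) ≤ Zb)
    (z2 : 2 * Q.l * y ^ (Q.V' * (2 * Q.l)) ≤ Zb) (z3 : 2 * S.x + 2 * hm ≤ Zb)
    (i : Fin K) (v : ℕ) (hv : Q.V ≤ v) (hv' : v < Q.V') (F : ℕ → ℝ) (B : ℝ) (hB : 0 ≤ B)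
    (hF : S.Rep F (fun d => ∏ l, d l ≤ y ^ (Q.J + Q.Δ)) B) :
    |S.Del (Bplus S.h i (Q.Rv S.N y i v) (Pv S.N y v) * F)| ≤
      B * L ^ (4 * K + 2) * (((S.W + 1) * (Q.l ^ (2 * Q.l) + 1) + 5) *
        ((y : ℝ) ^ (2 * Q.J) + ((S.x + hm) / y : ℕ) + hm)) := by
  obtain ⟨J, Δ, T, U, U', V, V', Nn, l, c1, c2, c3, c4, c5, c6, c7, c8⟩ := Q
  simp only at z1 z2 hv hv' hF ⊢
  have hL0 : 0 ≤ L := le_trans zero_le_one hL.one
  have hy0 : 0 < y := by omega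
  have pw : ∀ a b, a ≤ b → y ^ a ≤ y ^ b := fun a b h => Nat.pow_le_pow_right hy0 h
  have pZ : ∀ a, a ≤ 2 * (J + Δ) → y ^ a ≤ Zb := fun a h =>
    (pw _ _ h).trans ((Nat.le_mul_of_pos_left _ S.hW).trans z1)
  obtain ⟨w, rfl⟩ : ∃ w, v = w + 1 := ⟨v - 1, by omega⟩
  obtain ⟨u, rfl⟩ : ∃ u, U = u + 2 * Δ := ⟨U - 2 * Δ, by omega⟩
  obtain ⟨a, ha⟩ : ∃ a, J + Δ = a + 2 * Δ + (w + 2) := ⟨J + Δ - 2 * Δ - (w + 2), by omega⟩
  obtain ⟨ρ, hρ⟩ : ∃ ρ, a + 2 * Δ + (J + Δ) = ρ + u := ⟨a + 2 * Δ + (J + Δ) - u, by omega⟩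
  have eY : y * y * y ^ w = y ^ (w + 1 + 1) := by ring
  have hb := S.plus_bound hK i Zb L hL (Par.Rv ⟨J, Δ, T, u + 2 * Δ, U', V, V', Nn, l,
      c1, c2, c3, c4, c5, c6, c7, c8⟩ S.N y i (w + 1)) (y ^ (a + 2 * Δ)) (y ^ (J + Δ)) (y ^ a)
    (y ^ (2 * Δ)) (y ^ (u + 2 * Δ)) (y ^ U') (y ^ u) (y ^ (w + 1 + 1)) B
    ((S.W + 1) * (l ^ (2 * l) + 1) * (y * y : ℕ) * (y ^ (a + 2 * Δ) * y ^ (J + Δ) : ℕ) *
        (y * y * y ^ w : ℕ) / (y ^ (2 * Δ + 2) : ℕ) +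
        2 * (y ^ (a + 2 * Δ) * y ^ (J + Δ) : ℕ) + 2 * ((S.x + S.h i) / y : ℕ) + S.h i +
        (y * y * y ^ w : ℕ) * (y ^ U' * y ^ (J + Δ) : ℕ)) hB
    (by
      intro r hr
      simp only [Par.Rv, mem_filter] at hr
      refine ⟨S.mem_Gd.mp hr.1, ?_, hr.2.1, hr.2.2.1.le⟩
      have := hr.2.2.2.2.2.2
      rw [ha, pow_add y (a + 2 * Δ)] at this
      exact Nat.le_of_mul_le_mul_right this (by positivity))
    F hF (Pv S.N y (w + 1))
    (fun p hp => ⟨Nat.prime_of_mem_primeFactors (mem_filter.mp hp).1,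
      Nat.dvd_of_mem_primeFactors (mem_filter.mp hp).1⟩)
    ((card_le_card (Pv_subset _ _ _)).trans (by simp))
    (pZ _ (by omega)) (pZ _ (by omega)) (pZ _ (by omega))
    (by rw [← pow_add]; exact pZ _ (by omega)) (by positivity) (by rw [← pow_add])
    (by rw [← pow_add])
    (fun T hT => S.xi i Zb L hL y (y ^ w) _ (y ^ u) _ (y ^ ρ) (y ^ (2 * Δ + 2)) (2 * l - 1) l T hT
      (Pv S.N y (w + 1))
      (by
        intro p hp
        obtain ⟨h1, h2, h3⟩ := mem_filter.mp hp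
        have := pw 1 (w + 1) (by omega)
        have := hh i
        refine ⟨Nat.prime_of_mem_primeFactors h1, Nat.dvd_of_mem_primeFactors h1, by
          simp only [pow_one] at *; omega, by rwa [← pow_succ'], by rwa [eY]⟩)
      (gam K) (fun p hp => gam_le hK (Nat.prime_of_mem_primeFactors (mem_filter.mp hp).1))
      hy0 (by positivity) (by omega) (by omega) (by positivity)
      (by rw [← pow_add, ← pow_add, hρ])
      (by rw [eY, ← pow_mul]; apply pw; nlinarith)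
      (by rw [← pow_add]; apply pw; omega)
      (by rw [← pow_mul, ← pow_add, ← pow_add]; apply pw; omega)
      (by positivity) (by rw [← pow_add]; exact pZ _ (by omega))
      ((Nat.mul_le_mul_left _ (pw _ _ (by omega))).trans z1)
      (by
        rw [eY, ← pow_mul]
        refine le_trans (Nat.mul_le_mul_left _ (pw _ _ ?_)) z2
        exact Nat.mul_le_mul_right _ (by omega))
      (by rw [eY]; exact pZ _ (by omega))
      (by
        intro j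
        have := Nat.div_le_self (S.x + S.h i) y
        have := hh i
        have := hh j
        omega))
  refine hb.trans (mul_le_mul_of_nonneg_left ?_ (by positivity))
  have hy' : (0 : ℝ) < y := by exact_mod_cast hy0
  have pr : ∀ a b, a ≤ b → (y : ℝ) ^ a ≤ (y : ℝ) ^ b := fun a b h => by exact_mod_cast pw a b h
  set C : ℝ := (S.W + 1) * (l ^ (2 * l) + 1) with hC
  have hC0 : 0 ≤ C := by positivity
  have t1 : C * (y * y : ℕ) * (y ^ (a + 2 * Δ) * y ^ (J + Δ) : ℕ) *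
        (y * y * y ^ w : ℕ) / (y ^ (2 * Δ + 2) : ℕ) = C * (y : ℝ) ^ (2 * J) := by
    push_cast
    rw [div_eq_iff (by positivity)]
    have : (y : ℝ) ^ (2 * J) * y ^ (2 * Δ + 2) = y ^ (2 + (a + 2 * Δ) + (J + Δ) + (w + 2)) := by
      rw [← pow_add]; congr 1; omega
    rw [mul_assoc C ((y : ℝ) ^ (2 * J)), this]; ring
  have t2 : (y : ℝ) ^ (a + 2 * Δ) * y ^ (J + Δ) ≤ (y : ℝ) ^ (2 * J) := by
    rw [← pow_add]; exact pr _ _ (by omega)
  have t3 : (y : ℝ) ^ a * y ^ (w + 1 + 1) * y ^ (J + Δ) ≤ (y : ℝ) ^ (2 * J) := by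
    rw [← pow_add, ← pow_add]; exact pr _ _ (by omega)
  have t4 : ((y * y * y ^ w : ℕ) : ℝ) * (y ^ U' * y ^ (J + Δ) : ℕ) ≤ (y : ℝ) ^ (2 * J) := by
    rw [eY]; push_cast
    rw [← pow_add, ← pow_add]; exact pr _ _ (by omega)
  have t5 : (((S.x + S.h i) / y : ℕ) : ℝ) ≤ ((S.x + hm) / y : ℕ) := by
    exact_mod_cast Nat.div_le_div_right (Nat.add_le_add_left (hh i) _)
  have t6 : (S.h i : ℝ) ≤ hm := by exact_mod_cast hh i
  have t7 : 0 ≤ C * ((((S.x + hm) / y : ℕ) : ℝ) + hm) := by positivity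
  have t8 : (0 : ℝ) ≤ ((S.x + hm) / y : ℕ) := by positivity
  have t9 : (0 : ℝ) ≤ hm := by positivity
  rw [t1]
  push_cast at t2 t3 t4 ⊢
  nlinarith

lemma err_bound (hK : 1 ≤ K) (Q : Par) (y hm Zb : ℕ) (L : ℝ) (hL : Lam Zb L) (hy : 2 ≤ y)
    (hh : ∀ l, S.h l ≤ hm) (hmy : hm < y) (z1 : S.W * y ^ (2 * (Q.J + Q.Δ)) ≤ Zb)
    (z2 : 2 * Q.l * y ^ (Q.V' * (2 * Q.l)) ≤ Zb) (z3 : 2 * S.x + 2 * hm ≤ Zb) :
    |S.Del (Fs S.h (Q.Sall S.N y K) (fun _ => 1) * Fs S.h (Q.Sall S.N y K) (fun _ => 1))| ≤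
      ((1 + (Q.Idx K).card) ^ 2 + (Q.Idx K).card * (2 + (Q.Idx K).card) *
        ((S.W + 1) * (Q.l ^ (2 * Q.l) + 1) + 5)) * L ^ (5 * K + 3) *
        ((y : ℝ) ^ (2 * Q.J) + ((S.x + hm) / y : ℕ) + hm) := by
  have hL0 : 0 ≤ L := le_trans zero_le_one hL.one
  have hy0 : 0 < y := by omega
  have pw : ∀ a b, a ≤ b → y ^ a ≤ y ^ b := fun a b h => Nat.pow_le_pow_right hy0 h
  have pZ : ∀ a, a ≤ 2 * (Q.J + Q.Δ) → y ^ a ≤ Zb := fun a h =>
    (pw _ _ h).trans ((Nat.le_mul_of_pos_left _ S.hW).trans z1)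
  have hI : ∀ z ∈ Q.Idx K, Q.V ≤ z.2 ∧ z.2 < Q.V' := fun z hz => mem_Ico.mp (mem_product.mp hz).2
  set f := Fs S.h (Q.Sall S.N y K) (fun _ => 1) with hf
  set A := Fs S.h (Q.S0 S.N y K) (fun _ => 1) +
      ∑ z ∈ Q.Idx K, Fs S.h (Q.Rv S.N y z.1 z.2) (th K S.N y z.2) with hA
  set np : ℝ := ((Q.Idx K).card : ℝ) with hnp
  have hnp0 : 0 ≤ np := by positivity
  have e0 : f = A + ∑ z ∈ Q.Idx K, Bplus S.h z.1 (Q.Rv S.N y z.1 z.2) (Pv S.N y z.2) :=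
    S.Fs_eq Q y hy
  have e1 : f * f = A * A +
      ∑ z ∈ Q.Idx K, Bplus S.h z.1 (Q.Rv S.N y z.1 z.2) (Pv S.N y z.2) * (f + A) := by
    rw [← sum_mul, e0]; ring
  have dv : ∀ (R : Finset (Fin K → ℕ)) (D : ℕ), (∀ r ∈ R, S.Good r ∧ ∏ l, r l ≤ D) →
      ∀ d, S.Adm d → (∃ r ∈ R, ∀ l, d l ∣ r l) → ∏ l, d l ≤ D := by
    rintro R D hR d - ⟨r, hr, hd⟩
    exact (Nat.le_of_dvd (hR r hr).1.1.prod_pos (prod_dvd_prod_of_dvd _ _ (fun l _ => hd l))).trans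
      (hR r hr).2
  have hLK : L ^ K ≤ L * L ^ K := le_mul_of_one_le_left (by positivity) hL.one
  have r0 : S.Rep (Fs S.h (Q.S0 S.N y K) (fun _ => 1)) (fun d => ∏ l, d l ≤ y ^ Q.J)
      (L * L ^ K) := by
    have hR : ∀ r ∈ Q.S0 S.N y K, S.Good r ∧ ∏ l, r l ≤ y ^ Q.J := fun r hr =>
      ⟨S.mem_Gd.mp (mem_filter.mp hr).1, (mem_filter.mp hr).2.le⟩
    exact (S.rep_Fs hK hL _ _ (pZ _ (by omega)) hR _ 1 zero_le_one (fun _ _ => by simp)).mono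
      (dv _ _ hR) (by linarith)
  have r1 : ∀ z ∈ Q.Idx K, S.Rep (Fs S.h (Q.Rv S.N y z.1 z.2) (th K S.N y z.2))
      (fun d => ∏ l, d l ≤ y ^ Q.J) (L * L ^ K) := by
    intro z hz
    obtain ⟨h1, h2⟩ := hI z hz
    have c2 := Q.c2
    have c4 := Q.c4
    have hR : ∀ r ∈ Q.Rv S.N y z.1 z.2, S.Good r ∧ ∏ l, r l ≤ y ^ Q.J := by
      intro r hr
      simp only [Par.Rv, mem_filter] at hr
      refine ⟨S.mem_Gd.mp hr.1, ?_⟩
      have := hr.2.2.2.2.2.2.trans (pw _ (Q.J + (z.2 + 1)) (by omega))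
      rw [pow_add y Q.J] at this
      exact Nat.le_of_mul_le_mul_right this (by positivity)
    exact (S.rep_Fs hK hL _ _ (pZ _ (by omega)) hR _ L hL0 (fun r _ => by
      rw [abs_of_nonneg (th_nonneg hK _ _ _ _)]
      exact (th_le hK _ _ _ _).trans (hL.hs (pZ _ (by omega))))).mono (dv _ _ hR) le_rfl
  have rA : S.Rep A (fun d => ∏ l, d l ≤ y ^ Q.J) ((1 + np) * (L * L ^ K)) :=
    (r0.add (Rep.sum _ (by positivity) r1) (by positivity) (by positivity)).mono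
      (fun _ _ h => h) (le_of_eq (by ring))
  have rf : S.Rep f (fun d => ∏ l, d l ≤ y ^ (Q.J + Q.Δ)) (L * L ^ K) :=
    (S.rep_Fs hK hL _ _ (pZ _ (by omega)) (S.Sall_good Q y hy) _ 1 zero_le_one
      (fun _ _ => by simp)).mono (dv _ _ (S.Sall_good Q y hy)) (by linarith)
  have rfA : S.Rep (f + A) (fun d => ∏ l, d l ≤ y ^ (Q.J + Q.Δ)) ((2 + np) * (L * L ^ K)) :=
    (rf.add (rA.mono (fun _ _ h => h.trans (pw _ _ (by omega))) le_rfl) (by positivity)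
      (by positivity)).mono (fun _ _ h => h) (le_of_eq (by ring))
  set E : ℝ := (y : ℝ) ^ (2 * Q.J) + ((S.x + hm) / y : ℕ) + hm with hE
  set C : ℝ := (S.W + 1) * (Q.l ^ (2 * Q.l) + 1) + 5 with hC
  have b1 : |S.Del (A * A)| ≤ (1 + np) ^ 2 * L ^ (5 * K + 3) * E := by
    refine (rA.del_mul hL (pZ _ (by omega)) (pZ _ (by omega)) (by positivity) (by positivity)
      rA).trans ?_
    calc _ = (1 + np) ^ 2 * L ^ (4 * K + 2) * (y : ℝ) ^ (2 * Q.J) := by push_cast; ring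
      _ ≤ _ := by
        gcongr
        · exact hL.one
        · omega
        · omega
        · rw [hE, add_assoc]; exact le_add_of_nonneg_right (by positivity)
  have b2 : ∀ z ∈ Q.Idx K, |S.Del (Bplus S.h z.1 (Q.Rv S.N y z.1 z.2) (Pv S.N y z.2) * (f + A))| ≤
      (2 + np) * C * L ^ (5 * K + 3) * E := by
    intro z hz
    refine (S.plus_piece hK Q y hm Zb L hL hy hh hmy z1 z2 z3 z.1 z.2 (hI z hz).1 (hI z hz).2 _ _
      (by positivity) rfA).trans (le_of_eq ?_)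
    ring
  rw [e1, map_add, map_sum]
  refine (abs_add_le _ _).trans ?_
  have b3 := (abs_sum_le_sum_abs _ _).trans (sum_le_sum b2)
  rw [sum_const, nsmul_eq_mul] at b3
  linarith

end Setup

end Pool.Agent.Lib.MP_68a45e_nt
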