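import Pool.Agent.Lib.MP_68a45e_nt.Basic

set_option autoImplicit false

namespace Pool.Agent.Lib.MP_68a45e_nt

open Finset Complex

/-- harmonic sum -/
noncomputable def Hs (Z : ℕ) : ℝ := ∑ n ∈ Icc 1 Z, (1 : ℝ) / n

lemma Hs_nonneg (Z : ℕ) : 0 ≤ Hs Z := sum_nonneg (fun _ _ => by positivity)

lemma Hs_mono {a b : ℕ} (h : a ≤ b) : Hs a ≤ Hs b :=
  sum_le_sum_of_subset_of_nonneg (Icc_subset_Icc_right h) (fun _ _ _ => by positivity)

/-- deviation of the number of `w ≤ t` in a class from the mean -/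
noncomputable def dev (r t : ℕ) (a : ZMod r) : ℝ :=
  (((Icc 1 t).filter (fun w : ℕ => (w : ZMod r) = a)).card : ℝ) - (t : ℝ) / r

noncomputable def om (r : ℕ) (h : ZMod r) : ℝ :=
  if h = 0 then 0 else 1 / (2 * (h.val : ℝ)) + 1 / (2 * ((-h).val : ℝ))

lemma om_nonneg (r : ℕ) (h : ZMod r) : 0 ≤ om r h := by
  unfold om; split_ifs <;> positivity

section
variable (r : ℕ) [NeZero r]

lemma norm_char (z : ZMod r) : ‖(ZMod.stdAddChar z : ℂ)‖ = 1 := by
  rw [ZMod.stdAddChar_apply]; exact Circle.norm_coe _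

lemma conj_char (z : ZMod r) :
    (starRingEnd ℂ) (ZMod.stdAddChar z : ℂ) = ZMod.stdAddChar (-z) := by
  rw [AddChar.map_neg_eq_inv, Complex.inv_def, Complex.normSq_eq_norm_sq, norm_char]; simp

lemma char_sum {ι : Type*} (s : Finset ι) (f : ι → ZMod r) :
    (ZMod.stdAddChar (∑ j ∈ s, f j) : ℂ) = ∏ j ∈ s, ZMod.stdAddChar (f j) := by
  classical
  induction s using Finset.induction_on with
  | empty => simp
  | insert a s ha ih => rw [sum_insert ha, prod_insert ha, AddChar.map_add_eq_mul, ih]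

lemma norm_char_sub_one (h : ZMod r) (hh : h ≠ 0) :
    2 / ‖(ZMod.stdAddChar h : ℂ) - 1‖ ≤ r * om r h := by
  have hr : (0 : ℝ) < r := by exact_mod_cast Nat.pos_of_ne_zero (NeZero.ne r)
  have hv : h.val < r := ZMod.val_lt h
  have hv0 : 0 < h.val := (ZMod.val_pos).mpr hh
  have hneg : (-h).val = r - h.val := by
    rw [ZMod.neg_val, if_neg hh]
  have hu : (0 : ℝ) < h.val := by exact_mod_cast hv0
  have hu' : (h.val : ℝ) < r := by exact_mod_cast hv
  have e1 : (ZMod.stdAddChar h : ℂ) = Complex.exp (I * ((2 * Real.pi * (h.val / r) : ℝ) : ℂ)) := by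
    rw [ZMod.stdAddChar_apply, ZMod.toCircle_apply]
    congr 1; push_cast; ring
  rw [e1, Complex.norm_exp_I_mul_ofReal_sub_one, om, if_neg hh, hneg, Nat.cast_sub hv.le]
  have e2 : 2 * Real.pi * (h.val / r) / 2 = Real.pi * (h.val / r) := by ring
  rw [e2]
  set u : ℝ := h.val / r with hudef
  have hu0 : 0 < u := div_pos hu hr
  have hu1 : u < 1 := (div_lt_one hr).mpr hu'
  have e3 : (r : ℝ) * (1 / (2 * (h.val : ℝ)) + 1 / (2 * ((r : ℝ) - h.val))) =
      1 / (2 * u) + 1 / (2 * (1 - u)) := by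
    have : (r : ℝ) - h.val ≠ 0 := by linarith
    rw [hudef]; field_simp
  rw [e3]
  have hpi := Real.pi_pos
  have hs : ∀ v : ℝ, 0 < v → v ≤ 1 / 2 → 2 * v ≤ Real.sin (Real.pi * v) := by
    intro v h0 h1
    have := Real.mul_le_sin (x := Real.pi * v) (by positivity) (by nlinarith)
    have e : 2 / Real.pi * (Real.pi * v) = 2 * v := by field_simp
    linarith
  have h1u : 0 < 1 - u := by linarith
  rcases le_total u (1 / 2) with h | h
  · have h1 := hs u hu0 h
    have h2 : 0 < Real.sin (Real.pi * u) := by linarith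
    rw [Real.norm_eq_abs, abs_of_pos (by linarith)]
    have h3 : 2 / (2 * Real.sin (Real.pi * u)) ≤ 1 / (2 * u) := by
      rw [div_le_div_iff₀ (by linarith) (by linarith)]; linarith
    have : 0 ≤ 1 / (2 * (1 - u)) := by positivity
    linarith
  · have h1 := hs (1 - u) h1u (by linarith)
    rw [mul_sub Real.pi, mul_one, Real.sin_pi_sub] at h1
    have h2 : 0 < Real.sin (Real.pi * u) := by linarith
    rw [Real.norm_eq_abs, abs_of_pos (by linarith)]
    have h3 : 2 / (2 * Real.sin (Real.pi * u)) ≤ 1 / (2 * (1 - u)) := by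
      rw [div_le_div_iff₀ (by linarith) (by linarith)]; linarith
    have : 0 ≤ 1 / (2 * u) := by positivity
    linarith

lemma geom_bound (h : ZMod r) (hh : h ≠ 0) (t : ℕ) :
    ‖∑ w ∈ Icc 1 t, (ZMod.stdAddChar ((w : ZMod r) * h) : ℂ)‖ ≤ r * om r h := by
  refine le_trans ?_ (norm_char_sub_one r h hh)
  set ζ : ℂ := ZMod.stdAddChar h with hζ
  have hζ1 : ζ ≠ 1 := by
    intro e
    apply hh
    apply ZMod.injective_stdAddChar
    rw [← hζ, e]; simp
  have hpos : 0 < ‖ζ - 1‖ := norm_pos_iff.mpr (sub_ne_zero.mpr hζ1)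
  have e1 : ∀ w : ℕ, (ZMod.stdAddChar ((w : ZMod r) * h) : ℂ) = ζ ^ w := by
    intro w; rw [hζ, ← AddChar.map_nsmul_eq_pow, nsmul_eq_mul]
  simp only [e1]
  have e2 : (∑ w ∈ Icc 1 t, ζ ^ w) * (ζ - 1) = ζ ^ (t + 1) - ζ := by
    induction t with
    | zero => simp
    | succ t ih => rw [Finset.sum_Icc_succ_top (by omega), add_mul, ih]; ring
  rw [le_div_iff₀ hpos, ← norm_mul, e2]
  have h1 : ‖ζ‖ = 1 := norm_char r h
  calc ‖ζ ^ (t + 1) - ζ‖ ≤ ‖ζ ^ (t + 1)‖ + ‖ζ‖ := norm_sub_le _ _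
    _ = 2 := by rw [norm_pow, h1]; norm_num

lemma dev_fourier (t : ℕ) : ∃ c : ZMod r → ℂ, (∀ h, ‖c h‖ ≤ om r h) ∧
    ∀ a, (dev r t a : ℂ) = ∑ h, c h * ZMod.stdAddChar (-(h * a)) := by
  have hr : (0 : ℝ) < r := by exact_mod_cast Nat.pos_of_ne_zero (NeZero.ne r)
  have hrc : (r : ℂ) ≠ 0 := by exact_mod_cast NeZero.ne r
  refine ⟨fun h => if h = 0 then 0 else
    (∑ w ∈ Icc 1 t, (ZMod.stdAddChar ((w : ZMod r) * h) : ℂ)) / r, fun h => ?_, fun a => ?_⟩
  · by_cases hh : h = 0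
    · simp [hh, om]
    · simp only [if_neg hh, norm_div, Complex.norm_natCast]
      rw [div_le_iff₀ hr, mul_comm]
      exact geom_bound r h hh t
  · have key : ∑ h : ZMod r, (∑ w ∈ Icc 1 t, (ZMod.stdAddChar ((w : ZMod r) * h) : ℂ)) / r *
        ZMod.stdAddChar (-(h * a)) =
        (((Icc 1 t).filter (fun w : ℕ => (w : ZMod r) = a)).card : ℂ) := by
      have : ∀ h : ZMod r, (∑ w ∈ Icc 1 t, (ZMod.stdAddChar ((w : ZMod r) * h) : ℂ)) / r *
          ZMod.stdAddChar (-(h * a)) =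
          ∑ w ∈ Icc 1 t, (ZMod.stdAddChar (h * ((w : ZMod r) - a)) : ℂ) / r := by
        intro h
        rw [sum_div, sum_mul]
        apply sum_congr rfl
        intro w _
        rw [div_mul_eq_mul_div, ← AddChar.map_add_eq_mul]
        congr 2; ring
      simp only [this]
      rw [sum_comm, card_filter]
      push_cast
      apply sum_congr rfl
      intro w _
      rw [← sum_div, AddChar.sum_mulShift _ (ZMod.isPrimitive_stdAddChar r), ZMod.card]
      by_cases hw : (w : ZMod r) = a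
      · simp [hw, hrc]
      · simp [hw, sub_eq_zero]
    rw [dev]
    push_cast
    rw [← key, ← Finset.add_sum_erase _ _ (mem_univ (0 : ZMod r)),
      ← Finset.add_sum_erase _ _ (mem_univ (0 : ZMod r))]
    simp only [mul_zero, AddChar.map_zero_eq_one, sum_const, Nat.card_Icc, zero_mul, neg_zero,
      if_true, nsmul_eq_mul, mul_one, Nat.add_sub_cancel]
    rw [zero_add, add_sub_cancel_left]
    apply sum_congr rfl
    intro h hh
    rw [if_neg (ne_of_mem_erase hh)]

lemma inv_val_sum (μ : ZMod r) :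
    ∑ m ∈ range r, (1 : ℝ) / ((μ * m).val : ℝ) ≤ Hs r := by
  have hr : 0 < r := Nat.pos_of_ne_zero (NeZero.ne r)
  set g := Nat.gcd r μ.val with hg
  have hg0 : 0 < g := Nat.gcd_pos_of_pos_left _ hr
  have hgr : g ∣ r := Nat.gcd_dvd_left _ _
  have hval : ∀ m : ℕ, (μ * m).val = (μ.val * m) % r := by
    intro m
    conv_lhs => rw [← ZMod.natCast_zmod_val μ, ← Nat.cast_mul, ZMod.val_natCast]
  have hdvd : ∀ m : ℕ, g ∣ (μ * m).val := by
    intro m
    rw [hval, Nat.dvd_mod_iff hgr]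
    exact Dvd.dvd.mul_right (Nat.gcd_dvd_right _ _) _
  rw [← sum_fiberwise_of_maps_to (s := range r) (t := range (r + 1))
    (g := fun m : ℕ => (μ * (m : ZMod r)).val / g)]
  · rw [range_eq_Ico, Finset.sum_eq_sum_Ico_succ_bot (by omega), Hs]
    have e0 : ∑ m ∈ (range r).filter (fun m : ℕ => (μ * m).val / g = 0),
        (1 : ℝ) / ((μ * m).val : ℝ) = 0 := by
      apply sum_eq_zero
      intro m hm
      obtain ⟨j, hj⟩ := hdvd m
      have := (mem_filter.mp hm).2
      rw [hj, Nat.mul_div_cancel_left _ hg0] at this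
      rw [hj, this]; simp
    rw [e0, zero_add]
    have eI : Ico (0 + 1) (r + 1) = Icc 1 r := by ext n; simp
    rw [eI]
    apply sum_le_sum
    intro j hj
    have hj1 : (0 : ℝ) < j := by exact_mod_cast (mem_Icc.mp hj).1
    have e1 : ∀ m ∈ (range r).filter (fun m : ℕ => (μ * m).val / g = j),
        (μ * m).val = g * j := by
      intro m hm
      rw [← (mem_filter.mp hm).2, Nat.mul_div_cancel' (hdvd m)]
    rw [sum_congr rfl (fun m hm => by rw [e1 m hm]), sum_const, nsmul_eq_mul]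
    have hcard : ((range r).filter (fun m : ℕ => (μ * m).val / g = j)).card ≤ g := by
      rcases ((range r).filter (fun m : ℕ => (μ * m).val / g = j)).eq_empty_or_nonempty with h | h
      · rw [h]; simp
      · obtain ⟨m0, hm0⟩ := h
        have hpos : 0 < r / g := Nat.div_pos (Nat.le_of_dvd hr hgr) hg0
        have := count_class_range r (r / g) m0 hpos (Nat.div_dvd_of_dvd hgr)
        rw [Nat.div_div_self hgr hr.ne'] at this
        refine le_trans (card_le_card ?_) this.le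
        intro m hm
        have h1 := e1 m hm
        have h2 := e1 m0 hm0
        simp only [mem_filter, mem_range]
        refine ⟨by simpa using (mem_filter.mp hm).1, ?_⟩
        apply Nat.ModEq.cancel_left_div_gcd hr
        rw [hval] at h1 h2
        exact h1.trans h2.symm
    have : (((range r).filter (fun m : ℕ => (μ * m).val / g = j)).card : ℝ) ≤ g := by
      exact_mod_cast hcard
    have hg' : (0 : ℝ) < g := by exact_mod_cast hg0
    push_cast
    calc _ ≤ (g : ℝ) * (1 / (g * j)) := mul_le_mul_of_nonneg_right this (by positivity)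
      _ = 1 / j := by field_simp
  · intro m _
    have := ZMod.val_lt (μ * (m : ZMod r))
    have := Nat.div_le_self (μ * (m : ZMod r)).val g
    simp; omega

lemma om_sum (μ : ZMod r) : ∑ m ∈ range r, om r (μ * m) ≤ Hs r := by
  have h1 := inv_val_sum r μ
  have h2 := inv_val_sum r (-μ)
  have : ∑ m ∈ range r, om r (μ * m) ≤ ∑ m ∈ range r,
      ((1 : ℝ) / ((μ * m).val : ℝ) / 2 + (1 : ℝ) / ((-μ * m).val : ℝ) / 2) := by
    apply sum_le_sum
    intro m _
    unfold om
    split_ifs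
    · positivity
    · rw [neg_mul]; apply le_of_eq; ring
  rw [sum_add_distrib, ← sum_div, ← sum_div] at this
  linarith

lemma om_sum_univ : ∑ h : ZMod r, om r h ≤ Hs r := by
  refine le_trans (le_of_eq ?_) (om_sum r 1)
  symm
  apply Finset.sum_nbij' (fun m : ℕ => (m : ZMod r)) (fun h => h.val)
  · simp
  · intro h _; simpa using ZMod.val_lt h
  · intro m hm; exact ZMod.val_cast_of_lt (by simpa using hm)
  · intro h _; exact ZMod.natCast_zmod_val h
  · simp

lemma om_sum_set (μ : ZMod r) (M : ℕ) (S : Finset ℕ) (hS : ∀ m ∈ S, m ≤ M) :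
    (r : ℝ) * ∑ m ∈ S, om r (μ * m) ≤ (M + r) * Hs r := by
  have hr : 0 < r := Nat.pos_of_ne_zero (NeZero.ne r)
  have key : ∀ s : ℕ, ∑ m ∈ range (r * s), om r (μ * m) ≤ s * Hs r := by
    intro s
    induction s with
    | zero => simp
    | succ s ih =>
      rw [Nat.mul_succ, sum_range_add]
      have : ∑ m ∈ range r, om r (μ * ((r * s + m : ℕ) : ZMod r)) ≤ Hs r := by
        refine le_trans (le_of_eq ?_) (om_sum r μ)
        apply sum_congr rfl
        intro m _
        simp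
      push_cast at this ⊢
      linarith
  have h1 : ∑ m ∈ S, om r (μ * m) ≤ ∑ m ∈ range (r * (M / r + 1)), om r (μ * m) := by
    apply sum_le_sum_of_subset_of_nonneg
    · intro m hm
      have := hS m hm
      have := Nat.lt_mul_div_succ M hr
      simp only [mem_range]; omega
    · intro _ _ _; exact om_nonneg _ _
  have h2 := key (M / r + 1)
  have h3 : (r : ℝ) * ((M / r + 1 : ℕ) : ℝ) ≤ M + r := by
    have : r * (M / r + 1) ≤ M + r := by
      have := Nat.mul_div_le M r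
      rw [mul_add]; omega
    exact_mod_cast this
  have hr' : (0 : ℝ) ≤ r := by positivity
  calc _ ≤ (r : ℝ) * (((M / r + 1 : ℕ) : ℝ) * Hs r) := mul_le_mul_of_nonneg_left (h1.trans h2) hr'
    _ = ((r : ℝ) * ((M / r + 1 : ℕ) : ℝ)) * Hs r := by ring
    _ ≤ _ := mul_le_mul_of_nonneg_right h3 (Hs_nonneg r)

end

/-- numerator of a signed sum of reciprocals -/
def numer {l : ℕ} (π : Fin l × Bool → ℕ) : ℤ :=
  ∑ j, (if j.2 then 1 else -1) * ∏ j' ∈ univ.erase j, (π j' : ℤ)

/-- number of tuples whose numerator is divisible by `r` -/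
def Jc (r : ℕ) (P : Finset ℕ) (l : ℕ) : ℕ :=
  ((Fintype.piFinset (fun _ : Fin l × Bool => P)).filter (fun π => (r : ℤ) ∣ numer π)).card

lemma Jc_mono (r : ℕ) {P P' : Finset ℕ} (h : P ⊆ P') (l : ℕ) : Jc r P l ≤ Jc r P' l := by
  apply card_le_card
  apply filter_subset_filter
  exact Fintype.piFinset_subset _ _ (fun _ => h)

section
variable (r : ℕ) [NeZero r]

noncomputable def Usum (P : Finset ℕ) (γ : ℕ → ℝ) (z : ZMod r) : ℂ :=
  ∑ p ∈ P, (γ p : ℂ) * ZMod.stdAddChar (z * (p : ZMod r)⁻¹)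

lemma moment (P : Finset ℕ) (hP : ∀ p ∈ P, p.Coprime r) (γ : ℕ → ℝ) (hγ : ∀ p ∈ P, |γ p| ≤ 1)
    (l : ℕ) : ∑ z : ZMod r, ‖Usum r P γ z‖ ^ (2 * l) ≤ r * Jc r P l := by
  have e1 : ∀ z : ZMod r, ((‖Usum r P γ z‖ ^ (2 * l) : ℝ) : ℂ) =
      ∏ j : Fin l × Bool, Usum r P γ ((if j.2 then 1 else -1) * z) := by
    intro z
    have hc : Usum r P γ (-z) = (starRingEnd ℂ) (Usum r P γ z) := by
      simp only [Usum, map_sum, map_mul, conj_char, Complex.conj_ofReal, neg_mul]
    rw [Fintype.prod_prod_type]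
    simp only [Fintype.prod_bool, if_true, one_mul, Bool.false_eq_true, if_false, neg_mul, hc,
      prod_const, card_univ, Fintype.card_fin, Complex.mul_conj, Complex.normSq_eq_norm_sq]
    push_cast; ring
  have e2 : ∑ z : ZMod r, ∏ j : Fin l × Bool, Usum r P γ ((if j.2 then 1 else -1) * z) =
      ∑ π ∈ Fintype.piFinset (fun _ : Fin l × Bool => P), (∏ j, (γ (π j) : ℂ)) *
        (if (∑ j : Fin l × Bool, (if j.2 then 1 else -1) * (π j : ZMod r)⁻¹) = 0
          then (r : ℂ) else 0) := by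
    simp only [Usum, Finset.prod_univ_sum]
    rw [sum_comm]
    apply sum_congr rfl
    intro π _
    have := AddChar.sum_mulShift (R' := ℂ)
      (∑ j : Fin l × Bool, (if j.2 then 1 else -1) * (π j : ZMod r)⁻¹)
      (ZMod.isPrimitive_stdAddChar r)
    rw [ZMod.card] at this
    have h2 : (if (∑ j : Fin l × Bool, (if j.2 then 1 else -1) * (π j : ZMod r)⁻¹) = 0
          then (r : ℂ) else 0) = ∑ x : ZMod r, (ZMod.stdAddChar (x *
            ∑ j : Fin l × Bool, (if j.2 then 1 else -1) * (π j : ZMod r)⁻¹) : ℂ) := by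
      rw [this]; split_ifs <;> simp
    rw [h2, mul_sum]
    apply sum_congr rfl
    intro z _
    rw [prod_mul_distrib, mul_sum, char_sum]
    congr 1
    apply prod_congr rfl
    intro j _
    congr 1; ring
  have e3 := e2
  rw [← sum_congr rfl (fun z _ => e1 z), ← Complex.ofReal_sum] at e3
  have e4 := congrArg norm e3
  rw [Complex.norm_real, Real.norm_eq_abs, abs_of_nonneg (sum_nonneg (fun _ _ => by positivity))]
    at e4
  rw [e4]
  refine (norm_sum_le _ _).trans ?_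
  rw [Jc, card_filter]
  push_cast
  rw [mul_sum]
  apply sum_le_sum
  intro π hπ
  have hπ' : ∀ j, π j ∈ P := Fintype.mem_piFinset.mp hπ
  by_cases h0 : (∑ j : Fin l × Bool, (if j.2 then 1 else -1) * (π j : ZMod r)⁻¹) = 0
  · have hd : (r : ℤ) ∣ numer π := by
      rw [← ZMod.intCast_zmod_eq_zero_iff_dvd, numer]
      push_cast
      have h1 := congrArg (fun z => (∏ j, (π j : ZMod r)) * z) h0
      simp only [mul_zero, mul_sum] at h1
      rw [← h1]
      apply sum_congr rfl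
      intro j _
      rw [← Finset.mul_prod_erase _ _ (mem_univ j)]
      have hu := ZMod.coe_mul_inv_eq_one _ (hP _ (hπ' j))
      calc _ = (if j.2 then 1 else -1) * (∏ j' ∈ univ.erase j, (π j' : ZMod r)) *
            ((π j : ZMod r) * (π j : ZMod r)⁻¹) := by rw [hu, mul_one]
        _ = _ := by ring
    rw [if_pos h0, if_pos hd, norm_mul, Complex.norm_natCast, norm_prod, mul_one]
    have : ∏ j, ‖(γ (π j) : ℂ)‖ ≤ 1 := by
      apply prod_le_one (fun _ _ => norm_nonneg _)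
      intro j _
      rw [Complex.norm_real]; exact hγ _ (hπ' j)
    have hr : (0 : ℝ) ≤ r := by positivity
    nlinarith
  · rw [if_neg h0, mul_zero, norm_zero]; positivity

/-- The bilinear estimate for a fixed modulus. -/
lemma bil (c : ZMod r) (hc : IsUnit c) (M : ℕ) (S : Finset ℕ) (hS : ∀ m ∈ S, m ≤ M)
    (hSr : ∀ m ∈ S, m.Coprime r) (t : ℕ → ℕ)
    (P : Finset ℕ) (hP : ∀ p ∈ P, p.Coprime r) (γ : ℕ → ℝ) (hγ : ∀ p ∈ P, |γ p| ≤ 1)
    (n l : ℕ) (hn : 0 < n) (hl : n + 1 = 2 * l) :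
    (∑ m ∈ S, |∑ p ∈ P, γ p * dev r (t m) (c * (p : ZMod r)⁻¹ * (m : ZMod r)⁻¹)|) ^ (n + 1) ≤
      (S.card * Hs r) ^ n * ((M + r) * Hs r * Jc r P l) := by
  have hr : (0 : ℝ) < r := by exact_mod_cast Nat.pos_of_ne_zero (NeZero.ne r)
  obtain ⟨cu, rfl⟩ := hc
  have hbij : ∀ m ∈ S, Function.Bijective (fun z : ZMod r => -z * (cu⁻¹ : (ZMod r)ˣ) * m) := by
    intro m hm
    have hu := ZMod.coe_mul_inv_eq_one _ (hSr m hm)
    rw [← Finite.injective_iff_bijective]
    intro a b hab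
    have h1 := congrArg (fun z => -(z * (m : ZMod r)⁻¹ * (cu : ZMod r))) hab
    have h2 : ∀ a : ZMod r, -(-a * ((cu⁻¹ : (ZMod r)ˣ) : ZMod r) * (m : ZMod r) *
        (m : ZMod r)⁻¹ * (cu : ZMod r)) = a := by
      intro a
      have h3 : ((cu⁻¹ : (ZMod r)ˣ) : ZMod r) * cu = 1 := Units.inv_mul _
      linear_combination (a * ((cu⁻¹ : (ZMod r)ˣ) * cu)) * hu + a * h3
    simp only [h2] at h1
    exact h1
  set ρ : ZMod r → ℝ := fun z => ∑ m ∈ S, om r (-z * (cu⁻¹ : (ZMod r)ˣ) * m) with hρ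
  have hρ0 : ∀ z, 0 ≤ ρ z := fun z => sum_nonneg (fun _ _ => om_nonneg _ _)
  have step1 : ∀ m ∈ S, |∑ p ∈ P, γ p * dev r (t m) (cu * (p : ZMod r)⁻¹ * (m : ZMod r)⁻¹)| ≤
      ∑ z, om r (-z * (cu⁻¹ : (ZMod r)ˣ) * m) * ‖Usum r P γ z‖ := by
    intro m hm
    obtain ⟨cf, hcf, hdev⟩ := dev_fourier r (t m)
    have hu := ZMod.coe_mul_inv_eq_one _ (hSr m hm)
    have e1 : ((∑ p ∈ P, γ p * dev r (t m) (cu * (p : ZMod r)⁻¹ * (m : ZMod r)⁻¹) : ℝ) : ℂ) =
        ∑ z, cf (-z * (cu⁻¹ : (ZMod r)ˣ) * m) * Usum r P γ z := by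
      push_cast
      simp only [hdev, Usum, mul_sum]
      rw [sum_comm]
      rw [← (hbij m hm).sum_comp]
      apply sum_congr rfl
      intro z _
      apply sum_congr rfl
      intro p _
      have : -(-z * (cu⁻¹ : (ZMod r)ˣ) * m * (cu * (p : ZMod r)⁻¹ * (m : ZMod r)⁻¹)) =
          z * (p : ZMod r)⁻¹ := by
        have h2 : ((cu⁻¹ : (ZMod r)ˣ) : ZMod r) * cu = 1 := Units.inv_mul _
        linear_combination (z * (p : ZMod r)⁻¹ * ((cu⁻¹ : (ZMod r)ˣ) * cu)) * hu +
          (z * (p : ZMod r)⁻¹) * h2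
      rw [this]; ring
    rw [← Real.norm_eq_abs, ← Complex.norm_real, e1]
    refine (norm_sum_le _ _).trans (sum_le_sum fun z _ => ?_)
    rw [norm_mul]
    exact mul_le_mul_of_nonneg_right (hcf _) (norm_nonneg _)
  have step2 : ∑ m ∈ S, |∑ p ∈ P, γ p * dev r (t m) (cu * (p : ZMod r)⁻¹ * (m : ZMod r)⁻¹)| ≤
      ∑ z, ρ z * ‖Usum r P γ z‖ := by
    refine (sum_le_sum step1).trans (le_of_eq ?_)
    rw [sum_comm]
    simp only [hρ, sum_mul]
  have step3 := holder2 univ (fun z => ρ z * ‖Usum r P γ z‖) ρ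
    (fun z => ρ z * ‖Usum r P γ z‖ ^ (n + 1)) n hn
    (fun z _ => mul_nonneg (hρ0 z) (norm_nonneg _)) (fun z _ => hρ0 z)
    (fun z _ => mul_nonneg (hρ0 z) (by positivity)) (fun z _ => le_of_eq (by ring))
  have step4 : ∑ z, ρ z ≤ S.card * Hs r := by
    simp only [hρ]
    rw [sum_comm, ← nsmul_eq_mul, ← sum_const]
    apply sum_le_sum
    intro m hm
    rw [(hbij m hm).sum_comp (om r)]
    exact om_sum_univ r
  have step5 : ∑ z, ρ z * ‖Usum r P γ z‖ ^ (n + 1) ≤ (M + r) * Hs r * Jc r P l := by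
    have h1 : ∀ z, ρ z ≤ (M + r) * Hs r / r := by
      intro z
      rw [le_div_iff₀ hr, mul_comm]
      exact om_sum_set r _ M S hS
    have h2 := moment r P hP γ hγ l
    rw [← hl] at h2
    have h3 : 0 ≤ (M + r) * Hs r / r := by have := Hs_nonneg r; positivity
    calc _ ≤ ∑ z, (M + r) * Hs r / r * ‖Usum r P γ z‖ ^ (n + 1) :=
          sum_le_sum (fun z _ => mul_le_mul_of_nonneg_right (h1 z) (by positivity))
      _ = (M + r) * Hs r / r * ∑ z, ‖Usum r P γ z‖ ^ (n + 1) := by rw [mul_sum]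
      _ ≤ (M + r) * Hs r / r * (r * Jc r P l) := mul_le_mul_of_nonneg_left h2 h3
      _ = _ := by field_simp
  calc _ ≤ (∑ z, ρ z * ‖Usum r P γ z‖) ^ (n + 1) :=
        pow_le_pow_left₀ (sum_nonneg (fun _ _ => abs_nonneg _)) step2 _
    _ ≤ _ := step3
    _ ≤ _ := by
        apply mul_le_mul (pow_le_pow_left₀ (sum_nonneg (fun z _ => hρ0 z)) step4 _) step5
          (sum_nonneg (fun z _ => mul_nonneg (hρ0 z) (by positivity)))
        have := Hs_nonneg r; positivity

end

end Pool.Agent.Lib.MP_68a45e_nt
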