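import Pool.Agent.Lib.MP_68a45e_nt.Ineq

set_option autoImplicit false

namespace Pool.Agent.Lib.MP_68a45e_nt

open Finset Filter

/-- harmonic sum over integers prime to `W` -/
noncomputable def HW (W t : ℕ) : ℝ := ∑ a ∈ (Ico 1 t).filter (fun a => W.Coprime a), (1 : ℝ) / a

lemma HW_nonneg (W t : ℕ) : 0 ≤ HW W t := sum_nonneg (fun _ _ => by positivity)

lemma HW_mono (W : ℕ) {s t : ℕ} (h : s ≤ t) : HW W s ≤ HW W t :=
  sum_le_sum_of_subset_of_nonneg (filter_subset_filter _ (Ico_subset_Ico_right h))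
    (fun _ _ _ => by positivity)

lemma HW_add (W : ℕ) {s t : ℕ} (h1 : 1 ≤ s) (h : s ≤ t) :
    HW W t = HW W s + ∑ a ∈ (Ico s t).filter (fun a => W.Coprime a), (1 : ℝ) / a := by
  rw [HW, HW, ← Ico_union_Ico_eq_Ico h1 h, filter_union, sum_union]
  exact disjoint_filter_filter (Ico_disjoint_Ico_consecutive _ _ _)

lemma HW_block (W : ℕ) (hW : 0 < W) (n : ℕ) (hn : 1 ≤ n) :
    (W.totient : ℝ) / W * (1 / (n + 1)) ≤ HW W ((n + 1) * W) - HW W (n * W) ∧
    HW W ((n + 1) * W) - HW W (n * W) ≤ (W.totient : ℝ) / W * (1 / n) := by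
  have hW' : (0 : ℝ) < W := by exact_mod_cast hW
  have hn' : (0 : ℝ) < n := by exact_mod_cast hn
  rw [HW_add W (s := n * W) (t := (n + 1) * W) (Nat.mul_pos hn hW) (by nlinarith),
    add_sub_cancel_left, add_mul, one_mul]
  have hc := Nat.filter_coprime_Ico_eq_totient W (n * W)
  constructor
  · calc _ = ∑ _a ∈ (Ico (n * W) (n * W + W)).filter (fun a => W.Coprime a),
          (1 : ℝ) / ((n + 1) * W) := by
          rw [sum_const, hc, nsmul_eq_mul]; field_simp
      _ ≤ _ := by
          apply sum_le_sum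
          intro a ha
          obtain ⟨h1, h2⟩ := mem_Ico.mp (mem_filter.mp ha).1
          have h1' : (n : ℝ) * W ≤ a := by exact_mod_cast h1
          have h2' : (a : ℝ) ≤ n * W + W := by exact_mod_cast h2.le
          apply one_div_le_one_div_of_le (by nlinarith); linarith
  · calc _ ≤ ∑ _a ∈ (Ico (n * W) (n * W + W)).filter (fun a => W.Coprime a),
          (1 : ℝ) / (n * W) := by
          apply sum_le_sum
          intro a ha
          obtain ⟨h1, h2⟩ := mem_Ico.mp (mem_filter.mp ha).1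
          have h1' : (n : ℝ) * W ≤ a := by exact_mod_cast h1
          exact one_div_le_one_div_of_le (by positivity) h1'
      _ = _ := by rw [sum_const, hc, nsmul_eq_mul]; field_simp

lemma HW_bounds (W : ℕ) (hW : 0 < W) (t : ℕ) (ht : 1 ≤ t) :
    |HW W t - (W.totient : ℝ) / W * Real.log t| ≤ 2 * W + 1 := by
  have hW' : (0 : ℝ) < W := by exact_mod_cast hW
  set δ : ℝ := (W.totient : ℝ) / W with hδ
  have hδ0 : 0 ≤ δ := by positivity
  have hδ1 : δ ≤ 1 := by
    rw [hδ, div_le_one hW']; exact_mod_cast Nat.totient_le W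
  have h0 : HW W W ≤ W := by
    calc HW W W ≤ ∑ _a ∈ (Ico 1 W).filter (fun a => W.Coprime a), (1 : ℝ) := by
          apply sum_le_sum
          intro a ha
          have : (1 : ℝ) ≤ a := by exact_mod_cast (mem_Ico.mp (mem_filter.mp ha).1).1
          rw [div_le_one (by linarith)]; exact this
      _ ≤ W := by
          rw [sum_const, nsmul_eq_mul, mul_one]
          have : ((Ico 1 W).filter (fun a => W.Coprime a)).card ≤ W :=
            (card_filter_le _ _).trans (by simp)
          exact_mod_cast this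
  have lo : ∀ n : ℕ, δ * (Real.log (n + 2) - 1) ≤ HW W ((n + 1) * W) := by
    intro n
    induction n with
    | zero =>
      have := Real.log_two_lt_d9
      have := HW_nonneg W ((0 + 1) * W)
      have : δ * (Real.log ((0 : ℕ) + 2) - 1) ≤ 0 :=
        mul_nonpos_of_nonneg_of_nonpos hδ0 (by norm_num; linarith)
      linarith
    | succ n ih =>
      have h1 := (HW_block W hW (n + 1) (by omega)).1
      have h2 : Real.log ((n + 1 : ℕ) + 2) - Real.log (n + 2) ≤ 1 / (((n + 1 : ℕ) : ℝ) + 1) := by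
        rw [← Real.log_div (by positivity) (by positivity)]
        refine (Real.log_le_sub_one_of_pos (by positivity)).trans (le_of_eq ?_)
        push_cast; field_simp; ring
      have h3 := mul_le_mul_of_nonneg_left h2 hδ0
      linarith
  have hi : ∀ n : ℕ, HW W ((n + 1) * W) ≤ W + δ * Hs n := by
    intro n
    induction n with
    | zero => simpa [Hs] using h0
    | succ n ih =>
      have h1 := (HW_block W hW (n + 1) (by omega)).2
      rw [Hs, sum_Icc_succ_top (by omega), ← Hs]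
      linarith
  have ht' : (1 : ℝ) ≤ t := by exact_mod_cast ht
  have hlt := Real.log_nonneg ht'
  have hlW : Real.log W ≤ W := (Real.log_le_sub_one_of_pos hW').trans (by linarith)
  have d1 : t < W * (t / W + 1) := Nat.lt_mul_div_succ t hW
  rw [abs_le]
  constructor
  · have a1 : Real.log t ≤ Real.log W + Real.log ((t / W : ℕ) + 1) := by
      rw [← Real.log_mul hW'.ne' (by positivity)]
      apply Real.log_le_log (by linarith)
      exact_mod_cast d1.le
    rcases Nat.eq_zero_or_pos (t / W) with h | h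
    · rw [h] at a1
      have := HW_nonneg W t
      simp only [Nat.cast_zero, zero_add, Real.log_one, add_zero] at a1
      nlinarith
    · obtain ⟨n, hn⟩ : ∃ n, t / W = n + 1 := ⟨t / W - 1, by omega⟩
      have a2 := lo n
      have a3 : HW W ((n + 1) * W) ≤ HW W t := HW_mono W (hn ▸ Nat.div_mul_le_self t W)
      rw [hn] at a1
      have e : (((n + 1 : ℕ) : ℝ) + 1) = n + 2 := by push_cast; ring
      rw [e] at a1
      have a4 := mul_le_mul_of_nonneg_left a1 hδ0
      have a5 : δ * Real.log W ≤ W := by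
        have := Real.log_nonneg (show (1 : ℝ) ≤ W by exact_mod_cast hW)
        nlinarith
      nlinarith
  · have a1 := (HW_mono W (s := t) (t := (t / W + 1) * W) (by rw [mul_comm]; exact d1.le)).trans
      (hi (t / W))
    have a2 : Hs (t / W) ≤ 1 + Real.log t := (Hs_mono (Nat.div_le_self t W)).trans (harm_le t)
    have a3 := mul_le_mul_of_nonneg_left a2 hδ0
    nlinarith

lemma sum_dvd_le (W D d : ℕ) (hd : 0 < d) :
    ∑ a ∈ (Ico 1 D).filter (fun a => W.Coprime a), (if d ∣ a then (1 : ℝ) / a else 0) ≤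
      1 / d * HW W D := by
  rw [← sum_filter, HW, mul_sum]
  have hinj : Set.InjOn (fun a => a / d) ((((Ico 1 D).filter (fun a => W.Coprime a)).filter
      (fun a => d ∣ a) : Finset ℕ) : Set ℕ) := by
    intro a ha b hb e
    rw [← Nat.mul_div_cancel' (mem_filter.mp ha).2, ← Nat.mul_div_cancel' (mem_filter.mp hb).2]
    exact congrArg _ e
  calc _ = ∑ a ∈ ((Ico 1 D).filter (fun a => W.Coprime a)).filter (fun a => d ∣ a),
        (1 : ℝ) / d * (1 / ((a / d : ℕ) : ℝ)) := by
        apply sum_congr rfl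
        intro a ha
        conv_lhs => rw [← Nat.mul_div_cancel' (mem_filter.mp ha).2]
        push_cast; rw [one_div_mul_one_div]
    _ = ∑ b ∈ (((Ico 1 D).filter (fun a => W.Coprime a)).filter (fun a => d ∣ a)).image
          (fun a => a / d), (1 : ℝ) / d * (1 / (b : ℝ)) := by rw [sum_image hinj]
    _ ≤ _ := by
        apply sum_le_sum_of_subset_of_nonneg _ (fun _ _ _ => by positivity)
        intro b hb
        obtain ⟨a, ha, rfl⟩ := mem_image.mp hb
        simp only [mem_filter, mem_Ico] at ha ⊢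
        refine ⟨⟨Nat.div_pos (Nat.le_of_dvd ha.1.1.1 ha.2) hd,
          (Nat.div_le_self _ _).trans_lt ha.1.1.2⟩, ?_⟩
        exact ha.1.2.coprime_dvd_right (Nat.div_dvd_of_dvd ha.2)

/-- Chebyshev-type lower bound on a block of ratio four -/
lemma cheb_block : ∃ t0 : ℕ, 1 ≤ t0 ∧ ∀ t : ℕ, t0 ≤ t →
    (1 : ℝ) / 3 ≤ ∑ p ∈ (Ioc t (4 * t)).filter Nat.Prime, Real.log p / p := by
  have h1 : ∀ᶠ x : ℝ in atTop, ‖Real.log x‖ ≤ (1 / 1000) * ‖x ^ (1 / 2 : ℝ)‖ :=
    (isLittleO_log_rpow_atTop (by norm_num : (0 : ℝ) < 1 / 2)).bound (by norm_num)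
  obtain ⟨x0, hx0⟩ := eventually_atTop.mp h1
  refine ⟨⌈x0⌉₊ + 1, by omega, fun t ht => ?_⟩
  have ht1 : (1 : ℝ) ≤ t := by exact_mod_cast (by omega : 1 ≤ t)
  have htx : x0 ≤ t := (Nat.le_ceil x0).trans (by exact_mod_cast (by omega : ⌈x0⌉₊ ≤ t))
  have hl : ∀ x : ℝ, t ≤ x → Real.log x ≤ 1 / 1000 * √x := by
    intro x hx
    have := hx0 x (htx.trans hx)
    rw [Real.norm_eq_abs, Real.norm_eq_abs, ← Real.sqrt_eq_rpow,
      abs_of_nonneg (Real.sqrt_nonneg x)] at this
    exact (le_abs_self _).trans this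
  have a1 := Chebyshev.theta_ge (4 * t)
  have a2 := Chebyshev.theta_le_log4_mul_x (x := t) (by linarith)
  have a3 : Chebyshev.theta ((4 * t : ℕ) : ℝ) = Chebyshev.theta t +
      ∑ p ∈ (Ioc t (4 * t)).filter Nat.Prime, Real.log p := by
    simp only [Chebyshev.theta, Nat.floor_natCast]
    rw [← Ioc_union_Ioc_eq_Ioc (Nat.zero_le t) (by omega : t ≤ 4 * t), filter_union, sum_union]
    exact disjoint_filter_filter (Ioc_disjoint_Ioc_of_le le_rfl)
  have a4 : ∑ p ∈ (Ioc t (4 * t)).filter Nat.Prime, Real.log p ≤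
      (4 * t) * ∑ p ∈ (Ioc t (4 * t)).filter Nat.Prime, Real.log p / p := by
    rw [mul_sum]
    apply sum_le_sum
    intro p hp
    obtain ⟨h1, h2⟩ := mem_filter.mp hp
    have hp0 : (0 : ℝ) < p := by exact_mod_cast h2.pos
    have hp1 : (p : ℝ) ≤ 4 * t := by exact_mod_cast (mem_Ioc.mp h1).2
    have hlg : 0 ≤ Real.log p := Real.log_nonneg (by exact_mod_cast h2.pos)
    rw [mul_div_assoc', le_div_iff₀ hp0]; nlinarith
  push_cast at a1 a3
  have b1 := hl (4 * t) (by linarith)
  have b2 := hl (4 * t + 1) (by linarith)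
  have b3 : √(4 * (t : ℝ) + 1) ≤ 4 * t + 1 := by
    rw [Real.sqrt_le_iff]; constructor <;> nlinarith
  have b4 : √(4 * (t : ℝ)) * √(4 * (t : ℝ)) = 4 * t := Real.mul_self_sqrt (by linarith)
  have b5 : 2 * √(4 * (t : ℝ)) * Real.log (4 * t) ≤ 8 / 1000 * t := by
    have := mul_le_mul_of_nonneg_left b1 (Real.sqrt_nonneg (4 * (t : ℝ)))
    nlinarith
  have b6 : Real.log 4 = 2 * Real.log 2 := by
    rw [show (4 : ℝ) = 2 ^ 2 by norm_num, Real.log_pow]; norm_num
  have b7 := Real.log_two_gt_d9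
  have b8 : 4 / 3 * (t : ℝ) ≤ ∑ p ∈ (Ioc t (4 * t)).filter Nat.Prime, Real.log p := by
    rw [b6] at a2; nlinarith
  by_contra hc
  have := mul_lt_mul_of_pos_left (not_le.mp hc) (show (0 : ℝ) < 4 * t by linarith)
  linarith

lemma prime_recip_lower : ∃ y0 : ℕ, ∀ y : ℕ, y0 ≤ y → ∀ v : ℕ, 1 ≤ v →
    (23 : ℝ) / 100 / (v + 1) ≤ ∑ p ∈ (Ioo (y ^ v) (y ^ (v + 1))).filter Nat.Prime, (1 : ℝ) / p := by
  obtain ⟨t0, ht0, hb⟩ := cheb_block
  refine ⟨t0 + 4 ^ 30 + 1, fun y hy v hv => ?_⟩
  have hy1 : 1 ≤ y := by omega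
  have ht : t0 ≤ y ^ v := le_trans (by omega) (Nat.le_self_pow (by omega) y)
  have key : ∀ m : ℕ, (m : ℝ) / 3 ≤
      ∑ p ∈ (Ioc (y ^ v) (4 ^ m * y ^ v)).filter Nat.Prime, Real.log p / p := by
    intro m
    induction m with
    | zero => simp
    | succ m ih =>
      have h1 : y ^ v ≤ 4 ^ m * y ^ v := Nat.le_mul_of_pos_left _ (by positivity)
      have h2 := hb (4 ^ m * y ^ v) (ht.trans h1)
      rw [pow_succ, mul_comm (4 ^ m) 4, mul_assoc,
        ← Ioc_union_Ioc_eq_Ioc h1 (by omega : 4 ^ m * y ^ v ≤ 4 * (4 ^ m * y ^ v)), filter_union,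
        sum_union (disjoint_filter_filter (Ioc_disjoint_Ioc_of_le le_rfl))]
      push_cast; linarith
  set m := Nat.log 4 (y - 1) with hm
  have m1 : 4 ^ m ≤ y - 1 := Nat.pow_log_le_self 4 (by omega)
  have m2 : y - 1 < 4 ^ (m + 1) := Nat.lt_pow_succ_log_self (by norm_num) _
  have m3 : 30 ≤ m := by
    rw [hm]; exact Nat.le_log_of_pow_le (by norm_num) (by omega)
  have m3' : (30 : ℝ) ≤ m := by exact_mod_cast m3
  have hy' : (1 : ℝ) < y := by exact_mod_cast (by omega : 1 < y)
  have hly := Real.log_pos hy'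
  have m4 : Real.log y ≤ (m + 1) * (2 * Real.log 2) := by
    have : Real.log y ≤ Real.log ((2 : ℝ) ^ (2 * (m + 1))) := by
      apply Real.log_le_log (by linarith)
      rw [pow_mul]; norm_num
      exact_mod_cast (by omega : y ≤ 4 ^ (m + 1))
    rw [Real.log_pow] at this
    push_cast at this; linarith
  have b7 := Real.log_two_lt_d9
  have m5 : 23 / 100 * Real.log y ≤ (m : ℝ) / 3 := by nlinarith
  have s1 : ∑ p ∈ (Ioc (y ^ v) (4 ^ m * y ^ v)).filter Nat.Prime, Real.log p / p ≤
      ((v + 1) * Real.log y) * ∑ p ∈ (Ioo (y ^ v) (y ^ (v + 1))).filter Nat.Prime, (1 : ℝ) / p := by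
    have hsub : (Ioc (y ^ v) (4 ^ m * y ^ v)).filter Nat.Prime ⊆
        (Ioo (y ^ v) (y ^ (v + 1))).filter Nat.Prime := by
      apply filter_subset_filter
      intro p hp
      simp only [mem_Ioc, mem_Ioo] at hp ⊢
      refine ⟨hp.1, hp.2.trans_lt ?_⟩
      rw [pow_succ']
      exact Nat.mul_lt_mul_of_pos_right (by omega) (by positivity)
    refine (sum_le_sum_of_subset_of_nonneg hsub (fun p hp _ => div_nonneg
      (Real.log_nonneg (by exact_mod_cast (mem_filter.mp hp).2.pos)) (by positivity))).trans ?_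
    rw [mul_sum]
    apply sum_le_sum
    intro p hp
    obtain ⟨h1, h2⟩ := mem_filter.mp hp
    have hp0 : (0 : ℝ) < p := by exact_mod_cast h2.pos
    rw [mul_one_div]
    apply div_le_div_of_nonneg_right _ hp0.le
    have : Real.log p ≤ Real.log ((y : ℝ) ^ (v + 1)) :=
      Real.log_le_log hp0 (by exact_mod_cast (mem_Ioo.mp h1).2.le)
    rw [Real.log_pow] at this
    push_cast at this; exact this
  have s2 := (m5.trans (key m)).trans s1
  rw [div_le_iff₀ (by positivity)]
  have : 23 / 100 * Real.log y ≤ ((∑ p ∈ (Ioo (y ^ v) (y ^ (v + 1))).filter Nat.Prime,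
      (1 : ℝ) / p) * (v + 1)) * Real.log y := by linarith
  exact le_of_mul_le_mul_right this hly

end Pool.Agent.Lib.MP_68a45e_nt
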