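import Pool.Agent.Lib.MP_68a45e_nt.Err

set_option autoImplicit false

namespace Pool.Agent.Lib.MP_68a45e_nt

open Finset

variable {K : ℕ}

/-- product of the primes in `(w, D]` -/
def NN (w D : ℕ) : ℕ := ∏ p ∈ (Ioc w D).filter Nat.Prime, p

lemma NN_primeFactors (w D : ℕ) : (NN w D).primeFactors = (Ioc w D).filter Nat.Prime :=
  Nat.primeFactors_prod (fun _ hp => (mem_filter.mp hp).2)

lemma NN_sqf (w D : ℕ) : Squarefree (NN w D) := by
  apply Squarefree.squarefree_of_dvd _ (squarefree_primorial D)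
  apply prod_dvd_prod_of_subset
  intro p hp
  simp only [mem_filter, mem_Ioc, mem_range] at hp ⊢
  exact ⟨by omega, hp.2⟩

lemma dvd_NN {w D p : ℕ} (hp : p.Prime) : p ∣ NN w D ↔ w < p ∧ p ≤ D := by
  have := NN_primeFactors w D
  constructor
  · intro h
    have h1 : p ∈ (NN w D).primeFactors := Nat.mem_primeFactors.mpr ⟨hp, h, (NN_sqf w D).ne_zero⟩
    rw [this] at h1
    exact mem_Ioc.mp (mem_filter.mp h1).1
  · intro h
    apply Nat.dvd_of_mem_primeFactors
    rw [this]
    exact mem_filter.mpr ⟨mem_Ioc.mpr h, hp⟩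

/-- admissible residue classes -/
def Bs (h : Fin K → ℕ) (W : ℕ) : Finset ℕ := (range W).filter (fun b => ∀ l, (b + h l).Coprime W)

def mkS (h : Fin K → ℕ) (hinj : Function.Injective h) (w D x b : ℕ) (hh : ∀ l, h l ≤ w)
    (hb : b ∈ Bs h (primorial w)) : Setup K where
  h := h
  W := primorial w
  b := b
  x := x
  N := NN w D
  hW := primorial_pos w
  hN := NN_sqf w D
  cop := by
    by_contra hn
    obtain ⟨p, hp, h1, h2⟩ := Nat.Prime.not_coprime_iff_dvd.mp hn
    have := ((dvd_NN hp).mp h1).1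
    have := hp.dvd_primorial_iff.mp h2
    omega
  sep := by
    intro p hp h1 l l' hne hm
    have := ((dvd_NN hp).mp h1).1
    exact hne (hinj (hm.eq_of_lt_of_lt (by have := hh l; omega) (by have := hh l'; omega)))
  hb := (mem_filter.mp hb).2

/-- number of prime tuples -/
def cntP (h : Fin K → ℕ) (x : ℕ) : ℕ := ((range (x + 1)).filter (fun n => ∀ l, (n + h l).Prime)).card

lemma Fs_prime (h : Fin K → ℕ) (R : Finset (Fin K → ℕ)) (D n : ℕ)
    (hR : ∀ r ∈ R, ∀ l, r l ≤ D) (hn : D < n) (hp : ∀ l, (n + h l).Prime) :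
    Fs h R (fun _ => 1) n = ∑ r ∈ R, gw K (∏ l, r l) := by
  simp only [Fs, Finset.sum_apply, Pi.smul_apply, smul_eq_mul, one_mul]
  apply sum_congr rfl
  intro r hr
  rw [Psi, prod_eq_one (f := fun l => psi (h l) (r l) n), mul_one]
  intro l _
  apply prod_eq_one
  intro p hp'
  have h1 := Nat.le_of_mem_primeFactors hp'
  have h2 := hR r hr l
  rw [indp, if_neg, mul_zero, sub_zero]
  intro hd
  have := (Nat.prime_dvd_prime_iff_eq (Nat.prime_of_mem_primeFactors hp') (hp l)).mp hd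
  omega

lemma sieve_ineq (hK : 1 ≤ K) (h : Fin K → ℕ) (hinj : Function.Injective h) (w : ℕ)
    (hh : ∀ l, h l ≤ w) (Q : Par) (y x Zb : ℕ) (L : ℝ) (hL : Lam Zb L) (hy : 2 ≤ y) (hwy : w < y)
    (z1 : primorial w * y ^ (2 * (Q.J + Q.Δ)) ≤ Zb)
    (z2 : 2 * Q.l * y ^ (Q.V' * (2 * Q.l)) ≤ Zb) (z3 : 2 * x + 2 * w ≤ Zb) (G : ℝ)
    (hG : G = ∑ r ∈ Q.Sall (NN w (y ^ (Q.J + Q.Δ))) y K, gw K (∏ l, r l)) :
    (cntP h x : ℝ) * G ^ 2 ≤ (y ^ (Q.J + Q.Δ) + w + 1) * G ^ 2 +
      (Bs h (primorial w)).card * (x / primorial w * G) +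
      primorial w * (((1 + (Q.Idx K).card) ^ 2 + (Q.Idx K).card * (2 + (Q.Idx K).card) *
        ((primorial w + 1) * (Q.l ^ (2 * Q.l) + 1) + 5)) * L ^ (5 * K + 3) *
        ((y : ℝ) ^ (2 * Q.J) + ((x + w) / y : ℕ) + w)) := by
  classical
  have hL0 : 0 ≤ L := le_trans zero_le_one hL.one
  set D := y ^ (Q.J + Q.Δ) with hD
  set W := primorial w with hW
  set f := Fs h (Q.Sall (NN w D) y K) (fun _ => 1) with hf
  set Er : ℝ := ((1 + (Q.Idx K).card) ^ 2 + (Q.Idx K).card * (2 + (Q.Idx K).card) *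
        ((W + 1) * (Q.l ^ (2 * Q.l) + 1) + 5)) * L ^ (5 * K + 3) *
        ((y : ℝ) ^ (2 * Q.J) + ((x + w) / y : ℕ) + w) with hEr
  have hEr0 : 0 ≤ Er := by positivity
  have hb : ∀ b ∈ Bs h W, ∑ n ∈ (Icc 1 x).filter (fun n => n ≡ b [MOD W]), f n * f n ≤
      x / W * G + Er := by
    intro b hb
    set S := mkS h hinj w D x b hh hb with hS
    have h1 := S.err_bound hK Q y w Zb L hL hy hh hwy z1 z2 z3
    have h2 := S.mean_sq_le hK _ (fun r hr => (S.Sall_good Q y hy r hr).1)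
    rw [S.Del_apply] at h1
    have h3 := (le_abs_self _).trans h1
    have h4 : (S.x : ℝ) / S.W * S.mean (f * f) ≤ x / W * G := by
      rw [hG]; exact mul_le_mul_of_nonneg_left h2 (by positivity)
    have h5 : S.tot (f * f) - (S.x : ℝ) / S.W * S.mean (f * f) ≤ Er := h3
    have h6 : S.tot (f * f) = ∑ n ∈ (Icc 1 x).filter (fun n => n ≡ b [MOD W]), f n * f n := rfl
    linarith
  set A := ((range (x + 1)).filter (fun n => ∀ l, (n + h l).Prime)).filter (fun n => D + w < n)
    with hA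
  have c1 : cntP h x ≤ (D + w + 1) + A.card := by
    rw [cntP, ← card_filter_add_card_filter_not (fun n => D + w < n), add_comm]
    apply Nat.add_le_add_right
    refine le_trans (card_le_card (t := range (D + w + 1)) ?_) (by simp)
    intro n hn
    have := (mem_filter.mp hn).2
    simp only [mem_range]; omega
  have hW0 : 0 < W := primorial_pos w
  have c2 : (A.card : ℝ) * G ^ 2 ≤ ∑ b ∈ Bs h W,
      ∑ n ∈ (Icc 1 x).filter (fun n => n ≡ b [MOD W]), f n * f n := by
    have e1 : (A.card : ℝ) * G ^ 2 = ∑ n ∈ A, f n * f n := by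
      rw [← nsmul_eq_mul, ← sum_const]
      apply sum_congr rfl
      intro n hn
      simp only [hA, mem_filter] at hn
      by_cases hne : (Bs h W).Nonempty
      · obtain ⟨b, hb⟩ := hne
        set S := mkS h hinj w D x b hh hb with hS
        rw [hf, Fs_prime h (Q.Sall (NN w D) y K) D n (fun r hr l => (mem_Icc.mp (mem_Icc_of_prod_le
          (S.Sall_good Q y hy r hr).1.1.prod_pos (S.Sall_good Q y hy r hr).2 l)).2)
          (by omega) hn.1.2, ← hG, sq]
      · exfalso
        apply hne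
        refine ⟨n % W, mem_filter.mpr ⟨mem_range.mpr (Nat.mod_lt _ hW0), fun l => ?_⟩⟩
        rw [Nat.Coprime, ((Nat.mod_modEq n W).add_right (h l)).gcd_eq]
        apply (hn.1.2 l).coprime_iff_not_dvd.mpr
        rw [(hn.1.2 l).dvd_primorial_iff]; omega
    rw [e1, ← sum_fiberwise_of_maps_to (s := A) (t := Bs h W) (g := fun n => n % W)]
    · apply sum_le_sum
      intro b hb
      apply sum_le_sum_of_subset_of_nonneg _ (fun _ _ _ => mul_self_nonneg _)
      intro n hn
      simp only [hA, mem_filter, mem_range, mem_Icc] at hn ⊢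
      refine ⟨⟨by omega, by omega⟩, ?_⟩
      rw [← hn.2]; exact (Nat.mod_modEq n W).symm
    · intro n hn
      simp only [hA, mem_filter] at hn
      refine mem_filter.mpr ⟨mem_range.mpr (Nat.mod_lt _ hW0), fun l => ?_⟩
      rw [Nat.Coprime, ((Nat.mod_modEq n W).add_right (h l)).gcd_eq]
      apply (hn.1.2 l).coprime_iff_not_dvd.mpr
      rw [(hn.1.2 l).dvd_primorial_iff]; omega
  have c3 := c2.trans (sum_le_sum hb)
  rw [sum_const, nsmul_eq_mul, mul_add] at c3
  have c4 : ((Bs h W).card : ℝ) ≤ W := by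
    have : (Bs h W).card ≤ W := (card_filter_le _ _).trans (by simp)
    exact_mod_cast this
  have c5 : (cntP h x : ℝ) ≤ ((y : ℝ) ^ (Q.J + Q.Δ) + w + 1) + A.card := by exact_mod_cast c1
  have c6 := mul_le_mul_of_nonneg_right c5 (sq_nonneg G)
  have c7 := mul_le_mul_of_nonneg_right c4 hEr0
  linarith

end Pool.Agent.Lib.MP_68a45e_nt
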