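import Pool.Agent.Lib.MP_68a45e_nt.Expo

set_option autoImplicit false

namespace Pool.Agent.Lib.MP_68a45e_nt

open Finset

lemma numer_ne_zero {l : ℕ} (π : Fin l × Bool → ℕ) (hπ : ∀ j, (π j).Prime) (j : Fin l × Bool)
    (hj : ∀ j', j' ≠ j → π j' ≠ π j) : numer π ≠ 0 := by
  intro h0
  have hp : Prime ((π j : ℕ) : ℤ) := Nat.prime_iff_prime_int.mp (hπ j)
  rw [numer, ← Finset.add_sum_erase _ _ (mem_univ j)] at h0
  have h1 : ((π j : ℕ) : ℤ) ∣ ∑ i ∈ univ.erase j,
      (if i.2 then 1 else -1) * ∏ j' ∈ univ.erase i, (π j' : ℤ) := by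
    apply dvd_sum
    intro i hi
    apply Dvd.dvd.mul_left
    exact dvd_prod_of_mem (fun j' => (π j' : ℤ)) (by simpa using (ne_of_mem_erase hi).symm)
  have h2 : ((π j : ℕ) : ℤ) ∣ (if j.2 then 1 else -1) * ∏ j' ∈ univ.erase j, (π j' : ℤ) := by
    rw [eq_neg_of_add_eq_zero_left h0]; exact h1.neg_right
  have h3 : ((π j : ℕ) : ℤ) ∣ ∏ j' ∈ univ.erase j, (π j' : ℤ) := by
    split_ifs at h2
    · simpa using h2
    · simpa using h2
  obtain ⟨i, hi, hd⟩ := (Prime.dvd_finsetProd_iff hp _).mp h3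
  have := (Nat.prime_dvd_prime_iff_eq (hπ j) (hπ i)).mp (Int.natCast_dvd_natCast.mp hd)
  exact hj i (ne_of_mem_erase hi) this.symm

lemma diag_count (P : Finset ℕ) (hP : ∀ p ∈ P, p.Prime) (l : ℕ) :
    ((Fintype.piFinset (fun _ : Fin l × Bool => P)).filter (fun π => numer π = 0)).card ≤
      l ^ (2 * l) * P.card ^ l := by
  classical
  have hsub : (Fintype.piFinset (fun _ : Fin l × Bool => P)).filter (fun π => numer π = 0) ⊆
      ((univ : Finset (Fin l × Bool → Fin l)) ×ˢ Fintype.piFinset (fun _ : Fin l => P)).image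
        (fun u => u.2 ∘ u.1) := by
    intro π hπ
    obtain ⟨h1, h0⟩ := mem_filter.mp hπ
    have h1' : ∀ j, π j ∈ P := Fintype.mem_piFinset.mp h1
    have hcard : (univ.image π).card ≤ l := by
      have h2 : ∀ v ∈ univ.image π, 2 ≤ (univ.filter (fun j => π j = v)).card := by
        intro v hv
        obtain ⟨j, _, rfl⟩ := mem_image.mp hv
        by_contra hlt
        apply numer_ne_zero π (fun j => hP _ (h1' j)) j _ h0
        intro j' hne e
        apply hlt
        exact Finset.one_lt_card.mpr ⟨j', by simp [e], j, by simp, hne⟩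
      have h3 := Finset.card_eq_sum_card_image π univ
      have h4 : (univ.image π).card * 2 ≤ ∑ v ∈ univ.image π,
          (univ.filter (fun j => π j = v)).card := by
        rw [← smul_eq_mul, ← sum_const]; exact sum_le_sum h2
      simp only [card_univ, Fintype.card_prod, Fintype.card_fin, Fintype.card_bool] at h3
      omega
    set T := univ.image π with hT
    let e := T.equivFin
    have hmem : ∀ j, π j ∈ T := fun j => mem_image_of_mem _ (mem_univ j)
    refine mem_image.mpr ⟨(fun j => Fin.castLE hcard (e ⟨π j, hmem j⟩),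
      fun a => if h : a.val < T.card then (e.symm ⟨a.val, h⟩ : ℕ) else π (a, true)), ?_, ?_⟩
    · simp only [mem_product, mem_univ, true_and, Fintype.mem_piFinset]
      intro a
      split_ifs with h
      · obtain ⟨j, _, hj⟩ := mem_image.mp (e.symm ⟨a.val, h⟩).2
        rw [← hj]; exact h1' j
      · exact h1' _
    · funext j
      simp only [Function.comp, Fin.val_castLE, Fin.is_lt, dif_pos, Fin.eta, Equiv.symm_apply_apply]
  refine (card_le_card hsub).trans (card_image_le.trans (le_of_eq ?_))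
  simp [Fintype.card_piFinset, mul_comm]

lemma numer_bound {l : ℕ} (π : Fin l × Bool → ℕ) (Y : ℕ) (hY : 1 ≤ Y) (hπ : ∀ j, π j ≤ Y) :
    (numer π).natAbs ≤ 2 * l * Y ^ (2 * l) := by
  have : |numer π| ≤ ((2 * l * Y ^ (2 * l) : ℕ) : ℤ) := by
    rw [numer]
    refine (abs_sum_le_sum_abs _ _).trans ?_
    have : ∀ j ∈ (univ : Finset (Fin l × Bool)),
        |(if j.2 then 1 else -1) * ∏ j' ∈ univ.erase j, (π j' : ℤ)| ≤ (Y : ℤ) ^ (2 * l) := by
      intro j _
      have h1 : |(if j.2 then (1 : ℤ) else -1)| = 1 := by split_ifs <;> simp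
      rw [abs_mul, h1, one_mul, abs_of_nonneg (prod_nonneg (fun _ _ => by positivity))]
      have h2 : ∏ j' ∈ univ.erase j, π j' ≤ Y ^ (2 * l) := by
        refine (Finset.prod_le_pow_card _ _ Y (fun i _ => hπ i)).trans ?_
        apply Nat.pow_le_pow_right hY
        refine (card_le_univ _).trans (le_of_eq ?_)
        simp [mul_comm]
      exact_mod_cast h2
    refine (sum_le_sum this).trans (le_of_eq ?_)
    simp [mul_comm]
  rw [Int.abs_eq_natAbs] at this
  exact_mod_cast this

lemma Jc_sum (P : Finset ℕ) (hP : ∀ p ∈ P, p.Prime) (Y : ℕ) (hY : 1 ≤ Y) (hPY : ∀ p ∈ P, p ≤ Y)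
    (l W R Z : ℕ) (L : ℝ) (hL : ∀ n : ℕ, n ≠ 0 → n ≤ Z → (n.divisors.card : ℝ) ≤ L)
    (hZ : 2 * l * Y ^ (2 * l) ≤ Z) (hL0 : 0 ≤ L) :
    ∑ r ∈ Icc 1 R, (Jc (W * r) P l : ℝ) ≤
      R * (l ^ (2 * l) * (P.card : ℝ) ^ l) + (P.card : ℝ) ^ (2 * l) * L := by
  classical
  set T := Fintype.piFinset (fun _ : Fin l × Bool => P) with hT
  have h1 : ∑ r ∈ Icc 1 R, (Jc (W * r) P l : ℝ) =
      ∑ π ∈ T, (((Icc 1 R).filter (fun r => ((W * r : ℕ) : ℤ) ∣ numer π)).card : ℝ) := by
    simp only [Jc, card_filter]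
    push_cast
    rw [sum_comm]
  have h2 : ∀ π ∈ T, (((Icc 1 R).filter (fun r => ((W * r : ℕ) : ℤ) ∣ numer π)).card : ℝ) ≤
      (if numer π = 0 then (R : ℝ) else 0) + L := by
    intro π hπ
    split_ifs with h0
    · have : ((Icc 1 R).filter (fun r => ((W * r : ℕ) : ℤ) ∣ numer π)).card ≤ R := by
        refine (card_filter_le _ _).trans (by simp)
      have : (((Icc 1 R).filter (fun r => ((W * r : ℕ) : ℤ) ∣ numer π)).card : ℝ) ≤ R := by
        exact_mod_cast this
      linarith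
    · have hne : (numer π).natAbs ≠ 0 := Int.natAbs_ne_zero.mpr h0
      have hb := numer_bound π Y hY (fun j => hPY _ (Fintype.mem_piFinset.mp hπ j))
      have h3 := hL _ hne (hb.trans hZ)
      have h4 : ((Icc 1 R).filter (fun r => ((W * r : ℕ) : ℤ) ∣ numer π)).card ≤
          (numer π).natAbs.divisors.card := by
        apply card_le_card
        intro r hr
        have := (mem_filter.mp hr).2
        rw [Int.natCast_dvd] at this
        exact Nat.mem_divisors.mpr ⟨Dvd.dvd.trans (Dvd.intro_left _ rfl) this, hne⟩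
      have : (((Icc 1 R).filter (fun r => ((W * r : ℕ) : ℤ) ∣ numer π)).card : ℝ) ≤
          (numer π).natAbs.divisors.card := by exact_mod_cast h4
      linarith
  rw [h1]
  refine (sum_le_sum h2).trans ?_
  rw [sum_add_distrib, ← sum_filter, sum_const, sum_const, nsmul_eq_mul, nsmul_eq_mul]
  have h5 : ((T.filter (fun π => numer π = 0)).card : ℝ) ≤ l ^ (2 * l) * (P.card : ℝ) ^ l := by
    exact_mod_cast diag_count P hP l
  have h6 : (T.card : ℝ) = (P.card : ℝ) ^ (2 * l) := by
    simp [hT, Fintype.card_piFinset, mul_comm]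
  rw [h6]
  have : (0 : ℝ) ≤ R := by positivity
  nlinarith

end Pool.Agent.Lib.MP_68a45e_nt
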