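import Pool.Agent.Lib.MP_68a45e_nt.Harm

set_option autoImplicit false

namespace Pool.Agent.Lib.MP_68a45e_nt

open Finset Filter

variable {K : ℕ}

lemma one_sub_sum_le_prod {ι : Type*} (s : Finset ι) (a : ι → ℝ) (h0 : ∀ i ∈ s, 0 ≤ a i)
    (h1 : ∀ i ∈ s, a i ≤ 1) : 1 - ∑ i ∈ s, a i ≤ ∏ i ∈ s, (1 - a i) := by
  classical
  induction s using Finset.induction_on with
  | empty => simp
  | insert j s hj ih =>
    rw [sum_insert hj, prod_insert hj]
    have := ih (fun i hi => h0 i (mem_insert_of_mem hi)) (fun i hi => h1 i (mem_insert_of_mem hi))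
    have a0 := h0 j (mem_insert_self _ _)
    have a1 := h1 j (mem_insert_self _ _)
    have a2 := sum_nonneg (fun i hi => h0 i (mem_insert_of_mem hi))
    nlinarith

lemma gw_ge (hK : 1 ≤ K) {n : ℕ} (hn : Squarefree n) :
    1 / (n : ℝ) * (1 - ∑ p ∈ n.primeFactors, (K : ℝ) / p) ≤ gw K n := by
  have hK' : (1 : ℝ) ≤ K := by exact_mod_cast hK
  have e : gw K n = 1 / (n : ℝ) * ∏ p ∈ n.primeFactors, (1 - (K - 1) / ((p : ℝ) + K - 1)) := by
    conv_rhs => enter [1]; rw [← Nat.prod_primeFactors_of_squarefree hn]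
    push_cast
    rw [one_div, ← prod_inv_distrib, ← prod_mul_distrib, gw]
    apply prod_congr rfl
    intro p hp
    obtain ⟨h1, h2⟩ := gfac_pos hK (Nat.prime_of_mem_primeFactors hp)
    have : (p : ℝ) + K - 1 ≠ 0 := by linarith
    field_simp; ring
  rw [e]
  apply mul_le_mul_of_nonneg_left _ (by positivity)
  refine le_trans ?_ (one_sub_sum_le_prod _ _ ?_ ?_)
  · apply sub_le_sub_left
    apply sum_le_sum
    intro p hp
    obtain ⟨h1, h2⟩ := gfac_pos hK (Nat.prime_of_mem_primeFactors hp)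
    exact div_le_div₀ (by linarith) (by linarith) h2 h1
  · intro p hp
    obtain ⟨h1, h2⟩ := gfac_pos hK (Nat.prime_of_mem_primeFactors hp)
    exact div_nonneg (by linarith) (by linarith)
  · intro p hp
    obtain ⟨h1, h2⟩ := gfac_pos hK (Nat.prime_of_mem_primeFactors hp)
    rw [div_le_one (by linarith)]; linarith

/-- tuples of integers below `D` prime to `W` -/
def Un (K W D : ℕ) : Finset (Fin K → ℕ) :=
  Fintype.piFinset (fun _ => (Ico 1 D).filter (fun a => W.Coprime a))

noncomputable def Id (d r : Fin K → ℕ) : ℝ := if ∀ l, d l ∣ r l then 1 else 0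

lemma Id_nonneg (d r : Fin K → ℕ) : 0 ≤ Id d r := by unfold Id; split_ifs <;> norm_num

lemma sum_Id_le (W D : ℕ) (d : Fin K → ℕ) (hd : ∀ l, 0 < d l) :
    ∑ r ∈ Un K W D, 1 / ((∏ l, r l : ℕ) : ℝ) * Id d r ≤ 1 / ((∏ l, d l : ℕ) : ℝ) * HW W D ^ K := by
  have e : ∑ r ∈ Un K W D, 1 / ((∏ l, r l : ℕ) : ℝ) * Id d r =
      ∏ l, ∑ a ∈ (Ico 1 D).filter (fun a => W.Coprime a), (if d l ∣ a then (1 : ℝ) / a else 0) := by
    rw [Finset.prod_univ_sum, Un]
    apply sum_congr rfl
    intro r _
    rw [Finset.prod_ite_zero, Id]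
    simp
  rw [e]
  refine (prod_le_prod (fun l _ => sum_nonneg (fun a _ => by split_ifs <;> positivity))
    (fun l _ => sum_dvd_le W D (d l) (hd l))).trans (le_of_eq ?_)
  rw [prod_mul_distrib]; simp

noncomputable def bad (w D : ℕ) (r : Fin K → ℕ) : ℝ :=
  ∑ p ∈ (Ioc w D).filter Nat.Prime, ∑ l, ((K : ℝ) / p * Id (Function.update 1 l p) r +
    Id (Function.update 1 l (p * p)) r +
    ∑ l' ∈ univ.erase l, Id (Function.update (Function.update 1 l p) l' p) r)

lemma Id_update {r : Fin K → ℕ} {l : Fin K} {a : ℕ} (h : a ∣ r l) :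
    Id (Function.update 1 l a) r = 1 := by
  apply if_pos
  intro j
  by_cases e : j = l
  · rw [e, Function.update_self]; exact h
  · simp [Function.update_of_ne e]

lemma prod_update_one (l : Fin K) (a : ℕ) : ∏ j, Function.update (1 : Fin K → ℕ) l a j = a := by
  rw [Finset.prod_update_of_mem (mem_univ l)]; simp

lemma update_pos {d : Fin K → ℕ} (hd : ∀ j, 0 < d j) (l : Fin K) {a : ℕ} (ha : 0 < a) (j : Fin K) :
    0 < Function.update d l a j := by
  by_cases e : j = l
  · rw [e, Function.update_self]; exact ha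
  · rw [Function.update_of_ne e]; exact hd j

lemma sum_bad_le (w D : ℕ) (hw : 1 ≤ w) (W : ℕ) :
    ∑ r ∈ Un K W D, 1 / ((∏ l, r l : ℕ) : ℝ) * bad w D r ≤ 3 * K ^ 2 / w * HW W D ^ K := by
  have hH : 0 ≤ HW W D ^ K := pow_nonneg (HW_nonneg _ _) _
  simp only [bad, mul_sum]
  rw [sum_comm]
  have h1 : ∀ p ∈ (Ioc w D).filter Nat.Prime, ∑ r ∈ Un K W D, ∑ l,
      1 / ((∏ l, r l : ℕ) : ℝ) * ((K : ℝ) / p * Id (Function.update 1 l p) r +
        Id (Function.update 1 l (p * p)) r +
        ∑ l' ∈ univ.erase l, Id (Function.update (Function.update 1 l p) l' p) r) ≤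
      ((p : ℝ) ^ 2)⁻¹ * (3 * K ^ 2 * HW W D ^ K) := by
    intro p hp
    have hp0 := (mem_filter.mp hp).2.pos
    have hp' : (0 : ℝ) < p := by exact_mod_cast hp0
    rw [sum_comm]
    calc _ ≤ ∑ _l : Fin K, ((p : ℝ) ^ 2)⁻¹ * (3 * K * HW W D ^ K) := by
          apply sum_le_sum
          intro l _
          have hK : (1 : ℝ) ≤ K := by exact_mod_cast l.pos
          have a1 := sum_Id_le W D (Function.update 1 l p) (update_pos (fun _ => one_pos) l hp0)
          have a2 := sum_Id_le W D (Function.update 1 l (p * p))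
            (update_pos (fun _ => one_pos) l (Nat.mul_pos hp0 hp0))
          rw [prod_update_one] at a1 a2
          have a3 : ∑ l' ∈ univ.erase l, ∑ r ∈ Un K W D, 1 / ((∏ l, r l : ℕ) : ℝ) *
              Id (Function.update (Function.update 1 l p) l' p) r ≤
              K * (((p : ℝ) ^ 2)⁻¹ * HW W D ^ K) := by
            calc _ ≤ ∑ _l' ∈ univ.erase l, ((p : ℝ) ^ 2)⁻¹ * HW W D ^ K := by
                  apply sum_le_sum
                  intro l' hl'
                  refine (sum_Id_le W D (Function.update (Function.update 1 l p) l' p)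
                    (update_pos (update_pos (fun _ => one_pos) l hp0) l' hp0)).trans (le_of_eq ?_)
                  have e0 : Function.update (Function.update (1 : Fin K → ℕ) l p) l' 1 =
                      Function.update (1 : Fin K → ℕ) l p := Function.update_eq_self_iff.mpr
                    (by simp [Function.update_of_ne (ne_of_mem_erase hl')])
                  rw [prod_update_eq, e0, prod_update_one]
                  push_cast; ring
              _ ≤ _ := by
                  rw [sum_const, nsmul_eq_mul]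
                  apply mul_le_mul_of_nonneg_right _ (by positivity)
                  have : (univ.erase l).card ≤ K := (card_le_univ _).trans (by simp)
                  exact_mod_cast this
          simp only [mul_add, sum_add_distrib, mul_sum]
          rw [sum_comm (s := Un K W D)]
          have e1 : ∑ r ∈ Un K W D, 1 / ((∏ l, r l : ℕ) : ℝ) *
              ((K : ℝ) / p * Id (Function.update 1 l p) r) = (K : ℝ) / p * ∑ r ∈ Un K W D,
              1 / ((∏ l, r l : ℕ) : ℝ) * Id (Function.update 1 l p) r := by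
            rw [mul_sum]; apply sum_congr rfl; intro r _; ring
          have b1 : (K : ℝ) / p * (1 / p * HW W D ^ K) = K * (((p : ℝ) ^ 2)⁻¹ * HW W D ^ K) := by
            field_simp
          have b2 : 1 / ((p * p : ℕ) : ℝ) * HW W D ^ K = ((p : ℝ) ^ 2)⁻¹ * HW W D ^ K := by
            push_cast; ring
          have b3 := mul_le_mul_of_nonneg_left a1 (by positivity : (0 : ℝ) ≤ K / p)
          have b4 : 0 ≤ ((p : ℝ) ^ 2)⁻¹ * HW W D ^ K := by positivity
          rw [e1]
          nlinarith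
      _ = _ := by simp; ring
  refine (sum_le_sum h1).trans ?_
  rw [← sum_mul]
  have h2 : ∑ p ∈ (Ioc w D).filter Nat.Prime, ((p : ℝ) ^ 2)⁻¹ ≤ (w : ℝ)⁻¹ := by
    refine (sum_le_sum_of_subset_of_nonneg ((filter_subset _ _).trans
      (Ioc_subset_Ioc_right (le_max_right w D))) (fun _ _ _ => by positivity)).trans ?_
    refine (sum_Ioc_inv_sq_le_sub (by omega) (le_max_left w D)).trans ?_
    have : (0 : ℝ) ≤ ((max w D : ℕ) : ℝ)⁻¹ := by positivity
    linarith
  calc _ ≤ (w : ℝ)⁻¹ * (3 * K ^ 2 * HW W D ^ K) := by gcongr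
    _ = _ := by ring

lemma weight_ineq (hK : 1 ≤ K) (w D : ℕ) {r : Fin K → ℕ} (hr : r ∈ Un K (primorial w) D) :
    1 / ((∏ l, r l : ℕ) : ℝ) * (1 - bad w D r) ≤
      if r ∈ Gd K (NN w D) then gw K (∏ l, r l) else 0 := by
  have hr' : ∀ l, (1 ≤ r l ∧ r l < D) ∧ (primorial w).Coprime (r l) := by
    simpa [Un, Fintype.mem_piFinset] using hr
  have hpr : ∀ p l, p.Prime → p ∣ r l → p ∈ (Ioc w D).filter Nat.Prime := by
    intro p l hp hd
    refine mem_filter.mpr ⟨mem_Ioc.mpr ⟨?_, ((Nat.le_of_dvd (hr' l).1.1 hd).trans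
      (hr' l).1.2.le)⟩, hp⟩
    by_contra hc
    exact Nat.Prime.not_coprime_iff_dvd.mpr ⟨p, hp, hp.dvd_primorial_iff.mpr (not_lt.mp hc), hd⟩
      (hr' l).2
  have t0 : ∀ p l, 0 ≤ (K : ℝ) / p * Id (Function.update 1 l p) r :=
    fun p l => mul_nonneg (by positivity) (Id_nonneg _ _)
  have t1 : ∀ p l, 0 ≤ ∑ l' ∈ univ.erase l, Id (Function.update (Function.update 1 l p) l' p) r :=
    fun p l => sum_nonneg (fun _ _ => Id_nonneg _ _)
  have hterm : ∀ p ∈ (Ioc w D).filter Nat.Prime, ∀ l, (K : ℝ) / p * Id (Function.update 1 l p) r +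
      Id (Function.update 1 l (p * p)) r +
      ∑ l' ∈ univ.erase l, Id (Function.update (Function.update 1 l p) l' p) r ≤ bad w D r := by
    intro p hp l
    refine le_trans ?_ (single_le_sum (f := fun p : ℕ => ∑ l, ((K : ℝ) / p *
      Id (Function.update 1 l p) r + Id (Function.update 1 l (p * p)) r +
      ∑ l' ∈ univ.erase l, Id (Function.update (Function.update 1 l p) l' p) r))
      (fun p _ => sum_nonneg (fun l _ => add_nonneg (add_nonneg (t0 p l) (Id_nonneg _ _))
        (t1 p l))) hp)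
    exact single_le_sum (f := fun l => ((K : ℝ) / p *
      Id (Function.update 1 l p) r + Id (Function.update 1 l (p * p)) r +
      ∑ l' ∈ univ.erase l, Id (Function.update (Function.update 1 l p) l' p) r))
      (fun l _ => add_nonneg (add_nonneg (t0 p l) (Id_nonneg _ _)) (t1 p l)) (mem_univ l)
  split_ifs with hg
  · simp only [Gd, mem_filter, mem_divs (fun _ => (NN_sqf w D).ne_zero)] at hg
    have hsq : Squarefree (∏ l, r l) := (NN_sqf w D).squarefree_of_dvd
      (Finset.prod_dvd_of_isRelPrime (fun l _ l' _ e => Nat.coprime_iff_isRelPrime.mp (hg.2 l l' e))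
        (fun l _ => hg.1 l))
    refine le_trans (mul_le_mul_of_nonneg_left (sub_le_sub_left ?_ _) (by positivity))
      (gw_ge hK hsq)
    have hsub : (∏ l, r l).primeFactors ⊆ (Ioc w D).filter Nat.Prime := by
      intro p hp
      obtain ⟨l, _, hl⟩ := (Prime.dvd_finsetProd_iff (Nat.prime_of_mem_primeFactors hp).prime _).mp
        (Nat.dvd_of_mem_primeFactors hp)
      exact hpr p l (Nat.prime_of_mem_primeFactors hp) hl
    refine le_trans (sum_le_sum ?_) (sum_le_sum_of_subset_of_nonneg hsub (fun p _ _ =>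
      sum_nonneg (fun l _ => add_nonneg (add_nonneg (t0 p l) (Id_nonneg _ _)) (t1 p l))))
    intro p hp
    obtain ⟨l, _, hl⟩ := (Prime.dvd_finsetProd_iff (Nat.prime_of_mem_primeFactors hp).prime _).mp
      (Nat.dvd_of_mem_primeFactors hp)
    refine le_trans ?_ (single_le_sum (f := fun l => ((K : ℝ) / p *
      Id (Function.update 1 l p) r + Id (Function.update 1 l (p * p)) r +
      ∑ l' ∈ univ.erase l, Id (Function.update (Function.update 1 l p) l' p) r))
      (fun l _ => add_nonneg (add_nonneg (t0 p l) (Id_nonneg _ _)) (t1 p l)) (mem_univ l))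
    simp only [Id_update hl, mul_one]
    have := Id_nonneg (Function.update 1 l (p * p)) r
    have := t1 p l
    linarith
  · apply mul_nonpos_of_nonneg_of_nonpos (by positivity)
    rw [sub_nonpos]
    by_contra hc
    apply hg
    simp only [Gd, mem_filter, mem_divs (fun _ => (NN_sqf w D).ne_zero)]
    constructor
    · intro l
      have hsq : Squarefree (r l) := by
        rw [Nat.squarefree_iff_prime_squarefree]
        intro p hp hd
        have := hterm p (hpr p l hp (Dvd.dvd.trans (Dvd.intro _ rfl) hd)) l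
        rw [Id_update hd] at this
        have := t0 p l
        have := t1 p l
        linarith
      rw [← Nat.prod_primeFactors_of_squarefree hsq]
      exact prod_dvd_prod_of_subset _ _ _ (fun p hp => hpr p l (Nat.prime_of_mem_primeFactors hp)
        (Nat.dvd_of_mem_primeFactors hp))
    · intro l l' hne
      by_contra hn
      obtain ⟨p, hp, d1, d2⟩ := Nat.Prime.not_coprime_iff_dvd.mp hn
      have h1 := hterm p (hpr p l hp d1) l
      have h2 : Id (Function.update (Function.update 1 l p) l' p) r = 1 := by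
        apply if_pos
        intro j
        by_cases e : j = l'
        · rw [e, Function.update_self]; exact d2
        · rw [Function.update_of_ne e]
          by_cases e' : j = l
          · rw [e', Function.update_self]; exact d1
          · simp [Function.update_of_ne e']
      have h3 := single_le_sum
        (f := fun l' => Id (Function.update (Function.update 1 l p) l' p) r)
        (fun _ _ => Id_nonneg _ _) (mem_erase.mpr ⟨hne.symm, mem_univ l'⟩)
      simp only [h2] at h3
      have := t0 p l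
      have := Id_nonneg (Function.update 1 l (p * p)) r
      linarith

lemma bad_nonneg (w D : ℕ) (r : Fin K → ℕ) : 0 ≤ bad w D r :=
  sum_nonneg (fun _ _ => sum_nonneg (fun _ _ => add_nonneg (add_nonneg
    (mul_nonneg (by positivity) (Id_nonneg _ _)) (Id_nonneg _ _))
    (sum_nonneg (fun _ _ => Id_nonneg _ _))))

lemma box_lower (hK : 1 ≤ K) (w y E : ℕ) (hw : 1 ≤ w) (hy : 2 ≤ y) (J : Finset (Fin K → ℕ))
    (hJ : ∀ j ∈ J, ∀ l, j l + 1 ≤ E) (A : (Fin K → ℕ) → Prop) [DecidablePred A]
    (hA : ∀ j ∈ J, ∀ r : Fin K → ℕ, (∀ l, y ^ j l ≤ r l ∧ r l < y ^ (j l + 1)) → A r)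
    (η : ℝ) (hη0 : 0 ≤ η)
    (hη : η ≤ ((primorial w).totient : ℝ) / primorial w * Real.log y - 2 * (2 * primorial w + 1)) :
    J.card * η ^ K - 3 * K ^ 2 / w * HW (primorial w) (y ^ E) ^ K ≤
      ∑ r ∈ (Gd K (NN w (y ^ E))).filter A, gw K (∏ l, r l) := by
  classical
  set W := primorial w with hW
  set D := y ^ E with hD
  set Bx : (Fin K → ℕ) → Finset (Fin K → ℕ) := fun j => Fintype.piFinset
    (fun l => (Ico (y ^ j l) (y ^ (j l + 1))).filter (fun a => W.Coprime a)) with hBx
  have hy0 : 0 < y := by omega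
  have hmem : ∀ j r, r ∈ Bx j → ∀ l, (y ^ j l ≤ r l ∧ r l < y ^ (j l + 1)) ∧ W.Coprime (r l) := by
    intro j r hr
    simpa [hBx, Fintype.mem_piFinset] using hr
  have hsub : J.biUnion Bx ⊆ Un K W D := by
    intro r hr
    obtain ⟨j, hj, hr⟩ := mem_biUnion.mp hr
    refine Fintype.mem_piFinset.mpr (fun l => mem_filter.mpr ⟨mem_Ico.mpr ⟨?_, ?_⟩,
      (hmem j r hr l).2⟩)
    · exact (Nat.one_le_pow _ _ hy0).trans (hmem j r hr l).1.1
    · exact (hmem j r hr l).1.2.trans_le (Nat.pow_le_pow_right hy0 (hJ j hj l))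
  have h1 : (J.card : ℝ) * η ^ K ≤ ∑ r ∈ J.biUnion Bx, 1 / ((∏ l, r l : ℕ) : ℝ) := by
    rw [sum_biUnion, ← nsmul_eq_mul, ← sum_const]
    · apply sum_le_sum
      intro j _
      have e : ∑ r ∈ Bx j, 1 / ((∏ l, r l : ℕ) : ℝ) = ∏ l, ∑ a ∈
          (Ico (y ^ j l) (y ^ (j l + 1))).filter (fun a => W.Coprime a), (1 : ℝ) / a := by
        rw [Finset.prod_univ_sum]
        apply sum_congr rfl
        intro r _
        simp
      rw [e]
      calc η ^ K = ∏ _l : Fin K, η := by simp
        _ ≤ _ := by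
          apply prod_le_prod (fun _ _ => hη0)
          intro l _
          have a1 := HW_add W (Nat.one_le_pow (j l) _ hy0)
            (Nat.pow_le_pow_right hy0 (Nat.le_succ (j l)))
          have a2 := abs_le.mp (HW_bounds W (primorial_pos w) _ (Nat.one_le_pow (j l) _ hy0))
          have a3 := abs_le.mp (HW_bounds W (primorial_pos w) _ (Nat.one_le_pow (j l + 1) _ hy0))
          push_cast at a2 a3
          rw [Real.log_pow] at a2 a3
          push_cast at a2 a3
          linarith [a2.2, a3.1]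
    · intro j _ j' _ hne
      rw [Function.onFun, disjoint_left]
      intro r hr hr'
      apply hne
      funext l
      have a := (hmem j r hr l).1
      have b := (hmem j' r hr' l).1
      have := (Nat.pow_lt_pow_iff_right (by omega : 1 < y)).mp (a.1.trans_lt b.2)
      have := (Nat.pow_lt_pow_iff_right (by omega : 1 < y)).mp (b.1.trans_lt a.2)
      omega
  have h2 : ∑ r ∈ J.biUnion Bx, 1 / ((∏ l, r l : ℕ) : ℝ) * bad w D r ≤
      3 * K ^ 2 / w * HW W D ^ K :=
    (sum_le_sum_of_subset_of_nonneg hsub (fun r _ _ => mul_nonneg (by positivity)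
      (bad_nonneg _ _ _))).trans (sum_bad_le w D hw W)
  have h3 : ∑ r ∈ J.biUnion Bx, 1 / ((∏ l, r l : ℕ) : ℝ) * (1 - bad w D r) ≤
      ∑ r ∈ (Gd K (NN w D)).filter A, gw K (∏ l, r l) := by
    refine (sum_le_sum (fun r hr => weight_ineq hK w D (hsub hr))).trans ?_
    rw [← sum_filter]
    apply sum_le_sum_of_subset_of_nonneg _ (fun _ _ _ => gw_nonneg hK _)
    intro r hr
    obtain ⟨a1, a2⟩ := mem_filter.mp hr
    obtain ⟨j, hj, a1⟩ := mem_biUnion.mp a1
    exact mem_filter.mpr ⟨a2, hA j hj r (fun l => (hmem j r a1 l).1)⟩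
  simp only [mul_sub, mul_one, sum_sub_distrib] at h3
  linarith

lemma th_lower (hK : 1 ≤ K) (w E V' : ℕ) : ∃ y0 : ℕ, ∀ y : ℕ, y0 ≤ y → ∀ v : ℕ, 1 ≤ v → v < V' →
    V' ≤ E → ∀ r : Fin K → ℕ, 0 < ∏ l, r l → ∏ l, r l ≤ y ^ E →
    1 / (5 * (V' : ℝ)) ≤ th K (NN w (y ^ E)) y v r := by
  obtain ⟨y0, hy0⟩ := prime_recip_lower
  refine ⟨y0 + w + 10 * K + 200 * E * V' + 2, fun y hy v hv hv' hE r hr0 hr => ?_⟩
  have h1 := hy0 y (by omega) v hv
  have hy1 : 0 < y := by omega
  have hyv : y ≤ y ^ v := Nat.le_self_pow (by omega) y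
  set P := Pv (NN w (y ^ E)) y v with hP
  have hPp : ∀ p ∈ P, p.Prime ∧ y ≤ p := fun p hp =>
    ⟨Nat.prime_of_mem_primeFactors (mem_filter.mp hp).1, hyv.trans (mem_filter.mp hp).2.1⟩
  have h2 : ∑ p ∈ (Ioo (y ^ v) (y ^ (v + 1))).filter Nat.Prime, (1 : ℝ) / p ≤
      ∑ p ∈ P, (1 : ℝ) / p := by
    apply sum_le_sum_of_subset_of_nonneg _ (fun _ _ _ => by positivity)
    intro p hp
    simp only [hP, Pv, NN_primeFactors, mem_filter, mem_Ioo, mem_Ioc] at hp ⊢
    have := Nat.pow_le_pow_right hy1 (show v + 1 ≤ E by omega)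
    refine ⟨⟨⟨by omega, by omega⟩, hp.2⟩, by omega, hp.1.2⟩
  have h3 : (P.filter (fun p => p ∣ ∏ l, r l)).card ≤ E := by
    have a1 : ∏ p ∈ P.filter (fun p => p ∣ ∏ l, r l), p ∣ ∏ l, r l :=
      Finset.prod_primes_dvd _ (fun p hp => (hPp p (mem_filter.mp hp).1).1.prime)
        (fun p hp => (mem_filter.mp hp).2)
    have a2 := Finset.pow_card_le_prod (P.filter (fun p => p ∣ ∏ l, r l)) (fun p => p) y
      (fun p hp => (hPp p (mem_filter.mp hp).1).2)
    exact (Nat.pow_le_pow_iff_right (by omega : 1 < y)).mp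
      (a2.trans ((Nat.le_of_dvd hr0 a1).trans hr))
  have hy' : (0 : ℝ) < y := by exact_mod_cast hy1
  have h4 : ∑ p ∈ P.filter (fun p => p ∣ ∏ l, r l), (1 : ℝ) / p ≤ E * (1 / y) := by
    calc _ ≤ ∑ _p ∈ P.filter (fun p => p ∣ ∏ l, r l), (1 : ℝ) / y := by
          apply sum_le_sum
          intro p hp
          exact one_div_le_one_div_of_le hy' (by exact_mod_cast (hPp p (mem_filter.mp hp).1).2)
      _ ≤ _ := by
          rw [sum_const, nsmul_eq_mul]
          apply mul_le_mul_of_nonneg_right _ (by positivity)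
          exact_mod_cast h3
  have h5 : 9 / 10 * ∑ p ∈ P.filter (fun p => ¬ p ∣ ∏ l, r l), (1 : ℝ) / p ≤
      th K (NN w (y ^ E)) y v r := by
    rw [mul_sum]
    apply sum_le_sum
    intro p hp
    obtain ⟨a1, a2⟩ := hPp p (mem_filter.mp hp).1
    obtain ⟨b1, b2⟩ := gfac_pos hK a1
    have : (10 : ℝ) * K ≤ p := by exact_mod_cast (by omega : 10 * K ≤ p)
    rw [mul_one_div, div_le_div_iff₀ b2 (by linarith)]
    linarith
  have h6 := sum_filter_add_sum_filter_not P (fun p => p ∣ ∏ l, r l) (fun p => (1 : ℝ) / p)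
  have hV : (0 : ℝ) < V' := by exact_mod_cast (by omega : 0 < V')
  have h7 : (23 : ℝ) / 100 / V' ≤ 23 / 100 / (v + 1) := by
    apply div_le_div_of_nonneg_left (by norm_num) (by positivity)
    exact_mod_cast hv'
  have h8 : (E : ℝ) * (1 / y) ≤ 1 / 200 / V' := by
    rw [mul_one_div, div_le_div_iff₀ hy' hV]
    have : (200 : ℝ) * E * V' ≤ y := by exact_mod_cast (by omega : 200 * E * V' ≤ y)
    linarith
  have e1 : 1 / (5 * (V' : ℝ)) = 1 / 5 * (1 / V') := by field_simp
  have e2 : (23 : ℝ) / 100 / V' = 23 / 100 * (1 / V') := by field_simp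
  have e3 : (1 : ℝ) / 200 / V' = 1 / 200 * (1 / V') := by field_simp
  have : (0 : ℝ) ≤ 1 / V' := by positivity
  linarith

end Pool.Agent.Lib.MP_68a45e_nt
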