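import Pool.Agent.Lib.MP_68a45e_nt.Series

set_option autoImplicit false

namespace Pool.Agent.Lib.MP_68a45e_nt

open Finset Filter Topology

variable {K : ℕ}

lemma G_eq' (Q : Par) (N y : ℕ) (hN : N ≠ 0) (hy : 2 ≤ y) :
    ∑ r ∈ Q.Sall N y K, gw K (∏ l, r l) = ∑ r ∈ Q.S0 N y K, gw K (∏ l, r l) +
      ∑ z ∈ Q.Idx K, ∑ r ∈ Q.Rv N y z.1 z.2, th K N y z.2 r * gw K (∏ l, r l) := by
  rw [Q.sum_Sall N y hN hy]
  congr 1
  refine sum_congr rfl fun z _ => sum_congr rfl fun r hr => ?_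
  rw [th, sum_mul]
  apply sum_congr rfl
  intro p hp
  obtain ⟨h1, h2⟩ := mem_filter.mp hp
  have h3 := (mem_divs (fun _ => hN)).mp (mem_filter.mp (mem_filter.mp hr).1).1
  rw [prod_up, gw_mul_prime (prod_pos (fun l _ =>
    Nat.pos_of_dvd_of_pos (h3 l) (Nat.pos_of_ne_zero hN))).ne'
    (Nat.prime_of_mem_primeFactors (mem_filter.mp h1).1) h2, mul_comm]

/-- the sieve inequality after the choice of the auxiliary sizes -/
lemma sieve_ineq2 (hK : 1 ≤ K) (h : Fin K → ℕ) (hinj : Function.Injective h) (w : ℕ)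
    (hh : ∀ l, h l ≤ w) (Q : Par) : ∃ (C : ℝ) (y0 : ℕ), 0 ≤ C ∧ ∀ y x : ℕ, y0 ≤ y →
    y ^ (2 * Q.J + 1) ≤ x → x < (y + 1) ^ (2 * Q.J + 1) → ∀ G : ℝ,
    G = ∑ r ∈ Q.Sall (NN w (y ^ (Q.J + Q.Δ))) y K, gw K (∏ l, r l) →
    (cntP h x : ℝ) * G ^ 2 ≤ x * ((w + 2) / y * G ^ 2 +
      (Bs h (primorial w)).card / primorial w * G + C) := by
  obtain ⟨C, hC, hL⟩ := exists_Lam (2 * (Q.J + Q.Δ) + Q.V' * (2 * Q.l) + 2 * (2 * Q.J + 1) + 1)
    (5 * K + 3)
  set c : ℝ := (1 + (Q.Idx K).card) ^ 2 + (Q.Idx K).card * (2 + (Q.Idx K).card) *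
        ((primorial w + 1) * (Q.l ^ (2 * Q.l) + 1) + 5) with hc
  have hc0 : 0 ≤ c := by positivity
  refine ⟨primorial w * (c * C * (2 + 2 * w)), primorial w + 2 * Q.l + w + 4, by positivity,
    fun y x hy hx1 hx2 G hG => ?_⟩
  obtain ⟨L, l1, l2, l3, l4⟩ := hL y (by omega)
  have pw : ∀ a b, a ≤ b → y ^ a ≤ y ^ b := fun a b h => Nat.pow_le_pow_right (by omega) h
  have hx3 : x ≤ y ^ (2 * (2 * Q.J + 1)) := by
    rw [pow_mul]
    exact hx2.le.trans (Nat.pow_le_pow_left (by nlinarith) _)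
  have hyx : y ≤ x := (Nat.le_self_pow (by omega) y).trans hx1
  have key := sieve_ineq hK h hinj w hh Q y x _ L ⟨l1, l2, l3⟩ (by omega) (by omega)
    (le_trans (by rw [pow_succ']; exact Nat.mul_le_mul_right _ (by omega))
      (pw (2 * (Q.J + Q.Δ) + 1) _ (by omega)))
    (le_trans (by rw [pow_succ']; exact Nat.mul_le_mul_right _ (by omega))
      (pw (Q.V' * (2 * Q.l) + 1) _ (by omega)))
    (le_trans (by rw [pow_succ']; nlinarith)
      (pw (2 * (2 * Q.J + 1) + 1) _ (by omega))) G hG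
  rw [← hc] at key
  have hy0 : (0 : ℝ) < y := by exact_mod_cast (by omega : 0 < y)
  have hyx' : (y : ℝ) ≤ x := by exact_mod_cast hyx
  have hwy : (w : ℝ) ≤ y := by exact_mod_cast (by omega : w ≤ y)
  have hw0 : (0 : ℝ) ≤ w := by positivity
  have a1 : (y : ℝ) ^ (2 * Q.J) * y ≤ x := by rw [← pow_succ]; exact_mod_cast hx1
  have a2 : (y : ℝ) ^ (Q.J + Q.Δ) ≤ (y : ℝ) ^ (2 * Q.J) := by
    have := Q.c4
    exact_mod_cast pw _ _ (by omega)
  have a3 : (y : ℝ) ^ (Q.J + Q.Δ) + w + 1 ≤ x * ((w + 2) / y) := by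
    rw [← mul_div_assoc, le_div_iff₀ hy0]
    nlinarith
  have a4 : (((x + w) / y : ℕ) : ℝ) * y ≤ x + w := by exact_mod_cast Nat.div_mul_le_self _ _
  have a5 : L ^ (5 * K + 3) * ((y : ℝ) ^ (2 * Q.J) + ((x + w) / y : ℕ) + w) ≤
      C * ((2 + 2 * w) * x) := by
    refine (mul_le_mul_of_nonneg_right l4 (by positivity)).trans ?_
    rw [mul_assoc]
    apply mul_le_mul_of_nonneg_left _ hC.le
    have hy1 : (1 : ℝ) ≤ y := by exact_mod_cast (by omega : 1 ≤ y)
    have := mul_le_mul_of_nonneg_left hyx' hw0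
    have := mul_le_mul_of_nonneg_left (hy1.trans hyx') hw0
    linarith
  have a6 := mul_le_mul_of_nonneg_left a5 (by positivity : (0 : ℝ) ≤ primorial w * c)
  have a7 := mul_le_mul_of_nonneg_right a3 (sq_nonneg G)
  calc _ ≤ _ := key
    _ ≤ x * ((w + 2) / y) * G ^ 2 + (Bs h (primorial w)).card * (x / primorial w * G) +
        primorial w * c * (C * ((2 + 2 * w) * x)) := by linarith
    _ = _ := by ring

lemma main_bound (hK : 1 ≤ K) (h : Fin K → ℕ) (hinj : Function.Injective h) (w : ℕ) (hw : 1 ≤ w)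
    (hh : ∀ l, h l ≤ w) (Q : Par) (ω : ℕ) (hω : Q.T + ω ≤ Q.J) (hKJ : K ≤ Q.J) (𝒢 g θ : ℝ)
    (h𝒢 : 𝒢 = (J0 K Q.J).card + 1 / (5 * (Q.V' : ℝ)) * ∑ z ∈ Q.Idx K, ((Q.Jz ω z.1 z.2).card : ℝ))
    (hg : g = 𝒢 - (1 + K) * (3 * K ^ 2 / w) * (Q.J + Q.Δ : ℝ) ^ K) (hg0 : 0 < g)
    (hθ : (2 * Q.J + 1 : ℝ) ^ K * ((Bs h (primorial w)).card / primorial w) /
      ((((primorial w).totient : ℝ) / primorial w) ^ K * g) < θ) :
    ∀ᶠ x : ℕ in atTop, (cntP h x : ℝ) * Real.log x ^ K ≤ θ * x := by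
  obtain ⟨C, y0, hC, h0⟩ := sieve_ineq2 hK h hinj w hh Q
  obtain ⟨y1, h1⟩ := G_lower hK Q ω hω hKJ w hw
  rw [← h𝒢] at h1
  have hW : 0 < primorial w := primorial_pos w
  set W := primorial w with hWd
  set δ : ℝ := (W.totient : ℝ) / W with hδ
  set β : ℝ := (Bs h W).card / W with hβ
  have hβ0 : 0 ≤ β := by positivity
  have hδ0 : 0 < δ := div_pos (by exact_mod_cast Nat.totient_pos.mpr hW) (by exact_mod_cast hW)
  set M : ℕ := 2 * Q.J + 1 with hM
  set e : ℝ := (1 + K) * (3 * K ^ 2 / w) with he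
  have he0 : 0 ≤ e := by positivity
  set a : ℝ → ℝ := fun t => 𝒢 * (δ - 2 * (2 * W + 1) * t) ^ K -
    e * (δ * (Q.J + Q.Δ) + (2 * W + 1) * t) ^ K with ha
  have ha0 : a 0 = δ ^ K * g := by simp only [ha, hg, mul_zero, add_zero, mul_pow]; ring
  have ha1 : 0 < a 0 := by rw [ha0]; positivity
  have hac : ContinuousAt a 0 := by simp only [ha]; fun_prop
  set Φ : ℝ → ℝ := fun t => (M * (1 + t)) ^ K *
    ((w + 2) * (2 * K).factorial * t ^ K + β / a t + C * t ^ K / a t ^ 2) with hΦ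
  have hΦc : ContinuousAt Φ 0 := by
    simp only [hΦ]
    fun_prop (disch := first | exact ha1.ne' | exact (pow_pos ha1 _).ne')
  have hΦ0 : Φ 0 < θ := by
    refine lt_of_eq_of_lt ?_ hθ
    simp only [hΦ, zero_pow (by omega : K ≠ 0), ha0, hM]
    push_cast; ring
  have tl : Tendsto (fun y : ℕ => Real.log y) atTop atTop :=
    Real.tendsto_log_atTop.comp tendsto_natCast_atTop_atTop
  have t0 : Tendsto (fun y : ℕ => (Real.log y)⁻¹) atTop (𝓝 0) := tendsto_inv_atTop_zero.comp tl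
  have e1 := (hΦc.tendsto.comp t0).eventually (gt_mem_nhds hΦ0)
  have e2 := (hac.tendsto.comp t0).eventually (lt_mem_nhds ha1)
  have e3 := tl.eventually_ge_atTop (2 * (2 * W + 1) / δ)
  obtain ⟨y2, h2⟩ := eventually_atTop.mp (e1.and (e2.and e3))
  filter_upwards [eventually_ge_atTop ((y0 + y1 + y2 + 3) ^ M)] with x hx
  set y := Nat.nthRoot M x with hy
  have x1 : y ^ M ≤ x := Nat.pow_nthRoot_le (Or.inl (by omega))
  have x2 : x < (y + 1) ^ M := Nat.lt_pow_nthRoot_add_one (by omega) x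
  have x3 : y0 + y1 + y2 + 3 < y + 1 := lt_of_pow_lt_pow_left₀ M (by omega) (hx.trans_lt x2)
  obtain ⟨b1, b2, b3⟩ := h2 y (by omega)
  have hy1 : (1 : ℝ) < y := by exact_mod_cast (by omega : 1 < y)
  set u := Real.log y with hu
  have hu0 : 0 < u := Real.log_pos hy1
  simp only [Function.comp] at b1 b2
  rw [← hu] at b1 b2
  set t := u⁻¹ with ht
  have htu : t * u = 1 := inv_mul_cancel₀ hu0.ne'
  have ht0 : 0 < t := inv_pos.mpr hu0
  have c0 := h0 y x (by omega) x1 x2 _ rfl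
  have c1 := h1 y (by omega) (δ * u - 2 * (2 * W + 1))
    (by rw [div_le_iff₀ hδ0] at b3; linarith) le_rfl
  rw [← G_eq' Q _ y (NN_sqf _ _).ne_zero (by omega)] at c1
  set G := ∑ r ∈ Q.Sall (NN w (y ^ (Q.J + Q.Δ))) y K, gw K (∏ l, r l) with hG
  have c2 : HW W (y ^ (Q.J + Q.Δ)) ≤ u * (δ * (Q.J + Q.Δ) + (2 * W + 1) * t) := by
    have := (abs_le.mp (HW_bounds W hW (y ^ (Q.J + Q.Δ)) (Nat.one_le_pow _ _ (by omega)))).2
    rw [Nat.cast_pow, Real.log_pow, ← hδ, ← hu] at this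
    push_cast at this
    have e : u * ((2 * W + 1) * t) = 2 * W + 1 := by rw [mul_left_comm, mul_comm u, htu, mul_one]
    rw [mul_add, e]; linarith
  have c3 : u ^ K * a t ≤ G := by
    refine le_trans ?_ c1
    have e : δ * u - 2 * (2 * W + 1) = u * (δ - 2 * (2 * W + 1) * t) := by
      rw [mul_sub, mul_left_comm u, mul_comm u t, htu]; ring
    have := mul_le_mul_of_nonneg_left (pow_le_pow_left₀ (HW_nonneg _ _) c2 K) he0
    rw [e, ← mul_assoc, ← he]
    simp only [ha, mul_pow] at this ⊢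
    linarith
  have c4 : 0 < u ^ K * a t := by positivity
  have hG0 : 0 < G := c4.trans_le c3
  have hx0 : (0 : ℝ) < x := by
    have : 0 < x := lt_of_lt_of_le (by positivity) hx
    exact_mod_cast this
  have d1 : (cntP h x : ℝ) ≤ x * ((w + 2) / y + β / G + C / G ^ 2) := by
    apply le_of_mul_le_mul_right _ (pow_pos hG0 2)
    refine c0.trans (le_of_eq ?_)
    field_simp
  have d2 : (1 : ℝ) / y ≤ (2 * K).factorial * (t ^ K * t ^ K) := by
    have := Real.pow_div_factorial_le_exp u hu0.le (2 * K)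
    rw [hu, Real.exp_log (by linarith), ← hu, div_le_iff₀ (by positivity)] at this
    rw [div_le_iff₀ (by linarith)]
    have e : (1 : ℝ) = u ^ (2 * K) * (t ^ K * t ^ K) := by
      rw [← pow_add, ← two_mul, ← mul_pow, mul_comm u, htu, one_pow]
    refine e.le.trans ?_
    have := mul_le_mul_of_nonneg_right this (by positivity : 0 ≤ t ^ K * t ^ K)
    linarith
  have htK : t ^ K * u ^ K = 1 := by rw [← mul_pow, htu, one_pow]
  have htK' : t ^ K = (u ^ K)⁻¹ := by rw [ht, inv_pow]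
  have d3 : β / G ≤ t ^ K * (β / a t) := by
    refine (div_le_div_of_nonneg_left hβ0 c4 c3).trans (le_of_eq ?_)
    rw [htK']; field_simp
  have d4 : C / G ^ 2 ≤ t ^ K * (C * t ^ K / a t ^ 2) := by
    refine (div_le_div_of_nonneg_left hC (pow_pos c4 2)
      (pow_le_pow_left₀ c4.le c3 2)).trans (le_of_eq ?_)
    rw [htK']; field_simp
  have d5 : Real.log x ≤ u * (M * (1 + t)) := by
    have f1 : (x : ℝ) ≤ (y + 1) ^ M := by exact_mod_cast x2.le
    have f2 := Real.log_le_log hx0 f1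
    rw [Real.log_pow] at f2
    have f3 : Real.log (y + 1) ≤ u + 1 := by
      have := Real.log_le_sub_one_of_pos (show 0 < ((y : ℝ) + 1) / y by positivity)
      rw [Real.log_div (by positivity) (by positivity), add_div, div_self (by positivity)] at this
      have : 1 / (y : ℝ) ≤ 1 := by rw [div_le_one (by linarith)]; linarith
      linarith
    have e : u * (M * (1 + t)) = M * (u + 1) := by
      rw [mul_left_comm, mul_add, mul_one, mul_comm u, htu]
    rw [e]
    exact f2.trans (mul_le_mul_of_nonneg_left f3 (by positivity))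
  have d6 : (cntP h x : ℝ) ≤ x * (t ^ K *
      ((w + 2) * (2 * K).factorial * t ^ K + β / a t + C * t ^ K / a t ^ 2)) := by
    refine d1.trans (mul_le_mul_of_nonneg_left ?_ hx0.le)
    have := mul_le_mul_of_nonneg_left d2 (by positivity : (0 : ℝ) ≤ w + 2)
    rw [mul_one_div] at this
    linarith
  have d7 := mul_le_mul d6 (pow_le_pow_left₀ (Real.log_natCast_nonneg x) d5 K)
    (pow_nonneg (Real.log_natCast_nonneg x) K) ((Nat.cast_nonneg _).trans d6)
  refine d7.trans ?_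
  have e : x * (t ^ K * ((w + 2) * (2 * K).factorial * t ^ K + β / a t + C * t ^ K / a t ^ 2)) *
      (u * (M * (1 + t))) ^ K = (t ^ K * u ^ K) * (Φ t * x) := by
    simp only [hΦ, mul_pow u]; ring
  rw [e, htK, one_mul]
  exact mul_le_mul_of_nonneg_right b1.le hx0.le

lemma integral_lower (K n : ℕ) (hn : 2 ≤ n) :
    ((n : ℝ) - 2) / Real.log n ^ K ≤ ∫ t in (2 : ℝ)..n, 1 / t.log ^ K := by
  have hn' : (2 : ℝ) ≤ n := by exact_mod_cast hn
  have h1 : ∫ _t in (2 : ℝ)..n, 1 / Real.log n ^ K = ((n : ℝ) - 2) / Real.log n ^ K := by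
    simp [div_eq_mul_inv]
  rw [← h1]
  apply intervalIntegral.integral_mono_on hn' (by simp)
  · apply ContinuousOn.intervalIntegrable
    rw [Set.uIcc_of_le hn']
    refine continuousOn_const.div ((Real.continuousOn_log.mono ?_).pow K) ?_
    · intro t ht
      have := ht.1
      simp only [Set.mem_compl_iff, Set.mem_singleton_iff]
      linarith
    · intro t ht
      exact (pow_pos (Real.log_pos (by linarith [ht.1])) K).ne'
  · intro t ht
    have h2 : 0 < Real.log t := Real.log_pos (by linarith [ht.1])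
    exact one_div_le_one_div_of_le (pow_pos h2 K)
      (pow_le_pow_left₀ h2.le (Real.log_le_log (by linarith [ht.1]) ht.2) K)

open N9a2a6718 in
theorem upper_constant (k : ℕ) (hk : 1 ≤ k) (m : Fin k.succ → ℕ) (hm : Function.Injective m) :
    ∃ C : ℝ, 0 ≤ C ∧ Tendsto (HardyLittlewoodPartialProduct m) atTop (𝓝 C) ∧
      ∀ᶠ n : ℕ in atTop, (N9a2a6718.Nat.primeTupleCounting m n : ℝ) ≤
        (1 - Real.log (k.succ : ℕ) ^ 2 / (10 ^ 6 * (k.succ : ℕ))) * 2 ^ k.succ *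
          (k.succ).factorial * (C * ∫ t in (2 : ℝ)..n, 1 / t.log ^ k.succ) := by
  obtain ⟨C, hC0, hC, hCw⟩ := exists_C m hm
  refine ⟨C, hC0, hC, ?_⟩
  obtain ⟨Q, ω, hω, hKJ, hgain⟩ := gain k.succ (by omega)
  set κ : ℝ := (1 - Real.log (k.succ : ℕ) ^ 2 / (10 ^ 6 * (k.succ : ℕ))) * 2 ^ k.succ * (k.succ).factorial with hκ
  set 𝒢 : ℝ := (J0 k.succ Q.J).card + 1 / (5 * (Q.V' : ℝ)) * ∑ z ∈ Q.Idx k.succ, ((Q.Jz ω z.1 z.2).card : ℝ)
    with h𝒢
  have h𝒢0 : 0 ≤ 𝒢 := add_nonneg (Nat.cast_nonneg _) (mul_nonneg (by positivity)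
    (sum_nonneg (fun _ _ => Nat.cast_nonneg _)))
  clear_value 𝒢 κ
  have hM : (0 : ℝ) < (2 * Q.J + 1) ^ k.succ := by positivity
  have hκ0 : 0 < κ := by
    by_contra hc
    have := mul_nonpos_of_nonneg_of_nonpos h𝒢0 (not_lt.mp hc)
    linarith
  have h𝒢1 : 0 < 𝒢 := (mul_pos_iff_of_pos_right hκ0).mp (hM.trans hgain)
  have t0 : Tendsto (fun w : ℕ => (w : ℝ)⁻¹) atTop (𝓝 0) := tendsto_inv_atTop_nhds_zero_nat
  set g : ℝ → ℝ := fun t => 𝒢 - (1 + (k.succ : ℕ)) * (3 * (k.succ : ℕ) ^ 2 * t) * (Q.J + Q.Δ : ℝ) ^ k.succ with hg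
  have c1 : ContinuousAt g 0 := by simp only [hg]; fun_prop
  have c2 : ContinuousAt (fun t => g t * κ * (1 - (k.succ : ℕ) ^ 2 * t)) 0 := by simp only [hg]; fun_prop
  have c3 : ContinuousAt (fun t : ℝ => 1 - ((k.succ : ℕ) : ℝ) ^ 2 * t) 0 := by fun_prop
  have e1 := (c1.tendsto.comp t0).eventually (lt_mem_nhds (by simpa [hg] using h𝒢1))
  have e2 := (c2.tendsto.comp t0).eventually
    (lt_mem_nhds (a := (2 * Q.J + 1 : ℝ) ^ k.succ) (by simpa [hg] using hgain))
  have e3 := (c3.tendsto.comp t0).eventually (lt_mem_nhds (a := 0) (by simp))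
  obtain ⟨w, ⟨b1, b2, b3⟩, hw⟩ := ((e1.and (e2.and e3)).and
    (eventually_ge_atTop (2 * univ.sup m + 2 * k.succ))).exists
  simp only [Function.comp] at b1 b2 b3
  have hmw : ∀ i, 2 * m i ≤ w := fun i => by
    have := le_sup (f := m) (mem_univ i); omega
  have a1 := hCw w (fun i => by have := hmw i; omega) (by omega)
  rw [div_eq_mul_inv] at a1
  rcases hC0.eq_or_lt with h0 | h0
  · have : HardyLittlewoodPartialProduct m (w + 1) = 0 := by
      apply le_antisymm _ (PP_nonneg m _)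
      rw [← h0] at a1
      exact nonpos_of_mul_nonpos_left a1 b3
    filter_upwards with n
    rw [count_zero m _ this n, ← h0]; simp
  · have a2 := Bs_card_le m w (by omega)
    have hW : 0 < primorial w := primorial_pos w
    have hδ0 : 0 < (((primorial w).totient : ℝ) / primorial w) ^ k.succ :=
      pow_pos (div_pos (by exact_mod_cast Nat.totient_pos.mpr hW) (by exact_mod_cast hW)) k.succ
    have a3 : (2 * Q.J + 1 : ℝ) ^ k.succ * ((Bs (fun i => 2 * m i) (primorial w)).card / primorial w) /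
        ((((primorial w).totient : ℝ) / primorial w) ^ k.succ * g (w : ℝ)⁻¹) < κ * C := by
      rw [div_lt_iff₀ (by positivity)]
      refine (mul_le_mul_of_nonneg_left a2 hM.le).trans_lt ?_
      rw [← mul_assoc, mul_comm _ (g _), ← mul_assoc]
      apply mul_lt_mul_of_pos_right _ hδ0
      apply lt_of_mul_lt_mul_right _ b3.le
      have f1 := mul_le_mul_of_nonneg_left a1 hM.le
      have f2 := mul_lt_mul_of_pos_right b2 h0
      linarith
    obtain ⟨θ, θ1, θ2⟩ := exists_between a3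
    have mb := main_bound (K := k.succ) (by omega) (fun i => 2 * m i)
      (fun i j hij => hm (by simpa using hij)) w (by omega) hmw Q ω hω hKJ 𝒢 (g (w : ℝ)⁻¹) θ h𝒢
      (by simp only [hg, div_eq_mul_inv]) b1 θ1
    filter_upwards [mb, eventually_ge_atTop 2,
      tendsto_natCast_atTop_atTop.eventually_ge_atTop (2 * (κ * C) / (κ * C - θ))] with n n1 n2 n3
    have i1 := integral_lower k.succ n n2
    have hl : 0 < Real.log n ^ k.succ := pow_pos (Real.log_pos (by exact_mod_cast n2)) k.succ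
    have i2 : (N9a2a6718.Nat.primeTupleCounting m n : ℝ) ≤ cntP (fun i => 2 * m i) n := by
      exact_mod_cast count_le m n
    rw [div_le_iff₀ (by linarith)] at n3
    rw [← mul_assoc]
    refine i2.trans (le_trans ?_ (mul_le_mul_of_nonneg_left i1 (by positivity)))
    rw [← mul_div_assoc, le_div_iff₀ hl]
    linarith

end Pool.Agent.Lib.MP_68a45e_nt
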