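import Pool.Agent.Lib.MP_68a45e_nt.Plus

set_option autoImplicit false

namespace Pool.Agent.Lib.MP_68a45e_nt

open Finset

variable {K : ℕ}

lemma sum_indp (c p : ℕ) (hp : 0 < p) : ∑ n ∈ range p, indp c p n = 1 := by
  simp only [indp, dvd_add_iff_modEq p _ c hp]
  rw [sum_boole, count_class_range p p _ hp dvd_rfl, Nat.div_self hp]; simp

lemma indp_sq (c p n : ℕ) : indp c p n * indp c p n = indp c p n := by
  unfold indp; split_ifs <;> simp

lemma indp_mul_ne {c c' p : ℕ} (h : ¬ c ≡ c' [MOD p]) (n : ℕ) : indp c p n * indp c' p n = 0 := by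
  unfold indp
  split_ifs with h1 h2
  · exact absurd (Nat.ModEq.add_left_cancel' n ((Nat.modEq_zero_iff_dvd.mpr h1).trans
      (Nat.modEq_zero_iff_dvd.mpr h2).symm)) h
  all_goals simp

lemma indp_congr (c p : ℕ) {m n : ℕ} (h : m ≡ n [MOD p]) : indp c p m = indp c p n := by
  unfold indp
  rw [if_congr ((h.add_right c).dvd_iff dvd_rfl) rfl rfl]

noncomputable def loc (h r : Fin K → ℕ) (p n : ℕ) : ℝ :=
  ∏ l, (if p ∣ r l then 1 - p * indp (h l) p n else 1)

lemma PC.unique {r : Fin K → ℕ} (hr : PC r) {p : ℕ} (hp : p.Prime) {l l' : Fin K}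
    (h : p ∣ r l) (h' : p ∣ r l') : l = l' := by
  by_contra hne
  exact Nat.Prime.not_coprime_iff_dvd.mpr ⟨p, hp, h, h'⟩ (hr l l' hne)

lemma loc_of_dvd (h : Fin K → ℕ) {r : Fin K → ℕ} (hr : PC r) {p : ℕ} (hp : p.Prime) {l : Fin K}
    (hl : p ∣ r l) (n : ℕ) : loc h r p n = 1 - p * indp (h l) p n := by
  rw [loc, Finset.prod_eq_single l, if_pos hl]
  · intro l' _ hne
    rw [if_neg (fun h' => hne (hr.unique hp h' hl))]
  · simp

lemma loc_of_not_dvd (h : Fin K → ℕ) {r : Fin K → ℕ} {p : ℕ}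
    (hl : ¬ p ∣ ∏ l, r l) (n : ℕ) : loc h r p n = 1 :=
  prod_eq_one (fun l _ => if_neg (fun h' => hl (h'.trans (dvd_prod_of_mem _ (mem_univ l)))))

noncomputable def wl (r : Fin K → ℕ) (p : ℕ) (l : Fin K) : ℝ := if p ∣ r l then (p : ℝ) - 1 else 1

lemma wl_nonneg (r : Fin K → ℕ) {p : ℕ} (hp : p.Prime) (l : Fin K) : 0 ≤ wl r p l := by
  have : (1 : ℝ) ≤ p := by exact_mod_cast hp.pos
  unfold wl; split_ifs <;> linarith

noncomputable def wt (r s : Fin K → ℕ) (p : ℕ) : ℝ :=
  if p ∣ ∏ l, r l then ∑ l, (if p ∣ s l then wl r p l else 0)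
  else if p ∣ ∏ l, s l then 0 else 1

lemma eq_of_sqf {a b : ℕ} (ha : Squarefree a) (hb : Squarefree b)
    (h : ∀ p : ℕ, p.Prime → (p ∣ a ↔ p ∣ b)) : a = b := by
  rw [← Nat.prod_primeFactors_of_squarefree ha, ← Nat.prod_primeFactors_of_squarefree hb]
  congr 1
  ext p
  simp only [Nat.mem_primeFactors, ne_eq, ha.ne_zero, hb.ne_zero, not_false_eq_true, and_true]
  exact and_congr_right (h p)

namespace Setup
variable (S : Setup K)

lemma mean_prod (F : ℕ → ℕ → ℝ) (hF : ∀ p, ∀ m n, m ≡ n [MOD p] → F p m = F p n) :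
    S.mean (fun n => ∏ p ∈ S.N.primeFactors, F p n) =
      ∏ p ∈ S.N.primeFactors, (∑ n ∈ range p, F p n) / p := by
  have h := sum_range_prod_primes S.N.primeFactors (fun p hp => Nat.prime_of_mem_primeFactors hp)
    F (fun p _ => hF p)
  rw [Nat.prod_primeFactors_of_squarefree S.hN] at h
  simp only [mean, LinearMap.coe_mk, AddHom.coe_mk]
  rw [h, prod_div_distrib, ← Nat.cast_prod, Nat.prod_primeFactors_of_squarefree S.hN]

lemma Psi_eq_loc {r : Fin K → ℕ} (hr : S.Adm r) (n : ℕ) :
    Psi S.h r n = ∏ p ∈ S.N.primeFactors, loc S.h r p n := by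
  simp only [Psi, loc]
  rw [prod_comm]
  apply prod_congr rfl
  intro l _
  rw [psi, ← prod_filter]
  congr 1
  ext p
  simp only [Nat.mem_primeFactors, mem_filter, ne_eq, (hr.pos l).ne', S.Npos.ne',
    not_false_eq_true, and_true]
  exact ⟨fun h => ⟨⟨h.1, h.2.trans (hr l)⟩, h.2⟩, fun h => ⟨h.1.1, h.2⟩⟩

lemma loc_avg {r s : Fin K → ℕ} (hr : PC r) (hs : PC s) {p : ℕ} (hp : p.Prime) (hpN : p ∣ S.N) :
    |(∑ n ∈ range p, loc S.h r p n * loc S.h s p n) / p| ≤ wt r s p := by
  have hp0 : (0 : ℝ) < p := by exact_mod_cast hp.pos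
  have hp1 : (1 : ℝ) ≤ p := by exact_mod_cast hp.pos
  have z : ∀ c, ∑ n ∈ range p, (1 - p * indp c p n) = 0 := by
    intro c
    rw [sum_sub_distrib, ← mul_sum, sum_indp c p hp.pos]; simp
  unfold wt
  by_cases h1 : p ∣ ∏ l, r l
  · obtain ⟨l, _, hl⟩ := (Prime.dvd_finsetProd_iff hp.prime _).mp h1
    rw [if_pos h1]
    by_cases h2 : p ∣ ∏ l, s l
    · obtain ⟨l', _, hl'⟩ := (Prime.dvd_finsetProd_iff hp.prime _).mp h2
      rw [Finset.sum_eq_single l', if_pos hl']
      · simp only [loc_of_dvd S.h hr hp hl, loc_of_dvd S.h hs hp hl']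
        by_cases e : l = l'
        · subst e
          have : ∀ n, (1 - p * indp (S.h l) p n) * (1 - p * indp (S.h l) p n) =
              1 + ((p : ℝ) * p - 2 * p) * indp (S.h l) p n := by
            intro n
            have := indp_sq (S.h l) p n
            linear_combination ((p : ℝ) * p) * this
          simp only [this]
          rw [sum_add_distrib, ← mul_sum, sum_indp _ p hp.pos, wl, if_pos hl]
          simp only [sum_const, card_range, nsmul_eq_mul, mul_one]
          have : ((p : ℝ) + (p * p - 2 * p)) / p = p - 1 := by field_simp; ring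
          rw [this, abs_of_nonneg (by linarith)]
        · have : ∀ n, (1 - p * indp (S.h l) p n) * (1 - p * indp (S.h l') p n) =
              1 - (p : ℝ) * indp (S.h l) p n - p * indp (S.h l') p n := by
            intro n
            have := indp_mul_ne (S.sep p hp hpN l l' e) n
            linear_combination ((p : ℝ) * p) * this
          simp only [this]
          rw [sum_sub_distrib, z, ← mul_sum, sum_indp _ p hp.pos, wl,
            if_neg (fun h' => e (hr.unique hp hl h'))]
          simp [hp0.ne']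
      · intro l'' _ hne
        rw [if_neg (fun h' => hne (hs.unique hp h' hl'))]
      · simp
    · simp only [loc_of_dvd S.h hr hp hl, loc_of_not_dvd S.h h2, mul_one, z, zero_div, abs_zero]
      apply sum_nonneg
      intro l _
      split_ifs
      · exact wl_nonneg r hp l
      · exact le_rfl
  · rw [if_neg h1]
    by_cases h2 : p ∣ ∏ l, s l
    · obtain ⟨l', _, hl'⟩ := (Prime.dvd_finsetProd_iff hp.prime _).mp h2
      simp only [loc_of_dvd S.h hs hp hl', loc_of_not_dvd S.h h1, one_mul, z, zero_div, abs_zero,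
        if_pos h2, le_refl]
    · simp [loc_of_not_dvd S.h h1, loc_of_not_dvd S.h h2, if_neg h2, hp0.ne']

lemma mean_Psi_mul {r s : Fin K → ℕ} (hr : S.Good r) (hs : S.Good s) :
    S.mean (Psi S.h r * Psi S.h s) ≤ ∏ p ∈ S.N.primeFactors, wt r s p := by
  have e : Psi S.h r * Psi S.h s =
      fun n => ∏ p ∈ S.N.primeFactors, (loc S.h r p n * loc S.h s p n) := by
    funext n
    rw [Pi.mul_apply, S.Psi_eq_loc hr.1, S.Psi_eq_loc hs.1, prod_mul_distrib]
  rw [e, S.mean_prod]
  · refine (le_abs_self _).trans ?_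
    rw [abs_prod]
    exact prod_le_prod (fun _ _ => abs_nonneg _) (fun p hp => S.loc_avg hr.2 hs.2
      (Nat.prime_of_mem_primeFactors hp) (Nat.dvd_of_mem_primeFactors hp))
  · intro p m n hmn
    simp only [loc, indp_congr _ p hmn]

lemma sum_wt_le (hK : 1 ≤ K) (R : Finset (Fin K → ℕ)) (hR : ∀ r ∈ R, S.Good r)
    {r : Fin K → ℕ} (hr : S.Good r) :
    ∑ s ∈ R, gw K (∏ l, s l) * ∏ p ∈ S.N.primeFactors, wt r s p ≤ 1 := by
  classical
  set n := ∏ l, r l with hn
  have hnN : n ∣ S.N := hr.1.prod_dvd hr.2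
  have hA : ∀ p : n.primeFactors, (p : ℕ).Prime := fun p => Nat.prime_of_mem_primeFactors p.2
  have e1 : ∀ s ∈ R, gw K (∏ l, s l) * ∏ p ∈ S.N.primeFactors, wt r s p =
      if ∏ l, s l = n then gw K n * ∑ c : n.primeFactors → Fin K,
        (if ∀ p : n.primeFactors, (p : ℕ) ∣ s (c p) then ∏ p : n.primeFactors, wl r p (c p)
          else 0) else 0 := by
    intro s hs
    split_ifs with h
    · rw [h]
      congr 1
      rw [← prod_subset (Nat.primeFactors_mono hnN S.Npos.ne')]
      · rw [← prod_coe_sort]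
        have : ∀ p : n.primeFactors, wt r s p = ∑ l, (if (p : ℕ) ∣ s l then wl r p l else 0) :=
          fun p => if_pos (Nat.dvd_of_mem_primeFactors p.2)
        simp only [this]
        rw [Fintype.prod_sum]
        apply sum_congr rfl
        intro c _
        rw [Finset.prod_ite_zero]
        simp
      · intro p hp hp'
        have : ¬ p ∣ n := fun hd => hp' (Nat.mem_primeFactors.mpr
          ⟨Nat.prime_of_mem_primeFactors hp, hd, hr.1.prod_pos.ne'⟩)
        rw [wt, if_neg this, h, if_neg this]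
    · apply mul_eq_zero_of_right
      by_contra hne
      apply h
      apply eq_of_sqf (hR s hs).sqf hr.sqf
      intro p hp
      have hw : p ∣ S.N → wt r s p ≠ 0 := fun hd => prod_ne_zero_iff.mp hne p
        (Nat.mem_primeFactors.mpr ⟨hp, hd, S.Npos.ne'⟩)
      constructor
      · intro hd
        by_contra hc
        apply hw (hd.trans ((hR s hs).1.prod_dvd (hR s hs).2))
        rw [wt, if_neg hc, if_pos hd]
      · intro hd
        by_contra hc
        apply hw (hd.trans hnN)
        rw [wt, if_pos hd]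
        exact sum_eq_zero (fun l _ => if_neg (fun h' => hc (h'.trans
          (dvd_prod_of_mem _ (mem_univ l)))))
  rw [sum_congr rfl e1, ← sum_filter, ← mul_sum, sum_comm]
  have e2 : ∀ c : n.primeFactors → Fin K, ∑ s ∈ R.filter (fun s => ∏ l, s l = n),
      (if ∀ p : n.primeFactors, (p : ℕ) ∣ s (c p) then ∏ p : n.primeFactors, wl r p (c p) else 0)
      ≤ ∏ p : n.primeFactors, wl r p (c p) := by
    intro c
    rw [← sum_filter, sum_const, nsmul_eq_mul]
    have hc : ((R.filter (fun s => ∏ l, s l = n)).filter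
        (fun s => ∀ p : n.primeFactors, (p : ℕ) ∣ s (c p))).card ≤ 1 := by
      have key : ∀ s ∈ (R.filter (fun s => ∏ l, s l = n)).filter
          (fun s => ∀ p : n.primeFactors, (p : ℕ) ∣ s (c p)),
          ∀ s' ∈ (R.filter (fun s => ∏ l, s l = n)).filter
          (fun s => ∀ p : n.primeFactors, (p : ℕ) ∣ s (c p)),
          ∀ l, ∀ p : ℕ, p.Prime → p ∣ s l → p ∣ s' l := by
        intro s hs s' hs' l p hp hd
        simp only [mem_filter] at hs hs'
        have hpn : p ∈ n.primeFactors := Nat.mem_primeFactors.mpr ⟨hp, by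
          rw [← hs.1.2]; exact hd.trans (dvd_prod_of_mem _ (mem_univ l)), hr.1.prod_pos.ne'⟩
        have := (hR s hs.1.1).2.unique hp hd (hs.2 ⟨p, hpn⟩)
        rw [this]; exact hs'.2 ⟨p, hpn⟩
      rw [card_le_one]
      intro s hs s' hs'
      funext l
      apply eq_of_sqf ((hR s (mem_filter.mp (mem_filter.mp hs).1).1).1.sqf l)
        ((hR s' (mem_filter.mp (mem_filter.mp hs').1).1).1.sqf l)
      exact fun p hp => ⟨key s hs s' hs' l p hp, key s' hs' s hs l p hp⟩
    have h0 : 0 ≤ ∏ p : n.primeFactors, wl r p (c p) :=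
      prod_nonneg (fun p _ => wl_nonneg r (hA p) _)
    have : (((R.filter (fun s => ∏ l, s l = n)).filter
        (fun s => ∀ p : n.primeFactors, (p : ℕ) ∣ s (c p))).card : ℝ) ≤ 1 := by exact_mod_cast hc
    nlinarith
  refine (mul_le_mul_of_nonneg_left (sum_le_sum (fun c _ => e2 c)) (gw_nonneg hK n)).trans ?_
  rw [← Fintype.prod_sum (fun (p : n.primeFactors) (l : Fin K) => wl r p l), gw,
    ← prod_coe_sort n.primeFactors, ← prod_mul_distrib]
  apply prod_le_one
  · intro p _
    obtain ⟨h1, h2⟩ := gfac_pos hK (hA p)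
    exact mul_nonneg (div_nonneg zero_le_one (by linarith))
      (sum_nonneg (fun l _ => wl_nonneg r (hA p) l))
  · intro p _
    obtain ⟨h1, h2⟩ := gfac_pos hK (hA p)
    obtain ⟨l, _, hl⟩ := (Prime.dvd_finsetProd_iff (hA p).prime _).mp
      (Nat.dvd_of_mem_primeFactors p.2)
    have e3 : ∑ l', wl r p l' = (p : ℝ) - 1 + (K - 1) := by
      rw [← Finset.add_sum_erase _ _ (mem_univ l), wl, if_pos hl,
        sum_congr rfl (g := fun _ => (1 : ℝ)) (fun l' hl' => by
          rw [wl, if_neg (fun h' => ne_of_mem_erase hl' (hr.2.unique (hA p) h' hl))])]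
      simp [card_erase_of_mem, Nat.cast_sub hK]
    rw [e3, one_div, inv_mul_le_iff₀ (by linarith)]
    linarith

lemma mean_sq_le (hK : 1 ≤ K) (R : Finset (Fin K → ℕ)) (hR : ∀ r ∈ R, S.Good r) :
    S.mean (Fs S.h R (fun _ => 1) * Fs S.h R (fun _ => 1)) ≤ ∑ r ∈ R, gw K (∏ l, r l) := by
  rw [Fs, sum_mul_sum, map_sum]
  apply sum_le_sum
  intro r hr
  rw [map_sum]
  calc _ ≤ ∑ s ∈ R, gw K (∏ l, r l) * (gw K (∏ l, s l) * ∏ p ∈ S.N.primeFactors, wt r s p) := by
        apply sum_le_sum
        intro s hs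
        rw [smul_mul_smul_comm, map_smul, smul_eq_mul, one_mul, one_mul, mul_assoc]
        exact mul_le_mul_of_nonneg_left (mul_le_mul_of_nonneg_left
          (S.mean_Psi_mul (hR r hr) (hR s hs)) (gw_nonneg hK _)) (gw_nonneg hK _)
    _ ≤ gw K (∏ l, r l) * 1 := by
        rw [← mul_sum]
        exact mul_le_mul_of_nonneg_left (S.sum_wt_le hK R hR (hR r hr)) (gw_nonneg hK _)
    _ = _ := mul_one _

end Setup

end Pool.Agent.Lib.MP_68a45e_nt
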