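import Pool.Agent.Lib.MP_68a45e_nt.OptFinal

set_option autoImplicit false

namespace Pool.Agent.Lib.MP_68a45e_nt.OldSieveOptimalPrimes

open Filter Topology Finset N9a2a6718

theorem result (k : ℕ) (hk : 1 ≤ k) (m : Fin k.succ → ℕ) (h0 : m 0 = 0)
    (hm : Function.Injective m) (C : ℝ)
    (hC : Tendsto (HardyLittlewoodPartialProduct m) atTop (𝓝 C)) :
    ∀ᶠ D : ℕ in atTop, ∀ (z : ℕ) (l : ℕ → ℕ → ℝ),
      (∀ n : ℕ, n.Prime → D < n → 0 ≤ ∑ q ∈ Icc 1 D, l q (n % q)) →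
      (∀ n : ℕ, n.Prime → D < n → (∀ i, ∀ p : ℕ, p.Prime → p ≤ z → ¬ p ∣ n + 2 * m i) →
        1 ≤ ∑ q ∈ Icc 1 D, l q (n % q)) →
      1 / 10 ^ 6 * (2 ^ k * k.factorial * C / Real.log D ^ k) ≤
        ∑ q ∈ Icc 1 D, (∑ r ∈ (range q).filter q.Coprime, l q r) / q.totient :=
  Pool.Agent.Lib.MP_68a45e_nt.Opt.opt_prime k hk m h0 hm C hC

end Pool.Agent.Lib.MP_68a45e_nt.OldSieveOptimalPrimes
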