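import Mathlib

set_option autoImplicit false

namespace Pool.Agent.Lib.MP_68a45e_nt.Opt

open Complex Real Set Metric Filter Topology Finset

/-- analytic on the closed right half plane, of exponential growth at most `a` -/
def Gr (a : ℝ) (f : ℂ → ℂ) : Prop :=
  (∀ s : ℂ, 0 ≤ s.re → DifferentiableAt ℂ f s) ∧
    ∃ C : ℝ, 0 ≤ C ∧ ∀ s : ℂ, 0 ≤ s.re → ‖f s‖ ≤ C * rexp (a * s.re)

theorem Gr.const (c : ℂ) : Gr 0 fun _ => c :=
  ⟨fun _ _ => differentiableAt_const c, ‖c‖, norm_nonneg c, fun _ _ => by simp⟩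

theorem Gr.mono {a b : ℝ} {f : ℂ → ℂ} (h : Gr a f) (hab : a ≤ b) : Gr b f := by
  obtain ⟨h1, C, h0, h2⟩ := h
  exact ⟨h1, C, h0, fun s hs => (h2 s hs).trans (by gcongr)⟩

theorem Gr.add {a : ℝ} {f g : ℂ → ℂ} (h : Gr a f) (h' : Gr a g) : Gr a fun s => f s + g s := by
  obtain ⟨h1, C, h0, h2⟩ := h
  obtain ⟨h3, D, h4, h5⟩ := h'
  refine ⟨fun s hs => (h1 s hs).add (h3 s hs), C + D, by positivity, fun s hs => ?_⟩
  rw [add_mul]
  exact norm_add_le_of_le (h2 s hs) (h5 s hs)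

theorem Gr.mul {a b : ℝ} {f g : ℂ → ℂ} (h : Gr a f) (h' : Gr b g) :
    Gr (a + b) fun s => f s * g s := by
  obtain ⟨h1, C, h0, h2⟩ := h
  obtain ⟨h3, D, h4, h5⟩ := h'
  refine ⟨fun s hs => (h1 s hs).mul (h3 s hs), C * D, by positivity, fun s hs => ?_⟩
  rw [norm_mul, add_mul, Real.exp_add, mul_mul_mul_comm]
  exact mul_le_mul (h2 s hs) (h5 s hs) (norm_nonneg _) (by positivity)

theorem Gr.cmul {a : ℝ} {f : ℂ → ℂ} (h : Gr a f) (c : ℂ) : Gr a fun s => c * f s := by
  simpa using (Gr.const c).mul h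

theorem Gr.exp (a : ℝ) : Gr a fun s => cexp (a * s) :=
  ⟨fun s _ => by fun_prop, 1, zero_le_one, fun s _ => by simp [Complex.norm_exp]⟩

theorem Gr.prod {ι : Type*} (U : Finset ι) (a : ι → ℝ) (f : ι → ℂ → ℂ)
    (h : ∀ p ∈ U, Gr (a p) (f p)) : Gr (∑ p ∈ U, a p) fun s => ∏ p ∈ U, f p s := by
  classical
  induction U using Finset.induction_on with
  | empty => simpa using Gr.const 1
  | insert q U hq ih =>
    simp only [sum_insert hq, prod_insert hq]
    exact (h q (mem_insert_self _ _)).mul (ih fun p hp => h p (mem_insert_of_mem hp))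

theorem Gr.inv {L x : ℝ} (hL : 0 ≤ L) (h0 : 0 ≤ x) (h1 : x < 1) :
    Gr 0 (fun s => (1 - x * cexp (-(L * s)))⁻¹) ∧
      ∀ s : ℂ, 0 ≤ s.re → 1 - x * cexp (-(L * s)) ≠ 0 := by
  have key : ∀ s : ℂ, 0 ≤ s.re → 1 - x ≤ ‖1 - x * cexp (-(L * s))‖ := by
    intro s hs
    refine le_trans ?_ (norm_sub_norm_le _ _)
    rw [norm_one, norm_mul, Complex.norm_exp, Complex.norm_real, Real.norm_of_nonneg h0]
    have : rexp (-(↑L * s)).re ≤ 1 := by
      rw [Real.exp_le_one_iff]; simp; positivity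
    nlinarith
  have hne : ∀ s : ℂ, 0 ≤ s.re → 1 - x * cexp (-(L * s)) ≠ 0 := fun s hs =>
    norm_pos_iff.1 (lt_of_lt_of_le (by linarith) (key s hs))
  refine ⟨⟨fun s hs => DifferentiableAt.inv (by fun_prop) (hne s hs), (1 - x)⁻¹,
    inv_nonneg.2 (by linarith), fun s hs => ?_⟩, hne⟩
  rw [norm_inv, zero_mul, Real.exp_zero, mul_one]
  exact inv_anti₀ (by linarith) (key s hs)

/-- the Moebius map from the disc to the half plane -/
noncomputable def mob (σ : ℝ) (ζ : ℂ) : ℂ := σ * (1 - ζ) / (1 + ζ)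

theorem mob_re (σ : ℝ) (ζ : ℂ) : (mob σ ζ).re = σ * (1 - ‖ζ‖ ^ 2) / normSq (1 + ζ) := by
  rw [mob, div_re, ← add_div, Complex.sq_norm, normSq_apply ζ]
  congr 1
  simp; ring

theorem repr {f : ℂ → ℂ} (h : Gr 0 f) {σ : ℝ} (hσ : 0 ≤ σ) :
    ∫ θ in (0:ℝ)..2 * π, (1 - cexp (θ * I) ^ 2) * f (mob σ (cexp (θ * I))) = 2 * π * f σ := by
  obtain ⟨h1, C, h0, h2⟩ := h
  have hre : ∀ ζ ∈ closedBall (0:ℂ) 1, 0 ≤ (mob σ ζ).re := by
    intro ζ hζ
    rw [mem_closedBall_zero_iff] at hζ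
    rw [mob_re]
    have : ‖ζ‖ ^ 2 ≤ 1 := pow_le_one₀ (norm_nonneg _) hζ
    exact div_nonneg (mul_nonneg hσ (by linarith)) (normSq_nonneg _)
  have hd : ∀ ζ ∈ closedBall (0:ℂ) 1, 1 + ζ ≠ 0 →
      DifferentiableAt ℂ (fun ζ => (1 - ζ ^ 2) * f (mob σ ζ)) ζ := by
    intro ζ hζ hne
    refine DifferentiableAt.mul (by fun_prop) ((h1 _ (hre ζ hζ)).comp ζ ?_)
    unfold mob
    exact DifferentiableAt.div (by fun_prop) (by fun_prop) hne
  have hD : DiffContOnCl ℂ (fun ζ => (1 - ζ ^ 2) * f (mob σ ζ)) (ball 0 |(1:ℝ)|) := by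
    rw [abs_one]
    refine ⟨fun ζ hζ => (hd ζ (ball_subset_closedBall hζ) ?_).differentiableWithinAt, ?_⟩
    · intro he
      rw [mem_ball_zero_iff, eq_neg_of_add_eq_zero_right he] at hζ
      simp at hζ
    · rw [closure_ball _ one_ne_zero]
      intro ζ hζ
      by_cases he : 1 + ζ = 0
      · have h3 : ζ = -1 := eq_neg_of_add_eq_zero_right he
        subst h3
        rw [ContinuousWithinAt]
        simp only [even_two, Even.neg_pow, one_pow, sub_self, zero_mul]
        refine squeeze_zero_norm' (a := fun ζ => ‖1 - ζ ^ 2‖ * C) ?_ ?_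
        · filter_upwards [self_mem_nhdsWithin] with ζ hζ
          rw [norm_mul]
          exact mul_le_mul_of_nonneg_left (by simpa using h2 _ (hre ζ hζ)) (norm_nonneg _)
        · have : Continuous fun ζ : ℂ => ‖1 - ζ ^ 2‖ * C := by fun_prop
          simpa using (this.tendsto (-1)).mono_left nhdsWithin_le_nhds
      · exact (hd ζ hζ he).continuousAt.continuousWithinAt
  have := hD.circleAverage
  rw [circleAverage_def] at this
  simp only [circleMap, zero_add, ofReal_one, one_mul] at this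
  have h4 : (2 * π : ℝ) ≠ 0 := by positivity
  rw [inv_smul_eq_iff₀ h4] at this
  rw [this]
  simp [mob]

theorem gamma_avg {G : ℂ → ℂ} (hG : ∀ γ : ℂ, ‖γ‖ ≤ 2 → DifferentiableAt ℂ G γ) {B Y : ℝ}
    (hB : ∀ γ : ℂ, ‖γ‖ ≤ 2 → ‖G γ‖ ≤ B * rexp (-(Y * γ.im))) :
    ‖∫ γ in (-1:ℝ)..1, (1 - (γ:ℂ) ^ 2) ^ 2 * G γ‖ ≤ 102 * B / (1 + Y ^ 2) := by
  set A : ℂ → ℂ := fun γ => (1 - γ ^ 2) ^ 2 * (G γ * cexp (-(I * Y * γ))) with hA
  have hB0 : 0 ≤ B := by simpa using (norm_nonneg _).trans (hB 0 (by simp))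
  have hAd : ∀ γ : ℂ, ‖γ‖ ≤ 2 → DifferentiableAt ℂ A γ := fun γ h =>
    DifferentiableAt.mul (by fun_prop) ((hG γ h).mul (by fun_prop))
  have hAb : ∀ γ : ℂ, ‖γ‖ ≤ 2 → ‖A γ‖ ≤ ‖1 - γ ^ 2‖ ^ 2 * B := by
    intro γ h
    simp only [hA, norm_mul, norm_pow]
    refine mul_le_mul_of_nonneg_left ?_ (by positivity)
    refine (mul_le_mul_of_nonneg_right (hB γ h) (norm_nonneg _)).trans (le_of_eq ?_)
    rw [Complex.norm_exp, mul_assoc, ← Real.exp_add]
    simp
  have hAn : AnalyticOnNhd ℂ A (ball 0 2) :=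
    DifferentiableOn.analyticOnNhd (fun γ h => (hAd γ (by
      rw [mem_ball_zero_iff] at h; exact h.le)).differentiableWithinAt) isOpen_ball
  have hmem : ∀ γ : ℝ, γ ∈ uIcc (-1:ℝ) 1 → |γ| ≤ 1 ∧ (γ:ℂ) ∈ ball (0:ℂ) 2 := by
    intro γ h
    rw [Set.uIcc_of_le (by norm_num)] at h
    have : |γ| ≤ 1 := abs_le.2 h
    exact ⟨this, by rw [mem_ball_zero_iff, Complex.norm_real, Real.norm_eq_abs]; linarith⟩
  have h2 : ∀ γ : ℝ, |γ| ≤ 1 → ‖deriv (deriv A) γ‖ ≤ 50 * B := by
    intro γ h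
    have hs : ∀ z ∈ closedBall (γ:ℂ) 1, ‖z‖ ≤ 2 := by
      intro z hz
      have := norm_sub_norm_le z γ
      rw [Complex.norm_real, Real.norm_eq_abs] at this
      rw [mem_closedBall, dist_eq_norm] at hz
      linarith
    have := Complex.norm_iteratedDeriv_le_of_forall_mem_sphere_norm_le (f := A) (c := γ) 2 one_pos
      (DifferentiableOn.diffContOnCl (by
        rw [closure_ball _ one_ne_zero]
        exact fun z hz => (hAd z (hs z hz)).differentiableWithinAt)) (C := 25 * B) (by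
        intro z hz
        have h3 := hs z (sphere_subset_closedBall hz)
        refine (hAb z h3).trans (mul_le_mul_of_nonneg_right ?_ hB0)
        have h4 : ‖1 - z ^ 2‖ ≤ 5 := by
          refine (norm_sub_le _ _).trans ?_
          rw [norm_one, norm_pow]
          nlinarith [norm_nonneg z]
        nlinarith [norm_nonneg (1 - z ^ 2)])
    rw [iteratedDeriv_succ, iteratedDeriv_one] at this
    norm_num at this
    linarith
  have cA : ContinuousOn (fun γ : ℝ => cexp (I * Y * γ) * A γ) (uIcc (-1:ℝ) 1) := fun γ h =>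
    (ContinuousAt.mul (by fun_prop) ((hAn _ (hmem γ h).2).continuousAt.comp
      continuous_ofReal.continuousAt)).continuousWithinAt
  have cA2 : ContinuousOn (fun γ : ℝ => cexp (I * Y * γ) * deriv (deriv A) γ) (uIcc (-1:ℝ) 1) :=
    fun γ h => (ContinuousAt.mul (by fun_prop) ((hAn.deriv.deriv _ (hmem γ h).2).continuousAt.comp
      continuous_ofReal.continuousAt)).continuousWithinAt
  have hz : ∀ γ : ℂ, γ ^ 2 = 1 → A γ = 0 ∧ deriv A γ = 0 := by
    intro γ h
    have h3 : ‖γ‖ ≤ 2 := by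
      have : ‖γ‖ ^ 2 = 1 := by rw [← norm_pow, h, norm_one]
      nlinarith [norm_nonneg γ]
    refine ⟨by simp [hA, h], ?_⟩
    have a := (((hasDerivAt_id γ).pow 2).const_sub 1).pow 2
    have b := (a.mul ((hG γ h3).mul (by fun_prop :
      DifferentiableAt ℂ (fun γ => cexp (-(I * Y * γ))) γ)).hasDerivAt).deriv
    refine Eq.trans b ?_
    simp [h]
  have hI : ∫ γ in (-1:ℝ)..1, (cexp (I * Y * γ) * deriv (deriv A) γ +
      (Y:ℂ) ^ 2 * (cexp (I * Y * γ) * A γ)) = 0 := by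
    rw [intervalIntegral.integral_eq_sub_of_hasDerivAt
      (f := fun γ : ℝ => cexp (I * Y * γ) * (deriv A γ - I * Y * A γ))]
    · simp [hz 1 (by simp), hz (-1) (by simp)]
    · intro γ h
      have a := ((((hasDerivAt_id (γ:ℂ)).const_mul (I * Y)).cexp).mul
        ((hAn.deriv _ (hmem γ h).2).differentiableAt.hasDerivAt.sub
        ((hAn _ (hmem γ h).2).differentiableAt.hasDerivAt.const_mul (I * Y)))).comp_ofReal
      refine a.congr_deriv ?_
      simp only [id, Pi.sub_apply]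
      linear_combination (-(cexp (I * Y * γ) * Y ^ 2 * A γ)) * I_sq
    · exact (cA2.add (cA.const_smul ((Y:ℂ) ^ 2))).intervalIntegrable
  have e : ∀ γ : ℝ, (1 - (γ:ℂ) ^ 2) ^ 2 * G γ = cexp (I * Y * γ) * A γ := by
    intro γ
    simp only [hA]
    rw [Complex.exp_neg]
    field_simp
  simp only [e]
  rw [intervalIntegral.integral_add cA2.intervalIntegrable
    (cA.intervalIntegrable.const_mul _), intervalIntegral.integral_const_mul] at hI
  have n1 : ∀ γ : ℝ, ‖cexp (I * Y * γ)‖ = 1 := fun γ => by simp [Complex.norm_exp]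
  have b1 : ‖∫ γ in (-1:ℝ)..1, cexp (I * Y * γ) * A γ‖ ≤ B * |1 - (-1:ℝ)| := by
    apply intervalIntegral.norm_integral_le_of_norm_le_const
    intro γ h
    obtain ⟨h3, h4⟩ := hmem γ (uIoc_subset_uIcc h)
    rw [norm_mul, n1, one_mul]
    refine (hAb γ (mem_ball_zero_iff.1 h4).le).trans (mul_le_of_le_one_left hB0 ?_)
    have h5 : γ ^ 2 ≤ 1 := by rwa [sq_le_one_iff_abs_le_one]
    rw [← ofReal_one, ← ofReal_pow, ← ofReal_sub, Complex.norm_real, Real.norm_eq_abs, sq_abs]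
    nlinarith [sq_nonneg γ]
  have b2 : ‖∫ γ in (-1:ℝ)..1, cexp (I * Y * γ) * deriv (deriv A) γ‖ ≤ 50 * B * |1 - (-1:ℝ)| := by
    apply intervalIntegral.norm_integral_le_of_norm_le_const
    intro γ h
    rw [norm_mul, n1, one_mul]
    exact h2 γ (hmem γ (uIoc_subset_uIcc h)).1
  rw [eq_neg_of_add_eq_zero_left hI, norm_neg, norm_mul, norm_pow, Complex.norm_real,
    Real.norm_eq_abs, sq_abs] at b2
  rw [le_div_iff₀ (by positivity)]
  norm_num at b1 b2
  nlinarith

/-- the profile of the centre of the phase -/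
noncomputable def prof (θ : ℝ) : ℝ := Real.log ((10 + 8 * Real.cos θ) / (5 + 3 * Real.cos θ))

theorem theta_int (a b : ℝ) (ha : 0 < a) :
    ∫ θ in (0:ℝ)..2 * π, |Real.sin θ| / (1 + (b + a * prof θ) ^ 2) ≤ 30 * π / a := by
  have p1 : ∀ θ, 0 < 10 + 8 * Real.cos θ := fun θ => by linarith [Real.neg_one_le_cos θ]
  have p2 : ∀ θ, 0 < 5 + 3 * Real.cos θ := fun θ => by linarith [Real.neg_one_le_cos θ]
  set μ : ℝ → ℝ := fun θ => 10 / ((10 + 8 * Real.cos θ) * (5 + 3 * Real.cos θ)) with hμ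
  have hp : ∀ θ, HasDerivAt prof (-Real.sin θ * μ θ) θ := by
    intro θ
    have a := ((((Real.hasDerivAt_cos θ).const_mul 8).const_add 10).div
      (((Real.hasDerivAt_cos θ).const_mul 3).const_add 5) (p2 θ).ne').log
      (div_pos (p1 θ) (p2 θ)).ne'
    refine a.congr_deriv ?_
    have := (p1 θ).ne'
    have := (p2 θ).ne'
    simp only [hμ, Pi.div_apply]
    field_simp
    ring
  have cp : Continuous prof := continuous_iff_continuousAt.2 fun θ => (hp θ).continuousAt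
  have cμ : Continuous μ :=
    continuous_const.div (by fun_prop) fun θ => (mul_pos (p1 θ) (p2 θ)).ne'
  have hd : ∀ θ, HasDerivAt (fun θ => Real.arctan (b + a * prof θ))
      (1 / (1 + (b + a * prof θ) ^ 2) * (a * (-Real.sin θ * μ θ))) θ := fun θ =>
    (((hp θ).const_mul a).const_add b).arctan
  have c1 : Continuous fun θ => 1 / (1 + (b + a * prof θ) ^ 2) * (a * (-Real.sin θ * μ θ)) :=
    (continuous_const.div (by fun_prop) fun θ => by positivity).mul (by fun_prop)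
  have c2 : Continuous fun θ => |Real.sin θ| / (1 + (b + a * prof θ) ^ 2) :=
    Continuous.div (by fun_prop) (by fun_prop) fun θ => by positivity
  have hμ1 : ∀ θ, 1 ≤ 15 * μ θ := by
    intro θ
    simp only [hμ]
    rw [mul_div_assoc', le_div_iff₀ (mul_pos (p1 θ) (p2 θ))]
    nlinarith [Real.cos_le_one θ, Real.neg_one_le_cos θ]
  have key : ∀ (ε u v : ℝ), u ≤ v → |ε| = 1 → (∀ θ ∈ Set.Icc u v, |Real.sin θ| = -ε * Real.sin θ) →
      ∫ θ in u..v, |Real.sin θ| / (1 + (b + a * prof θ) ^ 2) ≤ 15 * π / a := by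
    intro ε u v huv hε hs
    have h1 := intervalIntegral.integral_eq_sub_of_hasDerivAt (a := u) (b := v)
      (fun θ _ => hd θ) (c1.intervalIntegrable _ _)
    have h2 := intervalIntegral.integral_mono_on huv (c2.intervalIntegrable _ _)
      ((c1.intervalIntegrable u v).const_mul (15 * ε / a)) (μ := MeasureTheory.volume) (by
        intro θ hθ
        have e : 15 * ε / a * (1 / (1 + (b + a * prof θ) ^ 2) * (a * (-Real.sin θ * μ θ))) =
            |Real.sin θ| / (1 + (b + a * prof θ) ^ 2) * (15 * μ θ) := by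
          rw [hs θ hθ]; field_simp
        rw [e]
        exact le_mul_of_one_le_right (by positivity) (hμ1 θ))
    rw [intervalIntegral.integral_const_mul, h1] at h2
    refine h2.trans ?_
    have h3 : ε * (Real.arctan (b + a * prof v) - Real.arctan (b + a * prof u)) ≤ π := by
      refine (le_abs_self _).trans ?_
      rw [abs_mul, hε, one_mul, abs_le]
      constructor <;>
      linarith [Real.arctan_lt_pi_div_two (b + a * prof v), Real.neg_pi_div_two_lt_arctan
        (b + a * prof v), Real.arctan_lt_pi_div_two (b + a * prof u),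
        Real.neg_pi_div_two_lt_arctan (b + a * prof u)]
    rw [div_mul_eq_mul_div]
    exact div_le_div_of_nonneg_right (by linarith) ha.le
  rw [← intervalIntegral.integral_add_adjacent_intervals (b := π) (c2.intervalIntegrable _ _)
    (c2.intervalIntegrable _ _)]
  have k1 := key (-1) 0 π pi_pos.le (by simp) fun θ h => by
    simpa using Real.sin_nonneg_of_mem_Icc h
  have k2 := key 1 π (2 * π) (by linarith [pi_pos]) (by simp) fun θ h => by
    have := Real.sin_nonneg_of_mem_Icc (x := θ - π) ⟨by linarith [h.1], by linarith [h.2]⟩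
    rw [Real.sin_sub_pi] at this
    rw [abs_of_nonpos (by linarith)]; ring
  have : 30 * π / a = 15 * π / a + 15 * π / a := by ring
  linarith

end Pool.Agent.Lib.MP_68a45e_nt.Opt
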