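import Pool.Agent.Lib.MP_68a45e_nt.OptLoc

set_option autoImplicit false

namespace Pool.Agent.Lib.MP_68a45e_nt.Opt

open Complex Real Set Metric Filter Topology Finset MeasureTheory

theorem crt_two (a b : ℕ) (hab : a.Coprime b) (ha : 0 < a) (hb : 0 < b)
    (F G : ℕ → ℂ) (hF : ∀ m n, m ≡ n [MOD a] → F m = F n) (hG : ∀ m n, m ≡ n [MOD b] → G m = G n) :
    ∑ n ∈ range (a * b), F n * G n = (∑ n ∈ range a, F n) * ∑ n ∈ range b, G n := by
  rw [sum_mul_sum, ← sum_product']
  apply Finset.sum_nbij' (fun n => (n % a, n % b))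
    (fun u => (Nat.chineseRemainder hab u.1 u.2 : ℕ))
  · intro n _
    simp [Nat.mod_lt _ ha, Nat.mod_lt _ hb]
  · intro u _
    simpa using Nat.chineseRemainder_lt_mul hab u.1 u.2 ha.ne' hb.ne'
  · intro n hn
    have h1 := (Nat.chineseRemainder hab (n % a) (n % b)).2
    have h2 : (Nat.chineseRemainder hab (n % a) (n % b) : ℕ) ≡ n [MOD a * b] :=
      (Nat.modEq_and_modEq_iff_modEq_mul hab).mp
        ⟨h1.1.trans (Nat.mod_modEq n a), h1.2.trans (Nat.mod_modEq n b)⟩
    exact Nat.ModEq.eq_of_lt_of_lt h2 (Nat.chineseRemainder_lt_mul hab _ _ ha.ne' hb.ne')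
      (by simpa using hn)
  · intro u hu
    simp only [mem_product, Finset.mem_range] at hu
    have h1 := (Nat.chineseRemainder hab u.1 u.2).2
    ext
    · exact Eq.trans h1.1 (Nat.mod_eq_of_lt hu.1)
    · exact Eq.trans h1.2 (Nat.mod_eq_of_lt hu.2)
  · intro n _
    rw [hF n (n % a) (Nat.mod_modEq n a).symm, hG n (n % b) (Nat.mod_modEq n b).symm]

theorem crt_prod (U : Finset ℕ) (hU : ∀ p ∈ U, p.Prime) (F : ℕ → ℕ → ℂ)
    (hF : ∀ p ∈ U, ∀ m n, m ≡ n [MOD p] → F p m = F p n) :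
    ∑ n ∈ range (∏ p ∈ U, p), ∏ p ∈ U, F p n = ∏ p ∈ U, ∑ n ∈ range p, F p n := by
  induction U using Finset.induction_on with
  | empty => simp
  | insert q U hq ih =>
    have hq' := hU q (mem_insert_self _ _)
    have hU' : ∀ p ∈ U, p.Prime := fun p hp => hU p (mem_insert_of_mem hp)
    simp only [prod_insert hq]
    rw [← ih hU' (fun p hp => hF p (mem_insert_of_mem hp))]
    apply crt_two
    · apply Nat.Coprime.prod_right
      intro p hp
      exact (Nat.coprime_primes hq' (hU' p hp)).mpr (fun e => hq (e ▸ hp))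
    · exact hq'.pos
    · exact prod_pos (fun p hp => (hU' p hp).pos)
    · exact hF q (mem_insert_self _ _)
    · intro m n hmn
      apply prod_congr rfl
      intro p hp
      exact hF p (mem_insert_of_mem hp) m n (hmn.of_dvd (dvd_prod_of_mem _ hp))

theorem sum_affine {p : ℕ} (hp : 0 < p) (φ : ℕ → ℂ) (hφ : ∀ m n, m ≡ n [MOD p] → φ m = φ n)
    (q r : ℕ) (hq : p.Coprime q) : ∑ m ∈ range p, φ (r + q * m) = ∑ m ∈ range p, φ m := by
  have hinj : Set.InjOn (fun m => (r + q * m) % p) (range p : Finset ℕ) := by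
    intro a ha b hb h
    exact (Nat.ModEq.cancel_left_of_coprime hq (Nat.ModEq.add_left_cancel' r h)).eq_of_lt_of_lt
      (by simpa using ha) (by simpa using hb)
  have himg : (range p).image (fun m => (r + q * m) % p) = range p := by
    apply Finset.eq_of_subset_of_card_le
    · intro a ha
      obtain ⟨m, -, rfl⟩ := Finset.mem_image.1 ha
      exact Finset.mem_range.2 (Nat.mod_lt _ hp)
    · rw [card_image_of_injOn hinj]
  conv_rhs => rw [← himg, sum_image hinj]
  exact sum_congr rfl fun m _ => hφ _ _ (Nat.mod_modEq _ _).symm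

open Classical in
/-- local density of the removed classes -/
noncomputable def dens (A : ℕ → ℕ → Prop) (p : ℕ) : ℝ := (((range p).filter (A p)).card : ℝ) / p

open Classical in
theorem sum_ite_dens (A : ℕ → ℕ → Prop) {p : ℕ} (hp : 0 < p) (u v : ℂ) :
    ∑ m ∈ range p, (if A p m then u else v) = p * (dens A p * u + (1 - dens A p) * v) := by
  have hp' : (p : ℂ) ≠ 0 := by exact_mod_cast hp.ne'
  have h1 := card_filter_add_card_filter_not (s := range p) (A p)
  rw [card_range] at h1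
  have h2 : (((range p).filter (fun m : ℕ => ¬ A p m)).card : ℂ)
      = p - ((range p).filter (A p)).card := by
    rw [eq_sub_iff_add_eq, add_comm]
    exact_mod_cast h1
  rw [sum_ite, sum_const, sum_const, nsmul_eq_mul, nsmul_eq_mul, h2]
  unfold dens
  push_cast
  field_simp

theorem level_le (S : Finset ℕ) (hS : ∀ p ∈ S, p.Prime) (q : ℕ) (hq : 1 ≤ q) :
    (∑ p ∈ S, if p ∣ q then Real.log p else 0) ≤ Real.log q := by
  rw [← sum_filter]
  have h1 : ∏ p ∈ S.filter (· ∣ q), p ∣ q :=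
    Finset.prod_primes_dvd q (fun p hp => (hS p (mem_filter.1 hp).1).prime)
      (fun p hp => (mem_filter.1 hp).2)
  have h2 : 0 < ∏ p ∈ S.filter (· ∣ q), p := prod_pos fun p hp => (hS p (mem_filter.1 hp).1).pos
  rw [← Real.log_prod (fun p hp => by exact_mod_cast (hS p (mem_filter.1 hp).1).pos.ne'),
    ← Nat.cast_prod]
  exact Real.log_le_log (by exact_mod_cast h2) (by exact_mod_cast Nat.le_of_dvd hq h1)

open Classical in
/-- the data of the construction -/
structure Dat where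
  U : Finset ℕ
  A : ℕ → ℕ → Prop
  o : ℕ → ℕ → ℝ
  g : ℕ → ℝ
  h : ℕ → ℝ
  c : ℕ → ℝ
  σ : ℝ
  prime : ∀ p ∈ U, p.Prime
  per : ∀ p m n, m ≡ n [MOD p] → (A p m ↔ A p n)
  oper : ∀ p m n, m ≡ n [MOD p] → o p m = o p n
  o0 : ∀ p n, 0 ≤ o p n
  o1 : ∀ p ∈ U, ∑ m ∈ range p, o p m = p
  og : ∀ p ∈ U, ∑ m ∈ range p, (if A p m then o p m else 0) = p * g p
  pos : 0 < σ
  h0 : ∀ p, 0 ≤ h p
  h1 : ∀ p, h p ≤ 1 / 12
  c1 : ∀ p, |c p| ≤ 1 / 2
  hc : ∀ p, h p = 0 → c p = 0
  hg : ∀ p ∈ U, h p ≠ 0 → g p = h p * (1 - g p)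

namespace Dat
variable (d : Dat)

noncomputable def x (p : ℕ) : ℝ := rexp (-(Real.log p * d.σ))

noncomputable def u (p : ℕ) (γ s : ℂ) : ℂ :=
  if d.h p = 0 then 0 else uu (Real.log p) (d.h p) (d.x p) (d.c p) γ s

noncomputable def v (p : ℕ) (γ s : ℂ) : ℂ :=
  if d.h p = 0 then 1 else vv (Real.log p) (d.h p) (d.x p) (d.c p) γ s

open Classical in
noncomputable def W (n : ℕ) (γ s : ℂ) : ℂ := ∏ p ∈ d.U, if d.A p n then d.u p γ s else d.v p γ s

open Classical in
/-- indicator of the sifted set -/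
noncomputable def ind (n : ℕ) : ℝ := if ∀ p ∈ d.U, ¬ d.A p n then 1 else 0

open Classical in
noncomputable def Y (n : ℕ) (t : ℝ) : ℝ := ∑ p ∈ d.U, ((if d.A p n then d.c p else
  2 * d.c p * d.h p * d.x p * Real.cos (Real.log p * t)) - d.c p * d.h p * (1 + d.x p ^ 2))

noncomputable def B : ℝ :=
  rexp (∑ p ∈ d.U, (-(d.h p * (1 - d.x p ^ 2)) + 16 * d.h p * d.c p ^ 2 + 72 * d.h p ^ 2))

/-- the weight of the underlying sequence -/
noncomputable def O (n : ℕ) : ℝ := ∏ p ∈ d.U, d.o p n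

open Classical in
theorem loc_sum {p : ℕ} (hp : p ∈ d.U) (u v : ℂ) :
    ∑ m ∈ range p, d.o p m * (if d.A p m then u else v) = p * (d.g p * u + (1 - d.g p) * v) := by
  have e : ∀ m, d.o p m * (if d.A p m then u else v) =
      ((if d.A p m then d.o p m else 0 : ℝ) : ℂ) * (u - v) + d.o p m * v := by
    intro m; split_ifs <;> simp [mul_sub]
  simp only [e, sum_add_distrib, ← sum_mul, ← ofReal_sum, d.o1 p hp, d.og p hp]
  push_cast; ring

open Classical in
theorem class_prod (u v : ℕ → ℂ) (q r : ℕ) : ∑ m ∈ range (∏ p ∈ d.U, p), d.O (r + q * m) *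
    ∏ p ∈ d.U, (if d.A p (r + q * m) then u p else v p) = ∏ p ∈ d.U, (p * if p ∣ q then
      d.o p r * (if d.A p r then u p else v p) else d.g p * u p + (1 - d.g p) * v p) := by
  simp only [O, ofReal_prod, ← prod_mul_distrib]
  rw [crt_prod d.U d.prime (fun p m => d.o p (r + q * m) * if d.A p (r + q * m) then u p else v p)
    fun p _ m n h => by
      simp only [d.per p _ _ ((h.mul_left q).add_left r), d.oper p _ _ ((h.mul_left q).add_left r)]]
  refine prod_congr rfl fun p hp => ?_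
  by_cases hd : p ∣ q
  · have : ∀ m, r + q * m ≡ r [MOD p] := fun m => by
      simpa using ((Nat.modEq_zero_iff_dvd.2 (hd.mul_right m)).add_left r)
    simp only [d.per p _ _ (this _), d.oper p _ _ (this _), sum_const, nsmul_eq_mul, card_range,
      if_pos hd]
  · rw [if_neg hd, ← d.loc_sum hp]
    exact sum_affine (d.prime p hp).pos (fun m => d.o p m * if d.A p m then u p else v p)
      (fun m n h => by simp only [d.per p _ _ h, d.oper p _ _ h]) q r
      ((Nat.Prime.coprime_iff_not_dvd (d.prime p hp)).2 hd)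

theorem x_pos (p : ℕ) : 0 < d.x p := Real.exp_pos _

theorem x_lt {p : ℕ} (hp : p ∈ d.U) : d.x p < 1 := by
  rw [x, Real.exp_lt_one_iff, neg_lt_zero]
  exact mul_pos (Real.log_pos (by exact_mod_cast (d.prime p hp).one_lt)) d.pos

theorem bb_ne {p : ℕ} (hp : p ∈ d.U) {γ : ℂ} (hγ : ‖γ‖ ≤ 2) :
    bb (d.h p) (d.x p) (d.c p) γ ≠ 0 :=
  (bb_bd hγ (d.c1 p) (d.h0 p) (d.h1 p) (d.x_pos p).le (d.x_lt hp)).1

theorem W_per {m n : ℕ} (h : m ≡ n [MOD ∏ p ∈ d.U, p]) : d.W m = d.W n := by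
  funext γ s
  exact prod_congr rfl fun p hp => by rw [d.per p m n (h.of_dvd (dvd_prod_of_mem _ hp))]

theorem W_sigma (n : ℕ) {γ : ℂ} (hγ : ‖γ‖ ≤ 2) : d.W n γ d.σ = d.ind n := by
  have : ∀ p ∈ d.U, d.u p γ d.σ = 0 ∧ d.v p γ d.σ = 1 := by
    intro p hp
    have := at_sigma (L := Real.log p) (σ := d.σ) rfl (d.bb_ne hp hγ)
    unfold u v
    split_ifs
    exacts [⟨rfl, rfl⟩, this]
  unfold W ind
  split_ifs with h
  · exact prod_eq_one fun p hp => by rw [if_neg (h p hp), (this p hp).2]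
  · push Not at h
    obtain ⟨p, hp, ha⟩ := h
    exact prod_eq_zero hp (by rw [if_pos ha, (this p hp).1])

theorem W_bd (n : ℕ) {γ s : ℂ} (hγ : ‖γ‖ ≤ 2) (hs : s.re = 0) :
    ‖d.W n γ s‖ ≤ d.B * rexp (-(d.Y n s.im * γ.im)) := by
  rw [W, B, Y, ← Real.exp_add, sum_mul, ← sum_neg_distrib, ← sum_add_distrib, Real.exp_sum,
    norm_prod]
  refine prod_le_prod (fun _ _ => norm_nonneg _) fun p hp => ?_
  unfold u v
  split_ifs with h1 h2 h2
  · simp; positivity
  · exact uu_bd hs hγ (d.c1 p) (d.h0 p) (d.h1 p) (d.x_pos p).le (d.x_lt hp)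
  · simp [h2, d.hc p h2]
  · exact vv_bd hs hγ (d.c1 p) (d.h0 p) (d.h1 p) (d.x_pos p).le (d.x_lt hp)

theorem W_diff (n : ℕ) (s : ℂ) {γ : ℂ} (hγ : ‖γ‖ ≤ 2) :
    DifferentiableAt ℂ (fun γ => d.W n γ s) γ := by
  refine DifferentiableAt.fun_finsetProd fun p hp => ?_
  have : DifferentiableAt ℂ (fun γ => (bb (d.h p) (d.x p) (d.c p) γ)⁻¹) γ :=
    DifferentiableAt.inv (by unfold bb; fun_prop) (d.bb_ne hp hγ)
  unfold u v uu vv
  split_ifs
  · fun_prop
  · exact this.mul (by fun_prop)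
  · fun_prop
  · exact this.mul (by fun_prop)

theorem W_meas (n : ℕ) :
    Measurable fun z : ℝ × ℝ => d.W n z.1 (mob d.σ (cexp (z.2 * I))) := by
  refine Finset.measurable_prod _ fun p _ => ?_
  unfold u v uu vv bb mob
  split_ifs <;> fun_prop

theorem gr_class (γ : ℂ) {q : ℕ} (hq : 1 ≤ q) (r : ℕ) : Gr (Real.log q) fun s =>
    ∑ m ∈ range (∏ p ∈ d.U, p), d.O (r + q * m) * d.W (r + q * m) γ s := by
  classical
  simp only [W, class_prod]
  refine (Gr.prod d.U _ _ fun p hp => ?_).mono (level_le d.U d.prime q hq)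
  have hL := Real.log_natCast_nonneg p
  have hx := (d.x_pos p).le
  have hx1 := d.x_lt hp
  refine Gr.cmul ?_ _
  unfold u v
  split_ifs with hd h1 h2 h2 h0
  exacts [((Gr.const 0).mono hL).cmul _, (gr_uu hL hx hx1 γ).cmul _, ((Gr.const 1).mono hL).cmul _,
    (gr_vv hL γ).cmul _, Gr.const _, gr_mean hL hx hx1 γ (d.hg p hp h0)]

theorem mob_re0 (σ θ : ℝ) : (mob σ (cexp (θ * I))).re = 0 := by
  rw [mob_re, Complex.norm_exp_ofReal_mul_I]; simp

theorem norm_ker (θ : ℝ) : ‖1 - cexp (θ * I) ^ 2‖ = 2 * |Real.sin θ| := by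
  have : 1 - cexp (θ * I) ^ 2 = cexp (θ * I) * (-I * (2 * Real.sin θ : ℝ)) := by
    push_cast
    rw [Complex.two_sin, neg_mul (θ:ℂ), Complex.exp_neg]
    have := Complex.exp_ne_zero (θ * I)
    field_simp
    linear_combination (1 - cexp (θ * I) ^ 2) * I_sq
  rw [this, norm_mul, norm_mul, Complex.norm_exp_ofReal_mul_I, Complex.norm_real]
  simp

theorem core (Λ a ε : ℝ) (ha : 0 < a) (hε : 0 ≤ ε)
    (hY : ∀ n, ∃ b, ∀ θ, |Real.sin θ| / (1 + d.Y n (mob d.σ (cexp (θ * I))).im ^ 2) ≤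
      3 * (|Real.sin θ| / (1 + (b + a * prof θ) ^ 2)) + ε) :
    ∃ k : ℕ → ℝ, (∀ m n, m ≡ n [MOD ∏ p ∈ d.U, p] → k m = k n) ∧
      (∀ q r : ℕ, 1 ≤ q → Real.log q ≤ Λ →
        ∑ m ∈ range (∏ p ∈ d.U, p), d.O (r + q * m) * k (r + q * m) =
        ∑ m ∈ range (∏ p ∈ d.U, p), d.O (r + q * m) * d.ind (r + q * m)) ∧
      ∀ n, k n ≤ rexp (Λ * d.σ) * d.B * (9000 / a + 200 * ε) := by
  set J : ℕ → ℝ × ℝ → ℂ := fun n z => (1 - (z.1:ℂ) ^ 2) ^ 2 * ((1 - cexp (z.2 * I) ^ 2) *
    (cexp ((-Λ : ℝ) * mob d.σ (cexp (z.2 * I))) * d.W n z.1 (mob d.σ (cexp (z.2 * I))))) with hJ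
  set μ : Measure ℝ := volume.restrict (Set.Ioc (-1) 1) with hμ
  set ν : Measure ℝ := volume.restrict (Set.Ioc 0 (2 * π)) with hν
  have hB : 0 < d.B := Real.exp_pos _
  have hn : ∀ γ ∈ Set.Ioc (-1:ℝ) 1, ‖(γ:ℂ)‖ ≤ 2 := fun γ h => by
    rw [Complex.norm_real, Real.norm_eq_abs, abs_le]; constructor <;> linarith [h.1, h.2]
  have n1 : ∀ θ : ℝ, ‖cexp ((-Λ : ℝ) * mob d.σ (cexp (θ * I)))‖ = 1 := fun θ => by
    rw [Complex.norm_exp, re_ofReal_mul, mob_re0]; simp
  have hint : ∀ n, Integrable (J n) (μ.prod ν) := by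
    intro n
    have hm : Measurable (J n) := by
      refine Measurable.mul (by fun_prop) (Measurable.mul (by fun_prop)
        (Measurable.mul ?_ (d.W_meas n)))
      unfold mob; fun_prop
    refine Integrable.of_bound hm.aestronglyMeasurable (5 ^ 2 * (2 * (1 * d.B))) ?_
    rw [hμ, hν, Measure.prod_restrict]
    filter_upwards [ae_restrict_mem (measurableSet_Ioc.prod measurableSet_Ioc)] with z hz
    have h1 := hn _ hz.1
    have h2 := d.W_bd n h1 (mob_re0 d.σ z.2)
    simp only [ofReal_im, mul_zero, neg_zero, Real.exp_zero, mul_one] at h2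
    have h3 : ‖1 - (z.1:ℂ) ^ 2‖ ≤ 5 := by
      refine (norm_sub_le _ _).trans ?_
      rw [norm_one, norm_pow]
      nlinarith [norm_nonneg (z.1:ℂ)]
    have h4 := Real.abs_sin_le_one z.2
    simp only [hJ, norm_mul, norm_pow, n1, norm_ker]
    gcongr
    linarith
  have hπ := pi_pos
  refine ⟨fun n => rexp (Λ * d.σ) * (15 / (32 * π)) * (∫ z, J n z ∂μ.prod ν).re,
    fun m n h => by simp only [hJ, d.W_per h], fun q r hq hΛ => ?_, fun n => ?_⟩
  · simp only [mul_left_comm (d.O _), ← re_ofReal_mul (d.O _), ← integral_const_mul]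
    rw [← mul_sum, ← re_sum, ← integral_finsetSum _ fun m _ => (hint _).const_mul _,
      integral_prod _ (integrable_finsetSum _ fun m _ => (hint _).const_mul _)]
    set S := ∑ m ∈ range (∏ p ∈ d.U, p), d.O (r + q * m) * d.ind (r + q * m) with hS
    have e : ∀ γ ∈ Set.Ioc (-1:ℝ) 1, ∫ θ, ∑ m ∈ range (∏ p ∈ d.U, p),
        d.O (r + q * m) * J (r + q * m) (γ, θ) ∂ν =
        ((1 - γ ^ 2) ^ 2 * (2 * π * (rexp (-Λ * d.σ) * S)) : ℝ) := by
      intro γ hγ
      have := repr (((Gr.exp (-Λ)).mul (d.gr_class γ hq r)).mono (b := 0) (by linarith)) d.pos.le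
      simp only [d.W_sigma _ (hn γ hγ)] at this
      simp only [hJ, mul_left_comm (d.O _ : ℂ), ← mul_sum]
      rw [integral_const_mul, hν, ← intervalIntegral.integral_of_le (by positivity), this, hS]
      push_cast
      rfl
    rw [hμ, setIntegral_congr_fun measurableSet_Ioc e, integral_complex_ofReal, ofReal_re,
      integral_mul_const, ← intervalIntegral.integral_of_le (by norm_num)]
    have e2 : ∫ γ in (-1:ℝ)..1, (1 - γ ^ 2) ^ 2 = 16 / 15 := by
      rw [intervalIntegral.integral_eq_sub_of_hasDerivAt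
        (f := fun γ : ℝ => γ - 2 / 3 * γ ^ 3 + 1 / 5 * γ ^ 5)]
      · norm_num
      · intro γ _
        refine (((hasDerivAt_id γ).sub (((hasDerivAt_id γ).pow 3).const_mul (2 / 3))).add
          (((hasDerivAt_id γ).pow 5).const_mul (1 / 5))).congr_deriv ?_
        simp; ring
      · exact Continuous.intervalIntegrable (by fun_prop) _ _
    rw [e2, neg_mul, Real.exp_neg]
    field_simp
    norm_num
  · obtain ⟨b, hb⟩ := hY n
    have cp : Continuous prof := by
      unfold prof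
      have p1 : ∀ θ, 0 < 10 + 8 * Real.cos θ := fun θ => by linarith [Real.neg_one_le_cos θ]
      have p2 : ∀ θ, 0 < 5 + 3 * Real.cos θ := fun θ => by linarith [Real.neg_one_le_cos θ]
      exact (Continuous.div (by fun_prop) (by fun_prop) fun θ => (p2 θ).ne').log
        fun θ => (div_pos (p1 θ) (p2 θ)).ne'
    have c2 : Continuous fun θ => |Real.sin θ| / (1 + (b + a * prof θ) ^ 2) :=
      Continuous.div (by fun_prop) (by fun_prop) fun θ => by positivity
    have key : ‖∫ z, J n z ∂μ.prod ν‖ ≤ 204 * d.B * (3 * (30 * π / a) + 2 * π * ε) := by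
      rw [integral_prod_symm _ (hint n), hν, ← intervalIntegral.integral_of_le (by positivity)]
      refine (intervalIntegral.norm_integral_le_of_norm_le (by positivity) (g := fun θ =>
        204 * d.B * (3 * (|Real.sin θ| / (1 + (b + a * prof θ) ^ 2)) + ε)) (ae_of_all _ ?_)
        (Continuous.intervalIntegrable (by fun_prop) _ _)).trans ?_
      · intro θ _
        have h1 := gamma_avg (fun γ h => d.W_diff n (mob d.σ (cexp (θ * I))) h)
          (fun γ h => d.W_bd n h (mob_re0 d.σ θ))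
        simp only [hJ, mul_left_comm ((1 - (_:ℂ) ^ 2) ^ 2)]
        rw [integral_const_mul, integral_const_mul, hμ,
          ← intervalIntegral.integral_of_le (by norm_num), norm_mul, norm_mul, n1, norm_ker, one_mul]
        refine (mul_le_mul_of_nonneg_left h1 (by positivity)).trans ?_
        refine le_trans (le_of_eq ?_) (mul_le_mul_of_nonneg_left (hb θ) (by positivity))
        ring
      · rw [intervalIntegral.integral_const_mul, intervalIntegral.integral_add
          ((c2.intervalIntegrable _ _).const_mul 3) intervalIntegrable_const,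
          intervalIntegral.integral_const_mul, intervalIntegral.integral_const]
        have := theta_int a b ha
        simp only [sub_zero, smul_eq_mul]
        gcongr
    have h2 := mul_le_mul_of_nonneg_left ((re_le_norm _).trans key)
      (by positivity : 0 ≤ rexp (Λ * d.σ) * (15 / (32 * π)))
    refine h2.trans ?_
    have e : rexp (Λ * d.σ) * (15 / (32 * π)) * (204 * d.B * (3 * (30 * π / a) + 2 * π * ε)) =
        rexp (Λ * d.σ) * d.B * (8606.25 / a + 191.25 * ε) := by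
      field_simp; ring
    rw [e]
    gcongr <;> norm_num

end Dat

end Pool.Agent.Lib.MP_68a45e_nt.Opt
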