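import Pool.Agent.Lib.MP_68a45e_nt.OptMain

set_option autoImplicit false

namespace Pool.Agent.Lib.MP_68a45e_nt.Opt

open Real Filter Topology Finset N9a2a6718

theorem dens_le (A : ℕ → ℕ → Prop) {p : ℕ} (hp : 0 < p) : dens A p ≤ 1 := by
  classical
  have : (0:ℝ) < p := by exact_mod_cast hp
  rw [dens, div_le_one this]
  exact_mod_cast (card_filter_le _ _).trans (card_range p).le

open Classical in
theorem sum_dens (A : ℕ → ℕ → Prop) {p : ℕ} (hp : 0 < p) (c : ℝ) :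
    ∑ m ∈ range p, (if A p m then c else 0) = p * dens A p * c := by
  have : (p:ℝ) ≠ 0 := by exact_mod_cast hp.ne'
  rw [← sum_filter, sum_const, nsmul_eq_mul, dens, mul_div_cancel₀ _ this]

theorem H_bd {K J p : ℝ} (K1 : 1 ≤ K) (J0 : 0 ≤ J) (J1 : J ≤ 2 * K) (hp : 2000 * K ^ 2 < p) :
    |K / (p - J) - K * p⁻¹| ≤ 4 * K ^ 2 * (p ^ 2)⁻¹ := by
  have a2 : 2 * J ≤ p := by nlinarith
  have a4 : 0 < p := by nlinarith
  have a3 : 0 < p - J := by linarith
  have a6 : K / (p - J) - K * p⁻¹ = K * J / (p * (p - J)) := by field_simp; ring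
  rw [a6, abs_of_nonneg (by positivity), ← div_eq_mul_inv, div_le_div_iff₀ (by positivity)
    (by positivity)]
  have : J * p ≤ 4 * K * (p - J) := by nlinarith
  nlinarith [mul_le_mul_of_nonneg_left this (show 0 ≤ K * p by positivity)]

theorem opt_bound (k : ℕ) (m : Fin k.succ → ℕ) (hm : Function.Injective m) (C : ℝ)
    (hC : Tendsto (HardyLittlewoodPartialProduct m) atTop (𝓝 C)) :
    ∀ᶠ D : ℕ in atTop, ∀ (z : ℕ) (l : ℕ → ℕ → ℝ), (∀ n, 0 ≤ ∑ q ∈ Icc 1 D, l q (n % q)) →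
      (∀ n, (∀ i p, p.Prime → p ≤ z → ¬ p ∣ n + 2 * m i) → 1 ≤ ∑ q ∈ Icc 1 D, l q (n % q)) →
      1 / 10 ^ 6 * (2 ^ (k + 1) * (k + 1).factorial * C / log D ^ (k + 1)) ≤
        ∑ q ∈ Icc 1 D, (∑ r ∈ range q, l q r) / q := by
  obtain ⟨w, w1, w2⟩ : ∃ w : ℕ, 2000 * (k + 1) ^ 2 ≤ w ∧ ∀ i, m i ≤ w :=
    ⟨2000 * (k + 1) ^ 2 + univ.sup m, le_self_add, fun i => le_add_left (le_sup (mem_univ i))⟩
  have w3 : 2 ≤ w := by nlinarith [Nat.zero_le k]
  have K1 : (1:ℝ) ≤ k + 1 := by linarith [Nat.cast_nonneg (α := ℝ) k]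
  filter_upwards [abs_bound k w w1 (Bad m) (fun _ _ => 1) (dens (Bad m))
    (fun p => (k + 1) / (p - (k + 1))) (bad_per m) (fun _ _ _ _ => rfl) (fun _ _ => zero_le_one)
    (fun p _ => by simp) (fun p hp => by simpa using sum_dens (Bad m) hp.pos 1)
    (fun p hp => dens_le _ hp.pos) (fun p hp hw => by
      have a : 2000 * ((k:ℝ) + 1) ^ 2 < p := by exact_mod_cast w1.trans_lt hw
      refine ⟨?_, H_bd K1 (by linarith) (by linarith) a⟩
      rw [dens_big m hm hp (by omega) fun i => (w2 i).trans_lt hw]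
      have : (p:ℝ) - (k + 1) ≠ 0 := by nlinarith
      have : (p:ℝ) ≠ 0 := by nlinarith
      field_simp)] with D hD z l h0 h1
  obtain ⟨Z, hz, hZ⟩ := hD z
  have := hZ l (fun n _ => h0 n) fun n _ hn => h1 n fun i p hp hpz hd =>
    hn p (mem_pr.2 ⟨⟨hp.pos, hpz.trans hz⟩, hp⟩) ⟨i, hd⟩
  simp only [ite_self, prod_const_one, mul_one] at this
  refine le_trans ?_ this
  have := log_natCast_nonneg D
  gcongr
  exact C_le m hm C hC w w3 w2

theorem opt_prime (k : ℕ) (hk : 1 ≤ k) (m : Fin k.succ → ℕ) (m0 : m 0 = 0)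
    (hm : Function.Injective m) (C : ℝ)
    (hC : Tendsto (HardyLittlewoodPartialProduct m) atTop (𝓝 C)) :
    ∀ᶠ D : ℕ in atTop, ∀ (z : ℕ) (l : ℕ → ℕ → ℝ),
      (∀ n, n.Prime → D < n → 0 ≤ ∑ q ∈ Icc 1 D, l q (n % q)) →
      (∀ n, n.Prime → D < n → (∀ i p, p.Prime → p ≤ z → ¬ p ∣ n + 2 * m i) →
        1 ≤ ∑ q ∈ Icc 1 D, l q (n % q)) →
      1 / 10 ^ 6 * (2 ^ k * k.factorial * C / log D ^ k) ≤
        ∑ q ∈ Icc 1 D, (∑ r ∈ (range q).filter q.Coprime, l q r) / q.totient := by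
  classical
  obtain ⟨k, rfl⟩ : ∃ j, k = j + 1 := ⟨k - 1, by omega⟩
  obtain ⟨w, w1, w2⟩ : ∃ w : ℕ, 2000 * (k + 1) ^ 2 ≤ w ∧ ∀ i, m i ≤ w :=
    ⟨2000 * (k + 1) ^ 2 + univ.sup m, le_self_add, fun i => le_add_left (le_sup (mem_univ i))⟩
  have w3 : 2 ≤ w := by nlinarith [Nat.zero_le k]
  have K1 : (1:ℝ) ≤ k + 1 := by linarith [Nat.cast_nonneg (α := ℝ) k]
  have hp1 : ∀ p : ℕ, p.Prime → 0 < 1 - (p:ℝ)⁻¹ ∧ (1:ℝ) < p := fun p hp => by
    have : (1:ℝ) < p := by exact_mod_cast hp.one_lt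
    exact ⟨sub_pos.2 (inv_lt_one_of_one_lt₀ this), this⟩
  set o : ℕ → ℕ → ℝ := fun p n => if p ∣ n then 0 else (1 - (p:ℝ)⁻¹)⁻¹ with ho
  have os : ∀ (A : ℕ → ℕ → Prop) (p : ℕ), p.Prime → A p 0 →
      ∑ n ∈ range p, (if A p n then o p n else 0) = (p * dens A p - 1) * (1 - (p:ℝ)⁻¹)⁻¹ := by
    intro A p hp h0
    rw [sub_mul, ← sum_dens A hp.pos, eq_sub_iff_add_eq,
      ← sum_erase_add _ _ (mem_range.2 hp.pos), ← sum_erase_add _ _ (mem_range.2 hp.pos)]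
    simp only [if_pos h0, ho, dvd_zero, if_true, add_zero, one_mul, add_left_inj]
    refine sum_congr rfl fun n hn => ?_
    rw [mem_erase, mem_range] at hn
    rw [if_neg (Nat.not_dvd_of_pos_of_lt (Nat.pos_of_ne_zero hn.1) hn.2)]
  filter_upwards [abs_bound k w w1 (Bad m) o (fun p => 1 - (1 - dens (Bad m) p) * (1 - (p:ℝ)⁻¹)⁻¹)
    (fun p => (k + 1) / (p - (k + 2))) (bad_per m)
    (fun p a b h => by simp only [ho, h.dvd_iff dvd_rfl])
    (fun p n => by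
      simp only [ho]
      split_ifs
      exacts [le_rfl, inv_nonneg.2 (sub_nonneg.2 (Nat.cast_inv_le_one p))])
    (fun p hp => by
      have := os (fun _ _ => True) p hp trivial
      have a := hp1 p hp
      have b : (p:ℝ) - 1 ≠ 0 := by linarith [a.2]
      have c : (p:ℝ) ≠ 0 := by linarith [a.2]
      simp only [if_true, dens, filter_true, card_range] at this
      rw [this]
      field_simp)
    (fun p hp => by
      have a := hp1 p hp
      have b : (p:ℝ) - 1 ≠ 0 := by linarith [a.2]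
      have c : (p:ℝ) ≠ 0 := by linarith [a.2]
      rw [os (Bad m) p hp ⟨0, by simp [m0]⟩]
      field_simp
      ring)
    (fun p hp => sub_le_self _ (mul_nonneg (sub_nonneg.2 (dens_le _ hp.pos))
      (inv_pos.2 (hp1 p hp).1).le)) (fun p hp hw => by
      have a : 2000 * ((k:ℝ) + 1) ^ 2 < p := by exact_mod_cast w1.trans_lt hw
      refine ⟨?_, H_bd K1 (by linarith) (by linarith) a⟩
      rw [dens_big m hm hp (by omega) fun i => (w2 i).trans_lt hw]
      have : (p:ℝ) - (k + 2) ≠ 0 := by nlinarith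
      have : (p:ℝ) - 1 ≠ 0 := by nlinarith
      have : (p:ℝ) ≠ 0 := by nlinarith
      push_cast
      field_simp
      ring)] with D hD z l h0 h1
  obtain ⟨Z, hz, hZ⟩ := hD (max z D)
  have dir : ∀ n, (∀ p ∈ pr 0 Z, o p n ≠ 0) → ∃ n', n'.Prime ∧ D < n' ∧
      n' ≡ n [MOD Z.factorial] ∧ ∑ q ∈ Icc 1 D, l q (n' % q) = ∑ q ∈ Icc 1 D, l q (n % q) := by
    intro n hn
    obtain ⟨n', a, b, c⟩ := Nat.forall_exists_prime_gt_and_modEq D (q := Z.factorial) (a := n)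
      Z.factorial_ne_zero (Nat.coprime_of_dvd fun p hp h1 h2 =>
        hn p (mem_pr.2 ⟨⟨hp.pos, hp.dvd_factorial.1 h2⟩, hp⟩) (if_pos h1))
    refine ⟨n', b, a, c, sum_congr rfl fun q hq => ?_⟩
    rw [c.of_dvd (Nat.dvd_factorial (mem_Icc.1 hq).1
      ((mem_Icc.1 hq).2.trans (le_of_max_le_right hz)))]
  have := hZ l (fun n hn => by
    obtain ⟨n', a, b, -, c⟩ := dir n hn
    exact c ▸ h0 n' a b) fun n hn hn' => by
    obtain ⟨n', a, b, e, c⟩ := dir n hn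
    refine c ▸ h1 n' a b fun i p hp hpz hd => ?_
    have hpZ := hpz.trans (le_of_max_le_left hz)
    exact hn' p (mem_pr.2 ⟨⟨hp.pos, hpZ⟩, hp⟩)
      ((bad_per m p _ _ (e.of_dvd (Nat.dvd_factorial hp.pos hpZ))).1 ⟨i, hd⟩)
  refine le_trans ?_ (this.trans (le_of_eq (sum_congr rfl fun q hq => ?_)))
  · have := log_natCast_nonneg D
    gcongr
    refine (C_le m hm C hC w w3 w2).trans (le_of_eq ?_)
    simp only [sub_sub_cancel, prod_mul_distrib]
    have e : ∏ p ∈ pr 0 w, (1 - (p:ℝ)⁻¹)⁻¹ = exp (-∑ p ∈ pr 0 w, log (1 - (p:ℝ)⁻¹)) := by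
      rw [exp_neg, exp_sum, prod_inv_distrib]
      exact congrArg _ (prod_congr rfl fun p hp => (exp_log (hp1 p (mem_pr.1 hp).2).1).symm)
    rw [e, mul_assoc, ← exp_add]
    push_cast
    ring_nf
  · have hq' := mem_Icc.1 hq
    have e : (pr 0 Z).filter (· ∣ q) = q.primeFactors := by
      ext p
      simp only [mem_filter, mem_pr, Nat.mem_primeFactors]
      exact ⟨fun h => ⟨h.1.2, h.2, by omega⟩, fun h => ⟨⟨⟨h.1.pos, ((Nat.le_of_dvd hq'.1
        h.2.1).trans hq'.2).trans (le_of_max_le_right hz)⟩, h.1⟩, h.2.1⟩⟩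
    have t : (q.totient : ℝ) = q * ∏ p ∈ q.primeFactors, (1 - (p:ℝ)⁻¹) := by
      have := congrArg (Rat.cast (K := ℝ)) (Nat.totient_eq_mul_prod_factors q)
      push_cast at this
      exact this
    simp only [← prod_filter, e]
    rw [sum_filter, t, mul_comm (q:ℝ), ← div_div]
    congr 1
    rw [sum_div]
    refine sum_congr rfl fun r _ => ?_
    split_ifs with h
    · rw [div_eq_mul_inv, ← prod_inv_distrib]
      congr 1
      exact prod_congr rfl fun p hp => if_neg fun hd => (Nat.prime_of_mem_primeFactors hp).one_lt.ne'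
        (Nat.eq_one_of_dvd_coprimes h (Nat.dvd_of_mem_primeFactors hp) hd)
    · obtain ⟨p, hp, a, b⟩ := Nat.Prime.not_coprime_iff_dvd.1 h
      rw [prod_eq_zero (f := fun x => o x r) (Nat.mem_primeFactors.2 ⟨hp, a, by omega⟩) (if_pos b)]
      simp

end Pool.Agent.Lib.MP_68a45e_nt.Opt
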