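import Pool.Agent.Lib.MP_68a45e_nt.OptAn

set_option autoImplicit false

namespace Pool.Agent.Lib.MP_68a45e_nt.Opt

open Complex Real Set Metric Filter Topology Finset

theorem log_norm {z : ℂ} (hz : ‖z‖ ≤ 1 / 2) :
    1 + z ≠ 0 ∧ |Real.log ‖1 + z‖ - z.re| ≤ ‖z‖ ^ 2 := by
  constructor
  · intro h
    rw [eq_neg_of_add_eq_zero_right h] at hz
    norm_num at hz
  · rw [← Complex.log_re, ← Complex.sub_re]
    refine (abs_re_le_norm _).trans ((Complex.norm_log_one_add_sub_self_le (by linarith)).trans ?_)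
    have : (1 - ‖z‖)⁻¹ ≤ 2 := by
      rw [inv_le_comm₀ (by linarith) (by norm_num)]; linarith
    nlinarith [sq_nonneg ‖z‖]

theorem norm_one_add {z : ℂ} (hz : ‖z‖ ≤ 1 / 2) :
    ‖1 + z‖ ≤ rexp (z.re + ‖z‖ ^ 2) ∧ ‖(1 + z)⁻¹‖ ≤ rexp (-z.re + ‖z‖ ^ 2) := by
  obtain ⟨h1, h2⟩ := log_norm hz
  have h3 := norm_pos_iff.2 h1
  rw [abs_le] at h2
  rw [norm_inv, ← Real.exp_log h3, ← Real.exp_neg]
  constructor <;> apply Real.exp_le_exp.2 <;> linarith [h2.1, h2.2]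

noncomputable def bb (h x c : ℝ) (γ : ℂ) : ℂ :=
  1 + h * (cexp (I * γ * c) - x ^ 2 * cexp (-(I * γ * c)))

noncomputable def uu (L h x c : ℝ) (γ s : ℂ) : ℂ :=
  (bb h x c γ)⁻¹ * (cexp (I * γ * c) * ((1 - x * cexp (L * s)) * (1 - x * cexp (-(L * s)))⁻¹))

noncomputable def vv (L h x c : ℝ) (γ s : ℂ) : ℂ :=
  (bb h x c γ)⁻¹ *
    (1 + h * x * (cexp (I * γ * c) * cexp (L * s) - cexp (-(I * γ * c)) * cexp (-(L * s))))

variable {L h x c : ℝ}

theorem Gr.nexp (hL : 0 ≤ L) : Gr 0 fun s => cexp (-(L * s)) := by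
  simpa using (Gr.exp (-L)).mono (b := 0) (by linarith)

theorem gr_uu (hL : 0 ≤ L) (h0 : 0 ≤ x) (h1 : x < 1) (γ : ℂ) : Gr L (uu L h x c γ) := by
  have := (((((Gr.const 1).mono hL).add ((Gr.exp L).cmul (-x))).mul (Gr.inv hL h0 h1).1).cmul
    (cexp (I * γ * c))).cmul (bb h x c γ)⁻¹
  simp only [add_zero, neg_mul, ← sub_eq_add_neg] at this
  exact this

theorem gr_vv (hL : 0 ≤ L) (γ : ℂ) : Gr L (vv L h x c γ) := by
  have := (((Gr.const 1).mono hL).add ((((Gr.exp L).cmul (cexp (I * γ * c))).add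
    (((Gr.nexp hL).mono hL).cmul (-cexp (-(I * γ * c))))).cmul (h * x))).cmul (bb h x c γ)⁻¹
  simp only [neg_mul, ← sub_eq_add_neg] at this
  exact this

theorem gr_mean (hL : 0 ≤ L) (h0 : 0 ≤ x) (h1 : x < 1) (γ : ℂ) {g : ℝ} (hg : g = h * (1 - g)) :
    Gr 0 fun s => g * uu L h x c γ s + (1 - g) * vv L h x c γ s := by
  obtain ⟨a1, C, a2, a3⟩ := (((Gr.const 1).add ((Gr.inv hL h0 h1).1.cmul
    (h * cexp (I * γ * c) * (1 - x ^ 2)))).add
    ((Gr.nexp hL).cmul (-(h * x * cexp (-(I * γ * c)))))).cmul ((1 - g) * (bb h x c γ)⁻¹)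
  refine ⟨fun s hs => (((gr_uu hL h0 h1 γ).1 s hs).const_mul _).add
    (((gr_vv hL γ).1 s hs).const_mul _), C, a2, fun s hs => le_of_eq_of_le ?_ (a3 s hs)⟩
  congr 1
  have e1 : (1 - x * cexp (-(L * s)))⁻¹ * (1 - x * cexp (-(L * s))) = 1 :=
    inv_mul_cancel₀ ((Gr.inv hL h0 h1).2 s hs)
  have e2 : cexp (L * s) * cexp (-(L * s)) = 1 := by rw [← Complex.exp_add]; simp
  have e3 : (g:ℂ) = h * (1 - g) := by exact_mod_cast hg
  simp only [uu, vv]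
  generalize (1 - x * cexp (-(L * s)))⁻¹ = y at *
  generalize cexp (-(L * s)) = w at *
  generalize cexp (L * s) = w' at *
  generalize (bb h x c γ)⁻¹ = β
  generalize cexp (I * γ * c) = e
  linear_combination (β * e * (1 - x * w') * y) * e3 - ((1 - g) * β * h * e * x * w') * e1
    - ((1 - g) * β * h * e * x ^ 2 * y) * e2

theorem exp_bd {γ : ℂ} (hγ : ‖γ‖ ≤ 2) (hc : |c| ≤ 1 / 2) :
    ∃ r r' : ℂ, cexp (I * γ * c) = 1 + I * γ * c + r ∧ cexp (-(I * γ * c)) = 1 - I * γ * c + r' ∧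
      ‖r‖ ≤ 4 * c ^ 2 ∧ ‖r'‖ ≤ 4 * c ^ 2 ∧ ‖cexp (I * γ * c)‖ ≤ 3 ∧ ‖cexp (-(I * γ * c))‖ ≤ 3 := by
  have h1 : ‖I * γ * c‖ ≤ 2 * |c| := by
    rw [norm_mul, norm_mul, Complex.norm_I, one_mul, Complex.norm_real, Real.norm_eq_abs]
    gcongr
  have h2 : ‖I * γ * c‖ ^ 2 ≤ 4 * c ^ 2 := by
    rw [← sq_abs c]; nlinarith [norm_nonneg (I * γ * c), abs_nonneg c]
  have h3 : ∀ z : ℂ, ‖z‖ ≤ 1 → ‖cexp z‖ ≤ 3 := fun z hz => by
    rw [Complex.norm_exp]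
    exact (Real.exp_le_exp.2 ((re_le_norm z).trans hz)).trans
      (Real.exp_one_lt_d9.le.trans (by norm_num))
  refine ⟨cexp (I * γ * c) - 1 - I * γ * c, cexp (-(I * γ * c)) - 1 - -(I * γ * c), by ring, by ring,
    (Complex.norm_exp_sub_one_sub_id_le (by linarith)).trans h2,
    (Complex.norm_exp_sub_one_sub_id_le (by rw [norm_neg]; linarith)).trans (by rwa [norm_neg]),
    h3 _ (by linarith), h3 _ (by rw [norm_neg]; linarith)⟩

theorem bb_bd {γ : ℂ} (hγ : ‖γ‖ ≤ 2) (hc : |c| ≤ 1 / 2) (hh : 0 ≤ h) (hh' : h ≤ 1 / 12)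
    (h0 : 0 ≤ x) (h1 : x < 1) : bb h x c γ ≠ 0 ∧ ‖(bb h x c γ)⁻¹‖ ≤
      rexp (-(h * (1 - x ^ 2)) + 8 * h * c ^ 2 + 36 * h ^ 2 + c * h * (1 + x ^ 2) * γ.im) := by
  obtain ⟨r, r', e1, e2, b1, b2, b3, b4⟩ := exp_bd hγ hc
  have hx : x ^ 2 ≤ 1 := pow_le_one₀ h0 h1.le
  have hz : ‖h * (cexp (I * γ * c) - x ^ 2 * cexp (-(I * γ * c)))‖ ≤ 6 * h := by
    rw [norm_mul, Complex.norm_real, Real.norm_of_nonneg hh, mul_comm]
    refine mul_le_mul_of_nonneg_right ((norm_sub_le _ _).trans ?_) hh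
    rw [norm_mul, norm_pow, Complex.norm_real, Real.norm_of_nonneg h0]
    nlinarith [norm_nonneg (cexp (-(I * γ * c)))]
  refine ⟨(log_norm (by linarith)).1, (norm_one_add (by linarith)).2.trans
    (Real.exp_le_exp.2 ?_)⟩
  have h2 := pow_le_pow_left₀ (norm_nonneg _) hz 2
  have h3 : (h * (cexp (I * γ * c) - x ^ 2 * cexp (-(I * γ * c)))).re =
      h * (1 - x ^ 2) - c * h * (1 + x ^ 2) * γ.im + h * (r.re - x ^ 2 * r'.re) := by
    rw [e2, e1, ← ofReal_pow]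
    simp only [mul_re, mul_im, sub_re, sub_im, add_re, add_im, ofReal_re, ofReal_im, one_re, one_im,
      I_re, I_im]
    ring
  have h4 := abs_le.1 ((abs_re_le_norm r).trans b1)
  have h5 := abs_le.1 ((abs_re_le_norm r').trans b2)
  have h6 : -(8 * c ^ 2) ≤ r.re - x ^ 2 * r'.re := by nlinarith [sq_nonneg x, sq_nonneg c]
  rw [h3]
  nlinarith

theorem uu_bd {γ s : ℂ} (hs : s.re = 0) (hγ : ‖γ‖ ≤ 2) (hc : |c| ≤ 1 / 2) (hh : 0 ≤ h)
    (hh' : h ≤ 1 / 12) (h0 : 0 ≤ x) (h1 : x < 1) : ‖uu L h x c γ s‖ ≤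
      rexp (-(h * (1 - x ^ 2)) + 16 * h * c ^ 2 + 72 * h ^ 2 - (c - c * h * (1 + x ^ 2)) * γ.im) := by
  have e : ‖1 - x * cexp (L * s)‖ = ‖1 - x * cexp (-(L * s))‖ := by
    rw [← Complex.norm_conj]
    simp only [map_sub, map_one, map_mul, conj_ofReal, ← Complex.exp_conj]
    congr 4
    apply Complex.ext <;> simp [hs]
  have e2 : ‖(1 - x * cexp (L * s)) * (1 - x * cexp (-(L * s)))⁻¹‖ ≤ 1 := by
    rw [norm_mul, norm_inv, e]; exact mul_inv_le_one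
  rw [uu, norm_mul, norm_mul]
  refine (mul_le_mul (bb_bd hγ hc hh hh' h0 h1).2 (mul_le_of_le_one_right (norm_nonneg _) e2)
    (by positivity) (by positivity)).trans ?_
  rw [Complex.norm_exp, ← Real.exp_add]
  apply Real.exp_le_exp.2
  simp only [mul_re, mul_im, ofReal_re, ofReal_im, I_re, I_im]
  nlinarith [mul_nonneg hh (sq_nonneg c), sq_nonneg h]

theorem vv_bd {γ s : ℂ} (hs : s.re = 0) (hγ : ‖γ‖ ≤ 2) (hc : |c| ≤ 1 / 2) (hh : 0 ≤ h)
    (hh' : h ≤ 1 / 12) (h0 : 0 ≤ x) (h1 : x < 1) : ‖vv L h x c γ s‖ ≤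
      rexp (-(h * (1 - x ^ 2)) + 16 * h * c ^ 2 + 72 * h ^ 2 -
        (2 * c * h * x * Real.cos (L * s.im) - c * h * (1 + x ^ 2)) * γ.im) := by
  obtain ⟨r, r', e1, e2, b1, b2, b3, b4⟩ := exp_bd hγ hc
  have n1 : ‖cexp (L * s)‖ = 1 := by simp [Complex.norm_exp, hs]
  have n2 : ‖cexp (-(L * s))‖ = 1 := by simp [Complex.norm_exp, hs]
  have hhx : 0 ≤ h * x := mul_nonneg hh h0
  have hhx' : h * x ≤ h := mul_le_of_le_one_right hh h1.le
  have hz : ‖h * x * (cexp (I * γ * c) * cexp (L * s) -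
      cexp (-(I * γ * c)) * cexp (-(L * s)))‖ ≤ 6 * h := by
    rw [norm_mul, ← ofReal_mul, Complex.norm_real, Real.norm_of_nonneg hhx, mul_comm]
    refine mul_le_mul ((norm_sub_le _ _).trans ?_) hhx' hhx (by norm_num)
    rw [norm_mul, norm_mul, n1, n2]
    linarith
  rw [vv, norm_mul]
  refine (mul_le_mul (bb_bd hγ hc hh hh' h0 h1).2 (norm_one_add (by linarith)).1
    (by positivity) (by positivity)).trans ?_
  rw [← Real.exp_add]
  apply Real.exp_le_exp.2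
  have h2 := pow_le_pow_left₀ (norm_nonneg _) hz 2
  have h3 : (h * x * (cexp (I * γ * c) * cexp (L * s) -
      cexp (-(I * γ * c)) * cexp (-(L * s)))).re = -(2 * c * h * x * Real.cos (L * s.im) * γ.im) +
      h * x * ((r * cexp (L * s)).re - (r' * cexp (-(L * s))).re) := by
    rw [e2, e1]
    simp only [mul_re, mul_im, sub_re, sub_im, add_re, add_im, ofReal_re, ofReal_im, one_re, one_im,
      I_re, I_im, exp_re, exp_im, neg_re, neg_im, hs]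
    simp only [mul_zero, zero_mul, sub_zero, add_zero, neg_zero, Real.exp_zero, Real.cos_neg,
      Real.sin_neg]
    ring
  have h4 : (r * cexp (L * s)).re ≤ 4 * c ^ 2 :=
    (re_le_norm _).trans (by rw [norm_mul, n1, mul_one]; exact b1)
  have h5 := abs_le.1 ((abs_re_le_norm (r' * cexp (-(L * s)))).trans
    (by rw [norm_mul, n2, mul_one]; exact b2 : _ ≤ 4 * c ^ 2))
  have h6 : h * x * ((r * cexp (L * s)).re - (r' * cexp (-(L * s))).re) ≤ h * (8 * c ^ 2) :=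
    (mul_le_mul_of_nonneg_left (by linarith [h5.1]) hhx).trans
      (mul_le_mul_of_nonneg_right hhx' (by positivity))
  rw [h3]
  nlinarith

theorem at_sigma {σ : ℝ} (hx : x = rexp (-(L * σ))) {γ : ℂ} (hb : bb h x c γ ≠ 0) :
    uu L h x c γ σ = 0 ∧ vv L h x c γ σ = 1 := by
  have e1 : cexp (-(L * σ)) = x := by rw [hx]; push_cast; rfl
  have e2 : x * cexp (L * σ) = 1 := by rw [← e1, ← Complex.exp_add]; simp
  refine ⟨by simp [uu, e2], ?_⟩
  rw [vv, inv_mul_eq_one₀ hb, bb, e1]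
  linear_combination (-(h * cexp (I * γ * c))) * e2

end Pool.Agent.Lib.MP_68a45e_nt.Opt
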