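import Pool.Agent.Lib.MP_68a45e_nt.OptPrimal

set_option autoImplicit false

namespace Pool.Agent.Lib.MP_68a45e_nt.Opt

open Real Filter Topology Finset N9a2a6718

theorem theta_facts {σ T : ℝ} (hσ : 0 < σ) (hT : 0 < T) (θ t : ℝ)
    (ht : t = (mob σ (Complex.exp (θ * Complex.I))).im) : |sin θ| ≤ 2 / T ∨ (|t| ≤ σ * T ∧
      log ((3 * σ) ^ 2 + t ^ 2) - log ((2 * σ) ^ 2 + t ^ 2) = prof θ) := by
  have sc := sin_sq_add_cos_sq θ
  have c1 := neg_one_le_cos θ
  have c2 := cos_le_one θ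
  by_cases h : T * (1 + cos θ) ≤ |sin θ|
  · left
    rw [le_div_iff₀ hT]
    rcases (abs_nonneg (sin θ)).eq_or_lt with h0 | h0
    · rw [← h0]; norm_num
    · have := sq_abs (sin θ)
      have : |sin θ| * T * |sin θ| ≤ 2 * |sin θ| := by nlinarith [mul_nonneg hT.le (sq_nonneg (1 + cos θ))]
      exact le_of_mul_le_mul_right this h0
  · right
    push Not at h
    have hc : 0 < 1 + cos θ := pos_of_mul_pos_left ((abs_nonneg _).trans_lt (mul_comm T _ ▸ h)) hT.le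
    have e : t = -σ * sin θ / (1 + cos θ) := by
      rw [ht, mob, Complex.div_im, ← sub_div, Complex.normSq_apply]
      simp only [Complex.mul_im, Complex.mul_re, Complex.ofReal_re, Complex.ofReal_im, Complex.sub_im,
        Complex.sub_re, Complex.add_re, Complex.add_im, Complex.one_re, Complex.one_im,
        Complex.exp_ofReal_mul_I_re, Complex.exp_ofReal_mul_I_im]
      rw [div_eq_div_iff (by nlinarith) hc.ne']
      linear_combination (σ * sin θ) * sc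
    have e2 : t ^ 2 = σ ^ 2 * (1 - cos θ) / (1 + cos θ) := by
      rw [e]; field_simp; linear_combination sc
    constructor
    · rw [e, abs_div, abs_mul, abs_neg, abs_of_pos hσ, abs_of_pos hc, div_le_iff₀ hc, mul_assoc]
      exact mul_le_mul_of_nonneg_left h.le hσ.le
    · rw [← log_div (by positivity) (by positivity), prof]
      congr 1
      rw [div_eq_div_iff (by positivity) (by linarith), e2]
      field_simp
      ring

theorem prof_bd (θ : ℝ) : 0 ≤ prof θ ∧ prof θ ≤ 1 := by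
  have c1 := neg_one_le_cos θ
  have c2 := cos_le_one θ
  have p : 0 < 5 + 3 * cos θ := by linarith
  refine ⟨log_nonneg ((one_le_div p).2 (by linarith)), ?_⟩
  rw [prof, log_le_iff_le_exp (div_pos (by linarith) p), div_le_iff₀ p]
  nlinarith [exp_one_gt_d9]

theorem Y_case {X E Mt N K δ f : ℝ} (hX : 0 ≤ X) (hE : |E| ≤ X / (250 * K))
    (hM : |Mt - δ * K * f| ≤ δ / 10) (hN : N ≤ 2 * (δ * K)) (f0 : 0 ≤ f) (f1 : f ≤ 1) (hK : 1 ≤ K)
    (d0 : 0 < δ) (d1 : δ ≤ 1 / 2) :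
    1 + ((if X ≤ 10 * (δ * K) then X - N else 0) + δ * K * f) ^ 2 ≤
      3 * (1 + (X - E + Mt - N) ^ 2) := by
  have a0 : δ ≤ δ * K := le_mul_of_one_le_right d0.le hK
  rw [abs_le] at hM
  split_ifs with h
  · have h1 : X / (250 * K) ≤ δ / 25 := by
      rw [div_le_iff₀ (by positivity)]; linarith
    have h2 := abs_le.1 (hE.trans h1)
    have h3 : (E - (Mt - δ * K * f)) ^ 2 ≤ 1 := by
      rw [sq_le_one_iff_abs_le_one, abs_le]; constructor <;> linarith [h2.1, h2.2, hM.1, hM.2]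
    have e : X - N + δ * K * f = (X - E + Mt - N) + (E - (Mt - δ * K * f)) := by ring
    rw [e]
    nlinarith [sq_nonneg ((X - E + Mt - N) - (E - (Mt - δ * K * f))), sq_nonneg (X - E + Mt - N)]
  · push Not at h
    have h1 : X / (250 * K) ≤ X / 250 := by gcongr; linarith
    have h2 := abs_le.1 (hE.trans h1)
    have h3 : δ * K * f ≤ δ * K := mul_le_of_le_one_right (by positivity) f1
    have h4 : 0 ≤ δ * K * f := by positivity
    have h5 : δ * K * f ≤ X - E + Mt - N := by linarith [h2.2, hM.1]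
    nlinarith [pow_le_pow_left₀ h4 h5 2, sq_nonneg (X - E + Mt - N)]

theorem stirling (k : ℕ) : ((k + 1).factorial : ℝ) ≤
    exp 1 * √(k + 1) * (((k:ℝ) + 1) ^ (k + 1) * exp (-((k:ℝ) + 1))) := by
  have h := Stirling.stirlingSeq'_antitone (Nat.zero_le k)
  simp only [Function.comp, Nat.succ_eq_add_one, zero_add, Stirling.stirlingSeq_one] at h
  rw [Stirling.stirlingSeq, div_le_iff₀ (by positivity)] at h
  refine h.trans (le_of_eq ?_)
  push_cast
  rw [sqrt_mul (by norm_num), div_pow, ← exp_nat_mul, exp_neg]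
  push_cast
  field_simp

open Classical in
theorem abs_bound (k w : ℕ) (w0 : 2000 * (k + 1) ^ 2 ≤ w) (A : ℕ → ℕ → Prop) (o : ℕ → ℕ → ℝ)
    (g H : ℕ → ℝ) (per : ∀ p m n, m ≡ n [MOD p] → (A p m ↔ A p n))
    (oper : ∀ p m n, m ≡ n [MOD p] → o p m = o p n) (o0 : ∀ p n, 0 ≤ o p n)
    (o1 : ∀ p : ℕ, p.Prime → ∑ m ∈ range p, o p m = p)
    (og : ∀ p : ℕ, p.Prime → ∑ m ∈ range p, (if A p m then o p m else 0) = p * g p)
    (g1 : ∀ p : ℕ, p.Prime → g p ≤ 1) (hH : ∀ p : ℕ, p.Prime → w < p → g p = H p * (1 - g p) ∧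
      |H p - (k + 1) * (p:ℝ)⁻¹| ≤ 4 * (k + 1) ^ 2 * ((p:ℝ) ^ 2)⁻¹) :
    ∀ᶠ D : ℕ in atTop, ∀ z : ℕ, ∃ Z, z ≤ Z ∧ ∀ l : ℕ → ℕ → ℝ,
      (∀ n, (∀ p ∈ pr 0 Z, o p n ≠ 0) → 0 ≤ ∑ q ∈ Icc 1 D, l q (n % q)) →
      (∀ n, (∀ p ∈ pr 0 Z, o p n ≠ 0) → (∀ p ∈ pr 0 Z, ¬ A p n) →
        1 ≤ ∑ q ∈ Icc 1 D, l q (n % q)) →
      1 / 10 ^ 6 * (2 ^ (k + 1) * (k + 1).factorial * ((∏ p ∈ pr 0 w, (1 - g p)) *
        rexp (-((k + 1) * ∑ p ∈ pr 0 w, Real.log (1 - (p:ℝ)⁻¹)))) / log D ^ (k + 1)) ≤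
        ∑ q ∈ Icc 1 D, (∑ r ∈ range q, l q r * ∏ p ∈ pr 0 Z, if p ∣ q then o p r else 1) / q := by
  obtain ⟨K, hK⟩ : ∃ K : ℝ, K = k + 1 := ⟨_, rfl⟩
  have K1 : 1 ≤ K := by rw [hK]; linarith [Nat.cast_nonneg (α := ℝ) k]
  have w1 : 2000 * K ^ 2 ≤ w := by rw [hK]; exact_mod_cast w0
  rw [← hK] at hH ⊢
  have w3 : (1000:ℝ) ≤ w := by nlinarith
  have w4 : 1000 ≤ w := by exact_mod_cast w3
  obtain ⟨η, hη, hps⟩ := prime_sum w (by omega) (1 / (1000 * K)) (by positivity)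
  filter_upwards [(tendsto_log_atTop.comp tendsto_natCast_atTop_atTop).eventually_gt_atTop
    (K * (3 + K) / η)] with D hD z
  obtain ⟨Λ, hΛ⟩ : ∃ Λ : ℝ, Λ = log D := ⟨_, rfl⟩
  rw [Function.comp, ← hΛ] at hD
  have Λ0 : 0 < Λ := lt_trans (by positivity) hD
  obtain ⟨σ, hσ⟩ : ∃ σ : ℝ, σ = K / Λ := ⟨_, rfl⟩
  have σ0 : 0 < σ := by rw [hσ]; positivity
  have σ1 : 3 * σ + σ * K < η := by
    rw [div_lt_iff₀ hη] at hD
    rw [hσ, ← mul_comm (K / Λ), ← mul_add, div_mul_eq_mul_div, div_lt_iff₀ Λ0]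
    linarith
  obtain ⟨Z₀, hZ⟩ := hps σ σ0
  obtain ⟨Z, Z1, Z2, Z3⟩ : ∃ Z, Z₀ ≤ Z ∧ z ≤ Z ∧ w ≤ Z := ⟨Z₀ + z + w, by omega, by omega, by omega⟩
  replace hZ := hZ Z Z1
  refine ⟨Z, Z2, fun l hl0 hl1 => ?_⟩
  set β := ∑ p ∈ pr 0 w, Real.log (1 - (p:ℝ)⁻¹) with hβ
  have wi : K ^ 2 * (w:ℝ)⁻¹ ≤ 1 / 2000 := by
    rw [← div_eq_mul_inv, div_le_div_iff₀ (by linarith) (by norm_num)]; linarith
  have wi2 : K * (1 / (1000 * K) + (w:ℝ)⁻¹) ≤ 1 / 500 := by
    have : K * (w:ℝ)⁻¹ ≤ K ^ 2 * (w:ℝ)⁻¹ := by gcongr; nlinarith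
    have e : K * (1 / (1000 * K)) = 1 / 1000 := by field_simp
    linarith
  obtain ⟨r, hr⟩ : ∃ r : ℝ, r = √K := ⟨_, rfl⟩
  have r2 : r ^ 2 = K := by rw [hr, sq_sqrt (by linarith)]
  have r1 : 1 ≤ r := by rw [hr]; exact one_le_sqrt.2 K1
  obtain ⟨δ, hδ⟩ : ∃ δ : ℝ, δ = 1 / (2 * r) := ⟨_, rfl⟩
  have d0 : 0 < δ := by rw [hδ]; positivity
  have d1 : δ ≤ 1 / 2 := by rw [hδ]; gcongr; linarith
  have d2 : δ * K = r / 2 := by rw [hδ, ← r2]; field_simp
  have d3 : δ ^ 2 * K = 1 / 4 := by rw [hδ, ← r2]; field_simp; norm_num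
  set x : ℕ → ℝ := fun p => exp (-(log p * σ)) with hx
  have x0 : ∀ p, 0 < x p := fun p => exp_pos _
  have x1 : ∀ p, x p ≤ 1 := fun p => exp_le_one_iff.2 (by
    have := log_natCast_nonneg p
    rw [neg_nonpos]; positivity)
  have x2 : ∀ p : ℕ, exp (-(log p * (2 * σ))) = x p ^ 2 := fun p => by
    rw [hx, ← exp_nat_mul]; congr 1; push_cast; ring
  have x3 : ∀ p : ℕ, exp (-(log p * (3 * σ))) = x p ^ 3 := fun p => by
    rw [hx, ← exp_nat_mul]; congr 1; push_cast; ring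
  have x4 : ∀ p, 0 ≤ x p - x p ^ 2 ∧ x p - x p ^ 2 ≤ 1 / 4 := fun p =>
    ⟨by nlinarith [x0 p, x1 p], by nlinarith [sq_nonneg (x p - 1 / 2)]⟩
  set h : ℕ → ℝ := fun p => if w < p ∧ p.Prime then H p else 0 with hh
  set c : ℕ → ℝ := fun p => if w < p ∧ p.Prime then δ * (x p - x p ^ 2) else 0 with hc
  have hb : ∀ p : ℕ, w < p ∧ p.Prime → 0 < h p ∧ h p ≤ 2 * K * (p:ℝ)⁻¹ ∧
      |h p - K * (p:ℝ)⁻¹| ≤ 4 * K ^ 2 * ((p:ℝ) ^ 2)⁻¹ ∧ g p = h p * (1 - g p) := by
    intro p hp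
    have a1 : (w:ℝ) < p := by exact_mod_cast hp.1
    have a4 : (0:ℝ) < p := by linarith
    obtain ⟨a5, a6⟩ := hH p hp.2 hp.1
    have a7 : 4 * K ^ 2 * ((p:ℝ) ^ 2)⁻¹ < K * (p:ℝ)⁻¹ := by
      rw [← div_eq_mul_inv, ← div_eq_mul_inv, div_lt_div_iff₀ (by positivity) a4]
      have : 4 * K < p := by nlinarith
      nlinarith [mul_pos (show 0 < K by linarith) a4]
    have a8 := abs_le.1 a6
    simp only [hh, if_pos hp]
    exact ⟨by linarith [a8.1], by linarith [a8.2], a6, a5⟩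
  have h0 : ∀ p, 0 ≤ h p := fun p => by
    by_cases hp : w < p ∧ p.Prime
    exacts [(hb p hp).1.le, (if_neg hp).ge]
  have h1 : ∀ p, h p ≤ 1 / (500 * K) := fun p => by
    by_cases hp : w < p ∧ p.Prime
    · refine (hb p hp).2.1.trans ?_
      have a1 : (w:ℝ) < p := by exact_mod_cast hp.1
      rw [← div_eq_mul_inv, div_le_div_iff₀ (by linarith) (by positivity)]
      nlinarith
    · simp only [hh, if_neg hp]; positivity
  have big : ∀ p ∈ pr w Z, w < p ∧ p.Prime := fun p hp => ⟨(mem_pr.1 hp).1.1, (mem_pr.1 hp).2⟩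
  have c0 : ∀ p, 0 ≤ c p ∧ c p ≤ δ / 4 := fun p => by
    simp only [hc]
    split_ifs
    · exact ⟨mul_nonneg d0.le (x4 p).1, by nlinarith [(x4 p).2]⟩
    · exact ⟨le_rfl, by positivity⟩
  let d : Dat :=
    { U := pr 0 Z, A := A, o := o, g := g, h := h, c := c, σ := σ
      prime := fun p hp => (mem_pr.1 hp).2
      per := per
      oper := oper
      o0 := o0
      o1 := fun p hp => o1 p (mem_pr.1 hp).2
      og := fun p hp => og p (mem_pr.1 hp).2
      pos := σ0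
      h0 := h0
      h1 := fun p => (h1 p).trans (by gcongr; linarith)
      c1 := fun p => by rw [abs_of_nonneg (c0 p).1]; linarith [(c0 p).2]
      hc := fun p hp => by
        by_cases a : w < p ∧ p.Prime
        exacts [absurd hp (hb p a).1.ne', if_neg a]
      hg := fun p hp a => by
        have b : w < p ∧ p.Prime := by
          by_contra b
          exact a (if_neg b)
        exact (hb p b).2.2.2 }
  have red : ∀ φ : ℕ → ℝ, (∀ p, |φ p| ≤ 1) → |∑ p ∈ pr 0 Z, h p * φ p -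
      K * ∑ p ∈ pr w Z, (p:ℝ)⁻¹ * φ p| ≤ 1 / 500 := by
    intro φ hφ
    rw [sum_pr _ (Nat.zero_le w) Z3, sum_eq_zero (s := pr 0 w) fun p hp => by
      simp [hh, not_lt.2 (mem_pr.1 hp).1.2], zero_add, mul_sum, ← sum_sub_distrib]
    refine (abs_sum_le_sum_abs _ _).trans (le_trans
      (b := ∑ p ∈ pr w Z, 4 * K ^ 2 * ((p:ℝ) ^ 2)⁻¹) (sum_le_sum fun p hp => ?_) ?_)
    · rw [← mul_assoc, ← sub_mul, abs_mul]
      exact (mul_le_of_le_one_right (abs_nonneg _) (hφ p)).trans (hb p (big p hp)).2.2.1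
    · rw [← mul_sum]
      have := mul_le_mul_of_nonneg_left (sum_sq_le (w := w) (by omega) Z)
        (by positivity : 0 ≤ 4 * K ^ 2)
      linarith
  have q1 := abs_le.1 (hZ σ 0 le_rfl (by rw [abs_zero]; nlinarith))
  have q2 := abs_le.1 (hZ (2 * σ) 0 (by linarith) (by rw [abs_zero]; nlinarith))
  simp only [mul_zero, cos_zero, mul_one, ne_eq, OfNat.ofNat_ne_zero, not_false_eq_true, zero_pow,
    add_zero, log_pow, Nat.cast_ofNat, x2] at q1 q2
  have S1 : ∑ p ∈ pr 0 Z, h p * (x p - x p ^ 2) ≤ K := by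
    have a := (abs_le.1 (red (fun p => x p - x p ^ 2) fun p => by
      rw [abs_of_nonneg (x4 p).1]; linarith [(x4 p).2])).2
    simp only [mul_sub (_⁻¹ : ℝ), sum_sub_distrib] at a
    have b := log_two_lt_d9
    rw [log_mul two_ne_zero σ0.ne'] at q2
    have e := mul_le_mul_of_nonneg_left (show ∑ p ∈ pr w Z, (p:ℝ)⁻¹ * x p -
      ∑ p ∈ pr w Z, (p:ℝ)⁻¹ * x p ^ 2 ≤ 0.7 + 2 * (1 / (1000 * K) + (w:ℝ)⁻¹) by
        linarith [q1.2, q2.1]) (by linarith : 0 ≤ K)
    linarith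
  have S2 : ∑ p ∈ pr 0 Z, h p * x p ^ 2 ≤ K * (β - log (2 * σ)) + 1 / 250 := by
    have a := (abs_le.1 (red (fun p => x p ^ 2) fun p => by
      rw [abs_of_nonneg (sq_nonneg _)]; exact pow_le_one₀ (x0 p).le (x1 p))).2
    have e := mul_le_mul_of_nonneg_left (show ∑ p ∈ pr w Z, (p:ℝ)⁻¹ * x p ^ 2 ≤
      β - log (2 * σ) + (1 / (1000 * K) + (w:ℝ)⁻¹) by linarith [q2.2]) (by linarith : 0 ≤ K)
    linarith
  have S3 : ∑ p ∈ pr 0 Z, h p ^ 2 ≤ 1 / 250 := by
    rw [sum_pr _ (Nat.zero_le w) Z3, sum_eq_zero (s := pr 0 w) fun p hp => by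
      simp [hh, not_lt.2 (mem_pr.1 hp).1.2], zero_add]
    refine le_trans (b := ∑ p ∈ pr w Z, 4 * K ^ 2 * ((p:ℝ) ^ 2)⁻¹) (sum_le_sum fun p hp => ?_) ?_
    · exact (pow_le_pow_left₀ (h0 p) (hb p (big p hp)).2.1 2).trans
        (le_of_eq (by rw [← inv_pow]; ring))
    · rw [← mul_sum]
      have := mul_le_mul_of_nonneg_left (sum_sq_le (w := w) (by omega) Z)
        (by positivity : 0 ≤ 4 * K ^ 2)
      linarith
  have ch : ∀ p, c p * h p = δ * (h p * (x p - x p ^ 2)) := fun p => by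
    simp only [hc, hh]; split_ifs <;> ring
  have S4 : ∀ t, |t| ≤ σ * K → |∑ p ∈ pr 0 Z, 2 * c p * h p * x p * cos (log p * t) -
      δ * K * (log ((3 * σ) ^ 2 + t ^ 2) - log ((2 * σ) ^ 2 + t ^ 2))| ≤ δ / 10 := by
    intro t ht
    have a := abs_le.1 (red (fun p => x p ^ 2 * cos (log p * t) - x p ^ 3 * cos (log p * t))
      fun p => by
        rw [← sub_mul, abs_mul, abs_of_nonneg (by nlinarith [x4 p, x0 p])]
        exact mul_le_one₀ (by nlinarith [x4 p, x0 p, x1 p]) (abs_nonneg _) (abs_cos_le_one _))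
    have b2 := abs_le.1 (hZ (2 * σ) t (by linarith) (by linarith))
    have b3 := abs_le.1 (hZ (3 * σ) t (by linarith) (by linarith))
    simp only [x2, x3] at b2 b3
    simp only [mul_sub (_⁻¹ : ℝ), sum_sub_distrib] at a
    have e : ∑ p ∈ pr 0 Z, 2 * c p * h p * x p * cos (log p * t) = δ * (2 * ∑ p ∈ pr 0 Z,
        h p * (x p ^ 2 * cos (log p * t) - x p ^ 3 * cos (log p * t))) := by
      rw [mul_sum, mul_sum]
      exact sum_congr rfl fun p _ => by rw [mul_assoc 2, ch]; ring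
    rw [e, mul_assoc, ← mul_sub, abs_mul, abs_of_pos d0, div_eq_mul_one_div]
    refine mul_le_mul_of_nonneg_left (abs_le.2 ⟨?_, ?_⟩) d0.le
    · have := mul_le_mul_of_nonneg_left (add_le_add b2.1 (neg_le_neg b3.2)) (by linarith : 0 ≤ K)
      linarith [a.1]
    · have := mul_le_mul_of_nonneg_left (add_le_add b2.2 (neg_le_neg b3.1)) (by linarith : 0 ≤ K)
      linarith [a.2]
  obtain ⟨κ, κ1, κ2, κ3⟩ := d.core Λ (δ * K) (2 / K) (by positivity) (by positivity) (by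
    intro n
    set X := ∑ p ∈ pr 0 Z, if A p n then c p else 0 with hX
    set N := ∑ p ∈ pr 0 Z, c p * h p * (1 + x p ^ 2) with hN
    refine ⟨if X ≤ 10 * (δ * K) then X - N else 0, fun θ => ?_⟩
    set t := (mob d.σ (Complex.exp (θ * Complex.I))).im with ht
    rcases theta_facts σ0 (by linarith : 0 < K) θ t ht with a | ⟨a, b⟩
    · refine le_add_of_nonneg_of_le (by positivity) (le_trans ?_ a)
      exact div_le_self (abs_nonneg _) (by nlinarith [sq_nonneg (d.Y n t)])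
    refine le_add_of_le_of_nonneg ?_ (by positivity)
    have e : d.Y n t = X - (∑ p ∈ pr 0 Z, if A p n then
        2 * c p * h p * x p * cos (log p * t) else 0) +
        ∑ p ∈ pr 0 Z, 2 * c p * h p * x p * cos (log p * t) - N := by
      rw [hX, hN, ← sum_sub_distrib, ← sum_add_distrib, ← sum_sub_distrib]
      refine sum_congr rfl fun p _ => ?_
      change (if A p n then c p else 2 * c p * h p * x p * cos (log p * t)) - _ = _
      split_ifs
      · simp; rfl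
      · simp; rfl
    have key := Y_case (X := X) (N := N) (K := K) (δ := δ) (f := prof θ) (E := ∑ p ∈ pr 0 Z,
      if A p n then 2 * c p * h p * x p * cos (log p * t) else 0)
      (sum_nonneg fun p _ => by split_ifs; exacts [(c0 p).1, le_rfl]) (by
        rw [hX, sum_div]
        refine (abs_sum_le_sum_abs _ _).trans (sum_le_sum fun p _ => ?_)
        split_ifs
        · rw [abs_mul, abs_of_nonneg (by have := (c0 p).1; have := h0 p; have := x0 p; positivity)]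
          refine (mul_le_of_le_one_right (by have := (c0 p).1; have := h0 p; have := x0 p; positivity)
            (abs_cos_le_one _)).trans ((mul_le_of_le_one_right
              (by have := (c0 p).1; have := h0 p; positivity) (x1 p)).trans
            ((mul_le_mul_of_nonneg_left (h1 p) (by linarith [(c0 p).1])).trans (le_of_eq ?_)))
          field_simp; ring
        · simp) (b ▸ S4 t a) (by
        refine le_trans (b := ∑ p ∈ pr 0 Z, 2 * (δ * (h p * (x p - x p ^ 2))))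
          (sum_le_sum fun p _ => ?_) ?_
        · rw [← ch]
          nlinarith [mul_nonneg (c0 p).1 (h0 p), pow_le_one₀ (n := 2) (x0 p).le (x1 p)]
        · rw [← mul_sum, ← mul_sum]
          gcongr) (prof_bd θ).1 (prof_bd θ).2 K1 d0 d1
    rw [← e] at key
    rw [mul_div_assoc', div_le_div_iff₀ (by positivity) (by positivity)]
    nlinarith [mul_le_mul_of_nonneg_left key (abs_nonneg (sin θ))])
  have B0 : 0 < d.B := exp_pos _
  have hM := d.primal κ _ (by positivity) D κ1 (fun q r hq => κ2 q r (mem_Icc.1 hq).1 (by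
    rw [hΛ]
    exact log_le_log (by exact_mod_cast (mem_Icc.1 hq).1) (by exact_mod_cast (mem_Icc.1 hq).2)))
    κ3 l (fun n hn => hl0 n (prod_ne_zero_iff.1 hn)) fun n hn => hl1 n (prod_ne_zero_iff.1 hn)
  refine le_trans ?_ hM
  set V := ∏ p ∈ pr 0 w, (1 - g p) with hV
  have V0 : 0 ≤ V := prod_nonneg fun p hp => sub_nonneg.2 (g1 p (mem_pr.1 hp).2)
  have V1 : V * exp (-∑ p ∈ pr 0 Z, h p) ≤ ∏ p ∈ d.U, (1 - d.g p) := by
    have e : d.U = pr 0 w ∪ pr w Z := by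
      ext p
      simp only [d, mem_union, mem_pr]
      constructor
      · intro a
        by_cases b : p ≤ w
        exacts [Or.inl ⟨⟨a.1.1, b⟩, a.2⟩, Or.inr ⟨⟨by omega, a.1.2⟩, a.2⟩]
      · rintro (a | a) <;> exact ⟨⟨by omega, by omega⟩, a.2⟩
    rw [e, prod_union (disjoint_left.2 fun p a b => by
      have := (mem_pr.1 a).1.2
      have := (mem_pr.1 b).1.1
      omega), sum_pr _ (Nat.zero_le w) Z3, sum_eq_zero (s := pr 0 w) fun p hp => by
      simp [hh, not_lt.2 (mem_pr.1 hp).1.2], zero_add, ← sum_neg_distrib, exp_sum]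
    refine mul_le_mul_of_nonneg_left (prod_le_prod (fun _ _ => (exp_pos _).le) fun p hp => ?_) V0
    have b := (hb p (big p hp)).2.2.2
    have e2 : 1 - g p = (h p + 1)⁻¹ := eq_inv_of_mul_eq_one_right (by linarith)
    change _ ≤ 1 - g p
    rw [e2, exp_neg]
    exact inv_anti₀ (by linarith [h0 p]) (add_one_le_exp _)
  have B1 : d.B ≤ exp (-∑ p ∈ pr 0 Z, h p) * exp (K * (β - log (2 * σ))) * exp (13 / 10) := by
    rw [← exp_add, ← exp_add]
    refine exp_le_exp.2 (le_trans (b := ∑ p ∈ pr 0 Z, (-h p + h p * x p ^ 2 +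
      4 * δ ^ 2 * (h p * (x p - x p ^ 2)) + 72 * h p ^ 2)) (sum_le_sum fun p _ => ?_) ?_)
    · change -(h p * (1 - x p ^ 2)) + 16 * h p * c p ^ 2 + 72 * h p ^ 2 ≤ _
      have := mul_le_mul_of_nonneg_left (c0 p).2 (mul_nonneg (c0 p).1 (h0 p))
      have := ch p
      nlinarith
    · simp only [sum_add_distrib, ← mul_sum, sum_neg_distrib]
      nlinarith [mul_le_mul_of_nonneg_left S1 (sq_nonneg δ)]
  have e1 : Λ * d.σ = K := by change Λ * σ = K; rw [hσ]; field_simp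
  have e2 : 9000 / (δ * K) + 200 * (2 / K) ≤ 18400 / r := by
    have : 2 / K ≤ 2 / r := by gcongr; nlinarith
    rw [d2, div_div_eq_mul_div]
    have e : 18400 / r = 9000 * 2 / r + 200 * (2 / r) := by ring
    linarith
  have e3 : exp (K * (β - log (2 * σ))) = exp (K * β) * Λ ^ (k + 1) / (2 ^ (k + 1) * K ^ (k + 1)) := by
    rw [mul_sub, exp_sub, hK, ← Nat.cast_succ, exp_nat_mul _ (k + 1), exp_nat_mul,
      exp_log (by positivity), hσ, mul_pow, div_pow, Nat.cast_succ, ← hK]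
    field_simp
  have e4 : exp 1 * exp (13 / 10) ≤ 27 := by
    rw [← exp_add]
    refine (exp_le_exp.2 (by norm_num : (1:ℝ) + 13 / 10 ≤ (3:ℕ) * 1)).trans ?_
    rw [exp_nat_mul]
    exact (pow_le_pow_left₀ (exp_pos _).le (exp_one_lt_d9.le.trans (by norm_num : _ ≤ (3:ℝ))) 3).trans
      (by norm_num)
  have st := stirling k
  rw [← hK, ← hr] at st
  rw [← hΛ, e1]
  calc 1 / 10 ^ 6 * (2 ^ (k + 1) * (k + 1).factorial * (V * exp (-(K * β))) / Λ ^ (k + 1))
      ≤ 1 / 10 ^ 6 * (2 ^ (k + 1) * (exp 1 * r * (K ^ (k + 1) * exp (-K))) *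
        (V * exp (-(K * β))) / Λ ^ (k + 1)) := by gcongr
    _ = V * exp (-∑ p ∈ pr 0 Z, h p) / (exp K * (exp (-∑ p ∈ pr 0 Z, h p) *
        exp (K * (β - log (2 * σ))) * exp (13 / 10)) * (18400 / r)) *
          (exp 1 * exp (13 / 10) * 18400 / 10 ^ 6) := by
        rw [e3, exp_neg K, exp_neg (K * β)]
        field_simp
    _ ≤ _ := by
        refine (mul_le_of_le_one_right (by positivity) (by linarith)).trans ?_
        gcongr
        exact le_trans (by positivity) V1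

end Pool.Agent.Lib.MP_68a45e_nt.Opt
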