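import Pool.Agent.Lib.MP_68a45e_nt.OptLoc

set_option autoImplicit false

namespace Pool.Agent.Lib.MP_68a45e_nt.Opt

open Complex Real Filter Topology Finset

/-- primes in `(a, b]` -/
def pr (a b : ℕ) : Finset ℕ := (Ioc a b).filter Nat.Prime

theorem mem_pr {a b p : ℕ} : p ∈ pr a b ↔ (a < p ∧ p ≤ b) ∧ p.Prime := by
  simp [pr]

theorem sum_pr (f : ℕ → ℝ) {a b c : ℕ} (h1 : a ≤ b) (h2 : b ≤ c) :
    ∑ p ∈ pr a c, f p = ∑ p ∈ pr a b, f p + ∑ p ∈ pr b c, f p := by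
  simp only [pr, sum_filter]
  exact (sum_Ioc_consecutive _ h1 h2).symm

theorem primesBelow_eq (N : ℕ) : Nat.primesBelow (N + 1) = pr 0 N := by
  ext p
  rw [mem_pr, Nat.mem_primesBelow, Nat.lt_succ_iff]
  exact ⟨fun h => ⟨⟨h.2.pos, h.1⟩, h.2⟩, fun h => ⟨h.1.2, h.2⟩⟩

theorem sum_sq_le {w : ℕ} (hw : 0 < w) (Z : ℕ) : ∑ p ∈ pr w Z, ((p:ℝ) ^ 2)⁻¹ ≤ (w:ℝ)⁻¹ := by
  refine (sum_le_sum_of_subset_of_nonneg (filter_subset _ _) fun _ _ _ => by positivity).trans ?_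
  rcases le_total w Z with h | h
  · exact (sum_Ioc_inv_sq_le_sub hw.ne' h).trans (sub_le_self _ (by positivity))
  · rw [Ioc_eq_empty_of_le h]; simp

noncomputable def zz (p : ℕ) (s : ℂ) : ℂ := -cexp (-(Real.log p * (1 + s)))

noncomputable def ll (p : ℕ) (s : ℂ) : ℝ := -Real.log ‖1 + zz p s‖

theorem zz_norm {p : ℕ} (hp : p.Prime) (s : ℂ) :
    ‖zz p s‖ = (p:ℝ)⁻¹ * rexp (-(Real.log p * s.re)) ∧
    -(zz p s).re = (p:ℝ)⁻¹ * (rexp (-(Real.log p * s.re)) * Real.cos (Real.log p * s.im)) := by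
  have h : (0:ℝ) < p := by exact_mod_cast hp.pos
  have e : rexp (-(Real.log p * (1 + s) : ℂ)).re = (p:ℝ)⁻¹ * rexp (-(Real.log p * s.re)) := by
    rw [neg_re, re_ofReal_mul, add_re, one_re, mul_add, neg_add, Real.exp_add, mul_one,
      Real.exp_neg, Real.exp_log h]
  refine ⟨by rw [zz, norm_neg, Complex.norm_exp, e], ?_⟩
  rw [zz, neg_re, neg_neg, exp_re, e, neg_im, im_ofReal_mul, Real.cos_neg, mul_assoc]
  simp

theorem zz_le {p : ℕ} (hp : p.Prime) {s : ℂ} (hs : 0 ≤ s.re) :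
    ‖zz p s‖ ≤ (p:ℝ)⁻¹ ∧ ‖zz p s‖ ≤ 1 / 2 := by
  have h : (2:ℝ) ≤ p := by exact_mod_cast hp.two_le
  have h1 : ‖zz p s‖ ≤ (p:ℝ)⁻¹ := by
    rw [(zz_norm hp s).1]
    refine mul_le_of_le_one_right (by positivity) (Real.exp_le_one_iff.2 ?_)
    have := Real.log_natCast_nonneg p
    rw [neg_nonpos]; positivity
  exact ⟨h1, h1.trans (by rw [one_div]; exact inv_anti₀ (by norm_num) h)⟩

theorem ll_tendsto {s : ℂ} (hs : 0 < s.re) :
    Tendsto (fun N => ∑ p ∈ pr 0 N, ll p s) atTop (𝓝 (Real.log ‖riemannZeta (1 + s)‖)) := by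
  have h1 : 1 < (1 + s).re := by simpa using hs
  have h2 := ((riemannZeta_eulerProduct h1).comp (tendsto_add_atTop_nat 1)).norm.log
    (norm_ne_zero_iff.2 (riemannZeta_ne_zero_of_one_lt_re h1))
  refine h2.congr fun N => ?_
  have e : ∀ p ∈ pr 0 N, (1 - (p:ℂ) ^ (-(1 + s))) = 1 + zz p s := by
    intro p hp
    have hp' := (mem_pr.1 hp).2
    rw [zz, cpow_def_of_ne_zero (by exact_mod_cast hp'.pos.ne'), ← natCast_log, mul_neg,
      sub_eq_add_neg]
  simp only [Function.comp, primesBelow_eq]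
  rw [norm_prod, Real.log_prod]
  · exact sum_congr rfl fun p hp => by rw [e p hp, norm_inv, Real.log_inv, ll]
  · intro p hp
    rw [e p hp, norm_ne_zero_iff]
    exact inv_ne_zero (log_norm (zz_le (mem_pr.1 hp).2 hs.le).2).1

/-- sums over primes near the pole of the zeta function -/
theorem prime_sum (w : ℕ) (hw : 0 < w) (ε : ℝ) (hε : 0 < ε) : ∃ η > 0, ∀ σ > 0, ∃ Z₀ : ℕ, ∀ Z ≥ Z₀,
    ∀ a t : ℝ, σ ≤ a → a + |t| < η →
      |∑ p ∈ pr w Z, (p:ℝ)⁻¹ * (rexp (-(Real.log p * a)) * Real.cos (Real.log p * t)) +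
        Real.log (a ^ 2 + t ^ 2) / 2 - ∑ p ∈ pr 0 w, Real.log (1 - (p:ℝ)⁻¹)| ≤ ε + (w:ℝ)⁻¹ := by
  have t1 : Tendsto (fun s : ℂ => Real.log ‖s * riemannZeta (1 + s)‖) (𝓝[≠] 0) (𝓝 0) := by
    have a : Tendsto (fun s : ℂ => 1 + s) (𝓝[≠] 0) (𝓝[≠] 1) := by
      refine tendsto_nhdsWithin_iff.2 ⟨?_, ?_⟩
      · have : Continuous fun s : ℂ => 1 + s := by fun_prop
        simpa using (this.tendsto 0).mono_left nhdsWithin_le_nhds
      · filter_upwards [self_mem_nhdsWithin] with s hs using by simpa using hs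
    simpa using (riemannZeta_residue_one.comp a).norm.log (by simp)
  have t2 : Tendsto (fun s : ℂ => ∑ p ∈ pr 0 w, ll p s) (𝓝[≠] 0)
      (𝓝 (-∑ p ∈ pr 0 w, Real.log (1 - (p:ℝ)⁻¹))) := by
    rw [← sum_neg_distrib]
    refine (tendsto_finsetSum _ fun p hp => ?_).mono_left nhdsWithin_le_nhds
    have hp' := (mem_pr.1 hp).2
    have h : (1:ℝ) < p := by exact_mod_cast hp'.one_lt
    have e : ‖1 + zz p 0‖ = 1 - (p:ℝ)⁻¹ := by
      rw [zz, add_zero, mul_one, ← ofReal_neg, ← ofReal_exp, Real.exp_neg,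
        Real.exp_log (by linarith), ← sub_eq_add_neg, ← ofReal_one, ← ofReal_sub,
        Complex.norm_real, Real.norm_of_nonneg (sub_nonneg.2 (inv_le_one_of_one_le₀ h.le))]
    have c : ContinuousAt (ll p) 0 := by
      refine (ContinuousAt.log (by unfold zz; fun_prop) ?_).neg
      rw [e]
      exact (sub_pos.2 (inv_lt_one_of_one_lt₀ h)).ne'
    simpa [ll, e] using c.tendsto
  have t3 := (Metric.tendsto_nhds.1 (t1.sub t2)) (ε / 2) (by positivity)
  rw [eventually_nhdsWithin_iff, Metric.eventually_nhds_iff] at t3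
  obtain ⟨η, hη, t3⟩ := t3
  refine ⟨η, hη, fun σ hσ => ?_⟩
  obtain ⟨S, hS⟩ := summable_iff_vanishing_norm.1
    (Real.summable_nat_rpow.2 (show -1 - σ < -1 by linarith)) (ε / 4) (by positivity)
  refine ⟨max w (S.sup id), fun Z hZ a t ha hat => ?_⟩
  set s : ℂ := ⟨a, t⟩ with hs
  have hre : 0 < s.re := by simp only [hs]; linarith
  have hs0 : s ≠ 0 := fun h => by rw [h] at hre; simp at hre
  have h1 := t3 (y := s) (by
    rw [dist_zero_right]
    refine (norm_le_abs_re_add_abs_im s).trans_lt ?_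
    rwa [abs_of_pos hre]) hs0
  have hζ := riemannZeta_ne_zero_of_one_lt_re (s := 1 + s) (by simpa using hre)
  rw [norm_mul, Real.log_mul (norm_ne_zero_iff.2 hs0) (norm_ne_zero_iff.2 hζ), Real.dist_eq] at h1
  have e1 : Real.log ‖s‖ = Real.log (a ^ 2 + t ^ 2) / 2 := by
    rw [Complex.norm_eq_sqrt_sq_add_sq, Real.log_sqrt (by positivity)]
  have h2 : |Real.log ‖riemannZeta (1 + s)‖ - ∑ p ∈ pr 0 Z, ll p s| ≤ ε / 2 := by
    refine le_of_tendsto ((ll_tendsto hre).sub_const _).abs ?_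
    filter_upwards [eventually_ge_atTop Z] with N hN
    rw [sum_pr _ (Nat.zero_le Z) hN, add_sub_cancel_left]
    have h3 := hS (pr Z N) (disjoint_left.2 fun p hp hp' => by
      have := (mem_pr.1 hp).1.1
      have : p ≤ S.sup id := le_sup (f := id) hp'
      omega)
    refine (abs_sum_le_sum_abs _ _).trans (le_trans (b := 2 * ∑ p ∈ pr Z N, (p:ℝ) ^ (-1 - σ)) ?_ ?_)
    · rw [mul_sum]
      refine sum_le_sum fun p hp => ?_
      have hp' := (mem_pr.1 hp).2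
      have h4 := (zz_le hp' hre.le).2
      have h5 := (log_norm h4).2
      have h6 := abs_re_le_norm (zz p s)
      have h7 : ‖zz p s‖ ≤ (p:ℝ) ^ (-1 - σ) := by
        have h : (0:ℝ) < p := by exact_mod_cast hp'.pos
        have := Real.log_natCast_nonneg p
        rw [(zz_norm hp' s).1, sub_eq_add_neg, Real.rpow_add h, Real.rpow_neg_one,
          Real.rpow_def_of_pos h, mul_neg]
        gcongr
      rw [ll, abs_neg]
      rw [abs_le] at h5 h6 ⊢
      constructor <;> nlinarith [norm_nonneg (zz p s), h5.1, h5.2, h6.1, h6.2]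
    · linarith [le_abs_self (∑ p ∈ pr Z N, (p:ℝ) ^ (-1 - σ)), Real.norm_eq_abs
        (∑ p ∈ pr Z N, (p:ℝ) ^ (-1 - σ))]
  have h3 : |∑ p ∈ pr w Z, ll p s - ∑ p ∈ pr w Z,
      (p:ℝ)⁻¹ * (rexp (-(Real.log p * a)) * Real.cos (Real.log p * t))| ≤ (w:ℝ)⁻¹ := by
    rw [← sum_sub_distrib]
    refine (abs_sum_le_sum_abs _ _).trans (le_trans (sum_le_sum fun p hp => ?_) (sum_sq_le hw Z))
    have hp' := (mem_pr.1 hp).2
    have h4 := zz_le hp' hre.le
    rw [← (zz_norm hp' s).2, ll, neg_sub_neg, abs_sub_comm, ← inv_pow]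
    exact (log_norm h4.2).2.trans (pow_le_pow_left₀ (norm_nonneg _) h4.1 2)
  rw [sum_pr _ (Nat.zero_le w) (le_of_max_le_left hZ)] at h2
  rw [abs_lt] at h1
  rw [abs_le] at h2 h3 ⊢
  constructor <;> linarith [h1.1, h1.2, h2.1, h2.2, h3.1, h3.2]

end Pool.Agent.Lib.MP_68a45e_nt.Opt
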