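import Pool.Agent.Lib.MP_68a45e_nt.OptCore
import Pool.Agent.Lib.MP_68a45e_nt.OptZeta
import Pool.Prelude.Def_F_c8bfdf43

set_option autoImplicit false

namespace Pool.Agent.Lib.MP_68a45e_nt.Opt

open Real Filter Topology Finset N9a2a6718

theorem sum_mul_range (F : ℕ → ℝ) (q M : ℕ) :
    ∑ n ∈ range (q * M), F n = ∑ m ∈ range M, ∑ r ∈ range q, F (r + q * m) := by
  induction M with
  | zero => simp
  | succ M ih =>
    rw [mul_add, mul_one, sum_range_add, ih, sum_range_succ]
    simp only [add_comm (q * M)]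

theorem sum_per (F : ℕ → ℝ) (P j : ℕ) (hF : ∀ m n, m ≡ n [MOD P] → F m = F n) :
    ∑ n ∈ range (P * j), F n = j * ∑ m ∈ range P, F m := by
  rw [sum_mul_range, sum_congr rfl (g := fun _ => ∑ m ∈ range P, F m), sum_const, card_range,
    nsmul_eq_mul]
  exact fun i _ => sum_congr rfl fun r _ => hF _ _ (by simp [Nat.ModEq])

theorem Dat.ind_per (d : Dat) (m n : ℕ) (h : m ≡ n [MOD ∏ p ∈ d.U, p]) : d.ind m = d.ind n := by
  have := d.W_sigma m (γ := 0) (by simp)
  rw [d.W_per h, d.W_sigma n (by simp)] at this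
  exact_mod_cast this.symm

theorem Dat.O_per (d : Dat) (m n : ℕ) (h : m ≡ n [MOD ∏ p ∈ d.U, p]) : d.O m = d.O n :=
  prod_congr rfl fun p hp => d.oper p m n (h.of_dvd (dvd_prod_of_mem _ hp))

theorem Dat.sum_ind (d : Dat) : ∑ m ∈ range (∏ p ∈ d.U, p), d.O m * d.ind m =
    (∏ p ∈ d.U, p : ℕ) * ∏ p ∈ d.U, (1 - d.g p) := by
  classical
  have := d.class_prod (fun _ => 0) (fun _ => 1) 1 0
  have e : ∀ m, (∏ p ∈ d.U, if d.A p m then (0:ℂ) else 1) = d.ind m := by
    intro m
    unfold Dat.ind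
    split_ifs with h
    · exact prod_eq_one fun p hp => if_neg (h p hp)
    · push Not at h
      obtain ⟨p, hp, ha⟩ := h
      exact prod_eq_zero hp (if_pos ha)
  replace this := this.trans (prod_congr rfl fun p hp => by rw [if_neg (d.prime p hp).not_dvd_one])
  simp only [e, mul_zero, zero_add, mul_one, one_mul, prod_mul_distrib] at this
  rw [← Nat.cast_prod] at this
  exact_mod_cast this

theorem Dat.sum_O (d : Dat) (q r : ℕ) : ∑ m ∈ range (∏ p ∈ d.U, p), d.O (r + q * m) =
    (∏ p ∈ d.U, p : ℕ) * ∏ p ∈ d.U, if p ∣ q then d.o p r else 1 := by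
  have := d.class_prod (fun _ => 1) (fun _ => 1) q r
  simp only [ite_self, prod_const_one, mul_one, add_sub_cancel, prod_mul_distrib] at this
  rw [← Nat.cast_prod] at this
  apply Complex.ofReal_injective
  push_cast [apply_ite Complex.ofReal] at this ⊢
  exact this

theorem Dat.primal (d : Dat) (κ : ℕ → ℝ) (M : ℝ) (hM : 0 < M) (D : ℕ)
    (h1 : ∀ m n, m ≡ n [MOD ∏ p ∈ d.U, p] → κ m = κ n)
    (h2 : ∀ q r : ℕ, q ∈ Icc 1 D → ∑ m ∈ range (∏ p ∈ d.U, p), d.O (r + q * m) * κ (r + q * m) =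
      ∑ m ∈ range (∏ p ∈ d.U, p), d.O (r + q * m) * d.ind (r + q * m))
    (h3 : ∀ n, κ n ≤ M) (l : ℕ → ℕ → ℝ)
    (h4 : ∀ n, d.O n ≠ 0 → 0 ≤ ∑ q ∈ Icc 1 D, l q (n % q))
    (h5 : ∀ n, d.O n ≠ 0 → (∀ p ∈ d.U, ¬ d.A p n) → 1 ≤ ∑ q ∈ Icc 1 D, l q (n % q)) :
    (∏ p ∈ d.U, (1 - d.g p)) / M ≤ ∑ q ∈ Icc 1 D,
      (∑ r ∈ range q, l q r * ∏ p ∈ d.U, if p ∣ q then d.o p r else 1) / q := by
  set P := ∏ p ∈ d.U, p with hP
  have hP0 : 0 < P := prod_pos fun p hp => (d.prime p hp).pos
  set w : ℕ → ℝ := fun n => d.O n - d.O n * κ n / M + d.O n * d.ind n / M with hw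
  have wp : ∀ m n, m ≡ n [MOD P] → w m = w n := fun m n h => by
    simp only [hw, h1 m n h, d.ind_per m n h, d.O_per m n h]
  have e1 : ∀ q ∈ Icc 1 D, ∑ n ∈ range (P * D.factorial), l q (n % q) * w n =
      (P * D.factorial : ℕ) *
        ((∑ r ∈ range q, l q r * ∏ p ∈ d.U, if p ∣ q then d.o p r else 1) / q) := by
    intro q hq
    have hq' := mem_Icc.1 hq
    obtain ⟨j, hj⟩ := Nat.dvd_factorial hq'.1 hq'.2
    rw [hj, mul_left_comm, sum_mul_range, sum_comm]
    have : ∀ r ∈ range q, ∑ m ∈ range (P * j), l q ((r + q * m) % q) * w (r + q * m) =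
        (l q r * ∏ p ∈ d.U, if p ∣ q then d.o p r else 1) * (j * P) := by
      intro r hr
      simp only [Nat.add_mul_mod_self_left, Nat.mod_eq_of_lt (mem_range.1 hr)]
      rw [← mul_sum, sum_per (fun m => w (r + q * m)) P j
        fun m n h => wp _ _ ((h.mul_left q).add_left r)]
      simp only [hw, sum_add_distrib, sum_sub_distrib, ← sum_div, h2 q r hq]
      rw [hP, d.sum_O]
      ring
    rw [sum_congr rfl this, ← sum_mul]
    have : (q:ℝ) ≠ 0 := by exact_mod_cast (show q ≠ 0 by omega)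
    push_cast
    field_simp
  have e2 : ∑ n ∈ range (P * D.factorial), d.O n * d.ind n / M ≤
      ∑ n ∈ range (P * D.factorial), (∑ q ∈ Icc 1 D, l q (n % q)) * w n := by
    refine sum_le_sum fun n _ => ?_
    have o0 : 0 ≤ d.O n := prod_nonneg fun p _ => d.o0 p n
    rcases o0.eq_or_lt with o1 | o1
    · simp [hw, ← o1]
    have a : d.O n * κ n / M ≤ d.O n := by
      rw [div_le_iff₀ hM]; exact mul_le_mul_of_nonneg_left (h3 n) o0
    have b := h4 n o1.ne'
    simp only [hw]
    unfold Dat.ind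
    split_ifs with h
    · have := h5 n o1.ne' h
      have c : 0 < d.O n * 1 / M := by positivity
      nlinarith
    · simpa using mul_nonneg b (sub_nonneg.2 a)
  simp only [sum_mul] at e2
  rw [sum_comm, sum_congr rfl e1, ← mul_sum, ← sum_div, sum_per (fun n => d.O n * d.ind n) _ _
    (fun m n h => by simp only [d.ind_per m n h, d.O_per m n h]), d.sum_ind] at e2
  have : (0:ℝ) < (P * D.factorial : ℕ) := by exact_mod_cast Nat.mul_pos hP0 D.factorial_pos
  refine le_of_mul_le_mul_left (le_of_eq_of_le ?_ e2) this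
  push_cast [hP]
  ring

variable {k : ℕ}

/-- the removed classes of the tuple -/
def Bad (m : Fin k.succ → ℕ) (p n : ℕ) : Prop := ∃ i, p ∣ n + 2 * m i

theorem bad_per (m : Fin k.succ → ℕ) (p a b : ℕ) (h : a ≡ b [MOD p]) : Bad m p a ↔ Bad m p b :=
  exists_congr fun i => (h.add_right (2 * m i)).dvd_iff dvd_rfl

theorem dens_card (m : Fin k.succ → ℕ) {p : ℕ} (hp : 0 < p) :
    dens (Bad m) p = (univ.image fun i => -2 * (m i : ZMod p)).card / p := by
  classical
  have : NeZero p := ⟨hp.ne'⟩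
  have key : ∀ n : ℕ, Bad m p n ↔ (n : ZMod p) ∈ univ.image fun i => -2 * (m i : ZMod p) := by
    intro n
    simp only [Bad, Finset.mem_image, mem_univ, true_and]
    refine exists_congr fun i => ?_
    rw [← ZMod.natCast_eq_zero_iff]
    push_cast
    constructor <;> intro h <;> linear_combination -h
  unfold dens
  congr 2
  refine card_nbij' (fun n => (n : ZMod p)) (fun x => x.val) ?_ ?_ ?_ ?_
  · intro n hn
    exact (key n).1 (mem_filter.1 hn).2
  · intro x hx
    refine mem_coe.2 (mem_filter.2 ⟨mem_range.2 (ZMod.val_lt x), (key _).2 ?_⟩)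
    rwa [ZMod.natCast_zmod_val]
  · intro n hn
    exact ZMod.val_cast_of_lt (mem_range.1 (mem_filter.1 hn).1)
  · intro x _
    exact ZMod.natCast_zmod_val x

theorem numRes_eq (m : Fin k.succ → ℕ) (q : ℕ) : N9a2a6718.Nat.numResidues q m =
    (univ.image (fun i => (m i : ZMod q))).card := by
  rw [N9a2a6718.Nat.numResidues, ← Set.ncard_coe_finset, coe_image, coe_univ, Set.image_univ]

theorem res_big (m : Fin k.succ → ℕ) (hm : Function.Injective m) {q : ℕ} (h1 : ∀ i, m i < q) :
    Function.Injective fun i => (m i : ZMod q) := fun i j hij =>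
  hm (((ZMod.natCast_eq_natCast_iff _ _ _).mp hij).eq_of_lt_of_lt (h1 i) (h1 j))

theorem dens_big (m : Fin k.succ → ℕ) (hm : Function.Injective m) {p : ℕ} (hp : p.Prime)
    (h2 : 2 < p) (h1 : ∀ i, m i < p) : dens (Bad m) p = (k + 1) / p := by
  have := Fact.mk hp
  have h3 : (-2 : ZMod p) ≠ 0 := by
    rw [neg_ne_zero]
    intro h
    have := Nat.le_of_dvd two_pos ((ZMod.natCast_eq_zero_iff 2 p).1 (by exact_mod_cast h))
    omega
  rw [dens_card m hp.pos, card_image_of_injective _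
    fun i j h => res_big m hm h1 (mul_left_cancel₀ h3 h)]
  simp

theorem C_le (m : Fin k.succ → ℕ) (hm : Function.Injective m) (C : ℝ)
    (hC : Tendsto (HardyLittlewoodPartialProduct m) atTop (𝓝 C)) (w : ℕ) (hw : 2 ≤ w)
    (h1 : ∀ i, m i ≤ w) : C ≤ (∏ p ∈ pr 0 w, (1 - dens (Bad m) p)) *
      rexp (-((k + 1) * ∑ p ∈ pr 0 w, Real.log (1 - (p:ℝ)⁻¹))) := by
  have f0 : ∀ q : ℕ, 3 ≤ q → 0 < 1 - 1 / (q:ℝ) ∧
      0 ≤ 1 - (N9a2a6718.Nat.numResidues q m : ℝ) / q := by
    intro q hq
    have : NeZero q := ⟨by omega⟩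
    have h0 : (3 : ℝ) ≤ q := by exact_mod_cast hq
    have h2 : (N9a2a6718.Nat.numResidues q m : ℝ) ≤ q := by
      rw [numRes_eq]
      exact_mod_cast (card_le_univ _).trans (by simp)
    rw [sub_pos, sub_nonneg, div_lt_one (by linarith), div_le_one (by linarith)]
    exact ⟨by linarith, h2⟩
  have s1 : C ≤ HardyLittlewoodPartialProduct m (w + 1) := by
    refine le_of_tendsto hC ?_
    filter_upwards [eventually_ge_atTop (w + 1)] with N hN
    unfold HardyLittlewoodPartialProduct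
    refine mul_le_mul_of_nonneg_left (prod_le_prod_of_subset_of_le_one ?_ ?_ ?_) (by positivity)
    · intro q hq
      rw [mem_filter, Nat.mem_primesBelow] at hq ⊢
      exact ⟨⟨by omega, hq.1.2⟩, hq.2⟩
    · intro q hq
      have := f0 q (mem_filter.1 hq).2
      exact div_nonneg this.2 (pow_pos this.1 _).le
    · intro q hq hq'
      rw [mem_filter, Nat.mem_primesBelow] at hq hq'
      have h2 : w < q := by
        by_contra h
        exact hq' ⟨⟨by omega, hq.1.2⟩, hq.2⟩
      have h3 := f0 q hq.2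
      rw [div_le_one (pow_pos h3.1 _), numRes_eq, card_image_of_injective _
        (res_big m hm fun i => (h1 i).trans_lt h2)]
      have := one_add_mul_le_pow (show -2 ≤ -(1 / (q:ℝ)) by linarith [h3.1]) k.succ
      simpa [sub_eq_add_neg, div_eq_mul_inv] using this
  refine s1.trans ?_
  have e : pr 0 w = insert 2 ((Nat.primesBelow (w + 1)).filter fun q => 3 ≤ q) := by
    rw [primesBelow_eq]
    ext p
    simp only [mem_insert, mem_filter, mem_pr]
    constructor
    · intro h
      have := h.2.two_le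
      by_cases h2 : p = 2
      · exact Or.inl h2
      · exact Or.inr ⟨h, by omega⟩
    · rintro (rfl | h)
      · exact ⟨⟨two_pos, hw⟩, Nat.prime_two⟩
      · exact h.1
  have e2 : ∀ y : ℝ, 0 < y → rexp (-((k + 1) * Real.log y)) = (y ^ k.succ)⁻¹ := by
    intro y hy
    rw [Real.exp_neg, ← Nat.cast_succ, Real.exp_nat_mul, Real.exp_log hy]
  rw [mul_sum, ← sum_neg_distrib, Real.exp_sum, ← prod_mul_distrib, e, prod_insert (by simp)]
  unfold HardyLittlewoodPartialProduct
  refine mul_le_mul ?_ (prod_le_prod (fun q hq => ?_) fun q hq => ?_)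
    (prod_nonneg fun q hq => ?_) ?_
  rotate_left
  · have := f0 q (mem_filter.1 hq).2
    exact div_nonneg this.2 (pow_pos this.1 _).le
  · have h3 := (mem_filter.1 hq).2
    have h4 := f0 q h3
    rw [← one_div, e2 _ h4.1, ← div_eq_mul_inv, dens_card m (by omega), numRes_eq]
    refine div_le_div_of_nonneg_right (sub_le_sub_left (div_le_div_of_nonneg_right
      (Nat.cast_le.2 ?_) (Nat.cast_nonneg _)) _) (pow_pos h4.1 k.succ).le
    have := card_image_le (s := univ.image fun i => (m i : ZMod q)) (f := fun j => -2 * j)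
    rwa [image_image] at this
  · have := f0 q (mem_filter.1 hq).2
    exact div_nonneg this.2 (pow_pos this.1 _).le
  all_goals
    have h5 : dens (Bad m) 2 ≤ 1 / 2 := by
      rw [dens_card m two_pos]
      have : (univ.image fun i => -2 * (m i : ZMod 2)).card ≤ 1 :=
        card_le_one.2 fun a ha b hb => by
          obtain ⟨i, -, rfl⟩ := Finset.mem_image.1 ha
          obtain ⟨j, -, rfl⟩ := Finset.mem_image.1 hb
          rw [show (-2 : ZMod 2) = 0 from rfl, zero_mul, zero_mul]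
      push_cast
      gcongr
      exact_mod_cast this
    rw [e2 _ (by norm_num), ← inv_pow]
    norm_num
  · linarith
  · rw [pow_succ]
    nlinarith [pow_pos (two_pos (α := ℝ)) k]

end Pool.Agent.Lib.MP_68a45e_nt.Opt
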