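import Pool.Agent.Lib.MP_68a45e_nt.Count

set_option autoImplicit false

namespace Pool.Agent.Lib.MP_68a45e_nt

open Finset

/-- the concrete choice of exponents -/
def mkPar (K a n Nn : ℕ) (hK : 1 ≤ K) (ha : 6 ≤ a) (hn : 4 * a + 2 ≤ n) : Par where
  J := 3 * a * ((4 * a + 4) * K * n)
  Δ := K * n
  T := 6 * ((4 * a + 4) * K * n)
  U := 2 * ((4 * a + 4) * K * n)
  U' := 3 * ((4 * a + 4) * K * n)
  V := 3 * ((4 * a + 4) * K * n)
  V' := 4 * ((4 * a + 4) * K * n) + a * ((4 * a + 4) * n)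
  Nn := Nn
  l := 2 * a + 1
  c1 := le_rfl
  c2 := by nlinarith [Nat.zero_le (a * (K * n))]
  c3 := Nat.mul_pos (by omega) (Nat.mul_pos (Nat.mul_pos (by omega) hK) (by omega))
  c4 := by
    have h1 : (4 * a + 4) * n ≤ (4 * a + 4) * K * n := by
      rw [mul_assoc]; exact Nat.mul_le_mul_left _ (Nat.le_mul_of_pos_left _ hK)
    have h2 : K * n ≤ (4 * a + 4) * K * n := by
      rw [mul_assoc]; exact Nat.le_mul_of_pos_left _ (by omega)
    have h3 := Nat.mul_le_mul_left a h1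
    have h4 := Nat.mul_le_mul_right ((4 * a + 4) * K * n) ha
    rw [mul_assoc 3 a]; omega
  c5 := by
    have h2 : K * n ≤ (4 * a + 4) * K * n := by
      rw [mul_assoc]; exact Nat.le_mul_of_pos_left _ (by omega)
    nlinarith
  c6 := by
    have h1 : (4 * a + 4) * n ≤ (4 * a + 4) * K * n := by
      rw [mul_assoc]; exact Nat.mul_le_mul_left _ (Nat.le_mul_of_pos_left _ hK)
    have h3 := Nat.mul_le_mul_left a h1
    have h4 := Nat.mul_le_mul_right ((4 * a + 4) * K * n) ha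
    rw [mul_assoc 3 a]; omega
  c7 := by
    have h1 : n ≤ K * n := Nat.le_mul_of_pos_left _ hK
    nlinarith
  c8 := by omega

lemma sum_pairs (θ ω : ℕ) : ∑ v ∈ Ico (3 * θ) (4 * θ + ω),
    (((Ico (2 * θ) (3 * θ)).filter (fun u => 6 * θ ≤ u + v ∧ u + v < 6 * θ + ω)).card : ℝ) =
      θ * ω := by
  have : ∑ v ∈ Ico (3 * θ) (4 * θ + ω),
      ((Ico (2 * θ) (3 * θ)).filter (fun u => 6 * θ ≤ u + v ∧ u + v < 6 * θ + ω)).card = θ * ω := by
    simp only [card_filter]
    rw [sum_comm]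
    simp only [← card_filter]
    rw [sum_congr rfl (g := fun _ => ω)]
    · simp; omega
    · intro u hu
      have := mem_Ico.mp hu
      have e : (Ico (3 * θ) (4 * θ + ω)).filter (fun v => 6 * θ ≤ u + v ∧ u + v < 6 * θ + ω) =
          Ico (6 * θ - u) (6 * θ - u + ω) := by
        ext v; simp only [mem_filter, mem_Ico]; omega
      rw [e]; simp
  exact_mod_cast this

lemma count_lower (m a n Nn : ℕ) (ha : 6 ≤ a) (hn : 4 * a + 2 ≤ n) (hN : Nn ≤ m + 2)
    (hN' : ∀ i : ℕ, i < Nn → (i : ℝ) * (1 - 2 / a) ^ m ≤ 1 / 2) (Q : Par)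
    (hQ : Q = mkPar (m + 2) a n Nn (by omega) ha hn) :
    (Q.J : ℝ) ^ (m + 2) * ((1 - (m + 2) / Q.J) ^ (m + 2) / (m + 2).factorial +
      Nn * (1 - 2 / a - 1 / (3 * (m + 2))) ^ m / (90 * (4 * (m + 2) + a) * a * (4 * a + 4) *
        m.factorial) * (1 - 1 / n)) ≤
      (J0 (m + 2) Q.J).card + 1 / (5 * (Q.V' : ℝ)) *
        ∑ z ∈ Q.Idx (m + 2), ((Q.Jz (a * ((4 * a + 4) * n)) z.1 z.2).card : ℝ) := by
  set K := m + 2 with hK
  set θ := (4 * a + 4) * K * n with hθ
  set ω := a * ((4 * a + 4) * n) with hω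
  have eJ : Q.J = 3 * a * θ := by rw [hQ]; rfl
  have eΔ : Q.Δ = K * n := by rw [hQ]; rfl
  have eT : Q.T = 6 * θ := by rw [hQ]; rfl
  have eU : Q.U = 2 * θ := by rw [hQ]; rfl
  have eU' : Q.U' = 3 * θ := by rw [hQ]; rfl
  have eV : Q.V = 3 * θ := by rw [hQ]; rfl
  have eV' : Q.V' = 4 * θ + ω := by rw [hQ]; rfl
  have eN : Q.Nn = Nn := by rw [hQ]; rfl
  have h1 : (4 * a + 4) * n ≤ θ := by
    rw [hθ, mul_assoc]; exact Nat.mul_le_mul_left _ (Nat.le_mul_of_pos_left _ (by omega))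
  have h2 : K * n ≤ θ := by rw [hθ, mul_assoc]; exact Nat.le_mul_of_pos_left _ (by omega)
  have h3 : K ≤ K * n := Nat.le_mul_of_pos_right _ (by omega)
  have h4 : ω ≤ a * θ := Nat.mul_le_mul_left _ h1
  have h5 : 6 * θ ≤ a * θ := Nat.mul_le_mul_right _ ha
  have h6 : Q.J = 3 * (a * θ) := by rw [eJ, mul_assoc]
  have ha' : (6 : ℝ) ≤ a := by exact_mod_cast ha
  have hn' : (0 : ℝ) < n := by exact_mod_cast (by omega : 0 < n)
  have hKr : (K : ℝ) = m + 2 := by rw [hK]; push_cast; ring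
  have hK0 : (0 : ℝ) < K := by rw [hKr]; positivity
  have hθr : (θ : ℝ) = (4 * a + 4) * K * n := by rw [hθ]; push_cast; ring
  have hωr : (ω : ℝ) = a * ((4 * a + 4) * n) := by rw [hω]; push_cast; ring
  have hJr : (Q.J : ℝ) = 3 * a * ((4 * a + 4) * K * n) := by rw [eJ]; push_cast; rw [hθr]
  have hJ0 : (0 : ℝ) < Q.J := by rw [hJr]; positivity
  set β : ℝ := 1 - 2 / a - 1 / (3 * K) with hβ
  have hβJ : ((Q.J - (Q.T + ω) : ℕ) : ℝ) = Q.J * β := by
    rw [Nat.cast_sub (by omega), Nat.cast_add, eT, Nat.cast_mul, hθr, hωr, hβ, hJr]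
    field_simp; ring
  have a0 : (Q.J : ℝ) ^ K * ((1 - K / Q.J) ^ K / K.factorial) ≤ (J0 K Q.J).card := by
    refine le_trans (le_of_eq ?_) (J0_card (by omega) Q.J)
    rw [Nat.cast_sub (by omega), ← mul_div_assoc, ← mul_pow]
    congr 2; field_simp
  have a1 : ∀ z ∈ Q.Idx K, (((Ico (2 * θ) (3 * θ)).filter
      (fun u => 6 * θ ≤ u + z.2 ∧ u + z.2 < 6 * θ + ω)).card : ℝ) *
      ((K * n - K : ℕ) * ((Q.J * β) ^ m / m.factorial / 2)) ≤ (Q.Jz ω z.1 z.2).card := by
    intro z hz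
    have hi : z.1.val < Nn := by
      have := (mem_filter.mp (mem_product.mp hz).1).2
      rwa [eN] at this
    have := Q.Jz_card ω z.1 z.2 ((Q.J * β) ^ m / m.factorial / 2) (by
      intro s e s1 s2 s3
      refine le_trans ?_ (Cf_card z.1 m Q.T _ Q.J hK (by omega) (by omega) ?_)
      · rw [← hβJ]
        gcongr
        omega
      · have : (Q.T : ℝ) / Q.J = 2 / a := by
          rw [eT, Nat.cast_mul, hθr, hJr]; field_simp; ring
        rw [this]; exact hN' _ hi)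
    rwa [eU, eU', eT, eΔ] at this
  have a2 := sum_le_sum a1
  rw [← sum_mul, Par.Idx, sum_product, eV, eV', eN] at a2
  simp only [sum_pairs, sum_const, nsmul_eq_mul] at a2
  have a3 : ((univ.filter (fun i : Fin K => i.val < Nn)).card : ℝ) = Nn := by
    rw [Fin.card_filter_val_lt, min_eq_right hN]
  rw [a3, Nat.cast_sub h3] at a2
  have a4 : (Q.J : ℝ) ^ K * (Nn * β ^ m / (90 * (4 * K + a) * a * (4 * a + 4) * m.factorial) *
      (1 - 1 / n)) = 1 / (5 * ((4 * θ + ω : ℕ) : ℝ)) * (Nn * (θ * ω) *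
        (((K * n : ℕ) - K) * ((Q.J * β) ^ m / m.factorial / 2))) := by
    have : (Q.J : ℝ) ^ K = Q.J ^ m * Q.J ^ 2 := by rw [hK, pow_add]
    rw [this, mul_pow]
    generalize (Q.J : ℝ) ^ m = X
    push_cast
    rw [hθr, hωr, hJr]
    field_simp; ring
  rw [← hKr, mul_add, a4, eV', Par.Idx, eV, eV', eN]
  exact add_le_add a0 (mul_le_mul_of_nonneg_left a2 (by positivity))

lemma gain (K : ℕ) (hK : 2 ≤ K) : ∃ (Q : Par) (ω : ℕ), Q.T + ω ≤ Q.J ∧ K ≤ Q.J ∧
    (2 * Q.J + 1 : ℝ) ^ K < ((J0 K Q.J).card + 1 / (5 * (Q.V' : ℝ)) *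
        ∑ z ∈ Q.Idx K, ((Q.Jz ω z.1 z.2).card : ℝ)) *
      ((1 - Real.log K ^ 2 / (10 ^ 6 * K)) * 2 ^ K * K.factorial) := by
  obtain ⟨m, rfl⟩ : ∃ m, K = m + 2 := ⟨K - 2, by omega⟩
  set k : ℝ := ((m + 2 : ℕ) : ℝ) with hk
  have hkm : k = m + 2 := by rw [hk]; push_cast; ring
  have hm0 : (0 : ℝ) ≤ m := by positivity
  have hk2 : 2 ≤ k := by linarith
  have l2 := Real.log_two_gt_d9
  have l2' := Real.log_two_lt_d9
  have hl1 : Real.log 2 ≤ Real.log k := Real.log_le_log (by norm_num) hk2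
  have hl0 : 0 < Real.log k := by linarith
  have hl2 : Real.log k ≤ k / 2 := by
    have h1 := Real.log_le_sub_one_of_pos (show 0 < k / 2 by linarith)
    rw [Real.log_div (by linarith) (by norm_num)] at h1
    linarith
  set s : ℝ := k / Real.log k with hs
  have hs2 : 2 ≤ s := by rw [hs, le_div_iff₀ hl0]; linarith
  have hs3 : s ≤ 1.45 * k := by rw [hs, div_le_iff₀ hl0]; nlinarith
  set a : ℕ := ⌈2 * s⌉₊ + 2 with ha
  have ha1 : 2 * s + 2 ≤ a := by
    have := Nat.le_ceil (2 * s)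
    rw [ha]; push_cast; linarith
  have ha2 : (a : ℝ) ≤ 2 * s + 3 := by
    have := Nat.ceil_lt_add_one (show 0 ≤ 2 * s by linarith)
    rw [ha]; push_cast; linarith
  have ha6' : (6 : ℝ) ≤ a := by linarith
  have ha6 : 6 ≤ a := by exact_mod_cast ha6'
  set ϱ : ℝ := (1 - 2 / a) ^ m with hϱ
  have hb1 : (2 : ℝ) / 3 ≤ 1 - 2 / a := by
    have : (2 : ℝ) / a ≤ 1 / 3 := by rw [div_le_div_iff₀ (by linarith) (by norm_num)]; linarith
    linarith
  have hϱ1 : 1 / k ≤ ϱ := by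
    have h1 : Real.exp (-(1 / s)) ≤ 1 - 2 / a := by
      have h2 := Real.add_one_le_exp (1 / s)
      rw [Real.exp_neg, inv_le_comm₀ (Real.exp_pos _) (by linarith)]
      refine le_trans ?_ h2
      have : (1 - 2 / (a : ℝ))⁻¹ = 2 / (a - 2) + 1 := by
        have : (a : ℝ) - 2 ≠ 0 := by linarith
        field_simp; ring
      rw [this]
      have : 2 / ((a : ℝ) - 2) ≤ 1 / s := by
        rw [div_le_div_iff₀ (by linarith) (by linarith)]; linarith
      linarith
    refine le_trans ?_ (pow_le_pow_left₀ (Real.exp_pos _).le h1 m)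
    rw [← Real.exp_nat_mul, one_div, ← Real.exp_log (show 0 < k by linarith), ← Real.exp_neg]
    apply Real.exp_le_exp.mpr
    rw [hs, one_div_div, mul_neg, neg_le_neg_iff, ← mul_div_assoc, div_le_iff₀ (by linarith)]
    nlinarith
  have hϱ0 : 0 < ϱ := lt_of_lt_of_le (by positivity) hϱ1
  set Nn : ℕ := ⌈1 / (2 * ϱ)⌉₊ with hNn
  have hN1 : Nn ≤ m + 2 := by
    rw [hNn, Nat.ceil_le, ← hk, div_le_iff₀ (by positivity)]
    rw [div_le_iff₀ (by linarith)] at hϱ1
    nlinarith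
  have hN2 : ∀ i : ℕ, i < Nn → (i : ℝ) * ϱ ≤ 1 / 2 := by
    intro i hi
    have := Nat.lt_ceil.mp hi
    rw [lt_div_iff₀ (by positivity)] at this
    linarith
  have hN3 : 1 / 2 ≤ Nn * ϱ := by
    have := Nat.le_ceil (1 / (2 * ϱ))
    rw [div_le_iff₀ (by positivity)] at this
    linarith
  set β : ℝ := 1 - 2 / a - 1 / (3 * k) with hβ
  have hβ1 : ϱ / 2 ≤ β ^ m := by
    have h1 : (1 - 2 / a) * (1 + -(1 / (2 * k))) ≤ β := by
      have e : 1 / (3 * k) = 2 / 3 * (1 / (2 * k)) := by field_simp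
      have : 0 ≤ 1 / (2 * k) := by positivity
      rw [hβ, e]; nlinarith
    have h0 : 1 / (2 * k) ≤ 1 / 4 := one_div_le_one_div_of_le (by norm_num) (by linarith)
    have h2 := one_add_mul_le_pow (show -2 ≤ -(1 / (2 * k)) by linarith) m
    have h3 : 1 / 2 ≤ 1 + (m : ℝ) * -(1 / (2 * k)) := by
      have : (m : ℝ) * (1 / (2 * k)) ≤ 1 / 2 := by
        rw [mul_one_div, div_le_div_iff₀ (by linarith) (by norm_num)]; linarith
      linarith
    refine le_trans ?_ (pow_le_pow_left₀ (mul_nonneg (by linarith) (by linarith)) h1 m)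
    rw [mul_pow]
    nlinarith
  set A : ℝ := Nn * β ^ m / (90 * (4 * k + a) * a * (4 * a + 4) * m.factorial) with hA
  set z : ℝ := Real.log k ^ 2 / k with hz
  have hz0 : 0 < z := by positivity
  have hz1 : z ≤ 16 := by
    have h1 := Real.log_le_rpow_div (show 0 ≤ k by linarith) (show (0 : ℝ) < 1 / 2 by norm_num)
    rw [← Real.sqrt_eq_rpow] at h1
    have h2 := Real.mul_self_sqrt (show 0 ≤ k by linarith)
    rw [hz, div_le_iff₀ (by linarith)]
    nlinarith [Real.sqrt_nonneg k]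
  have hF : ((m + 2).factorial : ℝ) = k * (k - 1) * m.factorial := by
    rw [Nat.factorial_succ, Nat.factorial_succ, hkm]; push_cast; ring
  have hf0 : (0 : ℝ) < m.factorial := by positivity
  have hAz : z / 400000 ≤ A * (m + 2).factorial := by
    have e1 : A * (m + 2).factorial = Nn * β ^ m * (k * (k - 1)) /
        (90 * (4 * k + a) * (a * (4 * a + 4))) := by
      rw [hF, hA]; field_simp
    have e2 : z / 400000 = (1 / 4 * (k * (k / 2))) / (50000 * k * (s * s)) := by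
      rw [hz, hs]; field_simp; ring
    rw [e1, e2]
    have hNn0 : (0 : ℝ) ≤ Nn := by positivity
    apply div_le_div₀ (by
      have : 0 ≤ β ^ m := by linarith
      have : 0 ≤ k - 1 := by linarith
      positivity)
    · apply mul_le_mul (by nlinarith) (by nlinarith) (by positivity)
      nlinarith
    · positivity
    · have c1 : 4 * k + a ≤ 9.1 * k := by linarith
      have c2 : (a : ℝ) * (4 * a + 4) ≤ (3.5 * s) * (16 * s) :=
        mul_le_mul (by linarith) (by linarith) (by positivity) (by positivity)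
      calc _ ≤ 90 * (9.1 * k) * ((3.5 * s) * (16 * s)) := by gcongr
        _ ≤ _ := by nlinarith [mul_pos (show 0 < k by linarith) (show 0 < s * s by positivity)]
  set c : ℝ := (1 - Real.log k ^ 2 / (10 ^ 6 * k)) * 2 ^ (m + 2) * (m + 2).factorial with hc
  have hc' : c = (1 - z / 10 ^ 6) * 2 ^ (m + 2) * (m + 2).factorial := by
    rw [hc, hz]; congr 3; field_simp
  have hc0 : 0 < c := by
    rw [hc']
    have : 0 < 1 - z / 10 ^ 6 := by linarith
    positivity
  set j0 : ℝ := 3 * a * ((4 * a + 4) * k) with hj0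
  have hj00 : 0 < j0 := by positivity
  have hlim : Filter.Tendsto (fun n : ℕ => ((1 - k / j0 * (n : ℝ)⁻¹) ^ (m + 2) / (m + 2).factorial +
      A * (1 - (n : ℝ)⁻¹)) * c - (2 + 1 / j0 * (n : ℝ)⁻¹) ^ (m + 2)) Filter.atTop
      (nhds (((1 - k / j0 * 0) ^ (m + 2) / (m + 2).factorial + A * (1 - 0)) * c -
        (2 + 1 / j0 * 0) ^ (m + 2))) := by
    have t := tendsto_inv_atTop_nhds_zero_nat (𝕜 := ℝ)
    exact (((((t.const_mul _).const_sub _).pow _).div_const _).add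
      ((t.const_sub _).const_mul _)).mul_const _ |>.sub (((t.const_mul _).const_add _).pow _)
  have hpos : 0 < ((1 - k / j0 * 0) ^ (m + 2) / (m + 2).factorial + A * (1 - 0)) * c -
        (2 + 1 / j0 * 0) ^ (m + 2) := by
    have e : ((1 - k / j0 * 0) ^ (m + 2) / (m + 2).factorial + A * (1 - 0)) * c -
        (2 + 1 / j0 * 0) ^ (m + 2) =
        ((1 + A * (m + 2).factorial) * (1 - z / 10 ^ 6) - 1) * 2 ^ (m + 2) := by
      rw [hc']; simp only [mul_zero, sub_zero, add_zero, one_pow, mul_one]; field_simp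
    rw [e]
    apply mul_pos _ (by positivity)
    have : (1 + z / 400000) * (1 - z / 10 ^ 6) ≤ (1 + A * (m + 2).factorial) * (1 - z / 10 ^ 6) :=
      mul_le_mul_of_nonneg_right (by linarith) (by linarith)
    nlinarith
  obtain ⟨n, hn1, hn2⟩ := ((hlim.eventually (lt_mem_nhds hpos)).and
    (Filter.eventually_ge_atTop (4 * a + 2))).exists
  have hcl := count_lower m a n Nn ha6 hn2 hN1 hN2 _ rfl
  set Q := mkPar (m + 2) a n Nn (by omega) ha6 hn2 with hQ
  have hn' : (0 : ℝ) < n := by exact_mod_cast (by omega : 0 < n)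
  have hJ : (Q.J : ℝ) = j0 * n := by
    simp only [hQ, mkPar, hj0, hk]; push_cast; ring
  have h1 : (4 * a + 4) * n ≤ (4 * a + 4) * (m + 2) * n := by
    rw [mul_assoc]; exact Nat.mul_le_mul_left _ (Nat.le_mul_of_pos_left _ (by omega))
  have h2 : m + 2 ≤ (4 * a + 4) * (m + 2) * n :=
    (Nat.le_mul_of_pos_left _ (by omega)).trans (Nat.le_mul_of_pos_right _ (by omega))
  have h3 := Nat.mul_le_mul_left a h1
  have h4 := Nat.mul_le_mul_right ((4 * a + 4) * (m + 2) * n) ha6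
  refine ⟨Q, a * ((4 * a + 4) * n), by simp only [hQ, mkPar]; rw [mul_assoc 3 a]; omega,
    by simp only [hQ, mkPar]; rw [mul_assoc 3 a]; omega, ?_⟩
  refine lt_of_lt_of_le ?_ (mul_le_mul_of_nonneg_right hcl hc0.le)
  rw [← hkm]
  have e1 : (2 * Q.J + 1 : ℝ) = Q.J * (2 + 1 / j0 * (n : ℝ)⁻¹) := by rw [hJ]; field_simp
  have e2 : k / Q.J = k / j0 * (n : ℝ)⁻¹ := by rw [hJ]; field_simp
  rw [e1, e2, mul_pow, mul_assoc, one_div (n : ℝ)]
  apply mul_lt_mul_of_pos_left _ (by rw [hJ]; positivity)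
  linarith

end Pool.Agent.Lib.MP_68a45e_nt
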