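import Pool.Agent.Lib.MP_68a45e_nt.Rep

set_option autoImplicit false

namespace Pool.Agent.Lib.MP_68a45e_nt

open Finset

variable {K : ℕ}

noncomputable def gam (K p : ℕ) : ℝ := -(p / ((p : ℝ) + K - 1))

lemma gam_le (hK : 1 ≤ K) {p : ℕ} (hp : p.Prime) : |gam K p| ≤ 1 := by
  obtain ⟨h1, h2⟩ := gfac_pos hK hp
  rw [gam, abs_neg, abs_of_nonneg (div_nonneg h2.le (by linarith)), div_le_one (by linarith)]
  exact h1

noncomputable def Bplus (h : Fin K → ℕ) (i : Fin K) (R : Finset (Fin K → ℕ)) (P : Finset ℕ) :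
    ℕ → ℝ :=
  ∑ r ∈ R, ∑ p ∈ P.filter (fun p => ¬ p ∣ ∏ l, r l),
    (gw K (∏ l, r l) * gam K p) • (Psi h r * indp (h i) p)

namespace Setup
variable (S : Setup K)

lemma plus_bound (hK : 1 ≤ K) (i : Fin K) (Zb : ℕ) (L : ℝ) (hL : Lam Zb L)
    (R : Finset (Fin K → ℕ)) (D' D1 Ds κ A0 A1 M0 Y : ℕ) (B X : ℝ) (hB : 0 ≤ B) 
    (hR : ∀ r ∈ R, S.Good r ∧ ∏ l, r l ≤ D' ∧ A0 ≤ r i ∧ r i ≤ A1)
    (F : ℕ → ℝ) (hF : S.Rep F (fun d => ∏ l, d l ≤ D1) B)
    (P : Finset ℕ) (hP : ∀ p ∈ P, p.Prime ∧ p ∣ S.N) (hPc : P.card ≤ Y)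
    (hD' : D' ≤ Zb) (hD1 : D1 ≤ Zb) (hDs : Ds ≤ Zb) (hQ : D' * D1 ≤ Zb)
    (hκ : 0 < κ) (h1 : D' ≤ Ds * κ) (h2 : M0 * κ ≤ A0)
    (hxi : ∀ T : Finset (Fin K → ℕ),
      (∀ q ∈ T, S.Adm q ∧ ∏ l, q l ≤ D' * D1 ∧ M0 ≤ q i ∧ q i ≤ A1 * D1) →
      ∑ q ∈ T, |∑ p ∈ P, gam K p * S.Del (ind S.h q * indp (S.h i) p)| ≤ L ^ (K + 2) * X) :
    |S.Del (Bplus S.h i R P * F)| ≤ B * L ^ (4 * K + 2) * (D' * D1 + Ds * Y * D1 + X) := by
  classical
  have hL0 : 0 ≤ L := le_trans zero_le_one hL.one
  have hγ : ∀ p ∈ P, |gam K p| ≤ 1 := fun p hp => gam_le hK (hP p hp).1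
  have hne : ∀ r ∈ R, ∀ l, r l ≠ 0 := fun r hr l => ((hR r hr).1.1.pos l).ne'
  set Pi : ℕ → ℝ := ∑ p ∈ P, gam K p • indp (S.h i) p with hPi
  have e1 : Bplus S.h i R P = Fs S.h R (fun _ => 1) * Pi -
      ∑ r ∈ R, ∑ p ∈ P.filter (fun p => p ∣ ∏ l, r l),
        (gw K (∏ l, r l) * gam K p) • (Psi S.h r * indp (S.h i) p) := by
    rw [eq_sub_iff_add_eq, Bplus, ← sum_add_distrib, Fs, sum_mul]
    apply sum_congr rfl
    intro r _
    rw [add_comm, sum_filter_add_sum_filter_not, hPi, mul_sum]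
    apply sum_congr rfl
    intro p _
    rw [one_mul, smul_mul_smul_comm]
  have hip : ∀ d, S.Adm d → ∀ p ∈ P,
      |S.Del (ind S.h d * indp (S.h i) p * F)| ≤ B * (D1 * L ^ K) := by
    intro d hd p hp
    rw [ind_mul_indp]
    exact hF.del_ind hL hD1 hB (hd.update i (Nat.lcm_dvd (hd i) (hP p hp).2))
  have bad : |S.Del ((∑ r ∈ R, ∑ p ∈ P.filter (fun p => p ∣ ∏ l, r l),
        (gw K (∏ l, r l) * gam K p) • (Psi S.h r * indp (S.h i) p)) * F)| ≤
        B * L ^ (4 * K + 2) * (D' * D1) := by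
    rw [sum_mul, map_sum]
    refine (abs_sum_le_sum_abs _ _).trans ?_
    calc _ ≤ ∑ _r ∈ R, L * (L ^ K * (B * (D1 * L ^ K))) := by
          apply sum_le_sum
          intro r hr
          obtain ⟨a1, a2, a3, a4⟩ := hR r hr
          rw [sum_mul, map_sum]
          refine (abs_sum_le_sum_abs _ _).trans ?_
          calc _ ≤ ∑ _p ∈ P.filter (fun p => p ∣ ∏ l, r l), L ^ K * (B * (D1 * L ^ K)) := by
                apply sum_le_sum
                intro p hp
                have hp' := (mem_filter.mp hp).1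
                rw [Psi_expand _ _ a1.1.sqf, sum_mul, smul_sum, sum_mul, map_sum]
                refine (abs_sum_le_sum_abs _ _).trans ?_
                calc _ ≤ ∑ _d ∈ divs r, B * (D1 * L ^ K) := by
                      apply sum_le_sum
                      intro d hd
                      rw [mem_divs (hne r hr)] at hd
                      have hda : S.Adm d := fun l => (hd l).trans (a1.1 l)
                      rw [smul_mul_assoc, smul_mul_assoc, smul_mul_assoc, smul_smul, map_smul,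
                        smul_eq_mul, abs_mul]
                      have b1 : |gw K (∏ l, r l) * gam K p * muc d| ≤ 1 := by
                        rw [mul_right_comm, abs_mul]
                        apply mul_le_one₀ _ (abs_nonneg _) (hγ p hp')
                        refine (a1.coef_le hK d).trans ?_
                        rw [div_le_one (by exact_mod_cast a1.1.prod_pos)]
                        exact_mod_cast Nat.le_of_dvd a1.1.prod_pos
                          (prod_dvd_prod_of_dvd _ _ (fun l _ => hd l))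
                      calc _ ≤ 1 * (B * (D1 * L ^ K)) :=
                            mul_le_mul b1 (hip d hda p hp') (abs_nonneg _) zero_le_one
                        _ = _ := one_mul _
                  _ = (divs r).card * (B * (D1 * L ^ K)) := by simp
                  _ ≤ _ := by
                      apply mul_le_mul_of_nonneg_right _ (by positivity)
                      apply card_dvd_tuples_le _ r L
                      · intro l
                        refine ⟨hne r hr l, hL.tau _ (hne r hr l) ?_⟩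
                        exact (mem_Icc.mp (mem_Icc_of_prod_le a1.1.prod_pos a2 l)).2.trans hD'
                      · intro d hd; exact (mem_divs (hne r hr)).mp hd
            _ = (P.filter (fun p => p ∣ ∏ l, r l)).card * (L ^ K * (B * (D1 * L ^ K))) := by simp
            _ ≤ _ := mul_le_mul_of_nonneg_right (hL.card_dvd P a1.1.prod_pos.ne' (a2.trans hD'))
                (by positivity)
      _ = R.card * (L * (L ^ K * (B * (D1 * L ^ K)))) := by simp
      _ ≤ (D' * L ^ K) * (L * (L ^ K * (B * (D1 * L ^ K)))) := by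
          apply mul_le_mul_of_nonneg_right _ (by positivity)
          exact hL.card_tuples R D' hD' (fun r hr => ⟨(hR r hr).1.1.prod_pos, (hR r hr).2.1⟩)
      _ = B * L ^ (3 * K + 1) * (D' * D1) := by ring
      _ ≤ _ := by gcongr; exacts [hL.one, by omega, by omega]
  obtain ⟨T, c, hT, hTe⟩ := S.rep_Fs hK hL R D' hD' (fun r hr => ⟨(hR r hr).1, (hR r hr).2.1⟩)
    (fun _ => 1) 1 zero_le_one (fun _ _ => by simp)
  have small : |S.Del ((∑ d ∈ T.filter (fun d => ∏ l, d l ≤ Ds), c d • ind S.h d) * Pi * F)| ≤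
      B * L ^ (4 * K + 2) * (Ds * Y * D1) := by
    rw [sum_mul, sum_mul, map_sum]
    refine (abs_sum_le_sum_abs _ _).trans ?_
    calc _ ≤ ∑ _d ∈ T.filter (fun d => ∏ l, d l ≤ Ds), L ^ K * (Y * (B * (D1 * L ^ K))) := by
          apply sum_le_sum
          intro d hd
          obtain ⟨a1, a2, a3⟩ := hT d (mem_filter.mp hd).1
          rw [smul_mul_assoc, smul_mul_assoc, map_smul, smul_eq_mul, abs_mul]
          rw [one_mul] at a3
          apply mul_le_mul a3 _ (abs_nonneg _) (by positivity)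
          rw [hPi, mul_sum, sum_mul, map_sum]
          refine (abs_sum_le_sum_abs _ _).trans ?_
          calc _ ≤ ∑ _p ∈ P, B * (D1 * L ^ K) := by
                apply sum_le_sum
                intro p hp
                rw [mul_smul_comm, smul_mul_assoc, map_smul, smul_eq_mul, abs_mul]
                calc _ ≤ 1 * (B * (D1 * L ^ K)) :=
                      mul_le_mul (hγ p hp) (hip d a1 p hp) (abs_nonneg _) zero_le_one
                  _ = _ := one_mul _
            _ = P.card * (B * (D1 * L ^ K)) := by simp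
            _ ≤ _ := by
                have : (P.card : ℝ) ≤ Y := by exact_mod_cast hPc
                gcongr
      _ = (T.filter (fun d => ∏ l, d l ≤ Ds)).card * (L ^ K * (Y * (B * (D1 * L ^ K)))) := by simp
      _ ≤ (Ds * L ^ K) * (L ^ K * (Y * (B * (D1 * L ^ K)))) := by
          apply mul_le_mul_of_nonneg_right _ (by positivity)
          exact hL.card_tuples _ Ds hDs (fun d hd =>
            ⟨(hT d (mem_filter.mp hd).1).1.prod_pos, (mem_filter.mp hd).2⟩)
      _ = B * L ^ (3 * K) * (Ds * Y * D1) := by ring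
      _ ≤ _ := by gcongr; exacts [hL.one, by omega]
  have big : |S.Del ((∑ d ∈ T.filter (fun d => ¬ ∏ l, d l ≤ Ds), c d • ind S.h d) * Pi * F)| ≤
      B * L ^ (4 * K + 2) * X := by
    obtain ⟨T2, c2, hT2, rfl⟩ := hF
    set Tb := T.filter (fun d => ¬ ∏ l, d l ≤ Ds) with hTb
    set lc : (Fin K → ℕ) × (Fin K → ℕ) → Fin K → ℕ := fun u l => Nat.lcm (u.1 l) (u.2 l) with hlc
    set Φ : (Fin K → ℕ) → ℝ :=
      fun q => |∑ p ∈ P, gam K p * S.Del (ind S.h q * indp (S.h i) p)| with hΦ
    have f1 : |S.Del ((∑ d ∈ Tb, c d • ind S.h d) * Pi * ∑ e ∈ T2, c2 e • ind S.h e)| ≤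
        ∑ u ∈ Tb ×ˢ T2, L ^ K * B * Φ (lc u) := by
      rw [mul_right_comm, sum_mul_sum, ← sum_product', sum_mul, map_sum]
      refine (abs_sum_le_sum_abs _ _).trans (sum_le_sum fun u hu => ?_)
      obtain ⟨hd, he⟩ := mem_product.mp hu
      have a3 := (hT _ (mem_filter.mp hd).1).2.2
      rw [one_mul] at a3
      rw [smul_mul_smul_comm, ind_mul, smul_mul_assoc, map_smul, smul_eq_mul, abs_mul, abs_mul]
      apply mul_le_mul (mul_le_mul a3 (hT2 _ he).2.2 (abs_nonneg _) (by positivity)) _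
        (abs_nonneg _) (by positivity)
      rw [hPi, mul_sum, map_sum]
      simp only [mul_smul_comm, map_smul, smul_eq_mul]
      exact le_rfl
    have hprop : ∀ q ∈ (Tb ×ˢ T2).image lc,
        S.Adm q ∧ ∏ l, q l ≤ D' * D1 ∧ M0 ≤ q i ∧ q i ≤ A1 * D1 := by
      intro q hq
      obtain ⟨u, hu, rfl⟩ := mem_image.mp hq
      obtain ⟨hd, he⟩ := mem_product.mp hu
      obtain ⟨hd1, hd2⟩ := mem_filter.mp hd
      obtain ⟨a1, ⟨r, hr, a2⟩, -⟩ := hT _ hd1
      obtain ⟨b1, b2, -⟩ := hT2 _ he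
      obtain ⟨r1, r2, r3, r4⟩ := hR r hr
      have hdr : ∏ l, u.1 l ≤ ∏ l, r l :=
        Nat.le_of_dvd r1.1.prod_pos (prod_dvd_prod_of_dvd _ _ (fun l _ => a2 l))
      have hlc' : ∀ l, lc u l ≤ u.1 l * u.2 l := fun l =>
        Nat.le_of_dvd (Nat.mul_pos (a1.pos l) (b1.pos l)) (Nat.lcm_dvd_mul _ _)
      refine ⟨a1.lcm b1, ?_, ?_, ?_⟩
      · calc ∏ l, lc u l ≤ ∏ l, u.1 l * u.2 l := prod_le_prod' (fun l _ => hlc' l)
          _ = (∏ l, u.1 l) * ∏ l, u.2 l := prod_mul_distrib
          _ ≤ D' * D1 := Nat.mul_le_mul (hdr.trans r2) b2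
      · have g0 : u.1 i ≤ lc u i :=
          Nat.le_of_dvd ((a1.lcm b1).pos i) (Nat.dvd_lcm_left _ _)
        refine le_trans ?_ g0
        have g1 : ∏ l, r l = (∏ l, u.1 l) * ∏ l, r l / u.1 l := by
          rw [← prod_mul_distrib]
          exact prod_congr rfl (fun l _ => (Nat.mul_div_cancel' (a2 l)).symm)
        have g2 : ∏ l, r l / u.1 l ≤ κ := by
          by_contra hcon
          have : Ds * κ < (∏ l, u.1 l) * ∏ l, r l / u.1 l :=
            Nat.mul_lt_mul_of_lt_of_le (not_le.mp hd2) (not_le.mp hcon).le (by omega)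
          omega
        have g3 : 0 < ∏ l, r l / u.1 l := by
          have := r1.1.prod_pos
          rw [g1] at this
          exact Nat.pos_of_mul_pos_left this
        have g4 := (mem_Icc.mp (mem_Icc_of_prod_le g3 g2 i)).2
        have g5 : M0 * κ ≤ u.1 i * κ := by
          calc M0 * κ ≤ r i := h2.trans r3
            _ = u.1 i * (r i / u.1 i) := (Nat.mul_div_cancel' (a2 i)).symm
            _ ≤ _ := Nat.mul_le_mul_left _ g4
        exact Nat.le_of_mul_le_mul_right g5 hκ
      · refine (hlc' i).trans (Nat.mul_le_mul ?_ ?_)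
        · exact (Nat.le_of_dvd (r1.1.pos i) (a2 i)).trans r4
        · exact (mem_Icc.mp (mem_Icc_of_prod_le b1.prod_pos b2 i)).2
    have f2 : ∑ u ∈ Tb ×ˢ T2, Φ (lc u) ≤ L ^ K * L ^ K * ∑ q ∈ (Tb ×ˢ T2).image lc, Φ q := by
      rw [← sum_fiberwise_of_maps_to (s := Tb ×ˢ T2) (t := (Tb ×ˢ T2).image lc) (g := lc)
        (fun u hu => mem_image_of_mem _ hu), mul_sum]
      apply sum_le_sum
      intro q hq
      rw [sum_congr rfl (g := fun _ => Φ q) (fun u hu => by rw [(mem_filter.mp hu).2]),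
        sum_const, nsmul_eq_mul]
      apply mul_le_mul_of_nonneg_right _ (abs_nonneg _)
      obtain ⟨a1, a2, -⟩ := hprop q hq
      have hq0 : ∀ l, q l ≠ 0 := fun l => (a1.pos l).ne'
      have g1 : ((divs q).card : ℝ) ≤ L ^ K := by
        apply card_dvd_tuples_le _ q L
        · intro l
          exact ⟨hq0 l, hL.tau _ (hq0 l)
            ((mem_Icc.mp (mem_Icc_of_prod_le a1.prod_pos a2 l)).2.trans hQ)⟩
        · intro d hd; exact (mem_divs hq0).mp hd
      have g2 : ((Tb ×ˢ T2).filter (fun u => lc u = q)).card ≤ (divs q ×ˢ divs q).card := by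
        apply card_le_card
        intro u hu
        have := (mem_filter.mp hu).2
        refine mem_product.mpr ⟨(mem_divs hq0).mpr fun l => ?_, (mem_divs hq0).mpr fun l => ?_⟩
        · rw [← this]; exact Nat.dvd_lcm_left _ _
        · rw [← this]; exact Nat.dvd_lcm_right _ _
      rw [card_product] at g2
      calc _ ≤ ((divs q).card : ℝ) * (divs q).card := by exact_mod_cast g2
        _ ≤ _ := by gcongr
    have f3 := hxi _ hprop
    refine f1.trans ?_
    rw [← mul_sum]
    calc _ ≤ L ^ K * B * (L ^ K * L ^ K * (L ^ (K + 2) * X)) := by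
          apply mul_le_mul_of_nonneg_left _ (by positivity)
          exact f2.trans (mul_le_mul_of_nonneg_left f3 (by positivity))
      _ = _ := by ring
  rw [e1, sub_mul, map_sub, hTe, ← sum_filter_add_sum_filter_not T (fun d => ∏ l, d l ≤ Ds),
    add_mul, add_mul, map_add]
  refine (abs_sub _ _).trans ?_
  have := abs_add_le (S.Del ((∑ d ∈ T.filter (fun d => ∏ l, d l ≤ Ds), c d • ind S.h d) * Pi * F))
    (S.Del ((∑ d ∈ T.filter (fun d => ¬ ∏ l, d l ≤ Ds), c d • ind S.h d) * Pi * F))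
  linarith

end Setup

end Pool.Agent.Lib.MP_68a45e_nt
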