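import Pool.Agent.Lib.MP_68a45e_nt.Xi

set_option autoImplicit false

namespace Pool.Agent.Lib.MP_68a45e_nt

open Finset ArithmeticFunction

variable {K : ℕ}

/-- multiplicative weight -/
noncomputable def gw (K n : ℕ) : ℝ := ∏ p ∈ n.primeFactors, 1 / ((p : ℝ) + K - 1)

noncomputable def psi (c a n : ℕ) : ℝ := ∏ p ∈ a.primeFactors, (1 - p * indp c p n)

noncomputable def Psi (h r : Fin K → ℕ) (n : ℕ) : ℝ := ∏ l, psi (h l) (r l) n

/-- the sieve sum attached to a set of tuples -/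
noncomputable def Fs (h : Fin K → ℕ) (R : Finset (Fin K → ℕ)) (θ : (Fin K → ℕ) → ℝ) : ℕ → ℝ :=
  ∑ r ∈ R, (θ r * gw K (∏ l, r l)) • Psi h r

lemma gfac_pos (hK : 1 ≤ K) {p : ℕ} (hp : p.Prime) : (p : ℝ) ≤ (p : ℝ) + K - 1 ∧ (0 : ℝ) < p := by
  have h1 : (1 : ℝ) ≤ K := by exact_mod_cast hK
  exact ⟨by linarith, by exact_mod_cast hp.pos⟩

lemma gw_nonneg (hK : 1 ≤ K) (n : ℕ) : 0 ≤ gw K n := by
  apply prod_nonneg
  intro p hp
  obtain ⟨h1, h2⟩ := gfac_pos hK (Nat.prime_of_mem_primeFactors hp)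
  exact div_nonneg zero_le_one (by linarith)

lemma gw_le (hK : 1 ≤ K) {n : ℕ} (hn : Squarefree n) : gw K n ≤ 1 / n := by
  conv_rhs => rw [← Nat.prod_primeFactors_of_squarefree hn]
  push_cast
  rw [one_div, ← prod_inv_distrib]
  apply prod_le_prod
  · intro p hp
    obtain ⟨h1, h2⟩ := gfac_pos hK (Nat.prime_of_mem_primeFactors hp)
    exact div_nonneg zero_le_one (by linarith)
  · intro p hp
    obtain ⟨h1, h2⟩ := gfac_pos hK (Nat.prime_of_mem_primeFactors hp)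
    rw [one_div]
    exact inv_anti₀ h2 h1

lemma psi_expand (c a n : ℕ) (ha : Squarefree a) :
    psi c a n = ∑ d ∈ a.divisors, (moebius d : ℝ) * (d * indp c d n) := by
  let f : ArithmeticFunction ℝ := ⟨fun d => d * indp c d n, by simp⟩
  have hf : f.IsMultiplicative := by
    refine ⟨by simp [f, indp], fun {a b} hab => ?_⟩
    simp only [f, indp, coe_mk]
    by_cases h1 : a ∣ n + c
    · by_cases h2 : b ∣ n + c
      · simp [h1, h2, hab.mul_dvd_of_dvd_of_dvd h1 h2]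
      · have : ¬ a * b ∣ n + c := fun h => h2 (Dvd.dvd.trans (Dvd.intro_left _ rfl) h)
        simp [h2, this]
    · have : ¬ a * b ∣ n + c := fun h => h1 (Dvd.dvd.trans (Dvd.intro _ rfl) h)
      simp [h1, this]
  exact IsMultiplicative.prodPrimeFactors_one_sub_of_squarefree f hf ha

/-- tuples of divisors -/
def divs (r : Fin K → ℕ) : Finset (Fin K → ℕ) := Fintype.piFinset (fun l => (r l).divisors)

lemma mem_divs {r d : Fin K → ℕ} (hr : ∀ l, r l ≠ 0) : d ∈ divs r ↔ ∀ l, d l ∣ r l := by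
  simp [divs, Fintype.mem_piFinset, hr]

noncomputable def muc (d : Fin K → ℕ) : ℝ := ∏ l, (moebius (d l) : ℝ) * d l

lemma muc_le (d : Fin K → ℕ) : |muc d| ≤ ((∏ l, d l : ℕ) : ℝ) := by
  rw [muc, abs_prod]
  push_cast
  apply prod_le_prod (fun _ _ => abs_nonneg _)
  intro l _
  rw [abs_mul, Nat.abs_cast]
  have : |(moebius (d l) : ℝ)| ≤ 1 := by exact_mod_cast abs_moebius_le_one (n := d l)
  have h0 : (0 : ℝ) ≤ d l := by positivity
  nlinarith

lemma Psi_expand (h r : Fin K → ℕ) (hr : ∀ l, Squarefree (r l)) :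
    Psi h r = ∑ d ∈ divs r, muc d • ind h d := by
  funext n
  simp only [Psi, fun l => psi_expand (h l) (r l) n (hr l), Finset.prod_univ_sum, divs,
    Finset.sum_apply, Pi.smul_apply, smul_eq_mul]
  apply sum_congr rfl
  intro d _
  simp only [← mul_assoc, prod_mul_distrib, muc, indp, ind]
  congr 1
  rw [Finset.prod_ite_zero]
  simp

namespace Setup
variable (S : Setup K)

def Good (r : Fin K → ℕ) : Prop := S.Adm r ∧ PC r

lemma Good.sqf {S : Setup K} {r : Fin K → ℕ} (hr : S.Good r) : Squarefree (∏ l, r l) :=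
  S.hN.squarefree_of_dvd (hr.1.prod_dvd hr.2)

lemma Adm.sqf {S : Setup K} {r : Fin K → ℕ} (hr : S.Adm r) (l : Fin K) : Squarefree (r l) :=
  S.hN.squarefree_of_dvd (hr l)

lemma Good.coef_le {S : Setup K} (hK : 1 ≤ K) {r : Fin K → ℕ} (hr : S.Good r) (d : Fin K → ℕ) :
    |gw K (∏ l, r l) * muc d| ≤ ((∏ l, d l : ℕ) : ℝ) / ((∏ l, r l : ℕ) : ℝ) := by
  rw [abs_mul, abs_of_nonneg (gw_nonneg hK _), div_eq_mul_one_div, mul_comm]
  exact mul_le_mul (muc_le d) (gw_le hK hr.sqf) (gw_nonneg hK _) (by positivity)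

/-- representation as a combination of indicators with bounded coefficients -/
def Rep (F : ℕ → ℝ) (A : (Fin K → ℕ) → Prop) (B : ℝ) : Prop :=
  ∃ (T : Finset (Fin K → ℕ)) (c : (Fin K → ℕ) → ℝ),
    (∀ d ∈ T, S.Adm d ∧ A d ∧ |c d| ≤ B) ∧ F = ∑ d ∈ T, c d • ind S.h d

lemma Rep.mono {S : Setup K} {F : ℕ → ℝ} {A A' : (Fin K → ℕ) → Prop} {B B' : ℝ}
    (h : S.Rep F A B) (hA : ∀ d, S.Adm d → A d → A' d) (hB : B ≤ B') : S.Rep F A' B' := by
  obtain ⟨T, c, h1, h2⟩ := h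
  exact ⟨T, c, fun d hd => ⟨(h1 d hd).1, hA d (h1 d hd).1 (h1 d hd).2.1,
    (h1 d hd).2.2.trans hB⟩, h2⟩

lemma Rep.add {S : Setup K} {F F' : ℕ → ℝ} {A : (Fin K → ℕ) → Prop} {B B' : ℝ}
    (h : S.Rep F A B) (h' : S.Rep F' A B') (hB : 0 ≤ B) (hB' : 0 ≤ B') :
    S.Rep (F + F') A (B + B') := by
  classical
  obtain ⟨T, c, h1, h2⟩ := h
  obtain ⟨T', c', h1', h2'⟩ := h'
  refine ⟨T ∪ T', fun d => (if d ∈ T then c d else 0) + (if d ∈ T' then c' d else 0), ?_, ?_⟩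
  · intro d hd
    have a : S.Adm d ∧ A d := by
      rcases mem_union.mp hd with h | h
      · exact ⟨(h1 d h).1, (h1 d h).2.1⟩
      · exact ⟨(h1' d h).1, (h1' d h).2.1⟩
    refine ⟨a.1, a.2, (abs_add_le _ _).trans (add_le_add ?_ ?_)⟩
    · split_ifs with h
      · exact (h1 d h).2.2
      · simpa using hB
    · split_ifs with h
      · exact (h1' d h).2.2
      · simpa using hB'
  · simp only [add_smul, sum_add_distrib, ite_smul, zero_smul, sum_ite_mem]
    rw [h2, h2', union_inter_cancel_left, union_inter_cancel_right]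

lemma Rep.sum {S : Setup K} {ι : Type*} (s : Finset ι) {F : ι → ℕ → ℝ}
    {A : (Fin K → ℕ) → Prop} {B : ℝ} (hB : 0 ≤ B) (h : ∀ j ∈ s, S.Rep (F j) A B) :
    S.Rep (∑ j ∈ s, F j) A (s.card * B) := by
  classical
  induction s using Finset.induction_on with
  | empty => exact ⟨∅, 0, by simp, by simp⟩
  | insert a s ha ih =>
    rw [sum_insert ha, card_insert_of_notMem ha]
    have := (h a (mem_insert_self _ _)).add (ih (fun j hj => h j (mem_insert_of_mem hj))) hB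
      (by positivity)
    exact this.mono (fun _ _ h => h) (by push_cast; linarith)

lemma rep_Fs (hK : 1 ≤ K) {Zb : ℕ} {L : ℝ} (hL : Lam Zb L) (R : Finset (Fin K → ℕ)) (D : ℕ)
    (hD : D ≤ Zb) (hR : ∀ r ∈ R, S.Good r ∧ ∏ l, r l ≤ D) (θ : (Fin K → ℕ) → ℝ) (Θ : ℝ)
    (hΘ : 0 ≤ Θ) (hθ : ∀ r ∈ R, |θ r| ≤ Θ) :
    S.Rep (Fs S.h R θ) (fun d => ∃ r ∈ R, ∀ l, d l ∣ r l) (Θ * L ^ K) := by
  classical
  have hne : ∀ r ∈ R, ∀ l, r l ≠ 0 := fun r hr l => ((hR r hr).1.1.pos l).ne'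
  refine ⟨R.biUnion divs,
    fun d => ∑ r ∈ R.filter (fun r => d ∈ divs r), θ r * (gw K (∏ l, r l) * muc d), ?_, ?_⟩
  · intro d hd
    obtain ⟨r0, hr0, hd0⟩ := mem_biUnion.mp hd
    rw [mem_divs (hne r0 hr0)] at hd0
    have hda : S.Adm d := fun l => (hd0 l).trans ((hR r0 hr0).1.1 l)
    refine ⟨hda, ⟨r0, hr0, hd0⟩, (abs_sum_le_sum_abs _ _).trans ?_⟩
    have hdv : ∀ r ∈ R.filter (fun r => d ∈ divs r), ∀ l, d l ∣ r l := fun r hr =>
      (mem_divs (hne r (mem_filter.mp hr).1)).mp (mem_filter.mp hr).2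
    have hpr : ∀ r ∈ R.filter (fun r => d ∈ divs r),
        ∏ l, r l = (∏ l, d l) * ∏ l, r l / d l := by
      intro r hr
      rw [← prod_mul_distrib]
      exact prod_congr rfl (fun l _ => (Nat.mul_div_cancel' (hdv r hr l)).symm)
    calc _ ≤ ∑ r ∈ R.filter (fun r => d ∈ divs r), Θ * (1 / ((∏ l, r l / d l : ℕ) : ℝ)) := by
          apply sum_le_sum
          intro r hr
          have hr' := (mem_filter.mp hr).1
          rw [abs_mul]
          apply mul_le_mul (hθ r hr') _ (abs_nonneg _) hΘ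
          refine ((hR r hr').1.coef_le hK d).trans (le_of_eq ?_)
          have : ((∏ l, d l : ℕ) : ℝ) ≠ 0 := by exact_mod_cast hda.prod_pos.ne'
          rw [hpr r hr, Nat.cast_mul, div_mul_eq_div_div, div_self this]
      _ = Θ * ∑ u ∈ (R.filter (fun r => d ∈ divs r)).image (fun r l => r l / d l),
            (1 / ((∏ l, u l : ℕ) : ℝ)) := by
          rw [← mul_sum, sum_image]
          intro r hr r' hr' e
          funext l
          rw [← Nat.mul_div_cancel' (hdv r hr l), ← Nat.mul_div_cancel' (hdv r' hr' l)]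
          exact congrArg _ (congrFun e l)
      _ ≤ Θ * L ^ K := by
          apply mul_le_mul_of_nonneg_left _ hΘ
          refine (sum_inv_prod_le _ D ?_).trans (hL.hspow hD K)
          intro u hu l
          obtain ⟨r, hr, rfl⟩ := mem_image.mp hu
          have hr' := (mem_filter.mp hr).1
          have h1 := mem_Icc.mp (mem_Icc_of_prod_le (hR r hr').1.1.prod_pos (hR r hr').2 l)
          exact mem_Icc.mpr ⟨Nat.div_pos (Nat.le_of_dvd h1.1 (hdv r hr l)) (hda.pos l),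
            (Nat.div_le_self _ _).trans h1.2⟩
  · unfold Fs
    simp only [sum_smul]
    rw [sum_comm' (s' := divs) (t' := R)]
    · apply sum_congr rfl
      intro r hr
      rw [Psi_expand _ _ (hR r hr).1.1.sqf, smul_sum]
      apply sum_congr rfl
      intro d _
      rw [smul_smul, mul_assoc]
    · intro d r
      simp only [mem_biUnion, mem_filter]
      exact ⟨fun h => ⟨h.2.2, h.2.1⟩, fun h => ⟨⟨r, h.2, h.1⟩, h.2, h.1⟩⟩

lemma Rep.del_ind {S : Setup K} {Zb : ℕ} {L : ℝ} (hL : Lam Zb L) {F : ℕ → ℝ} {D : ℕ} {B : ℝ}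
    (hD : D ≤ Zb) (hB : 0 ≤ B) (h : S.Rep F (fun d => ∏ l, d l ≤ D) B) {q : Fin K → ℕ}
    (hq : S.Adm q) : |S.Del (ind S.h q * F)| ≤ B * (D * L ^ K) := by
  obtain ⟨T, c, h1, rfl⟩ := h
  rw [mul_sum, map_sum]
  refine (abs_sum_le_sum_abs _ _).trans ?_
  calc _ ≤ ∑ _d ∈ T, B := by
        apply sum_le_sum
        intro d hd
        rw [mul_smul_comm, map_smul, smul_eq_mul, abs_mul, ind_mul]
        calc _ ≤ B * 1 := mul_le_mul (h1 d hd).2.2 (S.Del_ind_le (hq.lcm (h1 d hd).1))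
              (abs_nonneg _) hB
          _ = B := mul_one _
    _ = B * T.card := by simp [mul_comm]
    _ ≤ _ := mul_le_mul_of_nonneg_left
        (hL.card_tuples T D hD (fun d hd => ⟨(h1 d hd).1.prod_pos, (h1 d hd).2.1⟩)) hB

lemma Rep.del_mul {S : Setup K} {Zb : ℕ} {L : ℝ} (hL : Lam Zb L) {F F' : ℕ → ℝ} {D D' : ℕ}
    {B B' : ℝ} (hD : D ≤ Zb) (hD' : D' ≤ Zb) (hB : 0 ≤ B) (hB' : 0 ≤ B')
    (h : S.Rep F (fun d => ∏ l, d l ≤ D) B) (h' : S.Rep F' (fun d => ∏ l, d l ≤ D') B') :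
    |S.Del (F * F')| ≤ B * (D * L ^ K) * (B' * (D' * L ^ K)) := by
  have hL0 : 0 ≤ L := le_trans zero_le_one hL.one
  obtain ⟨T, c, h1, rfl⟩ := h
  rw [sum_mul, map_sum]
  refine (abs_sum_le_sum_abs _ _).trans ?_
  calc _ ≤ ∑ _d ∈ T, B * (B' * (D' * L ^ K)) := by
        apply sum_le_sum
        intro d hd
        rw [smul_mul_assoc, map_smul, smul_eq_mul, abs_mul]
        exact mul_le_mul (h1 d hd).2.2 (h'.del_ind hL hD' hB' (h1 d hd).1) (abs_nonneg _) hB
    _ = B * T.card * (B' * (D' * L ^ K)) := by simp; ring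
    _ ≤ _ := by
        have := hL.card_tuples T D hD (fun d hd => ⟨(h1 d hd).1.prod_pos, (h1 d hd).2.1⟩)
        gcongr

end Setup

end Pool.Agent.Lib.MP_68a45e_nt
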