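import Pool.Agent.Lib.MP_68a45e_nt.BarrierFinal

set_option autoImplicit false

namespace Pool.Agent.Lib.MP_68a45e_nt.SieveBarrierOld

open Filter Topology N9a2a6718

/-- Every upper bound sieve of level `x` for a tuple of length `K = k + 1` has main term at least
`(2K/e)^K C / (log x)^K`. -/
theorem result (k : ℕ) (m : Fin k.succ → ℕ) (_h0 : m 0 = 0) (hm : Function.Injective m) :
    ∃ C : ℝ, 0 ≤ C ∧ Tendsto (HardyLittlewoodPartialProduct m) atTop (𝓝 C) ∧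
      ∀ ε : ℝ, 0 < ε → ∀ᶠ x : ℕ in atTop, ∀ (z : ℕ) (c : ℕ → ℤ → ℝ),
        (∀ n : ℤ, 0 ≤ ∑ q ∈ Finset.Icc 1 x, c q (n % q)) →
        (∀ n : ℤ, (∀ p : ℕ, p.Prime → p ≤ z → ∀ i, ¬ (p : ℤ) ∣ n + 2 * m i) →
          1 ≤ ∑ q ∈ Finset.Icc 1 x, c q (n % q)) →
        (1 - ε) * (2 * (k + 1) / Real.exp 1) ^ (k + 1) * C / Real.log x ^ (k + 1)
          ≤ ∑ q ∈ Finset.Icc 1 x, (∑ r ∈ Finset.range q, c q r) / q :=
  Pool.Agent.Lib.MP_68a45e_nt.sieve_barrier m hm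

end Pool.Agent.Lib.MP_68a45e_nt.SieveBarrierOld
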