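import Pool.Agent.Lib.MP_68a45e_nt.Mean

set_option autoImplicit false

namespace Pool.Agent.Lib.MP_68a45e_nt

open Finset

variable {K : ℕ}

/-- exponents describing the support of the sieve weights -/
structure Par where
  J : ℕ
  Δ : ℕ
  T : ℕ
  U : ℕ
  U' : ℕ
  V : ℕ
  V' : ℕ
  Nn : ℕ
  l : ℕ
  c1 : U' ≤ V
  c2 : 2 * Δ ≤ V
  c3 : 1 ≤ V
  c4 : V' + U' + Δ ≤ J
  c5 : 2 * (J + Δ) ≤ V * l
  c6 : U' + U + V' ≤ J
  c7 : (2 * Δ + 2) * (2 * l) + 2 * Δ ≤ U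
  c8 : 1 ≤ l

instance (q : Fin K → ℕ) : Decidable (PC q) := by unfold PC; infer_instance

def Gd (K N : ℕ) : Finset (Fin K → ℕ) := (divs (fun _ => N)).filter PC

namespace Par
variable (Q : Par) (N y : ℕ)

def S0 (K : ℕ) : Finset (Fin K → ℕ) := (Gd K N).filter (fun r => ∏ l, r l < y ^ Q.J)

def Rv (i : Fin K) (v : ℕ) : Finset (Fin K → ℕ) :=
  (Gd K N).filter (fun r => y ^ Q.U ≤ r i ∧ r i < y ^ Q.U' ∧ (∀ l, l < i → r l < y ^ Q.T) ∧
    y ^ Q.T ≤ r i * y ^ v ∧ y ^ Q.J ≤ (∏ l, r l) * y ^ v ∧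
    (∏ l, r l) * y ^ (v + 1) ≤ y ^ (Q.J + Q.Δ))

def Idx (K : ℕ) : Finset (Fin K × ℕ) := (univ.filter (fun i : Fin K => i.val < Q.Nn)) ×ˢ Ico Q.V Q.V'

end Par

def Pv (N y v : ℕ) : Finset ℕ := N.primeFactors.filter (fun p => y ^ v ≤ p ∧ p < y ^ (v + 1))

def up (i : Fin K) (u : (Fin K → ℕ) × ℕ) : Fin K → ℕ := Function.update u.1 i (u.1 i * u.2)

lemma prod_up (i : Fin K) (u : (Fin K → ℕ) × ℕ) : ∏ l, up i u l = (∏ l, u.1 l) * u.2 := by
  rw [up, prod_update_eq, prod_eq_mul_update u.1 i]; ring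

namespace Par
variable (Q : Par) (N y : ℕ)

def Prs (i : Fin K) (v : ℕ) : Finset ((Fin K → ℕ) × ℕ) :=
  (Q.Rv N y i v ×ˢ Pv N y v).filter (fun u => ¬ u.2 ∣ ∏ l, u.1 l)

def Sall (K : ℕ) : Finset (Fin K → ℕ) :=
  Q.S0 N y K ∪ (Q.Idx K).biUnion (fun z => (Q.Prs N y z.1 z.2).image (up z.1))

lemma up_key (hN : N ≠ 0) (hy : 2 ≤ y) {i : Fin K} {v v' : ℕ} (hv : Q.V ≤ v)
    {u u' : (Fin K → ℕ) × ℕ} (hu : u ∈ Q.Prs N y i v) (hu' : u' ∈ Q.Prs N y i v')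
    (e : up i u = up i u') : u = u' ∧ v = v' := by
  simp only [Prs, Rv, Pv, Gd, mem_filter, mem_product, mem_divs (fun _ => hN),
    Nat.mem_primeFactors] at hu hu'
  obtain ⟨⟨⟨⟨a0, -⟩, -, a1, -⟩, ⟨a2, -⟩, a3, a4⟩, -⟩ := hu
  obtain ⟨⟨⟨⟨b0, -⟩, -, b1, -⟩, ⟨b2, -⟩, b3, b4⟩, -⟩ := hu'
  have e1 : u.1 i * u.2 = u'.1 i * u'.2 := by simpa [up] using congrFun e i
  have h1 : y ^ Q.U' ≤ y ^ v := Nat.pow_le_pow_right (by omega) (Q.c1.trans hv)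
  have e2 : u.2 = u'.2 := by
    have : u.2 ∣ u'.1 i * u'.2 := e1 ▸ Dvd.intro_left _ rfl
    rcases (Nat.Prime.dvd_mul a2).mp this with h | h
    · have := Nat.le_of_dvd (Nat.pos_of_dvd_of_pos (b0 i) (Nat.pos_of_ne_zero hN)) h
      omega
    · exact (Nat.prime_dvd_prime_iff_eq a2 b2).mp h
  refine ⟨Prod.ext ?_ e2, ?_⟩
  · funext j
    by_cases hj : j = i
    · rw [hj]; rw [e2] at e1; exact Nat.eq_of_mul_eq_mul_right b2.pos e1
    · simpa [up, Function.update_of_ne hj] using congrFun e j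
  · rw [e2] at a3 a4
    have := (Nat.pow_lt_pow_iff_right (by omega : 1 < y)).mp (a3.trans_lt b4)
    have := (Nat.pow_lt_pow_iff_right (by omega : 1 < y)).mp (b3.trans_lt a4)
    omega

lemma sum_Sall {M : Type*} [AddCommMonoid M] (hN : N ≠ 0) (hy : 2 ≤ y) (φ : (Fin K → ℕ) → M) :
    ∑ r ∈ Q.Sall N y K, φ r = ∑ r ∈ Q.S0 N y K, φ r + ∑ z ∈ Q.Idx K, ∑ r ∈ Q.Rv N y z.1 z.2,
      ∑ p ∈ (Pv N y z.2).filter (fun p => ¬ p ∣ ∏ l, r l), φ (up z.1 (r, p)) := by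
  have hV : ∀ z ∈ Q.Idx K, Q.V ≤ z.2 := fun z hz => (mem_Ico.mp (mem_product.mp hz).2).1
  rw [Sall, sum_union, sum_biUnion]
  · congr 1
    apply sum_congr rfl
    intro z hz
    rw [sum_image (fun u hu u' hu' e => (Q.up_key N y hN hy (hV z hz) hu hu' e).1),
      Prs, sum_filter, sum_product]
    simp only [sum_filter]
  · have lt_case : ∀ z z' : Fin K × ℕ, z.1 < z'.1 → ∀ u ∈ Q.Prs N y z.1 z.2,
        ∀ u' ∈ Q.Prs N y z'.1 z'.2, up z.1 u ≠ up z'.1 u' := by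
      intro z z' hlt u hu u' hu' e
      simp only [Prs, Rv, Pv, mem_filter, mem_product] at hu hu'
      have e1 : u.1 z.1 * u.2 = u'.1 z.1 := by
        simpa [up, Function.update_of_ne hlt.ne] using congrFun e z.1
      have a1 := hu'.1.1.2.2.2.1 _ hlt
      have a2 := hu.1.1.2.2.2.2.1
      have a3 := Nat.mul_le_mul_left (u.1 z.1) hu.1.2.2.1
      omega
    intro z hz z' hz' hne
    rw [Function.onFun, disjoint_left]
    intro r hr hr'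
    obtain ⟨u, hu, rfl⟩ := mem_image.mp hr
    obtain ⟨u', hu', e⟩ := mem_image.mp hr'
    rcases lt_trichotomy z.1 z'.1 with h | h | h
    · exact lt_case z z' h u hu u' hu' e.symm
    · obtain ⟨i, v⟩ := z
      obtain ⟨i', v'⟩ := z'
      simp only at h
      subst h
      exact hne (Prod.ext rfl (Q.up_key N y hN hy (hV _ hz) hu hu' e.symm).2)
    · exact lt_case z' z h u' hu' u hu e
  · rw [disjoint_left]
    intro r hr hr'
    obtain ⟨z, -, hr'⟩ := mem_biUnion.mp hr'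
    obtain ⟨u, hu, rfl⟩ := mem_image.mp hr'
    simp only [Prs, Rv, Pv, S0, mem_filter, mem_product, prod_up] at hu hr
    have a2 := hu.1.1.2.2.2.2.2.1
    have a3 := Nat.mul_le_mul_left (∏ l, u.1 l) hu.1.2.2.1
    omega

end Par

lemma gw_mul_prime {n p : ℕ} (hn : n ≠ 0) (hp : p.Prime) (h : ¬ p ∣ n) :
    gw K (n * p) = gw K n * (1 / ((p : ℝ) + K - 1)) := by
  rw [gw, Nat.primeFactors_mul hn hp.ne_zero, hp.primeFactors, union_comm, ← insert_eq,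
    prod_insert (fun h' => h (Nat.dvd_of_mem_primeFactors h')), mul_comm, gw]

lemma Psi_up (h r : Fin K → ℕ) (i : Fin K) {p : ℕ} (hr : r i ≠ 0) (hp : p.Prime)
    (hd : ¬ p ∣ r i) (n : ℕ) : Psi h (up i (r, p)) n = Psi h r n * (1 - p * indp (h i) p n) := by
  simp only [Psi]
  rw [← Finset.mul_prod_erase _ _ (mem_univ i), ← Finset.mul_prod_erase _ _ (mem_univ i)]
  have e1 : psi (h i) (up i (r, p) i) n = psi (h i) (r i) n * (1 - p * indp (h i) p n) := by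
    simp only [up, Function.update_self]
    rw [psi, Nat.primeFactors_mul hr hp.ne_zero, hp.primeFactors, union_comm, ← insert_eq,
      prod_insert (fun h' => hd (Nat.dvd_of_mem_primeFactors h')), mul_comm, psi]
  have e2 : ∏ l ∈ univ.erase i, psi (h l) (up i (r, p) l) n =
      ∏ l ∈ univ.erase i, psi (h l) (r l) n :=
    prod_congr rfl (fun l hl => by simp [up, Function.update_of_ne (ne_of_mem_erase hl)])
  rw [e1, e2]; ring

/-- total weight of the primes attached to a tuple -/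
noncomputable def th (K N y v : ℕ) (r : Fin K → ℕ) : ℝ :=
  ∑ p ∈ (Pv N y v).filter (fun p => ¬ p ∣ ∏ l, r l), 1 / ((p : ℝ) + K - 1)

namespace Setup
variable (S : Setup K)

lemma mem_Gd {r : Fin K → ℕ} : r ∈ Gd K S.N ↔ S.Good r := by
  simp only [Gd, mem_filter, mem_divs (fun _ => S.Npos.ne')]; rfl

lemma good_up {r : Fin K → ℕ} (hr : S.Good r) (i : Fin K) {p : ℕ} (hp : p.Prime) (hpN : p ∣ S.N)
    (hd : ¬ p ∣ ∏ l, r l) : S.Good (up i (r, p)) := by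
  have hc : ∀ l, p.Coprime (r l) := fun l => (hp.coprime_iff_not_dvd).mpr
    (fun h => hd (h.trans (dvd_prod_of_mem _ (mem_univ l))))
  exact ⟨hr.1.update i ((hc i).symm.mul_dvd_of_dvd_of_dvd (hr.1 i) hpN),
    hr.2.update i (fun l hl => Nat.Coprime.mul_left (hr.2 _ _ (Ne.symm hl)) (hc l))⟩

lemma Sall_good (Q : Par) (y : ℕ) (hy : 2 ≤ y) :
    ∀ r ∈ Q.Sall S.N y K, S.Good r ∧ ∏ l, r l ≤ y ^ (Q.J + Q.Δ) := by
  intro r hr
  rcases mem_union.mp hr with h | h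
  · obtain ⟨h1, h2⟩ := mem_filter.mp h
    exact ⟨S.mem_Gd.mp h1, h2.le.trans (Nat.pow_le_pow_right (by omega) (by omega))⟩
  · obtain ⟨z, -, h⟩ := mem_biUnion.mp h
    obtain ⟨u, hu, rfl⟩ := mem_image.mp h
    simp only [Par.Prs, Par.Rv, Pv, mem_filter, mem_product, Nat.mem_primeFactors] at hu
    refine ⟨S.good_up (S.mem_Gd.mp hu.1.1.1) _ hu.1.2.1.1 hu.1.2.1.2.1 hu.2, ?_⟩
    rw [prod_up]
    exact (Nat.mul_le_mul_left _ hu.1.2.2.2.le).trans hu.1.1.2.2.2.2.2.2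

lemma G_eq (Q : Par) (y : ℕ) (hy : 2 ≤ y) :
    ∑ r ∈ Q.Sall S.N y K, gw K (∏ l, r l) = ∑ r ∈ Q.S0 S.N y K, gw K (∏ l, r l) +
      ∑ z ∈ Q.Idx K, ∑ r ∈ Q.Rv S.N y z.1 z.2, th K S.N y z.2 r * gw K (∏ l, r l) := by
  rw [Q.sum_Sall S.N y S.Npos.ne' hy]
  congr 1
  refine sum_congr rfl fun z _ => sum_congr rfl fun r hr => ?_
  rw [th, sum_mul]
  apply sum_congr rfl
  intro p hp
  obtain ⟨h1, h2⟩ := mem_filter.mp hp
  rw [prod_up, gw_mul_prime (S.mem_Gd.mp (mem_filter.mp hr).1).1.prod_pos.ne'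
    (Nat.prime_of_mem_primeFactors (mem_filter.mp h1).1) h2, mul_comm]

lemma Fs_eq (Q : Par) (y : ℕ) (hy : 2 ≤ y) :
    Fs S.h (Q.Sall S.N y K) (fun _ => 1) = (Fs S.h (Q.S0 S.N y K) (fun _ => 1) +
      ∑ z ∈ Q.Idx K, Fs S.h (Q.Rv S.N y z.1 z.2) (th K S.N y z.2)) +
      ∑ z ∈ Q.Idx K, Bplus S.h z.1 (Q.Rv S.N y z.1 z.2) (Pv S.N y z.2) := by
  rw [Fs, Q.sum_Sall S.N y S.Npos.ne' hy, add_assoc, ← sum_add_distrib]
  congr 1
  refine sum_congr rfl fun z _ => ?_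
  rw [Fs, Bplus, ← sum_add_distrib]
  refine sum_congr rfl fun r hr => ?_
  rw [th, sum_mul, sum_smul, ← sum_add_distrib]
  apply sum_congr rfl
  intro p hp
  obtain ⟨h1, h2⟩ := mem_filter.mp hp
  have hg := S.mem_Gd.mp (mem_filter.mp hr).1
  have hp' := Nat.prime_of_mem_primeFactors (mem_filter.mp h1).1
  rw [prod_up, gw_mul_prime hg.1.prod_pos.ne' hp' h2]
  funext n
  simp only [Pi.smul_apply, Pi.add_apply, Pi.mul_apply, smul_eq_mul]
  rw [Psi_up _ _ _ (hg.1.pos _).ne' hp' (fun h => h2 (h.trans (dvd_prod_of_mem _ (mem_univ _)))),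
    gam]
  ring

end Setup

end Pool.Agent.Lib.MP_68a45e_nt
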