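import Pool.Agent.Lib.MP_b09185_nt.ShDet

/-! Functional equation and polynomial growth for the series of periodic sequences. -/

namespace Pool.Agent.Lib.MP_68a45e_nt.Tw

open Complex Set Filter Topology MeasureTheory
open Pool.Agent.Lib.MP_b09185_nt Pool.Agent.Lib.MP_b09185_nt.Sh Pool.Agent.Lib.MP_b09185_nt.Sh.Dt
open scoped Real

variable {q : ℕ} [NeZero q]

/-- the entire function `(s - 1) L(s)` -/
noncomputable def LL1 (Φ : ZMod q → ℂ) : ℂ → ℂ :=
  Function.update (fun s => (s - 1) * ZMod.LFunction Φ s) 1 (∑ j, Φ j / q)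

lemma LL1_eq (Φ : ZMod q → ℂ) {s : ℂ} (hs : s ≠ 1) : LL1 Φ s = (s - 1) * ZMod.LFunction Φ s :=
  Function.update_of_ne hs ..

lemma LL1_diff (Φ : ZMod q → ℂ) : Differentiable ℂ (LL1 Φ) := by
  rw [← differentiableOn_univ,
    ← differentiableOn_compl_singleton_and_continuousAt_iff (c := 1) Filter.univ_mem]
  refine ⟨DifferentiableOn.congr (f := fun s => (s - 1) * ZMod.LFunction Φ s)
    (fun s hs => DifferentiableAt.differentiableWithinAt
      (DifferentiableAt.mul (by fun_prop) (ZMod.differentiableAt_LFunction Φ s (Or.inl hs.2))))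
    fun s hs => LL1_eq Φ hs.2, ?_⟩
  exact continuousAt_update_same.2 (ZMod.LFunction_residue_one Φ)

lemma LL1_ser {Φ : ZMod q → ℂ} (hΦ : ∀ x, ‖Φ x‖ ≤ 1) {s : ℂ} (hs : 0 < s.re) :
    LL1 Φ s - (∑ n ∈ Finset.range q, Φ n) * (q : ℂ) ^ (-s) * riemannZeta₁ s =
      (s - 1) * ∑' n, SW.gb (fun n => Φ n) q n s := by
  have hq := NeZero.pos q
  have hq0 : (q : ℂ) ≠ 0 := by exact_mod_cast hq.ne'
  rw [← tsum_mul_left]
  refine SW.ser_eq (fun s => LL1 Φ s - (∑ n ∈ Finset.range q, Φ n) * (q : ℂ) ^ (-s) *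
    riemannZeta₁ s) ((LL1_diff Φ).sub (((SW.diff_cpow _ hq0 differentiable_id.neg).const_mul _).mul
      differentiable_riemannZeta₁)) (fun n s => (s - 1) * SW.gb (fun n => Φ n) q n s)
    (fun n => ?_) q (fun n s hs => ?_) (fun s hs => ?_) hs
  · have h1 : (n : ℂ) + 1 ≠ 0 := by exact_mod_cast n.succ_ne_zero
    have h2 : ((q * (n / q + 1) : ℕ) : ℂ) ≠ 0 := by
      exact_mod_cast (show q * (n / q + 1) ≠ 0 by positivity)
    exact (differentiable_id.sub_const 1).mul (((SW.diff_cpow _ h1 differentiable_id.neg).sub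
      (SW.diff_cpow _ h2 differentiable_id.neg)).const_mul _)
  · rw [norm_mul]
    refine (mul_le_mul (show ‖s - 1‖ ≤ ‖s‖ + 1 by simpa using norm_sub_le s 1)
      (SW.gb_b2 (fun n => hΦ n) hq n hs.le) (norm_nonneg _) (by positivity)).trans (le_of_eq ?_)
    ring
  · have h1 : s ≠ 1 := fun h => by
      rw [h, one_re] at hs
      linarith
    rw [tsum_mul_left, LL1_eq Φ h1, ZMod.LFunction_eq_LSeries Φ (by linarith),
      SW.LSeries_block (fun n => hΦ n) hq (by simp) (by linarith), zeta1_eq h1]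
    ring

lemma LL1_right {Φ : ZMod q → ℂ} (hΦ : ∀ x, ‖Φ x‖ ≤ 1) : ∃ C : ℝ, 0 ≤ C ∧ ∀ s : ℂ, 1 / 2 ≤ s.re →
    s.re ≤ 1 / 2 + 30 → ‖LL1 Φ s‖ ≤ C * (1 + |s.im|) ^ 32 := by
  obtain ⟨D, hD1, hD⟩ := zeta1_strip 30
  have hq := NeZero.pos q
  have hq1 : (1 : ℝ) ≤ q := by exact_mod_cast hq
  have h5 := SW.Zc_ge (η := 1 / 2) (by norm_num)
  refine ⟨‖∑ n ∈ Finset.range q, Φ n‖ * D + 32 * (SW.Zc (1 / 2) * (q * 32)), by positivity,
    fun s h1 h2 => ?_⟩
  have ht := abs_nonneg s.im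
  have a1 := SW.gb_bound (a := fun n => Φ n) (fun n => hΦ n) hq (η := 1 / 2) (by norm_num) le_rfl
    (s := s) (by linarith)
  rw [show (2 * (1 / 2) : ℝ) = 1 by norm_num, Real.rpow_one] at a1
  have a2 : ‖s‖ + 1 ≤ 32 * (1 + |s.im|) := by
    have := norm_le_abs_re_add_abs_im s
    rw [abs_of_nonneg (show 0 ≤ s.re by linarith)] at this
    linarith
  have a3 : ‖(q : ℂ) ^ (-s)‖ ≤ 1 := by
    rw [norm_natCast_cpow_of_pos hq]
    exact Real.rpow_le_one_of_one_le_of_nonpos hq1 (by simp; linarith)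
  have a4 := hD s (by rw [abs_le]; push_cast; constructor <;> linarith)
  have a5 : (1 + |s.im|) ^ 2 ≤ (1 + |s.im|) ^ 32 := pow_le_pow_right₀ (by linarith) (by norm_num)
  rw [← sub_add_cancel (LL1 Φ s) ((∑ n ∈ Finset.range q, Φ n) * (q : ℂ) ^ (-s) * riemannZeta₁ s),
    LL1_ser hΦ (by linarith), add_mul, add_comm (_ * D * _)]
  refine norm_add_le_of_le ?_ ?_
  · rw [norm_mul]
    calc _ ≤ 32 * (1 + |s.im|) * (SW.Zc (1 / 2) * (q * (32 * (1 + |s.im|)))) := by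
          refine mul_le_mul (le_trans (by simpa using norm_sub_le s 1) a2) (a1.trans ?_)
            (norm_nonneg _) (by positivity)
          gcongr
      _ = 32 * (SW.Zc (1 / 2) * (q * 32)) * (1 + |s.im|) ^ 2 := by ring
      _ ≤ _ := by gcongr
  · rw [norm_mul, norm_mul]
    calc _ ≤ ‖∑ n ∈ Finset.range q, Φ n‖ * 1 * (D * (1 + |s.im|) ^ (30 + 2)) := by gcongr
      _ = _ := by ring

/-- the factor in the functional equation -/
noncomputable def ch (q : ℕ) (ε s : ℂ) : ℂ :=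
  (q : ℂ) ^ (1 - s) * ((2 * π) ^ (s - 1) * Gamma (1 - s) *
    (exp (π * I * (1 - s) / 2) + ε * exp (-π * I * (1 - s) / 2)))

/-- the dual sequence -/
noncomputable def du (χ : DirichletCharacter ℂ q) (x : ZMod q) : ℂ :=
  (q : ℂ)⁻¹ * ZMod.dft (fun y => χ y) x

lemma du_le (χ : DirichletCharacter ℂ q) (x : ZMod q) : ‖du χ x‖ ≤ 1 := by
  have hq : (0 : ℝ) < q := by exact_mod_cast NeZero.pos q
  rw [du, norm_mul, norm_inv, norm_natCast, inv_mul_le_iff₀ hq, ZMod.dft_apply]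
  refine (norm_sum_le_of_le _ (n := fun _ => (1 : ℝ)) fun j _ => ?_).trans (by simp)
  rw [norm_smul, AddChar.norm_apply, one_mul]
  exact χ.norm_le_one j

lemma L_mul (c : ℂ) (Φ : ZMod q → ℂ) (s : ℂ) :
    ZMod.LFunction (fun x => c * Φ x) s = c * ZMod.LFunction Φ s := by
  simp only [ZMod.LFunction, Finset.mul_sum]
  exact Finset.sum_congr rfl fun _ _ => by ring

theorem L_refl (χ : DirichletCharacter ℂ q) {s : ℂ} (hs : s.re < 1) (h0 : s ≠ 0) :
    χ.LFunction s = ch q (χ (-1)) s * ZMod.LFunction (du χ) (1 - s) := by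
  have hq : (q : ℂ) ≠ 0 := by exact_mod_cast NeZero.ne q
  have h := ZMod.LFunction_one_sub (fun y => χ y) (s := 1 - s) (one_sub_ne hs)
    (Or.inr (by simpa using h0))
  have e : (fun x : ZMod q => χ (-x)) = fun x => χ (-1) * χ x := by
    funext x
    rw [← map_mul, neg_one_mul]
  rw [sub_sub_cancel, neg_sub, e, ZMod.dft_const_mul, L_mul, cpow_sub _ _ hq, cpow_one] at h
  unfold du
  rw [L_mul, ch]
  refine h.trans ?_
  field_simp

lemma ch_diffAt (ε : ℂ) {s : ℂ} (hs : s.re < 1) : DifferentiableAt ℂ (ch q ε) s := by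
  have h1 : DifferentiableAt ℂ (fun z : ℂ => Gamma (1 - z)) s :=
    (differentiableAt_Gamma _ (one_sub_ne hs)).comp s (by fun_prop)
  have h2 : DifferentiableAt ℂ (fun z : ℂ => (2 * π : ℂ) ^ (z - 1)) s :=
    DifferentiableAt.const_cpow (by fun_prop) (Or.inl (by simp))
  have h3 : DifferentiableAt ℂ (fun z : ℂ => (q : ℂ) ^ (1 - z)) s :=
    DifferentiableAt.const_cpow (by fun_prop) (Or.inl (by exact_mod_cast NeZero.ne q))
  unfold ch
  fun_prop

lemma ch_strip {ε : ℂ} (hε : ‖ε‖ ≤ 1) {Z : ℝ} (hZ : (q : ℝ) ≤ Z) (k : ℕ) {s : ℂ}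
    (h1 : 1 / 2 - k ≤ s.re) (h2 : s.re ≤ 1 / 2) :
    ‖ch q ε s‖ ≤ Z ^ (k + 1) * (3 * (k + |s.im|) ^ k) := by
  have hq := NeZero.pos q
  have hq1 : (1 : ℝ) ≤ q := by exact_mod_cast hq
  have hZ0 : 0 ≤ Z := q.cast_nonneg.trans hZ
  have hc := Real.cosh_pos (π * s.im)
  have hp := Real.pi_gt_three
  have h3 := gam_strip k (x := 1 - s.re) (by linarith) (by linarith) (-s.im)
  rw [abs_neg, show π * -s.im = -(π * s.im) by ring, Real.cosh_neg,
    show ((1 - s.re : ℝ) + (-s.im : ℝ) * I : ℂ) = 1 - s by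
      apply Complex.ext <;> simp] at h3
  have h4 : ‖(2 * π : ℂ) ^ (s - 1)‖ ^ 2 ≤ (2 * π)⁻¹ := by
    rw [show (2 * π : ℂ) = (2 * π : ℝ) by push_cast; ring,
      norm_cpow_eq_rpow_re_of_pos (by positivity), ← Real.rpow_natCast,
      ← Real.rpow_mul (by positivity), ← Real.rpow_neg_one]
    exact Real.rpow_le_rpow_of_exponent_le (by linarith) (by simp; linarith)
  have h5 : ‖exp (π * I * (1 - s) / 2) + ε * exp (-π * I * (1 - s) / 2)‖ ^ 2 ≤
      4 * Real.cosh (π * s.im) := by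
    have a1 : ‖exp (π * I * (1 - s) / 2) + ε * exp (-π * I * (1 - s) / 2)‖ ≤
        2 * Real.cosh (π * s.im / 2) := by
      rw [Real.cosh_eq, mul_div_cancel₀ _ two_ne_zero]
      refine norm_add_le_of_le (le_of_eq ?_) ?_
      · rw [norm_exp]
        simp
      · rw [norm_mul, norm_exp]
        refine (mul_le_of_le_one_left (Real.exp_pos _).le hε).trans (le_of_eq ?_)
        simp [neg_div]
    have a2 := Real.cosh_two_mul (π * s.im / 2)
    rw [mul_div_cancel₀ _ two_ne_zero] at a2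
    refine (pow_le_pow_left₀ (norm_nonneg _) a1 2).trans ?_
    nlinarith [sq_nonneg (Real.sinh (π * s.im / 2))]
  rw [ch, norm_mul]
  refine mul_le_mul ?_ ?_ (norm_nonneg _) (by positivity)
  · rw [norm_natCast_cpow_of_pos hq]
    calc _ ≤ (q : ℝ) ^ ((k + 1 : ℕ) : ℝ) :=
          Real.rpow_le_rpow_of_exponent_le hq1 (by simp; linarith)
      _ ≤ _ := by rw [Real.rpow_natCast]; gcongr
  · refine (pow_le_pow_iff_left₀ (norm_nonneg _) (by positivity) two_ne_zero).1 ?_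
    have hK : 0 ≤ ((k : ℝ) + |s.im|) ^ (2 * k) := by positivity
    rw [norm_mul, norm_mul, mul_pow, mul_pow]
    calc _ ≤ (2 * π)⁻¹ * (4 * ((k + |s.im|) ^ (2 * k) * (π / Real.cosh (π * s.im)))) *
          (4 * Real.cosh (π * s.im)) := by gcongr
      _ = 8 * (k + |s.im|) ^ (2 * k) := by field_simp; ring
      _ ≤ _ := by rw [mul_pow, ← pow_mul, mul_comm k 2]; linarith

lemma ch_le {ε : ℂ} (hε : ‖ε‖ ≤ 1) {Z : ℝ} (hZ : (q : ℝ) ≤ Z) {w : ℂ} (h1 : 1 / 2 - 30 ≤ w.re)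
    (h2 : w.re ≤ 1 / 2) {γ u : ℝ} (h : w.im = γ + u) :
    ‖ch q ε w‖ ≤ Z ^ (30 + 1) * (3 * (30 * (1 + |γ|)) ^ 30) * (1 + |u|) ^ 30 := by
  have hZ0 : 0 ≤ Z := q.cast_nonneg.trans hZ
  refine (ch_strip hε hZ 30 (by exact_mod_cast h1) h2).trans ?_
  rw [h, mul_assoc, mul_assoc, ← mul_pow]
  gcongr
  push_cast
  nlinarith [abs_add_le_mul γ u, abs_nonneg (γ + u)]

/-- polynomial growth in a strip -/
theorem LL1_strip (χ : DirichletCharacter ℂ q) : ∃ C : ℝ, 0 ≤ C ∧ ∀ s : ℂ, 1 / 2 - 30 ≤ s.re →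
    s.re ≤ 1 / 2 + 30 → ‖LL1 (fun x => χ x) s‖ ≤ C * (1 + |s.im|) ^ 63 := by
  obtain ⟨C1, c1, H1⟩ := LL1_right (Φ := fun x => χ x) χ.norm_le_one
  obtain ⟨C2, c2, H2⟩ := LL1_right (du_le χ)
  obtain ⟨D, hD⟩ := (isCompact_closedBall (0 : ℂ) 32).exists_bound_of_continuousOn
    (LL1_diff fun x => χ x).continuous.continuousOn
  have hD0 : 0 ≤ D := (norm_nonneg _).trans (hD 0 (by simp))
  set C3 : ℝ := 31 * ((q : ℝ) ^ (30 + 1) * (3 * (30 * (1 + |(0 : ℝ)|)) ^ 30) * C2) with hC3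
  have c3 : 0 ≤ C3 := by positivity
  refine ⟨C1 + D + C3, by positivity, fun s h1 h2 => ?_⟩
  have ht := abs_nonneg s.im
  have hp : 0 ≤ (1 + |s.im|) ^ 63 := by positivity
  rcases le_total (1 / 2) s.re with h | h
  · refine (H1 s h h2).trans (mul_le_mul (by linarith)
      (pow_le_pow_right₀ (by linarith) (by norm_num)) (by positivity) (by positivity))
  have a0 := norm_le_abs_re_add_abs_im s
  have a1 : |s.re| ≤ 30 := abs_le.2 ⟨by linarith, by linarith⟩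
  rcases le_total |s.im| 1 with h3 | h3
  · refine (hD s (by simp; linarith)).trans (le_trans (by linarith)
      (le_mul_of_one_le_right (by positivity) (one_le_pow₀ (by linarith))))
  have a2 : 1 ≤ ‖s‖ := h3.trans (abs_im_le_norm s)
  have a3 : s ≠ 0 := fun h0 => by
    rw [h0, norm_zero] at a2
    linarith
  have a4 := H2 (1 - s) (by simp; linarith) (by simp; linarith)
  rw [LL1_eq _ (by simpa using a3), norm_mul, sub_sub_cancel_left, norm_neg, sub_im, one_im,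
    zero_sub, abs_neg] at a4
  have a5 : ‖ZMod.LFunction (du χ) (1 - s)‖ ≤ C2 * (1 + |s.im|) ^ 32 :=
    (le_mul_of_one_le_left (norm_nonneg _) a2).trans a4
  have a6 := ch_le (q := q) (χ.norm_le_one (-1)) le_rfl h1 h (γ := 0) (u := s.im) (zero_add _).symm
  have a7 : ‖s - 1‖ ≤ 31 * (1 + |s.im|) := by
    have := norm_sub_le s 1
    rw [norm_one] at this
    linarith
  rw [LL1_eq _ (fun h0 => by rw [h0, one_re] at h; linarith),
    show ZMod.LFunction (fun x => χ x) s = _ from L_refl χ (by linarith) a3, norm_mul, norm_mul]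
  calc _ ≤ 31 * (1 + |s.im|) * ((q : ℝ) ^ (30 + 1) * (3 * (30 * (1 + |(0 : ℝ)|)) ^ 30) *
        (1 + |s.im|) ^ 30 * (C2 * (1 + |s.im|) ^ 32)) := by gcongr
    _ = C3 * (1 + |s.im|) ^ 63 := by rw [hC3]; ring
    _ ≤ _ := by gcongr; linarith

end Pool.Agent.Lib.MP_68a45e_nt.Tw
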