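import Pool.Agent.Lib.MP_68a45e_nt.TwSum
import Pool.Agent.Lib.MP_b09185_nt.VinZeta

/-! Dirichlet functions of small modulus near the line of abscissa one. -/

namespace Pool.Agent.Lib.MP_68a45e_nt.Tw

open Finset Complex Pool.Agent.Lib.MP_b09185_nt Pool.Agent.Lib.MP_b09185_nt.Vin

lemma blockT {l N q : ℕ} (hl : 2 ≤ l) (hN : 1 ≤ N) {s : ℂ} (h0 : 1 - 1 / (l : ℝ) ^ 54 ≤ s.re)
    (h1 : (N : ℝ) ^ (3 / 4 : ℝ) ≤ |s.im|) (h2 : |s.im| ≤ Real.exp (l ^ 55))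
    (hq1 : 1 ≤ q) (hq : Real.log q ≤ (l : ℝ) ^ 46) {f : ℕ → ℂ} (hf : ∀ n, ‖f n‖ ≤ 1)
    (hp : Function.Periodic f q) : ‖∑ n ∈ Ioc N (2 * N), f n * (n : ℂ) ^ (-s)‖ ≤ 3 := by
  have N1 : (1 : ℝ) ≤ N := by exact_mod_cast hN
  have N0 : (0 : ℝ) < N := by linarith
  have l2 : (2 : ℝ) ≤ l := by exact_mod_cast hl
  have l1 : (1 : ℝ) ≤ (l : ℝ) ^ 54 := one_le_pow₀ (by linarith)
  have s0 : 0 ≤ s.re := le_trans (by rw [sub_nonneg, div_le_one (by linarith)]; exact l1) h0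
  have hw : ∀ n m : ℕ, N ≤ n → n ≤ m → (m : ℝ) ^ (-s.re) ≤ (n : ℝ) ^ (-s.re) := fun n m h h' =>
    Real.rpow_le_rpow_of_nonpos (by exact_mod_cast (by omega)) (by exact_mod_cast h') (by linarith)
  rcases le_total (Real.log N) ((l : ℝ) ^ 54) with h | h
  · refine (norm_sum_le_of_le _ (n := fun _ => (N : ℝ) ^ (-s.re)) fun n hn => ?_).trans ?_
    · rw [norm_mul, norm_natCast_cpow_of_pos (by have := (mem_Ioc.1 hn).1; omega), neg_re]
      exact (mul_le_of_le_one_left (by positivity) (hf n)).trans (hw N n le_rfl (mem_Ioc.1 hn).1.le)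
    · rw [sum_const, Nat.card_Ioc, nsmul_eq_mul, show 2 * N - N = N by omega, mul_comm,
        ← Real.rpow_add_one N0.ne', Real.rpow_def_of_pos N0]
      refine le_trans (Real.exp_le_exp.2 ?_) Real.exp_one_lt_three.le
      calc Real.log N * (-s.re + 1) ≤ Real.log N * (1 / (l : ℝ) ^ 54) := by
            exact mul_le_mul_of_nonneg_left (by linarith) (Real.log_nonneg N1)
        _ ≤ 1 := by rw [mul_one_div, div_le_one (by linarith)]; exact h
  · have h3 : |s.im| ≤ (N : ℝ) ^ l := by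
      refine h2.trans ?_
      rw [← Real.rpow_natCast (N : ℝ), Real.rpow_def_of_pos N0, pow_succ]
      gcongr
    have h4 : Real.log q * (l : ℝ) ^ 8 ≤ Real.log N := by
      refine le_trans ?_ h
      rw [show (l : ℝ) ^ 54 = l ^ 46 * l ^ 8 by ring]
      gcongr
    have hB := fun m (a : N ≤ m) (b : m ≤ 2 * N) => expsumT hl h a b h1 h3 hq1 h4 hf hp
    have A := abel (fun n => (n : ℝ) ^ (-s.re)) _ (by omega : N ≤ 2 * N)
      (fun n hn => hw n (n + 1) hn (by omega)) hB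
    have e : ∑ n ∈ Ioc N (2 * N), f n * (n : ℂ) ^ (-s) = ∑ n ∈ Ioc N (2 * N),
        (((n : ℝ) ^ (-s.re) : ℝ) : ℂ) * (f n * (n : ℂ) ^ (-((s.im : ℂ) * I))) := by
      refine sum_congr rfl fun n hn => ?_
      have : (n : ℂ) ≠ 0 := by exact_mod_cast (by have := (mem_Ioc.1 hn).1; omega)
      rw [mul_left_comm, ofReal_cpow n.cast_nonneg, ofReal_natCast, ← cpow_add _ _ this, ofReal_neg, ← neg_add,
        re_add_im]
    have b := norm_le_norm_add_norm_sub' (∑ n ∈ Ioc N (2 * N),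
        (((n : ℝ) ^ (-s.re) : ℝ) : ℂ) * (f n * (n : ℂ) ^ (-((s.im : ℂ) * I))))
      (((((2 * N : ℕ) : ℝ) ^ (-s.re) : ℝ) : ℂ) *
        ∑ n ∈ Ioc N (2 * N), f n * (n : ℂ) ^ (-((s.im : ℂ) * I)))
    rw [norm_mul, norm_real, Real.norm_of_nonneg (by positivity)] at b
    have c := mul_le_mul_of_nonneg_left (hB (2 * N) (by omega) le_rfl)
      (by positivity : 0 ≤ ((2 * N : ℕ) : ℝ) ^ (-s.re))
    have d : (N : ℝ) ^ (1 - 1 / (l : ℝ) ^ 54) * (N : ℝ) ^ (-s.re) ≤ 1 := by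
      rw [← Real.rpow_add N0]
      exact Real.rpow_le_one_of_one_le_of_nonpos N1 (by linarith)
    rw [e]
    linarith

lemma L_approx {q : ℕ} [NeZero q] {χ : DirichletCharacter ℂ q} (hχ : χ ≠ 1) {s : ℂ}
    (hs : 0 < s.re) {K : ℕ} (hK : 0 < K) :
    ‖χ.LFunction s‖ ≤ ‖∑ n ∈ Ioc 0 K, χ n * (n : ℂ) ^ (-s)‖ +
      q * ((K : ℝ) ^ (-s.re) + ‖s‖ * ((K : ℝ) ^ (-s.re) / s.re)) := by
  have hA := Mai.char_sum_le hχ
  have hK' : (0 : ℝ) < K := by exact_mod_cast hK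
  rw [Mai.LFunction_eq_GG hχ hs, Mai.GG,
    ← (Mai.GG_summable (a := fun n => χ n) hA hs).sum_add_tsum_nat_add K,
    eq_sub_of_add_eq (Mai.abel_fin (fun n => χ n) s K).symm]
  have h1 : ∑ n ∈ range K, χ ((n + 1 : ℕ) : ZMod q) * (((n : ℝ) + 1 : ℝ) : ℂ) ^ (-s) =
      ∑ n ∈ Ioc 0 K, χ n * (n : ℂ) ^ (-s) := by
    clear hK hK'
    induction K with
    | zero => simp
    | succ K ih => rw [sum_range_succ, sum_Ioc_succ_top K.zero_le, ih]; norm_cast
  have h2 : ‖(∑ k ∈ range K, χ ((k + 1 : ℕ) : ZMod q)) * (((K : ℝ) + 1 : ℝ) : ℂ) ^ (-s)‖ ≤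
      q * (K : ℝ) ^ (-s.re) := by
    rw [norm_mul, norm_cpow_eq_rpow_re_of_pos (by positivity), neg_re]
    apply mul_le_mul (hA K) _ (by positivity) (by positivity)
    exact Real.rpow_le_rpow_of_nonpos hK' (by linarith) (by linarith)
  have h3 : ‖∑' n, (∑ k ∈ range (n + K + 1), χ ((k + 1 : ℕ) : ZMod q)) * Mai.dd s (n + K)‖ ≤
      q * (‖s‖ * ((K : ℝ) ^ (-s.re) / s.re)) := by
    refine (tsum_of_norm_bounded
      (((Mai.summable_tail hK' hs).mul_left ‖s‖).mul_left (q : ℝ)).hasSum (fun n => ?_)).trans ?_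
    · refine (Mai.GG_term_le (a := fun n => χ n) hA hs (n + K)).trans (le_of_eq ?_)
      push_cast
      rw [add_comm (n : ℝ) K]
    · rw [tsum_mul_left, tsum_mul_left]
      gcongr
      exact Mai.tsum_tail_le hK' hs
  refine (norm_add_le _ _).trans ((add_le_add (norm_sub_le _ _) h3).trans ?_)
  rw [h1]
  linarith

lemma L_one {q : ℕ} [NeZero q] {s : ℂ} (hs : 0 < s.re) (h1 : s ≠ 1) :
    ∃ c : ℂ, c ≠ 0 ∧ ‖c‖ ≤ q ∧ (1 : DirichletCharacter ℂ q).LFunction s = c * riemannZeta s := by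
  have b : ∀ p ∈ q.primeFactors, ‖(p : ℂ) ^ (-s)‖ < 1 := fun p hp => by
    have h := Nat.prime_of_mem_primeFactors hp
    rw [norm_natCast_cpow_of_pos h.pos, neg_re]
    exact Real.rpow_lt_one_of_one_lt_of_neg (by exact_mod_cast h.one_lt) (by linarith)
  refine ⟨_, prod_ne_zero_iff.2 fun p hp h => ?_, ?_,
    DirichletCharacter.LFunctionTrivChar_eq_mul_riemannZeta h1⟩
  · have := b p hp
    rw [← sub_eq_zero.1 h, norm_one] at this
    exact lt_irrefl _ this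
  · rw [norm_prod]
    refine (prod_le_prod (g := fun p : ℕ => (p : ℝ)) (fun _ _ => by positivity)
      fun p hp => ?_).trans ?_
    · have h2 : (2 : ℝ) ≤ p := by exact_mod_cast (Nat.prime_of_mem_primeFactors hp).two_le
      have := norm_sub_le (1 : ℂ) ((p : ℂ) ^ (-s))
      rw [norm_one] at this
      linarith [b p hp]
    · rw [← Nat.cast_prod]
      exact Nat.cast_le.2 (Nat.le_of_dvd (NeZero.pos q) (Nat.prod_primeFactors_dvd q))

theorem L_bound {q : ℕ} [NeZero q] (χ : DirichletCharacter ℂ q) {l : ℕ} (hl : 2 ≤ l)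
    (hq : Real.log q ≤ (l : ℝ) ^ 46) {s : ℂ} (h0 : 1 - 1 / (l : ℝ) ^ 54 ≤ s.re) (h0' : s.re ≤ 2)
    (h1 : 1 ≤ |s.im|) (h2 : |s.im| ≤ Real.exp (l ^ 55)) :
    ‖χ.LFunction s‖ ≤ q * (l : ℝ) ^ 58 := by
  have l2 : (2 : ℝ) ≤ l := by exact_mod_cast hl
  have l4 : (4 : ℝ) ≤ (l : ℝ) ^ 54 := le_trans (by norm_num) (pow_le_pow_left₀ (by norm_num) l2 54)
  have s0 : 3 / 4 ≤ s.re := by
    have := one_div_le_one_div_of_le (by norm_num) l4
    linarith
  have q1 : (1 : ℝ) ≤ q := by exact_mod_cast NeZero.pos q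
  rcases eq_or_ne χ 1 with rfl | hχ
  · obtain ⟨c, -, c1, c2⟩ := L_one (q := q) (s := s) (by linarith)
      (by rintro rfl; simp at h1; linarith)
    rw [c2, norm_mul]
    gcongr
    exact zeta_bound hl h0 h0' h1 h2
  set t := |s.im| with ht
  have t0 : 0 < t := by linarith
  have ex : ∃ J : ℕ, t < ((2 ^ J : ℕ) : ℝ) ^ (3 / 4 : ℝ) := by
    obtain ⟨J, hJ⟩ := pow_unbounded_of_one_lt (t ^ 2) (by norm_num : (1 : ℝ) < 2)
    refine ⟨J, lt_of_lt_of_le ((Real.lt_sqrt t0.le).2 hJ) ?_⟩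
    rw [Real.sqrt_eq_rpow]
    push_cast
    exact Real.rpow_le_rpow_of_exponent_le (one_le_pow₀ (by norm_num)) (by norm_num)
  have J1 := Nat.find_spec ex
  have J2 := fun j (hj : j < Nat.find ex) => not_lt.1 (Nat.find_min ex hj)
  obtain ⟨J, hJ⟩ : ∃ J, Nat.find ex = J + 1 := by
    refine Nat.exists_eq_succ_of_ne_zero fun h => ?_
    rw [h] at J1
    simp at J1
    linarith
  rw [hJ] at J1 J2
  have a1 := dyad (fun n => χ n * (n : ℂ) ^ (-s)) (by simp) (J + 1) fun j hj =>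
    blockT hl Nat.one_le_two_pow h0 (J2 j hj) h2 (NeZero.pos q) hq (f := fun n => χ n)
      (fun n => χ.norm_le_one _) (fun n => by simp)
  have J3 := J2 J (by omega)
  have a2 : (J : ℝ) ≤ 2 * (l : ℝ) ^ 55 := by
    have b := J3.trans h2
    rw [Real.rpow_def_of_pos (by positivity), Real.exp_le_exp, Nat.cast_pow, Real.log_pow] at b
    have := Real.log_two_gt_d9
    push_cast at b
    nlinarith [Nat.cast_nonneg (α := ℝ) J]
  have a3 := L_approx hχ (s := s) (by linarith) (K := 2 ^ (J + 1)) (by positivity)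
  set K : ℝ := ((2 ^ (J + 1) : ℕ) : ℝ) with hK
  have K1 : 1 ≤ K := by rw [hK]; exact_mod_cast Nat.one_le_two_pow
  have a5 : K ^ (-s.re) + ‖s‖ * (K ^ (-s.re) / s.re) ≤ 7 := by
    have b1 : K ^ (-s.re) ≤ 1 / t := by
      refine (Real.rpow_le_rpow_of_exponent_le K1 (by linarith : -s.re ≤ -(3 / 4))).trans ?_
      rw [Real.rpow_neg (by linarith), one_div]
      gcongr
    have b2 := norm_le_abs_re_add_abs_im s
    rw [abs_of_pos (by linarith : 0 < s.re)] at b2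
    have b3 : 1 / t ≤ 1 := by rw [div_le_one t0]; exact h1
    have b4 : ‖s‖ * (K ^ (-s.re) / s.re) ≤ 6 := by
      calc _ ≤ (4 * t) * ((1 / t) / (3 / 4)) := by gcongr; linarith
        _ ≤ _ := by field_simp; norm_num
    linarith
  have a6 : (16 : ℝ) ≤ (l : ℝ) ^ 55 := le_trans (by norm_num) (pow_le_pow_left₀ (by norm_num) l2 55)
  have a7 : 8 * (l : ℝ) ^ 55 ≤ (l : ℝ) ^ 58 := by
    rw [show (l : ℝ) ^ 58 = l ^ 3 * l ^ 55 by ring]
    gcongr
    exact le_trans (by norm_num) (pow_le_pow_left₀ (by norm_num) l2 3)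
  push_cast at a1
  have a8 := mul_le_mul_of_nonneg_left a5 (by linarith : (0 : ℝ) ≤ q)
  have a9 : 1 + 3 * ((J : ℝ) + 1) ≤ q * (1 + 3 * (J + 1)) :=
    le_mul_of_one_le_left (by positivity) q1
  have a10 : (q : ℝ) * (1 + 3 * (J + 1) + 7) ≤ q * (l : ℝ) ^ 58 := by gcongr; linarith
  linarith

end Pool.Agent.Lib.MP_68a45e_nt.Tw
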