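import Pool.Agent.Lib.MP_b09185_nt.VinExp

/-! Zeta sums twisted by a periodic function. -/

namespace Pool.Agent.Lib.MP_68a45e_nt.Tw

open Finset Fintype Real Pool.Agent.Lib.LargeSieve Pool.Agent.Lib.MP_b09185_nt.Vin

variable {k : ℕ}

/-- The rounded frequency for shifts by multiples of `q`. -/
noncomputable def at' (Q : Fin k → ℕ) (τ : ℝ) (q n : ℕ) : Fin k → ℕ :=
  fun j => ⌊Q j * al (τ * q ^ (j.1 + 1)) j n⌋₊ % Q j

lemma phaseT (Q : Fin k → ℕ) (hQ : ∀ j, 0 < Q j) {τ : ℝ} (hτ : 0 ≤ τ) {N P n m q : ℕ} (hN : 0 < N) (hn : N < n)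
    (hm : m < P) (hP : 2 * (q * P) ≤ N) :
    ‖ee (-(τ * log ((n : ℝ) - (q * m : ℕ)))) - ee (-(τ * log n)) * chi Q (at' Q τ q n)
      (fun j => (m : ℤ) ^ (j.1 + 1))‖ ≤
      2 * π * (∑ j, (P : ℝ) ^ (j.1 + 1) / Q j + 2 * τ * (q * (P : ℝ) / N) ^ (k + 1)) := by
  have N0 : (0 : ℝ) < N := by exact_mod_cast hN
  have n1 : (N : ℝ) ≤ n := by exact_mod_cast hn.le
  have n0 : (0 : ℝ) < n := by linarith
  have m1 : (m : ℝ) ≤ P := by exact_mod_cast hm.le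
  have P1 : 2 * (q * (P : ℝ)) ≤ N := by exact_mod_cast hP
  set x : ℝ := q * m / n with hx
  have x0 : 0 ≤ x := by positivity
  have x1 : x ≤ q * P / N := by rw [hx]; gcongr
  have x2 : x ≤ 1 / 2 := x1.trans (by rw [div_le_iff₀ N0]; linarith)
  have T := Real.abs_log_sub_add_sum_range_le (x := x) (by rw [abs_of_nonneg x0]; linarith) k
  rw [abs_of_nonneg x0] at T
  have T2 : x ^ (k + 1) / (1 - x) ≤ 2 * (q * (P : ℝ) / N) ^ (k + 1) := by
    rw [div_le_iff₀ (by linarith)]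
    have : x ^ (k + 1) ≤ (q * (P : ℝ) / N) ^ (k + 1) := by gcongr
    nlinarith [pow_nonneg x0 (k + 1)]
  have e1 : log ((n : ℝ) - (q * m : ℕ)) = log n + log (1 - x) := by
    rw [← Real.log_mul n0.ne' (by linarith), hx]
    congr 1
    push_cast
    field_simp
  set z : ℤ := ∑ j : Fin k, (m : ℤ) ^ (j.1 + 1) * (⌊Q j * al (τ * q ^ (j.1 + 1)) j n⌋₊ / Q j : ℕ) with hz
  rw [chi, ← ee_add, ← mul_one (ee (_ + _)), ← ee_int z, ← ee_add]
  refine (ee_lip _ _).trans ?_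
  gcongr
  have e2 : τ * ∑ i ∈ range k, x ^ (i + 1) / (i + 1) =
      ∑ j : Fin k, (m : ℝ) ^ (j.1 + 1) * al (τ * q ^ (j.1 + 1)) j n := by
    rw [mul_sum, Finset.sum_range]
    refine sum_congr rfl fun j _ => ?_
    rw [al, hx, div_pow, mul_pow]
    field_simp
  have e3 : -(τ * log ((n : ℝ) - (q * m : ℕ))) - (-(τ * log n) + ∑ j : Fin k, (((m : ℤ) ^ (j.1 + 1) : ℤ) : ℝ) *
      ((at' Q τ q n j : ℝ) / Q j) + z) = ∑ j : Fin k, (m : ℝ) ^ (j.1 + 1) / Q j *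
        (Q j * al (τ * q ^ (j.1 + 1)) j n - ⌊Q j * al (τ * q ^ (j.1 + 1)) j n⌋₊) -
        τ * (∑ i ∈ range k, x ^ (i + 1) / (i + 1) + log (1 - x)) := by
    rw [e1, mul_add τ (∑ i ∈ range k, _), e2, hz]
    simp only [Int.cast_sum, Int.cast_mul, Int.cast_pow, Int.cast_natCast]
    have : ∀ j : Fin k, (m : ℝ) ^ (j.1 + 1) / Q j * (Q j * al (τ * q ^ (j.1 + 1)) j n - ⌊Q j * al (τ * q ^ (j.1 + 1)) j n⌋₊) =
        2 * ((m : ℝ) ^ (j.1 + 1) * al (τ * q ^ (j.1 + 1)) j n) - (m : ℝ) ^ (j.1 + 1) * al (τ * q ^ (j.1 + 1)) j n -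
          (m : ℝ) ^ (j.1 + 1) * ((at' Q τ q n j : ℝ) / Q j) -
          (m : ℝ) ^ (j.1 + 1) * ((⌊Q j * al (τ * q ^ (j.1 + 1)) j n⌋₊ / Q j : ℕ) : ℝ) := fun j => by
      have q0 : (Q j : ℝ) ≠ 0 := by exact_mod_cast (hQ j).ne'
      have h : ((Q j * (⌊Q j * al (τ * q ^ (j.1 + 1)) j n⌋₊ / Q j) + ⌊Q j * al (τ * q ^ (j.1 + 1)) j n⌋₊ % Q j : ℕ) : ℝ) =
        ⌊Q j * al (τ * q ^ (j.1 + 1)) j n⌋₊ := by rw [Nat.div_add_mod]
      rw [Nat.cast_add, Nat.cast_mul] at h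
      rw [← h, at']
      field_simp
      ring
    simp only [this, sum_sub_distrib, ← mul_sum]
    ring
  rw [e3]
  refine (abs_sub _ _).trans (add_le_add ((abs_sum_le_sum_abs _ _).trans
    (sum_le_sum fun j _ => ?_)) ?_)
  · have a0 : 0 ≤ Q j * al (τ * q ^ (j.1 + 1)) j n := by rw [al]; positivity
    have a1 := Nat.floor_le a0
    have a2 := Nat.lt_floor_add_one (Q j * al (τ * q ^ (j.1 + 1)) j n)
    rw [abs_of_nonneg (mul_nonneg (by positivity) (by linarith))]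
    calc _ ≤ (P : ℝ) ^ (j.1 + 1) / Q j * 1 := by gcongr; linarith
      _ = _ := mul_one _
  · rw [abs_mul, abs_of_nonneg hτ, mul_comm 2 τ, mul_assoc]
    gcongr
    exact T.trans T2


lemma fiberT (Q : Fin k → ℕ) (hQ : ∀ j, 0 < Q j) {τ : ℝ} (hτ : 0 < τ) {N M : ℕ} (hN : 0 < N)
    (hM : M ≤ 2 * N) (j : Fin k) (b : ℕ) :
    (#{n ∈ Ioc N M | an Q τ n j = b} : ℝ) ≤ (τ / (N : ℝ) ^ (j.1 + 1) + 1) *
      ((j + 1) * (2 * N) ^ (j.1 + 2) / (τ * Q j) + 1) := by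
  have q0 : (0 : ℝ) < Q j := by exact_mod_cast hQ j
  have N0 : (0 : ℝ) < N := by exact_mod_cast hN
  set H : ℝ := (j + 1) * (2 * N) ^ (j.1 + 2) / (τ * Q j) with hH
  have H0 : 0 < H := by positivity
  set R : ℝ := τ / (N : ℝ) ^ (j.1 + 1) with hR
  have key : ∀ n n' : ℕ, N < n → n ≤ n' → n' ≤ 2 * N →
      ⌊Q j * al τ j n⌋₊ = ⌊Q j * al τ j n'⌋₊ → n' - n < ⌈H⌉₊ := by
    intro n n' h1 h2 h3 h4
    have g := al_gap hτ j h1 h2 h3
    have a1 := Nat.floor_le (show 0 ≤ Q j * al τ j n' by rw [al]; positivity)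
    have a2 := Nat.lt_floor_add_one (Q j * al τ j n)
    rw [h4] at a2
    rw [Nat.lt_ceil, Nat.cast_sub h2, hH, lt_div_iff₀ (by positivity)]
    rw [div_le_iff₀ (by positivity)] at g
    have a3 : Q j * (al τ j n - al τ j n') < 1 := by linarith
    have a4 : (0 : ℝ) < (j + 1) * (2 * N) ^ (j.1 + 2) := by positivity
    nlinarith [mul_le_mul_of_nonneg_left g q0.le, mul_lt_mul_of_pos_right a3 a4]
  have c : #{n ∈ Ioc N M | an Q τ n j = b} ≤ #(range (⌊R⌋₊ + 1) ×ˢ range ⌈H⌉₊) := by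
    refine card_le_card_of_injOn (fun n => (⌊Q j * al τ j n⌋₊ / Q j, n % ⌈H⌉₊)) ?_ ?_
    · intro n hn
      simp only [coe_filter, mem_Ioc, Set.mem_ofPred_eq] at hn
      simp only [coe_product, coe_range, Set.mem_prod, Set.mem_Iio]
      refine ⟨Nat.lt_succ_of_le (Nat.le_floor ?_), Nat.mod_lt _ (Nat.ceil_pos.2 H0)⟩
      have n1 : (N : ℝ) ≤ n := by exact_mod_cast hn.1.1.le
      refine Nat.cast_div_le.trans ?_
      rw [div_le_iff₀' q0]
      refine (Nat.floor_le (by rw [al]; positivity)).trans ?_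
      rw [al, hR]
      gcongr
      calc (N : ℝ) ^ (j.1 + 1) ≤ 1 * (n : ℝ) ^ (j.1 + 1) := by rw [one_mul]; gcongr
        _ ≤ _ := by gcongr; linarith [Nat.cast_nonneg (α := ℝ) j.1]
    · intro n hn n' hn' h
      simp only [coe_filter, mem_Ioc, Set.mem_ofPred_eq] at hn hn'
      simp only [Prod.mk.injEq] at h
      have h1 : ⌊Q j * al τ j n⌋₊ = ⌊Q j * al τ j n'⌋₊ := by
        have h2 := hn.2.trans hn'.2.symm
        rw [← Nat.div_add_mod ⌊Q j * al τ j n⌋₊ (Q j), ← Nat.div_add_mod ⌊Q j * al τ j n'⌋₊ (Q j),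
          h.1]
        exact congrArg _ h2
      rcases le_total n n' with h3 | h3
      · have := Nat.eq_zero_of_dvd_of_lt ((Nat.modEq_iff_dvd' h3).1 h.2)
          (key n n' hn.1.1 h3 (by omega) h1)
        omega
      · have := Nat.eq_zero_of_dvd_of_lt ((Nat.modEq_iff_dvd' h3).1 h.2.symm)
          (key n' n hn'.1.1 h3 (by omega) h1.symm)
        omega
  rw [card_product, Finset.card_range, Finset.card_range] at c
  calc _ ≤ (((⌊R⌋₊ + 1) * ⌈H⌉₊ : ℕ) : ℝ) := by exact_mod_cast c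
    _ ≤ _ := by
      push_cast
      gcongr
      · exact Nat.floor_le (by positivity)
      · exact (Nat.ceil_lt_add_one H0.le).le


lemma main2T (Q : Fin k → ℕ) (hQ0 : ∀ j, 0 < Q j) (τ : ℝ) (q : ℕ) {N M P s : ℕ} (hM : M ≤ 2 * N)
    (hQ : ∀ j, s * P ^ (j.1 + 1) < Q j) {ν : ℝ} (hν : ∀ b, (#{n ∈ Ioc N M | at' Q τ q n = b} : ℝ) ≤ ν)
    (hs : 1 ≤ s) : N * (∑ n ∈ Ioc N M, ‖fA Q (at' Q τ q n) (range P)‖) ^ (2 * s) ≤
      N ^ (2 * s) * (ν * ((∏ j, (Q j : ℝ)) * JA k s (range P))) := by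
  obtain ⟨r, hr⟩ : ∃ r, 2 * s = r + 1 := ⟨2 * s - 1, by omega⟩
  have a1 := pow_sum_le_card_mul_sum_pow (s := Ioc N M)
    (f := fun n => ‖fA Q (at' Q τ q n) (range P)‖) (fun a _ => norm_nonneg _) r
  have a2 : ∑ n ∈ Ioc N M, ‖fA Q (at' Q τ q n) (range P)‖ ^ (2 * s) ≤
      ν * ((∏ j, (Q j : ℝ)) * JA k s (range P)) := by
    rw [← sum_pow_eq Q s Subset.rfl hQ, mul_sum, ← sum_fiberwise_of_maps_to (t := Bx Q)
      (g := at' Q τ q) fun n _ => mem_piFinset.2 fun j => mem_range.2 (Nat.mod_lt _ (hQ0 j))]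
    refine sum_le_sum fun b _ => ?_
    rw [Finset.sum_congr rfl (g := fun _ => ‖fA Q b (range P)‖ ^ (2 * s))
      fun n hn => by rw [(mem_filter.1 hn).2], sum_const, nsmul_eq_mul]
    gcongr
    exact hν b
  have a3 : (#(Ioc N M) : ℝ) ≤ N := by rw [Nat.card_Ioc]; exact_mod_cast (by omega)
  rw [hr] at a2 ⊢
  calc _ ≤ (N : ℝ) * ((N : ℝ) ^ r * (ν * ((∏ j, (Q j : ℝ)) * JA k s (range P)))) := by
        gcongr
        refine a1.trans ?_
        gcongr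
    _ = _ := by ring

lemma main1T (Q : Fin k → ℕ) (hQ : ∀ j, 0 < Q j) {τ : ℝ} (hτ : 0 ≤ τ) {N M P q : ℕ} (hN : 0 < N)
    (h : N ≤ M) (hM : M ≤ 2 * N) (hP : 2 * (q * P) ≤ N) {f : ℕ → ℂ} (hf : ∀ n, ‖f n‖ ≤ 1)
    (hp : Function.Periodic f q) :
    P * ‖∑ n ∈ Ioc N M, f n * ee (-(τ * log n))‖ ≤ ∑ n ∈ Ioc N M, ‖fA Q (at' Q τ q n) (range P)‖ +
      N * (P * (2 * π * (∑ j, (P : ℝ) ^ (j.1 + 1) / Q j + 2 * τ * (q * (P : ℝ) / N) ^ (k + 1)))) +
      P * (2 * (q * P)) := by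
  set δ := 2 * π * (∑ j, (P : ℝ) ^ (j.1 + 1) / Q j + 2 * τ * (q * (P : ℝ) / N) ^ (k + 1)) with hδ
  set S := ∑ n ∈ Ioc N M, f n * ee (-(τ * log n)) with hS
  have a1 : ‖∑ m ∈ range P, (S - ∑ n ∈ Ioc N M, f n * ee (-(τ * log ((n : ℝ) - (q * m : ℕ)))))‖ ≤
      P * (2 * (q * P)) := by
    refine (norm_sum_le_of_le _ (n := fun _ => 2 * (q * (P : ℝ))) fun m hm => ?_).trans (by simp)
    have hm' := (mem_range.1 hm).le
    have b := shift (fun x => f ⌊x⌋₊ * ee (-(τ * log x)))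
      (fun x => by rw [norm_mul, norm_ee, mul_one]; exact hf _) h (q * m)
    have e : ∀ n ∈ Ioc N M, f ⌊(n : ℝ) - (q * m : ℕ)⌋₊ * ee (-(τ * log ((n : ℝ) - (q * m : ℕ)))) =
        f n * ee (-(τ * log ((n : ℝ) - (q * m : ℕ)))) := fun n hn => by
      have c1 : q * m ≤ q * P := by gcongr
      have c2 := (mem_Ioc.1 hn).1
      rw [Nat.floor_sub_natCast, Nat.floor_natCast, ← (hp.nat_mul m) (n - q * m), Nat.cast_id,
        mul_comm m q, Nat.sub_add_cancel (by omega)]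
    simp only [Nat.floor_natCast] at b
    rw [Finset.sum_congr rfl e] at b
    refine b.trans ?_
    push_cast
    gcongr
  have a2 : ∀ n ∈ Ioc N M, ‖∑ m ∈ range P, f n * ee (-(τ * log ((n : ℝ) - (q * m : ℕ))))‖ ≤
      ‖fA Q (at' Q τ q n) (range P)‖ + P * δ := fun n hn => by
    have b : ‖∑ m ∈ range P, ee (-(τ * log ((n : ℝ) - (q * m : ℕ)))) -
        ee (-(τ * log n)) * fA Q (at' Q τ q n) (range P)‖ ≤ P * δ := by
      rw [fA, mul_sum, ← sum_sub_distrib]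
      exact (norm_sum_le_of_le _ fun m hm =>
        phaseT Q hQ hτ hN (mem_Ioc.1 hn).1 (mem_range.1 hm) hP).trans (by simp [hδ])
    have := norm_le_norm_add_norm_sub' (∑ m ∈ range P, ee (-(τ * log ((n : ℝ) - (q * m : ℕ)))))
      (ee (-(τ * log n)) * fA Q (at' Q τ q n) (range P))
    rw [norm_mul, norm_ee, one_mul] at this
    rw [← mul_sum, norm_mul]
    exact (mul_le_of_le_one_left (norm_nonneg _) (hf n)).trans (by linarith)
  have a3 := norm_sum_le_of_le _ a2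
  rw [sum_sub_distrib, sum_const, Finset.card_range, sum_comm] at a1
  rw [sum_add_distrib, sum_const, Nat.card_Ioc, nsmul_eq_mul] at a3
  have a4 := norm_le_norm_add_norm_sub' (P • S)
    (∑ n ∈ Ioc N M, ∑ m ∈ range P, f n * ee (-(τ * log ((n : ℝ) - (q * m : ℕ)))))
  rw [nsmul_eq_mul, norm_mul, Complex.norm_natCast, ← nsmul_eq_mul P S] at a4
  have a5 : ((M - N : ℕ) : ℝ) * (P * δ) ≤ N * (P * δ) := by
    gcongr
    omega
  linarith

lemma coreT {l N M q : ℕ} (hl : 2 ≤ l) (hL : (l : ℝ) ^ 54 ≤ log N) (h : N ≤ M) (hM : M ≤ 2 * N)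
    {t : ℝ} (h1 : (N : ℝ) ^ (3 / 4 : ℝ) ≤ t) (h2 : t ≤ (N : ℝ) ^ l) (hq1 : 1 ≤ q)
    (hqN : log q * (l : ℝ) ^ 8 ≤ log N) {f : ℕ → ℂ} (hf : ∀ n, ‖f n‖ ≤ 1)
    (hp : Function.Periodic f q) :
    ‖∑ n ∈ Ioc N M, f n * ee (-(t / (2 * π) * log n))‖ ≤ (N : ℝ) ^ (1 - 1 / (l : ℝ) ^ 54) := by
  obtain ⟨k, hk⟩ : ∃ k, k = 2 * l := ⟨_, rfl⟩
  have k4 : 4 ≤ k := by omega
  have s1 := sV_le (k := k) (by omega)
  have s2 := sV_ge (k := k) (by omega)
  set s := sV k with hs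
  have k4' : (4 : ℝ) ≤ k := by exact_mod_cast k4
  have s2' : (k : ℝ) ≤ s := by exact_mod_cast s2
  have l1 : 16 * (k : ℝ) ^ 25 ≤ (l : ℝ) ^ 54 := by
    have : 16 * k ^ 25 ≤ l ^ 54 := by
      calc 16 * k ^ 25 ≤ l ^ 4 * (l ^ 2) ^ 25 := by
            gcongr
            · exact Nat.pow_le_pow_left hl 4
            · nlinarith
        _ = _ := by ring
    exact_mod_cast this
  have l2 : 384 * (s : ℝ) ≤ 16 * (k : ℝ) ^ 25 := by
    have : 384 * s ≤ 16 * k ^ 25 := by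
      have : 64 * k ^ 5 ≤ k ^ 3 * k ^ 5 := by gcongr; exact Nat.pow_le_pow_left k4 3
      have : k ^ 3 * k ^ 5 ≤ k ^ 25 := by
        rw [← pow_add]; exact Nat.pow_le_pow_right (by omega) (by omega)
      omega
    exact_mod_cast this
  set X : ℝ := (N : ℝ) with hX
  have L1 : 384 * (s : ℝ) ≤ log X := by linarith
  have X4 : 4 ≤ X := by
    have h0 : 0 < X := by
      rcases (show (0 : ℝ) ≤ X from Nat.cast_nonneg N).eq_or_lt with h | h
      · rw [← h, Real.log_zero] at L1; linarith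
      · exact h
    linarith [Real.log_le_sub_one_of_pos h0]
  have X0 : 0 < X := by linarith
  have X1 : 1 ≤ X := by linarith
  have big : ∀ y c : ℝ, c ≤ log X * y → exp c ≤ X ^ y := fun y c h => by
    rw [Real.rpow_def_of_pos X0]; gcongr
  have N4 : 4 ≤ N := by rw [hX] at X4; exact_mod_cast X4
  set P := Nat.sqrt N with hP
  have P2 : 2 ≤ P := Nat.le_sqrt.2 N4
  have PP : P * P ≤ N := Nat.sqrt_le N
  have P2' : (2 : ℝ) ≤ P := by exact_mod_cast P2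
  have P0 : (0 : ℝ) < P := by linarith
  have Pa : (P : ℝ) ≤ X ^ (1 / 2 : ℝ) := by
    rw [← Real.sqrt_eq_rpow]; exact Real.nat_sqrt_le_real_sqrt
  have Pb : X ^ (1 / 2 : ℝ) ≤ 2 * P := by
    rw [← Real.sqrt_eq_rpow]; linarith [Real.real_sqrt_le_nat_sqrt_succ (a := N)]
  have q1' : (1 : ℝ) ≤ q := by exact_mod_cast hq1
  have qk : (q : ℝ) ^ (k + 1) ≤ X ^ (1 / 32 : ℝ) := by
    rw [← Real.exp_log (by linarith : (0 : ℝ) < q), ← Real.exp_nat_mul]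
    refine big _ _ ?_
    have b1 : 32 * (k + 1) ≤ l ^ 8 := by
      have : 2 ^ 7 * l ≤ l ^ 8 := by rw [pow_succ l 7]; gcongr
      omega
    have b2 : 32 * ((k + 1 : ℕ) : ℝ) ≤ (l : ℝ) ^ 8 := by exact_mod_cast b1
    nlinarith [Real.log_nonneg q1']
  have qq : ∀ i, i ≤ k + 1 → (q : ℝ) ^ i ≤ X ^ (1 / 32 : ℝ) := fun i hi =>
    (pow_le_pow_right₀ q1' hi).trans qk
  have qP : 2 * (q * P) ≤ N := by
    have b1 : (q : ℝ) ^ 4 ≤ P := by
      have b2 : ((q : ℝ) ^ 4) ^ 2 * ((q : ℝ) ^ 4) ^ 2 ≤ X ^ (1 / 2 : ℝ) := by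
        calc _ = ((q : ℝ) ^ 1) ^ 16 := by ring
          _ ≤ (X ^ (1 / 32 : ℝ)) ^ 16 := by gcongr; exact qq 1 (by omega)
          _ = _ := by rw [← Real.rpow_mul_natCast X0.le]; norm_num
      have b3 : (1 : ℝ) ≤ (q : ℝ) ^ 4 := one_le_pow₀ q1'
      rcases hq1.eq_or_lt with h | h
      · rw [← h]; simp only [Nat.cast_one, one_pow]; linarith
      · have b4 : (2 : ℝ) ≤ (q : ℝ) ^ 4 :=
          le_trans (by exact_mod_cast h) (le_self_pow₀ q1' (by norm_num))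
        have b5 : 2 * (q : ℝ) ^ 4 ≤ ((q : ℝ) ^ 4) ^ 2 := by rw [sq]; gcongr
        have b6 : ((q : ℝ) ^ 4) ^ 2 ≤ ((q : ℝ) ^ 4) ^ 2 * ((q : ℝ) ^ 4) ^ 2 :=
          le_mul_of_one_le_right (by positivity) (one_le_pow₀ b3)
        linarith
    have b4 : q ^ 4 ≤ P := by exact_mod_cast b1
    have b5 : 2 * q ≤ P := by
      rcases hq1.eq_or_lt with h | h
      · omega
      · calc 2 * q ≤ q ^ 3 * q := by gcongr; exact le_trans (by norm_num) (Nat.pow_le_pow_left h 3)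
          _ ≤ P := by rwa [← pow_succ]
    calc 2 * (q * P) = 2 * q * P := by ring
      _ ≤ P * P := by gcongr
      _ ≤ N := PP
  set e : ℝ := 1 / (16 * k) with he
  have Y2 : 2 ≤ X ^ e := by
    refine le_trans (by linarith [Real.add_one_le_exp 1]) (big e 1 ?_)
    rw [he, mul_one_div, le_div_iff₀ (by positivity)]; linarith
  set D := ⌈X ^ e⌉₊ with hD
  have D1 : X ^ e ≤ D := Nat.le_ceil _
  have D2 : (D : ℝ) ≤ 2 * X ^ e := by linarith [Nat.ceil_lt_add_one (by positivity : 0 ≤ X ^ e)]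
  have D3 : 2 ≤ D := by exact_mod_cast Y2.trans D1
  set Q : Fin k → ℕ := fun j => s * D * P ^ (j.1 + 1) with hQd
  have hQ : ∀ j, s * P ^ (j.1 + 1) < Q j := fun j =>
    Nat.mul_lt_mul_of_pos_right (lt_mul_of_one_lt_right (by omega) D3) (by positivity)
  have hQ0 : ∀ j, 0 < Q j := fun j => (Nat.zero_le _).trans_lt (hQ j)
  have t0 : 0 < t := lt_of_lt_of_le (by positivity) h1
  have τ0 : 0 < t / (2 * π) := by positivity
  obtain ⟨j, j1, j2, j3⟩ := pick X1 (by omega) h1 h2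
  have hq : X ^ (1 / 2 : ℝ) ≤ Q ⟨j, by omega⟩ := by
    refine Pb.trans ?_
    have : 2 * P ≤ s * D * P ^ (j + 1) :=
      Nat.mul_le_mul (D3.trans (Nat.le_mul_of_pos_left _ (by omega))) (Nat.le_self_pow (by omega) P)
    exact_mod_cast this
  have hν : ∀ b, (#{n ∈ Ioc N M | at' Q (t / (2 * π)) q n = b} : ℝ) ≤
      X ^ (1 / 32 : ℝ) * (32 * ((j + 1) * 2 ^ (j + 2)) * X ^ (3 / 4 : ℝ)) := fun b => by
    have b0 : #{n ∈ Ioc N M | at' Q (t / (2 * π)) q n = b} ≤ #{n ∈ Ioc N M |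
        an Q (t / (2 * π) * q ^ (j + 1)) n ⟨j, by omega⟩ = b ⟨j, by omega⟩} :=
      card_le_card (monotone_filter_right _ fun n _ hn => congrFun hn _)
    have b1 := fiberT Q hQ0 (τ := t / (2 * π) * q ^ (j + 1)) (by positivity) (by omega) hM
      ⟨j, by omega⟩ (b ⟨j, by omega⟩)
    have b2 := nu_le X1 j2 j3 hq
    have b3 : (1 : ℝ) ≤ (q : ℝ) ^ (j + 1) := one_le_pow₀ q1'
    have b4 : 0 < (Q ⟨j, by omega⟩ : ℝ) := by exact_mod_cast hQ0 _
    refine (Nat.cast_le.2 b0).trans (b1.trans (le_trans ?_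
      (mul_le_mul (qq (j + 1) (by omega)) b2 (by positivity) (by positivity))))
    rw [← mul_assoc, ← hX]
    gcongr
    · rw [mul_add, mul_one, mul_comm _ ((q : ℝ) ^ (j + 1)), mul_div_assoc]
      gcongr
    · exact le_mul_of_one_le_right τ0.le b3
  have m2 := main2T Q hQ0 (t / (2 * π)) q hM hQ hν (by omega)
  have m1 := main1T Q hQ0 τ0.le (by omega) h hM qP hf hp
  rw [← hX] at m1 m2
  set G := ∑ n ∈ Ioc N M, ‖fA Q (at' Q (t / (2 * π)) q n) (range P)‖ with hG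
  have q1 : (∏ j, (Q j : ℝ)) * JA k s (range P) ≤
      (2 * s) ^ k * exp (k ^ 24) * X ^ (1 / 8 : ℝ) * P ^ (2 * s) := by
    have e1 : ∏ j, (Q j : ℝ) = (s * D) ^ k * (P : ℝ) ^ ((k : ℝ) * (k + 1) / 2) := by
      rw [← sum_succ_eq, Real.rpow_natCast, ← prod_pow_eq_pow_sum]
      simp only [hQd]
      push_cast
      rw [prod_mul_distrib, prod_const, card_univ, Fintype.card_fin]
    have e2 : (X ^ e) ^ k = X ^ (1 / 16 : ℝ) := by
      rw [← Real.rpow_mul_natCast X0.le, he]; congr 1; field_simp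
    have e3 : (P : ℝ) ^ (1 / 8 : ℝ) ≤ X ^ (1 / 16 : ℝ) := by
      refine (Real.rpow_le_rpow P0.le Pa (by norm_num)).trans_eq ?_
      rw [← Real.rpow_mul X0.le]; norm_num
    have e4 : X ^ (1 / 8 : ℝ) = X ^ (1 / 16 : ℝ) * X ^ (1 / 16 : ℝ) := by
      rw [← Real.rpow_add X0]; norm_num
    have e5 : (P : ℝ) ^ ((k : ℝ) * (k + 1) / 2) *
        (P : ℝ) ^ (2 * (s : ℝ) - k * (k + 1) / 2 + 1 / 8) = P ^ (1 / 8 : ℝ) * P ^ (2 * s) := by
      rw [← Real.rpow_natCast, ← Real.rpow_add P0, ← Real.rpow_add P0]; congr 1; push_cast; ring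
    calc _ ≤ (s * (2 * X ^ e)) ^ k * (P : ℝ) ^ ((k : ℝ) * (k + 1) / 2) *
          (exp (k ^ 24) * (P : ℝ) ^ (2 * (s : ℝ) - k * (k + 1) / 2 + 1 / 8)) := by
          rw [e1]; gcongr; exact vmvt (by omega) (by omega)
      _ = (2 * s) ^ k * exp (k ^ 24) * ((X ^ e) ^ k * P ^ (1 / 8 : ℝ)) * P ^ (2 * s) := by
          rw [mul_pow, mul_pow, mul_pow]
          linear_combination (s ^ k * 2 ^ k * (X ^ e) ^ k * exp (k ^ 24)) * e5
      _ ≤ _ := by rw [e2, e4]; gcongr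
  have q2 : 32 * ((j + 1) * 2 ^ (j + 2)) * (2 * s : ℝ) ^ k * exp (k ^ 24) ≤ X ^ (1 / 16 : ℝ) :=
    (const_le k4 (by omega) s1).trans (big _ _ (by linarith))
  have s0 : (0 : ℝ) < s := by linarith
  set ε : ℝ := 1 / (64 * s) with hε
  have g1 : G ≤ X * P * X ^ (-ε) := by
    refine le_of_pow_le_pow_left₀ (n := 2 * s) (by omega) (by positivity)
      (le_of_mul_le_mul_left (m2.trans ?_) X0)
    have e1 : (X ^ (-ε)) ^ (2 * s) = X ^ (-1 / 32 : ℝ) := by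
      rw [← Real.rpow_mul_natCast X0.le, hε]; congr 1; push_cast; field_simp; norm_num
    have e2 : X ^ (1 / 16 : ℝ) * X ^ (3 / 4 : ℝ) * X ^ (1 / 8 : ℝ) * X ^ (1 / 32 : ℝ) =
        X * X ^ (-1 / 32 : ℝ) := by
      rw [← Real.rpow_add X0, ← Real.rpow_add X0, ← Real.rpow_add X0,
        ← Real.rpow_one_add' X0.le (by norm_num)]
      norm_num
    calc _ ≤ X ^ (2 * s) * (X ^ (1 / 32 : ℝ) * (32 * ((j + 1) * 2 ^ (j + 2)) * X ^ (3 / 4 : ℝ)) *
          ((2 * s) ^ k * exp (k ^ 24) * X ^ (1 / 8 : ℝ) * P ^ (2 * s))) := by gcongr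
      _ = X ^ (2 * s) * P ^ (2 * s) * ((32 * ((j + 1) * 2 ^ (j + 2)) * (2 * s : ℝ) ^ k *
          exp (k ^ 24)) * X ^ (3 / 4 : ℝ) * X ^ (1 / 8 : ℝ) * X ^ (1 / 32 : ℝ)) := by ring
      _ ≤ X ^ (2 * s) * P ^ (2 * s) *
          (X ^ (1 / 16 : ℝ) * X ^ (3 / 4 : ℝ) * X ^ (1 / 8 : ℝ) * X ^ (1 / 32 : ℝ)) := by
          gcongr
      _ = _ := by rw [e2, mul_pow, mul_pow, e1]; ring
  have ε1 : ε ≤ e := one_div_le_one_div_of_le (by positivity) (by linarith)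
  have ε2 : ε ≤ 1 / 4 := one_div_le_one_div_of_le (by positivity) (by linarith)
  set Z := X ^ (-ε) with hZ
  have Z0 : 0 < Z := by positivity
  have PX : ∀ i, i ≤ k + 1 → (q : ℝ) ^ i * ((P : ℝ) / X) ≤ Z := fun i hi => by
    rw [← mul_div_assoc, div_le_iff₀ X0, hZ, ← Real.rpow_add_one X0.ne']
    refine (mul_le_mul (qq i hi) Pa P0.le (by positivity)).trans ?_
    rw [← Real.rpow_add X0]
    exact Real.rpow_le_rpow_of_exponent_le X1 (by linarith)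
  have d1 : ∑ j, (P : ℝ) ^ (j.1 + 1) / Q j ≤ Z := by
    have : ∀ j : Fin k, (P : ℝ) ^ (j.1 + 1) / Q j = 1 / (s * D) := fun j => by
      simp only [hQd]; push_cast; field_simp
    simp only [this, sum_const, card_univ, Fintype.card_fin, nsmul_eq_mul]
    calc (k : ℝ) * (1 / (s * D)) ≤ s * (1 / (s * X ^ e)) := by gcongr
      _ = X ^ (-e) := by rw [Real.rpow_neg X0.le]; field_simp
      _ ≤ Z := Real.rpow_le_rpow_of_exponent_le X1 (by linarith)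
  have d2 : 2 * (t / (2 * π)) * (q * (P : ℝ) / X) ^ (k + 1) ≤ Z := by
    have b1 : ((P : ℝ) / X) ^ 2 ≤ 1 / X := by
      rw [div_pow, div_le_div_iff₀ (by positivity) X0, one_mul, sq, sq]
      gcongr
      rw [hX]
      exact_mod_cast PP
    have b2 : 2 * (t / (2 * π)) ≤ X ^ l := by
      rw [mul_div_assoc', mul_div_mul_left _ _ two_ne_zero]
      exact (div_le_self t0.le (by linarith [Real.pi_gt_three])).trans h2
    calc _ = 2 * (t / (2 * π)) * ((((P : ℝ) / X) ^ 2) ^ l * (q ^ (k + 1) * (P / X))) := by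
          rw [mul_div_assoc, mul_pow, pow_succ ((P : ℝ) / X), ← pow_mul, ← hk]; ring
      _ ≤ X ^ l * ((1 / X) ^ l * Z) := by gcongr; exact PX _ le_rfl
      _ = Z := by rw [one_div, inv_pow]; field_simp
  have f1 : ‖∑ n ∈ Ioc N M, f n * ee (-(t / (2 * π) * log n))‖ ≤ 19 * (X * Z) := by
    refine le_of_mul_le_mul_left (m1.trans ?_) P0
    have PX := PX 1 (by omega)
    rw [pow_one, ← mul_div_assoc, div_le_iff₀ X0] at PX
    have : X * (P * (2 * π * (∑ j, (P : ℝ) ^ (j.1 + 1) / Q j +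
        2 * (t / (2 * π)) * (q * (P : ℝ) / X) ^ (k + 1)))) ≤ X * (P * (2 * 4 * (Z + Z))) := by
      gcongr; exact Real.pi_le_four
    have b2 := mul_le_mul_of_nonneg_left PX P0.le
    have b3 : G ≤ X * P * Z := g1
    linarith
  have f2 : 19 ≤ X ^ (ε / 2) := by
    refine le_trans ?_ (big _ 3 ?_)
    · have := Real.exp_one_gt_d9
      rw [show (3 : ℝ) = (3 : ℕ) by norm_num, ← Real.exp_one_pow]
      calc (19 : ℝ) ≤ 2.7 ^ 3 := by norm_num
        _ ≤ _ := by gcongr; linarith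
    · rw [hε, div_div, mul_one_div, le_div_iff₀ (by positivity)]; linarith
  calc _ ≤ X ^ (ε / 2) * (X * Z) := f1.trans (by gcongr)
    _ = X ^ (1 - ε / 2) := by
        rw [hZ, ← Real.rpow_one_add' X0.le (by linarith), ← Real.rpow_add X0]; congr 1; ring
    _ ≤ _ := by
        refine Real.rpow_le_rpow_of_exponent_le X1 ?_
        rw [hε, div_div]
        gcongr
        linarith

theorem expsumT {l N M q : ℕ} (hl : 2 ≤ l) (hL : (l : ℝ) ^ 54 ≤ log N) (h : N ≤ M)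
    (hM : M ≤ 2 * N) {t : ℝ} (h1 : (N : ℝ) ^ (3 / 4 : ℝ) ≤ |t|) (h2 : |t| ≤ (N : ℝ) ^ l)
    (hq1 : 1 ≤ q) (hqN : log q * (l : ℝ) ^ 8 ≤ log N) {f : ℕ → ℂ} (hf : ∀ n, ‖f n‖ ≤ 1)
    (hp : Function.Periodic f q) :
    ‖∑ n ∈ Ioc N M, f n * (n : ℂ) ^ (-((t : ℂ) * Complex.I))‖ ≤
      (N : ℝ) ^ (1 - 1 / (l : ℝ) ^ 54) := by
  rw [Finset.sum_congr rfl fun n hn => by
    rw [cpow_eq n (by have := (mem_Ioc.1 hn).1; omega) t]]
  rcases le_total 0 t with h0 | h0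
  · have H := coreT hl hL h hM h1 h2 hq1 hqN hf hp
    rwa [abs_of_nonneg h0] at H
  · have H := coreT hl hL h hM h1 h2 hq1 hqN (f := fun n => (starRingEnd ℂ) (f n))
      (fun n => by rw [Complex.norm_conj]; exact hf n) (fun n => by simp only [hp n])
    rw [abs_of_nonpos h0, ← Complex.norm_conj, map_sum] at H
    simpa only [map_mul, Complex.conj_conj, conj_ee, neg_neg, neg_div, neg_mul] using H

end Pool.Agent.Lib.MP_68a45e_nt.Tw
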