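import Pool.Agent.Lib.MP_68a45e_nt.TwL
import Pool.Agent.Lib.MP_b09185_nt.VinZero

/-! A zero free region of the Vinogradov type for characters of small modulus. -/

namespace Pool.Agent.Lib.MP_68a45e_nt.Tw

open Complex Metric Filter ArithmeticFunction Pool.Agent.Lib.MP_b09185_nt
  Pool.Agent.Lib.MP_b09185_nt.Vin

section
variable {q : ℕ} [NeZero q]

omit [NeZero q] in
lemma three_fourT (χ : DirichletCharacter ℂ q) {σ : ℝ} (hσ : 1 < σ) (t : ℝ) :
    0 ≤ 3 * (LSeries Mai.vm σ).re + 4 * (LSeries (Mai.ch χ * Mai.vm) (σ + t * I)).re +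
      (LSeries (Mai.ch (χ ^ 2) * Mai.vm) (σ + (2 * t : ℝ) * I)).re := by
  have h := fun (ψ : DirichletCharacter ℂ q) (u : ℝ) => hasSum_re
    (ψ.LSeriesSummable_twist_vonMangoldt (s := σ + u * I) (by simpa using hσ)).hasSum
  have h0 := hasSum_re (LSeriesSummable_vonMangoldt (s := σ) (by simpa using hσ)).hasSum
  refine (((h0.mul_left 3).add ((h χ t).mul_left 4)).add (h (χ ^ 2) (2 * t))).nonneg fun n => ?_
  rw [Mai.term_vm, Mai.term_twist, Mai.term_twist]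
  simp only [re_ofReal_mul, ofReal_re]
  have hc : 0 ≤ Λ n / (n : ℝ) ^ σ := div_nonneg vonMangoldt_nonneg (by positivity)
  have e : (χ ^ 2) n * exp ((-(2 * t * Real.log n) : ℝ) * I) =
      (χ n * exp ((-(t * Real.log n) : ℝ) * I)) ^ 2 := by
    rw [mul_pow, MulChar.pow_apply' _ two_ne_zero, ← exp_nat_mul]
    congr 2
    push_cast
    ring
  have hn : ‖χ n * exp ((-(t * Real.log n) : ℝ) * I)‖ ≤ 1 := by
    rw [norm_mul, norm_exp_ofReal_mul_I, mul_one]
    exact χ.norm_le_one _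
  rw [e]
  generalize χ n * exp ((-(t * Real.log n) : ℝ) * I) = z at hn ⊢
  have h1 : z.re ^ 2 + z.im ^ 2 ≤ 1 := by
    have := Complex.sq_norm z
    rw [normSq_apply] at this
    nlinarith [norm_nonneg z]
  have h2 : 0 ≤ 3 + 4 * z.re + (z ^ 2).re := by
    rw [sq, mul_re]
    nlinarith [sq_nonneg (1 + z.re)]
  nlinarith [mul_nonneg hc h2]

lemma land_hypT (χ : DirichletCharacter ℂ q) {m : ℕ} (hm : 5 ≤ m)
    (hM : 2 * (q * (m : ℝ) ^ 225) ≤ Real.exp (m / 200)) {t : ℝ}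
    (h1 : 2 ≤ |t|) (h2 : |t| + 1 ≤ Real.exp ((m : ℝ) ^ 110)) :
    let c : ℂ := ((1 + 1 / (m : ℝ) ^ 109 : ℝ) : ℂ) + t * I
    DifferentiableOn ℂ χ.LFunction (ball c (1 / (m : ℝ) ^ 108)) ∧
      (∀ z ∈ ball c (1 / (m : ℝ) ^ 108), ‖χ.LFunction z‖ ≤ q * (m : ℝ) ^ 116) ∧
      (∀ z ∈ ball c (1 / (m : ℝ) ^ 108), χ.LFunction z = 0 → z.re < c.re) ∧
      q * (m : ℝ) ^ 116 ≤ Real.exp (m / 200) * ‖χ.LFunction c‖ ∧
      (LSeries (Mai.ch χ * Mai.vm) c).re = -(deriv χ.LFunction c / χ.LFunction c).re := by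
  intro c
  have m5 : (5 : ℝ) ≤ m := by exact_mod_cast hm
  have p : ∀ n : ℕ, (2 : ℝ) ≤ (m : ℝ) ^ (n + 1) := fun n =>
    le_trans (by linarith) (le_self_pow₀ (by linarith) n.succ_ne_zero)
  have x0 : 0 < 1 / (m : ℝ) ^ 109 := by positivity
  have x1 : 1 / (m : ℝ) ^ 109 ≤ 1 / 2 := one_div_le_one_div_of_le (by norm_num) (p 108)
  have r1 : 1 / (m : ℝ) ^ 108 ≤ 1 / 2 := one_div_le_one_div_of_le (by norm_num) (p 107)
  have cr : c.re = 1 + 1 / (m : ℝ) ^ 109 := by simp [c, -ofReal_add, -ofReal_div, -one_div]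
  have ci : c.im = t := by simp [c, -ofReal_add, -ofReal_div, -one_div]
  have hb : ∀ z ∈ ball c (1 / (m : ℝ) ^ 108), |z.re - c.re| ≤ 1 / (m : ℝ) ^ 108 ∧
      |z.im - t| ≤ 1 / 2 := fun z hz => by
    rw [mem_ball, dist_eq_norm] at hz
    have a := abs_re_le_norm (z - c)
    have b := abs_im_le_norm (z - c)
    rw [sub_re] at a
    rw [sub_im, ci] at b
    exact ⟨by linarith, by linarith⟩
  have c1 : 1 < c.re := by linarith
  have n1 : ∀ z ∈ ball c (1 / (m : ℝ) ^ 108), z ≠ 1 := by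
    rintro z hz rfl
    have := (hb _ hz).2
    rw [one_im, zero_sub, abs_neg] at this
    linarith
  have q1 : (1 : ℝ) ≤ q := by exact_mod_cast NeZero.pos q
  have lq : Real.log q ≤ ((m ^ 2 : ℕ) : ℝ) ^ 46 := by
    rw [Real.log_le_iff_le_exp (by linarith)]
    have b1 : (q : ℝ) ≤ q * (m : ℝ) ^ 225 := 
      le_mul_of_one_le_right (by linarith) (one_le_pow₀ (by linarith))
    have b2 : (m : ℝ) ≤ ((m ^ 2 : ℕ) : ℝ) ^ 46 := by
      push_cast; rw [← pow_mul]; exact le_self_pow₀ (by linarith) (by norm_num)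
    exact le_trans (by linarith) (hM.trans (Real.exp_le_exp.2 (by linarith)))
  refine ⟨fun z hz => (χ.differentiableAt_LFunction z (Or.inl (n1 z hz))).differentiableWithinAt, fun z hz => ?_,
    fun z hz h => ?_, ?_, ?_⟩
  · obtain ⟨a, b⟩ := hb z hz
    rw [abs_le] at a
    have b1 := abs_sub_abs_le_abs_sub z.im t
    have b2 := abs_sub_abs_le_abs_sub t z.im
    rw [abs_sub_comm] at b2
    have := L_bound χ (l := m ^ 2) (s := z) (by nlinarith) lq (by push_cast; rw [← pow_mul]; linarith)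
      (by linarith) (by linarith) (by push_cast; rw [← pow_mul]; linarith)
    push_cast at this
    rwa [← pow_mul] at this
  · by_contra! hh
    exact χ.LFunction_ne_zero_of_one_le_re (Or.inr (n1 z hz)) (by linarith) h
  · have a := Mai.inv_L_le χ c1
    rw [cr, add_sub_cancel_left, one_div_one_div] at a
    calc q * (m : ℝ) ^ 116 ≤ q * (m : ℝ) ^ 116 * ((1 + (m : ℝ) ^ 109) * ‖χ.LFunction c‖) :=
          le_mul_of_one_le_right (by positivity) a
      _ ≤ q * (m : ℝ) ^ 116 * ((2 * (m : ℝ) ^ 109) * ‖χ.LFunction c‖) := by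
          have : (2 : ℝ) ≤ (m : ℝ) ^ 109 := p 108
          gcongr _ * (?_ * _); linarith
      _ = 2 * (q * (m : ℝ) ^ 225) * ‖χ.LFunction c‖ := by ring
      _ ≤ _ := by gcongr
  · rw [Mai.twist_eq χ c1, neg_re]

end

lemma zfT_nat (b : ℕ) : ∀ᶠ m : ℕ in atTop, ∀ (q : ℕ) [NeZero q] (χ : DirichletCharacter ℂ q),
    (q : ℝ) ≤ (m : ℝ) ^ b → ∀ s : ℂ, χ.LFunction s = 0 → 2 ≤ |s.im| →
    2 * |s.im| + 1 ≤ Real.exp ((m : ℝ) ^ 110) → s.re ≤ 1 - 1 / (10 * (m : ℝ) ^ 109) := by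
  obtain ⟨C, hC⟩ := Mai.vm_bound
  have e1 : ∀ᶠ x : ℝ in atTop, 2 * x ^ (b + 225) ≤ Real.exp (x / 200) := by
    have := (tendsto_exp_mul_div_rpow_atTop (b + 225 : ℕ) (1 / 200) (by norm_num)).eventually_ge_atTop 2
    filter_upwards [this, eventually_gt_atTop 0] with x h1 h2
    rw [le_div_iff₀ (by positivity), Real.rpow_natCast] at h1
    rwa [div_eq_inv_mul, ← one_div]
  filter_upwards [tendsto_natCast_atTop_atTop.eventually e1, eventually_ge_atTop 5,
    tendsto_natCast_atTop_atTop.eventually (eventually_ge_atTop (20 * C))] with m hM' hm hmC q _ χ hq s hs h1 h2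
  have hM : 2 * (q * (m : ℝ) ^ 225) ≤ Real.exp (m / 200) := by
    refine le_trans ?_ hM'
    rw [pow_add]
    gcongr
  by_contra! hh
  have m5 : (5 : ℝ) ≤ m := by exact_mod_cast hm
  have s1 : s.re < 1 := by
    by_contra! h
    exact χ.LFunction_ne_zero_of_one_le_re (Or.inr (by rintro rfl; simp at h1; linarith)) h hs
  obtain ⟨a1, a2, a3, a4, a5⟩ := land_hypT χ hm hM h1 (by linarith)
  obtain ⟨b1, b2, b3, b4, b5⟩ := land_hypT (χ ^ 2) hm hM (t := 2 * s.im)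
    (by rw [abs_mul, abs_two]; linarith) (by rw [abs_mul, abs_two]; linarith)
  set y : ℝ := (m : ℝ) ^ 108 with hy
  have y0 : 0 < y := by positivity
  have e : (m : ℝ) ^ 109 = y * m := pow_succ _ _
  have my : (m : ℝ) ≤ (m : ℝ) ^ 109 := le_self_pow₀ (by linarith) (by norm_num)
  set w : ℝ := (m : ℝ) ^ 109 with hw
  have w0 : 0 < w := by linarith
  have d : ((1 + 1 / w : ℝ) : ℂ) + s.im * I - s = ((1 + 1 / w - s.re : ℝ) : ℂ) := by
    apply Complex.ext <;> simp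
  have x0 : 0 < 1 / w := by positivity
  have d1 : 1 + 1 / w - s.re ≤ 11 / (10 * w) := by
    have : 11 / (10 * w) = 1 / w + 1 / (10 * w) := by field_simp; ring
    linarith
  have L1 := Mai.landau1 (by positivity) (by positivity) a1 a2 a3 a4 (ρ := s) (by
    rw [mem_ball, dist_comm, dist_eq_norm, d, norm_real, Real.norm_of_nonneg (by linarith)]
    refine d1.trans_lt ?_
    rw [div_div, div_lt_div_iff₀ (by positivity) (by positivity), e]
    nlinarith) hs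
  have L0 := Mai.landau0 (by positivity) (by positivity) b1 b2 b3 b4
  have T := three_fourT χ (σ := 1 + 1 / w) (by linarith) s.im
  have V := hC (1 + 1 / w) ⟨by linarith, by
    have := one_div_le_one_div_of_le one_pos (by linarith : 1 ≤ w); linarith⟩
  rw [a5, b5] at T
  rw [d, ← ofReal_one, ← ofReal_div, ofReal_re] at L1
  rw [add_sub_cancel_left, one_div_one_div] at V
  have d2 : 10 * w / 11 ≤ 1 / (1 + 1 / w - s.re) := by
    rw [← one_div_div]
    exact one_div_le_one_div_of_le (by linarith) d1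
  have d3 : 16 * ((m : ℝ) / 200) / (1 / y) = 2 * w / 25 := by rw [e]; field_simp; ring
  rw [d3] at L0 L1
  linarith

theorem zfL : ∃ θ : ℝ, 0 < θ ∧ θ < 1 ∧ ∀ B : ℝ, ∃ L0 : ℝ, ∀ L : ℝ, L0 ≤ L →
    ∀ (q : ℕ) [NeZero q] (χ : DirichletCharacter ℂ q), (q : ℝ) ≤ L ^ B → ∀ s : ℂ, s ≠ 1 →
      0 < s.re → χ.LFunction s = 0 → |s.im| ≤ Real.exp L → s.re ≤ 1 - L ^ (-θ) := by
  obtain ⟨θ, L1, θ0, θ1, hz⟩ := zf
  refine ⟨max θ (219 / 220), lt_max_of_lt_left θ0, max_lt θ1 (by norm_num), fun B => ?_⟩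
  set b := ⌈B⌉₊ with hb
  obtain ⟨m0, hm0⟩ := eventually_atTop.1 (zfT_nat (110 * b))
  obtain ⟨c, c0, hc⟩ := SW.zero_free (ε := 1 / (2 * (b + 1))) (by positivity)
  have e1 : ∀ᶠ L : ℝ in atTop, 10 * 4 ^ 109 ≤ L ^ (1 / 220 : ℝ) :=
    (tendsto_rpow_atTop (by norm_num)).eventually_ge_atTop _
  have e2 : ∀ᶠ L : ℝ in atTop, (m0 : ℝ) ≤ L ^ (1 / 110 : ℝ) :=
    (tendsto_rpow_atTop (by norm_num)).eventually_ge_atTop _
  have e3 : ∀ᶠ L : ℝ in atTop, L ^ (-(109 / 220) : ℝ) ≤ c :=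
    (tendsto_rpow_neg_atTop (by norm_num)).eventually_le_const c0
  obtain ⟨L0, hL0⟩ := eventually_atTop.1
    (e1.and (e2.and (e3.and ((eventually_ge_atTop 2).and (eventually_ge_atTop L1)))))
  refine ⟨L0, fun L hL q _ χ hq s hs1 hs0 hs h => ?_⟩
  obtain ⟨a1, a2, a3, a4, a5⟩ := hL0 L hL
  have L0 : 0 < L := by linarith
  have L1' : 1 ≤ L := by linarith
  have hq' : (q : ℝ) ≤ L ^ b := by
    rw [← Real.rpow_natCast]
    exact hq.trans (Real.rpow_le_rpow_of_exponent_le L1' (Nat.le_ceil B))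
  rcases eq_or_ne χ 1 with rfl | hχ
  · obtain ⟨d, d0, -, d2⟩ := L_one (q := q) hs0 hs1
    rw [d2, mul_eq_zero] at hs
    refine (hz L a5 s (hs.resolve_left d0) h).trans ?_
    gcongr
    exact le_max_left _ _
  refine le_trans (?_ : s.re ≤ 1 - L ^ (-(219 / 220) : ℝ)) (by gcongr; exact le_max_right _ _)
  have s1 : s.re < 1 := by
    by_contra! h
    exact χ.LFunction_ne_zero_of_one_le_re (Or.inl hχ) h hs
  rcases le_total |s.im| 2 with h2 | h2
  · by_contra! hh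
    refine (hc q χ hχ 2 (L ^ (-(219 / 220) : ℝ)) (by norm_num) (by positivity) (le_trans ?_ a3) s
      (by rw [abs_le]; constructor <;> linarith) h2).1 hs
    calc _ ≤ L ^ (-(219 / 220) : ℝ) * (L ^ b * L) ^ (1 / (2 * (b + 1)) : ℝ) := by gcongr
      _ = _ := by
        rw [← pow_succ, ← Real.rpow_natCast, ← Real.rpow_mul L0.le, ← Real.rpow_add L0]
        congr 1
        push_cast
        field_simp
        norm_num
  · set r := L ^ (1 / 110 : ℝ) with hr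
    have r1 : 1 ≤ r := Real.one_le_rpow (by linarith) (by norm_num)
    have r2 : r ^ 110 = L := by
      rw [hr, ← Real.rpow_natCast, ← Real.rpow_mul L0.le]; norm_num
    have m1 : 2 * r ≤ ⌈2 * r⌉₊ := Nat.le_ceil _
    have m2 : (⌈2 * r⌉₊ : ℝ) ≤ 4 * r := by
      linarith [Nat.ceil_lt_add_one (by linarith : 0 ≤ 2 * r)]
    have b1 : L + 2 ≤ (⌈2 * r⌉₊ : ℝ) ^ 110 := by
      calc L + 2 ≤ 2 ^ 110 * r ^ 110 := by rw [r2]; linarith
        _ = (2 * r) ^ 110 := by ring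
        _ ≤ _ := by gcongr
    have H := hm0 ⌈2 * r⌉₊ (by exact_mod_cast (by linarith : (m0 : ℝ) ≤ ⌈2 * r⌉₊)) q χ
      (hq'.trans (by rw [pow_mul]; gcongr; linarith)) s hs h2 (by
      refine le_trans ?_ (Real.exp_le_exp.2 b1)
      rw [Real.exp_add]
      nlinarith [Real.add_one_le_exp 2, Real.add_one_le_exp L])
    refine H.trans ?_
    rw [Real.rpow_neg L0.le, ← one_div]
    gcongr
    calc 10 * (⌈2 * r⌉₊ : ℝ) ^ 109 ≤ 10 * (4 * r) ^ 109 := by gcongr
      _ = 10 * 4 ^ 109 * r ^ 109 := by ring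
      _ ≤ L ^ (1 / 220 : ℝ) * r ^ 109 := by gcongr
      _ = _ := by
        rw [hr, ← Real.rpow_natCast, ← Real.rpow_mul L0.le, ← Real.rpow_add L0]; norm_num

end Pool.Agent.Lib.MP_68a45e_nt.Tw
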