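import Pool.Agent.Lib.MP_68a45e_nt.Main

set_option autoImplicit false

namespace Pool.Agent.Lib.MP_68a45e_nt.UpperConstantOld

open Filter Topology N9a2a6718

/-- Upper bound for prime tuples with a constant below the sieve constant `2 ^ K * K !`,
where `K = k + 1` is the length of the tuple. -/
theorem result (k : ℕ) (hk : 1 ≤ k) (m : Fin k.succ → ℕ) (_h0 : m 0 = 0)
    (hm : Function.Injective m) :
    ∃ C : ℝ, 0 ≤ C ∧ Tendsto (HardyLittlewoodPartialProduct m) atTop (𝓝 C) ∧
      ∀ᶠ n : ℕ in atTop, (N9a2a6718.Nat.primeTupleCounting m n : ℝ) ≤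
        (1 - Real.log (k + 1) ^ 2 / (10 ^ 6 * (k + 1))) * 2 ^ (k + 1) * (k + 1).factorial *
          (C * ∫ t in (2 : ℝ)..n, 1 / t.log ^ (k + 1)) := by
  have h := Pool.Agent.Lib.MP_68a45e_nt.upper_constant k hk m hm
  simpa only [Nat.succ_eq_add_one, Nat.cast_add, Nat.cast_one] using h

end Pool.Agent.Lib.MP_68a45e_nt.UpperConstantOld
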