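import Pool.Agent.Lib.MP_68a45e_nt.Conv

set_option autoImplicit false

namespace Pool.Agent.Lib.MP_68a45e_nt

open Finset

variable {K : ℕ}

/-- properties of the quantity `L` -/
structure Lam (Zb : ℕ) (L : ℝ) : Prop where
  one : 1 ≤ L
  tau : ∀ n : ℕ, n ≠ 0 → n ≤ Zb → (n.divisors.card : ℝ) ≤ L
  harm : Hs Zb ≤ L

lemma Lam.hs {Zb : ℕ} {L : ℝ} (h : Lam Zb L) {a : ℕ} (ha : a ≤ Zb) : Hs a ≤ L :=
  (Hs_mono ha).trans h.harm

lemma Lam.hspow {Zb : ℕ} {L : ℝ} (h : Lam Zb L) {a : ℕ} (ha : a ≤ Zb) (k : ℕ) :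
    Hs a ^ k ≤ L ^ k := pow_le_pow_left₀ (Hs_nonneg a) (h.hs ha) k

lemma Lam.card_dvd {Zb : ℕ} {L : ℝ} (h : Lam Zb L) (P : Finset ℕ) {n : ℕ} (hn : n ≠ 0)
    (hZ : n ≤ Zb) : ((P.filter (fun p => p ∣ n)).card : ℝ) ≤ L := by
  refine le_trans ?_ (h.tau n hn hZ)
  have : (P.filter (fun p => p ∣ n)).card ≤ n.divisors.card :=
    card_le_card (fun p hp => Nat.mem_divisors.mpr ⟨(mem_filter.mp hp).2, hn⟩)
  exact_mod_cast this

lemma Lam.card_tuples {Zb : ℕ} {L : ℝ} (h : Lam Zb L) (T : Finset (Fin K → ℕ)) (D : ℕ)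
    (hD : D ≤ Zb) (hT : ∀ q ∈ T, 0 < ∏ l, q l ∧ ∏ l, q l ≤ D) : (T.card : ℝ) ≤ D * L ^ K :=
  (card_tuples_le T D hT).trans (mul_le_mul_of_nonneg_left (h.hspow hD K) (by positivity))

namespace Setup
variable (S : Setup K)

/-- the main part of the bilinear sum -/
lemma xi_main (i : Fin K) (Zb : ℕ) (L : ℝ) (hL : Lam Zb L) (Q M0 M1 R0 Y n l : ℕ)
    (T : Finset (Fin K → ℕ))
    (hT : ∀ q ∈ T, S.Adm q ∧ PC q ∧ ∏ l, q l ≤ Q ∧ M0 ≤ q i ∧ q i ≤ M1)
    (cls : (Fin K → ℕ) → ℕ)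
    (hcls : ∀ o, S.Adm o → PC o → ∀ n : ℕ, (n ≡ S.b [MOD S.W] ∧ ∀ l, o l ∣ n + S.h l) ↔
      n ≡ cls o [MOD S.W * ∏ l, o l])
    (P : Finset ℕ) (hP : ∀ p ∈ P, p.Prime ∧ p ≤ Y) (hY : 1 ≤ Y) (hPc : P.card ≤ Y)
    (γ : ℕ → ℝ) (hγ : ∀ p ∈ P, |γ p| ≤ 1)
    (I : Finset ℕ) (PP : ℕ → Finset ℕ) (hPP : ∀ κ ∈ I, PP κ ⊆ P) (t : ℕ → ℕ → ℕ)
    (hn : 0 < n) (hl : n + 1 = 2 * l) (hM0 : 0 < M0) (hQ : Q ≤ R0 * M0)
    (hQZ : Q ≤ Zb) (hRZ : S.W * R0 ≤ Zb) (hYZ : 2 * l * Y ^ (2 * l) ≤ Zb) :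
    (∑ κ ∈ I, ∑ q ∈ T, |∑ p ∈ (PP κ).filter
        (fun p => p.Coprime (S.W * ∏ l, Function.update q i 1 l)),
      γ p * dev (S.W * ∏ l, Function.update q i 1 l) (t κ (q i))
        (((cls (Function.update q i 1) + S.h i : ℕ) : ZMod _) * (p : ZMod _)⁻¹ *
          (q i : ZMod _)⁻¹)|) ^ (n + 1) ≤
      (I.card * (Q * L ^ (K + 1))) ^ n * (I.card * ((M1 + S.W * R0) * L ^ (K + 1) *
        (R0 * (l ^ (2 * l) * (Y : ℝ) ^ l) + (Y : ℝ) ^ (2 * l) * L))) := by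
  classical
  have hL0 : 0 ≤ L := le_trans zero_le_one hL.one
  set O := T.image (fun q => Function.update q i 1) with hO
  set Sm : (Fin K → ℕ) → Finset ℕ :=
    fun o => (T.filter (fun q => Function.update q i 1 = o)).image (fun q => q i) with hSm
  set Φ : ℕ → (Fin K → ℕ) → ℕ → ℝ := fun κ o m => |∑ p ∈ (PP κ).filter
        (fun p => p.Coprime (S.W * ∏ l, o l)),
      γ p * dev (S.W * ∏ l, o l) (t κ m)
        (((cls o + S.h i : ℕ) : ZMod _) * (p : ZMod _)⁻¹ * (m : ZMod _)⁻¹)| with hΦ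
  have hinj : ∀ o, Set.InjOn (fun q : Fin K → ℕ => q i)
      (T.filter (fun q => Function.update q i 1 = o) : Set _) := by
    intro o q hq q' hq' e
    have h1 := (mem_filter.mp hq).2
    have h2 := (mem_filter.mp hq').2
    funext j
    by_cases hj : j = i
    · rw [hj]; exact e
    · have := congrFun (h1.trans h2.symm) j
      simpa [Function.update_of_ne hj] using this
  have e1 : ∀ κ, ∑ q ∈ T, Φ κ (Function.update q i 1) (q i) = ∑ o ∈ O, ∑ m ∈ Sm o, Φ κ o m := by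
    intro κ
    rw [← sum_fiberwise_of_maps_to (s := T) (t := O) (g := fun q => Function.update q i 1)
      (fun q hq => mem_image_of_mem _ hq)]
    apply sum_congr rfl
    intro o _
    rw [hSm, sum_image (hinj o)]
    apply sum_congr rfl
    intro q hq
    rw [(mem_filter.mp hq).2]
  change (∑ κ ∈ I, ∑ q ∈ T, Φ κ (Function.update q i 1) (q i)) ^ (n + 1) ≤ _
  simp only [e1]
  rw [← sum_product']
  have hOp : ∀ o ∈ O, S.Adm o ∧ PC o ∧ o i = 1 ∧ ∏ l, o l ≤ R0 := by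
    intro o ho
    obtain ⟨q, hq, rfl⟩ := mem_image.mp ho
    obtain ⟨a1, a2, a3, a4, a5⟩ := hT q hq
    refine ⟨a1.update i (one_dvd _), a2.update_one i, Function.update_self _ _ _, ?_⟩
    rw [prod_eq_mul_update q i] at a3
    have : (∏ l, Function.update q i 1 l) * M0 ≤ R0 * M0 := by
      calc _ ≤ (∏ l, Function.update q i 1 l) * q i := Nat.mul_le_mul_left _ a4
        _ ≤ Q := by rwa [mul_comm]
        _ ≤ _ := hQ
    exact Nat.le_of_mul_le_mul_right this hM0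
  have hH := holder2 (I ×ˢ O) (fun u => ∑ m ∈ Sm u.2, Φ u.1 u.2 m) (fun u => (Sm u.2).card * L)
    (fun u => (M1 + S.W * R0) * L * Jc (S.W * ∏ l, u.2 l) P l) n hn
    (fun u _ => sum_nonneg (fun _ _ => abs_nonneg _)) (fun u _ => by positivity)
    (fun u _ => by positivity) (by
      intro u hu
      obtain ⟨hκ, ho⟩ := mem_product.mp hu
      obtain ⟨a1, a2, a3, a4⟩ := hOp _ ho
      have hr0 : 0 < S.W * ∏ l, u.2 l := Nat.mul_pos S.hW a1.prod_pos
      have : NeZero (S.W * ∏ l, u.2 l) := ⟨hr0.ne'⟩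
      have hrR : S.W * ∏ l, u.2 l ≤ S.W * R0 := Nat.mul_le_mul_left _ a4
      have hb := bil (S.W * ∏ l, u.2 l) _ (S.unit_class a1 i a3 (hcls _ a1 a2)) M1 (Sm u.2)
        (by
          intro m hm
          obtain ⟨q, hq, rfl⟩ := mem_image.mp hm
          exact (hT q (mem_filter.mp hq).1).2.2.2.2)
        (by
          intro m hm
          obtain ⟨q, hq, rfl⟩ := mem_image.mp hm
          rw [← (mem_filter.mp hq).2]
          exact S.cop_mod (hT q (mem_filter.mp hq).1).1 (hT q (mem_filter.mp hq).1).2.1 i)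
        (t u.1) ((PP u.1).filter (fun p => p.Coprime (S.W * ∏ l, u.2 l)))
        (fun p hp => (mem_filter.mp hp).2) γ
        (fun p hp => hγ p (hPP _ hκ (mem_filter.mp hp).1)) n l hn hl
      refine hb.trans ?_
      have hH1 : Hs (S.W * ∏ l, u.2 l) ≤ L := hL.hs (hrR.trans hRZ)
      have hH0 := Hs_nonneg (S.W * ∏ l, u.2 l)
      have hJ : (Jc (S.W * ∏ l, u.2 l) ((PP u.1).filter
          (fun p => p.Coprime (S.W * ∏ l, u.2 l))) l : ℝ) ≤ Jc (S.W * ∏ l, u.2 l) P l := by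
        exact_mod_cast Jc_mono _ ((filter_subset _ _).trans (hPP _ hκ)) l
      have hrR' : ((S.W * ∏ l, u.2 l : ℕ) : ℝ) ≤ S.W * R0 := by exact_mod_cast hrR
      gcongr)
  refine hH.trans ?_
  have w1 : ∑ u ∈ I ×ˢ O, ((Sm u.2).card : ℝ) * L ≤ I.card * (Q * L ^ (K + 1)) := by
    rw [sum_product]
    simp only [sum_const, nsmul_eq_mul]
    apply mul_le_mul_of_nonneg_left _ (by positivity)
    rw [← sum_mul, pow_succ, ← mul_assoc]
    apply mul_le_mul_of_nonneg_right _ hL0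
    have h1 : ∑ o ∈ O, (Sm o).card = T.card := by
      rw [card_eq_sum_card_image (fun q => Function.update q i 1) T]
      exact sum_congr rfl (fun o _ => card_image_of_injOn (hinj o))
    have h2 : ∑ o ∈ O, ((Sm o).card : ℝ) = T.card := by exact_mod_cast h1
    rw [h2]
    exact hL.card_tuples T Q hQZ (fun q hq => ⟨(hT q hq).1.prod_pos, (hT q hq).2.2.1⟩)
  have w2 : ∑ u ∈ I ×ˢ O, ((M1 : ℝ) + S.W * R0) * L * Jc (S.W * ∏ l, u.2 l) P l ≤
      I.card * ((M1 + S.W * R0) * L ^ (K + 1) *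
        (R0 * (l ^ (2 * l) * (Y : ℝ) ^ l) + (Y : ℝ) ^ (2 * l) * L)) := by
    rw [sum_product]
    simp only [sum_const, nsmul_eq_mul]
    apply mul_le_mul_of_nonneg_left _ (by positivity)
    rw [← mul_sum, pow_succ', mul_assoc, mul_assoc, mul_assoc]
    apply mul_le_mul_of_nonneg_left _ (by positivity)
    apply mul_le_mul_of_nonneg_left _ hL0
    have hR0 : R0 ≤ Zb := (Nat.le_mul_of_pos_left _ S.hW).trans hRZ
    have h1 : ∑ o ∈ O, (Jc (S.W * ∏ l, o l) P l : ℝ) ≤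
        L ^ K * ∑ r ∈ Icc 1 R0, (Jc (S.W * r) P l : ℝ) := by
      rw [← sum_fiberwise_of_maps_to (s := O) (t := Icc 1 R0) (g := fun o => ∏ l, o l)
        (fun o ho => mem_Icc.mpr ⟨(hOp o ho).1.prod_pos, (hOp o ho).2.2.2⟩), mul_sum]
      apply sum_le_sum
      intro r hr
      rw [sum_congr rfl (g := fun _ => (Jc (S.W * r) P l : ℝ))
        (fun o ho => by rw [(mem_filter.mp ho).2]), sum_const, nsmul_eq_mul]
      apply mul_le_mul_of_nonneg_right _ (by positivity)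
      have hr0 : r ≠ 0 := by have := (mem_Icc.mp hr).1; omega
      apply card_dvd_tuples_le _ (fun _ => r) L
        (fun _ => ⟨hr0, hL.tau r hr0 ((mem_Icc.mp hr).2.trans hR0)⟩)
      intro o ho l
      rw [← (mem_filter.mp ho).2]
      exact dvd_prod_of_mem _ (mem_univ l)
    refine h1.trans (mul_le_mul_of_nonneg_left ?_ (by positivity))
    refine (Jc_sum P (fun p hp => (hP p hp).1) Y hY (fun p hp => (hP p hp).2) l S.W R0 Zb L
      hL.tau hYZ hL0).trans ?_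
    have : (P.card : ℝ) ≤ Y := by exact_mod_cast hPc
    gcongr
  exact mul_le_mul (pow_le_pow_left₀ (sum_nonneg (fun u _ => by positivity)) w1 n) w2
    (sum_nonneg (fun u _ => by positivity)) (by positivity)

end Setup

lemma root_bound (A : ℝ) (L : ℝ) (hL : 1 ≤ L) (I Q M1 W R0 Y s n l K : ℕ)
    (hl : n + 1 = 2 * l) (h1 : R0 ≤ Y ^ l) (h2 : M1 ≤ R0) (h3 : R0 * s ^ (2 * l) ≤ Q) (hs : 0 < s)
    (h : A ^ (n + 1) ≤ (I * (Q * L ^ (K + 1))) ^ n * (I * ((M1 + W * R0) * L ^ (K + 1) *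
        (R0 * (l ^ (2 * l) * (Y : ℝ) ^ l) + (Y : ℝ) ^ (2 * l) * L)))) :
    A ≤ L ^ (K + 2) * ((W + 1) * (l ^ (2 * l) + 1) * I * Q * Y / s) := by
  have hs' : (0 : ℝ) < s := by exact_mod_cast hs
  have h1' : (R0 : ℝ) ≤ (Y : ℝ) ^ l := by exact_mod_cast h1
  have h2' : (M1 : ℝ) ≤ R0 := by exact_mod_cast h2
  have h3' : (R0 : ℝ) ≤ Q / (s : ℝ) ^ (n + 1) := by
    rw [le_div_iff₀ (by positivity), hl]; exact_mod_cast h3
  set C : ℝ := (W + 1) * (l ^ (2 * l) + 1) with hC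
  have hC1 : 1 ≤ C := by
    have : (0 : ℝ) ≤ W := by positivity
    have : (0 : ℝ) ≤ (l : ℝ) ^ (2 * l) := by positivity
    nlinarith
  have hL0 : 0 ≤ L := by linarith
  apply le_of_pow_le_pow_left₀ (n := n + 1) (by omega) (by positivity)
  refine h.trans ?_
  have a1 : (R0 * (l ^ (2 * l) * (Y : ℝ) ^ l) + (Y : ℝ) ^ (2 * l) * L) ≤
      (l ^ (2 * l) + 1) * (Y : ℝ) ^ (n + 1) * L := by
    have b1 : (R0 : ℝ) * (l ^ (2 * l) * (Y : ℝ) ^ l) ≤ l ^ (2 * l) * (Y : ℝ) ^ (2 * l) * L := by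
      calc (R0 : ℝ) * (l ^ (2 * l) * (Y : ℝ) ^ l) ≤ (Y : ℝ) ^ l * (l ^ (2 * l) * (Y : ℝ) ^ l) := by
            gcongr
        _ = l ^ (2 * l) * (Y : ℝ) ^ (2 * l) * 1 := by ring
        _ ≤ _ := by gcongr
    rw [hl]; linarith
  have a2 : ((M1 : ℝ) + W * R0) ≤ (W + 1) * (Q / (s : ℝ) ^ (n + 1)) := by
    calc ((M1 : ℝ) + W * R0) ≤ (W + 1) * R0 := by linarith
      _ ≤ _ := by gcongr
  have a3 : L ^ (K + 1) ≤ L ^ (K + 2) := pow_le_pow_right₀ hL (by omega)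
  have a4 : C ≤ C ^ (n + 1) := le_self_pow₀ hC1 (by omega)
  calc _ ≤ (I * (Q * L ^ (K + 2))) ^ n * (I * (((W + 1) * (Q / (s : ℝ) ^ (n + 1))) * L ^ (K + 1) *
        ((l ^ (2 * l) + 1) * (Y : ℝ) ^ (n + 1) * L))) := by gcongr
    _ = C * (L ^ (K + 2) * (I * Q * Y / s)) ^ (n + 1) := by
        rw [hC]; simp only [mul_pow, div_pow]; ring
    _ ≤ C ^ (n + 1) * (L ^ (K + 2) * (I * Q * Y / s)) ^ (n + 1) := by gcongr
    _ = _ := by rw [← mul_pow]; congr 1; ring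

namespace Setup
variable (S : Setup K)

lemma xi (i : Fin K) (Zb : ℕ) (L : ℝ) (hL : Lam Zb L) (y Z Q M0 M1 R0 s n l : ℕ)
    (T : Finset (Fin K → ℕ))
    (hT : ∀ q ∈ T, S.Adm q ∧ ∏ l, q l ≤ Q ∧ M0 ≤ q i ∧ q i ≤ M1)
    (P : Finset ℕ) (hP : ∀ p ∈ P, p.Prime ∧ p ∣ S.N ∧ S.h i < p ∧ y * Z ≤ p ∧ p < y * y * Z)
    (γ : ℕ → ℝ) (hγ : ∀ p ∈ P, |γ p| ≤ 1) (hy : 0 < y) (hZ : 0 < Z)
    (hn : 0 < n) (hl : n + 1 = 2 * l) (hM0 : 0 < M0) (hQ : Q ≤ R0 * M0)
    (h1 : R0 ≤ (y * y * Z) ^ l) (h2 : M1 ≤ R0) (h3 : R0 * s ^ (2 * l) ≤ Q) (hs : 0 < s)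
    (hQZ : Q ≤ Zb) (hRZ : S.W * R0 ≤ Zb) (hYZ : 2 * l * (y * y * Z) ^ (2 * l) ≤ Zb)
    (hYZ' : y * y * Z ≤ Zb) (hxZ : ∀ j, S.x + (S.x + S.h i) / y + S.h j ≤ Zb) :
    ∑ q ∈ T, |∑ p ∈ P, γ p * S.Del (ind S.h q * indp (S.h i) p)| ≤
      L ^ (K + 2) * ((S.W + 1) * (l ^ (2 * l) + 1) * (y * y : ℕ) * Q * (y * y * Z : ℕ) / s +
        2 * Q + 2 * ((S.x + S.h i) / y : ℕ) + S.h i + (y * y * Z : ℕ) * M1) := by
  classical
  have hL0 : 0 ≤ L := le_trans zero_le_one hL.one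
  set Y := y * y * Z with hY
  have hY1 : 1 ≤ Y := Nat.mul_pos (Nat.mul_pos hy hy) hZ
  have hPI : P ⊆ Icc 1 Y := fun p hp => mem_Icc.mpr ⟨(hP p hp).1.pos, (hP p hp).2.2.2.2.le⟩
  have hPc : P.card ≤ Y := (card_le_card hPI).trans (by simp)
  set T' := T.filter PC with hT'
  have hT'p : ∀ q ∈ T', S.Adm q ∧ PC q ∧ ∏ l, q l ≤ Q ∧ M0 ≤ q i ∧ q i ≤ M1 := fun q hq =>
    ⟨(hT q (mem_filter.mp hq).1).1, (mem_filter.mp hq).2, (hT q (mem_filter.mp hq).1).2⟩
  have e0 : ∑ q ∈ T, |∑ p ∈ P, γ p * S.Del (ind S.h q * indp (S.h i) p)| =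
      ∑ q ∈ T', |∑ p ∈ P, γ p * S.Del (ind S.h q * indp (S.h i) p)| := by
    rw [hT', sum_filter]
    apply sum_congr rfl
    intro q hq
    split_ifs with h
    · rfl
    · simp [S.ind_eq_zero (hT q hq).1 h]
  have hex : ∀ o : Fin K → ℕ, ∃ a : ℕ, S.Adm o → PC o →
      ∀ n : ℕ, (n ≡ S.b [MOD S.W] ∧ ∀ l, o l ∣ n + S.h l) ↔ n ≡ a [MOD S.W * ∏ l, o l] := by
    intro o
    by_cases h : S.Adm o ∧ PC o
    · obtain ⟨a, ha⟩ := S.exists_classW h.1 h.2
      exact ⟨a, fun _ _ => ha⟩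
    · exact ⟨0, fun a b => absurd ⟨a, b⟩ h⟩
  choose cls hcls using hex
  set X := S.x + S.h i with hX
  set D : (Fin K → ℕ) → ℕ → ℝ := fun q p =>
    dev (S.W * ∏ l, Function.update q i 1 l) (X / (p / Z * Z * q i))
        (((cls (Function.update q i 1) + S.h i : ℕ) : ZMod _) * (p : ZMod _)⁻¹ *
          (q i : ZMod _)⁻¹) with hD
  set E : (Fin K → ℕ) → ℕ → ℝ := fun q p => (if p ∣ ∏ l, q l then 2 else 0) +
    (∑ n ∈ Ioc S.x (S.x + X / y), ind S.h q n * indp (S.h i) p n +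
        1 / ((∏ l, Function.update q i 1 l : ℕ) : ℝ) +
        (((X / y : ℕ) : ℝ) + S.h i) * (1 / (p : ℝ) * (1 / ((∏ l, q l : ℕ) : ℝ)))) with hE
  have hcomp : ∀ q ∈ T', ∀ p ∈ P, |S.Del (ind S.h q * indp (S.h i) p) -
      (if p.Coprime (S.W * ∏ l, Function.update q i 1 l) then D q p else 0)| ≤ E q p := by
    intro q hq p hp
    obtain ⟨a1, a2, a3, a4, a5⟩ := hT'p q hq
    obtain ⟨b1, b2, b3, b4, b5⟩ := hP p hp
    have hnn : 0 ≤ ∑ n ∈ Ioc S.x (S.x + X / y), ind S.h q n * indp (S.h i) p n +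
        1 / ((∏ l, Function.update q i 1 l : ℕ) : ℝ) +
        (((X / y : ℕ) : ℝ) + S.h i) * (1 / (p : ℝ) * (1 / ((∏ l, q l : ℕ) : ℝ))) := by
      have := sum_nonneg (s := Ioc S.x (S.x + X / y))
        (fun n _ => mul_nonneg (ind_nonneg S.h q n) (indp_nonneg (S.h i) p n))
      positivity
    by_cases hd : p ∣ ∏ l, q l
    · have c1 : |S.Del (ind S.h q * indp (S.h i) p)| ≤ 1 := by
        rw [ind_mul_indp]; exact S.Del_ind_le (a1.update i (Nat.lcm_dvd (a1 i) b2))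
      have c2 : |(if p.Coprime (S.W * ∏ l, Function.update q i 1 l) then D q p else 0)| ≤ 1 := by
        split_ifs
        · exact dev_le _ _ (Nat.mul_pos S.hW (a1.update i (one_dvd _)).prod_pos) _
        · simp
      have c3 := abs_sub (S.Del (ind S.h q * indp (S.h i) p))
        (if p.Coprime (S.W * ∏ l, Function.update q i 1 l) then D q p else 0)
      simp only [hE, if_pos hd]
      linarith
    · rw [if_pos (S.cop_mod_prime i b1 b2 hd)]
      simp only [hE, if_neg hd, zero_add]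
      exact S.Del_sub_dev a1 a2 i b1 b2 hd b3 rfl
        (hcls _ (a1.update i (one_dvd _)) (a2.update_one i)) y Z hy hZ b4
  have hsplit : ∀ q ∈ T', |∑ p ∈ P, γ p * S.Del (ind S.h q * indp (S.h i) p)| ≤
      ∑ κ ∈ range (y * y), |∑ p ∈ (P.filter (fun p => p / Z = κ)).filter
        (fun p => p.Coprime (S.W * ∏ l, Function.update q i 1 l)),
      γ p * dev (S.W * ∏ l, Function.update q i 1 l) (X / (κ * Z * q i))
        (((cls (Function.update q i 1) + S.h i : ℕ) : ZMod _) * (p : ZMod _)⁻¹ *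
          (q i : ZMod _)⁻¹)| + ∑ p ∈ P, E q p := by
    intro q hq
    have f1 : ∑ p ∈ P, γ p * S.Del (ind S.h q * indp (S.h i) p) =
        ∑ p ∈ P, γ p * (if p.Coprime (S.W * ∏ l, Function.update q i 1 l) then D q p else 0) +
        ∑ p ∈ P, γ p * (S.Del (ind S.h q * indp (S.h i) p) -
          (if p.Coprime (S.W * ∏ l, Function.update q i 1 l) then D q p else 0)) := by
      rw [← sum_add_distrib]; apply sum_congr rfl; intro p _; ring
    rw [f1]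
    refine (abs_add_le _ _).trans (add_le_add ?_ ?_)
    · rw [← sum_fiberwise_of_maps_to (s := P) (t := range (y * y)) (g := fun p => p / Z)
        (fun p hp => mem_range.mpr ((Nat.div_lt_iff_lt_mul hZ).mpr (hP p hp).2.2.2.2))]
      refine (abs_sum_le_sum_abs _ _).trans (le_of_eq (sum_congr rfl fun κ _ => ?_))
      congr 1
      rw [sum_filter (s := P.filter (fun p => p / Z = κ))]
      apply sum_congr rfl
      intro p hp
      simp only [hD, (mem_filter.mp hp).2, mul_ite, mul_zero]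
    · refine (abs_sum_le_sum_abs _ _).trans (sum_le_sum fun p hp => ?_)
      rw [abs_mul]
      calc _ ≤ 1 * E q p := mul_le_mul (hγ p hp) (hcomp q hq p hp) (abs_nonneg _) zero_le_one
        _ = _ := one_mul _
  rw [e0]
  refine (sum_le_sum hsplit).trans ?_
  rw [sum_add_distrib, sum_comm]
  have m1 := root_bound _ L hL.one
    _ Q M1 S.W R0 Y s n l K hl h1 h2 h3 hs
    (S.xi_main i Zb L hL Q M0 M1 R0 Y n l T' hT'p cls hcls P
      (fun p hp => ⟨(hP p hp).1, (hP p hp).2.2.2.2.le⟩) hY1 hPc γ hγ (range (y * y))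
      (fun κ => P.filter (fun p => p / Z = κ)) (fun _ _ => filter_subset _ _)
      (fun κ m => X / (κ * Z * m)) hn hl hM0 hQ hQZ hRZ hYZ)
  rw [card_range] at m1
  have hTc : (T'.card : ℝ) ≤ Q * L ^ K :=
    hL.card_tuples T' Q hQZ (fun q hq => ⟨(hT'p q hq).1.prod_pos, (hT'p q hq).2.2.1⟩)
  have hK1 : L ^ (K + 1) ≤ L ^ (K + 2) := pow_le_pow_right₀ hL.one (by omega)
  have hK0 : L ^ K ≤ L ^ (K + 2) := pow_le_pow_right₀ hL.one (by omega)
  have m2 : ∑ q ∈ T', ∑ p ∈ P, (if p ∣ ∏ l, q l then (2 : ℝ) else 0) ≤ L ^ (K + 2) * (2 * Q) := by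
    calc _ ≤ ∑ _q ∈ T', 2 * L := by
          apply sum_le_sum
          intro q hq
          rw [← sum_filter, sum_const, nsmul_eq_mul, mul_comm]
          have := hL.card_dvd P (hT'p q hq).1.prod_pos.ne' ((hT'p q hq).2.2.1.trans hQZ)
          linarith
      _ = T'.card * (2 * L) := by simp
      _ ≤ Q * L ^ K * (2 * L) := by gcongr
      _ = L ^ (K + 1) * (2 * Q) := by ring
      _ ≤ _ := by gcongr
  have m3 : ∑ q ∈ T', ∑ p ∈ P, ∑ n ∈ Ioc S.x (S.x + X / y), ind S.h q n * indp (S.h i) p n ≤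
      L ^ (K + 2) * (X / y : ℕ) := by
    have : ∀ q ∈ T', ∑ p ∈ P, ∑ n ∈ Ioc S.x (S.x + X / y), ind S.h q n * indp (S.h i) p n =
        ∑ n ∈ Ioc S.x (S.x + X / y), ind S.h q n * ∑ p ∈ P, indp (S.h i) p n := by
      intro q _
      rw [sum_comm]; simp only [mul_sum]
    rw [sum_congr rfl this, sum_comm]
    calc _ ≤ ∑ _n ∈ Ioc S.x (S.x + X / y), L ^ (K + 1) := by
          apply sum_le_sum
          intro n hn
          have hn' := mem_Ioc.mp hn
          have g0 : ∀ j, n + S.h j ≠ 0 ∧ n + S.h j ≤ Zb := fun j =>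
            ⟨by omega, le_trans (by omega) (hxZ j)⟩
          rw [← sum_mul, pow_succ]
          apply mul_le_mul _ _ (sum_nonneg (fun _ _ => indp_nonneg _ _ _)) (by positivity)
          · simp only [ind]
            rw [sum_boole]
            exact card_dvd_tuples_le _ (fun j => n + S.h j) L
              (fun j => ⟨(g0 j).1, hL.tau _ (g0 j).1 (g0 j).2⟩) (fun q hq => (mem_filter.mp hq).2)
          · simp only [indp]
            rw [sum_boole]
            exact hL.card_dvd P (g0 i).1 (g0 i).2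
      _ = (X / y : ℕ) * L ^ (K + 1) := by simp
      _ ≤ _ := by rw [mul_comm]; gcongr
  have m4 : ∑ q ∈ T', ∑ _p ∈ P, (1 : ℝ) / ((∏ l, Function.update q i 1 l : ℕ) : ℝ) ≤
      L ^ (K + 2) * (Y * M1) := by
    simp only [sum_const, nsmul_eq_mul]
    rw [← mul_sum]
    have g1 : ∑ q ∈ T', (1 : ℝ) / ((∏ l, Function.update q i 1 l : ℕ) : ℝ) ≤ M1 * L ^ K := by
      rw [← sum_fiberwise_of_maps_to (s := T') (t := Icc 1 M1) (g := fun q => q i)
        (fun q hq => mem_Icc.mpr ⟨(hT'p q hq).1.pos i, (hT'p q hq).2.2.2.2⟩)]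
      calc _ ≤ ∑ _m ∈ Icc 1 M1, L ^ K := by
            apply sum_le_sum
            intro m _
            rw [← sum_image (s := T'.filter (fun q => q i = m))
              (g := fun q => Function.update q i 1)
              (f := fun o => (1 : ℝ) / ((∏ l, o l : ℕ) : ℝ))]
            · refine (sum_inv_prod_le _ Q ?_).trans (hL.hspow hQZ K)
              intro o ho
              obtain ⟨q, hq, rfl⟩ := mem_image.mp ho
              obtain ⟨a1, a2, a3, a4, a5⟩ := hT'p q (mem_filter.mp hq).1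
              apply mem_Icc_of_prod_le (a1.update i (one_dvd _)).prod_pos
              rw [prod_eq_mul_update q i] at a3
              exact (Nat.le_mul_of_pos_left _ (a1.pos i)).trans a3
            · intro q hq q' hq' e
              funext j
              by_cases hj : j = i
              · rw [hj, (mem_filter.mp hq).2, (mem_filter.mp hq').2]
              · simpa [Function.update_of_ne hj] using congrFun e j
        _ = _ := by simp
    have : (P.card : ℝ) ≤ Y := by exact_mod_cast hPc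
    calc _ ≤ (Y : ℝ) * (M1 * L ^ K) := by gcongr
      _ = L ^ K * (Y * M1) := by ring
      _ ≤ _ := by gcongr
  have m5 : ∑ q ∈ T', ∑ p ∈ P,
      (((X / y : ℕ) : ℝ) + S.h i) * (1 / (p : ℝ) * (1 / ((∏ l, q l : ℕ) : ℝ))) ≤
      L ^ (K + 2) * ((X / y : ℕ) + S.h i) := by
    simp only [← mul_sum, ← sum_mul]
    have g1 : ∑ p ∈ P, (1 : ℝ) / p ≤ L :=
      (sum_le_sum_of_subset_of_nonneg hPI (fun _ _ _ => by positivity)).trans (hL.hs hYZ')
    have g2 : ∑ q ∈ T', (1 : ℝ) / ((∏ l, q l : ℕ) : ℝ) ≤ L ^ K :=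
      (sum_inv_prod_le _ Q (fun q hq => mem_Icc_of_prod_le (hT'p q hq).1.prod_pos
        (hT'p q hq).2.2.1)).trans (hL.hspow hQZ K)
    calc _ ≤ (((X / y : ℕ) : ℝ) + S.h i) * (L * L ^ K) := by gcongr
      _ = L ^ (K + 1) * ((X / y : ℕ) + S.h i) := by ring
      _ ≤ _ := by gcongr
  simp only [hE, sum_add_distrib]
  linarith

end Setup

end Pool.Agent.Lib.MP_68a45e_nt
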